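import Pool.Agent.LSoup.Stmts

open MeasureTheory ProbabilityTheory Finset Filter Topology

open scoped Classical

noncomputable section

namespace LSoup

namespace CapM

lemma mem_Ed {D : Finset Z2} {e : Edge} : e ∈ Ed D ↔ src e ∈ D ∧ tgt e ∈ D := by
  unfold Ed
  simp [src, Finset.mem_filter, Finset.mem_product]

lemma brP_nonneg (D : Finset Z2) (f : Z2 → ℝ) (ω : Finset Edge) : 0 ≤ brP D f ω := by
  unfold brP
  refine mul_nonneg (Finset.prod_nonneg fun e _ => ?_) (Finset.prod_nonneg fun e _ => ?_)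
  · split_ifs with h
    · have : Real.exp (-2 * (f (src e) * f (tgt e))) ≤ 1 := by
        apply Real.exp_le_one_iff.mpr
        linarith
      linarith
    · exact le_rfl
  · split_ifs
    · exact (Real.exp_pos _).le
    · exact zero_le_one

lemma sum_brP (D : Finset Z2) (f : Z2 → ℝ) : ∑ ω ∈ (Ed D).powerset, brP D f ω = 1 := by
  unfold brP
  rw [← Finset.prod_add]
  refine Finset.prod_eq_one fun e _ => ?_
  split_ifs <;> ring

lemma brP_neg (D : Finset Z2) (f : Z2 → ℝ) (ω : Finset Edge) :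
    brP D (fun x => -f x) ω = brP D f ω := by
  unfold brP
  simp only [neg_mul_neg]

lemma weight (D : Finset Z2) (f : Z2 → ℝ) (ω : Finset Edge) (hω : ω ⊆ Ed D) (y : ℝ) :
    (if ∀ e ∈ ω, 0 < f (src e) * f (tgt e) then
      (∏ e ∈ ω, (2 * Real.sinh (Jf f e))) * (∏ e ∈ Ed D \ ω, Real.exp (-Jf f e)) * y
    else 0) = brP D f ω * y * Real.exp (H (Ed D) f) := by
  have hH : Real.exp (H (Ed D) f) = (∏ e ∈ ω, Real.exp (f (src e) * f (tgt e))) *
      ∏ e ∈ Ed D \ ω, Real.exp (f (src e) * f (tgt e)) := by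
    unfold H
    rw [Real.exp_sum, ← Finset.prod_sdiff hω, mul_comm]
  have h2 : (∏ e ∈ Ed D \ ω, Real.exp (-Jf f e)) =
      (∏ e ∈ Ed D \ ω, if 0 < f (src e) * f (tgt e) then
        Real.exp (-2 * (f (src e) * f (tgt e))) else 1) *
      ∏ e ∈ Ed D \ ω, Real.exp (f (src e) * f (tgt e)) := by
    rw [← Finset.prod_mul_distrib]
    refine Finset.prod_congr rfl fun e _ => ?_
    unfold Jf
    split_ifs with h
    · rw [abs_of_pos h, ← Real.exp_add]
      congr 1
      ring
    · rw [abs_of_nonpos (not_lt.mp h)]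
      simp
  split_ifs with h
  · have h1 : (∏ e ∈ ω, (2 * Real.sinh (Jf f e))) =
        (∏ e ∈ ω, if 0 < f (src e) * f (tgt e) then
          1 - Real.exp (-2 * (f (src e) * f (tgt e))) else 0) *
        ∏ e ∈ ω, Real.exp (f (src e) * f (tgt e)) := by
      rw [← Finset.prod_mul_distrib]
      refine Finset.prod_congr rfl fun e he => ?_
      unfold Jf
      rw [if_pos (h e he), abs_of_pos (h e he), Real.sinh_eq, sub_mul, ← Real.exp_add]
      ring_nf
    rw [h1, h2, hH]
    unfold brP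
    ring
  · rw [not_forall] at h
    obtain ⟨e, he'⟩ := h
    rw [Classical.not_imp, not_lt] at he'
    obtain ⟨he, hle⟩ := he'
    have : brP D f ω = 0 := by
      unfold brP
      rw [Finset.prod_eq_zero he, zero_mul]
      rw [if_neg (not_lt.mpr hle)]
    rw [this]
    ring


/-! ### Measurability and bounds -/

lemma measurable_ext (D : Finset Z2) (a : ℝ) :
    Measurable fun ξ : D → ℝ => ext D a ξ := by
  refine measurable_pi_lambda _ fun x => ?_
  unfold ext
  by_cases h : x ∈ D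
  · simp only [h, dif_pos]
    exact measurable_pi_apply _
  · simp only [h, dif_neg, not_false_eq_true]
    exact measurable_const

lemma measurable_brP (D : Finset Z2) (ω : Finset Edge) :
    Measurable fun f : Z2 → ℝ => brP D f ω := by
  have hm : ∀ e : Edge, Measurable fun f : Z2 → ℝ => f (src e) * f (tgt e) := fun e =>
    (measurable_pi_apply _).mul (measurable_pi_apply _)
  unfold brP
  refine Measurable.mul (Finset.measurable_prod _ fun e _ => ?_)
    (Finset.measurable_prod _ fun e _ => ?_)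
  · exact Measurable.ite (measurableSet_lt measurable_const (hm e))
      (measurable_const.sub (((hm e).const_mul _).exp)) measurable_const
  · exact Measurable.ite (measurableSet_lt measurable_const (hm e))
      (((hm e).const_mul _).exp) measurable_const

lemma brP_dep (D : Finset Z2) (ω : Finset Edge) (hω : ω ⊆ Ed D) :
    DepOn D fun f : Z2 → ℝ => brP D f ω := by
  intro f f' h
  have h1 : ∀ e ∈ Ed D, f (src e) * f (tgt e) = f' (src e) * f' (tgt e) := by
    intro e he
    rw [h _ (mem_Ed.mp he).1, h _ (mem_Ed.mp he).2]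
  show brP D f ω = brP D f' ω
  unfold brP
  refine congrArg₂ (fun a b : ℝ => a * b) (Finset.prod_congr rfl fun e he => ?_)
    (Finset.prod_congr rfl fun e he => ?_)
  · rw [h1 e (hω he)]
  · rw [h1 e (Finset.mem_sdiff.mp he).1]

/-- indicator of a cluster of large capacity -/
def ind (D : Finset Z2) (q : Z2) (c : ℝ) (ω : Finset Edge) : ℝ :=
  if CapGE D (KO D ω {q}) c then 1 else 0

/-- probability of a cluster of large capacity, given the field -/
def SS (D : Finset Z2) (q : Z2) (c : ℝ) (f : Z2 → ℝ) : ℝ :=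
  ∑ ω ∈ (Ed D).powerset, brP D f ω * ind D q c ω

lemma ind_nonneg (D : Finset Z2) (q : Z2) (c : ℝ) (ω : Finset Edge) : 0 ≤ ind D q c ω := by
  unfold ind; split_ifs <;> norm_num

lemma ind_le (D : Finset Z2) (q : Z2) (c : ℝ) (ω : Finset Edge) : ind D q c ω ≤ 1 := by
  unfold ind; split_ifs <;> norm_num

lemma SS_nonneg (D : Finset Z2) (q : Z2) (c : ℝ) (f : Z2 → ℝ) : 0 ≤ SS D q c f :=
  Finset.sum_nonneg fun ω _ => mul_nonneg (brP_nonneg D f ω) (ind_nonneg D q c ω)

lemma SS_le (D : Finset Z2) (q : Z2) (c : ℝ) (f : Z2 → ℝ) : SS D q c f ≤ 1 := by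
  rw [← sum_brP D f]
  refine Finset.sum_le_sum fun ω _ => ?_
  calc brP D f ω * ind D q c ω ≤ brP D f ω * 1 :=
        mul_le_mul_of_nonneg_left (ind_le D q c ω) (brP_nonneg D f ω)
    _ = brP D f ω := mul_one _

lemma measurable_SS (D : Finset Z2) (q : Z2) (c : ℝ) : Measurable fun f => SS D q c f := by
  unfold SS
  exact Finset.measurable_sum _ fun ω _ => (measurable_brP D ω).mul_const _

lemma SS_dep (D : Finset Z2) (q : Z2) (c : ℝ) : DepOn D fun f => SS D q c f := by
  intro f f' h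
  unfold SS
  refine Finset.sum_congr rfl fun ω hω => ?_
  exact congrArg (fun a : ℝ => a * ind D q c ω) (brP_dep D ω (Finset.mem_powerset.mp hω) f f' h)

lemma SS_neg (D : Finset Z2) (q : Z2) (c : ℝ) (f : Z2 → ℝ) :
    SS D q c (fun x => -f x) = SS D q c f := by
  unfold SS
  simp only [brP_neg]

lemma ext_neg (D : Finset Z2) (ξ : D → ℝ) :
    ext D 0 (-ξ) = fun x => -ext D 0 ξ x := by
  funext x
  unfold ext
  split_ifs <;> simp

lemma En0_neg (D : Finset Z2) (f : Z2 → ℝ) : En0 D (fun x => -f x) = En0 D f := by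
  unfold En0 H
  simp

/-- Gaussian weight -/
def w0 (D : Finset Z2) (ξ : D → ℝ) : ℝ := Real.exp (-En0 D (ext D 0 ξ) / 2)

lemma w0_pos (D : Finset Z2) (ξ : D → ℝ) : 0 < w0 D ξ := Real.exp_pos _

lemma w0_neg (D : Finset Z2) (ξ : D → ℝ) : w0 D (-ξ) = w0 D ξ := by
  unfold w0
  rw [ext_neg, En0_neg]

lemma measurable_En0 (D : Finset Z2) : Measurable fun f : Z2 → ℝ => En0 D f := by
  unfold En0 H
  have h1 : ∀ x : Z2, Measurable fun f : Z2 → ℝ => f x ^ 2 := fun x =>
    (measurable_pi_apply x).pow_const 2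
  have h2 : ∀ e : Edge, Measurable fun f : Z2 → ℝ => f (src e) * f (tgt e) := fun e =>
    (measurable_pi_apply _).mul (measurable_pi_apply _)
  exact ((Finset.measurable_sum _ fun x _ => h1 x).const_mul 4).sub
    ((Finset.measurable_sum _ fun e _ => h2 e).const_mul 2)

lemma measurable_w0 (D : Finset Z2) : Measurable (w0 D) := by
  unfold w0
  exact (((measurable_En0 D).comp (measurable_ext D 0)).neg.div_const 2).exp

lemma gauss_int (D : Finset Z2) (k : ℝ) (hk : 0 < k) :
    Integrable fun ξ : D → ℝ => Real.exp (-k * ∑ x, ξ x ^ 2) := by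
  have h : (fun ξ : D → ℝ => Real.exp (-k * ∑ x, ξ x ^ 2)) =
      fun ξ : D → ℝ => ∏ x, Real.exp (-k * (ξ x) ^ 2) := by
    funext ξ
    rw [Finset.mul_sum, Real.exp_sum]
  rw [h]
  exact Integrable.fintype_prod fun _ => integrable_exp_neg_mul_sq hk

lemma lin_le (k t : ℝ) (hk : 0 < k) : |t| ≤ (1 + 1 / k) * Real.exp (k * t ^ 2) := by
  have h1 : k * t ^ 2 + 1 ≤ Real.exp (k * t ^ 2) := Real.add_one_le_exp _
  have h2 : |t| ≤ 1 + t ^ 2 := by
    rw [← sq_abs t]
    nlinarith [abs_nonneg t, sq_nonneg (|t| - 1)]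
  have h3 : 0 ≤ k * t ^ 2 := by positivity
  have h4 : t ^ 2 ≤ 1 / k * Real.exp (k * t ^ 2) := by
    rw [one_div, inv_mul_eq_div, le_div_iff₀ hk]
    nlinarith
  nlinarith

lemma gap_ext (hg : Stmt_gap) (D : Finset Z2) : ∃ k : ℝ, 0 < k ∧
    ∀ f : Z2 → ℝ, k * ∑ x ∈ D, f x ^ 2 ≤ En0 D f := by
  obtain ⟨k, hk, -, h⟩ := hg D
  refine ⟨k, hk, fun f => ?_⟩
  have h1 := h f
  have h2 := le_abs_self (H (Ed D) f)
  unfold En0
  nlinarith

lemma w0_le (D : Finset Z2) (k : ℝ)
    (h : ∀ f : Z2 → ℝ, k * ∑ x ∈ D, f x ^ 2 ≤ En0 D f) (ξ : D → ℝ) :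
    w0 D ξ ≤ Real.exp (-(k / 2) * ∑ x, ξ x ^ 2) := by
  unfold w0
  apply Real.exp_le_exp.mpr
  have h1 := h (ext D 0 ξ)
  have h2 : ∑ x ∈ D, ext D 0 ξ x ^ 2 = ∑ x : D, ξ x ^ 2 := by
    rw [← Finset.sum_coe_sort D]
    refine Finset.sum_congr rfl fun x _ => ?_
    unfold ext
    rw [dif_pos x.2]
  rw [h2] at h1
  linarith

/-- integrability of functions of linear growth -/
lemma intg (hg : Stmt_gap) (D : Finset Z2) (q : D) (P : (D → ℝ) → ℝ) (hP : Measurable P)
    (C : ℝ) (hC : ∀ ξ, |P ξ| ≤ C * (1 + |ξ q|)) :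
    Integrable fun ξ : D → ℝ => P ξ * w0 D ξ := by
  obtain ⟨k, hk, h⟩ := gap_ext hg D
  have hk4 : 0 < k / 4 := by linarith
  refine Integrable.mono' (g := fun ξ : D → ℝ =>
    (|C| * (2 + 1 / (k / 4))) * Real.exp (-(k / 4) * ∑ x, ξ x ^ 2)) ?_
    (hP.mul (measurable_w0 D)).aestronglyMeasurable (ae_of_all _ fun ξ => ?_)
  · exact (gauss_int D (k / 4) hk4).const_mul _
  · rw [Real.norm_eq_abs, abs_mul, abs_of_pos (w0_pos D ξ)]
    have hsum : (ξ q) ^ 2 ≤ ∑ x, ξ x ^ 2 :=
      Finset.single_le_sum (f := fun x => ξ x ^ 2) (fun x _ => sq_nonneg _) (Finset.mem_univ q)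
    have h0 : 0 ≤ ∑ x, ξ x ^ 2 := Finset.sum_nonneg fun x _ => sq_nonneg _
    have h1 : 1 + |ξ q| ≤ (2 + 1 / (k / 4)) * Real.exp (k / 4 * ∑ x, ξ x ^ 2) := by
      have e1 : (1 : ℝ) ≤ Real.exp (k / 4 * ∑ x, ξ x ^ 2) :=
        Real.one_le_exp (by positivity)
      have e2 := lin_le (k / 4) (ξ q) hk4
      have e3 : Real.exp (k / 4 * ξ q ^ 2) ≤ Real.exp (k / 4 * ∑ x, ξ x ^ 2) :=
        Real.exp_le_exp.mpr (mul_le_mul_of_nonneg_left hsum hk4.le)
      have e4 : 0 ≤ 1 + 1 / (k / 4) := by positivity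
      have e5 : (1 + 1 / (k / 4)) * Real.exp (k / 4 * ξ q ^ 2) ≤
          (1 + 1 / (k / 4)) * Real.exp (k / 4 * ∑ x, ξ x ^ 2) :=
        mul_le_mul_of_nonneg_left e3 e4
      nlinarith
    have h2 := w0_le D k h ξ
    have h3 : |P ξ| ≤ |C| * (1 + |ξ q|) :=
      (hC ξ).trans (mul_le_mul_of_nonneg_right (le_abs_self C) (by positivity))
    calc |P ξ| * w0 D ξ
        ≤ (|C| * ((2 + 1 / (k / 4)) * Real.exp (k / 4 * ∑ x, ξ x ^ 2))) *
          Real.exp (-(k / 2) * ∑ x, ξ x ^ 2) := by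
          refine mul_le_mul (h3.trans (mul_le_mul_of_nonneg_left h1 (abs_nonneg C))) h2
            (w0_pos D ξ).le (by positivity)
      _ = (|C| * (2 + 1 / (k / 4))) * Real.exp (-(k / 4) * ∑ x, ξ x ^ 2) := by
          rw [← mul_assoc, mul_assoc (|C| * (2 + 1 / (k / 4))), ← Real.exp_add]
          congr 2
          ring


/-! ### From the coupling to Lebesgue measure -/

lemma cpl_eq (hl : Stmt_leb) (hb : Stmt_cplB) (D : Finset Z2) (q : Z2) (c : ℝ) (hq : q ∈ D) :
    cpl D (fun f O b => if CapGE D (KO D (O ∪ b) {q}) c then |f q| else 0) =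
      (Real.sqrt (2 / Real.pi) ^ D.card *
        ∫ ξ : D → ℝ, (|ξ ⟨q, hq⟩| * SS D q c (ext D 0 ξ)) * w0 D ξ) /
      (Real.sqrt (2 / Real.pi) ^ D.card * ∫ ξ : D → ℝ, w0 D ξ) := by
  have hF := hb D (fun f ω => if CapGE D (KO D ω {q}) c then |f q| else 0) ?_ ?_
  · rw [hF]
    unfold bri
    have hnum : (∫ f, ∑ ω ∈ (Ed D).powerset,
        (if ∀ e ∈ ω, 0 < f (src e) * f (tgt e) then
          (∏ e ∈ ω, (2 * Real.sinh (Jf f e))) * (∏ e ∈ Ed D \ ω, Real.exp (-Jf f e)) *
            (if CapGE D (KO D ω {q}) c then |f q| else 0)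
        else 0) ∂Gam) = ∫ f, (|f q| * SS D q c f) * Real.exp (H (Ed D) f) ∂Gam := by
      refine integral_congr_ae (ae_of_all _ fun f => ?_)
      simp only
      unfold SS
      rw [Finset.mul_sum, Finset.sum_mul]
      refine Finset.sum_congr rfl fun ω hω => ?_
      rw [weight D f ω (Finset.mem_powerset.mp hω)]
      unfold ind
      split_ifs <;> ring
    rw [hnum]
    have h1 := hl D (fun f => |f q| * SS D q c f)
      ((measurable_pi_apply q).abs.mul (measurable_SS D q c)) ?_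
    · have h2 := hl D (fun _ => 1) measurable_const (fun _ _ _ => rfl)
      simp only [one_mul] at h2
      unfold Zp
      rw [h1, h2]
      unfold w0
      congr 2
      refine integral_congr_ae (ae_of_all _ fun ξ => ?_)
      simp only
      congr 3
      unfold ext
      rw [dif_pos hq]
    · intro f f' h
      simp only
      rw [h q hq]
      exact congrArg (fun a : ℝ => |f' q| * a) (SS_dep D q c f f' h)
  · intro ω
    refine ⟨?_, ?_, 1, 1, fun f => ?_⟩
    · by_cases h : CapGE D (KO D ω {q}) c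
      · simp only [h, if_true]
        exact (measurable_pi_apply q).abs
      · simp only [h, if_false]
        exact measurable_const
    · intro f f' h
      simp only
      rw [h q hq]
    · have h1 : |f q| ≤ ∑ x ∈ D, |f x| :=
        Finset.single_le_sum (f := fun x => |f x|) (fun x _ => abs_nonneg _) hq
      have h2 : ∑ x ∈ D, |f x| ≤ Real.exp (∑ x ∈ D, |f x|) :=
        (by linarith [Real.add_one_le_exp (∑ x ∈ D, |f x|)])
      rw [one_mul, one_mul]
      split_ifs
      · rw [abs_abs]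
        exact h1.trans h2
      · rw [abs_zero]
        exact (Real.exp_pos _).le
  · intro f ω
    simp only [abs_abs]

/-! ### Energies -/

lemma Ed_mono {S T : Finset Z2} (h : S ⊆ T) : Ed S ⊆ Ed T := by
  intro e he
  rw [mem_Ed] at he ⊢
  exact ⟨h he.1, h he.2⟩

lemma sub_nbhd (D : Finset Z2) : D ⊆ nbhd D 1 := by
  intro x hx
  unfold nbhd
  rw [Finset.mem_biUnion]
  refine ⟨x, hx, ?_⟩
  unfold bx
  simp

lemma ext2_in {D C : Finset Z2} {a : ℝ} {s : C → ℝ} {χ : (D \ C : Finset Z2) → ℝ} {x : Z2}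
    (h : x ∈ C) : ext2 D C a s χ x = s ⟨x, h⟩ := by
  unfold ext2
  rw [dif_pos h]

lemma ext2_out {D C : Finset Z2} {a : ℝ} {s : C → ℝ} {χ : (D \ C : Finset Z2) → ℝ} {x : Z2}
    (h : x ∈ D \ C) : ext2 D C a s χ x = χ ⟨x, h⟩ := by
  unfold ext2
  rw [dif_neg (Finset.mem_sdiff.mp h).2, dif_pos h]

lemma energy (he : Stmt_en) (D C : Finset Z2) (hC : C ⊆ D) (k : ℝ)
    (h : ∀ f : Z2 → ℝ, k * ∑ x ∈ D, f x ^ 2 ≤ En0 D f) (s : C → ℝ)
    (χ : (D \ C : Finset Z2) → ℝ) :
    k * (∑ x, s x ^ 2 + ∑ y, χ y ^ 2) ≤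
      EnL C (ext C 0 s) + cost D C (ext2 D C 0 s χ) := by
  set ζ := ext2 D C 0 s χ with hζ
  have hoff : ∀ x, x ∉ D → ζ x = 0 := by
    intro x hx
    rw [hζ]
    unfold ext2
    rw [dif_neg (fun h' => hx (hC h')), dif_neg (fun h' => hx (Finset.mem_sdiff.mp h').1)]
    simp
  have h1 := h ζ
  rw [(he D ζ hoff).2.1] at h1
  have hsum : ∑ x ∈ D, ζ x ^ 2 = ∑ x : C, s x ^ 2 + ∑ y : (D \ C : Finset Z2), χ y ^ 2 := by
    rw [← Finset.sum_sdiff hC, add_comm]
    congr 1
    · rw [← Finset.sum_coe_sort C]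
      refine Finset.sum_congr rfl fun x _ => ?_
      rw [hζ, ext2_in x.2]
    · rw [← Finset.sum_coe_sort (D \ C)]
      refine Finset.sum_congr rfl fun x _ => ?_
      rw [hζ, ext2_out x.2]
  rw [hsum] at h1
  refine h1.trans ?_
  unfold EnL cost
  rw [← Finset.sum_sdiff (Ed_mono (hC.trans (sub_nbhd D))), add_comm]
  refine add_le_add (le_of_eq ?_) (Finset.sum_le_sum fun e _ => ?_)
  · refine Finset.sum_congr rfl fun e he' => ?_
    have h2 := mem_Ed.mp he'
    rw [hζ, ext2_in h2.1, ext2_in h2.2]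
    unfold ext
    rw [dif_pos h2.1, dif_pos h2.2]
  · split_ifs
    · nlinarith [abs_nonneg (ζ (src e)), abs_nonneg (ζ (tgt e)), sq_abs (ζ (src e)),
        sq_abs (ζ (tgt e)), neg_abs_le (ζ (src e) * ζ (tgt e)), abs_mul (ζ (src e)) (ζ (tgt e))]
    · exact le_rfl

lemma measurable_dif (x y : Z2) : Measurable fun f : Z2 → ℝ => (f x - f y) ^ 2 := by
  have h : Measurable fun f : Z2 → ℝ => f x - f y :=
    (measurable_pi_apply x).sub (measurable_pi_apply y)
  exact h.pow_const 2

lemma measurable_sumabs (x y : Z2) : Measurable fun f : Z2 → ℝ => (|f x| + |f y|) ^ 2 := by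
  have hx : Measurable fun f : Z2 → ℝ => |f x| := (measurable_pi_apply x).abs
  have hy : Measurable fun f : Z2 → ℝ => |f y| := (measurable_pi_apply y).abs
  exact (hx.add hy).pow_const 2

lemma measurable_cost (D C : Finset Z2) : Measurable fun f : Z2 → ℝ => cost D C f := by
  unfold cost
  refine Finset.measurable_sum _ fun e _ => ?_
  by_cases h : src e ∈ C ∨ tgt e ∈ C
  · simp only [h, if_true]
    exact measurable_sumabs _ _
  · simp only [h, if_false]
    exact measurable_dif _ _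

lemma measurable_EnL (L : Finset Z2) : Measurable fun f : Z2 → ℝ => EnL L f := by
  unfold EnL
  exact Finset.measurable_sum _ fun e _ => measurable_dif _ _

lemma measurable_ext2 (D C : Finset Z2) (a : ℝ) :
    Measurable fun p : (C → ℝ) × ((D \ C : Finset Z2) → ℝ) => ext2 D C a p.1 p.2 := by
  refine measurable_pi_lambda _ fun x => ?_
  unfold ext2
  by_cases h : x ∈ C
  · simp only [h, dif_pos]
    exact (measurable_pi_apply _).comp measurable_fst
  · by_cases h' : x ∈ D \ C
    · simp only [h, h', dif_pos, dif_neg, not_false_eq_true]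
      exact (measurable_pi_apply _).comp measurable_snd
    · simp only [h, h', dif_neg, not_false_eq_true]
      exact measurable_const

/-- the integrand of the decomposition -/
def Iint (D C : Finset Z2) (q : Z2) (a : ℝ) (s : C → ℝ) : ℝ :=
  if ∀ x, 0 < s x then ext C 0 s q *
    (∑ ω ∈ (Ed C).powerset.filter (fun ω => KO C ω {q} = C), brP C (ext C 0 s) ω) *
    Real.exp (-EnL C (ext C 0 s) / 2) *
    ∫ χ : (D \ C : Finset Z2) → ℝ, Real.exp (-cost D C (ext2 D C a s χ) / 2) else 0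

lemma inner_le_one (C : Finset Z2) (q : Z2) (f : Z2 → ℝ) :
    ∑ ω ∈ (Ed C).powerset.filter (fun ω => KO C ω {q} = C), brP C f ω ≤ 1 := by
  rw [← sum_brP C f]
  exact Finset.sum_le_sum_of_subset_of_nonneg (Finset.filter_subset _ _)
    fun ω _ _ => brP_nonneg C f ω

lemma inner_nonneg (C : Finset Z2) (q : Z2) (f : Z2 → ℝ) :
    0 ≤ ∑ ω ∈ (Ed C).powerset.filter (fun ω => KO C ω {q} = C), brP C f ω :=
  Finset.sum_nonneg fun ω _ => brP_nonneg C f ω

lemma ext_nonneg (C : Finset Z2) (s : C → ℝ) (h : ∀ x, 0 < s x) (q : Z2) : 0 ≤ ext C 0 s q := by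
  unfold ext
  split_ifs with hq
  · exact (h _).le
  · simp

lemma Iint_nonneg (D C : Finset Z2) (q : Z2) (a : ℝ) (s : C → ℝ) : 0 ≤ Iint D C q a s := by
  unfold Iint
  split_ifs with h
  · exact mul_nonneg (mul_nonneg (mul_nonneg (ext_nonneg C s h q) (inner_nonneg C q _))
      (Real.exp_pos _).le) (integral_nonneg fun χ => (Real.exp_pos _).le)
  · exact le_rfl

lemma Iint_measurable (D C : Finset Z2) (q : Z2) (a : ℝ) : Measurable (Iint D C q a) := by
  unfold Iint
  refine Measurable.ite ?_ ?_ measurable_const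
  · rw [Set.ofPred_forall]
    exact MeasurableSet.iInter fun x => measurableSet_lt measurable_const (measurable_pi_apply x)
  · refine Measurable.mul (Measurable.mul (Measurable.mul ?_ ?_) ?_) ?_
    · exact (measurable_pi_apply q).comp (measurable_ext C 0)
    · exact Finset.measurable_sum _ fun ω _ => (measurable_brP C ω).comp (measurable_ext C 0)
    · exact (((measurable_EnL C).comp (measurable_ext C 0)).neg.div_const 2).exp
    · have hm : Measurable fun p : (C → ℝ) × ((D \ C : Finset Z2) → ℝ) =>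
          Real.exp (-cost D C (ext2 D C a p.1 p.2) / 2) :=
        (((measurable_cost D C).comp (measurable_ext2 D C a)).neg.div_const 2).exp
      exact (hm.stronglyMeasurable.integral_prod_right).measurable

lemma Iint_integrable (hg : Stmt_gap) (he : Stmt_en) (D C : Finset Z2) (hC : C ⊆ D) (q : Z2)
    (hq : q ∈ C) : Integrable (Iint D C q 0) := by
  obtain ⟨k, hk, hgap⟩ := gap_ext hg D
  have hk4 : 0 < k / 4 := by linarith
  have hk2 : 0 < k / 2 := by linarith
  set K : ℝ := ∫ χ : (D \ C : Finset Z2) → ℝ, Real.exp (-(k / 2) * ∑ y, χ y ^ 2) with hK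
  have hK0 : 0 ≤ K := integral_nonneg fun χ => (Real.exp_pos _).le
  refine Integrable.mono' (g := fun s : C → ℝ =>
    ((1 + 1 / (k / 4)) * K) * Real.exp (-(k / 4) * ∑ x, s x ^ 2)) ?_
    (Iint_measurable D C q 0).aestronglyMeasurable (ae_of_all _ fun s => ?_)
  · exact (gauss_int C (k / 4) hk4).const_mul _
  · rw [Real.norm_eq_abs, abs_of_nonneg (Iint_nonneg D C q 0 s)]
    unfold Iint
    split_ifs with h
    · have h1 : Real.exp (-EnL C (ext C 0 s) / 2) *
          ∫ χ : (D \ C : Finset Z2) → ℝ, Real.exp (-cost D C (ext2 D C 0 s χ) / 2)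
          ≤ Real.exp (-(k / 2) * ∑ x, s x ^ 2) * K := by
        rw [hK, ← integral_const_mul, ← integral_const_mul]
        refine integral_mono_of_nonneg (ae_of_all _ fun χ => ?_)
          ((gauss_int (D \ C) (k / 2) hk2).const_mul _) (ae_of_all _ fun χ => ?_)
        · exact (mul_pos (Real.exp_pos _) (Real.exp_pos _)).le
        · simp only
          rw [← Real.exp_add, ← Real.exp_add]
          apply Real.exp_le_exp.mpr
          have := energy he D C hC k hgap s χ
          linarith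
      have h2 : ext C 0 s q ≤ (1 + 1 / (k / 4)) * Real.exp (k / 4 * ∑ x, s x ^ 2) := by
        have e0 : ext C 0 s q = s ⟨q, hq⟩ := by
          unfold ext
          rw [dif_pos hq]
        have e1 := (le_abs_self _).trans (lin_le (k / 4) (s ⟨q, hq⟩) hk4)
        have hsum : (s ⟨q, hq⟩) ^ 2 ≤ ∑ x, s x ^ 2 :=
          Finset.single_le_sum (f := fun x => s x ^ 2) (fun x _ => sq_nonneg _)
            (Finset.mem_univ _)
        rw [e0]
        refine e1.trans (mul_le_mul_of_nonneg_left (Real.exp_le_exp.mpr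
          (mul_le_mul_of_nonneg_left hsum hk4.le)) (by positivity))
      have h3 : ext C 0 s q *
          (∑ ω ∈ (Ed C).powerset.filter (fun ω => KO C ω {q} = C), brP C (ext C 0 s) ω)
          ≤ (1 + 1 / (k / 4)) * Real.exp (k / 4 * ∑ x, s x ^ 2) := by
        refine le_trans ?_ h2
        exact mul_le_of_le_one_right (ext_nonneg C s h q) (inner_le_one C q _)
      rw [mul_assoc]
      refine (mul_le_mul h3 h1 (mul_nonneg (Real.exp_pos _).le
        (integral_nonneg fun χ => (Real.exp_pos _).le)) (by positivity)).trans (le_of_eq ?_)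
      have e : Real.exp (k / 4 * ∑ x, s x ^ 2) * Real.exp (-(k / 2) * ∑ x, s x ^ 2) =
          Real.exp (-(k / 4) * ∑ x, s x ^ 2) := by
        rw [← Real.exp_add]
        congr 1
        ring
      rw [← e]
      ring
    · positivity


/-! ### The main inequality -/

lemma key (he : Stmt_en) (hg : Stmt_gap) (ho : Stmt_out) (hd : Stmt_dec) (D : Finset Z2) (q : Z2)
    (c : ℝ) (hq : q ∈ D) (hc : 0 < c) (a : ℝ) (ha : 0 < a) :
    (1 - Real.exp (-a ^ 2 * c / 2)) *
      ∫ ξ : D → ℝ, (max (ξ ⟨q, hq⟩) 0 * SS D q c (ext D 0 ξ)) * w0 D ξ ≤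
    a / 2 * ∫ ξ : D → ℝ, w0 D ξ := by
  set q' : D := ⟨q, hq⟩ with hq'
  have hw : ∀ ξ : D → ℝ, Real.exp (-EnL (nbhd D 1) (ext D 0 ξ) / 2) = w0 D ξ := by
    intro ξ
    unfold w0
    rw [(he D (ext D 0 ξ) ?_).2.1]
    intro x hx
    unfold ext
    rw [dif_neg hx]
    simp
  have mq : Measurable fun ξ : D → ℝ => ξ q' := measurable_pi_apply q'
  -- integrability
  have i1 : Integrable fun ξ : D → ℝ => 1 * w0 D ξ :=
    intg hg D q' (fun _ => 1) measurable_const 1 fun ξ => by
      rw [abs_one, one_mul]; linarith [abs_nonneg (ξ q')]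
  have i1' : Integrable fun ξ : D → ℝ => w0 D ξ := by simpa using i1
  have i2 : Integrable fun ξ : D → ℝ => max (ξ q') 0 * w0 D ξ :=
    intg hg D q' (fun ξ => max (ξ q') 0) (mq.max measurable_const) 1 fun ξ => by
      rw [abs_of_nonneg (le_max_right _ _), one_mul]
      exact max_le (by linarith [le_abs_self (ξ q')]) (by linarith [abs_nonneg (ξ q')])
  have i3 : Integrable fun ξ : D → ℝ => (max (ξ q') 0 * SS D q c (ext D 0 ξ)) * w0 D ξ :=
    intg hg D q' (fun ξ => max (ξ q') 0 * SS D q c (ext D 0 ξ))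
      ((mq.max measurable_const).mul ((measurable_SS D q c).comp (measurable_ext D 0))) 1
      fun ξ => by
        rw [abs_of_nonneg (mul_nonneg (le_max_right _ _) (SS_nonneg _ _ _ _)), one_mul]
        refine (mul_le_of_le_one_right (le_max_right _ _) (SS_le _ _ _ _)).trans ?_
        exact max_le (by linarith [le_abs_self (ξ q')]) (by linarith [abs_nonneg (ξ q')])
  have i4 : Integrable fun ξ : D → ℝ => max (ξ q' - a) 0 * w0 D ξ :=
    intg hg D q' (fun ξ => max (ξ q' - a) 0) ((mq.sub_const a).max measurable_const) 1 fun ξ => by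
      rw [abs_of_nonneg (le_max_right _ _), one_mul]
      exact max_le (by linarith [le_abs_self (ξ q')]) (by linarith [abs_nonneg (ξ q')])
  have i5 : Integrable fun ξ : D → ℝ => (if 0 < ξ q' then (1 : ℝ) else 0) * w0 D ξ :=
    intg hg D q' (fun ξ => if 0 < ξ q' then (1 : ℝ) else 0)
      (Measurable.ite (measurableSet_lt measurable_const mq) measurable_const measurable_const) 1
      fun ξ => by
        rw [one_mul]
        split_ifs
        · rw [abs_one]; linarith [abs_nonneg (ξ q')]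
        · rw [abs_zero]; linarith [abs_nonneg (ξ q')]
  have i6 : Integrable fun ξ : D → ℝ => (if ξ q' < 0 then (1 : ℝ) else 0) * w0 D ξ :=
    intg hg D q' (fun ξ => if ξ q' < 0 then (1 : ℝ) else 0)
      (Measurable.ite (measurableSet_lt mq measurable_const) measurable_const measurable_const) 1
      fun ξ => by
        rw [one_mul]
        split_ifs
        · rw [abs_one]; linarith [abs_nonneg (ξ q')]
        · rw [abs_zero]; linarith [abs_nonneg (ξ q')]
  -- step 1: translation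
  have s1 : ∫ ξ : D → ℝ, max (ξ q') 0 * Real.exp (-EnL (nbhd D 1) (ext D a ξ) / 2) =
      ∫ ξ : D → ℝ, max (ξ q' - a) 0 * w0 D ξ := by
    rw [← integral_sub_right_eq_self (fun ξ : D → ℝ =>
      max (ξ q') 0 * Real.exp (-EnL (nbhd D 1) (ext D a ξ) / 2)) (fun _ => a)]
    refine integral_congr_ae (ae_of_all _ fun ξ => ?_)
    simp only [Pi.sub_apply]
    rw [← hw]
    congr 4
    have hx : ∀ x, ext D a (ξ - fun _ => a) x = ext D 0 ξ x - a := by
      intro x
      unfold ext
      split_ifs <;> simp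
    unfold EnL
    refine Finset.sum_congr rfl fun e _ => ?_
    rw [hx, hx]
    ring
  -- step 2: the shift costs at most a / 2
  have s2 : (∫ ξ : D → ℝ, max (ξ q') 0 * w0 D ξ) - a / 2 * ∫ ξ : D → ℝ, w0 D ξ ≤
      ∫ ξ : D → ℝ, max (ξ q' - a) 0 * w0 D ξ := by
    have h1 : (∫ ξ : D → ℝ, max (ξ q') 0 * w0 D ξ) -
        a * ∫ ξ : D → ℝ, (if 0 < ξ q' then (1 : ℝ) else 0) * w0 D ξ ≤
        ∫ ξ : D → ℝ, max (ξ q' - a) 0 * w0 D ξ := by
      rw [← integral_const_mul, ← integral_sub i2 (i5.const_mul a)]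
      refine integral_mono (i2.sub (i5.const_mul a)) i4 fun ξ => ?_
      simp only
      have hp := w0_pos D ξ
      rw [← mul_assoc, ← sub_mul]
      refine mul_le_mul_of_nonneg_right ?_ hp.le
      split_ifs with h0
      · rw [max_eq_left h0.le, mul_one]
        exact le_max_left _ _
      · rw [max_eq_right (not_lt.mp h0), mul_zero, sub_zero]
        exact le_max_right _ _
    have h2 : ∫ ξ : D → ℝ, (if 0 < ξ q' then (1 : ℝ) else 0) * w0 D ξ =
        ∫ ξ : D → ℝ, (if ξ q' < 0 then (1 : ℝ) else 0) * w0 D ξ := by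
      rw [← integral_neg_eq_self (fun ξ : D → ℝ => (if ξ q' < 0 then (1 : ℝ) else 0) * w0 D ξ)]
      refine integral_congr_ae (ae_of_all _ fun ξ => ?_)
      simp only [Pi.neg_apply, Left.neg_neg_iff, w0_neg]
    have h3 : (∫ ξ : D → ℝ, (if 0 < ξ q' then (1 : ℝ) else 0) * w0 D ξ) +
        (∫ ξ : D → ℝ, (if ξ q' < 0 then (1 : ℝ) else 0) * w0 D ξ) ≤ ∫ ξ : D → ℝ, w0 D ξ := by
      rw [← integral_add i5 i6]
      refine integral_mono (i5.add i6) i1' fun ξ => ?_
      simp only
      have hp := w0_pos D ξ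
      rw [← add_mul]
      refine mul_le_of_le_one_left hp.le ?_
      split_ifs with h0 h0' h0'
      · exact absurd h0 (not_lt.mpr h0'.le)
      · norm_num
      · norm_num
      · norm_num
    nlinarith
  -- step 3: decomposition at a
  have s3 := hd D q hq a (fun _ => 1) ha.le
  have s3' : ∫ ξ : D → ℝ, max (ξ q') 0 * Real.exp (-EnL (nbhd D 1) (ext D a ξ) / 2) =
      ∑ C ∈ D.powerset.filter (fun C => q ∈ C), ∫ s : C → ℝ, Iint D C q a s := by
    have e1 : ∫ ξ : D → ℝ, (∑ ω ∈ (Ed D).powerset, brP D (ext D a ξ) ω * (1 : ℝ)) *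
        (max (ξ ⟨q, hq⟩) 0 * Real.exp (-EnL (nbhd D 1) (ext D a ξ) / 2)) =
        ∫ ξ : D → ℝ, max (ξ q') 0 * Real.exp (-EnL (nbhd D 1) (ext D a ξ) / 2) := by
      refine integral_congr_ae (ae_of_all _ fun ξ => ?_)
      simp only [mul_one]
      rw [sum_brP, one_mul]
    rw [← e1, s3]
    refine Finset.sum_congr rfl fun C _ => ?_
    rw [one_mul]
    rfl
  -- step 4: decomposition at 0
  set r : ℝ := Real.exp (-a ^ 2 * c / 2) with hr
  have s4 := hd D q hq 0 (fun C => if CapGE D C c then r else 1) le_rfl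
  have s4' : (∫ ξ : D → ℝ, max (ξ q') 0 * w0 D ξ) -
      (1 - r) * ∫ ξ : D → ℝ, (max (ξ q') 0 * SS D q c (ext D 0 ξ)) * w0 D ξ =
      ∑ C ∈ D.powerset.filter (fun C => q ∈ C), (if CapGE D C c then r else 1) *
        ∫ s : C → ℝ, Iint D C q 0 s := by
    rw [← integral_const_mul, ← integral_sub i2 (i3.const_mul (1 - r))]
    refine Eq.trans ?_ (s4.trans ?_)
    · refine integral_congr_ae (ae_of_all _ fun ξ => ?_)
      simp only
      rw [hw]
      have : ∑ ω ∈ (Ed D).powerset, brP D (ext D 0 ξ) ω *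
          (if CapGE D (KO D ω {q}) c then r else 1) = 1 - (1 - r) * SS D q c (ext D 0 ξ) := by
        have e1 : ∀ ω ∈ (Ed D).powerset, brP D (ext D 0 ξ) ω *
            (if CapGE D (KO D ω {q}) c then r else 1) = brP D (ext D 0 ξ) ω -
              (1 - r) * (brP D (ext D 0 ξ) ω * ind D q c ω) := by
          intro ω _
          unfold ind
          split_ifs <;> ring
        rw [Finset.sum_congr rfl e1, Finset.sum_sub_distrib, sum_brP, ← Finset.mul_sum]
        rfl
      rw [this]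
      ring
    · rfl
  -- step 5: comparison
  have s5 : ∀ C ∈ D.powerset.filter (fun C => q ∈ C), ∫ s : C → ℝ, Iint D C q a s ≤
      (if CapGE D C c then r else 1) * ∫ s : C → ℝ, Iint D C q 0 s := by
    intro C hC
    rw [Finset.mem_filter, Finset.mem_powerset] at hC
    rw [← integral_const_mul]
    refine integral_mono_of_nonneg (ae_of_all _ fun s => Iint_nonneg D C q a s)
      ((Iint_integrable hg he D C hC.1 q hC.2).const_mul _) (ae_of_all _ fun s => ?_)
    simp only
    unfold Iint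
    split_ifs with h0 h1 h1
    · have h2 := ho D C a c s hC.1 ha.le hc.le h0 h1
      have h3 : 0 ≤ ext C 0 s q *
          (∑ ω ∈ (Ed C).powerset.filter (fun ω => KO C ω {q} = C), brP C (ext C 0 s) ω) *
          Real.exp (-EnL C (ext C 0 s) / 2) :=
        mul_nonneg (mul_nonneg (ext_nonneg C s h0 q) (inner_nonneg C q _)) (Real.exp_pos _).le
      calc _ ≤ _ := mul_le_mul_of_nonneg_left h2 h3
        _ = _ := by rw [← hr]; ring
    · have hcap : CapGE D C 0 := by
        intro f hf _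
        rw [(he D f hf).2.1]
        exact Finset.sum_nonneg fun e _ => sq_nonneg _
      have h2 := ho D C a 0 s hC.1 ha.le le_rfl h0 hcap
      rw [mul_zero, zero_div, Real.exp_zero, one_mul] at h2
      rw [one_mul]
      refine mul_le_mul_of_nonneg_left h2 ?_
      exact mul_nonneg (mul_nonneg (ext_nonneg C s h0 q) (inner_nonneg C q _)) (Real.exp_pos _).le
    · rw [mul_zero]
    · rw [mul_zero]
  have s6 : ∑ C ∈ D.powerset.filter (fun C => q ∈ C), ∫ s : C → ℝ, Iint D C q a s ≤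
      ∑ C ∈ D.powerset.filter (fun C => q ∈ C), (if CapGE D C c then r else 1) *
        ∫ s : C → ℝ, Iint D C q 0 s := Finset.sum_le_sum s5
  rw [← s3', ← s4', s1] at s6
  linarith

end CapM

open CapM in
theorem cap (hl : Stmt_leb) (ho : Stmt_out) (hd : Stmt_dec) (hb : Stmt_cplB) (hi : Stmt_int)
    (he : Stmt_en) (hg : Stmt_gap) : Stmt_cap := by
  intro D q c hq hc
  rw [cpl_eq hl hb D q c hq]
  set q' : D := ⟨q, hq⟩ with hq'
  set N : ℝ := ∫ ξ : D → ℝ, w0 D ξ with hN
  have hK : 0 < Real.sqrt (2 / Real.pi) ^ D.card :=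
    pow_pos (Real.sqrt_pos.mpr (div_pos two_pos Real.pi_pos)) _
  have hNpos : 0 < N := by
    have h2 := hl D (fun _ => 1) measurable_const (fun _ _ _ => rfl)
    simp only [one_mul] at h2
    have h3 := (hi D 0).2
    unfold Zp at h3
    rw [h2] at h3
    exact (mul_pos_iff_of_pos_left hK).mp h3
  rw [mul_div_mul_left _ _ hK.ne', div_le_iff₀ hNpos]
  set a : ℝ := Real.sqrt (2 / c) with ha'
  have ha : 0 < a := Real.sqrt_pos.mpr (div_pos two_pos hc)
  have hac : a ^ 2 * c = 2 := by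
    rw [ha', Real.sq_sqrt (div_pos two_pos hc).le]
    field_simp
  have hk := key he hg ho hd D q c hq hc a ha
  rw [show -a ^ 2 * c / 2 = -1 by rw [neg_mul, hac]; norm_num] at hk
  -- the other sign
  have mq : Measurable fun ξ : D → ℝ => ξ q' := measurable_pi_apply q'
  have i3 : Integrable fun ξ : D → ℝ => (max (ξ q') 0 * SS D q c (ext D 0 ξ)) * w0 D ξ :=
    intg hg D q' (fun ξ => max (ξ q') 0 * SS D q c (ext D 0 ξ))
      ((mq.max measurable_const).mul ((measurable_SS D q c).comp (measurable_ext D 0))) 1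
      fun ξ => by
        rw [abs_of_nonneg (mul_nonneg (le_max_right _ _) (SS_nonneg _ _ _ _)), one_mul]
        refine (mul_le_of_le_one_right (le_max_right _ _) (SS_le _ _ _ _)).trans ?_
        exact max_le (by linarith [le_abs_self (ξ q')]) (by linarith [abs_nonneg (ξ q')])
  have i4 : Integrable fun ξ : D → ℝ => (max (-ξ q') 0 * SS D q c (ext D 0 ξ)) * w0 D ξ :=
    intg hg D q' (fun ξ => max (-ξ q') 0 * SS D q c (ext D 0 ξ))
      ((mq.neg.max measurable_const).mul ((measurable_SS D q c).comp (measurable_ext D 0))) 1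
      fun ξ => by
        rw [abs_of_nonneg (mul_nonneg (le_max_right _ _) (SS_nonneg _ _ _ _)), one_mul]
        refine (mul_le_of_le_one_right (le_max_right _ _) (SS_le _ _ _ _)).trans ?_
        exact max_le (by linarith [neg_abs_le (ξ q')]) (by linarith [abs_nonneg (ξ q')])
  have hneg : ∫ ξ : D → ℝ, (max (-ξ q') 0 * SS D q c (ext D 0 ξ)) * w0 D ξ =
      ∫ ξ : D → ℝ, (max (ξ q') 0 * SS D q c (ext D 0 ξ)) * w0 D ξ := by
    rw [← integral_neg_eq_self (fun ξ : D → ℝ => (max (ξ q') 0 * SS D q c (ext D 0 ξ)) * w0 D ξ)]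
    refine integral_congr_ae (ae_of_all _ fun ξ => ?_)
    simp only [Pi.neg_apply, w0_neg, ext_neg, SS_neg]
  have habs : ∫ ξ : D → ℝ, (|ξ q'| * SS D q c (ext D 0 ξ)) * w0 D ξ =
      2 * ∫ ξ : D → ℝ, (max (ξ q') 0 * SS D q c (ext D 0 ξ)) * w0 D ξ := by
    have : ∫ ξ : D → ℝ, (|ξ q'| * SS D q c (ext D 0 ξ)) * w0 D ξ =
        (∫ ξ : D → ℝ, (max (ξ q') 0 * SS D q c (ext D 0 ξ)) * w0 D ξ) +
        ∫ ξ : D → ℝ, (max (-ξ q') 0 * SS D q c (ext D 0 ξ)) * w0 D ξ := by
      rw [← integral_add i3 i4]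
      refine integral_congr_ae (ae_of_all _ fun ξ => ?_)
      simp only
      have : |ξ q'| = max (ξ q') 0 + max (-ξ q') 0 := by
        rcases le_total 0 (ξ q') with h | h
        · rw [abs_of_nonneg h, max_eq_left h, max_eq_right (neg_nonpos.mpr h), add_zero]
        · rw [abs_of_nonpos h, max_eq_right h, max_eq_left (neg_nonneg.mpr h), zero_add]
      rw [this]
      ring
    rw [this, hneg]
    ring
  rw [habs]
  have hexp : Real.exp (-1) ≤ 0.37 := by
    have h1 : Real.exp (-1) = 1 / Real.exp 1 := by rw [Real.exp_neg, one_div]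
    rw [h1, div_le_iff₀ (Real.exp_pos 1)]
    have := Real.exp_one_gt_d9
    linarith
  have hI0 : 0 ≤ ∫ ξ : D → ℝ, (max (ξ q') 0 * SS D q c (ext D 0 ξ)) * w0 D ξ :=
    integral_nonneg fun ξ => mul_nonneg (mul_nonneg (le_max_right _ _) (SS_nonneg _ _ _ _))
      (w0_pos D ξ).le
  set I : ℝ := ∫ ξ : D → ℝ, (max (ξ q') 0 * SS D q c (ext D 0 ξ)) * w0 D ξ with hI
  have h1 : 0.63 * I ≤ a / 2 * N := by
    refine le_trans ?_ hk
    exact mul_le_mul_of_nonneg_right (by linarith) hI0
  have hs : a ≤ 1.5 / Real.sqrt c := by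
    rw [ha', Real.sqrt_div two_pos.le]
    refine div_le_div_of_nonneg_right ?_ (Real.sqrt_nonneg c)
    rw [Real.sqrt_le_left (by norm_num)]
    norm_num
  have h2 : a * N ≤ 1.5 / Real.sqrt c * N := mul_le_mul_of_nonneg_right hs hNpos.le
  have h3 : 3 / Real.sqrt c * N = 2 * (1.5 / Real.sqrt c * N) := by ring
  have h4 : 0 ≤ 1.5 / Real.sqrt c * N := by positivity
  rw [h3]
  linarith


end LSoup
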