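import Pool.Agent.LSoup.Stmts

/-!
Module E1: the average of a function over a set of points in different columns (or rows) of a
square box is close to the average over the box, in terms of the Dirichlet energy.
-/

open Finset

open scoped Classical

noncomputable section

namespace LSoup

theorem col_tele (h : ℤ → ℝ) (c d : ℤ) (hcd : c ≤ d) :
    ∑ k ∈ Finset.Ico c d, (h (k + 1) - h k) = h d - h c := by
  induction d, hcd using Int.leInduction with
  | base => simp
  | succ d hd ih =>
    have : Finset.Ico c (d + 1) = insert d (Finset.Ico c d) := by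
      ext x; simp only [Finset.mem_Ico, Finset.mem_insert]; omega
    rw [this, Finset.sum_insert (by simp), ih]; ring

theorem col_osc_sq (h : ℤ → ℝ) (c : ℤ) (n : ℕ) (j j' : ℤ) (hj : j ∈ Finset.Icc c (c + n))
    (hj' : j' ∈ Finset.Icc c (c + n)) :
    (h j - h j') ^ 2 ≤ n * ∑ k ∈ Finset.Ico c (c + n), (h (k + 1) - h k) ^ 2 := by
  wlog hle : j' ≤ j generalizing j j' with H
  · have := H j' j hj' hj (by omega)
    calc (h j - h j') ^ 2 = (h j' - h j) ^ 2 := by ring
      _ ≤ _ := this
  · rw [Finset.mem_Icc] at hj hj'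
    rw [← col_tele h j' j hle]
    calc (∑ k ∈ Finset.Ico j' j, (h (k + 1) - h k)) ^ 2
        ≤ ((Finset.Ico j' j).card : ℝ) * ∑ k ∈ Finset.Ico j' j, (h (k + 1) - h k) ^ 2 :=
          sq_sum_le_card_mul_sum_sq
      _ ≤ n * ∑ k ∈ Finset.Ico c (c + n), (h (k + 1) - h k) ^ 2 := by
          apply mul_le_mul
          · rw [Int.card_Ico]
            have : (j - j').toNat ≤ n := by omega
            exact_mod_cast this
          · apply Finset.sum_le_sum_of_subset_of_nonneg
            · intro x hx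
              rw [Finset.mem_Ico] at hx ⊢
              omega
            · intro i _ _
              positivity
          · exact Finset.sum_nonneg fun i _ => by positivity
          · positivity

theorem col_core (g : ℤ → ℤ → ℝ) (a b : ℤ) (n : ℕ) (S : Finset (ℤ × ℤ)) (E : ℝ)
    (hS : S ⊆ Finset.Icc a (a + n) ×ˢ Finset.Icc b (b + n)) (hne : S.Nonempty)
    (hinj : Set.InjOn Prod.fst (S : Set (ℤ × ℤ)))
    (hEV : ∑ i ∈ Finset.Icc a (a + n), ∑ k ∈ Finset.Ico b (b + n), (g i (k + 1) - g i k) ^ 2 ≤ E)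
    (hEH : ∑ j ∈ Finset.Icc b (b + n), ∑ k ∈ Finset.Ico a (a + n), (g (k + 1) j - g k j) ^ 2 ≤ E) :
    |(∑ x ∈ S, g x.1 x.2) / S.card -
      (∑ i ∈ Finset.Icc a (a + n), ∑ j ∈ Finset.Icc b (b + n), g i j) / ((n + 1 : ℝ) * (n + 1 : ℝ))|
      ≤ (1 + Real.sqrt (n / S.card)) * Real.sqrt E := by
  set I := Finset.Icc a (a + n) with hI
  set J := Finset.Icc b (b + n) with hJ
  have hIc : (I.card : ℝ) = n + 1 := by
    rw [hI, Int.card_Icc]
    have : (a + n + 1 - a).toNat = n + 1 := by omega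
    rw [this]; push_cast; ring
  have hJc : (J.card : ℝ) = n + 1 := by
    rw [hJ, Int.card_Icc]
    have : (b + n + 1 - b).toNat = n + 1 := by omega
    rw [this]; push_cast; ring
  have hn1 : (0 : ℝ) < n + 1 := by positivity
  have hs : (0 : ℝ) < S.card := by exact_mod_cast hne.card_pos
  set A : ℤ → ℝ := fun i => (∑ j ∈ J, g i j) / (n + 1) with hA
  set V : ℤ → ℝ := fun i => ∑ k ∈ Finset.Ico b (b + n), (g i (k + 1) - g i k) ^ 2 with hV
  set Hh : ℤ → ℝ := fun j => ∑ k ∈ Finset.Ico a (a + n), (g (k + 1) j - g k j) ^ 2 with hHh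
  have hVnn : ∀ i, 0 ≤ V i := fun i => Finset.sum_nonneg fun k _ => by positivity
  have hHnn : ∀ j, 0 ≤ Hh j := fun j => Finset.sum_nonneg fun k _ => by positivity
  have hE0 : 0 ≤ E := le_trans (Finset.sum_nonneg fun i _ => hVnn i) hEV
  -- the deviation inside a column
  have h1 : ∀ i, ∀ j ∈ J, |g i j - A i| ≤ Real.sqrt (n * V i) := by
    intro i j hj
    have e1 : g i j - A i = (∑ j' ∈ J, (g i j - g i j')) / (n + 1) := by
      rw [Finset.sum_sub_distrib, Finset.sum_const, nsmul_eq_mul, hJc, sub_div,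
        mul_div_cancel_left₀ _ hn1.ne']
    rw [e1, abs_div, abs_of_pos hn1, div_le_iff₀ hn1]
    calc |∑ j' ∈ J, (g i j - g i j')| ≤ ∑ j' ∈ J, |g i j - g i j'| :=
          Finset.abs_sum_le_sum_abs _ _
      _ ≤ ∑ j' ∈ J, Real.sqrt (n * V i) := by
          apply Finset.sum_le_sum
          intro j' hj'
          exact Real.abs_le_sqrt (col_osc_sq (g i) b n j j' hj hj')
      _ = Real.sqrt (n * V i) * (n + 1) := by
          rw [Finset.sum_const, nsmul_eq_mul, hJc, mul_comm]
  -- two column averages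
  have h2 : ∀ i ∈ I, ∀ i' ∈ I, |A i - A i'| ≤ Real.sqrt E := by
    intro i hi i' hi'
    apply Real.abs_le_sqrt
    have e1 : A i - A i' = (∑ j ∈ J, (g i j - g i' j)) / (n + 1) := by
      simp only [hA]
      rw [Finset.sum_sub_distrib, sub_div]
    rw [e1, div_pow, div_le_iff₀ (by positivity)]
    calc (∑ j ∈ J, (g i j - g i' j)) ^ 2 ≤ (J.card : ℝ) * ∑ j ∈ J, (g i j - g i' j) ^ 2 :=
          sq_sum_le_card_mul_sum_sq
      _ ≤ (n + 1) * ∑ j ∈ J, n * Hh j := by
          rw [hJc]
          apply mul_le_mul_of_nonneg_left _ hn1.le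
          apply Finset.sum_le_sum
          intro j _
          exact col_osc_sq (fun k => g k j) a n i i' hi hi'
      _ = (n + 1) * (n * ∑ j ∈ J, Hh j) := by rw [← Finset.mul_sum]
      _ ≤ (n + 1) * ((n + 1) * E) := by
          apply mul_le_mul_of_nonneg_left _ hn1.le
          apply mul_le_mul (by linarith) hEH (Finset.sum_nonneg fun j _ => hHnn j) hn1.le
      _ = E * (n + 1) ^ 2 := by ring
  set Ab : ℝ := (∑ i ∈ I, ∑ j ∈ J, g i j) / ((n + 1 : ℝ) * (n + 1 : ℝ)) with hAb
  have hAb' : Ab = (∑ i ∈ I, A i) / (n + 1) := by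
    simp only [hA, hAb]
    rw [← Finset.sum_div, div_div]
  have h3 : ∀ i ∈ I, |A i - Ab| ≤ Real.sqrt E := by
    intro i hi
    have e1 : A i - Ab = (∑ i' ∈ I, (A i - A i')) / (n + 1) := by
      rw [Finset.sum_sub_distrib, Finset.sum_const, nsmul_eq_mul, hIc, sub_div,
        mul_div_cancel_left₀ _ hn1.ne', hAb']
    rw [e1, abs_div, abs_of_pos hn1, div_le_iff₀ hn1]
    calc |∑ i' ∈ I, (A i - A i')| ≤ ∑ i' ∈ I, |A i - A i'| :=
          Finset.abs_sum_le_sum_abs _ _
      _ ≤ ∑ i' ∈ I, Real.sqrt E := Finset.sum_le_sum fun i' hi' => h2 i hi i' hi'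
      _ = Real.sqrt E * (n + 1) := by
          rw [Finset.sum_const, nsmul_eq_mul, hIc, mul_comm]
  have hmem : ∀ x ∈ S, x.1 ∈ I ∧ x.2 ∈ J := fun x hx => by
    have := hS hx
    rwa [Finset.mem_product] at this
  -- sum of the deviations
  have h4 : ∑ x ∈ S, Real.sqrt (n * V x.1) ≤ Real.sqrt (S.card * (n * E)) := by
    apply Real.le_sqrt_of_sq_le
    calc (∑ x ∈ S, Real.sqrt (n * V x.1)) ^ 2
        ≤ (S.card : ℝ) * ∑ x ∈ S, Real.sqrt (n * V x.1) ^ 2 := sq_sum_le_card_mul_sum_sq
      _ = (S.card : ℝ) * ∑ x ∈ S, n * V x.1 := by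
          congr 1
          apply Finset.sum_congr rfl
          intro x _
          rw [Real.sq_sqrt]
          exact mul_nonneg (by positivity) (hVnn _)
      _ = (S.card : ℝ) * (n * ∑ x ∈ S, V x.1) := by rw [← Finset.mul_sum]
      _ ≤ (S.card : ℝ) * (n * E) := by
          apply mul_le_mul_of_nonneg_left _ hs.le
          apply mul_le_mul_of_nonneg_left _ (by positivity)
          refine le_trans ?_ hEV
          have e1 : ∑ x ∈ S, V x.1 = ∑ i ∈ S.image Prod.fst, V i := by
            rw [Finset.sum_image]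
            intro x hx y hy hxy
            exact hinj hx hy hxy
          rw [e1]
          apply Finset.sum_le_sum_of_subset_of_nonneg
          · intro i hi
            rw [Finset.mem_image] at hi
            obtain ⟨x, hx, rfl⟩ := hi
            exact (hmem x hx).1
          · intro i _ _
            exact hVnn i
  have e2 : (∑ x ∈ S, g x.1 x.2) / S.card - Ab = (∑ x ∈ S, ((g x.1 x.2 - A x.1) + (A x.1 - Ab))) / S.card := by
    have : ∑ x ∈ S, ((g x.1 x.2 - A x.1) + (A x.1 - Ab)) = ∑ x ∈ S, (g x.1 x.2 - Ab) := by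
      apply Finset.sum_congr rfl
      intro x _
      ring
    rw [this, Finset.sum_sub_distrib, Finset.sum_const, nsmul_eq_mul, sub_div,
      mul_div_cancel_left₀ _ hs.ne']
  rw [e2, abs_div, abs_of_pos hs, div_le_iff₀ hs]
  calc |∑ x ∈ S, ((g x.1 x.2 - A x.1) + (A x.1 - Ab))|
      ≤ ∑ x ∈ S, |(g x.1 x.2 - A x.1) + (A x.1 - Ab)| := Finset.abs_sum_le_sum_abs _ _
    _ ≤ ∑ x ∈ S, (Real.sqrt (n * V x.1) + Real.sqrt E) := by
        apply Finset.sum_le_sum
        intro x hx
        refine le_trans (abs_add_le _ _) ?_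
        exact add_le_add (h1 _ _ (hmem x hx).2) (h3 _ (hmem x hx).1)
    _ = ∑ x ∈ S, Real.sqrt (n * V x.1) + S.card * Real.sqrt E := by
        rw [Finset.sum_add_distrib, Finset.sum_const, nsmul_eq_mul]
    _ ≤ Real.sqrt (S.card * (n * E)) + S.card * Real.sqrt E := by linarith
    _ = (1 + Real.sqrt (n / S.card)) * Real.sqrt E * S.card := by
        have e3 : Real.sqrt (S.card * (n * E)) = Real.sqrt (n / S.card) * Real.sqrt E * S.card := by
          have e4 : (S.card : ℝ) * (n * E) = (n / S.card * E) * (S.card : ℝ) ^ 2 := by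
            field_simp
          rw [e4, Real.sqrt_mul (by positivity), Real.sqrt_sq hs.le, Real.sqrt_mul (by positivity)]
        rw [e3]; ring

theorem col : Stmt_col := by
  intro z p S f hS hne hinj
  have hbx : bx z p = Finset.Icc (z.1 - p) (z.1 - p + (2 * p : ℕ)) ×ˢ
      Finset.Icc (z.2 - p) (z.2 - p + (2 * p : ℕ)) := by
    unfold bx
    have e1 : z.1 - (p : ℤ) + (2 * p : ℕ) = z.1 + p := by push_cast; ring
    have e2 : z.2 - (p : ℤ) + (2 * p : ℕ) = z.2 + p := by push_cast; ring
    rw [e1, e2]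
  have hcard : ((bx z p).card : ℝ) = ((2 * p : ℕ) + 1 : ℝ) * ((2 * p : ℕ) + 1 : ℝ) := by
    rw [hbx, Finset.card_product, Int.card_Icc, Int.card_Icc]
    have h1 : (z.1 - (p : ℤ) + (2 * p : ℕ) + 1 - (z.1 - p)).toNat = 2 * p + 1 := by omega
    have h2 : (z.2 - (p : ℤ) + (2 * p : ℕ) + 1 - (z.2 - p)).toNat = 2 * p + 1 := by omega
    rw [h1, h2]; push_cast; ring
  have hEV : ∑ i ∈ Finset.Icc (z.1 - p) (z.1 - p + (2 * p : ℕ)),
      ∑ k ∈ Finset.Ico (z.2 - p) (z.2 - p + (2 * p : ℕ)), (f (i, k + 1) - f (i, k)) ^ 2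
      ≤ EnL (bx z p) f := by
    rw [← Finset.sum_product']
    have e1 : ∑ x ∈ Finset.Icc (z.1 - p) (z.1 - p + (2 * p : ℕ)) ×ˢ
        Finset.Ico (z.2 - p) (z.2 - p + (2 * p : ℕ)), (f (x.1, x.2 + 1) - f (x.1, x.2)) ^ 2
        = ∑ e ∈ (Finset.Icc (z.1 - p) (z.1 - p + (2 * p : ℕ)) ×ˢ
        Finset.Ico (z.2 - p) (z.2 - p + (2 * p : ℕ))).image (fun x : Z2 => ((x, false) : Edge)),
          (f (src e) - f (tgt e)) ^ 2 := by
      rw [Finset.sum_image]
      · apply Finset.sum_congr rfl
        intro x _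
        simp only [src, tgt]
        simp
        ring
      · intro x _ y _ hxy
        simpa using hxy
    rw [e1]
    unfold EnL
    apply Finset.sum_le_sum_of_subset_of_nonneg
    · intro e he
      rw [Finset.mem_image] at he
      obtain ⟨x, hx, rfl⟩ := he
      rw [Finset.mem_product, Finset.mem_Icc, Finset.mem_Ico] at hx
      unfold Ed
      rw [Finset.mem_filter, Finset.mem_product]
      refine ⟨⟨?_, Finset.mem_univ _⟩, ?_⟩
      · rw [hbx, Finset.mem_product, Finset.mem_Icc, Finset.mem_Icc]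
        refine ⟨hx.1, hx.2.1, by simp only; omega⟩
      · simp only [tgt]
        rw [hbx]
        simp only [Bool.false_eq_true, if_false, Finset.mem_product, Finset.mem_Icc]
        refine ⟨hx.1, by omega, by omega⟩
    · intro e _ _
      positivity
  have hEH : ∑ j ∈ Finset.Icc (z.2 - p) (z.2 - p + (2 * p : ℕ)),
      ∑ k ∈ Finset.Ico (z.1 - p) (z.1 - p + (2 * p : ℕ)), (f (k + 1, j) - f (k, j)) ^ 2
      ≤ EnL (bx z p) f := by
    rw [← Finset.sum_product']
    have e1 : ∑ x ∈ Finset.Icc (z.2 - p) (z.2 - p + (2 * p : ℕ)) ×ˢ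
        Finset.Ico (z.1 - p) (z.1 - p + (2 * p : ℕ)), (f (x.2 + 1, x.1) - f (x.2, x.1)) ^ 2
        = ∑ e ∈ (Finset.Icc (z.2 - p) (z.2 - p + (2 * p : ℕ)) ×ˢ
        Finset.Ico (z.1 - p) (z.1 - p + (2 * p : ℕ))).image
          (fun x : ℤ × ℤ => (((x.2, x.1), true) : Edge)),
          (f (src e) - f (tgt e)) ^ 2 := by
      rw [Finset.sum_image]
      · apply Finset.sum_congr rfl
        intro x _
        simp only [src, tgt]
        simp
        ring
      · intro x _ y _ hxy
        simp only [Prod.mk.injEq, and_true] at hxy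
        exact Prod.ext hxy.2 hxy.1
    rw [e1]
    unfold EnL
    apply Finset.sum_le_sum_of_subset_of_nonneg
    · intro e he
      rw [Finset.mem_image] at he
      obtain ⟨x, hx, rfl⟩ := he
      rw [Finset.mem_product, Finset.mem_Icc, Finset.mem_Ico] at hx
      unfold Ed
      rw [Finset.mem_filter, Finset.mem_product]
      refine ⟨⟨?_, Finset.mem_univ _⟩, ?_⟩
      · rw [hbx, Finset.mem_product, Finset.mem_Icc, Finset.mem_Icc]
        simp only
        refine ⟨⟨hx.2.1, by omega⟩, hx.1⟩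
      · simp only [tgt]
        rw [hbx]
        simp only [if_true, Finset.mem_product, Finset.mem_Icc]
        refine ⟨⟨by omega, by omega⟩, hx.1⟩
    · intro e _ _
      positivity
  have hcast : ((2 * p : ℕ) : ℝ) = 2 * (p : ℝ) := by push_cast; ring
  rcases hinj with hinj | hinj
  · have key := col_core (fun i j => f (i, j)) (z.1 - p) (z.2 - p) (2 * p) S (EnL (bx z p) f)
      (by rw [← hbx]; exact hS) hne hinj hEV hEH
    rw [hcast] at key
    unfold av
    rw [hcard, hcast]
    rw [show ∑ x ∈ bx z p, f x = ∑ i ∈ Finset.Icc (z.1 - p) (z.1 - p + (2 * p : ℕ)),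
      ∑ j ∈ Finset.Icc (z.2 - p) (z.2 - p + (2 * p : ℕ)), f (i, j) by
        rw [hbx, Finset.sum_product]]
    exact key
  · have key := col_core (fun i j => f (j, i)) (z.2 - p) (z.1 - p) (2 * p) (S.image Prod.swap)
      (EnL (bx z p) f)
      (by
        intro x hx
        rw [Finset.mem_image] at hx
        obtain ⟨y, hy, rfl⟩ := hx
        have := hS hy
        rw [hbx, Finset.mem_product] at this
        rw [Finset.mem_product]
        exact ⟨this.2, this.1⟩)
      (hne.image _)
      (by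
        intro x hx y hy hxy
        rw [Finset.mem_coe, Finset.mem_image] at hx hy
        obtain ⟨x', hx', rfl⟩ := hx
        obtain ⟨y', hy', rfl⟩ := hy
        have : x' = y' := hinj hx' hy' hxy
        rw [this]) hEH hEV
    have hc : (S.image Prod.swap).card = S.card :=
      Finset.card_image_of_injective _ Prod.swap_injective
    rw [hc, hcast] at key
    unfold av
    rw [hcard, hcast]
    rw [show ∑ x ∈ bx z p, f x = ∑ i ∈ Finset.Icc (z.2 - p) (z.2 - p + (2 * p : ℕ)),
      ∑ j ∈ Finset.Icc (z.1 - p) (z.1 - p + (2 * p : ℕ)), f (j, i) by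
        rw [hbx, Finset.sum_product_right]]
    rw [Finset.sum_image (fun x _ y _ h => Prod.swap_injective h)] at key
    exact key

end LSoup
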