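import Pool.Agent.LSoup.Stmts

/-!
Module E2: averages over tiles, from averages over rows.
-/

open Finset

open scoped Classical

noncomputable section

namespace LSoup

theorem colT (h : Stmt_col) : Stmt_colT := by
  intro z w p r f hsub hr
  have hr0 : (0 : ℝ) < r := by exact_mod_cast hr
  set I := Finset.Icc ((r : ℤ) * w.1) (r * w.1 + r - 1) with hI
  set J := Finset.Icc ((r : ℤ) * w.2) (r * w.2 + r - 1) with hJ
  have hIc : I.card = r := by
    rw [hI, Int.card_Icc]; omega
  have hJc : J.card = r := by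
    rw [hJ, Int.card_Icc]; omega
  have hIne : I.Nonempty := by
    rw [← Finset.card_pos, hIc]; omega
  have htile : tile r w = I ×ˢ J := rfl
  -- rows
  have hrow : ∀ j ∈ J, |(∑ i ∈ I, f (i, j)) / r - av (bx z p) f|
      ≤ (1 + Real.sqrt (2 * p / r)) * Real.sqrt (EnL (bx z p) f) := by
    intro j hj
    have hS : I ×ˢ ({j} : Finset ℤ) ⊆ bx z p := by
      intro x hx
      rw [Finset.mem_product, Finset.mem_singleton] at hx
      apply hsub
      rw [htile, Finset.mem_product, hx.2]
      exact ⟨hx.1, hj⟩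
    have hinj : Set.InjOn Prod.fst ((I ×ˢ ({j} : Finset ℤ) : Finset Z2) : Set Z2) := by
      intro x hx y hy hxy
      rw [Finset.mem_coe, Finset.mem_product, Finset.mem_singleton] at hx hy
      exact Prod.ext hxy (hx.2.trans hy.2.symm)
    have key := h z p (I ×ˢ ({j} : Finset ℤ)) f hS (hIne.product (Finset.singleton_nonempty j))
      (Or.inl hinj)
    have hc : (I ×ˢ ({j} : Finset ℤ)).card = r := by
      rw [Finset.card_product, hIc, Finset.card_singleton, mul_one]
    have hav : av (I ×ˢ ({j} : Finset ℤ)) f = (∑ i ∈ I, f (i, j)) / r := by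
      unfold av
      rw [hc, Finset.sum_product]
      simp
    rw [hav, hc] at key
    exact key
  have hav : av (tile r w) f = (∑ j ∈ J, (∑ i ∈ I, f (i, j)) / r) / r := by
    unfold av
    rw [htile, Finset.card_product, hIc, hJc, Finset.sum_product_right, ← Finset.sum_div, div_div]
    push_cast
    rfl
  have e1 : av (tile r w) f - av (bx z p) f =
      (∑ j ∈ J, ((∑ i ∈ I, f (i, j)) / r - av (bx z p) f)) / r := by
    rw [hav, Finset.sum_sub_distrib, Finset.sum_const, hJc, nsmul_eq_mul, sub_div,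
      mul_div_cancel_left₀ _ hr0.ne']
  rw [e1, abs_div, abs_of_pos hr0, div_le_iff₀ hr0]
  calc |∑ j ∈ J, ((∑ i ∈ I, f (i, j)) / r - av (bx z p) f)|
      ≤ ∑ j ∈ J, |(∑ i ∈ I, f (i, j)) / r - av (bx z p) f| := Finset.abs_sum_le_sum_abs _ _
    _ ≤ ∑ j ∈ J, (1 + Real.sqrt (2 * p / r)) * Real.sqrt (EnL (bx z p) f) :=
        Finset.sum_le_sum hrow
    _ = (1 + Real.sqrt (2 * p / r)) * Real.sqrt (EnL (bx z p) f) * r := by
        rw [Finset.sum_const, hJc, nsmul_eq_mul, mul_comm]

end LSoup
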