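import Pool.Agent.LSoup.Mark

/-!
# Superposition of soups: law of the open edges (A7b)
-/

open MeasureTheory ProbabilityTheory Finset Filter Topology

open scoped Classical

noncomputable section

namespace LSoup

namespace ConvAux

/-- law of the union -/
def q (D : Finset Z2) (t d : ℝ) (U : Finset Edge) : ℝ :=
  ∑ O ∈ (Ed D).powerset, ∑ O' ∈ (Ed D).powerset,
    if O ∪ O' = U then pr D t O * pr D d O' else 0

theorem sum_q (D : Finset Z2) (t d : ℝ) (U : Finset Edge) (G : Finset Edge → ℝ) :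
    ∑ V ∈ U.powerset, q D t d V * G V
      = ∑ O ∈ (Ed D).powerset, ∑ O' ∈ (Ed D).powerset,
        if O ∪ O' ⊆ U then pr D t O * pr D d O' * G (O ∪ O') else 0 := by
  unfold q
  simp_rw [Finset.sum_mul]
  rw [Finset.sum_comm]
  refine Finset.sum_congr rfl fun O _ => ?_
  rw [Finset.sum_comm]
  refine Finset.sum_congr rfl fun O' _ => ?_
  by_cases h : O ∪ O' ⊆ U
  · rw [if_pos h, Finset.sum_eq_single (O ∪ O')]
    · rw [if_pos rfl]
    · intro V _ hV
      rw [if_neg (fun h' => hV h'.symm), zero_mul]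
    · intro h'
      exact absurd (Finset.mem_powerset.2 h) h'
  · rw [if_neg h]
    refine Finset.sum_eq_zero fun V hV => ?_
    rw [if_neg, zero_mul]
    rintro rfl
    exact h (Finset.mem_powerset.1 hV)

theorem sum_sub {E U : Finset Edge} (hU : U ⊆ E) (f : Finset Edge → ℝ) :
    ∑ O ∈ E.powerset, (if O ⊆ U then f O else 0) = ∑ O ∈ U.powerset, f O := by
  rw [← Finset.sum_filter]
  refine Finset.sum_congr ?_ fun _ _ => rfl
  ext O
  rw [Finset.mem_filter, Finset.mem_powerset, Finset.mem_powerset]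
  exact ⟨fun h => h.2, fun h => ⟨h.trans hU, h⟩⟩

theorem pr_eq (hsub : Stmt_sub) (D : Finset Z2) {t d : ℝ} (ht : 0 ≤ t) (hd : 0 ≤ d) :
    ∀ U, U ⊆ Ed D → pr D (t + d) U = q D t d U := by
  refine MarkAux.uniq ?_
  intro U hU
  rw [hsub D (t + d) U (add_nonneg ht hd) hU]
  have h1 := sum_q D t d U (fun _ => 1)
  simp_rw [mul_one] at h1
  rw [h1]
  have h2 : ∀ O ∈ (Ed D).powerset, ∑ O' ∈ (Ed D).powerset,
      (if O ∪ O' ⊆ U then pr D t O * pr D d O' else 0)
      = if O ⊆ U then pr D t O * Real.exp (-d * (Ms (Ed D) - Ms U)) else 0 := by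
    intro O _
    by_cases h : O ⊆ U
    · rw [if_pos h, ← hsub D d U hd hU, Finset.mul_sum, ← sum_sub hU]
      refine Finset.sum_congr rfl fun O' _ => ?_
      by_cases h' : O' ⊆ U
      · rw [if_pos h', if_pos (Finset.union_subset h h')]
      · rw [if_neg h', if_neg (fun h'' => h' (Finset.subset_union_right.trans h''))]
    · rw [if_neg h]
      refine Finset.sum_eq_zero fun O' _ => ?_
      rw [if_neg (fun h'' => h (Finset.subset_union_left.trans h''))]
  rw [Finset.sum_congr rfl h2, sum_sub hU, ← Finset.sum_mul, hsub D t U ht hU, ← Real.exp_add]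
  congr 1
  ring

end ConvAux

open ConvAux in
theorem conv (hsub : Stmt_sub) (_hp : Stmt_prob) : Stmt_conv := by
  intro D t d F ht hd
  unfold Ex
  rw [Finset.sum_congr rfl fun U hU => by
    rw [pr_eq hsub D ht hd U (Finset.mem_powerset.1 hU)]]
  rw [sum_q]
  refine Finset.sum_congr rfl fun O hO => Finset.sum_congr rfl fun O' hO' => ?_
  rw [if_pos (Finset.union_subset (Finset.mem_powerset.1 hO) (Finset.mem_powerset.1 hO'))]

end LSoup
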