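import Pool.Agent.LSoup.CplAux

/-!
# Joint law of the field and of the bridged clusters
-/

open MeasureTheory ProbabilityTheory Finset

open scoped Classical

noncomputable section

namespace LSoup

open CplAux in
theorem cplB (hi : Stmt_int) : Stmt_cplB := by
  intro D F hF habs
  set Φ : (Z2 → ℝ) → ℝ := fun f => ∑ ω ∈ (Ed D).powerset,
    (if ∀ e ∈ ω, 0 < f (src e) * f (tgt e) then
      (∏ e ∈ ω, (2 * Real.sinh (Jf f e))) * (∏ e ∈ Ed D \ ω, Real.exp (-Jf f e)) * F f ω
    else 0) with hΦ
  -- one term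
  have hterm : ∀ ω ∈ (Ed D).powerset, Integrable (fun f : Z2 → ℝ =>
      (if ∀ e ∈ ω, 0 < f (src e) * f (tgt e) then
        (∏ e ∈ ω, (2 * Real.sinh (Jf f e))) * (∏ e ∈ Ed D \ ω, Real.exp (-Jf f e)) * F f ω
      else 0)) Gam := by
    intro ω hω
    rw [mem_powerset] at hω
    obtain ⟨hm, hdep, C, b, hb⟩ := hF ω
    refine integrable_of_bound hi D _ ?_ C b ?_
    · refine Measurable.ite ?_ ?_ measurable_const
      · have : {f : Z2 → ℝ | ∀ e ∈ ω, 0 < f (src e) * f (tgt e)}
            = ⋂ e ∈ ω, {f : Z2 → ℝ | 0 < f (src e) * f (tgt e)} := by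
          ext f; simp
        rw [this]
        refine MeasurableSet.biInter (Finset.countable_toSet ω) fun e _ => ?_
        exact measurableSet_lt measurable_const (by fun_prop)
      · refine Measurable.mul (Measurable.mul ?_ ?_) hm
        · refine Finset.measurable_prod _ fun e _ => ?_
          exact (Real.measurable_sinh.comp (measurable_Jf e)).const_mul 2
        · refine Finset.measurable_prod _ fun e _ => ?_
          exact Real.measurable_exp.comp (measurable_Jf e).neg
    · intro f
      have hC : 0 ≤ C * Real.exp (b * ∑ x ∈ D, |f x|) := (abs_nonneg _).trans (hb f)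
      have h2 : ∏ e ∈ ω, (2 * Real.sinh (Jf f e)) ≤ ∏ e ∈ ω, Real.exp (Jf f e) := by
        refine prod_le_prod (fun e _ => ?_) fun e _ => ?_
        · have := Real.sinh_nonneg_iff.2 (Jf_nonneg f e)
          positivity
        · rw [Real.sinh_eq]
          have := Real.exp_pos (-Jf f e)
          linarith
      have h2' : 0 ≤ ∏ e ∈ ω, (2 * Real.sinh (Jf f e)) := by
        refine prod_nonneg fun e _ => ?_
        have := Real.sinh_nonneg_iff.2 (Jf_nonneg f e)
        positivity
      have h3 : ∏ e ∈ Ed D \ ω, Real.exp (-Jf f e) ≤ ∏ e ∈ Ed D \ ω, Real.exp (Jf f e) := by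
        refine prod_le_prod (fun e _ => (Real.exp_pos _).le) fun e _ => ?_
        rw [Real.exp_le_exp]
        have := Jf_nonneg f e
        linarith
      have h3' : 0 ≤ ∏ e ∈ Ed D \ ω, Real.exp (-Jf f e) :=
        prod_nonneg fun e _ => (Real.exp_pos _).le
      have h4 : (∏ e ∈ ω, Real.exp (Jf f e)) * ∏ e ∈ Ed D \ ω, Real.exp (Jf f e)
          = Real.exp (∑ e ∈ Ed D, Jf f e) := by
        rw [Real.exp_sum, mul_comm, prod_sdiff hω]
      have hR : C * Real.exp (∑ e ∈ Ed D, Jf f e + b * ∑ x ∈ D, |f x|)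
          = Real.exp (∑ e ∈ Ed D, Jf f e) * (C * Real.exp (b * ∑ x ∈ D, |f x|)) := by
        rw [Real.exp_add]; ring
      rw [hR]
      split_ifs with h
      · rw [abs_mul, abs_mul, abs_of_nonneg h2', abs_of_nonneg h3', ← h4]
        refine mul_le_mul (mul_le_mul h2 h3 h3' (h2'.trans h2)) (hb f) (abs_nonneg _) ?_
        exact mul_nonneg (h2'.trans h2) (h3'.trans h3)
      · rw [abs_zero]
        exact mul_nonneg (Real.exp_pos _).le hC
  have hΦint : Integrable Φ Gam := integrable_finsetSum _ hterm
  have hΦdep : DepOn D Φ := by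
    intro f f' h
    simp only [hΦ]
    refine sum_congr rfl fun ω hω => ?_
    rw [mem_powerset] at hω
    have hJ : ∀ e ∈ Ed D, Jf f e = Jf f' e := by
      intro e he
      unfold Jf
      rw [h _ (mem_of_Ed he).1, h _ (mem_of_Ed he).2]
    have h1 : (∀ e ∈ ω, 0 < f (src e) * f (tgt e)) ↔ (∀ e ∈ ω, 0 < f' (src e) * f' (tgt e)) := by
      refine forall₂_congr fun e he => ?_
      rw [h _ (mem_of_Ed (hω he)).1, h _ (mem_of_Ed (hω he)).2]
    have h2 : ∏ e ∈ ω, (2 * Real.sinh (Jf f e)) = ∏ e ∈ ω, (2 * Real.sinh (Jf f' e)) :=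
      prod_congr rfl fun e he => by rw [hJ e (hω he)]
    have h3 : ∏ e ∈ Ed D \ ω, Real.exp (-Jf f e) = ∏ e ∈ Ed D \ ω, Real.exp (-Jf f' e) :=
      prod_congr rfl fun e he => by rw [hJ e (sdiff_subset he)]
    have h4 : F f ω = F f' ω := (hF ω).2.1 f f' h
    rw [h2, h3, h4]
    simp only [h1]
  unfold cpl bri
  congr 1
  have key : ∫ f, Φ f ∂Gam = ∫ f, ∑ O ∈ (Ed D).powerset, ∑ b ∈ (Ed D \ O).powerset,
      Wc D f O b * F f (O ∪ b) ∂Gam := by
    rw [← sym_int D Φ hΦdep hΦint]
    congr 1
    funext f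
    rw [double D f (F f)]
    simp only [hΦ]
    rw [sum_comm, sum_div]
    refine sum_congr rfl fun ω _ => ?_
    have h1 : ∀ A ∈ D.powerset,
        (if ∀ e ∈ ω, 0 < (sg A (src e) * |f (src e)|) * (sg A (tgt e) * |f (tgt e)|) then
          (∏ e ∈ ω, (2 * Real.sinh (Jf (fun x => sg A x * |f x|) e))) *
            (∏ e ∈ Ed D \ ω, Real.exp (-Jf (fun x => sg A x * |f x|) e)) *
            F (fun x => sg A x * |f x|) ω
        else 0) = if ∀ e ∈ ω, (src e ∈ A ↔ tgt e ∈ A) then wgt D f ω * F f ω else 0 := by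
      intro A _
      have hFA : F (fun x => sg A x * |f x|) ω = F f ω := by
        rw [← habs f ω, ← habs (fun x => sg A x * |f x|) ω]
        congr 1
        funext x
        rw [abs_mul, abs_sg, one_mul, abs_abs]
      simp only [Jf_sg_abs, hFA]
      by_cases hz : ∀ e ∈ ω, Jf f e ≠ 0
      · have h2 : (∀ e ∈ ω, 0 < (sg A (src e) * |f (src e)|) * (sg A (tgt e) * |f (tgt e)|)) ↔
            ∀ e ∈ ω, (src e ∈ A ↔ tgt e ∈ A) := by
          refine forall₂_congr fun e he => ?_
          have hJ : 0 < |f (src e)| * |f (tgt e)| := by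
            have := (Jf_nonneg f e).lt_of_ne' (hz e he)
            unfold Jf at this
            rwa [abs_mul] at this
          have h3 : (sg A (src e) * |f (src e)|) * (sg A (tgt e) * |f (tgt e)|)
              = (sg A (src e) * sg A (tgt e)) * (|f (src e)| * |f (tgt e)|) := by ring
          rw [h3]
          constructor
          · intro hpos
            by_contra hne
            rw [sg_mul_neg hne] at hpos
            linarith
          · intro hiff
            rw [sg_mul_pos hiff, one_mul]
            exact hJ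
        simp only [h2]
        unfold wgt
        rfl
      · push Not at hz
        obtain ⟨e, he, hJe⟩ := hz
        have h4 : ∏ e ∈ ω, (2 * Real.sinh (Jf f e)) = 0 := by
          refine prod_eq_zero he ?_
          rw [hJe, Real.sinh_zero, mul_zero]
        have h5 : wgt D f ω = 0 := by
          unfold wgt
          rw [h4, zero_mul]
        rw [h4, h5]
        simp
    rw [sum_congr rfl h1, ← sum_filter, sum_const, nsmul_eq_mul]
    unfold sgset
    ring
  exact key.symm

end LSoup
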