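import Pool.Agent.LSoup.CplAux

/-!
# The signed field of the coupling is the Gaussian free field
-/

open MeasureTheory ProbabilityTheory Finset

open scoped Classical

noncomputable section

namespace LSoup

open CplAux in
theorem cplG (hi : Stmt_int) : Stmt_cplG := by
  intro D g hg
  obtain ⟨hm, hdep, C, b, hb⟩ := hg
  set G : (Z2 → ℝ) → ℝ := fun f => g f * Real.exp (H (Ed D) f) with hG
  have hGdep : DepOn D G := by
    intro f f' h
    have h1 : H (Ed D) f = H (Ed D) f' := by
      unfold H
      refine sum_congr rfl fun e he => ?_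
      rw [h _ (mem_of_Ed he).1, h _ (mem_of_Ed he).2]
    simp only [hG, h1, hdep f f' h]
  have hGint : Integrable G Gam := by
    refine integrable_of_bound hi D G (hm.mul (Real.measurable_exp.comp (measurable_H _))) C b ?_
    intro f
    have h1 : H (Ed D) f ≤ ∑ e ∈ Ed D, Jf f e := by
      unfold H
      exact sum_le_sum fun e _ => le_abs_self _
    calc |G f| = |g f| * Real.exp (H (Ed D) f) := by
          simp only [hG, abs_mul, Real.abs_exp]
      _ ≤ (C * Real.exp (b * ∑ x ∈ D, |f x|)) * Real.exp (∑ e ∈ Ed D, Jf f e) := by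
          have h2 := hb f
          have h3 : Real.exp (H (Ed D) f) ≤ Real.exp (∑ e ∈ Ed D, Jf f e) := Real.exp_le_exp.2 h1
          exact mul_le_mul h2 h3 (Real.exp_pos _).le ((abs_nonneg _).trans h2)
      _ = C * Real.exp (∑ e ∈ Ed D, Jf f e + b * ∑ x ∈ D, |f x|) := by
          rw [Real.exp_add]; ring
  unfold cpl gff
  congr 1
  rw [← sym_int D G hGdep hGint]
  congr 1
  funext f
  rw [double D f (fun ω => sav D ω g f)]
  have h1 : ∀ ω ∈ (Ed D).powerset,
      wgt D f ω * ((sgset D ω).card / 2 ^ D.card) * sav D ω g f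
      = (∑ A ∈ D.powerset, (if ∀ e ∈ ω, (src e ∈ A ↔ tgt e ∈ A) then wgt D f ω else 0) *
          g (fun x => sg A x * |f x|)) / 2 ^ D.card := by
    intro ω _
    have hne : ((sgset D ω).card : ℝ) ≠ 0 := by
      have : (∅ : Finset Z2) ∈ sgset D ω := by
        unfold sgset
        simp
      exact_mod_cast (card_pos.2 ⟨_, this⟩).ne'
    unfold sav
    have h2 : ∑ A ∈ D.powerset, (if ∀ e ∈ ω, (src e ∈ A ↔ tgt e ∈ A) then wgt D f ω else 0) *
          g (fun x => sg A x * |f x|) = wgt D f ω * ∑ A ∈ sgset D ω, g (fun x => sg A x * |f x|) := by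
      unfold sgset
      rw [sum_filter, mul_sum]
      refine sum_congr rfl fun A _ => ?_
      split_ifs <;> simp
    rw [h2]
    field_simp
  rw [sum_congr rfl h1, ← sum_div, sum_comm]
  congr 1
  refine sum_congr rfl fun A _ => ?_
  rw [← sum_mul, sum_wgt D f A]
  simp only [hG]
  ring

end LSoup
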