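import Pool.Agent.LSoup.Stmts

/-! Module C5: Markov property of the coupling. -/

open MeasureTheory ProbabilityTheory Finset Filter Topology

open scoped Classical

noncomputable section

namespace LSoup

namespace CplM

theorem mem_Ed {D : Finset Z2} {e : Edge} : e ∈ Ed D ↔ src e ∈ D ∧ tgt e ∈ D := by
  unfold Ed src
  simp [Finset.mem_filter, Finset.mem_product]

theorem Ed_mono {K D : Finset Z2} (h : K ⊆ D) : Ed K ⊆ Ed D := by
  intro e he
  rw [mem_Ed] at he ⊢
  exact ⟨h he.1, h he.2⟩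

theorem Ed_disj {K L : Finset Z2} (h : Disjoint K L) : Disjoint (Ed K) (Ed L) := by
  rw [Finset.disjoint_left]
  intro e he he'
  rw [mem_Ed] at he he'
  exact Finset.disjoint_left.1 h he.1 he'.1

theorem conn_mono {O O' : Finset Edge} (h : O ⊆ O') {x y : Z2} (hc : Conn O x y) :
    Conn O' x y := by
  unfold Conn at hc ⊢
  induction hc with
  | refl => exact Relation.ReflTransGen.refl
  | tail _ hj ih =>
    obtain ⟨e, he, h'⟩ := hj
    exact Relation.ReflTransGen.tail ih ⟨e, h he, h'⟩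

theorem conn_restrict {O : Finset Edge} {K : Finset Z2}
    (h : ∀ e ∈ O, (src e ∈ K ↔ tgt e ∈ K)) {b x : Z2} (hb : b ∈ K) (hc : Conn O b x) :
    x ∈ K ∧ Conn (O ∩ Ed K) b x := by
  unfold Conn at hc
  induction hc with
  | refl => exact ⟨hb, Relation.ReflTransGen.refl⟩
  | tail _ hj ih =>
    obtain ⟨hy, hcy⟩ := ih
    obtain ⟨e, he, h' | h'⟩ := hj
    · have h1 : src e ∈ K := by rw [h'.1]; exact hy
      have h2 : tgt e ∈ K := (h e he).1 h1
      refine ⟨by rw [← h'.2]; exact h2, Relation.ReflTransGen.tail hcy ?_⟩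
      exact ⟨e, Finset.mem_inter.2 ⟨he, mem_Ed.2 ⟨h1, h2⟩⟩, Or.inl h'⟩
    · have h2 : tgt e ∈ K := by rw [h'.2]; exact hy
      have h1 : src e ∈ K := (h e he).2 h2
      refine ⟨by rw [← h'.1]; exact h1, Relation.ReflTransGen.tail hcy ?_⟩
      exact ⟨e, Finset.mem_inter.2 ⟨he, mem_Ed.2 ⟨h1, h2⟩⟩, Or.inr h'⟩

theorem cond_iff {D K S : Finset Z2} {O : Finset Edge} (hO : O ⊆ Ed D) (hS : S ⊆ K)
    (_hK : K ⊆ D) :
    KO D O S = K ↔ (∀ e ∈ O, (src e ∈ K ↔ tgt e ∈ K)) ∧ KO D (O ∩ Ed K) S = K := by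
  constructor
  · intro h
    have hcr : ∀ e ∈ O, (src e ∈ K ↔ tgt e ∈ K) := by
      intro e he
      have heD := mem_Ed.1 (hO he)
      constructor
      · intro h1
        rw [← h] at h1 ⊢
        unfold KO at h1 ⊢
        rw [Finset.mem_filter] at h1 ⊢
        obtain ⟨_, b, hb, hc⟩ := h1
        exact ⟨heD.2, b, hb, Relation.ReflTransGen.tail hc ⟨e, he, Or.inl ⟨rfl, rfl⟩⟩⟩
      · intro h1
        rw [← h] at h1 ⊢
        unfold KO at h1 ⊢
        rw [Finset.mem_filter] at h1 ⊢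
        obtain ⟨_, b, hb, hc⟩ := h1
        exact ⟨heD.1, b, hb, Relation.ReflTransGen.tail hc ⟨e, he, Or.inr ⟨rfl, rfl⟩⟩⟩
    refine ⟨hcr, ?_⟩
    apply Finset.Subset.antisymm
    · intro x hx
      rw [← h]
      unfold KO at hx ⊢
      rw [Finset.mem_filter] at hx ⊢
      obtain ⟨hxD, b, hb, hc⟩ := hx
      exact ⟨hxD, b, hb, conn_mono Finset.inter_subset_left hc⟩
    · intro x hx
      have hx' := hx
      rw [← h] at hx'
      unfold KO at hx' ⊢
      rw [Finset.mem_filter] at hx' ⊢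
      obtain ⟨hxD, b, hb, hc⟩ := hx'
      exact ⟨hxD, b, hb, (conn_restrict hcr (hS hb) hc).2⟩
  · rintro ⟨hcr, h⟩
    apply Finset.Subset.antisymm
    · intro x hx
      unfold KO at hx
      rw [Finset.mem_filter] at hx
      obtain ⟨hxD, b, hb, hc⟩ := hx
      exact (conn_restrict hcr (hS hb) hc).1
    · intro x hx
      rw [← h] at hx
      unfold KO at hx ⊢
      rw [Finset.mem_filter] at hx ⊢
      obtain ⟨hxD, b, hb, hc⟩ := hx
      exact ⟨hxD, b, hb, conn_mono Finset.inter_subset_left hc⟩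

theorem sum_powerset_disj {α : Type} [DecidableEq α] {A B : Finset α} (h : Disjoint A B) (Φ : Finset α → ℝ) :
    ∑ u ∈ (A ∪ B).powerset, Φ u = ∑ s ∈ A.powerset, ∑ t ∈ B.powerset, Φ (s ∪ t) := by
  rw [← Finset.sum_product']
  symm
  refine Finset.sum_bij' (fun p _ => p.1 ∪ p.2) (fun u _ => (u ∩ A, u ∩ B)) ?_ ?_ ?_ ?_ ?_
  · rintro ⟨s, t⟩ hp
    rw [Finset.mem_product, Finset.mem_powerset, Finset.mem_powerset] at hp
    rw [Finset.mem_powerset]
    exact Finset.union_subset_union hp.1 hp.2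
  · intro u _
    rw [Finset.mem_product, Finset.mem_powerset, Finset.mem_powerset]
    exact ⟨Finset.inter_subset_right, Finset.inter_subset_right⟩
  · rintro ⟨s, t⟩ hp
    rw [Finset.mem_product, Finset.mem_powerset, Finset.mem_powerset] at hp
    have h1 : Disjoint s B := Finset.disjoint_of_subset_left hp.1 h
    have h2 : Disjoint t A := Finset.disjoint_of_subset_left hp.2 h.symm
    rw [Finset.disjoint_left] at h1 h2
    ext x
    · simp only [Finset.mem_inter, Finset.mem_union]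
      constructor
      · rintro ⟨h3 | h3, h4⟩
        · exact h3
        · exact absurd h4 (h2 h3)
      · intro h3
        exact ⟨Or.inl h3, hp.1 h3⟩
    · simp only [Finset.mem_inter, Finset.mem_union]
      constructor
      · rintro ⟨h3 | h3, h4⟩
        · exact absurd h4 (h1 h3)
        · exact h3
      · intro h3
        exact ⟨Or.inr h3, hp.2 h3⟩
  · intro u hu
    rw [Finset.mem_powerset] at hu
    rw [← Finset.inter_union_distrib_left]
    exact Finset.inter_eq_left.2 hu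
  · rintro ⟨s, t⟩ _
    rfl

/-- factorisation of the weights of the open set -/
theorem Vc_fac {D K : Finset Z2} (hK : K ⊆ D) (f : Z2 → ℝ) {O1 O2 : Finset Edge}
    (h1 : O1 ⊆ Ed K) (h2 : O2 ⊆ Ed (D \ K)) :
    Vc D f (O1 ∪ O2) = Vc K f O1 * Vc (D \ K) f O2 := by
  have hdis : Disjoint K (D \ K) := Finset.disjoint_sdiff
  have hD : K ∪ (D \ K) = D := Finset.union_sdiff_of_subset hK
  have hdO : Disjoint O1 O2 :=
    Finset.disjoint_of_subset_left h1 (Finset.disjoint_of_subset_right h2 (Ed_disj hdis))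
  have hcard : D.card = K.card + (D \ K).card := by
    rw [← Finset.card_union_of_disjoint hdis, hD]
  unfold Vc
  rw [hcard, pow_add]
  have key : ∑ A ∈ D.powerset, ∏ e ∈ O1 ∪ O2, (Real.exp (sg A (src e) * sg A (tgt e) * Jf f e) - 1)
      = (∑ A ∈ K.powerset, ∏ e ∈ O1, (Real.exp (sg A (src e) * sg A (tgt e) * Jf f e) - 1)) *
        ∑ A ∈ (D \ K).powerset,
          ∏ e ∈ O2, (Real.exp (sg A (src e) * sg A (tgt e) * Jf f e) - 1) := by
    rw [Finset.sum_mul_sum]
    conv_lhs => rw [← hD]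
    rw [sum_powerset_disj hdis]
    refine Finset.sum_congr rfl fun A hA => Finset.sum_congr rfl fun A' hA' => ?_
    rw [Finset.mem_powerset] at hA hA'
    rw [Finset.prod_union hdO]
    have s1 : ∀ x ∈ K, sg (A ∪ A') x = sg A x := by
      intro x hx
      have : x ∉ A' := fun h => Finset.disjoint_left.1 hdis hx (hA' h)
      unfold sg
      simp [Finset.mem_union, this]
    have s2 : ∀ x ∈ D \ K, sg (A ∪ A') x = sg A' x := by
      intro x hx
      have : x ∉ A := fun h => Finset.disjoint_left.1 hdis (hA h) hx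
      unfold sg
      simp [Finset.mem_union, this]
    congr 1
    · refine Finset.prod_congr rfl fun e he => ?_
      have he' := mem_Ed.1 (h1 he)
      rw [s1 _ he'.1, s1 _ he'.2]
    · refine Finset.prod_congr rfl fun e he => ?_
      have he' := mem_Ed.1 (h2 he)
      rw [s2 _ he'.1, s2 _ he'.2]
  rw [key, mul_div_mul_comm]

/-- the factor of the edges which are not in `Ed (D \ K)` -/
theorem sum_b {D K : Finset Z2} (hK : K ⊆ D) (f : Z2 → ℝ) {O1 O2 : Finset Edge}
    (h1 : O1 ⊆ Ed K) (h2 : O2 ⊆ Ed (D \ K)) (G : Finset Edge → ℝ) :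
    ∑ b ∈ (Ed D \ (O1 ∪ O2)).powerset, Wc D f (O1 ∪ O2) b * G (b ∩ Ed (D \ K)) =
      Vc K f O1 * ∑ b ∈ (Ed (D \ K) \ O2).powerset, Wc (D \ K) f O2 b * G b := by
  have hdis : Disjoint K (D \ K) := Finset.disjoint_sdiff
  have hEK : Ed K ⊆ Ed D := Ed_mono hK
  have hE' : Ed (D \ K) ⊆ Ed D := Ed_mono Finset.sdiff_subset
  have hEE : Disjoint (Ed K) (Ed (D \ K)) := Ed_disj hdis
  rw [Finset.disjoint_left] at hEE
  set R1 : Finset Edge := (Ed D \ Ed (D \ K)) \ O1 with hR1
  set R2 : Finset Edge := Ed (D \ K) \ O2 with hR2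
  have hsplit : Ed D \ (O1 ∪ O2) = R1 ∪ R2 := by
    ext e
    simp only [hR1, hR2, Finset.mem_sdiff, Finset.mem_union, not_or]
    constructor
    · rintro ⟨ha, hb, hc⟩
      by_cases h : e ∈ Ed (D \ K)
      · exact Or.inr ⟨h, hc⟩
      · exact Or.inl ⟨⟨ha, h⟩, hb⟩
    · rintro (⟨⟨ha, hb⟩, hc⟩ | ⟨ha, hb⟩)
      · exact ⟨ha, hc, fun h => hb (h2 h)⟩
      · exact ⟨hE' ha, fun h => hEE (h1 h) ha, hb⟩
  have hR : Disjoint R1 R2 := by
    rw [Finset.disjoint_left]
    intro e he he'
    simp only [hR1, hR2, Finset.mem_sdiff] at he he'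
    exact he.1.2 he'.1
  rw [hsplit, sum_powerset_disj hR]
  have hterm : ∀ b1 ∈ R1.powerset, ∀ b2 ∈ R2.powerset,
      Wc D f (O1 ∪ O2) (b1 ∪ b2) * G ((b1 ∪ b2) ∩ Ed (D \ K)) =
      Vc K f O1 * ((∏ e ∈ b1, (1 - Real.exp (-Jf f e))) * ∏ e ∈ R1 \ b1, Real.exp (-Jf f e)) *
        (Wc (D \ K) f O2 b2 * G b2) := by
    intro b1 hb1 b2 hb2
    rw [Finset.mem_powerset] at hb1 hb2
    have hb2' : b2 ⊆ Ed (D \ K) := hb2.trans Finset.sdiff_subset
    have hdb : Disjoint b1 b2 :=
      Finset.disjoint_of_subset_left hb1 (Finset.disjoint_of_subset_right hb2 hR)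
    have e1 : (b1 ∪ b2) ∩ Ed (D \ K) = b2 := by
      ext e
      simp only [Finset.mem_inter, Finset.mem_union]
      constructor
      · rintro ⟨h | h, h'⟩
        · have := hb1 h
          simp only [hR1, Finset.mem_sdiff] at this
          exact absurd h' this.1.2
        · exact h
      · intro h
        exact ⟨Or.inr h, hb2' h⟩
    have e2 : Ed D \ ((O1 ∪ O2) ∪ (b1 ∪ b2)) = (R1 \ b1) ∪ (Ed (D \ K) \ (O2 ∪ b2)) := by
      ext e
      simp only [hR1, Finset.mem_sdiff, Finset.mem_union, not_or]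
      constructor
      · rintro ⟨ha, ⟨hb, hc⟩, hd, he⟩
        by_cases h : e ∈ Ed (D \ K)
        · exact Or.inr ⟨h, hc, he⟩
        · exact Or.inl ⟨⟨⟨ha, h⟩, hb⟩, hd⟩
      · rintro (⟨⟨⟨ha, hb⟩, hc⟩, hd⟩ | ⟨ha, hb, hc⟩)
        · exact ⟨ha, ⟨hc, fun h => hb (h2 h)⟩, hd, fun h => hb (hb2' h)⟩
        · refine ⟨hE' ha, ⟨fun h => hEE (h1 h) ha, hb⟩, fun h => ?_, hc⟩
          have := hb1 h
          simp only [hR1, Finset.mem_sdiff] at this
          exact this.1.2 ha
    have hd2 : Disjoint (R1 \ b1) (Ed (D \ K) \ (O2 ∪ b2)) := by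
      rw [Finset.disjoint_left]
      intro e he he'
      simp only [hR1, Finset.mem_sdiff] at he he'
      exact he.1.1.2 he'.1
    unfold Wc
    rw [e1, e2, Vc_fac hK f h1 h2, Finset.prod_union hdb, Finset.prod_union hd2]
    ring
  calc ∑ s ∈ R1.powerset, ∑ t ∈ R2.powerset,
        Wc D f (O1 ∪ O2) (s ∪ t) * G ((s ∪ t) ∩ Ed (D \ K))
      = ∑ s ∈ R1.powerset, ∑ t ∈ R2.powerset, Vc K f O1 *
          ((∏ e ∈ s, (1 - Real.exp (-Jf f e))) * ∏ e ∈ R1 \ s, Real.exp (-Jf f e)) *
            (Wc (D \ K) f O2 t * G t) :=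
        Finset.sum_congr rfl fun s hs => Finset.sum_congr rfl fun t ht => hterm s hs t ht
    _ = (∑ s ∈ R1.powerset,
          (∏ e ∈ s, (1 - Real.exp (-Jf f e))) * ∏ e ∈ R1 \ s, Real.exp (-Jf f e)) *
          (Vc K f O1 * ∑ t ∈ R2.powerset, Wc (D \ K) f O2 t * G t) := by
        rw [Finset.sum_mul]
        refine Finset.sum_congr rfl fun s _ => ?_
        rw [← Finset.mul_sum]
        ring
    _ = _ := by
        rw [← Finset.prod_add]
        simp

/-- pointwise factorisation -/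
theorem pointwise {D K S : Finset Z2} (hS : S ⊆ K) (hK : K ⊆ D) (f : Z2 → ℝ)
    (G : Finset Edge → Finset Edge → ℝ) :
    ∑ O ∈ (Ed D).powerset, ∑ b ∈ (Ed D \ O).powerset, Wc D f O b *
      (if KO D O S = K then G (O ∩ Ed (D \ K)) (b ∩ Ed (D \ K)) else 0) =
    (∑ O ∈ (Ed K).powerset, if KO D O S = K then Vc K f O else 0) *
      ∑ O ∈ (Ed (D \ K)).powerset, ∑ b ∈ (Ed (D \ K) \ O).powerset,
        Wc (D \ K) f O b * G O b := by
  have hdis : Disjoint K (D \ K) := Finset.disjoint_sdiff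
  have hEK : Ed K ⊆ Ed D := Ed_mono hK
  have hE' : Ed (D \ K) ⊆ Ed D := Ed_mono Finset.sdiff_subset
  have hEE : Disjoint (Ed K) (Ed (D \ K)) := Ed_disj hdis
  have hEE' := hEE
  rw [Finset.disjoint_left] at hEE'
  have hsub : (Ed K ∪ Ed (D \ K)).powerset ⊆ (Ed D).powerset :=
    Finset.powerset_mono.2 (Finset.union_subset hEK hE')
  rw [← Finset.sum_subset hsub]
  · rw [sum_powerset_disj hEE, Finset.sum_mul_sum]
    refine Finset.sum_congr rfl fun O1 hO1 => Finset.sum_congr rfl fun O2 hO2 => ?_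
    rw [Finset.mem_powerset] at hO1 hO2
    have hO12 : O1 ∪ O2 ⊆ Ed D := Finset.union_subset (hO1.trans hEK) (hO2.trans hE')
    have e1 : (O1 ∪ O2) ∩ Ed K = O1 := by
      ext e
      simp only [Finset.mem_inter, Finset.mem_union]
      constructor
      · rintro ⟨h | h, h'⟩
        · exact h
        · exact absurd (hO2 h) (hEE' h')
      · intro h
        exact ⟨Or.inl h, hO1 h⟩
    have e2 : (O1 ∪ O2) ∩ Ed (D \ K) = O2 := by
      ext e
      simp only [Finset.mem_inter, Finset.mem_union]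
      constructor
      · rintro ⟨h | h, h'⟩
        · exact absurd h' (hEE' (hO1 h))
        · exact h
      · intro h
        exact ⟨Or.inr h, hO2 h⟩
    have hcr : ∀ e ∈ O1 ∪ O2, (src e ∈ K ↔ tgt e ∈ K) := by
      intro e he
      rcases Finset.mem_union.1 he with h | h
      · have := mem_Ed.1 (hO1 h)
        exact ⟨fun _ => this.2, fun _ => this.1⟩
      · have := mem_Ed.1 (hO2 h)
        rw [Finset.mem_sdiff, Finset.mem_sdiff] at this
        exact ⟨fun h' => absurd h' this.1.2, fun h' => absurd h' this.2.2⟩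
    have hiff : KO D (O1 ∪ O2) S = K ↔ KO D O1 S = K := by
      rw [cond_iff hO12 hS hK, e1]
      exact ⟨fun h => h.2, fun h => ⟨hcr, h⟩⟩
    by_cases hc : KO D O1 S = K
    · rw [if_pos hc]
      have hc' := hiff.2 hc
      simp only [if_pos hc', e2]
      exact sum_b hK f hO1 hO2 (fun b => G O2 b)
    · rw [if_neg hc]
      have hc' : ¬ KO D (O1 ∪ O2) S = K := fun h => hc (hiff.1 h)
      simp only [if_neg hc', mul_zero, Finset.sum_const_zero, zero_mul]
  · intro O hO hO'
    rw [Finset.mem_powerset] at hO hO'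
    have hn : ¬ KO D O S = K := by
      intro h
      apply hO'
      intro e he
      have hcr := ((cond_iff hO hS hK).1 h).1 e he
      have heD := mem_Ed.1 (hO he)
      rw [Finset.mem_union, mem_Ed, mem_Ed, Finset.mem_sdiff, Finset.mem_sdiff]
      by_cases h' : src e ∈ K
      · exact Or.inl ⟨h', hcr.1 h'⟩
      · exact Or.inr ⟨⟨heD.1, h'⟩, heD.2, fun h'' => h' (hcr.2 h'')⟩
    simp only [if_neg hn, mul_zero, Finset.sum_const_zero]

theorem meas_Jf (e : Edge) : Measurable (fun f : Z2 → ℝ => Jf f e) := by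
  unfold Jf
  fun_prop

theorem meas_Vc (D : Finset Z2) (O : Finset Edge) : Measurable (fun f : Z2 → ℝ => Vc D f O) := by
  unfold Vc
  have := meas_Jf
  fun_prop

theorem meas_Wc (D : Finset Z2) (O b : Finset Edge) :
    Measurable (fun f : Z2 → ℝ => Wc D f O b) := by
  unfold Wc
  have h1 := meas_Jf
  have h2 := meas_Vc D O
  fun_prop

theorem dep_Jf {L : Finset Z2} {f f' : Z2 → ℝ} (h : ∀ x ∈ L, f x = f' x) {e : Edge}
    (he : e ∈ Ed L) : Jf f e = Jf f' e := by
  unfold Jf
  have := mem_Ed.1 he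
  rw [h _ this.1, h _ this.2]

theorem dep_Vc {L : Finset Z2} {f f' : Z2 → ℝ} (h : ∀ x ∈ L, f x = f' x) {O : Finset Edge}
    (hO : O ⊆ Ed L) : Vc L f O = Vc L f' O := by
  unfold Vc
  congr 1
  refine Finset.sum_congr rfl fun A _ => Finset.prod_congr rfl fun e he => ?_
  rw [dep_Jf h (hO he)]

theorem dep_Wc {L : Finset Z2} {f f' : Z2 → ℝ} (h : ∀ x ∈ L, f x = f' x) {O b : Finset Edge}
    (hO : O ⊆ Ed L) (hb : b ⊆ Ed L) : Wc L f O b = Wc L f' O b := by
  unfold Wc
  rw [dep_Vc h hO]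
  congr 1
  · congr 1
    refine Finset.prod_congr rfl fun e he => ?_
    rw [dep_Jf h (hb he)]
  · refine Finset.prod_congr rfl fun e he => ?_
    rw [dep_Jf h (Finset.sdiff_subset he)]

/-- extension by zero -/
def ex0 (L : Finset Z2) (ξ : L → ℝ) (x : Z2) : ℝ := if h : x ∈ L then ξ ⟨x, h⟩ else 0

theorem meas_ex0 (L : Finset Z2) : Measurable (ex0 L) := by
  refine measurable_pi_lambda _ fun x => ?_
  unfold ex0
  by_cases h : x ∈ L
  · simp only [h, dif_pos]
    exact measurable_pi_apply _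
  · simp only [h, dif_neg, not_false_eq_true]
    exact measurable_const

/-- independence of the coordinates -/
theorem int_mul {K L : Finset Z2} (hKL : Disjoint K L) {g1 g2 : (Z2 → ℝ) → ℝ}
    (m1 : Measurable g1) (m2 : Measurable g2) (d1 : DepOn K g1) (d2 : DepOn L g2) :
    ∫ f, g1 f * g2 f ∂Gam = (∫ f, g1 f ∂Gam) * ∫ f, g2 f ∂Gam := by
  have hind : iIndepFun (fun (i : Z2) (ω : Z2 → ℝ) => ω i) Gam := by
    have := iIndepFun_infinitePi (Ω := fun _ : Z2 => ℝ)
      (P := fun _ : Z2 => gaussianReal 0 (1 / 4)) (X := fun _ x => x)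
      (fun _ => measurable_id)
    exact this
  have h2 := hind.indepFun_finset K L hKL (fun i => measurable_pi_apply i)
  have h3 := h2.comp (φ := fun ξ => g1 (ex0 K ξ)) (ψ := fun ξ => g2 (ex0 L ξ))
    (m1.comp (meas_ex0 K)) (m2.comp (meas_ex0 L))
  have e1 : ((fun ξ => g1 (ex0 K ξ)) ∘ fun (a : Z2 → ℝ) (i : K) => a i) = g1 := by
    funext f
    refine d1 _ _ fun x hx => ?_
    simp [ex0, hx]
  have e2 : ((fun ξ => g2 (ex0 L ξ)) ∘ fun (a : Z2 → ℝ) (i : L) => a i) = g2 := by
    funext f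
    refine d2 _ _ fun x hx => ?_
    simp [ex0, hx]
  rw [e1, e2] at h3
  exact h3.integral_fun_mul_eq_mul_integral m1.aestronglyMeasurable m2.aestronglyMeasurable

/-- total mass of the coupling -/
theorem cpl_one (hO : Stmt_cplO) (D : Finset Z2) : cpl D (fun _ _ _ => 1) = 1 := by
  have h := hO D (fun _ => 1)
  rw [h]
  unfold Ex
  simp only [mul_one]
  have hmeas : ∀ O : Finset Edge, MeasurableSet {c : List Z2 → ℕ | openE D c = O} := by
    intro O
    have h1 : ∀ e : Edge, MeasurableSet {c : List Z2 → ℕ | e ∈ openE D c} := by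
      intro e
      have h2 : {c : List Z2 → ℕ | e ∈ openE D c} =
          ⋃ l : List Z2, {c : List Z2 → ℕ | 0 < c l ∧ (e ∈ Ed D ∧ IsLoopIn (Ed D) l ∧
            Trav l e)} := by
        ext c
        simp only [openE, Finset.mem_filter, Set.mem_ofPred_eq, Set.mem_iUnion]
        constructor
        · rintro ⟨ha, l, hb, hc, hd⟩
          exact ⟨l, hb, ha, hc, hd⟩
        · rintro ⟨l, hb, ha, hc, hd⟩
          exact ⟨ha, l, hb, hc, hd⟩
      rw [h2]
      refine MeasurableSet.iUnion fun l => ?_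
      have h3 : MeasurableSet {c : List Z2 → ℕ | 0 < c l} :=
        (measurable_pi_apply l) (MeasurableSet.of_discrete (s := {k : ℕ | 0 < k}))
      exact h3.inter (MeasurableSet.const _)
    have h4 : {c : List Z2 → ℕ | openE D c = O} =
        ⋂ e : Edge, {c : List Z2 → ℕ | (e ∈ openE D c ↔ e ∈ O)} := by
      ext c
      simp only [Set.mem_ofPred_eq, Set.mem_iInter]
      exact Finset.ext_iff
    rw [h4]
    refine MeasurableSet.iInter fun e => ?_
    by_cases he : e ∈ O
    · simp only [he, iff_true]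
      exact h1 e
    · simp only [he, iff_false]
      exact (h1 e).compl
  have hprob : IsProbabilityMeasure (soup D (1 / 2)) := by
    unfold soup
    infer_instance
  unfold pr
  rw [← measureReal_biUnion_finset]
  · have : (⋃ O ∈ (Ed D).powerset, {c : List Z2 → ℕ | openE D c = O}) = Set.univ := by
      ext c
      simp only [Set.mem_iUnion, Set.mem_ofPred_eq, Set.mem_univ, iff_true]
      exact ⟨openE D c, Finset.mem_powerset.2 (Finset.filter_subset _ _), rfl⟩
    rw [this]
    exact probReal_univ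
  · intro O _ O' _ hne
    rw [Function.onFun, Set.disjoint_left]
    intro c hc hc'
    exact hne (hc.symm.trans hc')
  · intro O _
    exact hmeas O

end CplM

open CplM in
theorem cplM (hi : Stmt_int) (hO : Stmt_cplO) : Stmt_cplM := by
  intro D K S F hS hK hF
  have hdis : Disjoint K (D \ K) := Finset.disjoint_sdiff
  have hZ := (hi D 0).2
  have hZ' := (hi (D \ K) 0).2
  -- the factor of `K`
  set g1 : (Z2 → ℝ) → ℝ := fun f =>
    ∑ O ∈ (Ed K).powerset, if KO D O S = K then Vc K f O else 0 with hg1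
  have m1 : Measurable g1 := by
    refine Finset.measurable_sum _ fun O _ => ?_
    by_cases h : KO D O S = K
    · simp only [if_pos h]
      exact meas_Vc K O
    · simp only [if_neg h]
      exact measurable_const
  have d1 : DepOn K g1 := by
    intro f f' hff
    refine Finset.sum_congr rfl fun O hO' => ?_
    rw [dep_Vc hff (Finset.mem_powerset.1 hO')]
  -- the factor of `D \ K`
  have main : ∀ G : (Z2 → ℝ) → Finset Edge → Finset Edge → ℝ,
      (∀ O b, Measurable fun f => G f O b) → (∀ O b, DepOn (D \ K) fun f => G f O b) →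
      cpl D (fun f O b => if KO D O S = K then
        G f (O ∩ Ed (D \ K)) (b ∩ Ed (D \ K)) else 0) =
      (∫ f, g1 f ∂Gam) * (cpl (D \ K) G * Zp (Ed (D \ K))) / Zp (Ed D) := by
    intro G mG dG
    set g2 : (Z2 → ℝ) → ℝ := fun f => ∑ O ∈ (Ed (D \ K)).powerset,
      ∑ b ∈ (Ed (D \ K) \ O).powerset, Wc (D \ K) f O b * G f O b with hg2
    have m2 : Measurable g2 :=
      Finset.measurable_sum _ fun O _ => Finset.measurable_sum _ fun b _ =>
        (meas_Wc (D \ K) O b).mul (mG O b)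
    have d2 : DepOn (D \ K) g2 := by
      intro f f' hff
      refine Finset.sum_congr rfl fun O hO' => Finset.sum_congr rfl fun b hb => ?_
      rw [dep_Wc hff (Finset.mem_powerset.1 hO')
        ((Finset.mem_powerset.1 hb).trans Finset.sdiff_subset)]
      exact congrArg _ (dG O b f f' hff)
    have h1 : cpl (D \ K) G * Zp (Ed (D \ K)) = ∫ f, g2 f ∂Gam := by
      unfold cpl
      rw [div_mul_cancel₀ _ hZ'.ne']
    rw [h1, ← int_mul hdis m1 m2 d1 d2]
    unfold cpl
    congr 1
    refine integral_congr_ae (Filter.Eventually.of_forall fun f => ?_)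
    exact pointwise hS hK f (fun O b => G f O b)
  have hmF := main F (fun O b => (hF O b).1) (fun O b => (hF O b).2.1)
  have hm1 := main (fun _ _ _ => 1) (fun _ _ => measurable_const) (fun _ _ _ _ _ => rfl)
  have hEx : Ex D (1 / 2) (fun O => if KO D O S = K then 1 else 0) =
      (∫ f, g1 f ∂Gam) * Zp (Ed (D \ K)) / Zp (Ed D) := by
    rw [← hO D (fun O => if KO D O S = K then 1 else 0)]
    rw [hm1, cpl_one hO (D \ K), one_mul]
  rw [hmF, hEx]
  ring

end LSoup
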