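import Pool.Agent.LSoup.Stmts2

open MeasureTheory ProbabilityTheory Finset

open scoped Classical

noncomputable section

namespace LSoup

lemma cplO_gauss {c : ℝ} (hc : c ^ 2 = 1) :
    (gaussianReal 0 (1 / 4)).map (fun y => c * y) = gaussianReal 0 (1 / 4) := by
  have h := gaussianReal_map_const_mul (μ := 0) (v := 1 / 4) c
  rw [h]
  congr 1
  · simp
  · ext
    simp [hc]

lemma cplO_sg_sq (A : Finset Z2) (x : Z2) : sg A x ^ 2 = 1 := by
  unfold sg
  split_ifs <;> norm_num

lemma cplO_symm (A : Finset Z2) :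
    MeasurePreserving (fun (f : Z2 → ℝ) x => sg A x * f x) Gam Gam := by
  constructor
  · fun_prop
  · unfold Gam
    have h := Measure.infinitePi_map_pi (μ := fun _ : Z2 => gaussianReal 0 (1 / 4))
      (f := fun x y => sg A x * y) (fun x => by fun_prop)
    rw [h]
    congr 1
    ext1 x
    exact cplO_gauss (cplO_sg_sq A x)

/-- product of `exp (f f') - 1` -/
def pfO (O : Finset Edge) (f : Z2 → ℝ) : ℝ := ∏ e ∈ O, (Real.exp (f (src e) * f (tgt e)) - 1)

lemma cplO_sg_symmDiff (A N : Finset Z2) (x : Z2) : sg (symmDiff A N) x = sg A x * sg N x := by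
  unfold sg
  by_cases h1 : x ∈ A <;> by_cases h2 : x ∈ N <;> simp [Finset.mem_symmDiff, h1, h2]

lemma cplO_mem_Ed {D : Finset Z2} {e : Edge} (he : e ∈ Ed D) : src e ∈ D ∧ tgt e ∈ D := by
  unfold Ed at he
  rw [Finset.mem_filter, Finset.mem_product] at he
  exact ⟨he.1.1, he.2⟩

lemma cplO_Vc (D : Finset Z2) (f : Z2 → ℝ) (O : Finset Edge) (hO : O ⊆ Ed D) :
    Vc D f O = (∑ B ∈ D.powerset, pfO O fun x => sg B x * f x) / 2 ^ D.card := by
  unfold Vc
  congr 1
  set N : Finset Z2 := D.filter fun x => f x < 0 with hN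
  have hND : N ⊆ D := Finset.filter_subset _ _
  have hsub : ∀ A ∈ D.powerset, symmDiff A N ∈ D.powerset := by
    intro A hA
    rw [Finset.mem_powerset] at hA ⊢
    intro x hx
    rw [Finset.mem_symmDiff] at hx
    rcases hx with h | h
    · exact hA h.1
    · exact hND h.1
  refine (Finset.sum_nbij' (fun B => symmDiff B N) (fun B => symmDiff B N) hsub hsub ?_ ?_ ?_).symm
  · intro B _
    rw [symmDiff_symmDiff_cancel_right]
  · intro B _
    rw [symmDiff_symmDiff_cancel_right]
  · intro B _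
    unfold pfO
    apply Finset.prod_congr rfl
    intro e he
    have hN' : ∀ x ∈ D, f x = sg N x * |f x| := by
      intro x hx
      unfold sg
      by_cases h : f x < 0
      · rw [if_pos (by rw [hN, Finset.mem_filter]; exact ⟨hx, h⟩), abs_of_neg h]
        ring
      · rw [if_neg (by rw [hN, Finset.mem_filter]; exact fun h' => h h'.2),
          abs_of_nonneg (not_lt.1 h)]
        ring
    obtain ⟨h1, h2⟩ := cplO_mem_Ed (hO he)
    congr 2
    rw [cplO_sg_symmDiff, cplO_sg_symmDiff]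
    unfold Jf
    rw [abs_mul]
    have a1 := hN' _ h1
    have a2 := hN' _ h2
    linear_combination (sg B (src e) * sg B (tgt e) * f (tgt e)) * a1 +
      (sg B (src e) * sg B (tgt e) * sg N (src e) * |f (src e)|) * a2

lemma cplO_abs_exp (x : ℝ) : |Real.exp x - 1| ≤ Real.exp |x| := by
  rw [abs_le]
  have h1 := Real.exp_pos x
  have h2 := Real.one_le_exp (abs_nonneg x)
  have h3 := Real.exp_le_exp.2 (le_abs_self x)
  constructor <;> linarith

lemma cplO_pf_meas (O : Finset Edge) : Measurable (pfO O) := by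
  unfold pfO
  fun_prop

lemma cplO_pf_int (hi : Stmt_int) {D : Finset Z2} {O : Finset Edge} (hO : O ⊆ Ed D) :
    Integrable (pfO O) Gam := by
  refine (hi D 0).1.mono' (cplO_pf_meas O).aestronglyMeasurable ?_
  refine Filter.Eventually.of_forall fun f => ?_
  rw [zero_mul, add_zero, Real.norm_eq_abs]
  unfold pfO
  rw [Finset.abs_prod]
  calc ∏ e ∈ O, |Real.exp (f (src e) * f (tgt e)) - 1| ≤ ∏ e ∈ O, Real.exp (Jf f e) := by
        apply Finset.prod_le_prod (fun e _ => abs_nonneg _)
        intro e _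
        exact cplO_abs_exp _
    _ = Real.exp (∑ e ∈ O, Jf f e) := (Real.exp_sum _ _).symm
    _ ≤ Real.exp (∑ e ∈ Ed D, Jf f e) := by
        apply Real.exp_le_exp.2
        apply Finset.sum_le_sum_of_subset_of_nonneg hO
        intro e _ _
        exact abs_nonneg _

lemma cplO_comp_int (hi : Stmt_int) {D : Finset Z2} {O : Finset Edge} (hO : O ⊆ Ed D)
    (B : Finset Z2) : Integrable (fun f : Z2 → ℝ => pfO O fun x => sg B x * f x) Gam :=
  (cplO_symm B).integrable_comp_of_integrable (cplO_pf_int hi hO)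

lemma cplO_comp_eq (O : Finset Edge) (B : Finset Z2) :
    ∫ f : Z2 → ℝ, pfO O (fun x => sg B x * f x) ∂Gam = ∫ f, pfO O f ∂Gam := by
  have h := integral_map (μ := Gam) (φ := fun (f : Z2 → ℝ) x => sg B x * f x) (f := pfO O)
    (cplO_symm B).measurable.aemeasurable (cplO_pf_meas O).aestronglyMeasurable
  rw [(cplO_symm B).map_eq] at h
  exact h.symm

lemma cplO_Vc_int (hi : Stmt_int) {D : Finset Z2} {O : Finset Edge} (hO : O ⊆ Ed D) :
    Integrable (fun f => Vc D f O) Gam ∧ ∫ f, Vc D f O ∂Gam = ∫ f, pfO O f ∂Gam := by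
  have e : (fun f => Vc D f O) =
      fun f => (∑ B ∈ D.powerset, pfO O fun x => sg B x * f x) / 2 ^ D.card := by
    ext f
    exact cplO_Vc D f O hO
  rw [e]
  constructor
  · exact (integrable_finsetSum _ fun B _ => cplO_comp_int hi hO B).div_const _
  · rw [integral_div, integral_finsetSum _ fun B _ => cplO_comp_int hi hO B,
      Finset.sum_congr rfl fun B _ => cplO_comp_eq O B, Finset.sum_const, Finset.card_powerset,
      nsmul_eq_mul]
    push_cast
    field_simp

lemma cplO_Zp (hi : Stmt_int) {D : Finset Z2} {U : Finset Edge} (hU : U ⊆ Ed D) :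
    ∑ O ∈ U.powerset, ∫ f, pfO O f ∂Gam = Zp U := by
  rw [← integral_finsetSum]
  · unfold Zp
    congr 1
    ext f
    unfold H
    rw [Real.exp_sum]
    have h : ∀ e ∈ U, Real.exp (f (src e) * f (tgt e)) =
        (Real.exp (f (src e) * f (tgt e)) - 1) + 1 := fun e _ => by ring
    rw [Finset.prod_congr rfl h, Finset.prod_add_one]
    rfl
  · intro O hO
    exact cplO_pf_int hi ((Finset.mem_powerset.1 hO).trans hU)

lemma cplO_unique {E : Finset Edge} {p q : Finset Edge → ℝ}
    (h : ∀ U ⊆ E, ∑ O ∈ U.powerset, p O = ∑ O ∈ U.powerset, q O) :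
    ∀ U : Finset Edge, U ⊆ E → p U = q U := by
  intro U
  induction U using Finset.strongInduction with
  | H U ih =>
    intro hU
    have h1 := h U hU
    have hm : U ∈ U.powerset := Finset.mem_powerset_self U
    rw [← Finset.add_sum_erase _ _ hm, ← Finset.add_sum_erase _ _ hm] at h1
    have h2 : ∑ O ∈ U.powerset.erase U, p O = ∑ O ∈ U.powerset.erase U, q O := by
      apply Finset.sum_congr rfl
      intro O hO
      rw [Finset.mem_erase, Finset.mem_powerset] at hO
      exact ih O (Finset.ssubset_iff_subset_ne.2 ⟨hO.2, hO.1⟩) (hO.2.trans hU)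
    rw [h2] at h1
    linarith

lemma cplO_b (D : Finset Z2) (f : Z2 → ℝ) (O : Finset Edge) :
    ∑ b ∈ (Ed D \ O).powerset, Wc D f O b = Vc D f O := by
  unfold Wc
  have h1 : ∀ b ∈ (Ed D \ O).powerset,
      Vc D f O * (∏ e ∈ b, (1 - Real.exp (-Jf f e))) * ∏ e ∈ Ed D \ (O ∪ b), Real.exp (-Jf f e) =
      Vc D f O * ((∏ e ∈ b, (1 - Real.exp (-Jf f e))) *
        ∏ e ∈ (Ed D \ O) \ b, Real.exp (-Jf f e)) := by
    intro b _
    rw [sdiff_sdiff_left, mul_assoc]
    rfl
  rw [Finset.sum_congr rfl h1, ← Finset.mul_sum, ← Finset.prod_add]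
  have h2 : ∏ e ∈ Ed D \ O, (1 - Real.exp (-Jf f e) + Real.exp (-Jf f e)) = 1 := by
    apply Finset.prod_eq_one
    intro e _
    ring
  rw [h2, mul_one]

theorem cplO (hz : Stmt_Z) (hsub : Stmt_sub) (hi : Stmt_int) (hp : Stmt_prob) : Stmt_cplO := by
  intro D F
  have hq : ∀ O, O ⊆ Ed D → ∫ f, Vc D f O ∂Gam = Zp (Ed D) * pr D (1 / 2) O := by
    have h1 := cplO_unique (E := Ed D) (p := fun O => ∫ f, pfO O f ∂Gam)
      (q := fun O => Zp (Ed D) * pr D (1 / 2) O) ?_
    · intro O hO
      rw [(cplO_Vc_int hi hO).2]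
      exact h1 O hO
    · intro U hU
      rw [cplO_Zp hi hU, ← Finset.mul_sum, hsub D (1 / 2) U (by norm_num) hU, hz D U hU,
        hz D (Ed D) subset_rfl, ← Real.exp_add]
      congr 1
      ring
  have e1 : (fun f => ∑ O ∈ (Ed D).powerset, ∑ b ∈ (Ed D \ O).powerset, Wc D f O b * F O) =
      fun f => ∑ O ∈ (Ed D).powerset, Vc D f O * F O := by
    ext f
    apply Finset.sum_congr rfl
    intro O _
    rw [← Finset.sum_mul, cplO_b]
  unfold cpl Ex
  rw [e1, integral_finsetSum, Finset.sum_div]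
  · apply Finset.sum_congr rfl
    intro O hO
    rw [integral_mul_const, hq O (Finset.mem_powerset.1 hO)]
    have := (hi D 0).2.ne'
    field_simp
  · intro O hO
    exact (cplO_Vc_int hi (Finset.mem_powerset.1 hO)).1.mul_const _

end LSoup
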