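import Pool.Agent.LSoup.Stmts

/-! # Crossing of a square annulus by a connected set -/

open scoped Classical

noncomputable section

namespace LSoup

namespace CrossAux

/-- steps inside `A` that change both coordinates by at most one -/
def Stp (A : Finset Z2) (x y : Z2) : Prop :=
  x ∈ A ∧ y ∈ A ∧ (x.1 - y.1).natAbs ≤ 1 ∧ (x.2 - y.2).natAbs ≤ 1

lemma joined_mem {K : Finset Z2} {x y : Z2} (h : Joined (Ed K) x y) : Stp K x y := by
  obtain ⟨e, he, h⟩ := h
  simp only [Ed, Finset.mem_filter, Finset.mem_product, Finset.mem_univ, and_true] at he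
  rcases e with ⟨⟨a, b⟩, s⟩
  rcases x with ⟨x1, x2⟩
  rcases y with ⟨y1, y2⟩
  cases s
  · simp only [src, tgt, Bool.false_eq_true, if_false, Prod.mk.injEq] at he h
    rcases h with ⟨⟨h1, h2⟩, h3, h4⟩ | ⟨⟨h1, h2⟩, h3, h4⟩
    · subst h1 h2 h3 h4
      refine ⟨he.1, he.2, ?_, ?_⟩ <;> simp
    · subst h1 h2 h3 h4
      refine ⟨he.2, he.1, ?_, ?_⟩ <;> simp
  · simp only [src, tgt, if_true, Prod.mk.injEq] at he h
    rcases h with ⟨⟨h1, h2⟩, h3, h4⟩ | ⟨⟨h1, h2⟩, h3, h4⟩
    · subst h1 h2 h3 h4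
      refine ⟨he.1, he.2, ?_, ?_⟩ <;> simp
    · subst h1 h2 h3 h4
      refine ⟨he.2, he.1, ?_, ?_⟩ <;> simp

lemma sub_path {K : Finset Z2} {z a b : Z2} {p q : ℕ} (hpq : p < q) (ha : nrm a z ≤ p)
    (h : Relation.ReflTransGen (Stp K) a b) :
    nrm b z ≤ p ∨
    (∃ u, nrm u z = p ∧ p ≤ nrm b z ∧ nrm b z ≤ q ∧
      Relation.ReflTransGen (Stp (K.filter fun x => p ≤ nrm x z ∧ nrm x z ≤ q)) u b) ∨
    ∃ u v, nrm u z = p ∧ nrm v z = q ∧
      Relation.ReflTransGen (Stp (K.filter fun x => p ≤ nrm x z ∧ nrm x z ≤ q)) u v := by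
  induction h with
  | refl => exact Or.inl ha
  | tail hab hbc ih =>
    rename_i b c
    obtain ⟨hb, hc, h1, h2⟩ := hbc
    have hn1 : nrm c z ≤ nrm b z + 1 := by simp only [nrm]; omega
    have hn2 : nrm b z ≤ nrm c z + 1 := by simp only [nrm]; omega
    rcases ih with ih | ⟨u, hu, hb1, hb2, hp⟩ | ih
    · by_cases hcp : nrm c z ≤ p
      · exact Or.inl hcp
      · right; left
        refine ⟨b, by omega, by omega, by omega, Relation.ReflTransGen.single ⟨?_, ?_, h1, h2⟩⟩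
        · rw [Finset.mem_filter]; exact ⟨hb, by omega, by omega⟩
        · rw [Finset.mem_filter]; exact ⟨hc, by omega, by omega⟩
    · by_cases hcp : nrm c z < p
      · exact Or.inl hcp.le
      · by_cases hcq : nrm c z ≤ q
        · right; left
          refine ⟨u, hu, by omega, hcq, hp.tail ⟨?_, ?_, h1, h2⟩⟩
          · rw [Finset.mem_filter]; exact ⟨hb, by omega, by omega⟩
          · rw [Finset.mem_filter]; exact ⟨hc, by omega, by omega⟩
        · right; right
          exact ⟨u, b, hu, by omega, hp⟩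
    · exact Or.inr (Or.inr ih)

lemma cover {A : Finset Z2} (π : Z2 → ℤ)
    (hπ : ∀ x y, Stp A x y → (π x - π y).natAbs ≤ 1) {u v : Z2} (hu : u ∈ A)
    (h : Relation.ReflTransGen (Stp A) u v) :
    ∀ t ∈ Finset.uIcc (π u) (π v), ∃ w ∈ A, π w = t := by
  induction h with
  | refl =>
    intro t ht
    simp only [Finset.uIcc_self, Finset.mem_singleton] at ht
    exact ⟨u, hu, ht.symm⟩
  | tail hab hbc ih =>
    rename_i b c
    intro t ht
    by_cases htc : t = π c
    · exact ⟨c, hbc.2.1, htc.symm⟩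
    · refine ih t ?_
      have := hπ _ _ hbc
      rw [Finset.mem_uIcc] at ht ⊢
      omega

lemma wide_of {A : Finset Z2} (π : Z2 → ℤ)
    (hπ : ∀ x y, Stp A x y → (π x - π y).natAbs ≤ 1) {u v : Z2} (hu : u ∈ A)
    (h : Relation.ReflTransGen (Stp A) u v) (m : ℕ) (hm : m ≤ (π u - π v).natAbs) :
    ∃ S ⊆ A, S.card = m ∧ Set.InjOn π (S : Set Z2) := by
  have hcov := cover π hπ hu h
  have hcard : m ≤ (Finset.uIcc (π u) (π v)).card := by
    rw [Int.card_uIcc]; omega
  obtain ⟨T, hT, hTc⟩ := Finset.exists_subset_card_eq hcard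
  choose! g hg using fun t (ht : t ∈ Finset.uIcc (π u) (π v)) => hcov t ht
  refine ⟨T.image g, ?_, ?_, ?_⟩
  · intro x hx
    rw [Finset.mem_image] at hx
    obtain ⟨t, ht, rfl⟩ := hx
    exact (hg t (hT ht)).1
  · rw [Finset.card_image_of_injOn, hTc]
    intro s hs t ht hst
    have h1 := (hg s (hT hs)).2
    have h2 := (hg t (hT ht)).2
    rw [← h1, ← h2, hst]
  · intro x hx y hy hxy
    rw [Finset.mem_coe, Finset.mem_image] at hx hy
    obtain ⟨s, hs, rfl⟩ := hx
    obtain ⟨t, ht, rfl⟩ := hy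
    rw [(hg s (hT hs)).2, (hg t (hT ht)).2] at hxy
    rw [hxy]

end CrossAux

open CrossAux in
theorem cross : Stmt_cross := by
  intro K z p q hK hpq hp hq
  rcases Nat.eq_or_lt_of_le hpq with rfl | hlt
  · refine ⟨∅, by simp, by simp, Or.inl (by simp)⟩
  obtain ⟨a, haK, ha⟩ := hp
  obtain ⟨b, hbK, hb⟩ := hq
  have hab : Relation.ReflTransGen (Stp K) a b := by
    have h0 : Relation.ReflTransGen (Joined (Ed K)) a b := hK a haK b hbK
    clear hb
    induction h0 with
    | refl => exact Relation.ReflTransGen.refl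
    | tail _ h ih =>
      have h1 := joined_mem h
      exact (ih h1.1).tail h1
  have hmain : ∃ u v, nrm u z = p ∧ nrm v z = q ∧
      Relation.ReflTransGen (Stp (K.filter fun x => p ≤ nrm x z ∧ nrm x z ≤ q)) u v := by
    rcases sub_path hlt ha hab with h | ⟨u, hu, h1, h2, h3⟩ | h
    · omega
    · exact ⟨u, b, hu, by omega, h3⟩
    · exact h
  obtain ⟨u, v, hu, hv, huv⟩ := hmain
  have huA : u ∈ K.filter fun x => p ≤ nrm x z ∧ nrm x z ≤ q := by
    rcases Relation.ReflTransGen.cases_head huv with h | ⟨c, hc, -⟩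
    · subst h; omega
    · exact hc.1
  have hd : q - p ≤ (u.1 - v.1).natAbs ∨ q - p ≤ (u.2 - v.2).natAbs := by
    simp only [nrm] at hu hv
    omega
  rcases hd with hd | hd
  · obtain ⟨S, hS, hc, hi⟩ := wide_of Prod.fst (fun x y h => h.2.2.1) huA huv (q - p) hd
    exact ⟨S, hS, hc, Or.inl hi⟩
  · obtain ⟨S, hS, hc, hi⟩ := wide_of Prod.snd (fun x y h => h.2.2.2) huA huv (q - p) hd
    exact ⟨S, hS, hc, Or.inr hi⟩

end LSoup
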