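import Pool.Agent.LSoup.Stmts

/-!
Smooth cutoff functions.
-/

open Finset

open scoped Classical

noncomputable section

namespace LSoup

/-- averages over intervals of length `2 h + 1` -/
private def Av (h : ℕ) (g : ℤ → ℝ) (x : ℤ) : ℝ :=
  (∑ k ∈ range (2 * h + 1), g (x - h + k)) / (2 * h + 1)

private theorem pos2 (h : ℕ) : (0 : ℝ) < 2 * h + 1 := by positivity

private theorem Av_const {h : ℕ} {g : ℤ → ℝ} {x : ℤ} {c : ℝ}
    (hg : ∀ t, x - h ≤ t → t ≤ x + h → g t = c) : Av h g x = c := by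
  unfold Av
  rw [div_eq_iff (pos2 h).ne']
  have : ∀ k ∈ range (2 * h + 1), g (x - h + k) = c := by
    intro k hk
    have := Finset.mem_range.1 hk
    exact hg _ (by omega) (by omega)
  rw [Finset.sum_congr rfl this]
  simp [mul_comm]

private theorem Av_add {h : ℕ} (g g' : ℤ → ℝ) (x : ℤ) :
    Av h (fun t => g t + g' t) x = Av h g x + Av h g' x := by
  unfold Av
  rw [Finset.sum_add_distrib, add_div]

private theorem Av_smul {h : ℕ} (c : ℝ) (g : ℤ → ℝ) (x : ℤ) :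
    Av h (fun t => c * g t) x = c * Av h g x := by
  unfold Av
  rw [← Finset.mul_sum, mul_div_assoc]

private theorem Av_mono {h : ℕ} {g g' : ℤ → ℝ} (hg : ∀ t, g t ≤ g' t) (x : ℤ) :
    Av h g x ≤ Av h g' x := by
  unfold Av
  exact div_le_div_of_nonneg_right (Finset.sum_le_sum fun k _ => hg _) (pos2 h).le

private theorem Av_cst {h : ℕ} (c : ℝ) (x : ℤ) : Av h (fun _ => c) x = c :=
  Av_const fun _ _ _ => rfl

private theorem Av_diff {h : ℕ} (g : ℤ → ℝ) (x : ℤ) :
    Av h g (x + 1) - Av h g x = (g (x + h + 1) - g (x - h)) / (2 * h + 1) := by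
  unfold Av
  rw [← sub_div, ← Finset.sum_sub_distrib]
  congr 1
  have := Finset.sum_range_sub (fun k : ℕ => g (x - h + k)) (2 * h + 1)
  have e1 : g (x - h + (2 * h + 1 : ℕ)) = g (x + h + 1) := by
    congr 1
    push_cast
    ring
  have e2 : g (x - h + (0 : ℕ)) = g (x - h) := by simp
  rw [e1, e2] at this
  rw [← this]
  refine Finset.sum_congr rfl fun k _ => ?_
  congr 2
  push_cast
  ring

private theorem Av_second {h : ℕ} (g : ℤ → ℝ) (x : ℤ) :
    Av h (Av h g) (x + 1) + Av h (Av h g) (x - 1) - 2 * Av h (Av h g) x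
      = (g (x + 2 * h + 1) + g (x - 2 * h - 1) - 2 * g x) / (2 * h + 1) ^ 2 := by
  have h1 := Av_diff (h := h) (Av h g) x
  have h2 := Av_diff (h := h) (Av h g) (x - 1)
  have h3 := Av_diff (h := h) g (x + h)
  have h4 := Av_diff (h := h) g (x - h - 1)
  have e1 : x - 1 + 1 = x := by ring
  have e2 : x - 1 + (h : ℤ) + 1 = x + h := by ring
  have e3 : x - 1 - (h : ℤ) = x - h - 1 := by ring
  have e4 : x + (h : ℤ) + h + 1 = x + 2 * h + 1 := by ring
  have e5 : x + (h : ℤ) - h = x := by ring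
  have e6 : x - (h : ℤ) - 1 + 1 = x - h := by ring
  have e7 : x - (h : ℤ) - 1 + h + 1 = x := by ring
  have e8 : x - (h : ℤ) - 1 - h = x - 2 * h - 1 := by ring
  rw [e1, e2, e3] at h2
  rw [e4, e5] at h3
  rw [e6, e7, e8] at h4
  have hp := pos2 h
  have h5 : Av h (Av h g) (x + 1) + Av h (Av h g) (x - 1) - 2 * Av h (Av h g) x
      = ((Av h g (x + h + 1) - Av h g (x + h)) - (Av h g (x - h) - Av h g (x - h - 1)))
        / (2 * h + 1) := by
    have : Av h (Av h g) (x + 1) + Av h (Av h g) (x - 1) - 2 * Av h (Av h g) x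
      = (Av h (Av h g) (x + 1) - Av h (Av h g) x) - (Av h (Av h g) x - Av h (Av h g) (x - 1)) := by
      ring
    rw [this, h1, h2]
    ring
  rw [h5, h3, h4]
  field_simp
  ring

private theorem Av_second_le {h : ℕ} {g : ℤ → ℝ} (h0 : ∀ t, 0 ≤ g t) (h1 : ∀ t, g t ≤ 1) (x : ℤ) :
    |Av h (Av h g) (x + 1) + Av h (Av h g) (x - 1) - 2 * Av h (Av h g) x|
      ≤ 2 / (2 * h + 1) ^ 2 := by
  rw [Av_second, abs_div, abs_of_pos (pow_pos (pos2 h) 2)]
  refine div_le_div_of_nonneg_right ?_ (pow_pos (pos2 h) 2).le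
  rw [abs_le]
  constructor <;> linarith [h0 (x + 2 * h + 1), h0 (x - 2 * h - 1), h0 x, h1 (x + 2 * h + 1),
    h1 (x - 2 * h - 1), h1 x]

private theorem Av2_const {h : ℕ} {g : ℤ → ℝ} {x : ℤ} {c : ℝ}
    (hg : ∀ t, x - 2 * h ≤ t → t ≤ x + 2 * h → g t = c) : Av h (Av h g) x = c :=
  Av_const fun t h1 h2 => Av_const fun s h3 h4 => hg s (by omega) (by omega)

private def Gf (h : ℕ) (N : Finset Z2) (x y : ℤ) : ℝ :=
  Av h (Av h fun t => if (x, t) ∈ N then 1 else 0) y

private def chf (h : ℕ) (N : Finset Z2) (z : Z2) : ℝ :=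
  Av h (Av h fun s => Gf h N s z.2) z.1

private theorem Gf_nonneg (h : ℕ) (N : Finset Z2) (x y : ℤ) : 0 ≤ Gf h N x y := by
  unfold Gf
  have h1 : ∀ t, (0 : ℝ) ≤ if (x, t) ∈ N then 1 else 0 := fun t => by split_ifs <;> norm_num
  have h2 : ∀ t, (0 : ℝ) ≤ Av h (fun t => if (x, t) ∈ N then 1 else 0) t := fun t => by
    have := Av_mono (h := h) h1 t
    rwa [Av_cst] at this
  have := Av_mono (h := h) h2 y
  rwa [Av_cst] at this

private theorem Gf_le (h : ℕ) (N : Finset Z2) (x y : ℤ) : Gf h N x y ≤ 1 := by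
  unfold Gf
  have h1 : ∀ t, (if (x, t) ∈ N then (1 : ℝ) else 0) ≤ 1 := fun t => by split_ifs <;> norm_num
  have h2 : ∀ t, Av h (fun t => if (x, t) ∈ N then (1 : ℝ) else 0) t ≤ 1 := fun t => by
    have := Av_mono (h := h) h1 t
    rwa [Av_cst] at this
  have := Av_mono (h := h) h2 y
  rwa [Av_cst] at this

private theorem Av2_le {h : ℕ} {g : ℤ → ℝ} {c : ℝ} (hg : ∀ t, g t ≤ c) (x : ℤ) :
    Av h (Av h g) x ≤ c := by
  have h2 : ∀ t, Av h g t ≤ c := fun t => by
    have := Av_mono (h := h) hg t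
    rwa [Av_cst] at this
  have := Av_mono (h := h) h2 x
  rwa [Av_cst] at this

private theorem le_Av2 {h : ℕ} {g : ℤ → ℝ} {c : ℝ} (hg : ∀ t, c ≤ g t) (x : ℤ) :
    c ≤ Av h (Av h g) x := by
  have h2 : ∀ t, c ≤ Av h g t := fun t => by
    have := Av_mono (h := h) hg t
    rwa [Av_cst] at this
  have := Av_mono (h := h) h2 x
  rwa [Av_cst] at this

private theorem Av2_lin {h : ℕ} (g1 g2 g3 : ℤ → ℝ) (x : ℤ) :
    Av h (Av h g1) x + Av h (Av h g2) x - 2 * Av h (Av h g3) x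
      = Av h (Av h fun t => g1 t + g2 t - 2 * g3 t) x := by
  have h1 : ∀ (u v : ℤ → ℝ) (t : ℤ), Av h (fun s => u s - 2 * v s) t = Av h u t - 2 * Av h v t := by
    intro u v t
    have := Av_add (h := h) u (fun s => -2 * v s) t
    rw [Av_smul] at this
    have e : (fun s => u s - 2 * v s) = fun s => u s + -2 * v s := by
      funext s; ring
    rw [e, this]
    ring
  have h2 : (fun t => Av h (fun t => g1 t + g2 t - 2 * g3 t) t)
      = fun t => (Av h g1 t + Av h g2 t) - 2 * Av h g3 t := by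
    funext t
    rw [h1 (fun t => g1 t + g2 t) g3 t, Av_add]
  have h3 : Av h (fun t => g1 t + g2 t - 2 * g3 t)
      = fun t => (Av h g1 t + Av h g2 t) - 2 * Av h g3 t := h2
  rw [h3, h1 (fun t => Av h g1 t + Av h g2 t) (Av h g3) x, Av_add]

private theorem mem_nbhd {A : Finset Z2} {r : ℕ} {z : Z2} :
    z ∈ nbhd A r ↔ ∃ a ∈ A, (a.1 - r ≤ z.1 ∧ z.1 ≤ a.1 + r) ∧ (a.2 - r ≤ z.2 ∧ z.2 ≤ a.2 + r) := by
  simp only [nbhd, bx, Finset.mem_biUnion, Finset.mem_product, Finset.mem_Icc]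

theorem cut : Stmt_cut := by
  intro A r hr
  set h : ℕ := r / 2 with hh
  set N : Finset Z2 := nbhd A (2 * h) with hN
  have hhr : (r : ℝ) ≤ 2 * h + 1 := by
    have : r ≤ 2 * h + 1 := by omega
    exact_mod_cast this
  have hr0 : (0 : ℝ) < r := by exact_mod_cast hr
  -- vanishing
  have hvan : ∀ z : Z2, (∀ a ∈ A, a.1 + 4 * h < z.1 ∨ z.1 < a.1 - 4 * h ∨ a.2 + 4 * h < z.2 ∨
      z.2 < a.2 - 4 * h) → chf h N z = 0 := by
    intro z hz
    unfold chf
    refine Av2_const fun s hs1 hs2 => ?_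
    unfold Gf
    refine Av2_const fun t ht1 ht2 => ?_
    rw [if_neg]
    intro hmem
    rw [hN, mem_nbhd] at hmem
    obtain ⟨a, ha, h1, h2⟩ := hmem
    push_cast at h1 h2
    rcases hz a ha with h3 | h3 | h3 | h3 <;> omega
  refine ⟨chf h N, fun z => le_Av2 (fun t => Gf_nonneg h N t z.2) z.1,
    fun z => Av2_le (fun t => Gf_le h N t z.2) z.1, ?_, ?_, ?_⟩
  · intro z hz
    unfold chf
    refine Av2_const fun s hs1 hs2 => ?_
    unfold Gf
    refine Av2_const fun t ht1 ht2 => ?_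
    rw [if_pos]
    rw [hN, mem_nbhd]
    refine ⟨z, hz, ⟨?_, ?_⟩, ⟨?_, ?_⟩⟩ <;> push_cast <;> omega
  · intro z hz
    rw [mem_nbhd] at hz
    push Not at hz
    have hfar : ∀ a ∈ A, a.1 + 4 * r < z.1 ∨ z.1 < a.1 - 4 * r ∨ a.2 + 4 * r < z.2 ∨
        z.2 < a.2 - 4 * r := by
      intro a ha
      have := hz a ha
      push_cast at this
      by_contra hcon
      push Not at hcon
      have h5 := this ⟨by omega, by omega⟩ (by omega)
      omega
    have hkey : ∀ z' : Z2, (z'.1 - z.1).natAbs + (z'.2 - z.2).natAbs ≤ 1 → chf h N z' = 0 := by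
      intro z' hz'
      refine hvan z' fun a ha => ?_
      rcases hfar a ha with h3 | h3 | h3 | h3
      · left; omega
      · right; left; omega
      · right; right; left; omega
      · right; right; right; omega
    refine ⟨hkey z (by simp), ?_⟩
    unfold lap
    rw [hkey z (by simp), hkey (z.1 + 1, z.2) (by simp), hkey (z.1 - 1, z.2) (by simp),
      hkey (z.1, z.2 + 1) (by simp), hkey (z.1, z.2 - 1) (by simp)]
    simp
  · intro z
    have hx : |chf h N (z.1 + 1, z.2) + chf h N (z.1 - 1, z.2) - 2 * chf h N z|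
        ≤ 2 / (2 * h + 1) ^ 2 :=
      Av_second_le (fun t => Gf_nonneg h N t z.2) (fun t => Gf_le h N t z.2) z.1
    have hy : |chf h N (z.1, z.2 + 1) + chf h N (z.1, z.2 - 1) - 2 * chf h N z|
        ≤ 2 / (2 * h + 1) ^ 2 := by
      have e : chf h N (z.1, z.2 + 1) + chf h N (z.1, z.2 - 1) - 2 * chf h N z
          = Av h (Av h fun s => Gf h N s (z.2 + 1) + Gf h N s (z.2 - 1) - 2 * Gf h N s z.2) z.1 :=
        Av2_lin _ _ _ _
      rw [e, abs_le]
      have hG : ∀ s, |Gf h N s (z.2 + 1) + Gf h N s (z.2 - 1) - 2 * Gf h N s z.2|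
          ≤ 2 / (2 * h + 1) ^ 2 := by
        intro s
        exact Av_second_le (fun t => by split_ifs <;> norm_num)
          (fun t => by split_ifs <;> norm_num) z.2
      exact ⟨le_Av2 (fun s => (abs_le.1 (hG s)).1) z.1, Av2_le (fun s => (abs_le.1 (hG s)).2) z.1⟩
    have hb : (2 : ℝ) / (2 * h + 1) ^ 2 ≤ 2 / (r : ℝ) ^ 2 := by
      refine div_le_div_of_nonneg_left (by norm_num) (by positivity) ?_
      exact pow_le_pow_left₀ hr0.le hhr 2
    have hl : lap (chf h N) z = -(chf h N (z.1 + 1, z.2) + chf h N (z.1 - 1, z.2) - 2 * chf h N z)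
        - (chf h N (z.1, z.2 + 1) + chf h N (z.1, z.2 - 1) - 2 * chf h N z) := by
      unfold lap
      ring
    have hc : (8 : ℝ) / (r : ℝ) ^ 2 = 2 / (r : ℝ) ^ 2 + 2 / (r : ℝ) ^ 2 + 4 / (r : ℝ) ^ 2 := by ring
    have hd : (0 : ℝ) ≤ 4 / (r : ℝ) ^ 2 := by positivity
    rw [hl, hc, abs_le]
    rw [abs_le] at hx hy
    constructor <;> linarith [hx.1, hx.2, hy.1, hy.2]

end LSoup
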