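import Pool.Agent.LSoup.Stmts

/-!
Decomposition of the Gaussian integral according to the bridged cluster of a point.
-/

open MeasureTheory ProbabilityTheory Finset Filter Topology

open scoped Classical

noncomputable section

namespace LSoup

namespace DecAux

/-- opening factor -/
def fo (ξ : Z2 → ℝ) (e : Edge) : ℝ :=
  if 0 < ξ (src e) * ξ (tgt e) then 1 - Real.exp (-2 * (ξ (src e) * ξ (tgt e))) else 0

/-- closing factor -/
def fc (ξ : Z2 → ℝ) (e : Edge) : ℝ :=
  if 0 < ξ (src e) * ξ (tgt e) then Real.exp (-2 * (ξ (src e) * ξ (tgt e))) else 1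

theorem brP_eq (D : Finset Z2) (ξ : Z2 → ℝ) (ω : Finset Edge) :
    brP D ξ ω = (∏ e ∈ ω, fo ξ e) * ∏ e ∈ Ed D \ ω, fc ξ e := rfl

theorem mem_Ed {D : Finset Z2} {e : Edge} : e ∈ Ed D ↔ src e ∈ D ∧ tgt e ∈ D := by
  unfold Ed src
  simp only [mem_filter, mem_product, mem_univ, and_true]

theorem mem_KO {D : Finset Z2} {O : Finset Edge} {q x : Z2} :
    x ∈ KO D O {q} ↔ x ∈ D ∧ Conn O q x := by
  unfold KO
  simp only [mem_filter, mem_singleton, exists_eq_left]

theorem Ed_mono {C D : Finset Z2} (h : C ⊆ D) : Ed C ⊆ Ed D := by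
  intro e he
  rw [mem_Ed] at he ⊢
  exact ⟨h he.1, h he.2⟩

theorem Ed_disj {C D : Finset Z2} : Disjoint (Ed C) (Ed (D \ C)) := by
  rw [Finset.disjoint_left]
  intro e h1 h2
  rw [mem_Ed] at h1 h2
  exact (Finset.mem_sdiff.1 h2.1).2 h1.1

theorem fo_add_fc (ξ : Z2 → ℝ) (e : Edge) : fo ξ e + fc ξ e = 1 := by
  unfold fo fc
  split_ifs <;> ring

theorem fo_nonneg (ξ : Z2 → ℝ) (e : Edge) : 0 ≤ fo ξ e := by
  unfold fo
  split_ifs with h
  · have : Real.exp (-2 * (ξ (src e) * ξ (tgt e))) ≤ 1 := by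
      rw [Real.exp_le_one_iff]
      linarith
    linarith
  · exact le_rfl

theorem fc_nonneg (ξ : Z2 → ℝ) (e : Edge) : 0 ≤ fc ξ e := by
  unfold fc
  split_ifs with h
  · exact (Real.exp_pos _).le
  · exact zero_le_one

theorem brP_nonneg (D : Finset Z2) (ξ : Z2 → ℝ) (ω : Finset Edge) : 0 ≤ brP D ξ ω := by
  rw [brP_eq]
  exact mul_nonneg (prod_nonneg fun e _ => fo_nonneg ξ e) (prod_nonneg fun e _ => fc_nonneg ξ e)

theorem sum_brP (D : Finset Z2) (ξ : Z2 → ℝ) : ∑ ω ∈ (Ed D).powerset, brP D ξ ω = 1 := by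
  have h := Finset.prod_add (fo ξ) (fc ξ) (Ed D)
  simp only [fo_add_fc, prod_const_one] at h
  rw [h]
  rfl

theorem conn_stay {D C : Finset Z2} {q x : Z2} {A B : Finset Edge} (hA : A ⊆ Ed C)
    (hB : B ⊆ Ed (D \ C)) (hq : q ∈ C) (h : Conn (A ∪ B) q x) : x ∈ C ∧ Conn A q x := by
  induction h with
  | refl => exact ⟨hq, Relation.ReflTransGen.refl⟩
  | tail h1 h2 ih =>
    obtain ⟨e, he, h3⟩ := h2
    rcases mem_union.1 he with h4 | h4
    · have h5 := mem_Ed.1 (hA h4)
      refine ⟨?_, ih.2.tail ⟨e, h4, h3⟩⟩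
      rcases h3 with ⟨h6, h7⟩ | ⟨h6, h7⟩
      · rw [← h7]; exact h5.2
      · rw [← h6]; exact h5.1
    · exfalso
      have h5 := mem_Ed.1 (hB h4)
      rcases h3 with ⟨h6, h7⟩ | ⟨h6, h7⟩
      · rw [h6] at h5
        exact (Finset.mem_sdiff.1 h5.1).2 ih.1
      · rw [h7] at h5
        exact (Finset.mem_sdiff.1 h5.2).2 ih.1

theorem conn_mono {A B : Finset Edge} (h : A ⊆ B) {x y : Z2} (hc : Conn A x y) : Conn B x y := by
  unfold Conn at hc ⊢
  refine Relation.ReflTransGen.mono (fun a b => ?_) _ _ hc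
  rintro ⟨e, he, h1⟩
  exact ⟨e, h he, h1⟩

theorem split {D C : Finset Z2} {q : Z2} {ω : Finset Edge} (hω : ω ⊆ Ed D)
    (hK : KO D ω {q} = C) : ω ∩ Ed C ∪ ω ∩ Ed (D \ C) = ω := by
  ext e
  rw [mem_union, mem_inter, mem_inter]
  constructor
  · rintro (h | h)
    · exact h.1
    · exact h.1
  · intro he
    have h1 := mem_Ed.1 (hω he)
    by_cases h2 : src e ∈ C
    · left
      refine ⟨he, mem_Ed.2 ⟨h2, ?_⟩⟩
      rw [← hK, mem_KO] at h2 ⊢
      exact ⟨h1.2, h2.2.tail ⟨e, he, Or.inl ⟨rfl, rfl⟩⟩⟩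
    · right
      refine ⟨he, mem_Ed.2 ⟨Finset.mem_sdiff.2 ⟨h1.1, h2⟩, Finset.mem_sdiff.2 ⟨h1.2, ?_⟩⟩⟩
      intro h3
      apply h2
      rw [← hK, mem_KO] at h3 ⊢
      exact ⟨h1.1, h3.2.tail ⟨e, he, Or.inr ⟨rfl, rfl⟩⟩⟩

theorem KO_inter {D C : Finset Z2} {q : Z2} {ω : Finset Edge} (hω : ω ⊆ Ed D) (hq : q ∈ D)
    (hK : KO D ω {q} = C) : KO C (ω ∩ Ed C) {q} = C := by
  have hqC : q ∈ C := by
    rw [← hK, mem_KO]
    exact ⟨hq, Relation.ReflTransGen.refl⟩
  ext x
  rw [mem_KO]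
  constructor
  · exact fun h => h.1
  · intro hx
    refine ⟨hx, ?_⟩
    have h1 : Conn ω q x := by
      rw [← hK, mem_KO] at hx
      exact hx.2
    rw [← split hω hK] at h1
    exact (conn_stay inter_subset_right inter_subset_right hqC h1).2

theorem KO_union {D C : Finset Z2} {q : Z2} {A B : Finset Edge} (hCD : C ⊆ D) (hA : A ⊆ Ed C)
    (hB : B ⊆ Ed (D \ C)) (hq : q ∈ C) (hK : KO C A {q} = C) : KO D (A ∪ B) {q} = C := by
  ext x
  rw [mem_KO]
  constructor
  · rintro ⟨_, h⟩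
    exact (conn_stay hA hB hq h).1
  · intro hx
    refine ⟨hCD hx, ?_⟩
    rw [← hK, mem_KO] at hx
    exact conn_mono subset_union_left hx.2

/-- edges between `C` and `D \ C` -/
def X (D C : Finset Z2) : Finset Edge := Ed D \ (Ed C ∪ Ed (D \ C))

theorem brP_union {D C : Finset Z2} {A B : Finset Edge} (ξ : Z2 → ℝ) (hCD : C ⊆ D)
    (hA : A ⊆ Ed C) (hB : B ⊆ Ed (D \ C)) :
    brP D ξ (A ∪ B) = brP C ξ A * brP (D \ C) ξ B * ∏ e ∈ X D C, fc ξ e := by
  have hd : Disjoint A B := disjoint_of_subset_left hA (disjoint_of_subset_right hB Ed_disj)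
  have h1 : Ed D \ (A ∪ B) = ((Ed C \ A) ∪ (Ed (D \ C) \ B)) ∪ X D C := by
    ext e
    have h2 : e ∈ Ed C → e ∈ Ed D := fun h => Ed_mono hCD h
    have h3 : e ∈ Ed (D \ C) → e ∈ Ed D := fun h => Ed_mono sdiff_subset h
    have h4 : e ∈ Ed C → e ∉ Ed (D \ C) := fun h h' => (Finset.disjoint_left.1 Ed_disj) h h'
    have h5 : e ∈ A → e ∈ Ed C := fun h => hA h
    have h6 : e ∈ B → e ∈ Ed (D \ C) := fun h => hB h
    simp only [X, Finset.mem_sdiff, mem_union]
    tauto
  have h7 : Disjoint (Ed C \ A) (Ed (D \ C) \ B) :=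
    disjoint_of_subset_left sdiff_subset (disjoint_of_subset_right sdiff_subset Ed_disj)
  have h8 : Disjoint ((Ed C \ A) ∪ (Ed (D \ C) \ B)) (X D C) := by
    rw [Finset.disjoint_left]
    intro e he h9
    simp only [X, Finset.mem_sdiff, mem_union] at he h9
    tauto
  rw [brP_eq, brP_eq, brP_eq, h1, prod_union hd, prod_union h8, prod_union h7]
  ring

theorem sum_split {D C : Finset Z2} {q : Z2} (ξ : Z2 → ℝ) (hCD : C ⊆ D) (hq : q ∈ C) :
    ∑ ω ∈ (Ed D).powerset.filter (fun ω => KO D ω {q} = C), brP D ξ ω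
      = (∑ ω ∈ (Ed C).powerset.filter (fun ω => KO C ω {q} = C), brP C ξ ω) *
        ∏ e ∈ X D C, fc ξ e := by
  have h1 : (∑ ω ∈ (Ed C).powerset.filter (fun ω => KO C ω {q} = C), brP C ξ ω) *
        ∏ e ∈ X D C, fc ξ e = ((∑ ω ∈ (Ed C).powerset.filter (fun ω => KO C ω {q} = C), brP C ξ ω) *
        ∑ ω ∈ (Ed (D \ C)).powerset, brP (D \ C) ξ ω) * ∏ e ∈ X D C, fc ξ e := by
    rw [sum_brP, mul_one]
  rw [h1, Finset.sum_mul_sum, ← Finset.sum_product', Finset.sum_mul]
  refine Finset.sum_nbij' (fun ω => (ω ∩ Ed C, ω ∩ Ed (D \ C))) (fun p => p.1 ∪ p.2) ?_ ?_ ?_ ?_ ?_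
  · intro ω hω
    rw [mem_filter, mem_powerset] at hω
    rw [mem_product, mem_filter, mem_powerset, mem_powerset]
    exact ⟨⟨inter_subset_right, KO_inter hω.1 (hCD hq) hω.2⟩, inter_subset_right⟩
  · rintro ⟨A, B⟩ hp
    rw [mem_product, mem_filter, mem_powerset, mem_powerset] at hp
    rw [mem_filter, mem_powerset]
    exact ⟨union_subset (hp.1.1.trans (Ed_mono hCD)) (hp.2.trans (Ed_mono sdiff_subset)),
      KO_union hCD hp.1.1 hp.2 hq hp.1.2⟩
  · intro ω hω
    rw [mem_filter, mem_powerset] at hω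
    exact split hω.1 hω.2
  · rintro ⟨A, B⟩ hp
    rw [mem_product, mem_filter, mem_powerset, mem_powerset] at hp
    have h5 : ∀ e, e ∈ A → e ∈ Ed C := fun e h => hp.1.1 h
    have h6 : ∀ e, e ∈ B → e ∈ Ed (D \ C) := fun e h => hp.2 h
    have h4 : ∀ e, e ∈ Ed C → e ∉ Ed (D \ C) := fun e h h' => (Finset.disjoint_left.1 Ed_disj) h h'
    simp only [Prod.mk.injEq]
    constructor
    · ext e
      simp only [mem_inter, mem_union]
      have := h5 e; have := h6 e; have := h4 e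
      tauto
    · ext e
      simp only [mem_inter, mem_union]
      have := h5 e; have := h6 e; have := h4 e
      tauto
  · intro ω hω
    rw [mem_filter, mem_powerset] at hω
    simp only
    rw [← brP_union ξ hCD inter_subset_right inter_subset_right, split hω.1 hω.2]

/-- The bridges and the boundary cost. -/
theorem bdry {D C : Finset Z2} (ξ : Z2 → ℝ) (hCD : C ⊆ D) (hoff : ∀ x, x ∉ D → ξ x ≤ 0)
    (hpos : ∀ x ∈ C, 0 < ξ x) :
    (∏ e ∈ X D C, fc ξ e) * Real.exp (-EnL (nbhd D 1) ξ / 2)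
      = Real.exp (-EnL C ξ / 2) * Real.exp (-cost D C ξ / 2) := by
  have hsub : D ⊆ nbhd D 1 := by
    intro x hx
    unfold nbhd
    rw [mem_biUnion]
    refine ⟨x, hx, ?_⟩
    unfold bx
    simp only [mem_product, mem_Icc]
    constructor <;> constructor <;> push_cast <;> omega
  have h1 : ∀ e ∈ X D C, fc ξ e
      = Real.exp (-(if 0 < ξ (src e) * ξ (tgt e) then 4 * (ξ (src e) * ξ (tgt e)) else 0) / 2) := by
    intro e _
    unfold fc
    split_ifs with h
    · congr 1; ring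
    · simp
  rw [Finset.prod_congr rfl h1, ← Real.exp_sum, ← Real.exp_add, ← Real.exp_add]
  congr 1
  have hXY : X D C ⊆ Ed (nbhd D 1) \ Ed C := by
    intro e he
    simp only [X, Finset.mem_sdiff, mem_union] at he
    rw [Finset.mem_sdiff]
    exact ⟨Ed_mono hsub he.1, fun h => he.2 (Or.inl h)⟩
  have h2 : EnL (nbhd D 1) ξ = EnL C ξ + ∑ e ∈ Ed (nbhd D 1) \ Ed C, (ξ (src e) - ξ (tgt e)) ^ 2 := by
    unfold EnL
    rw [add_comm]
    exact (Finset.sum_sdiff (Ed_mono (hCD.trans hsub))).symm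
  have h3 : cost D C ξ = ∑ e ∈ Ed (nbhd D 1) \ Ed C, (ξ (src e) - ξ (tgt e)) ^ 2 +
      ∑ e ∈ X D C, (if 0 < ξ (src e) * ξ (tgt e) then 4 * (ξ (src e) * ξ (tgt e)) else 0) := by
    have h4 : ∑ e ∈ X D C, (if 0 < ξ (src e) * ξ (tgt e) then 4 * (ξ (src e) * ξ (tgt e)) else 0)
        = ∑ e ∈ Ed (nbhd D 1) \ Ed C, if e ∈ X D C then
          (if 0 < ξ (src e) * ξ (tgt e) then 4 * (ξ (src e) * ξ (tgt e)) else 0) else 0 := by
      rw [Finset.sum_ite_mem, Finset.inter_eq_right.2 hXY]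
    rw [h4, ← Finset.sum_add_distrib]
    unfold cost
    apply Finset.sum_congr rfl
    intro e he
    rw [Finset.mem_sdiff] at he
    -- positive s and any t
    have key : ∀ s t : ℝ, 0 < s → (|s| + |t|) ^ 2 = (s - t) ^ 2 + (if 0 < s * t then 4 * (s * t) else 0) := by
      intro s t hs
      rw [abs_of_pos hs]
      split_ifs with h
      · have ht : 0 < t := (pos_iff_pos_of_mul_pos h).1 hs
        rw [abs_of_pos ht]
        ring
      · have ht : t ≤ 0 := by
          by_contra hcon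
          push Not at hcon
          exact h (mul_pos hs hcon)
        rw [abs_of_nonpos ht]
        ring
    have key0 : ∀ s t : ℝ, 0 < s → t ≤ 0 → (|s| + |t|) ^ 2 = (s - t) ^ 2 := by
      intro s t hs ht
      rw [abs_of_pos hs, abs_of_nonpos ht]
      ring
    by_cases hs : src e ∈ C
    · have ht : tgt e ∉ C := fun h => he.2 (mem_Ed.2 ⟨hs, h⟩)
      rw [if_pos (Or.inl hs)]
      by_cases hD : tgt e ∈ D
      · have hX : e ∈ X D C := by
          simp only [X, Finset.mem_sdiff, mem_union, mem_Ed]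
          refine ⟨⟨hCD hs, hD⟩, ?_⟩
          rintro (h | h)
          · exact ht h.2
          · exact h.1.2 hs
        rw [if_pos hX]
        exact key _ _ (hpos _ hs)
      · have hX : e ∉ X D C := by
          simp only [X, Finset.mem_sdiff, mem_Ed]
          intro h
          exact hD h.1.2
        rw [if_neg hX, add_zero]
        exact key0 _ _ (hpos _ hs) (hoff _ hD)
    · by_cases ht : tgt e ∈ C
      · rw [if_pos (Or.inr ht)]
        by_cases hD : src e ∈ D
        · have hX : e ∈ X D C := by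
            simp only [X, Finset.mem_sdiff, mem_union, mem_Ed]
            refine ⟨⟨hD, hCD ht⟩, ?_⟩
            rintro (h | h)
            · exact hs h.1
            · exact h.2.2 ht
          rw [if_pos hX, add_comm |ξ (src e)|, key _ _ (hpos _ ht), mul_comm (ξ (src e))]
          ring
        · have hX : e ∉ X D C := by
            simp only [X, Finset.mem_sdiff, mem_Ed]
            intro h
            exact hD h.1.1
          rw [if_neg hX, add_zero, add_comm |ξ (src e)|, key0 _ _ (hpos _ ht) (hoff _ hD)]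
          ring
      · have hX : e ∉ X D C ∨ e ∈ X D C := Or.symm (em _)
        rw [if_neg (by tauto)]
        have hX : e ∉ X D C := by
          intro h
          simp only [X, Finset.mem_sdiff, mem_union, mem_Ed] at h
          exact h.2 (Or.inr ⟨⟨h.1.1, hs⟩, ⟨h.1.2, ht⟩⟩)
        rw [if_neg hX, add_zero]
  rw [h2, h3, ← Finset.sum_div, Finset.sum_neg_distrib]
  ring

/-- if the cluster of `q` is `C` and the value at `q` is positive then all values are positive -/
theorem pos_of {C : Finset Z2} {q : Z2} {ξ : Z2 → ℝ} (hq : 0 < ξ q)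
    (h : ∑ ω ∈ (Ed C).powerset.filter (fun ω => KO C ω {q} = C), brP C ξ ω ≠ 0) :
    ∀ x ∈ C, 0 < ξ x := by
  obtain ⟨ω, hω, hne⟩ := Finset.exists_ne_zero_of_sum_ne_zero h
  rw [mem_filter, mem_powerset] at hω
  rw [brP_eq] at hne
  have h1 : ∀ e ∈ ω, 0 < ξ (src e) * ξ (tgt e) := by
    intro e he
    have h2 := Finset.prod_ne_zero_iff.1 (left_ne_zero_of_mul hne) e he
    unfold fo at h2
    by_contra hcon
    rw [if_neg hcon] at h2
    exact h2 rfl
  intro x hx
  rw [← hω.2, mem_KO] at hx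
  have h3 := hx.2
  clear hx
  induction h3 with
  | refl => exact hq
  | tail h4 h5 ih =>
    obtain ⟨e, he, h6 | h6⟩ := h5
    · have := h1 e he
      rw [h6.1, h6.2] at this
      exact (pos_iff_pos_of_mul_pos this).1 ih
    · have := h1 e he
      rw [h6.1, h6.2] at this
      exact (pos_iff_pos_of_mul_pos this).2 ih

/-- the term of `C` -/
def tm (D : Finset Z2) (q : Z2) (C : Finset Z2) (ξ : Z2 → ℝ) : ℝ :=
  if ∀ x ∈ C, 0 < ξ x then ξ q *
    (∑ ω ∈ (Ed C).powerset.filter (fun ω => KO C ω {q} = C), brP C ξ ω) *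
    Real.exp (-EnL C ξ / 2) * Real.exp (-cost D C ξ / 2) else 0

theorem tm_eq {D : Finset Z2} {q : Z2} {C : Finset Z2} (ξ : Z2 → ℝ) (hCD : C ⊆ D) (hq : q ∈ C)
    (hoff : ∀ x, x ∉ D → ξ x ≤ 0) :
    (∑ ω ∈ (Ed D).powerset.filter (fun ω => KO D ω {q} = C), brP D ξ ω) *
      (max (ξ q) 0 * Real.exp (-EnL (nbhd D 1) ξ / 2)) = tm D q C ξ := by
  rw [sum_split ξ hCD hq]
  unfold tm
  split_ifs with hpos
  · have h1 := bdry ξ hCD hoff hpos
    rw [max_eq_left (hpos q hq).le]
    calc _ = ξ q * (∑ ω ∈ (Ed C).powerset.filter (fun ω => KO C ω {q} = C), brP C ξ ω) *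
          ((∏ e ∈ X D C, fc ξ e) * Real.exp (-EnL (nbhd D 1) ξ / 2)) := by ring
      _ = _ := by rw [h1]; ring
  · by_cases hq0 : 0 < ξ q
    · have h2 : ∑ ω ∈ (Ed C).powerset.filter (fun ω => KO C ω {q} = C), brP C ξ ω = 0 := by
        by_contra hne
        exact hpos (pos_of hq0 hne)
      rw [h2]
      ring
    · rw [max_eq_right (not_lt.1 hq0)]
      ring

theorem pointwise {D : Finset Z2} {q : Z2} (hq : q ∈ D) (G : Finset Z2 → ℝ) (ξ : Z2 → ℝ)
    (hoff : ∀ x, x ∉ D → ξ x ≤ 0) :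
    (∑ ω ∈ (Ed D).powerset, brP D ξ ω * G (KO D ω {q})) *
      (max (ξ q) 0 * Real.exp (-EnL (nbhd D 1) ξ / 2))
    = ∑ C ∈ D.powerset.filter (fun C => q ∈ C), G C * tm D q C ξ := by
  have h1 : ∀ ω ∈ (Ed D).powerset, KO D ω {q} ∈ D.powerset.filter (fun C => q ∈ C) := by
    intro ω _
    rw [mem_filter, mem_powerset, mem_KO]
    exact ⟨filter_subset _ _, hq, Relation.ReflTransGen.refl⟩
  rw [← Finset.sum_fiberwise_of_maps_to h1, Finset.sum_mul]
  apply Finset.sum_congr rfl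
  intro C hC
  rw [mem_filter, mem_powerset] at hC
  have h2 : ∑ ω ∈ (Ed D).powerset.filter (fun ω => KO D ω {q} = C), brP D ξ ω * G (KO D ω {q})
      = G C * ∑ ω ∈ (Ed D).powerset.filter (fun ω => KO D ω {q} = C), brP D ξ ω := by
    rw [Finset.mul_sum]
    apply Finset.sum_congr rfl
    intro ω hω
    rw [mem_filter] at hω
    rw [hω.2]
    ring
  rw [← tm_eq ξ hC.1 hC.2 hoff, h2]
  ring

theorem ext_mem {D : Finset Z2} {a : ℝ} {ξ : D → ℝ} {x : Z2} (h : x ∈ D) :
    ext D a ξ x = ξ ⟨x, h⟩ := by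
  unfold ext
  rw [dif_pos h]

theorem ext_not_mem {D : Finset Z2} {a : ℝ} {ξ : D → ℝ} {x : Z2} (h : x ∉ D) :
    ext D a ξ x = -a := by
  unfold ext
  rw [dif_neg h]

theorem measurable_ext (D : Finset Z2) (a : ℝ) (x : Z2) :
    Measurable fun ξ : D → ℝ => ext D a ξ x := by
  by_cases h : x ∈ D
  · simp only [ext_mem h]
    exact measurable_pi_apply _
  · simp only [ext_not_mem h]
    exact measurable_const

theorem energy_ge (hg : Stmt_gap) (he : Stmt_en) (D : Finset Z2) (a : ℝ) :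
    ∃ c : ℝ, 0 < c ∧ ∀ ξ : D → ℝ, c * ∑ x : D, (ξ x + a) ^ 2 ≤ EnL (nbhd D 1) (ext D a ξ) := by
  obtain ⟨c, hc, _, h1⟩ := hg D
  refine ⟨c, hc, fun ξ => ?_⟩
  have h2 : EnL (nbhd D 1) (ext D a ξ) = EnL (nbhd D 1) (fun x => ext D a ξ x + a) := by
    unfold EnL
    apply Finset.sum_congr rfl
    intro e _
    ring
  have h3 : ∀ x, x ∉ D → (fun x => ext D a ξ x + a) x = 0 := by
    intro x hx
    simp only [ext_not_mem hx]
    ring
  have h4 := (he D _ h3).2.1
  have h5 := h1 (fun x => ext D a ξ x + a)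
  have h6 : ∑ x ∈ D, (ext D a ξ x + a) ^ 2 = ∑ x : D, (ξ x + a) ^ 2 := by
    rw [← Finset.sum_coe_sort D (fun x => (ext D a ξ x + a) ^ 2)]
    apply Finset.sum_congr rfl
    intro x _
    rw [ext_mem x.2]
  have h7 := le_abs_self (H (Ed D) (fun x => ext D a ξ x + a))
  rw [h2, ← h4]
  unfold En0
  simp only at h5 ⊢
  rw [h6] at h5 ⊢
  linarith

theorem int1 (a b : ℝ) (hb : 0 < b) :
    Integrable (fun t : ℝ => |t| * Real.exp (-b * (t + a) ^ 2)) := by
  have h1 : Integrable (fun t : ℝ => |t + a| * Real.exp (-b * (t + a) ^ 2)) := by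
    have h2 := (integrable_mul_exp_neg_mul_sq hb).norm.comp_add_right a
    refine h2.congr (Filter.Eventually.of_forall fun t => ?_)
    simp only [norm_mul, Real.norm_eq_abs, Real.abs_exp]
  have h3 : Integrable (fun t : ℝ => |a| * Real.exp (-b * (t + a) ^ 2)) :=
    ((integrable_exp_neg_mul_sq hb).comp_add_right a).const_mul _
  refine (h1.add h3).mono' (by fun_prop) (Filter.Eventually.of_forall fun t => ?_)
  simp only [norm_mul, Real.norm_eq_abs, abs_abs, Real.abs_exp, Pi.add_apply]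
  rw [← add_mul]
  apply mul_le_mul_of_nonneg_right _ (Real.exp_pos _).le
  have := abs_sub (t + a) a
  rw [add_sub_cancel_right] at this
  exact this

theorem int0 (a b : ℝ) (hb : 0 < b) :
    Integrable (fun t : ℝ => Real.exp (-b * (t + a) ^ 2)) :=
  (integrable_exp_neg_mul_sq hb).comp_add_right a

theorem int_dom (hg : Stmt_gap) (he : Stmt_en) (D : Finset Z2) (a : ℝ) (q : D) :
    Integrable fun ξ : D → ℝ => max (ξ q) 0 * Real.exp (-EnL (nbhd D 1) (ext D a ξ) / 2) := by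
  obtain ⟨c, hc, h1⟩ := energy_ge hg he D a
  have h2 : Integrable fun ξ : D → ℝ => ∏ x : D, ((if x = q then |ξ x| else 1) *
      Real.exp (-(c / 2) * (ξ x + a) ^ 2)) := by
    refine Integrable.fintype_prod (f := fun (x : D) (t : ℝ) => (if x = q then |t| else 1) *
      Real.exp (-(c / 2) * (t + a) ^ 2)) (fun x => ?_)
    by_cases hx : x = q
    · simp only [if_pos hx]
      exact int1 a (c / 2) (by linarith)
    · simp only [if_neg hx, one_mul]
      exact int0 a (c / 2) (by linarith)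
  refine h2.mono' ?_ (Filter.Eventually.of_forall fun ξ => ?_)
  · apply Measurable.aestronglyMeasurable
    apply Measurable.mul
    · exact (measurable_pi_apply q).max measurable_const
    · apply Real.measurable_exp.comp
      apply Measurable.div_const
      apply Measurable.neg
      unfold EnL
      apply Finset.measurable_fun_sum
      intro e _
      exact ((measurable_ext D a _).sub (measurable_ext D a _)).pow_const 2
  · rw [Finset.prod_mul_distrib, Finset.prod_ite_eq' Finset.univ q, if_pos (Finset.mem_univ q),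
      ← Real.exp_sum, norm_mul, Real.norm_eq_abs, Real.norm_eq_abs, Real.abs_exp]
    apply mul_le_mul
    · rw [abs_of_nonneg (le_max_right _ _)]
      exact max_le (le_abs_self _) (abs_nonneg _)
    · rw [Real.exp_le_exp, ← Finset.mul_sum]
      have := h1 ξ
      linarith
    · exact (Real.exp_pos _).le
    · exact abs_nonneg _

theorem measurable_tm (D : Finset Z2) (q : Z2) (C : Finset Z2) (a : ℝ) :
    Measurable fun ξ : D → ℝ => tm D q C (ext D a ξ) := by
  have hx : ∀ x, Measurable fun ξ : D → ℝ => ext D a ξ x := measurable_ext D a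
  have hprod : ∀ e : Edge, Measurable fun ξ : D → ℝ => ext D a ξ (src e) * ext D a ξ (tgt e) :=
    fun e => (hx _).mul (hx _)
  have hset : ∀ e : Edge, MeasurableSet {ξ : D → ℝ | 0 < ext D a ξ (src e) * ext D a ξ (tgt e)} :=
    fun e => measurableSet_lt measurable_const (hprod e)
  have hfo : ∀ e : Edge, Measurable fun ξ : D → ℝ => fo (ext D a ξ) e := by
    intro e
    unfold fo
    exact Measurable.ite (hset e)
      (measurable_const.sub (Real.measurable_exp.comp ((hprod e).const_mul _))) measurable_const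
  have hfc : ∀ e : Edge, Measurable fun ξ : D → ℝ => fc (ext D a ξ) e := by
    intro e
    unfold fc
    exact Measurable.ite (hset e)
      (Real.measurable_exp.comp ((hprod e).const_mul _)) measurable_const
  have hsetC : MeasurableSet {ξ : D → ℝ | ∀ x ∈ C, 0 < ext D a ξ x} := by
    have : {ξ : D → ℝ | ∀ x ∈ C, 0 < ext D a ξ x} = ⋂ x ∈ C, {ξ : D → ℝ | 0 < ext D a ξ x} := by
      ext ξ
      simp
    rw [this]
    exact Finset.measurableSet_biInter C fun x _ => measurableSet_lt measurable_const (hx x)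
  unfold tm
  apply Measurable.ite hsetC _ measurable_const
  apply Measurable.mul
  · apply Measurable.mul
    · apply Measurable.mul (hx q)
      apply Finset.measurable_fun_sum
      intro ω _
      simp only [brP_eq]
      exact (Finset.measurable_fun_prod _ fun e _ => hfo e).mul
        (Finset.measurable_fun_prod _ fun e _ => hfc e)
    · apply Real.measurable_exp.comp
      apply Measurable.div_const
      apply Measurable.neg
      unfold EnL
      apply Finset.measurable_fun_sum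
      intro e _
      exact ((hx _).sub (hx _)).pow_const 2
  · apply Real.measurable_exp.comp
    apply Measurable.div_const
    apply Measurable.neg
    unfold cost
    apply Finset.measurable_fun_sum
    intro e _
    split_ifs
    · exact (((hx _).abs).add ((hx _).abs)).pow_const 2
    · exact ((hx _).sub (hx _)).pow_const 2

theorem int_tm (hg : Stmt_gap) (he : Stmt_en) (D : Finset Z2) (a : ℝ) (ha : 0 ≤ a) (q : Z2)
    (C : Finset Z2) (hCD : C ⊆ D) (hq : q ∈ C) :
    Integrable fun ξ : D → ℝ => tm D q C (ext D a ξ) := by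
  refine (int_dom hg he D a ⟨q, hCD hq⟩).mono' (measurable_tm D q C a).aestronglyMeasurable
    (Filter.Eventually.of_forall fun ξ => ?_)
  rw [← tm_eq (ext D a ξ) hCD hq (fun x hx => by rw [ext_not_mem hx]; linarith),
    ext_mem (hCD hq)]
  have h1 : 0 ≤ max (ξ ⟨q, hCD hq⟩) 0 * Real.exp (-EnL (nbhd D 1) (ext D a ξ) / 2) :=
    mul_nonneg (le_max_right _ _) (Real.exp_pos _).le
  rw [norm_mul, Real.norm_of_nonneg h1,
    Real.norm_of_nonneg (Finset.sum_nonneg fun ω _ => brP_nonneg D _ ω)]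
  apply mul_le_of_le_one_left h1
  rw [← sum_brP D (ext D a ξ)]
  exact Finset.sum_le_sum_of_subset_of_nonneg (Finset.filter_subset _ _)
    fun ω _ _ => brP_nonneg D _ ω

/-- decomposition of the index set -/
def eqv {D C : Finset Z2} (h : C ⊆ D) : (↥C ⊕ ↥(D \ C)) ≃ ↥D where
  toFun := fun i => match i with
    | Sum.inl x => ⟨x.1, h x.2⟩
    | Sum.inr x => ⟨x.1, (Finset.mem_sdiff.1 x.2).1⟩
  invFun := fun x => if hx : x.1 ∈ C then Sum.inl ⟨x.1, hx⟩
    else Sum.inr ⟨x.1, Finset.mem_sdiff.2 ⟨x.2, hx⟩⟩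
  left_inv := by
    rintro (x | x)
    · simp only [dif_pos x.2]
    · have := (Finset.mem_sdiff.1 x.2).2
      simp only [dif_neg this]
  right_inv := by
    intro x
    by_cases hx : x.1 ∈ C
    · simp only [dif_pos hx]
    · simp only [dif_neg hx]

/-- gluing of the two parts of the field -/
def glue {D C : Finset Z2} (h : C ⊆ D) :
    ((↥C → ℝ) × (↥(D \ C) → ℝ)) ≃ᵐ (↥D → ℝ) :=
  (MeasurableEquiv.sumPiEquivProdPi (fun _ : ↥C ⊕ ↥(D \ C) => ℝ)).symm.trans
    (MeasurableEquiv.piCongrLeft (fun _ : ↥D => ℝ) (eqv h))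

theorem glue_mp {D C : Finset Z2} (h : C ⊆ D) :
    MeasurePreserving (glue h) (volume.prod volume) volume := by
  unfold glue
  exact (volume_measurePreserving_piCongrLeft (fun _ : ↥D => ℝ) (eqv h)).comp
    (volume_measurePreserving_sumPiEquivProdPi_symm (fun _ : ↥C ⊕ ↥(D \ C) => ℝ))

theorem glue_inl {D C : Finset Z2} (h : C ⊆ D) (s : ↥C → ℝ) (χ : ↥(D \ C) → ℝ) (x : ↥C) :
    glue h (s, χ) ⟨x.1, h x.2⟩ = s x := by
  have h1 : (⟨x.1, h x.2⟩ : ↥D) = eqv h (Sum.inl x) := rfl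
  rw [h1]
  exact MeasurableEquiv.piCongrLeft_apply_apply (β := fun _ : ↥D => ℝ) (eqv h) _ _

theorem glue_inr {D C : Finset Z2} (h : C ⊆ D) (s : ↥C → ℝ) (χ : ↥(D \ C) → ℝ) (x : ↥(D \ C)) :
    glue h (s, χ) ⟨x.1, (Finset.mem_sdiff.1 x.2).1⟩ = χ x := by
  have h1 : (⟨x.1, (Finset.mem_sdiff.1 x.2).1⟩ : ↥D) = eqv h (Sum.inr x) := rfl
  rw [h1]
  exact MeasurableEquiv.piCongrLeft_apply_apply (β := fun _ : ↥D => ℝ) (eqv h) _ _

theorem ext_glue {D C : Finset Z2} (h : C ⊆ D) (a : ℝ) (s : ↥C → ℝ) (χ : ↥(D \ C) → ℝ) :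
    ext D a (glue h (s, χ)) = ext2 D C a s χ := by
  funext x
  unfold ext2
  by_cases hx : x ∈ C
  · rw [dif_pos hx, ext_mem (h hx)]
    exact glue_inl h s χ ⟨x, hx⟩
  · rw [dif_neg hx]
    by_cases hx' : x ∈ D \ C
    · rw [dif_pos hx', ext_mem (Finset.mem_sdiff.1 hx').1]
      exact glue_inr h s χ ⟨x, hx'⟩
    · rw [dif_neg hx', ext_not_mem]
      intro hD
      exact hx' (Finset.mem_sdiff.2 ⟨hD, hx⟩)

theorem ext2_mem {D C : Finset Z2} {a : ℝ} {s : ↥C → ℝ} {χ : (D \ C : Finset Z2) → ℝ} {x : Z2}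
    (h : x ∈ C) : ext2 D C a s χ x = ext C 0 s x := by
  unfold ext2
  rw [dif_pos h, ext_mem h]

theorem brP_congr {C : Finset Z2} {ξ ξ' : Z2 → ℝ} {ω : Finset Edge} (h : ∀ x ∈ C, ξ x = ξ' x)
    (hω : ω ⊆ Ed C) : brP C ξ ω = brP C ξ' ω := by
  have h1 : ∀ e ∈ Ed C, ξ (src e) * ξ (tgt e) = ξ' (src e) * ξ' (tgt e) := by
    intro e he
    rw [mem_Ed] at he
    rw [h _ he.1, h _ he.2]
  rw [brP_eq, brP_eq]
  congr 1
  · apply Finset.prod_congr rfl
    intro e he
    unfold fo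
    rw [h1 e (hω he)]
  · apply Finset.prod_congr rfl
    intro e he
    unfold fc
    rw [h1 e (Finset.mem_sdiff.1 he).1]

theorem EnL_congr {C : Finset Z2} {ξ ξ' : Z2 → ℝ} (h : ∀ x ∈ C, ξ x = ξ' x) :
    EnL C ξ = EnL C ξ' := by
  unfold EnL
  apply Finset.sum_congr rfl
  intro e he
  rw [mem_Ed] at he
  rw [h _ he.1, h _ he.2]

theorem tm_ext2 {D : Finset Z2} {q : Z2} {C : Finset Z2} (a : ℝ) (hq : q ∈ C) (s : ↥C → ℝ)
    (χ : (D \ C : Finset Z2) → ℝ) :
    tm D q C (ext2 D C a s χ) = (if ∀ x, 0 < s x then ext C 0 s q *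
          (∑ ω ∈ (Ed C).powerset.filter (fun ω => KO C ω {q} = C), brP C (ext C 0 s) ω) *
          Real.exp (-EnL C (ext C 0 s) / 2) else 0) *
          Real.exp (-cost D C (ext2 D C a s χ) / 2) := by
  have h1 : (∀ x ∈ C, 0 < ext2 D C a s χ x) ↔ ∀ x, 0 < s x := by
    constructor
    · rintro h ⟨x, hx⟩
      have := h x hx
      rw [ext2_mem hx, ext_mem hx] at this
      exact this
    · intro h x hx
      rw [ext2_mem hx, ext_mem hx]
      exact h _
  unfold tm
  by_cases h : ∀ x, 0 < s x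
  · rw [if_pos (h1.2 h), if_pos h, ext2_mem hq,
      EnL_congr (C := C) (ξ := ext2 D C a s χ) (ξ' := ext C 0 s) (fun x hx => ext2_mem hx)]
    congr 3
    apply Finset.sum_congr rfl
    intro ω hω
    rw [mem_filter, mem_powerset] at hω
    exact brP_congr (fun x hx => ext2_mem hx) hω.1
  · rw [if_neg (fun h' => h (h1.1 h')), if_neg h, zero_mul]

theorem int_split (hg : Stmt_gap) (he : Stmt_en) (D : Finset Z2) (a : ℝ) (ha : 0 ≤ a) (q : Z2)
    (C : Finset Z2) (hCD : C ⊆ D) (hq : q ∈ C) :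
    ∫ ξ : D → ℝ, tm D q C (ext D a ξ) = ∫ s : C → ℝ, (if ∀ x, 0 < s x then ext C 0 s q *
          (∑ ω ∈ (Ed C).powerset.filter (fun ω => KO C ω {q} = C), brP C (ext C 0 s) ω) *
          Real.exp (-EnL C (ext C 0 s) / 2) *
          ∫ χ : (D \ C : Finset Z2) → ℝ, Real.exp (-cost D C (ext2 D C a s χ) / 2) else 0) := by
  have h1 := int_tm hg he D a ha q C hCD hq
  have h2 := (glue_mp hCD).integrable_comp_emb (glue hCD).measurableEmbedding
    (g := fun ξ : D → ℝ => tm D q C (ext D a ξ))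
  have h3 : Integrable (fun z : (↥C → ℝ) × (↥(D \ C) → ℝ) => tm D q C (ext D a (glue hCD z)))
      (volume.prod volume) := h2.2 h1
  rw [← (glue_mp hCD).integral_comp (glue hCD).measurableEmbedding, integral_prod _ h3]
  congr 1
  funext s
  simp only [ext_glue, tm_ext2 a hq]
  rw [integral_const_mul]
  split_ifs
  · rfl
  · rw [zero_mul]

end DecAux

open DecAux in
theorem dec (hg : Stmt_gap) (he : Stmt_en) : Stmt_dec := by
  intro D q hq a G ha
  have h1 : ∀ ξ : D → ℝ, (∑ ω ∈ (Ed D).powerset, brP D (ext D a ξ) ω * G (KO D ω {q})) *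
      (max (ξ ⟨q, hq⟩) 0 * Real.exp (-EnL (nbhd D 1) (ext D a ξ) / 2)) =
      ∑ C ∈ D.powerset.filter (fun C => q ∈ C), G C * tm D q C (ext D a ξ) := by
    intro ξ
    rw [← pointwise hq G (ext D a ξ) (fun x hx => by rw [ext_not_mem hx]; linarith), ext_mem hq]
  simp only [h1]
  rw [integral_finsetSum]
  · apply Finset.sum_congr rfl
    intro C hC
    rw [mem_filter, mem_powerset] at hC
    rw [integral_const_mul, int_split hg he D a ha q C hC.1 hC.2]
  · intro C hC
    rw [mem_filter, mem_powerset] at hC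
    exact (int_tm hg he D a ha q C hC.1 hC.2).const_mul _

end LSoup
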