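import Pool.Agent.LSoup.Stmts

/-!
Doubly exponential decay of the disconnection probabilities (module G4).
-/

open MeasureTheory ProbabilityTheory Finset Filter Topology

open scoped Classical

noncomputable section

namespace LSoup

theorem decay (h1 : Stmt_rec) (h2 : Stmt_T7) : Stmt_decay := by
  intro a ha
  have h3 := h2 (a - 1 / 2) (by linarith)
  rw [show (1 / 2 + (a - 1 / 2) : ℝ) = a by ring] at h3
  have h4 : ∀ᶠ n : ℕ in atTop, disP (Rn n) a (Qn n) (Bn n) < 1 / 80000 :=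
    h3.eventually (gt_mem_nhds (by norm_num))
  obtain ⟨n0, hn0, hn1⟩ := (h4.and (eventually_ge_atTop 1)).exists
  refine ⟨n0, hn1, ?_⟩
  have key : ∀ j : ℕ, 40000 * disP (Rn (48 ^ j * n0)) a (Qn (48 ^ j * n0)) (Bn (48 ^ j * n0)) ≤
      (1 / 2 : ℝ) ^ (2 ^ j) := by
    intro j
    induction j with
    | zero =>
      rw [pow_zero, one_mul, pow_zero, pow_one]
      linarith
    | succ j ih =>
      have h5 : 48 ^ (j + 1) * n0 = 48 * (48 ^ j * n0) := by ring
      have h6 : 1 ≤ 48 ^ j * n0 := Nat.one_le_iff_ne_zero.2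
        (mul_ne_zero (pow_ne_zero _ (by norm_num)) (by omega))
      have h7 := h1 a (48 ^ j * n0) (by linarith) h6
      have h8 : 0 ≤ disP (Rn (48 ^ j * n0)) a (Qn (48 ^ j * n0)) (Bn (48 ^ j * n0)) :=
        measureReal_nonneg
      rw [h5]
      calc _ ≤ 40000 * (200 * disP (Rn (48 ^ j * n0)) a (Qn (48 ^ j * n0))
            (Bn (48 ^ j * n0))) ^ 2 := by linarith
        _ = (40000 * disP (Rn (48 ^ j * n0)) a (Qn (48 ^ j * n0)) (Bn (48 ^ j * n0))) ^ 2 := by
            ring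
        _ ≤ ((1 / 2 : ℝ) ^ (2 ^ j)) ^ 2 := pow_le_pow_left₀ (by positivity) ih 2
        _ = _ := by rw [← pow_mul, pow_succ 2 j]
  intro j
  have h8 : 0 ≤ disP (Rn (48 ^ j * n0)) a (Qn (48 ^ j * n0)) (Bn (48 ^ j * n0)) :=
    measureReal_nonneg
  linarith [key j]

end LSoup
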