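import Pool.Agent.LSoup.Stmts2

open MeasureTheory ProbabilityTheory Finset Filter Topology Matrix

open scoped Classical MatrixOrder

noncomputable section

namespace LSoup

namespace DetG

theorem tgt_ne_src (e : Edge) : tgt e ≠ src e := by
  obtain ⟨⟨a, b⟩, c⟩ := e
  cases c <;> simp [tgt, src]

theorem edge_ext {e e' : Edge} (h1 : src e = src e') (h2 : tgt e = tgt e') : e = e' := by
  obtain ⟨⟨a, b⟩, c⟩ := e
  obtain ⟨⟨a', b'⟩, c'⟩ := e'
  simp only [src, Prod.mk.injEq] at h1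
  obtain ⟨rfl, rfl⟩ := h1
  cases c <;> cases c' <;> simp_all [tgt]

theorem edge_anti {e e' : Edge} (h1 : src e = tgt e') (h2 : tgt e = src e') : False := by
  obtain ⟨⟨a, b⟩, c⟩ := e
  obtain ⟨⟨a', b'⟩, c'⟩ := e'
  cases c <;> cases c' <;> simp [tgt, src] at h1 h2 <;> omega

theorem ind_joined (O : Finset Edge) (x y : Z2) :
    (if Joined O x y then (1 : ℝ) else 0)
      = ∑ e ∈ O, ((if src e = x ∧ tgt e = y then (1 : ℝ) else 0)
        + (if src e = y ∧ tgt e = x then (1 : ℝ) else 0)) := by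
  by_cases h : Joined O x y
  · obtain ⟨e, he, h⟩ := h
    have hJ : Joined O x y := ⟨e, he, h⟩
    rw [if_pos hJ, Finset.sum_eq_single_of_mem e he]
    · rcases h with ⟨h1, h2⟩ | ⟨h1, h2⟩
      · rw [if_pos ⟨h1, h2⟩, if_neg, add_zero]
        rintro ⟨h3, h4⟩
        exact tgt_ne_src e (by rw [h4, h1])
      · rw [if_neg, if_pos ⟨h1, h2⟩, zero_add]
        rintro ⟨h3, h4⟩
        exact tgt_ne_src e (by rw [h4, h1])
    · intro e' he' hne
      rw [if_neg, if_neg, add_zero]
      · rintro ⟨h3, h4⟩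
        rcases h with ⟨h1, h2⟩ | ⟨h1, h2⟩
        · exact edge_anti (h1.trans h4.symm) (h2.trans h3.symm)
        · exact hne (edge_ext (h3.trans h1.symm) (h4.trans h2.symm))
      · rintro ⟨h3, h4⟩
        rcases h with ⟨h1, h2⟩ | ⟨h1, h2⟩
        · exact hne (edge_ext (h3.trans h1.symm) (h4.trans h2.symm))
        · exact edge_anti (h1.trans h4.symm) (h2.trans h3.symm)
  · rw [if_neg h, Finset.sum_eq_zero]
    intro e he
    rw [if_neg, if_neg, add_zero]
    · rintro ⟨h1, h2⟩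
      exact h ⟨e, he, Or.inr ⟨h1, h2⟩⟩
    · rintro ⟨h1, h2⟩
      exact h ⟨e, he, Or.inl ⟨h1, h2⟩⟩

theorem mem_Ed {D : Finset Z2} {e : Edge} (h : e ∈ Ed D) : src e ∈ D ∧ tgt e ∈ D := by
  simp only [Ed, Finset.mem_filter, Finset.mem_product, Finset.mem_univ, and_true] at h
  exact h

/-- the quadratic form of the adjacency matrix -/
theorem quad (D : Finset Z2) (O : Finset Edge) (hO : O ⊆ Ed D) (x : D → ℝ) :
    x ⬝ᵥ (adjM D O).mulVec x = 2 * H O (ext D 0 x) := by
  have hx : ∀ z : D, ext D 0 x z = x z := by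
    intro z
    simp [ext]
  have h0 : x ⬝ᵥ (adjM D O).mulVec x
      = ∑ a ∈ D, ∑ b ∈ D, (if Joined O a b then (1 : ℝ) else 0) * (ext D 0 x a * ext D 0 x b) := by
    simp only [dotProduct, mulVec, adjM, Matrix.of_apply]
    rw [← Finset.sum_coe_sort D]
    refine Finset.sum_congr rfl fun a _ => ?_
    rw [← Finset.sum_coe_sort D, Finset.mul_sum]
    refine Finset.sum_congr rfl fun b _ => ?_
    rw [hx, hx]
    ring
  rw [h0]
  simp only [ind_joined, Finset.sum_mul]
  have h1 : ∀ a ∈ D, ∑ b ∈ D, ∑ e ∈ O, ((if src e = a ∧ tgt e = b then (1 : ℝ) else 0)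
        + (if src e = b ∧ tgt e = a then (1 : ℝ) else 0)) * (ext D 0 x a * ext D 0 x b)
      = ∑ e ∈ O, ∑ b ∈ D, ((if src e = a ∧ tgt e = b then (1 : ℝ) else 0)
        + (if src e = b ∧ tgt e = a then (1 : ℝ) else 0)) * (ext D 0 x a * ext D 0 x b) :=
    fun a _ => Finset.sum_comm
  rw [Finset.sum_congr rfl h1, Finset.sum_comm, H, Finset.mul_sum]
  refine Finset.sum_congr rfl fun e he => ?_
  obtain ⟨hs, ht⟩ := mem_Ed (hO he)
  have h2 : ∀ a ∈ D, ∑ b ∈ D, ((if src e = a ∧ tgt e = b then (1 : ℝ) else 0)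
        + (if src e = b ∧ tgt e = a then (1 : ℝ) else 0)) * (ext D 0 x a * ext D 0 x b)
      = (if src e = a then ext D 0 x (src e) * ext D 0 x (tgt e) else 0)
        + (if tgt e = a then ext D 0 x (src e) * ext D 0 x (tgt e) else 0) := by
    intro a ha
    simp only [add_mul, Finset.sum_add_distrib]
    congr 1
    · rw [Finset.sum_eq_single_of_mem (tgt e) ht]
      · by_cases h : src e = a
        · rw [if_pos ⟨h, rfl⟩, if_pos h, h, one_mul]
        · rw [if_neg (fun hh => h hh.1), if_neg h, zero_mul]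
      · intro b _ hb
        rw [if_neg (fun hh => hb hh.2.symm), zero_mul]
    · rw [Finset.sum_eq_single_of_mem (src e) hs]
      · by_cases h : tgt e = a
        · rw [if_pos ⟨rfl, h⟩, if_pos h, h, one_mul, mul_comm]
        · rw [if_neg (fun hh => h hh.2), if_neg h, zero_mul]
      · intro b _ hb
        rw [if_neg (fun hh => hb hh.1.symm), zero_mul]
  rw [Finset.sum_congr rfl h2, Finset.sum_add_distrib, Finset.sum_ite_eq, Finset.sum_ite_eq,
    if_pos hs, if_pos ht]
  ring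

theorem joined_symm (O : Finset Edge) (x y : Z2) : Joined O x y ↔ Joined O y x := by
  constructor <;>
  · rintro ⟨e, he, h⟩
    exact ⟨e, he, h.symm⟩

theorem H_abs_le (D : Finset Z2) (O : Finset Edge) (hO : O ⊆ Ed D) (f : Z2 → ℝ) :
    |H O f| ≤ H (Ed D) (fun x => |f x|) := by
  calc |H O f| ≤ ∑ e ∈ O, |f (src e) * f (tgt e)| := Finset.abs_sum_le_sum_abs _ _
    _ ≤ ∑ e ∈ Ed D, |f (src e) * f (tgt e)| :=
        Finset.sum_le_sum_of_subset_of_nonneg hO fun _ _ _ => abs_nonneg _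
    _ = H (Ed D) (fun x => |f x|) := by
        unfold H
        exact Finset.sum_congr rfl fun e _ => abs_mul _ _

theorem posDef (hg : Stmt_gap) (D : Finset Z2) (O : Finset Edge) (hO : O ⊆ Ed D) :
    (1 - (1 / 4 : ℝ) • adjM D O).PosDef := by
  obtain ⟨c, hc, hc4, hgap⟩ := hg D
  refine Matrix.PosDef.of_dotProduct_mulVec_pos ?_ ?_
  · ext a b
    simp only [Matrix.conjTranspose_apply, Matrix.sub_apply, Matrix.smul_apply, adjM,
      Matrix.of_apply, star_trivial, Matrix.one_apply]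
    congr 1
    · simp only [eq_comm]
    · rw [if_congr (joined_symm O b a) rfl rfl]
  · intro x hx
    rw [star_trivial, Matrix.sub_mulVec, Matrix.one_mulVec, Matrix.smul_mulVec, dotProduct_sub,
      dotProduct_smul, quad D O hO x]
    have h1 := H_abs_le D O hO (ext D 0 x)
    have h2 := hgap (fun z => |ext D 0 x z|)
    have h3 : ∑ z ∈ D, |ext D 0 x z| ^ 2 = x ⬝ᵥ x := by
      rw [← Finset.sum_coe_sort D, dotProduct]
      refine Finset.sum_congr rfl fun a _ => ?_
      simp [ext, sq_abs, sq]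
    rw [h3] at h2
    have h4 : 0 < x ⬝ᵥ x := by
      have h5 : ∃ a, x a ≠ 0 := by
        by_contra hh
        push Not at hh
        exact hx (funext hh)
      obtain ⟨a, ha⟩ := h5
      rw [dotProduct]
      refine Finset.sum_pos' (fun i _ => mul_self_nonneg _) ⟨a, Finset.mem_univ _, ?_⟩
      exact mul_self_pos.mpr ha
    have h5 := le_abs_self (H O (ext D 0 x))
    have h6 := le_abs_self (H (Ed D) fun x_1 => |ext D 0 x x_1|)
    simp only [smul_eq_mul]
    nlinarith

theorem gauss_int {n : Type} [Fintype n] [DecidableEq n] (M : Matrix n n ℝ) (hM : M.PosDef) :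
    ∫ x : n → ℝ, Real.exp (-2 * (x ⬝ᵥ M.mulVec x))
      = Real.sqrt (Real.pi / 2) ^ Fintype.card n / Real.sqrt M.det := by
  obtain ⟨B, hB⟩ := CStarAlgebra.nonneg_iff_eq_star_mul_self.mp hM.posSemidef.nonneg
  have hdet : M.det = B.det ^ 2 := by
    rw [hB, Matrix.det_mul, Matrix.star_eq_conjTranspose, Matrix.conjTranspose_eq_transpose_of_trivial,
      Matrix.det_transpose, sq]
  have hdetpos : 0 < M.det := hM.det_pos
  have hB0 : B.det ≠ 0 := by
    intro h
    rw [hdet, h] at hdetpos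
    simp at hdetpos
  have hq : ∀ x : n → ℝ, x ⬝ᵥ M.mulVec x = ∑ i, (Matrix.toLin' B x i) ^ 2 := by
    intro x
    rw [hB, Matrix.star_eq_conjTranspose, Matrix.conjTranspose_eq_transpose_of_trivial,
      ← Matrix.mulVec_mulVec, Matrix.dotProduct_mulVec, Matrix.vecMul_transpose]
    simp [dotProduct, sq, Matrix.toLin'_apply]
  have hmap := Real.map_matrix_volume_pi_eq_smul_volume_pi hB0
  have h1 : ∫ x : n → ℝ, Real.exp (-2 * (x ⬝ᵥ M.mulVec x))
      = ∫ y : n → ℝ, Real.exp (-2 * ∑ i, y i ^ 2) ∂(Measure.map (Matrix.toLin' B) volume) := by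
    rw [integral_map]
    · simp only [hq]
    · exact (LinearMap.continuous_on_pi _).measurable.aemeasurable
    · exact Continuous.aestronglyMeasurable (by fun_prop)
  rw [h1, hmap, integral_smul_measure]
  have h2 : ∫ y : n → ℝ, Real.exp (-2 * ∑ i, y i ^ 2) = Real.sqrt (Real.pi / 2) ^ Fintype.card n := by
    have h3 : ∀ y : n → ℝ, Real.exp (-2 * ∑ i, y i ^ 2) = ∏ i, Real.exp (-2 * y i ^ 2) := by
      intro y
      rw [Finset.mul_sum, Real.exp_sum]
    simp only [h3]
    rw [integral_fintype_prod_volume_eq_pow (fun t : ℝ => Real.exp (-2 * t ^ 2)),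
      integral_gaussian]
  rw [h2, hdet, Real.sqrt_sq_eq_abs, ENNReal.toReal_ofReal (abs_nonneg _), smul_eq_mul, abs_inv]
  rw [inv_mul_eq_div]

end DetG

open DetG in
theorem detG (hg : Stmt_gap) (hl : Stmt_leb) : Stmt_detG := by
  intro D O hO
  have hpd := posDef hg D O hO
  have hdepH : ∀ O' : Finset Edge, O' ⊆ Ed D → ∀ f f' : Z2 → ℝ, (∀ x ∈ D, f x = f' x) →
      H O' f = H O' f' := by
    intro O' hO' f f' hff
    unfold H
    refine Finset.sum_congr rfl fun e he => ?_
    obtain ⟨hs, ht⟩ := mem_Ed (hO' he)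
    rw [hff _ hs, hff _ ht]
  have hmeas : ∀ O' : Finset Edge, Measurable fun f : Z2 → ℝ => H O' f := by
    intro O'
    unfold H
    fun_prop
  have h1 := hl D (fun f => Real.exp (H O f - H (Ed D) f))
    ((hmeas O).sub (hmeas (Ed D))).exp
    (by
      intro f f' hff
      simp only
      rw [hdepH O hO f f' hff, hdepH (Ed D) subset_rfl f f' hff])
  have h2 : Zp O = ∫ f, Real.exp (H O f - H (Ed D) f) * Real.exp (H (Ed D) f) ∂Gam := by
    unfold Zp
    congr 1
    ext f
    rw [← Real.exp_add]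
    congr 1
    ring
  rw [h2, h1]
  have h3 : ∀ ξ : D → ℝ, Real.exp (H O (ext D 0 ξ) - H (Ed D) (ext D 0 ξ))
      * Real.exp (-En0 D (ext D 0 ξ) / 2)
      = Real.exp (-2 * (ξ ⬝ᵥ (1 - (1 / 4 : ℝ) • adjM D O).mulVec ξ)) := by
    intro ξ
    rw [← Real.exp_add]
    congr 1
    rw [Matrix.sub_mulVec, Matrix.one_mulVec, Matrix.smul_mulVec, dotProduct_sub,
      dotProduct_smul, quad D O hO ξ]
    have h3 : ∑ z ∈ D, ext D 0 ξ z ^ 2 = ξ ⬝ᵥ ξ := by
      rw [← Finset.sum_coe_sort D, dotProduct]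
      refine Finset.sum_congr rfl fun a _ => ?_
      simp [ext, sq]
    rw [En0, h3, smul_eq_mul]
    ring
  simp only [h3]
  rw [gauss_int _ hpd, Fintype.card_coe]
  have h4 : Real.sqrt (2 / Real.pi) * Real.sqrt (Real.pi / 2) = 1 := by
    rw [← Real.sqrt_mul (by positivity), show 2 / Real.pi * (Real.pi / 2) = 1 by
      field_simp, Real.sqrt_one]
  rw [← mul_div_assoc, ← mul_pow, h4, one_pow]

end LSoup
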