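import Pool.Agent.LSoup.Stmts2

/-!
Module DetL: loop masses and determinants (formula (0.1) of the paper).
-/

open MeasureTheory ProbabilityTheory Finset Filter Topology

open scoped Classical

noncomputable section

namespace LSoup

private theorem DetL_symm (D : Finset Z2) (O : Finset Edge) : (adjM D O).IsHermitian := by
  ext x y
  simp only [adjM, Matrix.conjTranspose_apply, Matrix.of_apply, star_trivial]
  congr 1
  apply propext
  constructor
  · rintro ⟨e, he, h | h⟩
    · exact ⟨e, he, Or.inr h⟩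
    · exact ⟨e, he, Or.inl h⟩
  · rintro ⟨e, he, h | h⟩
    · exact ⟨e, he, Or.inr h⟩
    · exact ⟨e, he, Or.inl h⟩

private theorem DetL_mem_src {D : Finset Z2} {O : Finset Edge} (hO : O ⊆ Ed D) {e : Edge}
    (he : e ∈ O) : src e ∈ D ∧ tgt e ∈ D := by
  have := hO he
  simp only [Ed, Finset.mem_filter, Finset.mem_product, Finset.mem_univ, and_true] at this
  exact this

/-- quadratic form bound -/
private theorem DetL_quad (D : Finset Z2) (O : Finset Edge) (hO : O ⊆ Ed D) (c : ℝ)
    (hc : ∀ f : Z2 → ℝ, 2 * |H (Ed D) f| ≤ (4 - c) * ∑ x ∈ D, f x ^ 2) (v : D → ℝ) :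
    |∑ x, ∑ y, adjM D O x y * (v x * v y)| ≤ (4 - c) * ∑ x, v x ^ 2 := by
  set g : Z2 → ℝ := fun x => if h : x ∈ D then |v ⟨x, h⟩| else 0 with hg
  have hgx : ∀ x : D, g x = |v x| := by
    intro x
    simp only [hg, x.2, dif_pos]
  have h1 : |∑ x, ∑ y, adjM D O x y * (v x * v y)| ≤
      ∑ x : D, ∑ y : D, adjM D O x y * (g x * g y) := by
    refine (Finset.abs_sum_le_sum_abs _ _).trans (Finset.sum_le_sum fun x _ => ?_)
    refine (Finset.abs_sum_le_sum_abs _ _).trans (Finset.sum_le_sum fun y _ => ?_)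
    rw [abs_mul, abs_mul, hgx, hgx]
    have : |adjM D O x y| = adjM D O x y := by
      apply abs_of_nonneg
      simp only [adjM, Matrix.of_apply]
      split_ifs <;> norm_num
    rw [this]
  have hgnn : ∀ x, 0 ≤ g x := by
    intro x
    simp only [hg]
    split_ifs
    · exact abs_nonneg _
    · exact le_rfl
  have h2 : ∀ x y : D, adjM D O x y * (g x * g y) ≤
      ∑ e ∈ O, ((if src e = x ∧ tgt e = y then g x * g y else 0) +
        (if src e = y ∧ tgt e = x then g x * g y else 0)) := by
    intro x y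
    have hxy : 0 ≤ g x * g y := mul_nonneg (hgnn _) (hgnn _)
    have hnn : ∀ e ∈ O, 0 ≤ ((if src e = (x : Z2) ∧ tgt e = y then g x * g y else 0) +
        (if src e = (y : Z2) ∧ tgt e = x then g x * g y else 0)) := by
      intro e _
      split_ifs <;> simp [hxy]
    simp only [adjM, Matrix.of_apply]
    split_ifs with hJ
    · obtain ⟨e, he, h⟩ := hJ
      rw [one_mul]
      refine le_trans ?_ (Finset.single_le_sum hnn he)
      rcases h with h | h
      · rw [if_pos h]
        have : 0 ≤ (if src e = (y : Z2) ∧ tgt e = x then g x * g y else 0) := by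
          split_ifs <;> simp [hxy]
        linarith
      · rw [if_pos h]
        have : 0 ≤ (if src e = (x : Z2) ∧ tgt e = y then g x * g y else 0) := by
          split_ifs <;> simp [hxy]
        linarith
    · rw [zero_mul]
      exact Finset.sum_nonneg hnn
  have h3 : ∑ x : D, ∑ y : D, ∑ e ∈ O, ((if src e = x ∧ tgt e = y then g x * g y else 0) +
        (if src e = y ∧ tgt e = x then g x * g y else 0)) = ∑ e ∈ O, 2 * (g (src e) * g (tgt e)) := by
    have e1 : ∀ x : D, ∑ y : D, ∑ e ∈ O, ((if src e = x ∧ tgt e = y then g x * g y else 0) +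
        (if src e = y ∧ tgt e = x then g x * g y else 0)) =
        ∑ e ∈ O, ∑ y : D, ((if src e = x ∧ tgt e = y then g x * g y else 0) +
        (if src e = y ∧ tgt e = x then g x * g y else 0)) := fun x => Finset.sum_comm
    rw [Finset.sum_congr rfl fun x _ => e1 x, Finset.sum_comm]
    refine Finset.sum_congr rfl fun e he => ?_
    obtain ⟨hs, ht⟩ := DetL_mem_src hO he
    have e2 : ∑ x : D, ∑ y : D, (if src e = x ∧ tgt e = y then g x * g y else 0) =
        g (src e) * g (tgt e) := by
      rw [Finset.sum_eq_single ⟨src e, hs⟩, Finset.sum_eq_single ⟨tgt e, ht⟩]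
      · simp
      · intro y _ hy
        rw [if_neg]
        rintro ⟨-, h⟩
        exact hy (Subtype.ext h.symm)
      · intro h
        exact absurd (Finset.mem_univ _) h
      · intro x _ hx
        apply Finset.sum_eq_zero
        intro y _
        rw [if_neg]
        rintro ⟨h, -⟩
        exact hx (Subtype.ext h.symm)
      · intro h
        exact absurd (Finset.mem_univ _) h
    have e3 : ∑ x : D, ∑ y : D, (if src e = y ∧ tgt e = x then g x * g y else 0) =
        g (src e) * g (tgt e) := by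
      rw [Finset.sum_eq_single ⟨tgt e, ht⟩, Finset.sum_eq_single ⟨src e, hs⟩]
      · simp [mul_comm]
      · intro y _ hy
        rw [if_neg]
        rintro ⟨h, -⟩
        exact hy (Subtype.ext h.symm)
      · intro h
        exact absurd (Finset.mem_univ _) h
      · intro x _ hx
        apply Finset.sum_eq_zero
        intro y _
        rw [if_neg]
        rintro ⟨-, h⟩
        exact hx (Subtype.ext h.symm)
      · intro h
        exact absurd (Finset.mem_univ _) h
    simp only [Finset.sum_add_distrib]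
    rw [e2, e3]
    ring
  have h4 : ∑ e ∈ O, 2 * (g (src e) * g (tgt e)) ≤ 2 * H (Ed D) g := by
    rw [← Finset.mul_sum]
    apply mul_le_mul_of_nonneg_left _ (by norm_num)
    exact Finset.sum_le_sum_of_subset_of_nonneg hO
      fun e _ _ => mul_nonneg (hgnn _) (hgnn _)
  have h5 := hc g
  have h6 : ∑ x ∈ D, g x ^ 2 = ∑ x : D, v x ^ 2 := by
    rw [← Finset.sum_coe_sort]
    refine Finset.sum_congr rfl fun x _ => ?_
    rw [hgx, sq_abs]
  calc |∑ x, ∑ y, adjM D O x y * (v x * v y)| ≤
        ∑ x : D, ∑ y : D, adjM D O x y * (g x * g y) := h1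
    _ ≤ ∑ x : D, ∑ y : D, ∑ e ∈ O, ((if src e = x ∧ tgt e = y then g x * g y else 0) +
        (if src e = y ∧ tgt e = x then g x * g y else 0)) :=
        Finset.sum_le_sum fun x _ => Finset.sum_le_sum fun y _ => h2 x y
    _ = ∑ e ∈ O, 2 * (g (src e) * g (tgt e)) := h3
    _ ≤ 2 * H (Ed D) g := h4
    _ ≤ 2 * |H (Ed D) g| := by linarith [le_abs_self (H (Ed D) g)]
    _ ≤ (4 - c) * ∑ x ∈ D, g x ^ 2 := h5
    _ = _ := by rw [h6]

/-- eigenvalues are at most `4 - c` in absolute value -/
private theorem DetL_eig (D : Finset Z2) (O : Finset Edge) (hO : O ⊆ Ed D) (c : ℝ)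
    (hc : ∀ f : Z2 → ℝ, 2 * |H (Ed D) f| ≤ (4 - c) * ∑ x ∈ D, f x ^ 2) (i : D) :
    |(DetL_symm D O).eigenvalues i| ≤ 4 - c := by
  set hA := DetL_symm D O
  set v : D → ℝ := fun x => hA.eigenvectorBasis i x with hv
  have hmul : (adjM D O).mulVec v = hA.eigenvalues i • v := hA.mulVec_eigenvectorBasis i
  have hnorm : ∑ x, v x ^ 2 = 1 := by
    have h1 : ‖hA.eigenvectorBasis i‖ = 1 := hA.eigenvectorBasis.orthonormal.1 i
    have h2 := EuclideanSpace.real_norm_sq_eq (hA.eigenvectorBasis i)
    rw [h1] at h2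
    simp only [hv]
    linarith
  have hq : ∑ x, ∑ y, adjM D O x y * (v x * v y) = hA.eigenvalues i := by
    have h1 : ∀ x, ∑ y, adjM D O x y * (v x * v y) = v x * ((adjM D O).mulVec v x) := by
      intro x
      rw [Matrix.mulVec, dotProduct, Finset.mul_sum]
      exact Finset.sum_congr rfl fun y _ => by ring
    rw [Finset.sum_congr rfl fun x _ => h1 x, hmul]
    calc ∑ x, v x * (hA.eigenvalues i • v) x = ∑ x, hA.eigenvalues i * v x ^ 2 := by
          refine Finset.sum_congr rfl fun x _ => ?_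
          rw [Pi.smul_apply, smul_eq_mul]
          ring
      _ = hA.eigenvalues i := by rw [← Finset.mul_sum, hnorm, mul_one]
  have h := DetL_quad D O hO c hc v
  rw [hq, hnorm, mul_one] at h
  exact h

private theorem DetL_trace {ι : Type*} [Fintype ι] [DecidableEq ι] (A : Matrix ι ι ℝ)
    (hA : A.IsHermitian) (n : ℕ) : (A ^ n).trace = ∑ i, hA.eigenvalues i ^ n := by
  have h := hA.spectral_theorem
  have h2 : A ^ n = Unitary.conjStarAlgAut ℝ _ hA.eigenvectorUnitary
      (Matrix.diagonal ((RCLike.ofReal : ℝ → ℝ) ∘ hA.eigenvalues) ^ n) := by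
    conv_lhs => rw [h]
    rw [map_pow]
  rw [h2, Unitary.conjStarAlgAut_apply, Matrix.trace_mul_comm, ← mul_assoc, Unitary.coe_star_mul_self,
    one_mul, Matrix.diagonal_pow, Matrix.trace_diagonal]
  rfl

private theorem DetL_det {ι : Type*} [Fintype ι] [DecidableEq ι] (A : Matrix ι ι ℝ)
    (hA : A.IsHermitian) : (1 - (1 / 4 : ℝ) • A).det = ∏ i, (1 - hA.eigenvalues i / 4) := by
  have h := hA.charpoly_eq
  have h1 := Matrix.eval_charpoly A 4
  rw [h, Polynomial.eval_prod] at h1
  have h2 : (Matrix.scalar ι (4 : ℝ) - A) = (4 : ℝ) • (1 - (1 / 4 : ℝ) • A) := by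
    rw [smul_sub, smul_smul]
    norm_num
    ext i j
    simp [Matrix.smul_apply, Matrix.one_apply, Matrix.diagonal_apply]
  rw [h2, Matrix.det_smul] at h1
  have h3 : ∏ i, (1 - hA.eigenvalues i / 4) = (∏ _i : ι, (1 / 4 : ℝ)) *
      ∏ j, Polynomial.eval 4 (Polynomial.X - Polynomial.C ((hA.eigenvalues j : ℝ))) := by
    rw [← Finset.prod_mul_distrib]
    refine Finset.prod_congr rfl fun i _ => ?_
    simp only [Polynomial.eval_sub, Polynomial.eval_X, Polynomial.eval_C]
    ring
  rw [h3]
  simp only [RCLike.ofReal_real_eq_id, id_eq] at h1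
  rw [h1, Finset.prod_const, Finset.card_univ, ← mul_assoc, ← mul_pow]
  norm_num

private theorem DetL_wt_nonneg (l : List Z2) : 0 ≤ wt l := by
  unfold wt
  positivity

private theorem DetL_mono {O O' : Finset Edge} (h : O ⊆ O') {l : List Z2} (hl : IsLoopIn O l) :
    IsLoopIn O' l := by
  refine ⟨hl.1, hl.2.imp ?_⟩
  rintro x y ⟨e, he, hxy⟩
  exact ⟨e, h he, hxy⟩

/-- loop masses as a sum over lengths -/
private theorem DetL_mass (ht : Stmt_trace) (hs : Stmt_sum) (D : Finset Z2) (O : Finset Edge)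
    (hO : O ⊆ Ed D) : HasSum (fun m : ℕ => (adjM D O ^ (m + 1)).trace * ((1 / 4 : ℝ) ^ (m + 1) /
      ((m : ℝ) + 1))) (Ms O) := by
  set g : List Z2 → ℝ := fun l => if IsLoopIn O l then wt l else 0 with hg
  have hgs : Summable g := by
    refine Summable.of_nonneg_of_le (fun l => ?_) (fun l => ?_) (hs D)
    · simp only [hg]
      split_ifs
      · exact DetL_wt_nonneg l
      · exact le_rfl
    · simp only [hg]
      by_cases h1 : IsLoopIn O l
      · rw [if_pos h1, if_pos (DetL_mono hO h1)]
      · rw [if_neg h1]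
        split_ifs
        · exact DetL_wt_nonneg l
        · exact le_rfl
  have h1 : HasSum g (Ms O) := hgs.hasSum
  set e := Equiv.sigmaFiberEquiv (List.length : List Z2 → ℕ) with he
  have h2 : HasSum (g ∘ e) (Ms O) := e.hasSum_iff.mpr h1
  have h3 : ∀ n : ℕ, HasSum (fun l : {l : List Z2 // l.length = n} => g l)
      (({l : List Z2 | IsLoopIn O l ∧ l.length = n}.ncard : ℝ) * ((1 / 4 : ℝ) ^ n / n)) := by
    intro n
    rcases Nat.eq_zero_or_pos n with rfl | hn
    · have : ∀ l : {l : List Z2 // l.length = 0}, g l = 0 := by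
        intro l
        simp only [hg]
        rw [if_neg]
        intro h
        exact h.1 (List.length_eq_zero_iff.mp l.2)
      simp only [this]
      simp only [Nat.cast_zero, div_zero, mul_zero]
      exact hasSum_zero
    · obtain ⟨hfin, -⟩ := ht D O hO n hn
      have h4 : ∀ l : {l : List Z2 // l.length = n}, g l =
          if (l : List Z2) ∈ hfin.toFinset then (1 / 4 : ℝ) ^ n / n else 0 := by
        intro l
        simp only [hg, Set.Finite.mem_toFinset, Set.mem_ofPred_eq, l.2, and_true, wt]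
      have h5 : HasSum (fun l : List Z2 => if l ∈ hfin.toFinset then (1 / 4 : ℝ) ^ n / n else 0)
          (({l : List Z2 | IsLoopIn O l ∧ l.length = n}.ncard : ℝ) * ((1 / 4 : ℝ) ^ n / n)) := by
        have h6 : HasSum (fun l : List Z2 => if l ∈ hfin.toFinset then (1 / 4 : ℝ) ^ n / n else 0)
            (∑ l ∈ hfin.toFinset, if l ∈ hfin.toFinset then (1 / 4 : ℝ) ^ n / n else 0) :=
          hasSum_sum_of_ne_finset_zero fun l hl => if_neg hl
        have h7 : ∑ l ∈ hfin.toFinset, (if l ∈ hfin.toFinset then (1 / 4 : ℝ) ^ n / n else 0) =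
            ({l : List Z2 | IsLoopIn O l ∧ l.length = n}.ncard : ℝ) * ((1 / 4 : ℝ) ^ n / n) := by
          rw [Finset.sum_congr rfl fun l hl => if_pos hl, Finset.sum_const, nsmul_eq_mul,
            Set.ncard_eq_toFinset_card _ hfin]
        rw [← h7]
        exact h6
      simp only [h4]
      have h8 : Function.support (fun l : List Z2 => if l ∈ hfin.toFinset then (1 / 4 : ℝ) ^ n / n
          else 0) ⊆ {l : List Z2 | l.length = n} := by
        intro l hl
        by_contra hcon
        apply hl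
        simp only
        rw [if_neg]
        intro h
        rw [Set.Finite.mem_toFinset] at h
        exact hcon h.2
      exact (hasSum_subtype_iff_of_support_subset h8).mpr h5
  have h4 : HasSum (fun n : ℕ => (({l : List Z2 | IsLoopIn O l ∧ l.length = n}.ncard : ℝ) *
      ((1 / 4 : ℝ) ^ n / n))) (Ms O) := h2.sigma h3
  have h5 := (hasSum_nat_add_iff' 1).mpr h4
  rw [Finset.sum_range_one] at h5
  simp only [Nat.cast_zero, div_zero, mul_zero, sub_zero] at h5
  have h6 : (fun m : ℕ => (adjM D O ^ (m + 1)).trace * ((1 / 4 : ℝ) ^ (m + 1) / ((m : ℝ) + 1))) =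
      fun n : ℕ => ({l : List Z2 | IsLoopIn O l ∧ l.length = n + 1}.ncard : ℝ) *
        ((1 / 4) ^ (n + 1) / ((n + 1 : ℕ) : ℝ)) := by
    funext m
    obtain ⟨-, htr⟩ := ht D O hO (m + 1) (by omega)
    rw [htr]
    push_cast
    rfl
  rw [h6]
  exact h5

/-- module B5a -/
theorem detL (hg : Stmt_gap) (ht : Stmt_trace) (hs : Stmt_sum) : Stmt_detL := by
  intro D O hO
  obtain ⟨c, hc0, hc4, hc⟩ := hg D
  set hA := DetL_symm D O with hAdef
  have hev : ∀ i, |hA.eigenvalues i / 4| < 1 := by
    intro i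
    have := DetL_eig D O hO c hc i
    rw [abs_div, abs_of_pos (by norm_num : (0 : ℝ) < 4), div_lt_one (by norm_num)]
    linarith
  have hpos : ∀ i, 0 < 1 - hA.eigenvalues i / 4 := by
    intro i
    have := (abs_lt.mp (hev i)).2
    linarith
  have hdet := DetL_det (adjM D O) hA
  refine ⟨?_, ?_⟩
  · rw [hdet]
    exact Finset.prod_pos fun i _ => hpos i
  · rw [hdet, Real.log_prod (fun i _ => (hpos i).ne')]
    have h1 : HasSum (fun m : ℕ => ∑ i, (hA.eigenvalues i / 4) ^ (m + 1) / ((m : ℝ) + 1))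
        (∑ i, -Real.log (1 - hA.eigenvalues i / 4)) :=
      hasSum_sum fun i _ => Real.hasSum_pow_div_log_of_abs_lt_one (hev i)
    have h2 := DetL_mass ht hs D O hO
    have h3 : (fun m : ℕ => (adjM D O ^ (m + 1)).trace * ((1 / 4 : ℝ) ^ (m + 1) / ((m : ℝ) + 1))) =
        fun m : ℕ => ∑ i, (hA.eigenvalues i / 4) ^ (m + 1) / ((m : ℝ) + 1) := by
      funext m
      rw [DetL_trace (adjM D O) hA, Finset.sum_mul]
      refine Finset.sum_congr rfl fun i _ => ?_
      rw [div_pow, div_pow, one_pow]
      ring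
    rw [h3] at h2
    have h4 := h1.unique h2
    rw [← h4, Finset.sum_neg_distrib, neg_neg]

end LSoup
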