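import Pool.Agent.LSoup.Stmts2

/-!
# Disconnection in terms of the law of the open edges (A7)
-/

open MeasureTheory ProbabilityTheory Finset Filter Topology

open scoped Classical

noncomputable section

namespace LSoup

theorem dis (hp : Stmt_prob) : Stmt_dis := by
  intro D S T a ha hS hT
  have h := (hp D a ha).2.2.2 {O | ¬ ∃ x ∈ S, ∃ y ∈ T, Conn O x y}
  unfold disP
  have h1 : {c : List Z2 → ℕ | ¬ ∃ x ∈ S, ∃ y ∈ T, Conn (openE D c) x y}
      = {c | openE D c ∈ {O | ¬ ∃ x ∈ S, ∃ y ∈ T, Conn O x y}} := rfl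
  rw [h1, h]
  congr 1
  funext O
  have h2 : (O ∈ {O : Finset Edge | ¬ ∃ x ∈ S, ∃ y ∈ T, Conn O x y})
      ↔ Disjoint (KO D O S) T := by
    rw [Set.mem_setOf_eq, Finset.disjoint_left]
    unfold KO
    constructor
    · intro h y hy hyT
      rw [Finset.mem_filter] at hy
      obtain ⟨_, b, hb, hc⟩ := hy
      exact h ⟨b, hb, y, hyT, hc⟩
    · rintro h ⟨x, hx, y, hy, hc⟩
      exact h (Finset.mem_filter.2 ⟨hT hy, x, hx, hc⟩) hy
  by_cases h3 : Disjoint (KO D O S) T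
  · rw [if_pos h3, if_pos (h2.2 h3)]
  · rw [if_neg h3, if_neg (fun h4 => h3 (h2.1 h4))]

end LSoup
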