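import Pool.Agent.LSoup.Green

/-!
# Dirichlet principle for the variance of linear functionals
-/

open MeasureTheory ProbabilityTheory Finset Filter Topology

open scoped Classical

noncomputable section

namespace LSoup

theorem dual (hg : Stmt_green) (_hs : Stmt_solve) (_hgap : Stmt_gap) : Stmt_dual := by
  intro D u
  obtain ⟨h1, -, h3⟩ := hg D u
  set w : Z2 → ℝ := fun x => if x ∈ D then gff D (fun f => lin D u f * f x) else 0 with hwdef
  have hw : ∀ x, x ∉ D → w x = 0 := fun x hx => by simp [hwdef, hx]
  have hcov : Cov D u u = En0 D w := by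
    rw [h3 u, Green_En0_eq D w hw]
    refine Finset.sum_congr rfl fun x hx => ?_
    rw [h1 x hx]
    simp only [hwdef, if_pos hx]
    ring
  have hB : ∀ f : Z2 → ℝ, ∑ x ∈ D, u x * f x = ∑ x ∈ D, f x * lap w x := by
    intro f
    exact Finset.sum_congr rfl fun x hx => by rw [h1 x hx]; ring
  refine ⟨fun f hf => ?_, fun C hC h => ?_⟩
  · have hsq : ∀ t : ℝ, 0 ≤ En0 D w * (t * t) + (2 * ∑ x ∈ D, u x * f x) * t + En0 D f := by
      intro t
      have h4 := Green_En0_nonneg D (fun x => f x + t * w x)
      rw [Law2_En0 D f w hf hw t] at h4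
      have h5 : ∑ x ∈ D, lap w x * w x = En0 D w := by
        rw [Green_En0_eq D w hw]
        exact Finset.sum_congr rfl fun x _ => mul_comm _ _
      rw [h5, ← hB f] at h4
      nlinarith
    have h6 := discrim_le_zero hsq
    unfold discrim at h6
    rw [hcov]
    nlinarith
  · have h4 := h w hw
    have h5 : ∑ x ∈ D, u x * w x = Cov D u u := by
      rw [hB w, ← Green_En0_eq D w hw, hcov]
    rw [h5, ← hcov] at h4
    by_contra hc
    push Not at hc
    nlinarith

end LSoup
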