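import Pool.Agent.LSoup.Stmts

/-!
Energies and summation by parts.
-/

open MeasureTheory ProbabilityTheory Finset Filter Topology

open scoped Classical

noncomputable section

namespace LSoup

namespace EnAux

/-- the shift by `(1, 0)` -/
def sh1 : Z2 ≃ Z2 where
  toFun x := (x.1 + 1, x.2)
  invFun x := (x.1 - 1, x.2)
  left_inv x := by simp
  right_inv x := by simp

/-- the shift by `(0, 1)` -/
def sh2 : Z2 ≃ Z2 where
  toFun x := (x.1, x.2 + 1)
  invFun x := (x.1, x.2 - 1)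
  left_inv x := by simp
  right_inv x := by simp

lemma sh1_apply (x : Z2) : sh1 x = (x.1 + 1, x.2) := rfl
lemma sh1_symm (x : Z2) : sh1.symm x = (x.1 - 1, x.2) := rfl
lemma sh2_apply (x : Z2) : sh2 x = (x.1, x.2 + 1) := rfl
lemma sh2_symm (x : Z2) : sh2.symm x = (x.1, x.2 - 1) := rfl

lemma lap_eq (f : Z2 → ℝ) (x : Z2) :
    lap f x = 4 * f x - f (sh1 x) - f (sh1.symm x) - f (sh2 x) - f (sh2.symm x) := rfl

lemma smul_left {D : Finset Z2} {f : Z2 → ℝ} (hf : ∀ x, x ∉ D → f x = 0) (h : Z2 → ℝ) :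
    Summable fun x => f x * h x := by
  apply summable_of_ne_finset_zero (s := D)
  intro x hx
  rw [hf x hx, zero_mul]

lemma smul_right {D : Finset Z2} {f : Z2 → ℝ} (hf : ∀ x, x ∉ D → f x = 0) (h : Z2 → ℝ) :
    Summable fun x => h x * f x := by
  apply summable_of_ne_finset_zero (s := D)
  intro x hx
  rw [hf x hx, mul_zero]

/-- moving a shift to the other factor -/
lemma tsum_shift (e : Z2 ≃ Z2) (f g : Z2 → ℝ) :
    ∑' x, f (e x) * g x = ∑' x, f x * g (e.symm x) := by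
  rw [← e.tsum_eq (fun x => f x * g (e.symm x))]
  simp

lemma tsum_shift' (e : Z2 ≃ Z2) (f g : Z2 → ℝ) :
    ∑' x, f (e.symm x) * g x = ∑' x, f x * g (e x) := by
  have := tsum_shift e.symm f g
  simpa using this

lemma sum_Ed (L : Finset Z2) (F : Z2 → Z2 → ℝ) :
    ∑ e ∈ Ed L, F (src e) (tgt e) = ∑ x ∈ L,
      ((if sh1 x ∈ L then F x (sh1 x) else 0) + (if sh2 x ∈ L then F x (sh2 x) else 0)) := by
  unfold Ed
  rw [Finset.sum_filter, Finset.sum_product]
  apply Finset.sum_congr rfl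
  intro x _
  rw [Fintype.sum_bool]
  simp only [tgt, src, sh1_apply, sh2_apply, if_true, Bool.false_eq_true, if_false]

lemma H_eq {D : Finset Z2} {f : Z2 → ℝ} (hf : ∀ x, x ∉ D → f x = 0) :
    H (Ed D) f = ∑' x, f x * f (sh1 x) + ∑' x, f x * f (sh2 x) := by
  unfold H
  rw [sum_Ed D (fun a b => f a * f b),
    ← Summable.tsum_add (smul_left hf _) (smul_left hf _),
    tsum_eq_sum (s := D) (by intro x hx; rw [hf x hx]; simp)]
  apply Finset.sum_congr rfl
  intro x _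
  congr 1
  · by_cases h : sh1 x ∈ D
    · rw [if_pos h]
    · rw [if_neg h, hf _ h, mul_zero]
  · by_cases h : sh2 x ∈ D
    · rw [if_pos h]
    · rw [if_neg h, hf _ h, mul_zero]

/-- energy density -/
def den (f : Z2 → ℝ) (x : Z2) : ℝ := (f x - f (sh1 x)) ^ 2 + (f x - f (sh2 x)) ^ 2

lemma den_nonneg (f : Z2 → ℝ) (x : Z2) : 0 ≤ den f x := by unfold den; positivity

lemma mem_nbhd_self {D : Finset Z2} {x : Z2} (h : x ∈ D) : x ∈ nbhd D 1 := by
  simp only [nbhd, bx, Finset.mem_biUnion, Finset.mem_product, Finset.mem_Icc]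
  exact ⟨x, h, by push_cast; omega⟩

lemma mem_nbhd_sh1 {D : Finset Z2} {x : Z2} (h : x ∈ D) : sh1 x ∈ nbhd D 1 := by
  simp only [nbhd, bx, Finset.mem_biUnion, Finset.mem_product, Finset.mem_Icc, sh1_apply]
  exact ⟨x, h, by push_cast; omega⟩

lemma mem_nbhd_sh2 {D : Finset Z2} {x : Z2} (h : x ∈ D) : sh2 x ∈ nbhd D 1 := by
  simp only [nbhd, bx, Finset.mem_biUnion, Finset.mem_product, Finset.mem_Icc, sh2_apply]
  exact ⟨x, h, by push_cast; omega⟩

lemma mem_nbhd_sh1' {D : Finset Z2} {x : Z2} (h : sh1 x ∈ D) : x ∈ nbhd D 1 := by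
  simp only [nbhd, bx, Finset.mem_biUnion, Finset.mem_product, Finset.mem_Icc]
  refine ⟨sh1 x, h, ?_⟩
  simp only [sh1_apply]
  push_cast; omega

lemma mem_nbhd_sh2' {D : Finset Z2} {x : Z2} (h : sh2 x ∈ D) : x ∈ nbhd D 1 := by
  simp only [nbhd, bx, Finset.mem_biUnion, Finset.mem_product, Finset.mem_Icc]
  refine ⟨sh2 x, h, ?_⟩
  simp only [sh2_apply]
  push_cast; omega

lemma den_zero {D : Finset Z2} {f : Z2 → ℝ} (hf : ∀ x, x ∉ D → f x = 0) {x : Z2}
    (hx : x ∉ nbhd D 1) : den f x = 0 := by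
  have h0 : f x = 0 := hf x fun h => hx (mem_nbhd_self h)
  have h1 : f (sh1 x) = 0 := hf _ fun h => hx (mem_nbhd_sh1' h)
  have h2 : f (sh2 x) = 0 := hf _ fun h => hx (mem_nbhd_sh2' h)
  unfold den
  rw [h0, h1, h2]; norm_num

lemma den_summable {D : Finset Z2} {f : Z2 → ℝ} (hf : ∀ x, x ∉ D → f x = 0) :
    Summable (den f) :=
  summable_of_ne_finset_zero (s := nbhd D 1) fun _ hx => den_zero hf hx

lemma EnL_le {D : Finset Z2} {f : Z2 → ℝ} (hf : ∀ x, x ∉ D → f x = 0) (L : Finset Z2) :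
    EnL L f ≤ ∑' x, den f x := by
  unfold EnL
  rw [sum_Ed L (fun a b => (f a - f b) ^ 2)]
  refine le_trans ?_ ((den_summable hf).sum_le_tsum L fun x _ => den_nonneg f x)
  apply Finset.sum_le_sum
  intro x _
  unfold den
  apply add_le_add
  · by_cases h : sh1 x ∈ L
    · rw [if_pos h]
    · rw [if_neg h]; positivity
  · by_cases h : sh2 x ∈ L
    · rw [if_pos h]
    · rw [if_neg h]; positivity

lemma EnL_nbhd {D : Finset Z2} {f : Z2 → ℝ} (hf : ∀ x, x ∉ D → f x = 0) :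
    EnL (nbhd D 1) f = ∑' x, den f x := by
  unfold EnL
  rw [sum_Ed _ (fun a b => (f a - f b) ^ 2),
    tsum_eq_sum (s := nbhd D 1) (fun x hx => den_zero hf hx)]
  apply Finset.sum_congr rfl
  intro x _
  unfold den
  congr 1
  · by_cases h : sh1 x ∈ nbhd D 1
    · rw [if_pos h]
    · rw [if_neg h, hf x (fun h' => h (mem_nbhd_sh1 h')), hf _ (fun h' => h (mem_nbhd_self h'))]
      norm_num
  · by_cases h : sh2 x ∈ nbhd D 1
    · rw [if_pos h]
    · rw [if_neg h, hf x (fun h' => h (mem_nbhd_sh2 h')), hf _ (fun h' => h (mem_nbhd_self h'))]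
      norm_num

lemma sq_shift {D : Finset Z2} {f : Z2 → ℝ} (hf : ∀ x, x ∉ D → f x = 0) (e : Z2 ≃ Z2) :
    (Summable fun x => f (e x) * f (e x)) ∧
    ∑' x, f (e x) * f (e x) = ∑' x, f x * f x := by
  refine ⟨?_, e.tsum_eq (fun x => f x * f x)⟩
  exact (e.summable_iff (f := fun x => f x * f x)).2 (smul_left hf f)

lemma dir_sum {D : Finset Z2} {f : Z2 → ℝ} (hf : ∀ x, x ∉ D → f x = 0) (e : Z2 ≃ Z2) :
    (Summable fun x => (f x - f (e x)) ^ 2) ∧
    ∑' x, (f x - f (e x)) ^ 2 = 2 * ∑' x, f x * f x - 2 * ∑' x, f x * f (e x) := by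
  have h1 := smul_left hf f
  obtain ⟨h2, h2'⟩ := sq_shift hf e
  have h3 := smul_left hf (fun x => f (e x))
  have e0 : (fun x => (f x - f (e x)) ^ 2)
      = fun x => (f x * f x + f (e x) * f (e x)) - 2 * (f x * f (e x)) := by
    funext x; ring
  rw [e0]
  refine ⟨(h1.add h2).sub (h3.mul_left 2), ?_⟩
  rw [Summable.tsum_sub (h1.add h2) (h3.mul_left 2), Summable.tsum_add h1 h2, h2', tsum_mul_left]
  ring

lemma sum_sq {D : Finset Z2} {f : Z2 → ℝ} (hf : ∀ x, x ∉ D → f x = 0) :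
    ∑ x ∈ D, f x ^ 2 = ∑' x, f x * f x := by
  rw [tsum_eq_sum (s := D) (by intro x hx; rw [hf x hx]; simp)]
  apply Finset.sum_congr rfl
  intro x _
  ring

lemma tsum_den {D : Finset Z2} {f : Z2 → ℝ} (hf : ∀ x, x ∉ D → f x = 0) :
    ∑' x, den f x = En0 D f := by
  unfold den En0
  obtain ⟨s1, t1⟩ := dir_sum hf sh1
  obtain ⟨s2, t2⟩ := dir_sum hf sh2
  rw [Summable.tsum_add s1 s2, t1, t2, H_eq hf, sum_sq hf]
  ring

lemma tsum_lap_mul {D : Finset Z2} {g : Z2 → ℝ} (hg : ∀ x, x ∉ D → g x = 0) (f : Z2 → ℝ) :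
    ∑' x, lap f x * g x = 4 * ∑' x, f x * g x - ∑' x, f (sh1 x) * g x
      - ∑' x, f (sh1.symm x) * g x - ∑' x, f (sh2 x) * g x - ∑' x, f (sh2.symm x) * g x := by
  have h0 := (smul_right hg f).mul_left 4
  have h1 := smul_right hg (fun x => f (sh1 x))
  have h2 := smul_right hg (fun x => f (sh1.symm x))
  have h3 := smul_right hg (fun x => f (sh2 x))
  have h4 := smul_right hg (fun x => f (sh2.symm x))
  have e0 : (fun x => lap f x * g x) = fun x => 4 * (f x * g x) - f (sh1 x) * g x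
      - f (sh1.symm x) * g x - f (sh2 x) * g x - f (sh2.symm x) * g x := by
    funext x; rw [lap_eq]; ring
  rw [e0, Summable.tsum_sub (((h0.sub h1).sub h2).sub h3) h4,
    Summable.tsum_sub ((h0.sub h1).sub h2) h3, Summable.tsum_sub (h0.sub h1) h2,
    Summable.tsum_sub h0 h1, tsum_mul_left]

lemma mul_tsum_lap {D : Finset Z2} {f : Z2 → ℝ} (hf : ∀ x, x ∉ D → f x = 0) (g : Z2 → ℝ) :
    ∑' x, f x * lap g x = 4 * ∑' x, f x * g x - ∑' x, f x * g (sh1 x)
      - ∑' x, f x * g (sh1.symm x) - ∑' x, f x * g (sh2 x) - ∑' x, f x * g (sh2.symm x) := by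
  have h := tsum_lap_mul hf g
  have e : ∀ u : Z2 → ℝ, ∑' x, u x * f x = ∑' x, f x * u x := by
    intro u; congr 1; funext x; ring
  rw [e, e, e (fun x => g (sh1 x)), e (fun x => g (sh1.symm x)), e (fun x => g (sh2 x)),
    e (fun x => g (sh2.symm x))] at h
  exact h

end EnAux

open EnAux

theorem en : Stmt_en := by
  intro D f hf
  have hE := tsum_den hf
  refine ⟨fun L => ?_, ?_, ?_, ?_⟩
  · rw [← hE]; exact EnL_le hf L
  · rw [← hE, EnL_nbhd hf]
  · have h1 : ∑ x ∈ D, f x * lap f x = ∑' x, f x * lap f x := by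
      rw [tsum_eq_sum (s := D) (by intro x hx; rw [hf x hx, zero_mul])]
    rw [h1, mul_tsum_lap hf f]
    unfold En0
    rw [H_eq hf, sum_sq hf]
    have s1 : ∑' x, f x * f (sh1.symm x) = ∑' x, f x * f (sh1 x) := by
      rw [← tsum_shift sh1 f f]; congr 1; funext x; ring
    have s2 : ∑' x, f x * f (sh2.symm x) = ∑' x, f x * f (sh2 x) := by
      rw [← tsum_shift sh2 f f]; congr 1; funext x; ring
    rw [s1, s2]; ring
  · intro D' g hg
    have h1 : ∑ x ∈ D', lap f x * g x = ∑' x, lap f x * g x := by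
      rw [tsum_eq_sum (s := D') (by intro x hx; rw [hg x hx, mul_zero])]
    have h2 : ∑ x ∈ D, f x * lap g x = ∑' x, f x * lap g x := by
      rw [tsum_eq_sum (s := D) (by intro x hx; rw [hf x hx, zero_mul])]
    rw [h1, h2, tsum_lap_mul hg f, mul_tsum_lap hf g, tsum_shift sh1 f g, tsum_shift' sh1 f g,
      tsum_shift sh2 f g, tsum_shift' sh2 f g]
    ring

end LSoup
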