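import Pool.Agent.LSoup.Final

open MeasureTheory ProbabilityTheory Finset Filter Topology

open scoped Classical ENNReal

noncomputable section

namespace LSoup

theorem final_ (h1 : Stmt_main) (h2 : Stmt_ppp) : Stmt_final := by
  intro a α β ε ha hα hαβ hβ hε Ω mΩ P L hP hL
  have hm := h1 a α β ε ha hα hαβ hβ hε
  have hm' : Tendsto (fun N : ℕ => ENNReal.ofReal ((soup (VI N) a).real
      {c | Short (openE (VI N) c) (bdV ⌊α * N⌋₊) (bdV ⌊β * N⌋₊) ((N : ℝ) ^ (1 + ε))}))
      atTop (𝓝 1) := by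
    have := (ENNReal.continuous_ofReal.tendsto 1).comp hm
    rw [ENNReal.ofReal_one] at this
    exact this
  refine tendsto_of_tendsto_of_tendsto_of_le_of_le hm' tendsto_const_nhds ?_ ?_
  · intro N
    have hs := h2 (VI N) a (Ω N) (mΩ N) (P N) (L N)
      {O | Short O (bdV ⌊α * N⌋₊) (bdV ⌊β * N⌋₊) ((N : ℝ) ^ (1 + ε))} (by linarith) (hP N) (hL N)
    have hP' := hP N
    simp only [Set.mem_ofPred_eq] at hs
    simp only
    rw [← hs, Measure.real, ENNReal.ofReal_toReal (measure_ne_top _ _)]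
    apply measure_mono
    intro ω hω
    simp only [Set.mem_ofPred_eq] at hω ⊢
    obtain ⟨u, hu, v, hv, hr, hd⟩ := hω
    have hle : gr ((Ed (VI N)).filter
        (fun e => L N ω (Crosses (src e) (tgt e)) ≠ 0)) ≤ openG (L N ω) := by
      intro x y hxy
      unfold gr at hxy
      unfold openG
      rw [SimpleGraph.fromRel_adj] at hxy ⊢
      refine ⟨hxy.1, ?_⟩
      have aux : ∀ x y : Z2, Joined ((Ed (VI N)).filter
          (fun e => L N ω (Crosses (src e) (tgt e)) ≠ 0)) x y →
          (Nb x y ∧ L N ω (Crosses x y) ≠ 0) ∨ (Nb y x ∧ L N ω (Crosses y x) ≠ 0) := by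
        intro x y hj
        obtain ⟨e, he, h⟩ := hj
        rw [Finset.mem_filter] at he
        have hnb : Nb (src e) (tgt e) := by
          obtain ⟨⟨p, q⟩, b⟩ := e
          unfold Nb
          cases b <;> simp [src, tgt]
        rcases h with ⟨h1, h2⟩ | ⟨h1, h2⟩
        · left
          rw [← h1, ← h2]
          exact ⟨hnb, he.2⟩
        · right
          rw [← h1, ← h2]
          exact ⟨hnb, he.2⟩
      rcases hxy.2 with h | h
      · exact aux x y h
      · exact (aux y x h).symm
    have hr' : (openG (L N ω)).Reachable u v := hr.mono hle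
    obtain ⟨p, hp⟩ := hr.exists_walk_length_eq_dist
    have h5 : (openG (L N ω)).edist u v ≤ (p.length : ℕ∞) := by
      have := SimpleGraph.edist_le (p.mapLe hle)
      simpa using this
    have h6 : chem (openG (L N ω)) (bdV ⌊α * N⌋₊) (bdV ⌊β * N⌋₊) ≤ (p.length : ℕ∞) := by
      unfold chem
      exact (iInf₂_le u hu).trans ((iInf₂_le v hv).trans h5)
    calc ((chem (openG (L N ω)) (bdV ⌊α * N⌋₊) (bdV ⌊β * N⌋₊) : ℕ∞) : ℝ≥0∞)
        ≤ ((p.length : ℕ∞) : ℝ≥0∞) := by exact_mod_cast h6
      _ = ENNReal.ofReal (p.length : ℝ) := by simp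
      _ ≤ ENNReal.ofReal ((N : ℝ) ^ (1 + ε)) := by
        apply ENNReal.ofReal_le_ofReal
        rw [hp]
        exact hd
  · intro N
    have := hP N
    exact prob_le_one

end LSoup
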