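import Pool.Agent.LSoup.Stmts

open MeasureTheory ProbabilityTheory Finset

open scoped Classical

noncomputable section

namespace LSoup

lemma flux_card_tile (r : ℕ) (z : Z2) : (tile r z).card = r * r := by
  unfold tile
  rw [Finset.card_product, Int.card_Icc, Int.card_Icc]
  congr 1 <;> omega

lemma flux_mem_tile {r : ℕ} (hr : 1 ≤ r) (x : Z2) :
    x ∈ tile r (x.1 / (r : ℤ), x.2 / (r : ℤ)) := by
  have hr' : (0 : ℤ) < r := by exact_mod_cast hr
  unfold tile
  rw [Finset.mem_product, Finset.mem_Icc, Finset.mem_Icc]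
  have h1 := Int.mul_ediv_self_le (x := x.1) (k := (r : ℤ)) hr'.ne'
  have h2 := Int.lt_mul_ediv_self_add (x := x.1) (k := (r : ℤ)) hr'
  have h3 := Int.mul_ediv_self_le (x := x.2) (k := (r : ℤ)) hr'.ne'
  have h4 := Int.lt_mul_ediv_self_add (x := x.2) (k := (r : ℤ)) hr'
  refine ⟨⟨h1, ?_⟩, ⟨h3, ?_⟩⟩
  · simp only; linarith
  · simp only; linarith

lemma flux_sub_nbhd (A : Finset Z2) (s : ℕ) : A ⊆ nbhd A s := by
  intro x hx
  unfold nbhd
  rw [Finset.mem_biUnion]
  refine ⟨x, hx, ?_⟩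
  unfold bx
  rw [Finset.mem_product, Finset.mem_Icc, Finset.mem_Icc]
  refine ⟨⟨?_, ?_⟩, ⟨?_, ?_⟩⟩ <;> omega

lemma flux_lap_off {D : Finset Z2} {u : Z2 → ℝ} (h0 : ∀ x, x ∉ D → u x = 0)
    (h1 : ∀ x, 0 ≤ u x) {x : Z2} (hx : x ∉ D) : lap u x ≤ 0 := by
  unfold lap
  rw [h0 x hx]
  have a1 := h1 (x.1 + 1, x.2)
  have a2 := h1 (x.1 - 1, x.2)
  have a3 := h1 (x.1, x.2 + 1)
  have a4 := h1 (x.1, x.2 - 1)
  linarith

theorem flux (hg : Stmt_green) (hv : Stmt_v) (hc : Stmt_cut) (he : Stmt_en) : Stmt_flux := by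
  obtain ⟨cv, hcv, n0, hn0⟩ := hv
  refine ⟨cv / 8, by positivity, max n0 1, ?_⟩
  intro n hn r hr K hK hQK hKB hBN
  have hn1 : 1 ≤ n := (le_max_right _ _).trans hn
  obtain ⟨v, v0, v1, vR, vQ, vB⟩ := hn0 n ((le_max_left _ _).trans hn)
  set D : Finset Z2 := Rn n \ K with hD
  set B : Finset Z2 := Bn n with hB
  set A : Finset Z2 := K ∩ Rm n with hA
  set N : Finset Z2 := nbhd A (4 * r) with hN
  obtain ⟨χ, χ0, χ1, χA, χN, χl⟩ := hc A r hr
  obtain ⟨g1, g2, g3⟩ := hg D (avw B)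
  set u : Z2 → ℝ := fun x => if x ∈ D then gff D (fun f => lin D (avw B) f * f x) else 0 with hu
  have avn : ∀ x, 0 ≤ avw B x := by
    intro x
    unfold avw
    split_ifs <;> positivity
  have u0 : ∀ x, x ∉ D → u x = 0 := by
    intro x hx
    rw [hu]
    simp only
    rw [if_neg hx]
  have unn : ∀ x, 0 ≤ u x := by
    intro x
    rw [hu]
    simp only
    split_ifs with h
    · exact g2 avn x h
    · exact le_rfl
  have uD : ∀ x ∈ D, gff D (fun f => lin D (avw B) f * f x) = u x := by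
    intro x hx
    rw [hu]
    simp only
    rw [if_pos hx]
  have hsbp := (he D u u0).2.2.2
  -- geometry
  have hBR : B ⊆ Rm n := by
    intro x hx
    rw [hB] at hx
    unfold Bn at hx
    unfold Rm
    rw [Finset.mem_product, Finset.mem_Icc, Finset.mem_Icc] at hx ⊢
    omega
  have hRR : Rm n ⊆ Rn n := by
    intro x hx
    unfold Rm at hx
    unfold Rn
    rw [Finset.mem_product, Finset.mem_Icc, Finset.mem_Icc] at hx ⊢
    omega
  have hBD : B ⊆ D := by
    intro x hx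
    rw [hD, Finset.mem_sdiff]
    exact ⟨hRR (hBR hx), fun h => Finset.disjoint_left.1 hKB h hx⟩
  have hBne : 0 < (B.card : ℝ) := by
    have : B.Nonempty := ⟨((35 * n : ℤ), (3 * n : ℤ)), by
      rw [hB]
      unfold Bn
      rw [Finset.mem_product, Finset.mem_Icc, Finset.mem_Icc]
      simp only
      omega⟩
    exact_mod_cast this.card_pos
  have hAD : ∀ x ∈ A, x ∉ D := by
    intro x hx
    rw [hA, Finset.mem_inter] at hx
    rw [hD, Finset.mem_sdiff]
    exact fun h => h.2 hx.1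
  have hRmD : Rm n \ D = A := by
    ext x
    rw [hA, Finset.mem_sdiff, Finset.mem_inter, hD, Finset.mem_sdiff]
    constructor
    · rintro ⟨h1, h2⟩
      exact ⟨by_contra fun h => h2 ⟨hRR h1, h⟩, h1⟩
    · rintro ⟨h1, h2⟩
      exact ⟨h2, fun h => h.2 h1⟩
  -- first summation by parts
  have s1 := hsbp (Rm n) v vR
  have r1 : ∑ x ∈ D, u x * lap v x ≤ 0 := by
    apply Finset.sum_nonpos
    intro x hx
    apply mul_nonpos_of_nonneg_of_nonpos (unn x)
    apply vQ
    intro hxQ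
    rw [hD, Finset.mem_sdiff] at hx
    exact hx.2 (hQK hxQ)
  have l1 : ∑ x ∈ Rm n, lap u x * v x =
      ∑ x ∈ Rm n ∩ D, avw B x * v x + ∑ x ∈ A, lap u x * v x := by
    rw [← hRmD, ← Finset.sum_inter_add_sum_sdiff (Rm n) D]
    congr 1
    apply Finset.sum_congr rfl
    intro x hx
    rw [g1 x (Finset.mem_inter.1 hx).2]
  have l2 : cv ≤ ∑ x ∈ Rm n ∩ D, avw B x * v x := by
    have h1 : ∑ x ∈ B, avw B x * v x ≤ ∑ x ∈ Rm n ∩ D, avw B x * v x := by
      apply Finset.sum_le_sum_of_subset_of_nonneg (Finset.subset_inter hBR hBD)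
      intro x _ _
      exact mul_nonneg (avn x) (v0 x)
    refine le_trans ?_ h1
    have h2 : ∑ x ∈ B, (B.card : ℝ)⁻¹ * cv ≤ ∑ x ∈ B, avw B x * v x := by
      apply Finset.sum_le_sum
      intro x hx
      unfold avw
      rw [if_pos hx]
      exact mul_le_mul_of_nonneg_left (vB x hx) (by positivity)
    refine le_trans ?_ h2
    rw [Finset.sum_const, nsmul_eq_mul, ← mul_assoc, mul_inv_cancel₀ hBne.ne', one_mul]
  have l3 : ∑ x ∈ A, lap u x ≤ ∑ x ∈ A, lap u x * v x := by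
    apply Finset.sum_le_sum
    intro x hx
    have h1 := flux_lap_off u0 unn (hAD x hx)
    nlinarith [v1 x]
  have l4 : ∑ x ∈ A, lap u x ≤ -cv := by
    rw [l1] at s1
    linarith
  -- second summation by parts
  have s2 := hsbp N χ (fun x hx => (χN x hx).1)
  have l5 : ∑ x ∈ N, lap u x * χ x ≤ ∑ x ∈ A, lap u x := by
    have h1 : ∑ x ∈ N, lap u x * χ x = ∑ x ∈ N \ A, lap u x * χ x + ∑ x ∈ A, lap u x * χ x :=
      (Finset.sum_sdiff (flux_sub_nbhd A (4 * r))).symm
    have h2 : ∑ x ∈ N \ A, lap u x * χ x ≤ 0 := by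
      apply Finset.sum_nonpos
      intro x hx
      have hxN := (Finset.mem_sdiff.1 hx).1
      by_cases hxD : x ∈ D
      · have h3 : lap u x = 0 := by
          rw [g1 x hxD]
          unfold avw
          rw [if_neg]
          intro hxB
          exact Finset.disjoint_left.1 hBN hxB hxN
        rw [h3, zero_mul]
      · exact mul_nonpos_of_nonpos_of_nonneg (flux_lap_off u0 unn hxD) (χ0 x)
    have h3 : ∑ x ∈ A, lap u x * χ x = ∑ x ∈ A, lap u x := by
      apply Finset.sum_congr rfl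
      intro x hx
      rw [χA x hx, mul_one]
    linarith
  have hr0 : (0 : ℝ) < r := by exact_mod_cast hr
  have l6 : -(8 / (r : ℝ) ^ 2) * ∑ x ∈ D ∩ N, u x ≤ ∑ x ∈ D, u x * lap χ x := by
    rw [← Finset.sum_inter_add_sum_sdiff D N, Finset.mul_sum]
    have h1 : ∑ x ∈ D \ N, u x * lap χ x = 0 := by
      apply Finset.sum_eq_zero
      intro x hx
      rw [(χN x (Finset.mem_sdiff.1 hx).2).2, mul_zero]
    rw [h1, add_zero]
    apply Finset.sum_le_sum
    intro x _
    have h2 := (abs_le.1 (χl x)).1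
    nlinarith [unn x]
  have l7 : cv * (r : ℝ) ^ 2 / 8 ≤ ∑ x ∈ D ∩ N, u x := by
    have h1 : -(8 / (r : ℝ) ^ 2) * ∑ x ∈ D ∩ N, u x ≤ -cv := by linarith
    have h2 : cv ≤ 8 / (r : ℝ) ^ 2 * ∑ x ∈ D ∩ N, u x := by linarith
    rw [div_mul_eq_mul_div, le_div_iff₀ (by positivity)] at h2
    linarith
  -- tiles
  have t1 : ∀ z, Cov D (avw B) (avw (tile r z)) = ∑ x ∈ D, avw (tile r z) x * u x := by
    intro z
    rw [g3]
    apply Finset.sum_congr rfl
    intro x hx
    rw [uD x hx]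
  have t2 : ∑ z ∈ tiles n r K, Cov D (avw B) (avw (tile r z)) =
      ∑ x ∈ D, ∑ z ∈ tiles n r K, avw (tile r z) x * u x := by
    rw [Finset.sum_comm]
    exact Finset.sum_congr rfl fun z _ => t1 z
  rw [t2]
  have tn : ∀ z x, 0 ≤ avw (tile r z) x * u x := by
    intro z x
    apply mul_nonneg _ (unn x)
    unfold avw
    split_ifs <;> positivity
  have t3 : ∑ x ∈ D ∩ N, ((r : ℝ) ^ 2)⁻¹ * u x ≤
      ∑ x ∈ D, ∑ z ∈ tiles n r K, avw (tile r z) x * u x := by
    refine le_trans ?_ (Finset.sum_le_sum_of_subset_of_nonneg (Finset.inter_subset_left (s₂ := N))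
      fun x _ _ => Finset.sum_nonneg fun z _ => tn z x)
    apply Finset.sum_le_sum
    intro x hx
    have hxN := (Finset.mem_inter.1 hx).2
    have hz : ((x.1 / (r : ℤ), x.2 / (r : ℤ)) : Z2) ∈ tiles n r K := by
      unfold tiles
      rw [Finset.mem_image]
      exact ⟨x, hxN, rfl⟩
    have h1 := Finset.single_le_sum (f := fun z => avw (tile r z) x * u x)
      (fun z _ => tn z x) hz
    refine le_trans (le_of_eq ?_) h1
    unfold avw
    rw [if_pos (flux_mem_tile hr x), flux_card_tile]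
    push_cast
    rw [sq]
  refine le_trans ?_ t3
  rw [← Finset.mul_sum]
  have h5 : ((r : ℝ) ^ 2)⁻¹ * (cv * (r : ℝ) ^ 2 / 8) ≤ ((r : ℝ) ^ 2)⁻¹ * ∑ x ∈ D ∩ N, u x :=
    mul_le_mul_of_nonneg_left l7 (by positivity)
  refine le_trans (le_of_eq ?_) h5
  field_simp

end LSoup
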