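import Pool.Agent.LSoup.Stmts2

/-!
# Law of linear functionals of the Gaussian free field
-/

open MeasureTheory ProbabilityTheory Finset Filter Topology

open scoped Classical

noncomputable section

namespace LSoup

lemma Law2_shift (D : Finset Z2) (f w : Z2 → ℝ) (hf : ∀ x, x ∉ D → f x = 0)
    (hw : ∀ x, x ∉ D → w x = 0) (a b : ℤ) :
    ∑ x ∈ D, f (x.1 + a, x.2 + b) * w x = ∑ x ∈ D, f x * w (x.1 - a, x.2 - b) := by
  have h1 : ∑' x : Z2, f (x.1 + a, x.2 + b) * w x = ∑ x ∈ D, f (x.1 + a, x.2 + b) * w x :=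
    tsum_eq_sum fun x hx => by rw [hw x hx, mul_zero]
  have h2 : ∑' x : Z2, f x * w (x.1 - a, x.2 - b) = ∑ x ∈ D, f x * w (x.1 - a, x.2 - b) :=
    tsum_eq_sum fun x hx => by rw [hf x hx, zero_mul]
  rw [← h1, ← h2, ← Equiv.tsum_eq (Equiv.addRight ((a, b) : Z2))
    (fun x : Z2 => f x * w (x.1 - a, x.2 - b))]
  refine tsum_congr fun x => ?_
  simp only [Equiv.coe_addRight, Prod.fst_add, Prod.snd_add, add_sub_cancel_right]
  rfl

lemma Law2_parts (D : Finset Z2) (f w : Z2 → ℝ) (hf : ∀ x, x ∉ D → f x = 0)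
    (hw : ∀ x, x ∉ D → w x = 0) :
    ∑ x ∈ D, f x * lap w x = 4 * ∑ x ∈ D, f x * w x
      - ∑ e ∈ Ed D, (f (src e) * w (tgt e) + f (tgt e) * w (src e)) := by
  have h1 : ∑ e ∈ Ed D, (f (src e) * w (tgt e) + f (tgt e) * w (src e))
      = ∑ x ∈ D, (f x * w (x.1 + 1, x.2) + f (x.1 + 1, x.2) * w x
        + (f x * w (x.1, x.2 + 1) + f (x.1, x.2 + 1) * w x)) := by
    unfold Ed
    rw [Finset.sum_filter, Finset.sum_product]
    refine Finset.sum_congr rfl fun x hx => ?_
    rw [Fintype.sum_bool]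
    have k1 : (if tgt (x, true) ∈ D then
        f (src (x, true)) * w (tgt (x, true)) + f (tgt (x, true)) * w (src (x, true)) else 0)
        = f x * w (x.1 + 1, x.2) + f (x.1 + 1, x.2) * w x := by
      split_ifs with h
      · simp [src, tgt]
      · have h' : ((x.1 + 1, x.2) : Z2) ∉ D := by simpa [tgt] using h
        rw [hf _ h', hw _ h']; ring
    have k2 : (if tgt (x, false) ∈ D then
        f (src (x, false)) * w (tgt (x, false)) + f (tgt (x, false)) * w (src (x, false)) else 0)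
        = f x * w (x.1, x.2 + 1) + f (x.1, x.2 + 1) * w x := by
      split_ifs with h
      · simp [src, tgt]
      · have h' : ((x.1, x.2 + 1) : Z2) ∉ D := by simpa [tgt] using h
        rw [hf _ h', hw _ h']; ring
    rw [k1, k2]
  have s1 := Law2_shift D f w hf hw 1 0
  have s2 := Law2_shift D f w hf hw 0 1
  simp only [add_zero, sub_zero] at s1 s2
  rw [h1]
  simp only [Finset.sum_add_distrib]
  rw [s1, s2]
  simp only [lap, mul_sub, Finset.sum_sub_distrib, Finset.mul_sum]
  have : ∑ x ∈ D, f x * (4 * w x) = ∑ x ∈ D, 4 * (f x * w x) :=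
    Finset.sum_congr rfl fun x _ => by ring
  rw [this]
  ring

lemma Law2_En0 (D : Finset Z2) (f w : Z2 → ℝ) (hf : ∀ x, x ∉ D → f x = 0)
    (hw : ∀ x, x ∉ D → w x = 0) (t : ℝ) :
    En0 D (fun x => f x + t * w x) = En0 D f + 2 * t * ∑ x ∈ D, f x * lap w x
      + t ^ 2 * ∑ x ∈ D, lap w x * w x := by
  have hs : ∑ x ∈ D, lap w x * w x = ∑ x ∈ D, w x * lap w x :=
    Finset.sum_congr rfl fun x _ => mul_comm _ _
  rw [hs, Law2_parts D f w hf hw, Law2_parts D w w hw hw]
  unfold En0 H
  have e1 : ∑ x ∈ D, (f x + t * w x) ^ 2 = ∑ x ∈ D, f x ^ 2 + 2 * t * ∑ x ∈ D, f x * w x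
      + t ^ 2 * ∑ x ∈ D, w x * w x := by
    rw [Finset.mul_sum, Finset.mul_sum, ← Finset.sum_add_distrib, ← Finset.sum_add_distrib]
    exact Finset.sum_congr rfl fun x _ => by ring
  have e2 : ∑ e ∈ Ed D, (f (src e) + t * w (src e)) * (f (tgt e) + t * w (tgt e))
      = ∑ e ∈ Ed D, f (src e) * f (tgt e)
        + t * ∑ e ∈ Ed D, (f (src e) * w (tgt e) + f (tgt e) * w (src e))
        + t ^ 2 * ∑ e ∈ Ed D, w (src e) * w (tgt e) := by
    rw [Finset.mul_sum, Finset.mul_sum, ← Finset.sum_add_distrib, ← Finset.sum_add_distrib]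
    exact Finset.sum_congr rfl fun x _ => by ring
  have e3 : ∑ e ∈ Ed D, (w (src e) * w (tgt e) + w (tgt e) * w (src e))
      = 2 * ∑ e ∈ Ed D, w (src e) * w (tgt e) := by
    rw [Finset.mul_sum]
    exact Finset.sum_congr rfl fun x _ => by ring
  rw [e1, e2, e3]
  ring

lemma Law2_ext_off (D : Finset Z2) (ξ : D → ℝ) (x : Z2) (hx : x ∉ D) : ext D 0 ξ x = 0 := by
  simp [ext, hx]

lemma Law2_ext_add (D : Finset Z2) (ξ : D → ℝ) (w : Z2 → ℝ) (hw : ∀ x, x ∉ D → w x = 0) (t : ℝ) :
    ext D 0 (ξ + fun x : D => t * w x) = fun x => ext D 0 ξ x + t * w x := by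
  funext x
  by_cases h : x ∈ D
  · simp [ext, h]
  · simp [ext, h, hw x h]

lemma Law2_mgf (hl : Stmt_leb) (D : Finset Z2) (w : Z2 → ℝ) (hw : ∀ x, x ∉ D → w x = 0) (t : ℝ) :
    ∫ f, Real.exp (t * lin D (lap w) f) * Real.exp (H (Ed D) f) ∂Gam
      = Real.exp (t ^ 2 * (∑ x ∈ D, lap w x * w x) / 2) * Zp (Ed D) := by
  have m1 : Measurable fun f : Z2 → ℝ => Real.exp (t * lin D (lap w) f) := by
    unfold lin; fun_prop
  have d1 : DepOn D fun f : Z2 → ℝ => Real.exp (t * lin D (lap w) f) := by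
    intro f f' h
    have : lin D (lap w) f = lin D (lap w) f' := by
      unfold lin
      exact Finset.sum_congr rfl fun x hx => by rw [h x hx]
    simp only [this]
  have h1 := hl D _ m1 d1
  have h2 := hl D (fun _ => (1 : ℝ)) measurable_const (fun _ _ _ => rfl)
  simp only [one_mul] at h2
  unfold Zp
  rw [h1, h2, ← MeasureTheory.integral_add_right_eq_self (μ := (volume : Measure (D → ℝ)))
    (fun ξ : D → ℝ => Real.exp (t * lin D (lap w) (ext D 0 ξ)) *
      Real.exp (-En0 D (ext D 0 ξ) / 2)) (fun x : D => t * w x),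
    mul_left_comm]
  refine congrArg (fun z : ℝ => Real.sqrt (2 / Real.pi) ^ D.card * z) ?_
  rw [← MeasureTheory.integral_const_mul]
  refine integral_congr_ae (Eventually.of_forall fun ξ => ?_)
  have hf := Law2_ext_off D ξ
  simp only
  rw [Law2_ext_add D ξ w hw t, Law2_En0 D _ w hf hw t, ← Real.exp_add, ← Real.exp_add]
  congr 1
  have l1 : lin D (lap w) (fun x => ext D 0 ξ x + t * w x)
      = ∑ x ∈ D, ext D 0 ξ x * lap w x + t * ∑ x ∈ D, lap w x * w x := by
    unfold lin
    rw [Finset.mul_sum, ← Finset.sum_add_distrib]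
    exact Finset.sum_congr rfl fun x _ => by ring
  rw [l1]
  ring

theorem law2 (hl : Stmt_leb) (hi : Stmt_int) : Stmt_law2 := by
  intro D w g hw hg
  have hZ : 0 < Zp (Ed D) := (hi D 0).2
  have mH : Measurable fun f : Z2 → ℝ => Real.exp (H (Ed D) f) := by
    unfold H; fun_prop
  have mL : Measurable fun f : Z2 → ℝ => lin D (lap w) f := by
    unfold lin; fun_prop
  have hint : Integrable (fun f : Z2 → ℝ => Real.exp (H (Ed D) f)) Gam := by
    by_contra h
    have : Zp (Ed D) = 0 := integral_undef h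
    exact hZ.ne' this
  set s : ℝ := ∑ x ∈ D, lap w x * w x with hs
  -- the Gaussian free field as a probability measure
  let ρ : (Z2 → ℝ) → ℝ := fun f => Real.exp (H (Ed D) f) / Zp (Ed D)
  have mρ : Measurable ρ := mH.div_const _
  have ρnn : ∀ f, 0 ≤ ρ f := fun f => div_nonneg (Real.exp_pos _).le hZ.le
  let μ : Measure (Z2 → ℝ) := Gam.withDensity fun f => ENNReal.ofReal (ρ f)
  have hμ : ∀ h : (Z2 → ℝ) → ℝ, ∫ f, h f ∂μ
      = (∫ f, h f * Real.exp (H (Ed D) f) ∂Gam) / Zp (Ed D) := by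
    intro h
    have : ∫ f, h f ∂μ = ∫ f, (ENNReal.ofReal (ρ f)).toReal • h f ∂Gam :=
      integral_withDensity_eq_integral_toReal_smul₀ (mρ.ennreal_ofReal.aemeasurable)
        (Eventually.of_forall fun f => ENNReal.ofReal_lt_top) h
    rw [this, ← integral_div]
    refine integral_congr_ae (Eventually.of_forall fun f => ?_)
    simp only [smul_eq_mul]
    rw [ENNReal.toReal_ofReal (ρnn f)]
    simp only [ρ]
    ring
  have hprob : IsProbabilityMeasure μ := by
    constructor
    simp only [μ]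
    rw [withDensity_apply _ MeasurableSet.univ, Measure.restrict_univ,
      ← ofReal_integral_eq_lintegral_ofReal (hint.div_const _) (Eventually.of_forall ρnn)]
    have : ∫ f, ρ f ∂Gam = 1 := by
      simp only [ρ]
      rw [integral_div]
      exact div_self hZ.ne'
    rw [this, ENNReal.ofReal_one]
  -- nonnegativity of `s`
  have hm : ∀ t : ℝ, mgf (fun f => lin D (lap w) f) μ t = Real.exp (t ^ 2 * s / 2) := by
    intro t
    unfold mgf
    rw [hμ, Law2_mgf hl D w hw t, mul_div_assoc, div_self hZ.ne', mul_one]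
  have hI : ∀ t : ℝ, Integrable (fun f => Real.exp (t * lin D (lap w) f)) μ := by
    intro t
    by_contra hc
    have h0 : mgf (fun f => lin D (lap w) f) μ t = 0 := mgf_undef hc
    rw [hm] at h0
    exact (Real.exp_pos _).ne' h0
  have hs0 : 0 ≤ s := by
    have h2 : (2 : ℝ) ≤ ∫ f, (Real.exp (1 * lin D (lap w) f)
        + Real.exp ((-1) * lin D (lap w) f)) ∂μ := by
      have h3 : ∫ _f : Z2 → ℝ, (2 : ℝ) ∂μ = 2 := by simp
      rw [← h3]
      refine integral_mono (integrable_const _) ((hI 1).add (hI (-1))) fun f => ?_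
      have h4 := Real.add_one_le_exp (1 * lin D (lap w) f)
      have h5 := Real.add_one_le_exp ((-1) * lin D (lap w) f)
      simp only
      linarith
    rw [integral_add (hI 1) (hI (-1))] at h2
    have h6 := hm 1
    have h7 := hm (-1)
    unfold mgf at h6 h7
    rw [h6, h7] at h2
    by_contra hneg
    push Not at hneg
    have h8 : Real.exp (1 ^ 2 * s / 2) < 1 := Real.exp_lt_one_iff.2 (by linarith)
    have h9 : Real.exp ((-1) ^ 2 * s / 2) < 1 := Real.exp_lt_one_iff.2 (by linarith)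
    linarith
  have hmgf : mgf (fun f => lin D (lap w) f) μ = mgf id (gaussianReal 0 (Real.toNNReal s)) := by
    funext t
    rw [mgf_id_gaussianReal, hm t]
    rw [Real.coe_toNNReal s hs0]
    congr 1
    ring
  have hset : integrableExpSet (fun f => lin D (lap w) f) μ = Set.univ := by
    ext t
    simp only [Set.mem_univ, iff_true]
    exact hI t
  have hc := eqOn_complexMGF_of_mgf hmgf
  rw [hset, interior_univ] at hc
  have hmap : μ.map (fun f => lin D (lap w) f) = (gaussianReal 0 (Real.toNNReal s)).map id := by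
    refine Measure.ext_of_complexMGF_eq mL.aemeasurable aemeasurable_id ?_
    funext z
    exact hc (by simp)
  rw [Measure.map_id] at hmap
  have hfin : gff D (fun f => g (lin D (lap w) f)) = ∫ f, g (lin D (lap w) f) ∂μ := by
    rw [hμ]
    rfl
  rw [hfin, ← hmap, integral_map mL.aemeasurable hg.aestronglyMeasurable]

end LSoup
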