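import Pool.Agent.LSoup.Law
import Pool.Agent.LSoup.Law2

/-!
# Green function of the Gaussian free field
-/

open MeasureTheory ProbabilityTheory Finset Filter Topology

open scoped Classical

noncomputable section

namespace LSoup

/-- symmetry of the Dirichlet form -/
lemma Green_symm (D : Finset Z2) (f w : Z2 → ℝ) (hf : ∀ x, x ∉ D → f x = 0)
    (hw : ∀ x, x ∉ D → w x = 0) :
    ∑ x ∈ D, f x * lap w x = ∑ x ∈ D, w x * lap f x := by
  rw [Law2_parts D f w hf hw, Law2_parts D w f hw hf]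
  have h1 : ∑ x ∈ D, f x * w x = ∑ x ∈ D, w x * f x :=
    Finset.sum_congr rfl fun x _ => mul_comm _ _
  have h2 : ∑ e ∈ Ed D, (f (src e) * w (tgt e) + f (tgt e) * w (src e))
      = ∑ e ∈ Ed D, (w (src e) * f (tgt e) + w (tgt e) * f (src e)) :=
    Finset.sum_congr rfl fun x _ => by ring
  rw [h1, h2]

lemma Green_shift_le (D : Finset Z2) (f : Z2 → ℝ) (a b : ℤ) :
    ∑ x ∈ D, (if ((x.1 + a, x.2 + b) : Z2) ∈ D then f (x.1 + a, x.2 + b) ^ 2 else 0)
      ≤ ∑ x ∈ D, f x ^ 2 := by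
  rw [← Finset.sum_filter]
  have hinj : Set.InjOn (fun x : Z2 => ((x.1 + a, x.2 + b) : Z2))
      (D.filter fun x : Z2 => ((x.1 + a, x.2 + b) : Z2) ∈ D) := by
    intro x _ y _ h
    simp only [Prod.mk.injEq] at h
    exact Prod.ext (by linarith [h.1]) (by linarith [h.2])
  rw [← Finset.sum_image (f := fun x : Z2 => f x ^ 2) hinj]
  refine Finset.sum_le_sum_of_subset_of_nonneg ?_ fun _ _ _ => sq_nonneg _
  intro y hy
  obtain ⟨x, hx, rfl⟩ := Finset.mem_image.1 hy
  exact (Finset.mem_filter.1 hx).2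

/-- the Dirichlet energy is nonnegative -/
lemma Green_En0_nonneg (D : Finset Z2) (f : Z2 → ℝ) : 0 ≤ En0 D f := by
  have h1 : 2 * H (Ed D) f ≤ ∑ e ∈ Ed D, (f (src e) ^ 2 + f (tgt e) ^ 2) := by
    unfold H
    rw [Finset.mul_sum]
    refine Finset.sum_le_sum fun e _ => ?_
    nlinarith [sq_nonneg (f (src e) - f (tgt e))]
  have h2 : ∑ e ∈ Ed D, (f (src e) ^ 2 + f (tgt e) ^ 2)
      ≤ ∑ x ∈ D, (f x ^ 2 + (if ((x.1 + 1, x.2 + 0) : Z2) ∈ D then f (x.1 + 1, x.2 + 0) ^ 2 else 0)
        + (f x ^ 2 + (if ((x.1 + 0, x.2 + 1) : Z2) ∈ D then f (x.1 + 0, x.2 + 1) ^ 2 else 0))) := by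
    unfold Ed
    rw [Finset.sum_filter, Finset.sum_product]
    refine Finset.sum_le_sum fun x _ => ?_
    rw [Fintype.sum_bool]
    refine add_le_add ?_ ?_
    · by_cases h : ((x.1 + 1, x.2) : Z2) ∈ D
      · simp [src, tgt, h]
      · simp [tgt, h, sq_nonneg]
    · by_cases h : ((x.1, x.2 + 1) : Z2) ∈ D
      · simp [src, tgt, h]
      · simp [tgt, h, sq_nonneg]
  simp only [Finset.sum_add_distrib] at h1 h2
  have h3 := Green_shift_le D f 1 0
  have h4 := Green_shift_le D f 0 1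
  unfold En0
  linarith

lemma Green_En0_eq (D : Finset Z2) (w : Z2 → ℝ) (hw : ∀ x, x ∉ D → w x = 0) :
    En0 D w = ∑ x ∈ D, w x * lap w x := by
  rw [Law2_parts D w w hw hw]
  unfold En0 H
  have e1 : ∑ x ∈ D, w x ^ 2 = ∑ x ∈ D, w x * w x :=
    Finset.sum_congr rfl fun x _ => by ring
  have e3 : ∑ e ∈ Ed D, (w (src e) * w (tgt e) + w (tgt e) * w (src e))
      = 2 * ∑ e ∈ Ed D, w (src e) * w (tgt e) := by
    rw [Finset.mul_sum]
    exact Finset.sum_congr rfl fun x _ => by ring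
  rw [e1, e3]

lemma Green_abs_lin (D : Finset Z2) (u f : Z2 → ℝ) :
    |lin D u f| ≤ Real.exp ((∑ x ∈ D, |u x|) * ∑ x ∈ D, |f x|) := by
  have h1 : |lin D u f| ≤ (∑ x ∈ D, |u x|) * ∑ x ∈ D, |f x| := by
    unfold lin
    calc |∑ x ∈ D, u x * f x| ≤ ∑ x ∈ D, |u x * f x| := Finset.abs_sum_le_sum_abs _ _
      _ ≤ ∑ x ∈ D, |u x| * ∑ y ∈ D, |f y| := by
        refine Finset.sum_le_sum fun x hx => ?_
        rw [abs_mul]
        refine mul_le_mul_of_nonneg_left ?_ (abs_nonneg _)
        exact Finset.single_le_sum (f := fun y => |f y|) (fun _ _ => abs_nonneg _) hx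
      _ = (∑ x ∈ D, |u x|) * ∑ x ∈ D, |f x| := by rw [Finset.sum_mul]
  have h2 := Real.add_one_le_exp ((∑ x ∈ D, |u x|) * ∑ x ∈ D, |f x|)
  linarith

lemma Green_int (hi : Stmt_int) (D : Finset Z2) (u v : Z2 → ℝ) :
    Integrable (fun f : Z2 → ℝ => lin D u f * lin D v f * Real.exp (H (Ed D) f)) Gam := by
  set b : ℝ := (∑ x ∈ D, |u x|) + ∑ x ∈ D, |v x| with hb
  refine Integrable.mono' (hi D b).1 ?_ (Eventually.of_forall fun f => ?_)
  · have : Measurable (fun f : Z2 → ℝ => lin D u f * lin D v f * Real.exp (H (Ed D) f)) := by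
      unfold lin H; fun_prop
    exact this.aestronglyMeasurable
  · rw [Real.norm_eq_abs, abs_mul, abs_mul, Real.abs_exp, add_comm, Real.exp_add, hb, add_mul,
      Real.exp_add]
    refine mul_le_mul (mul_le_mul (Green_abs_lin D u f) (Green_abs_lin D v f) (abs_nonneg _)
      (Real.exp_pos _).le) (Real.exp_le_exp.2 ?_) (Real.exp_pos _).le (by positivity)
    unfold H
    exact Finset.sum_le_sum fun e _ => le_abs_self _

lemma Green_Cov_add (hi : Stmt_int) (D : Finset Z2) (u v : Z2 → ℝ) :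
    Cov D (u + v) (u + v) = Cov D u u + 2 * Cov D u v + Cov D v v := by
  have i1 := Green_int hi D u u
  have i2 := Green_int hi D u v
  have i3 := Green_int hi D v v
  unfold Cov gff
  have : ∫ f, lin D (u + v) f * lin D (u + v) f * Real.exp (H (Ed D) f) ∂Gam
      = ∫ f, lin D u f * lin D u f * Real.exp (H (Ed D) f) ∂Gam
        + 2 * ∫ f, lin D u f * lin D v f * Real.exp (H (Ed D) f) ∂Gam
        + ∫ f, lin D v f * lin D v f * Real.exp (H (Ed D) f) ∂Gam := by
    have e1 : ∫ f, (lin D u f * lin D u f * Real.exp (H (Ed D) f)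
        + 2 * (lin D u f * lin D v f * Real.exp (H (Ed D) f))) ∂Gam
        = ∫ f, lin D u f * lin D u f * Real.exp (H (Ed D) f) ∂Gam
        + 2 * ∫ f, lin D u f * lin D v f * Real.exp (H (Ed D) f) ∂Gam := by
      rw [integral_add i1 (i2.const_mul 2), integral_const_mul]
    rw [← e1, ← integral_add (f := fun f => lin D u f * lin D u f * Real.exp (H (Ed D) f)
        + 2 * (lin D u f * lin D v f * Real.exp (H (Ed D) f))) (i1.add (i2.const_mul 2)) i3]
    refine integral_congr_ae (Eventually.of_forall fun f => ?_)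
    have h1 : lin D (u + v) f = lin D u f + lin D v f := by
      unfold lin
      rw [← Finset.sum_add_distrib]
      exact Finset.sum_congr rfl fun x _ => by simp [add_mul]
    simp only [h1]
    ring
  rw [this]
  ring

lemma Green_Cov_self (hl : Stmt_law2) (D : Finset Z2) (u w : Z2 → ℝ)
    (hw : ∀ x, x ∉ D → w x = 0) (hu : ∀ x ∈ D, lap w x = u x) :
    Cov D u u = ∑ x ∈ D, u x * w x := by
  have hlin : ∀ f, lin D u f = lin D (lap w) f := by
    intro f
    unfold lin
    exact Finset.sum_congr rfl fun x hx => by rw [hu x hx]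
  have h1 := hl D w (fun x => x * x) hw (by fun_prop)
  rw [Law_second_moment] at h1
  have h2 : ∑ x ∈ D, lap w x * w x = En0 D w := by
    rw [Green_En0_eq D w hw]
    exact Finset.sum_congr rfl fun x _ => mul_comm _ _
  have h3 : 0 ≤ ∑ x ∈ D, lap w x * w x := by rw [h2]; exact Green_En0_nonneg D w
  rw [Real.coe_toNNReal _ h3] at h1
  unfold Cov
  simp only [hlin]
  rw [h1]
  exact Finset.sum_congr rfl fun x hx => by rw [hu x hx]

lemma Green_Cov (hl : Stmt_law2) (hi : Stmt_int) (D : Finset Z2) (u v w w' : Z2 → ℝ)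
    (hw : ∀ x, x ∉ D → w x = 0) (hu : ∀ x ∈ D, lap w x = u x)
    (hw' : ∀ x, x ∉ D → w' x = 0) (hv : ∀ x ∈ D, lap w' x = v x) :
    Cov D u v = ∑ x ∈ D, v x * w x := by
  have h1 := Green_Cov_self hl D u w hw hu
  have h2 := Green_Cov_self hl D v w' hw' hv
  have h3 := Green_Cov_self hl D (u + v) (w + w')
    (fun x hx => by simp [hw x hx, hw' x hx])
    (fun x hx => by
      have : lap (w + w') x = lap w x + lap w' x := by
        simp only [lap, Pi.add_apply]
        ring
      rw [this, hu x hx, hv x hx]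
      rfl)
  rw [Green_Cov_add hi] at h3
  have h4 : ∑ x ∈ D, (u + v) x * (w + w') x = ∑ x ∈ D, u x * w x + ∑ x ∈ D, v x * w' x
      + ∑ x ∈ D, u x * w' x + ∑ x ∈ D, v x * w x := by
    simp only [← Finset.sum_add_distrib]
    exact Finset.sum_congr rfl fun x _ => by simp only [Pi.add_apply]; ring
  have h5 : ∑ x ∈ D, u x * w' x = ∑ x ∈ D, v x * w x := by
    have := Green_symm D w' w hw' hw
    calc ∑ x ∈ D, u x * w' x = ∑ x ∈ D, w' x * lap w x :=
          Finset.sum_congr rfl fun x hx => by rw [hu x hx]; ring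
      _ = ∑ x ∈ D, w x * lap w' x := this
      _ = ∑ x ∈ D, v x * w x := Finset.sum_congr rfl fun x hx => by rw [hv x hx]; ring
  linarith

theorem green (hl : Stmt_law2) (hs : Stmt_solve) (hi : Stmt_int) : Stmt_green := by
  intro D u
  obtain ⟨w, hw, hu, hpos⟩ := hs D u
  have hcov : ∀ v : Z2 → ℝ, Cov D u v = ∑ x ∈ D, v x * w x := by
    intro v
    obtain ⟨w', hw', hv, -⟩ := hs D v
    exact Green_Cov hl hi D u v w w' hw hu hw' hv
  have hpt : ∀ z ∈ D, gff D (fun f => lin D u f * f z) = w z := by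
    intro z hz
    have h1 := hcov fun x => if x = z then 1 else 0
    have h2 : ∑ x ∈ D, (if x = z then (1 : ℝ) else 0) * w x = w z := by
      simp [Finset.sum_ite_eq', hz]
    rw [h2] at h1
    rw [← h1]
    unfold Cov
    congr 1
    funext f
    have h3 : lin D (fun x => if x = z then 1 else 0) f = f z := by
      unfold lin
      simp [hz]
    rw [h3]
  refine ⟨fun z hz => ?_, fun h z hz => ?_, fun v => ?_⟩
  · have : (fun x => if x ∈ D then gff D (fun f => lin D u f * f x) else 0) = w := by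
      funext x
      by_cases hx : x ∈ D
      · rw [if_pos hx, hpt x hx]
      · rw [if_neg hx, hw x hx]
    rw [this]
    exact hu z hz
  · rw [hpt z hz]
    exact hpos h z
  · rw [hcov v]
    exact Finset.sum_congr rfl fun x hx => by rw [hpt x hx]

end LSoup
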