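import Pool.Agent.LSoup.Stmts2

/-!
# Adding loops of intensity `d` (A8)
-/

open MeasureTheory ProbabilityTheory Finset Filter Topology

open scoped Classical

noncomputable section

namespace LSoup

namespace HazAux

theorem Joined.symm {O : Finset Edge} {x y : Z2} (h : Joined O x y) : Joined O y x := by
  obtain ⟨e, he, h | h⟩ := h
  · exact ⟨e, he, Or.inr h⟩
  · exact ⟨e, he, Or.inl h⟩

theorem Conn.symm {O : Finset Edge} {x y : Z2} (h : Conn O x y) : Conn O y x := by
  unfold Conn at h ⊢
  induction h with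
  | refl => exact Relation.ReflTransGen.refl
  | tail _ h2 ih => exact Relation.ReflTransGen.head (Joined.symm h2) ih

theorem Conn.mono {O O' : Finset Edge} (hO : O ⊆ O') {x y : Z2} (h : Conn O x y) :
    Conn O' x y := by
  unfold Conn at h ⊢
  induction h with
  | refl => exact Relation.ReflTransGen.refl
  | tail _ h2 ih =>
    obtain ⟨e, he, h'⟩ := h2
    exact ih.tail ⟨e, hO he, h'⟩

theorem Conn.trans {O : Finset Edge} {x y z : Z2} (h : Conn O x y) (h' : Conn O y z) :
    Conn O x z := Relation.ReflTransGen.trans h h'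

/-- the edges of an open loop are open -/
theorem chain_open {D : Finset Z2} {c : List Z2 → ℕ} {l : List Z2} (hl : IsLoopIn (Ed D) l)
    (hc : 0 < c l) : ∀ (m l1 : List Z2), l ++ l.take 1 = l1 ++ m →
      List.IsChain (Joined (openE D c)) m := by
  intro m
  induction m with
  | nil => intro l1 _; exact List.isChain_nil
  | cons x m ih =>
    intro l1 h
    cases m with
    | nil => exact List.isChain_singleton x
    | cons y m =>
      rw [List.isChain_cons_cons]
      refine ⟨?_, ih (l1 ++ [x]) (by rw [h]; simp)⟩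
      have h1 : List.IsChain (Joined (Ed D)) (l1 ++ x :: y :: m) := h ▸ hl.2
      have h2 : List.IsChain (Joined (Ed D)) (x :: y :: m) := (List.isChain_append.1 h1).2.1
      obtain ⟨e, he, h3⟩ := (List.isChain_cons_cons.1 h2).1
      refine ⟨e, ?_, h3⟩
      unfold openE
      rw [Finset.mem_filter]
      refine ⟨he, l, hc, hl, ?_⟩
      rcases h3 with ⟨h3, h4⟩ | ⟨h3, h4⟩
      · exact ⟨l1, m, Or.inl (by rw [h, h3, h4])⟩
      · exact ⟨l1, m, Or.inr (by rw [h, h3, h4])⟩

theorem chain_conn {O : Finset Edge} : ∀ (m : List Z2) (x : Z2),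
    List.IsChain (Joined O) (x :: m) → ∀ y ∈ x :: m, Conn O x y := by
  intro m
  induction m with
  | nil =>
    intro x _ y hy
    rw [List.mem_singleton] at hy
    subst hy
    exact Relation.ReflTransGen.refl
  | cons z m ih =>
    intro x h y hy
    rw [List.isChain_cons_cons] at h
    rcases List.mem_cons.1 hy with hy | hy
    · subst hy
      exact Relation.ReflTransGen.refl
    · exact Relation.ReflTransGen.head h.1 (ih z h.2 y hy)

theorem loop_conn {D : Finset Z2} {c : List Z2 → ℕ} {l : List Z2} (hl : IsLoopIn (Ed D) l)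
    (hc : 0 < c l) {x y : Z2} (hx : x ∈ l) (hy : y ∈ l) : Conn (openE D c) x y := by
  have h := chain_open hl hc (l ++ l.take 1) [] rfl
  cases l with
  | nil => exact absurd hx List.not_mem_nil
  | cons z m =>
    have h1 : ∀ w ∈ z :: m, Conn (openE D c) z w := by
      intro w hw
      refine chain_conn _ z h w ?_
      rcases List.mem_cons.1 hw with hw | hw
      · exact List.mem_cons.2 (Or.inl hw)
      · exact List.mem_cons.2 (Or.inr (List.mem_append_left _ hw))
    exact Conn.trans (Conn.symm (h1 x hx)) (h1 y hy)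

end HazAux

open HazAux in
theorem haz (hc : Stmt_conv) (hv : Stmt_void) (hd : Stmt_dis) (hp : Stmt_prob) : Stmt_haz := by
  intro D S T t d ht hdd hS hT
  rw [hd D S T (t + d) (add_nonneg ht hdd) hS hT, hc D t d _ ht hdd]
  unfold Ex
  refine Finset.sum_le_sum fun O hO => ?_
  have h0 : ∑ O' ∈ (Ed D).powerset, pr D t O * pr D d O' *
      (if Disjoint (KO D (O ∪ O') S) T then 1 else 0)
      = pr D t O * ∑ O' ∈ (Ed D).powerset, pr D d O' *
        (if Disjoint (KO D (O ∪ O') S) T then 1 else 0) := by
    rw [Finset.mul_sum]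
    refine Finset.sum_congr rfl fun O' _ => ?_
    ring
  rw [h0]
  refine mul_le_mul_of_nonneg_left ?_ ((hp D t ht).2.1 O)
  show _ ≤ if Disjoint (KO D O S) T then Real.exp (-d * hitM D (KO D O S) (KO D O T)) else 0
  by_cases hdis : Disjoint (KO D O S) T
  · rw [if_pos hdis]
    have h1 := (hp D d hdd).2.2.2 {O' | Disjoint (KO D (O ∪ O') S) T}
    unfold Ex at h1
    beta_reduce at h1
    have h2 : ∑ O' ∈ (Ed D).powerset, pr D d O' *
        (if Disjoint (KO D (O ∪ O') S) T then 1 else 0)
        = (soup D d).real {c | openE D c ∈ {O' : Finset Edge | Disjoint (KO D (O ∪ O') S) T}} := by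
      rw [h1]
      refine Finset.sum_congr rfl fun O' _ => ?_
      congr 1
      by_cases h3 : Disjoint (KO D (O ∪ O') S) T
      · rw [if_pos h3]
        exact (if_pos h3).symm
      · rw [if_neg h3]
        exact (if_neg h3).symm
    rw [h2]
    have h5 : Real.exp (-d * hitM D (KO D O S) (KO D O T))
        = (soup D d).real {c | ∀ l ∈ {l : List Z2 |
          IsLoopIn (Ed D) l ∧ (∃ x ∈ l, x ∈ KO D O S) ∧ (∃ x ∈ l, x ∈ KO D O T)}, c l = 0} := by
      rw [hv D d _ hdd]
      unfold hitM
      congr 3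
      funext l
      by_cases h6 : IsLoopIn (Ed D) l ∧ (∃ x ∈ l, x ∈ KO D O S) ∧ (∃ x ∈ l, x ∈ KO D O T)
      · rw [if_pos h6, if_pos ⟨h6.1, h6⟩]
      · rw [if_neg h6, if_neg (fun h7 => h6 h7.2)]
    rw [h5]
    haveI : IsFiniteMeasure (soup D d) := by
      unfold soup
      infer_instance
    refine measureReal_mono ?_
    intro c hc' l hl
    rw [Set.mem_setOf_eq] at hc' hl
    by_contra hne
    have hpos : 0 < c l := Nat.pos_of_ne_zero hne
    obtain ⟨hloop, ⟨x, hx, hxS⟩, ⟨y, hy, hyT⟩⟩ := hl
    have hxy := loop_conn hloop hpos hx hy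
    unfold KO at hxS hyT
    rw [Finset.mem_filter] at hxS hyT
    obtain ⟨_, b, hb, hbx⟩ := hxS
    obtain ⟨_, b', hb', hby⟩ := hyT
    have h8 : Conn (O ∪ openE D c) b b' :=
      Conn.trans (Conn.trans (Conn.mono Finset.subset_union_left hbx)
        (Conn.mono Finset.subset_union_right hxy))
        (Conn.symm (Conn.mono Finset.subset_union_left hby))
    have h9 : Disjoint (KO D (O ∪ openE D c) S) T := hc'
    rw [Finset.disjoint_left] at h9
    refine h9 ?_ hb'
    unfold KO
    rw [Finset.mem_filter]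
    exact ⟨hT hb', b, hb, h8⟩
  · rw [if_neg hdis]
    refine le_of_eq (Finset.sum_eq_zero fun O' _ => ?_)
    rw [if_neg, mul_zero]
    intro h1
    apply hdis
    rw [Finset.disjoint_left] at h1 ⊢
    intro z hz
    refine h1 ?_
    unfold KO at hz ⊢
    rw [Finset.mem_filter] at hz ⊢
    obtain ⟨h2, b, hb, h3⟩ := hz
    exact ⟨h2, b, hb, Conn.mono Finset.subset_union_left h3⟩

end LSoup
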