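import Pool.Agent.LSoup.Stmts2

/-!
Loops that hit two sets, in terms of loop masses.
-/

open MeasureTheory ProbabilityTheory Finset Filter Topology

open scoped Classical

noncomputable section

namespace LSoup

theorem joined_mono_of_inc {O O' : Finset Edge} (h : O ⊆ O') {x y : Z2} (hj : Joined O x y) :
    Joined O' x y := by
  obtain ⟨e, he, h'⟩ := hj
  exact ⟨e, h he, h'⟩

theorem mem_Ed_iff_inc {D : Finset Z2} {e : Edge} : e ∈ Ed D ↔ src e ∈ D ∧ tgt e ∈ D := by
  unfold Ed src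
  simp [Finset.mem_filter, Finset.mem_product]

theorem joined_Ed_left_inc {D : Finset Z2} {x y : Z2} (h : Joined (Ed D) x y) : x ∈ D := by
  obtain ⟨e, he, h'⟩ := h
  rw [mem_Ed_iff_inc] at he
  rcases h' with ⟨h1, h2⟩ | ⟨h1, h2⟩
  · rw [← h1]; exact he.1
  · rw [← h2]; exact he.2

theorem joined_sdiff_inc {D K : Finset Z2} {x y : Z2} (h : Joined (Ed D) x y) (hx : x ∉ K)
    (hy : y ∉ K) : Joined (Ed (D \ K)) x y := by
  obtain ⟨e, he, h'⟩ := h
  rw [mem_Ed_iff_inc] at he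
  refine ⟨e, ?_, h'⟩
  rw [mem_Ed_iff_inc, Finset.mem_sdiff, Finset.mem_sdiff]
  rcases h' with ⟨h1, h2⟩ | ⟨h1, h2⟩
  · exact ⟨⟨he.1, by rw [h1]; exact hx⟩, ⟨he.2, by rw [h2]; exact hy⟩⟩
  · exact ⟨⟨he.1, by rw [h1]; exact hy⟩, ⟨he.2, by rw [h2]; exact hx⟩⟩

/-- in a chain that continues after `l`, each element of `l` satisfies the left property -/
theorem chain_left_inc {R : Z2 → Z2 → Prop} {P : Z2 → Prop} (hR : ∀ x y, R x y → P x) :
    ∀ (l m : List Z2), m ≠ [] → List.IsChain R (l ++ m) → ∀ x ∈ l, P x := by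
  intro l
  induction l with
  | nil => intro m _ _ x hx; simp at hx
  | cons a l ih =>
    intro m hm hc x hx
    have hc' : List.IsChain R (a :: (l ++ m)) := by simpa using hc
    have hne : l ++ m ≠ [] := by simp [hm]
    obtain ⟨b, t, hbt⟩ := List.exists_cons_of_ne_nil hne
    rw [hbt] at hc'
    rw [List.isChain_cons_cons] at hc'
    rcases List.mem_cons.1 hx with rfl | hx
    · exact hR _ _ hc'.1
    · refine ih m hm ?_ x hx
      rw [hbt]; exact hc'.2

theorem isLoopIn_sdiff_inc {D K : Finset Z2} {l : List Z2} :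
    IsLoopIn (Ed (D \ K)) l ↔ IsLoopIn (Ed D) l ∧ ∀ x ∈ l, x ∉ K := by
  constructor
  · rintro ⟨hne, hc⟩
    have hm : l.take 1 ≠ [] := by
      cases l with
      | nil => exact absurd rfl hne
      | cons a t => simp
    refine ⟨⟨hne, hc.imp fun x y h => ?_⟩, ?_⟩
    · refine joined_mono_of_inc ?_ h
      intro e he
      rw [mem_Ed_iff_inc] at he ⊢
      exact ⟨(Finset.mem_sdiff.1 he.1).1, (Finset.mem_sdiff.1 he.2).1⟩
    · have := chain_left_inc (P := fun x => x ∉ K)
        (fun x y h => (Finset.mem_sdiff.1 (joined_Ed_left_inc h)).2) l (l.take 1) hm hc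
      exact this
  · rintro ⟨⟨hne, hc⟩, hK⟩
    refine ⟨hne, ?_⟩
    have hall : ∀ x ∈ l ++ l.take 1, x ∉ K := by
      intro x hx
      rcases List.mem_append.1 hx with hx | hx
      · exact hK x hx
      · exact hK x (List.mem_of_mem_take hx)
    clear hK hne
    revert hc hall
    generalize l ++ l.take 1 = L
    intro hc hall
    induction L with
    | nil => exact List.isChain_nil
    | cons a t ih =>
      cases t with
      | nil => exact List.isChain_singleton _
      | cons b t =>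
        rw [List.isChain_cons_cons] at hc ⊢
        refine ⟨joined_sdiff_inc hc.1 (hall a (by simp)) (hall b (by simp)), ih hc.2 ?_⟩
        intro x hx
        exact hall x (by simp only [List.mem_cons] at hx ⊢; tauto)

theorem incl (hs : Stmt_sum) : Stmt_incl := by
  intro D K K' hK hK'
  have s0 := hs D
  have s1 := hs (D \ K)
  have s2 := hs (D \ K')
  have s3 := hs (D \ (K ∪ K'))
  unfold Ms hitM
  rw [← Summable.tsum_sub s0 s1, ← Summable.tsum_sub (s0.sub s1) s2,
    ← Summable.tsum_add ((s0.sub s1).sub s2) s3]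
  refine tsum_congr fun l => ?_
  simp only [isLoopIn_sdiff_inc]
  have e1 : (∀ x ∈ l, x ∉ K) ↔ ¬ ∃ x ∈ l, x ∈ K := by push Not; rfl
  have e2 : (∀ x ∈ l, x ∉ K') ↔ ¬ ∃ x ∈ l, x ∈ K' := by push Not; rfl
  have e3 : (∀ x ∈ l, x ∉ K ∪ K') ↔ (¬ ∃ x ∈ l, x ∈ K) ∧ ¬ ∃ x ∈ l, x ∈ K' := by
    rw [← e1, ← e2]
    simp only [Finset.mem_union, not_or]
    exact ⟨fun h => ⟨fun x hx => (h x hx).1, fun x hx => (h x hx).2⟩,
      fun h x hx => ⟨h.1 x hx, h.2 x hx⟩⟩
  simp only [e1, e2, e3]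
  by_cases hD : IsLoopIn (Ed D) l <;> by_cases h1 : ∃ x ∈ l, x ∈ K <;>
    by_cases h2 : ∃ x ∈ l, x ∈ K' <;> simp [hD, h1, h2]

end LSoup
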