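import Pool.Agent.LSoup.Stmts

/-!
# Module A11: independence of disjoint regions
-/

open MeasureTheory ProbabilityTheory Finset Filter Topology

open scoped Classical

noncomputable section

namespace LSoup

namespace IndepAux

/-- the sigma-algebra of one coordinate -/
@[reducible] def cm (l : List Z2) : MeasurableSpace (List Z2 → ℕ) :=
  MeasurableSpace.comap (fun c => c l) inferInstance

theorem meas_of_dep (S : Set (List Z2)) (E : Set (List Z2 → ℕ)) (hE : MeasurableSet E)
    (h : ∀ c c' : List Z2 → ℕ, (∀ l ∈ S, c l = c' l) → (c ∈ E ↔ c' ∈ E)) :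
    MeasurableSet[⨆ l ∈ S, cm l] E := by
  set r : (List Z2 → ℕ) → (List Z2 → ℕ) := fun c l => if l ∈ S then c l else 0 with hr
  have hEr : E = r ⁻¹' E := by
    ext c
    rw [Set.mem_preimage]
    refine h c (r c) fun l hl => ?_
    simp only [hr, if_pos hl]
  rw [hEr]
  have hrm : @Measurable _ _ (⨆ l ∈ S, cm l) MeasurableSpace.pi r := by
    refine @measurable_pi_lambda _ _ _ (⨆ l ∈ S, cm l) _ _ fun l => ?_
    by_cases hl : l ∈ S
    · have : (fun c => r c l) = fun c : List Z2 → ℕ => c l := by
        funext c
        simp only [hr, if_pos hl]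
      rw [this]
      have h1 : @Measurable _ _ (cm l) _ (fun c : List Z2 → ℕ => c l) :=
        comap_measurable _
      exact h1.mono (le_iSup₂_of_le l hl le_rfl) le_rfl
    · have : (fun c => r c l) = fun c : List Z2 → ℕ => 0 := by
        funext c
        simp only [hr, if_neg hl]
      rw [this]
      exact @measurable_const _ _ _ (⨆ l ∈ S, cm l) _
  exact hrm hE

theorem no_common_loop {R R' : Finset Z2} (h : Disjoint R R') (l : List Z2)
    (h1 : IsLoopIn (Ed R) l) (h2 : IsLoopIn (Ed R') l) : False := by
  have key : ∀ R : Finset Z2, IsLoopIn (Ed R) l → ∀ x ∈ l.head?, x ∈ R := by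
    intro R hR x hx
    obtain ⟨hne, hch⟩ := hR
    match l, hne with
    | y :: t, _ =>
      simp only [List.head?_cons, Option.mem_def, Option.some.injEq] at hx
      subst hx
      have : ∃ z, Joined (Ed R) y z := by
        cases t with
        | nil =>
          simp only [List.take_succ_cons, List.take_zero, List.cons_append, List.nil_append,
            List.isChain_cons_cons] at hch
          exact ⟨_, hch.1⟩
        | cons z t =>
          simp only [List.cons_append, List.isChain_cons_cons] at hch
          exact ⟨_, hch.1⟩
      obtain ⟨z, e, he, h'⟩ := this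
      simp only [Ed, Finset.mem_filter, Finset.mem_product, Finset.mem_univ, and_true] at he
      rcases h' with ⟨ha, _⟩ | ⟨_, ha⟩
      · rw [← ha]; exact he.1
      · rw [← ha]; exact he.2
  match l, h1.1 with
  | y :: t, _ =>
    exact (Finset.disjoint_left.1 h) (key R h1 y rfl) (key R' h2 y rfl)

end IndepAux

open IndepAux

theorem indep : Stmt_indep := by
  intro D R R' a E E' _ hd hE hE' hdep hdep'
  set S : Set (List Z2) := {l | IsLoopIn (Ed R) l} with hS
  set S' : Set (List Z2) := {l | IsLoopIn (Ed R') l} with hS'
  have hSS : Disjoint S S' := by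
    rw [Set.disjoint_left]
    intro l hl hl'
    exact no_common_loop hd l hl hl'
  have hi : iIndep cm (soup D a) := by
    have h1 : iIndepFun (fun (l : List Z2) (c : List Z2 → ℕ) => c l) (soup D a) := by
      unfold soup
      exact iIndepFun_infinitePi (X := fun _ ω => ω) (fun _ => measurable_id)
    exact h1
  have hI := indep_iSup_of_disjoint (m := cm) (fun l => (measurable_pi_apply l).comap_le) hi hSS
  have h3 := (Indep_iff _ _ _).1 hI E E' (meas_of_dep S E hE fun c c' h => hdep c c' fun l hl => h l hl)
    (meas_of_dep S' E' hE' fun c c' h => hdep' c c' fun l hl => h l hl)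
  rw [Measure.real, h3, ENNReal.toReal_mul]
  rfl

end LSoup
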