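import Pool.Agent.LSoup.Stmts

/-!
# Integrability of the exponential weights
-/

open MeasureTheory ProbabilityTheory Finset Filter Topology

open scoped Classical

noncomputable section

namespace LSoup

theorem Int_one (c b : ℝ) (hc : 0 < c) :
    Integrable (fun x : ℝ => Real.exp ((2 - c / 2) * x ^ 2 + b * |x|)) (gaussianReal 0 (1 / 4)) := by
  rw [gaussianReal_of_var_ne_zero _ (by norm_num)]
  rw [integrable_withDensity_iff_integrable_smul' (measurable_gaussianPDF _ _)
    (by simp [gaussianPDF])]
  have h1 : Integrable (fun x : ℝ => (Real.sqrt (2 * Real.pi * (1 / 4)))⁻¹ *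
      (Real.exp (b ^ 2 / c) * Real.exp (-(c / 4) * x ^ 2))) volume := by
    exact ((integrable_exp_neg_mul_sq (by positivity)).const_mul _).const_mul _
  refine h1.mono' ?_ ?_
  · refine Measurable.aestronglyMeasurable ?_
    have := measurable_gaussianPDF (0 : ℝ) (1 / 4)
    exact (this.ennreal_toReal).smul (by fun_prop)
  · refine Filter.Eventually.of_forall fun x => ?_
    rw [toReal_gaussianPDF, gaussianPDFReal, smul_eq_mul, Real.norm_of_nonneg (by positivity)]
    rw [mul_assoc, ← Real.exp_add, ← Real.exp_add]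
    have hv : (((1 / 4 : NNReal)) : ℝ) = 1 / 4 := by norm_num
    rw [hv]
    refine mul_le_mul_of_nonneg_left ?_ (by positivity)
    apply Real.exp_le_exp.2
    have h2 : b * |x| ≤ b ^ 2 / c + c / 4 * x ^ 2 := by
      have h3 : 0 ≤ (b / c - |x| / 2) ^ 2 * c := by positivity
      have h4 : (b / c - |x| / 2) ^ 2 * c = b ^ 2 / c - b * |x| + c / 4 * |x| ^ 2 := by
        field_simp
        ring
      rw [sq_abs] at h4
      linarith
    have h5 : -(x - 0) ^ 2 / (2 * (1 / 4)) = -2 * x ^ 2 := by ring
    rw [h5]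
    nlinarith [h2]

theorem Int_H_abs (D : Finset Z2) (f : Z2 → ℝ) :
    H (Ed D) (fun x => |f x|) = ∑ e ∈ Ed D, Jf f e := by
  unfold H Jf
  refine Finset.sum_congr rfl fun e _ => ?_
  rw [abs_mul]

theorem Int_prod (D : Finset Z2) (c b : ℝ) (hc : 0 < c) :
    Integrable (fun f : Z2 → ℝ => ∏ x ∈ D, Real.exp ((2 - c / 2) * f x ^ 2 + b * |f x|)) Gam := by
  have h1 : Integrable (fun g : D → ℝ => ∏ x : D, Real.exp ((2 - c / 2) * g x ^ 2 + b * |g x|))
      (Measure.pi fun _ : D => gaussianReal 0 (1 / 4)) :=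
    Integrable.fintype_prod (f := fun _ : D => fun x : ℝ =>
      Real.exp ((2 - c / 2) * x ^ 2 + b * |x|)) (fun _ => Int_one c b hc)
  have h2 : (Gam).map (Finset.restrict D) = Measure.pi fun _ : D => gaussianReal 0 (1 / 4) :=
    Measure.infinitePi_map_restrict _
  rw [← h2] at h1
  have h3 := h1.comp_measurable (Finset.measurable_restrict D)
  refine h3.congr (Filter.Eventually.of_forall fun f => ?_)
  simp only [Function.comp]
  exact Finset.prod_coe_sort D fun x => Real.exp ((2 - c / 2) * f x ^ 2 + b * |f x|)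

theorem int_ (hg : Stmt_gap) : Stmt_int := by
  intro D b
  obtain ⟨c, hc, hc4, hgap⟩ := hg D
  have hmeas : Measurable fun f : Z2 → ℝ => Real.exp (∑ e ∈ Ed D, Jf f e + b * ∑ x ∈ D, |f x|) := by
    unfold Jf
    fun_prop
  have key : ∀ f : Z2 → ℝ, ∑ e ∈ Ed D, Jf f e ≤ (2 - c / 2) * ∑ x ∈ D, f x ^ 2 := by
    intro f
    have h := hgap fun x => |f x|
    rw [Int_H_abs] at h
    simp only [sq_abs] at h
    have h' := le_abs_self (∑ e ∈ Ed D, Jf f e)
    linarith
  have h1 : Integrable (fun f : Z2 → ℝ =>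
      Real.exp (∑ e ∈ Ed D, Jf f e + b * ∑ x ∈ D, |f x|)) Gam := by
    refine (Int_prod D c b hc).mono' hmeas.aestronglyMeasurable ?_
    refine Filter.Eventually.of_forall fun f => ?_
    rw [Real.norm_of_nonneg (by positivity), ← Real.exp_sum, Finset.sum_add_distrib,
      ← Finset.mul_sum, ← Finset.mul_sum]
    apply Real.exp_le_exp.2
    linarith [key f]
  refine ⟨h1, ?_⟩
  unfold Zp
  have hint : Integrable (fun f : Z2 → ℝ => Real.exp (H (Ed D) f)) Gam := by
    have h0 : Integrable (fun f : Z2 → ℝ =>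
        Real.exp (∑ e ∈ Ed D, Jf f e + 0 * ∑ x ∈ D, |f x|)) Gam := by
      refine (Int_prod D c 0 hc).mono' ?_ ?_
      · refine Measurable.aestronglyMeasurable ?_
        unfold Jf
        fun_prop
      · refine Filter.Eventually.of_forall fun f => ?_
        rw [Real.norm_of_nonneg (by positivity), ← Real.exp_sum, Finset.sum_add_distrib,
          ← Finset.mul_sum, ← Finset.mul_sum]
        apply Real.exp_le_exp.2
        linarith [key f]
    refine h0.mono' ?_ ?_
    · refine Measurable.aestronglyMeasurable ?_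
      unfold H
      fun_prop
    · refine Filter.Eventually.of_forall fun f => ?_
      rw [Real.norm_of_nonneg (by positivity)]
      apply Real.exp_le_exp.2
      unfold H Jf
      have : ∑ e ∈ Ed D, f (src e) * f (tgt e) ≤ ∑ e ∈ Ed D, |f (src e) * f (tgt e)| :=
        Finset.sum_le_sum fun e _ => le_abs_self _
      linarith
  have : IsProbabilityMeasure Gam := by
    unfold Gam
    infer_instance
  exact integral_exp_pos hint

end LSoup
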