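import Pool.Agent.LSoup.Stmts2

/-!
# Invariance of the soup under lattice automorphisms
-/

open MeasureTheory ProbabilityTheory Finset

open scoped Classical

namespace LSoup

/-- Neighbours. -/
def invNb (x y : Z2) : Prop := ∃ e : Edge, (src e = x ∧ tgt e = y) ∨ (src e = y ∧ tgt e = x)

theorem inv_mem_Ed {D : Finset Z2} {e : Edge} : e ∈ Ed D ↔ src e ∈ D ∧ tgt e ∈ D := by
  simp [Ed, src]

theorem inv_joined {D : Finset Z2} {x y : Z2} :
    Joined (Ed D) x y ↔ x ∈ D ∧ y ∈ D ∧ invNb x y := by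
  constructor
  · rintro ⟨e, he, h⟩
    rw [inv_mem_Ed] at he
    rcases h with ⟨h1, h2⟩ | ⟨h1, h2⟩
    · exact ⟨h1 ▸ he.1, h2 ▸ he.2, e, Or.inl ⟨h1, h2⟩⟩
    · exact ⟨h2 ▸ he.2, h1 ▸ he.1, e, Or.inr ⟨h1, h2⟩⟩
  · rintro ⟨hx, hy, e, h⟩
    refine ⟨e, ?_, h⟩
    rw [inv_mem_Ed]
    rcases h with ⟨h1, h2⟩ | ⟨h1, h2⟩
    · rw [h1, h2]
      exact ⟨hx, hy⟩
    · rw [h1, h2]
      exact ⟨hy, hx⟩

/-- The loop makes a step between the two points. -/
def invTr (l : List Z2) (x y : Z2) : Prop :=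
  ∃ l1 l2 : List Z2, l ++ l.take 1 = l1 ++ x :: y :: l2 ∨ l ++ l.take 1 = l1 ++ y :: x :: l2

theorem inv_joined_open {D : Finset Z2} {c : List Z2 → ℕ} {x y : Z2} :
    Joined (openE D c) x y ↔ x ∈ D ∧ y ∈ D ∧ invNb x y ∧
      ∃ l, 0 < c l ∧ IsLoopIn (Ed D) l ∧ invTr l x y := by
  constructor
  · rintro ⟨e, he, h⟩
    rw [openE, mem_filter, inv_mem_Ed] at he
    obtain ⟨he, l, h1, h2, l1, l2, h3⟩ := he
    rcases h with ⟨h4, h5⟩ | ⟨h4, h5⟩
    · rw [h4, h5] at h3 he
      exact ⟨he.1, he.2, ⟨e, Or.inl ⟨h4, h5⟩⟩, l, h1, h2, l1, l2, h3⟩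
    · rw [h4, h5] at h3 he
      exact ⟨he.2, he.1, ⟨e, Or.inr ⟨h4, h5⟩⟩, l, h1, h2, l1, l2, h3.symm⟩
  · rintro ⟨hx, hy, ⟨e, h⟩, l, h1, h2, l1, l2, h3⟩
    refine ⟨e, ?_, h⟩
    rw [openE, mem_filter, inv_mem_Ed]
    rcases h with ⟨h4, h5⟩ | ⟨h4, h5⟩
    · rw [h4, h5]
      refine ⟨⟨hx, hy⟩, l, h1, h2, ?_⟩
      unfold Trav
      rw [h4, h5]
      exact ⟨l1, l2, h3⟩
    · rw [h4, h5]
      refine ⟨⟨hy, hx⟩, l, h1, h2, ?_⟩
      unfold Trav
      rw [h4, h5]
      exact ⟨l1, l2, h3.symm⟩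

theorem inv_tr_map (τ : Z2 → Z2) {l : List Z2} {x y : Z2} (h : invTr l x y) :
    invTr (l.map τ) (τ x) (τ y) := by
  obtain ⟨l1, l2, h⟩ := h
  refine ⟨l1.map τ, l2.map τ, ?_⟩
  have e : l.map τ ++ (l.map τ).take 1 = (l ++ l.take 1).map τ := by
    rw [List.map_append, List.map_take]
  rw [e]
  rcases h with h | h
  · left
    rw [h]
    simp
  · right
    rw [h]
    simp

section

variable (σ : Z2 ≃ Z2) (hσ : ∀ x y, invNb (σ x) (σ y) ↔ invNb x y)

include hσ

theorem inv_loop {D : Finset Z2} {l : List Z2} :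
    IsLoopIn (Ed (D.image σ)) (l.map σ) ↔ IsLoopIn (Ed D) l := by
  unfold IsLoopIn
  have e : l.map σ ++ (l.map σ).take 1 = (l ++ l.take 1).map σ := by
    rw [List.map_append, List.map_take]
  rw [e, List.isChain_map]
  have h : (fun a b => Joined (Ed (D.image σ)) (σ a) (σ b)) = Joined (Ed D) := by
    funext a b
    apply propext
    rw [inv_joined, inv_joined, hσ]
    simp
  rw [h]
  simp

theorem inv_joined_map {D : Finset Z2} {c c' : List Z2 → ℕ} (hc : ∀ l, c' (l.map σ) = c l)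
    (x y : Z2) : Joined (openE (D.image σ) c') (σ x) (σ y) ↔ Joined (openE D c) x y := by
  rw [inv_joined_open, inv_joined_open, hσ]
  have hm : ∀ z, σ z ∈ D.image σ ↔ z ∈ D := by
    intro z
    simp
  rw [hm, hm]
  refine and_congr_right fun _ => and_congr_right fun _ => and_congr_right fun _ => ?_
  constructor
  · rintro ⟨l, h1, h2, h3⟩
    have e : l = (l.map σ.symm).map σ := by simp
    refine ⟨l.map σ.symm, ?_, ?_, ?_⟩
    · rw [← hc, ← e]
      exact h1
    · rw [e] at h2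
      exact (inv_loop σ hσ).mp h2
    · have := inv_tr_map σ.symm h3
      simpa using this
  · rintro ⟨l, h1, h2, h3⟩
    exact ⟨l.map σ, by rw [hc]; exact h1, (inv_loop σ hσ).mpr h2, inv_tr_map σ h3⟩

theorem inv_conn {D : Finset Z2} {c c' : List Z2 → ℕ} (hc : ∀ l, c' (l.map σ) = c l)
    (x y : Z2) : Conn (openE (D.image σ) c') (σ x) (σ y) ↔ Conn (openE D c) x y := by
  constructor
  · intro h
    have h1 : Conn (openE D c) (σ.symm (σ x)) (σ.symm (σ y)) := by
      refine Relation.ReflTransGen.lift σ.symm (fun u v huv => ?_) _ _ h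
      show Joined (openE D c) (σ.symm u) (σ.symm v)
      rw [← inv_joined_map σ hσ hc]
      simpa using huv
    simpa using h1
  · intro h
    exact Relation.ReflTransGen.lift σ (fun u v huv => (inv_joined_map σ hσ hc u v).mpr huv) _ _ h

theorem inv_gen (D S T : Finset Z2) (a : ℝ) :
    disP (D.image σ) a (S.image σ) (T.image σ) = disP D a S T := by
  let e : List Z2 ≃ List Z2 :=
    { toFun := List.map σ
      invFun := List.map σ.symm
      left_inv := fun l => by simp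
      right_inv := fun l => by simp }
  let μ : List Z2 → Measure ℕ := fun l =>
    poissonMeasure (if IsLoopIn (Ed (D.image σ)) l then Real.toNNReal (a * wt l) else 0)
  have h1 : soup D a = Measure.infinitePi fun l => μ (e l) := by
    unfold soup
    congr 1
    funext l
    simp only [μ]
    have h2 : IsLoopIn (Ed (D.image σ)) (e l) ↔ IsLoopIn (Ed D) l := inv_loop σ hσ
    have h3 : wt (e l) = wt l := by
      unfold wt
      have : (e l).length = l.length := List.length_map _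
      rw [this]
    rw [h3]
    simp only [h2]
  have h4 : soup (D.image σ) a =
      (soup D a).map (MeasurableEquiv.piCongrLeft (fun _ => ℕ) e) := by
    rw [h1, Measure.infinitePi_map_piCongrLeft (μ := μ) e]
    rfl
  unfold disP Measure.real
  rw [h4, MeasurableEquiv.map_apply]
  congr 2
  ext c
  simp only [Set.mem_preimage, Set.mem_ofPred_eq]
  have hc : ∀ l, (MeasurableEquiv.piCongrLeft (fun _ => ℕ) e) c (l.map σ) = c l := by
    intro l
    exact MeasurableEquiv.piCongrLeft_apply_apply (β := fun _ => ℕ) e c l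
  rw [not_iff_not]
  constructor
  · rintro ⟨x, hx, y, hy, h⟩
    rw [mem_image] at hx hy
    obtain ⟨x, hx, rfl⟩ := hx
    obtain ⟨y, hy, rfl⟩ := hy
    exact ⟨x, hx, y, hy, (inv_conn σ hσ hc x y).mp h⟩
  · rintro ⟨x, hx, y, hy, h⟩
    exact ⟨σ x, mem_image_of_mem _ hx, σ y, mem_image_of_mem _ hy, (inv_conn σ hσ hc x y).mpr h⟩

end

theorem inv_nb_of {σ : Z2 → Z2} (h : ∀ e : Edge, invNb (σ (src e)) (σ (tgt e))) {x y : Z2}
    (hxy : invNb x y) : invNb (σ x) (σ y) := by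
  obtain ⟨e, h1⟩ := hxy
  rcases h1 with ⟨rfl, rfl⟩ | ⟨rfl, rfl⟩
  · exact h e
  · obtain ⟨e', h2⟩ := h e
    exact ⟨e', h2.symm⟩

theorem inv (_hp : Stmt_prob) (_hsub : Stmt_sub) (_hd : Stmt_dis) : Stmt_inv := by
  intro D S T a w _
  constructor
  · have key : ∀ w : Z2, ∀ x y : Z2, invNb x y → invNb (x + w) (y + w) := by
      intro w x y h
      refine inv_nb_of (σ := fun x => x + w) (fun e => ⟨(e.1 + w, e.2), Or.inl ⟨rfl, ?_⟩⟩) h
      obtain ⟨⟨u, v⟩, b⟩ := e
      obtain ⟨w1, w2⟩ := w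
      cases b
      · simp only [tgt, Bool.false_eq_true, if_false, Prod.mk_add_mk]
        refine Prod.ext rfl ?_
        simp only
        ring
      · simp only [tgt, if_true, Prod.mk_add_mk]
        refine Prod.ext ?_ rfl
        simp only
        ring
    refine inv_gen (Equiv.addRight w) (fun x y => ⟨fun h => ?_, fun h => key w x y h⟩) D S T a
    have := key (-w) _ _ h
    simpa using this
  · have key : ∀ x y : Z2, invNb x y → invNb x.swap y.swap := by
      intro x y h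
      refine inv_nb_of (σ := Prod.swap) (fun e => ⟨(e.1.swap, !e.2), Or.inl ⟨rfl, ?_⟩⟩) h
      obtain ⟨⟨u, v⟩, b⟩ := e
      cases b <;> rfl
    refine inv_gen (Equiv.prodComm ℤ ℤ) (fun x y => ⟨fun h => ?_, fun h => key x y h⟩) D S T a
    exact key _ _ h

end LSoup
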