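import Pool.Agent.LSoup.Stmts

/-!
# Clusters (module F4)
-/

open Finset

open scoped Classical

noncomputable section

namespace LSoup

namespace KOm

theorem joined_symm {O : Finset Edge} {x y : Z2} (h : Joined O x y) : Joined O y x := by
  obtain ⟨e, he, h | h⟩ := h
  · exact ⟨e, he, Or.inr h⟩
  · exact ⟨e, he, Or.inl h⟩

theorem conn_symm {O : Finset Edge} {x y : Z2} (h : Conn O x y) : Conn O y x := by
  induction h with
  | refl => exact Relation.ReflTransGen.refl
  | tail _ h2 ih => exact Relation.ReflTransGen.head (joined_symm h2) ih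

theorem joined_mono {O O' : Finset Edge} (hO : O ⊆ O') {x y : Z2} (h : Joined O x y) :
    Joined O' x y := by
  obtain ⟨e, he, h⟩ := h
  exact ⟨e, hO he, h⟩

theorem conn_mono {O O' : Finset Edge} (hO : O ⊆ O') {x y : Z2} (h : Conn O x y) :
    Conn O' x y := Relation.ReflTransGen.mono (fun _ _ => joined_mono hO) _ _ h

theorem mem_Ed {D : Finset Z2} {e : Edge} : e ∈ Ed D ↔ src e ∈ D ∧ tgt e ∈ D := by
  unfold Ed src
  rw [mem_filter, mem_product]
  simp

theorem joined_mem {D : Finset Z2} {O : Finset Edge} (hO : O ⊆ Ed D) {x y : Z2}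
    (h : Joined O x y) : x ∈ D ∧ y ∈ D := by
  obtain ⟨e, he, ⟨h1, h2⟩ | ⟨h1, h2⟩⟩ := h
  · have := mem_Ed.mp (hO he)
    rw [h1, h2] at this
    exact this
  · have := mem_Ed.mp (hO he)
    rw [h1, h2] at this
    exact this.symm

theorem ed_mono {D D' : Finset Z2} (h : D ⊆ D') : Ed D ⊆ Ed D' := fun e he =>
  mem_Ed.mpr ⟨h (mem_Ed.mp he).1, h (mem_Ed.mp he).2⟩

theorem joined_restrict {D : Finset Z2} {O : Finset Edge} {x y : Z2} (hx : x ∈ D) (hy : y ∈ D)
    (h : Joined O x y) : Joined (O ∩ Ed D) x y := by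
  obtain ⟨e, he, ⟨h1, h2⟩ | ⟨h1, h2⟩⟩ := h
  · exact ⟨e, mem_inter.mpr ⟨he, mem_Ed.mpr ⟨h1 ▸ hx, h2 ▸ hy⟩⟩, Or.inl ⟨h1, h2⟩⟩
  · exact ⟨e, mem_inter.mpr ⟨he, mem_Ed.mpr ⟨h1 ▸ hy, h2 ▸ hx⟩⟩, Or.inr ⟨h1, h2⟩⟩

theorem mem_KO {D : Finset Z2} {O : Finset Edge} {S : Finset Z2} {x : Z2} :
    x ∈ KO D O S ↔ x ∈ D ∧ ∃ b ∈ S, Conn O b x := by
  unfold KO
  rw [mem_filter]

theorem row {a b c d : ℤ} (x y : ℤ) (hy : y ∈ Icc c d) (hx : a ≤ x) (n : ℕ) :
    x + n ≤ b → Conn (Ed (Icc a b ×ˢ Icc c d)) (x, y) (x + n, y) := by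
  induction n with
  | zero => intro _; simp only [Nat.cast_zero, add_zero]; exact Relation.ReflTransGen.refl
  | succ n ih =>
    intro h
    push_cast at h ⊢
    refine Relation.ReflTransGen.tail (ih (by omega)) ?_
    refine ⟨((x + n, y), true), mem_Ed.mpr ⟨?_, ?_⟩, Or.inl ⟨rfl, ?_⟩⟩
    · simp only [src, mem_product, hy, and_true, mem_Icc]; omega
    · simp only [tgt, if_true, mem_product, hy, and_true, mem_Icc]; omega
    · simp only [tgt, if_true, Prod.mk.injEq, and_true]; omega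

theorem col' {a b c d : ℤ} (x y : ℤ) (hx : x ∈ Icc a b) (hy : c ≤ y) (n : ℕ) :
    y + n ≤ d → Conn (Ed (Icc a b ×ˢ Icc c d)) (x, y) (x, y + n) := by
  induction n with
  | zero => intro _; simp only [Nat.cast_zero, add_zero]; exact Relation.ReflTransGen.refl
  | succ n ih =>
    intro h
    push_cast at h ⊢
    refine Relation.ReflTransGen.tail (ih (by omega)) ?_
    refine ⟨((x, y + n), false), mem_Ed.mpr ⟨?_, ?_⟩, Or.inl ⟨rfl, ?_⟩⟩
    · simp only [src, mem_product, hx, true_and, mem_Icc]; omega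
    · simp only [tgt, mem_product, hx, true_and, mem_Icc, Bool.false_eq_true, if_false]; omega
    · simp only [tgt, Bool.false_eq_true, if_false, Prod.mk.injEq, true_and]; omega

theorem rect (a b c d : ℤ) : ConnSet (Icc a b ×ˢ Icc c d) := by
  have hrow : ∀ x x' y : ℤ, x ∈ Icc a b → x' ∈ Icc a b → y ∈ Icc c d →
      Conn (Ed (Icc a b ×ˢ Icc c d)) (x, y) (x', y) := by
    intro x x' y hx hx' hy
    rw [mem_Icc] at hx hx'
    rcases le_total x x' with h | h
    · have := row (b := b) x y hy hx.1 (x' - x).toNat (by omega)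
      rwa [show x + ((x' - x).toNat : ℤ) = x' by omega] at this
    · have := row (b := b) x' y hy hx'.1 (x - x').toNat (by omega)
      rw [show x' + ((x - x').toNat : ℤ) = x by omega] at this
      exact conn_symm this
  have hcol : ∀ x y y' : ℤ, x ∈ Icc a b → y ∈ Icc c d → y' ∈ Icc c d →
      Conn (Ed (Icc a b ×ˢ Icc c d)) (x, y) (x, y') := by
    intro x y y' hx hy hy'
    rw [mem_Icc] at hy hy'
    rcases le_total y y' with h | h
    · have := col' (d := d) x y hx hy.1 (y' - y).toNat (by omega)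
      rwa [show y + ((y' - y).toNat : ℤ) = y' by omega] at this
    · have := col' (d := d) x y' hx hy'.1 (y - y').toNat (by omega)
      rw [show y' + ((y - y').toNat : ℤ) = y by omega] at this
      exact conn_symm this
  rintro ⟨x, y⟩ hx ⟨x', y'⟩ hx'
  rw [mem_product] at hx hx'
  exact (hrow x x' y hx.1 hx'.1 hx.2).trans (hcol x' y y' hx'.1 hx.2 hx'.2)

end KOm

open KOm in
theorem KO_ : Stmt_KO := by
  intro D Q B O hO hQ hB
  have hsub : Q ⊆ KO D O Q := fun x hx => mem_KO.mpr ⟨hQ hx, x, hx, Relation.ReflTransGen.refl⟩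
  refine ⟨?_, hsub, ?_, ?_, ?_⟩
  · intro hc _ x hx y hy
    obtain ⟨hxD, b, hb, hbx⟩ := mem_KO.mp hx
    obtain ⟨hyD, b', hb', hby⟩ := mem_KO.mp hy
    have key : ∀ (b x : Z2), b ∈ Q → Conn O b x → Conn (Ed (KO D O Q)) b x ∧ x ∈ KO D O Q := by
      intro b x hb h
      induction h with
      | refl => exact ⟨Relation.ReflTransGen.refl, hsub hb⟩
      | tail h1 h2 ih =>
        have h3 := mem_KO.mpr ⟨(joined_mem hO h2).2, b, hb, Relation.ReflTransGen.tail h1 h2⟩
        exact ⟨Relation.ReflTransGen.tail ih.1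
          (joined_mono inter_subset_right (joined_restrict ih.2 h3 h2)), h3⟩
    exact ((conn_symm (key b x hb hbx).1).trans (conn_mono (ed_mono hsub) (hc b hb b' hb'))).trans
      (key b' y hb' hby).1
  · intro hd
    ext x
    rw [mem_KO, mem_KO]
    constructor
    · rintro ⟨hx, b, hb, h⟩
      have hbK : b ∉ KO D O Q := fun h' => disjoint_left.mp hd h' hb
      have hno : ∀ y, Conn O b y → y ∉ KO D O Q := by
        intro y hy hyK
        obtain ⟨_, q, hq, hqy⟩ := mem_KO.mp hyK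
        exact hbK (mem_KO.mpr ⟨hB hb, q, hq, hqy.trans (conn_symm hy)⟩)
      have key : ∀ y, Conn O b y → Conn (O ∩ Ed (D \ KO D O Q)) b y ∧ y ∈ D \ KO D O Q := by
        intro y h
        induction h with
        | refl => exact ⟨Relation.ReflTransGen.refl, mem_sdiff.mpr ⟨hB hb, hbK⟩⟩
        | tail h1 h2 ih =>
          have h3 := mem_sdiff.mpr ⟨(joined_mem hO h2).2, hno _ (Relation.ReflTransGen.tail h1 h2)⟩
          exact ⟨Relation.ReflTransGen.tail ih.1 (joined_restrict ih.2 h3 h2), h3⟩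
      exact ⟨(key x h).2, b, hb, (key x h).1⟩
    · rintro ⟨hx, b, hb, h⟩
      exact ⟨(mem_sdiff.mp hx).1, b, hb, conn_mono inter_subset_left h⟩
  · intro O' hO' x hx
    obtain ⟨hx, b, hb, h⟩ := mem_KO.mp hx
    exact mem_KO.mpr ⟨hx, b, hb, conn_mono hO' h⟩
  · intro n
    exact ⟨rect _ _ _ _, rect _ _ _ _⟩

end LSoup
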