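import Pool.Agent.LSoup.Stmts2

/-!
Lemma 6: the mass of the loops that hit two disjoint connected sets.
-/

open MeasureTheory ProbabilityTheory Finset Filter Topology

open scoped Classical

noncomputable section

namespace LSoup

private theorem chain_next {α : Type} {R : α → α → Prop} (l : List α) (a : α)
    (h : List.IsChain R (l ++ [a])) : ∀ x ∈ l, ∃ y, R x y := by
  induction l with
  | nil => intro x hx; simp at hx
  | cons b t ih =>
    intro x hx
    rw [List.cons_append] at h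
    rcases List.mem_cons.mp hx with rfl | hx
    · cases t with
      | nil =>
        simp only [List.nil_append] at h
        exact ⟨a, (List.isChain_cons_cons.mp h).1⟩
      | cons c t =>
        rw [List.cons_append] at h
        exact ⟨c, (List.isChain_cons_cons.mp h).1⟩
    · exact ih h.tail x hx

private theorem loop_mem {D : Finset Z2} {l : List Z2} (h : IsLoopIn (Ed D) l) :
    ∀ x ∈ l, x ∈ D := by
  obtain ⟨hne, hc⟩ := h
  obtain ⟨a, t, rfl⟩ := List.exists_cons_of_ne_nil hne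
  have h1 : (a :: t).take 1 = [a] := by simp
  rw [h1] at hc
  intro x hx
  obtain ⟨y, e, he, h2⟩ := chain_next _ _ hc x hx
  have he1 := Finset.mem_filter.mp he
  have he2 := (Finset.mem_product.mp he1.1).1
  rcases h2 with h2 | h2
  · rw [← h2.1]
    exact he2
  · rw [← h2.2]
    exact he1.2

private theorem Ed_mono {D D' : Finset Z2} (h : D ⊆ D') : Ed D ⊆ Ed D' := by
  intro e he
  have he1 := Finset.mem_filter.mp he
  have he2 := Finset.mem_product.mp he1.1
  exact Finset.mem_filter.mpr ⟨Finset.mem_product.mpr ⟨h he2.1, he2.2⟩, h he1.2⟩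

private theorem loop_mono {D D' : Finset Z2} (h : D ⊆ D') {l : List Z2}
    (hl : IsLoopIn (Ed D) l) : IsLoopIn (Ed D') l := by
  refine ⟨hl.1, hl.2.imp ?_⟩
  rintro x y ⟨e, he, h1⟩
  exact ⟨e, Ed_mono h he, h1⟩

private theorem wt_nonneg (l : List Z2) : 0 ≤ wt l := by
  unfold wt
  positivity

private theorem mem_bx {x z : Z2} {r : ℕ} : x ∈ bx z r ↔ nrm x z ≤ r := by
  unfold bx nrm
  rw [Finset.mem_product, Finset.mem_Icc, Finset.mem_Icc]
  omega

private theorem nrm_tri (x y z : Z2) : nrm x y ≤ nrm x z + nrm y z := by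
  unfold nrm
  omega

/-- possible tiles near a vertex -/
private def TT (v : Z2) (r M : ℕ) : Finset Z2 :=
  Finset.Icc (v.1 / (r : ℤ) - M) (v.1 / (r : ℤ) + M) ×ˢ
    Finset.Icc (v.2 / (r : ℤ) - M) (v.2 / (r : ℤ) + M)

private theorem TT_card (v : Z2) (r M : ℕ) : (TT v r M).card = (2 * M + 1) ^ 2 := by
  unfold TT
  rw [Finset.card_product, Int.card_Icc, Int.card_Icc, sq]
  congr 1 <;> omega

private theorem TT_coord (a c : ℤ) (r M : ℕ) (hr : 1 ≤ r) (h : (a - r * c).natAbs ≤ M * r) :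
    a / (r : ℤ) - M ≤ c ∧ c ≤ a / (r : ℤ) + M := by
  have hr' : (0 : ℤ) < r := by exact_mod_cast hr
  have h1 : a - r * c ≤ (M : ℤ) * r ∧ -((M : ℤ) * r) ≤ a - r * c := by
    have : ((a - r * c).natAbs : ℤ) ≤ (M : ℤ) * r := by exact_mod_cast h
    omega
  constructor
  · have : a / (r : ℤ) < c + M + 1 := by
      rw [Int.ediv_lt_iff_lt_mul hr']
      nlinarith
    omega
  · have : c - M ≤ a / (r : ℤ) := by
      rw [Int.le_ediv_iff_mul_le hr']
      nlinarith
    omega

private theorem mem_TT (v z : Z2) (r M : ℕ) (hr : 1 ≤ r)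
    (h : nrm v ((r : ℤ) * z.1, (r : ℤ) * z.2) ≤ M * r) : z ∈ TT v r M := by
  unfold nrm at h
  simp only [max_le_iff] at h
  unfold TT
  rw [Finset.mem_product, Finset.mem_Icc, Finset.mem_Icc]
  exact ⟨TT_coord _ _ r M hr h.1, TT_coord _ _ r M hr h.2⟩

private theorem rk_half (n k j : ℕ) : rk n (k + j) * 2 ^ j ≤ rk n k := by
  unfold rk
  rw [pow_add, ← Nat.div_div_eq_div_mul]
  exact Nat.div_mul_le_self _ _

/-- the corner of a tile -/
private def cor (r : ℕ) (z : Z2) : Z2 := ((r : ℤ) * z.1, (r : ℤ) * z.2)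

private def KA (r : ℕ) (z : Z2) (K : Finset Z2) : Finset Z2 :=
  K.filter fun x => 8 * r ≤ nrm x (cor r z) ∧ nrm x (cor r z) ≤ 10 * r

private def KB (r : ℕ) (z : Z2) (K : Finset Z2) : Finset Z2 :=
  K.filter fun x => 16 * r ≤ nrm x (cor r z) ∧ nrm x (cor r z) ≤ 18 * r

private theorem one_tile (h1 : Stmt_mass) (h2 : Stmt_cross) (h3 : Stmt_tiles) (M : ℕ)
    (hM : 5760 ≤ Real.log (M / 20)) (n k : ℕ) (K K' : Finset Z2) (hk10 : 10 ≤ k)
    (hkn : 2 ^ k ≤ n) (hK : ConnSet K) (hK' : ConnSet K') (hQ : Qn n ⊆ K) (hB : Bn n ⊆ K')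
    (hKR : K ⊆ Rn n) (z : Z2) (hz : z ∈ tiles n (rk n k) K)
    (hz' : ∃ x ∈ K', x ∈ nbhd (tile (rk n k) z) (rk n k)) :
    1 / 2 ≤ hitM (bx (cor (rk n k) z) (M * rk n k)) (KA (rk n k) z K) (KB (rk n k) z K') := by
  have ht := (h3 n k K hk10 hkn hKR).2.1 z hz
  have hr1 : 1 ≤ rk n k := (Nat.one_le_div_iff (by positivity)).mpr hkn
  have hr : rk n k * 1024 ≤ n := by
    have h4 : rk n k * 2 ^ k ≤ n := Nat.div_mul_le_self _ _
    have h5 : 2 ^ 10 ≤ 2 ^ k := Nat.pow_le_pow_right (by norm_num) hk10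
    calc rk n k * 1024 ≤ rk n k * 2 ^ k := Nat.mul_le_mul_left _ (by norm_num at h5; exact h5)
      _ ≤ n := h4
  generalize hrr : rk n k = r at *
  have hw1 : Wide (KA r z K) (2 * r) := by
    have h5 := h2 K (cor r z) (8 * r) (10 * r) hK (by omega) (by
      obtain ⟨x, hx, hxn⟩ := ht
      refine ⟨x, (Finset.mem_inter.mp hx).1, ?_⟩
      have : nrm x (cor r z) ≤ 5 * r := hxn
      omega) (by
      by_contra hcon
      push Not at hcon
      have ha := hcon (3 * n, 3 * n) (hQ (by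
        unfold Qn
        simp only [Finset.mem_product, Finset.mem_Icc]
        omega))
      have hb := hcon (5 * n, 5 * n) (hQ (by
        unfold Qn
        simp only [Finset.mem_product, Finset.mem_Icc]
        omega))
      unfold nrm at ha hb
      simp only at ha hb
      omega)
    have e : 10 * r - 8 * r = 2 * r := by omega
    rw [e] at h5
    exact h5
  have hw2 : Wide (KB r z K') (2 * r) := by
    have h5 := h2 K' (cor r z) (16 * r) (18 * r) hK' (by omega) (by
      obtain ⟨x, hx, hxn⟩ := hz'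
      refine ⟨x, hx, ?_⟩
      unfold nbhd at hxn
      rw [Finset.mem_biUnion] at hxn
      obtain ⟨y, hy, hxy⟩ := hxn
      rw [mem_bx] at hxy
      unfold tile at hy
      rw [Finset.mem_product, Finset.mem_Icc, Finset.mem_Icc] at hy
      unfold cor nrm
      unfold nrm at hxy
      simp only
      omega) (by
      by_contra hcon
      push Not at hcon
      have ha := hcon (35 * n, 3 * n) (hB (by
        unfold Bn
        simp only [Finset.mem_product, Finset.mem_Icc]
        omega))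
      have hb := hcon (37 * n, 5 * n) (hB (by
        unfold Bn
        simp only [Finset.mem_product, Finset.mem_Icc]
        omega))
      unfold nrm at ha hb
      simp only at ha hb
      omega)
    have e : 18 * r - 16 * r = 2 * r := by omega
    rw [e] at h5
    exact h5
  refine h1 (cor r z) r M _ _ hr1 hM hw1 hw2 ?_ ?_ ?_
  · intro x hx
    rw [mem_bx]
    exact (Finset.mem_filter.mp hx).2.2
  · intro x hx
    rw [mem_bx]
    exact (Finset.mem_filter.mp hx).2.2
  · intro x hx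
    exact (Finset.mem_filter.mp hx).2.1

private theorem box_sub (h3 : Stmt_tiles) (M n k : ℕ) (K : Finset Z2) (hk10 : 10 ≤ k)
    (hkM : 2 * (M + 5) ≤ 2 ^ k) (hkn : 2 ^ k ≤ n) (hKR : K ⊆ Rn n) (z : Z2)
    (hz : z ∈ tiles n (rk n k) K) : bx (cor (rk n k) z) (M * rk n k) ⊆ Rn n := by
  obtain ⟨x, hx, hxn⟩ := (h3 n k K hk10 hkn hKR).2.1 z hz
  have h4 : rk n k * 2 ^ k ≤ n := Nat.div_mul_le_self _ _
  have h5 : rk n k * (2 * (M + 5)) ≤ n := le_trans (Nat.mul_le_mul_left _ hkM) h4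
  have hn : 1024 ≤ n := by
    have : 2 ^ 10 ≤ 2 ^ k := Nat.pow_le_pow_right (by norm_num) hk10
    have h6 : (2 : ℕ) ^ 10 = 1024 := by norm_num
    omega
  generalize rk n k = r at *
  have h7 : M * r + 5 * r + 1 ≤ n := by
    have : r * (2 * (M + 5)) = 2 * (M * r + 5 * r) := by ring
    omega
  intro p hp
  rw [mem_bx] at hp
  have hxm := (Finset.mem_inter.mp hx).2
  unfold Rm at hxm
  rw [Finset.mem_product, Finset.mem_Icc, Finset.mem_Icc] at hxm
  unfold Rn
  rw [Finset.mem_product, Finset.mem_Icc, Finset.mem_Icc]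
  have hxn' : nrm x (cor r z) ≤ 5 * r := hxn
  generalize cor r z = w at *
  generalize M * r = m at *
  unfold nrm at hp hxn'
  omega

/-- the configurations `(k, z)` for which the loop is counted -/
private def PP (M n : ℕ) (K K' : Finset Z2) (i : Σ _ : ℕ, Z2) (l : List Z2) : Prop :=
  IsLoopIn (Ed (bx (cor (rk n i.1) i.2) (M * rk n i.1))) l ∧
    (∃ x ∈ l, x ∈ KA (rk n i.1) i.2 K) ∧ ∃ x ∈ l, x ∈ KB (rk n i.1) i.2 K'

private theorem PP_diam {M n : ℕ} {K K' : Finset Z2} {i : Σ _ : ℕ, Z2} {l : List Z2}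
    (h : PP M n K K' i l) : (∀ x ∈ l, ∀ y ∈ l, nrm x y ≤ 2 * (M * rk n i.1)) ∧
    ∃ x ∈ l, ∃ y ∈ l, 6 * rk n i.1 ≤ nrm x y := by
  constructor
  · intro x hx y hy
    have h1 := mem_bx.mp (loop_mem h.1 x hx)
    have h2 := mem_bx.mp (loop_mem h.1 y hy)
    have := nrm_tri x y (cor (rk n i.1) i.2)
    omega
  · obtain ⟨x, hx, hxK⟩ := h.2.1
    obtain ⟨y, hy, hyK⟩ := h.2.2
    refine ⟨x, hx, y, hy, ?_⟩
    have h1 := (Finset.mem_filter.mp hxK).2.2
    have h2 := (Finset.mem_filter.mp hyK).2.1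
    generalize cor (rk n i.1) i.2 = w at h1 h2
    unfold nrm at *
    omega

private theorem count_le (M n k1 k0 : ℕ) (K K' : Finset Z2) (S : ℕ → Finset Z2)
    (hr : ∀ k ∈ Finset.Icc k1 k0, 1 ≤ rk n k) (l : List Z2) :
    (((Finset.Icc k1 k0).sigma S).filter fun i => PP M n K K' i l).card ≤
      (M + 1) * (2 * M + 1) ^ 2 := by
  set J := ((Finset.Icc k1 k0).sigma S).filter fun i => PP M n K K' i l with hJ
  rcases J.eq_empty_or_nonempty with h0 | hne
  · rw [h0]
    simp
  obtain ⟨i0, hi0, hmin⟩ := Finset.exists_min_image J (fun i => i.1) hne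
  have hP0 : PP M n K K' i0 l := (Finset.mem_filter.mp hi0).2
  have hi0k := (Finset.mem_sigma.mp (Finset.mem_filter.mp hi0).1).1
  obtain ⟨v, hv⟩ := List.exists_mem_of_ne_nil l hP0.1.1
  have hsub : J ⊆ (Finset.Icc i0.1 (i0.1 + M)).sigma fun k => TT v (rk n k) M := by
    intro i hi
    have hP : PP M n K K' i l := (Finset.mem_filter.mp hi).2
    have hik := (Finset.mem_sigma.mp (Finset.mem_filter.mp hi).1).1
    rw [Finset.mem_sigma, Finset.mem_Icc]
    have hle := hmin i hi
    refine ⟨⟨hle, ?_⟩, ?_⟩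
    · obtain ⟨x, hx, y, hy, hxy⟩ := (PP_diam hP0).2
      have h4 := (PP_diam hP).1 x hx y hy
      obtain ⟨j, hj⟩ : ∃ j, i.1 = i0.1 + j := ⟨i.1 - i0.1, by omega⟩
      have h5 := rk_half n i0.1 j
      rw [← hj] at h5
      have hr1 := hr i.1 hik
      have h6 : 6 * rk n i0.1 ≤ 2 * (M * rk n i.1) := le_trans hxy h4
      have h7 : 6 * (rk n i.1 * 2 ^ j) ≤ 2 * (M * rk n i.1) := by omega
      have h8 : 3 * 2 ^ j ≤ M := by
        by_contra hcon
        push Not at hcon
        have : 2 * (M * rk n i.1) < 2 * (3 * 2 ^ j * rk n i.1) := by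
          have := Nat.mul_lt_mul_of_pos_right hcon (by omega : 0 < rk n i.1)
          omega
        have e : 2 * (3 * 2 ^ j * rk n i.1) = 6 * (rk n i.1 * 2 ^ j) := by ring
        omega
      have h9 : j < 2 ^ j := Nat.lt_two_pow_self
      omega
    · have h4 := mem_bx.mp (loop_mem hP.1 v hv)
      exact mem_TT v i.2 (rk n i.1) M (hr i.1 hik) h4
  refine (Finset.card_le_card hsub).trans ?_
  rw [Finset.card_sigma]
  simp only [TT_card]
  rw [Finset.sum_const, Nat.card_Icc, smul_eq_mul]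
  exact Nat.mul_le_mul_right _ (by omega)

private theorem hit_eq (M n : ℕ) (K K' : Finset Z2) (i : Σ _ : ℕ, Z2) :
    hitM (bx (cor (rk n i.1) i.2) (M * rk n i.1)) (KA (rk n i.1) i.2 K) (KB (rk n i.1) i.2 K') =
      ∑' l : List Z2, if PP M n K K' i l then wt l else 0 := by
  unfold hitM
  refine tsum_congr fun l => ?_
  by_cases h : PP M n K K' i l
  · rw [if_pos h, if_pos]
    exact h
  · rw [if_neg h, if_neg]
    exact h

private theorem PP_sum (h4 : Stmt_sum) (M n : ℕ) (K K' : Finset Z2) (i : Σ _ : ℕ, Z2) :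
    Summable fun l : List Z2 => if PP M n K K' i l then wt l else 0 := by
  refine Summable.of_nonneg_of_le (fun l => ?_) (fun l => ?_)
    (h4 (bx (cor (rk n i.1) i.2) (M * rk n i.1)))
  · split_ifs
    · exact wt_nonneg l
    · exact le_rfl
  · by_cases hl : IsLoopIn (Ed (bx (cor (rk n i.1) i.2) (M * rk n i.1))) l
    · rw [if_pos hl]
      split_ifs
      · exact le_rfl
      · exact wt_nonneg l
    · rw [if_neg hl, if_neg (fun h => hl h.1)]

private theorem g_sum (h4 : Stmt_sum) (D : Finset Z2) (A A' : Finset Z2) :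
    Summable fun l : List Z2 => if IsLoopIn (Ed D) l ∧ (∃ x ∈ l, x ∈ A) ∧
      (∃ x ∈ l, x ∈ A') then wt l else 0 := by
  refine Summable.of_nonneg_of_le (fun l => ?_) (fun l => ?_) (h4 D)
  · split_ifs
    · exact wt_nonneg l
    · exact le_rfl
  · by_cases hl : IsLoopIn (Ed D) l
    · rw [if_pos hl]
      split_ifs
      · exact le_rfl
      · exact wt_nonneg l
    · rw [if_neg hl, if_neg (fun h => hl h.1)]

theorem L6 (h1 : Stmt_mass) (h2 : Stmt_cross) (h3 : Stmt_tiles) (h4 : Stmt_sum) (h5 : Stmt_KO) :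
    Stmt_L6 := by
  obtain ⟨M, hM⟩ : ∃ M : ℕ, 5760 ≤ Real.log (M / 20) := by
    obtain ⟨M, hM⟩ := exists_nat_ge (20 * Real.exp 5760)
    refine ⟨M, ?_⟩
    have hpos : 0 < Real.exp 5760 := Real.exp_pos _
    rw [Real.le_log_iff_exp_le (by linarith)]
    linarith
  set C : ℕ := (M + 1) * (2 * M + 1) ^ 2 with hC
  have hC0 : (0 : ℝ) < C := by
    rw [hC]
    positivity
  refine ⟨1 / (2 * C), by positivity, 2 * M + 20, fun k0 => ⟨2 ^ k0, fun n hn K K' hK hK' hQ hB
    hKR hKR' hdis k1 hk1 => ?_⟩⟩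
  set S : ℕ → Finset Z2 := fun k => (tiles n (rk n k) K).filter fun z =>
    ∃ x ∈ K', x ∈ nbhd (tile (rk n k) z) (rk n k) with hS
  set I := (Finset.Icc k1 k0).sigma S with hI
  have hk : ∀ k ∈ Finset.Icc k1 k0, 10 ≤ k ∧ 2 * (M + 5) ≤ 2 ^ k ∧ 2 ^ k ≤ n := by
    intro k hk
    rw [Finset.mem_Icc] at hk
    refine ⟨by omega, ?_, ?_⟩
    · have : k < 2 ^ k := Nat.lt_two_pow_self
      omega
    · exact le_trans (Nat.pow_le_pow_right (by norm_num) hk.2) hn
  have hr : ∀ k ∈ Finset.Icc k1 k0, 1 ≤ rk n k := fun k hk' =>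
    (Nat.one_le_div_iff (by positivity)).mpr (hk k hk').2.2
  have hsumH : ∑ k ∈ Finset.Icc k1 k0, (Hk n (rk n k) K K' : ℝ) = (I.card : ℝ) := by
    rw [hI, Finset.card_sigma]
    push_cast
    rfl
  set g : List Z2 → ℝ := fun l => if IsLoopIn (Ed (Rn n)) l ∧ (∃ x ∈ l, x ∈ K) ∧
    (∃ x ∈ l, x ∈ K') then wt l else 0 with hg
  have hhit : ∀ i ∈ I, (1 : ℝ) / 2 ≤ ∑' l : List Z2, if PP M n K K' i l then wt l else 0 := by
    intro i hi
    have hi1 := Finset.mem_sigma.mp hi
    have hi2 := Finset.mem_filter.mp hi1.2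
    have hkk := hk i.1 hi1.1
    rw [← hit_eq]
    exact one_tile h1 h2 h3 M hM n i.1 K K' hkk.1 hkk.2.2 hK hK' hQ hB hKR i.2 hi2.1 hi2.2
  have hle1 : (I.card : ℝ) * (1 / 2) ≤
      ∑ i ∈ I, ∑' l : List Z2, if PP M n K K' i l then wt l else 0 := by
    rw [← nsmul_eq_mul, ← Finset.sum_const]
    exact Finset.sum_le_sum hhit
  have hswap : ∑ i ∈ I, (∑' l : List Z2, if PP M n K K' i l then wt l else 0) =
      ∑' l : List Z2, ∑ i ∈ I, if PP M n K K' i l then wt l else 0 := by
    rw [Summable.tsum_finsetSum]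
    intro i _
    exact PP_sum h4 M n K K' i
  have hpt : ∀ l : List Z2, (∑ i ∈ I, if PP M n K K' i l then wt l else 0) ≤ C * g l := by
    intro l
    rw [← Finset.sum_filter, Finset.sum_const, nsmul_eq_mul]
    have hcnt := count_le M n k1 k0 K K' S hr l
    rcases (I.filter fun i => PP M n K K' i l).eq_empty_or_nonempty with h0 | ⟨i, hi⟩
    · rw [h0]
      simp only [Finset.card_empty, Nat.cast_zero, zero_mul]
      refine mul_nonneg hC0.le ?_
      simp only [hg]
      split_ifs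
      · exact wt_nonneg l
      · exact le_rfl
    · have hiI := (Finset.mem_filter.mp hi).1
      have hP : PP M n K K' i l := (Finset.mem_filter.mp hi).2
      have hi1 := Finset.mem_sigma.mp hiI
      have hi2 := Finset.mem_filter.mp hi1.2
      have hkk := hk i.1 hi1.1
      have hbox := box_sub h3 M n i.1 K hkk.1 hkk.2.1 hkk.2.2 hKR i.2 hi2.1
      have hgl : g l = wt l := by
        simp only [hg]
        rw [if_pos]
        refine ⟨loop_mono hbox hP.1, ?_, ?_⟩
        · obtain ⟨x, hx, hxK⟩ := hP.2.1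
          exact ⟨x, hx, (Finset.mem_filter.mp hxK).1⟩
        · obtain ⟨x, hx, hxK⟩ := hP.2.2
          exact ⟨x, hx, (Finset.mem_filter.mp hxK).1⟩
      rw [hgl]
      refine mul_le_mul_of_nonneg_right ?_ (wt_nonneg l)
      exact_mod_cast hcnt
  have hsg : Summable g := g_sum h4 (Rn n) K K'
  have hle2 : ∑' l : List Z2, (∑ i ∈ I, if PP M n K K' i l then wt l else 0) ≤
      C * hitM (Rn n) K K' := by
    have e : (C : ℝ) * hitM (Rn n) K K' = ∑' l, C * g l := by
      rw [tsum_mul_left]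
      rfl
    rw [e]
    refine Summable.tsum_le_tsum hpt ?_ (hsg.mul_left _)
    exact summable_sum fun i _ => PP_sum h4 M n K K' i
  rw [hsumH]
  rw [hswap] at hle1
  have h6 := hle1.trans hle2
  rw [div_mul_eq_mul_div, one_mul, div_le_iff₀ (by positivity)]
  linarith

end LSoup
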