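import Pool.Agent.LSoup.Stmts2

/-!
# Linear functionals of the Gaussian free field are centred Gaussian variables
-/

open MeasureTheory ProbabilityTheory Finset Filter Topology

open scoped Classical

noncomputable section

namespace LSoup

lemma Law_second_moment (v : NNReal) : ∫ x, x * x ∂gaussianReal 0 v = v := by
  have h1 : ∫ x, id x ∂gaussianReal 0 v = 0 := by
    simp
  have h2 := variance_of_integral_eq_zero (μ := gaussianReal 0 v) (X := id)
    aemeasurable_id h1
  rw [variance_id_gaussianReal] at h2
  rw [h2]
  refine integral_congr_ae (Eventually.of_forall fun x => ?_)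
  simp only [id]
  ring

theorem law (hl : Stmt_law2) (hs : Stmt_solve) (_hi : Stmt_int) : Stmt_law := by
  intro D u g hg
  obtain ⟨w, hw0, hwu, -⟩ := hs D u
  have hlin : ∀ f, lin D u f = lin D (lap w) f := by
    intro f
    unfold lin
    exact Finset.sum_congr rfl fun x hx => by rw [hwu x hx]
  have h1 := hl D w (fun x => x * x) hw0 (by fun_prop)
  rw [Law_second_moment] at h1
  have hcov : Cov D u u = (Real.toNNReal (∑ x ∈ D, lap w x * w x) : ℝ) := by
    unfold Cov
    simp only [hlin]
    exact h1
  rw [hcov, Real.toNNReal_coe, ← hl D w g hw0 hg]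
  simp only [hlin]

end LSoup
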