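import Pool.Agent.LSoup.Stmts

open MeasureTheory ProbabilityTheory Finset Filter Topology

open scoped Classical

noncomputable section

namespace LSoup

namespace Leb

theorem mem_Ed {D : Finset Z2} {e : Edge} (h : e ∈ Ed D) : src e ∈ D ∧ tgt e ∈ D := by
  simp only [Ed, Finset.mem_filter, Finset.mem_product, Finset.mem_univ, and_true] at h
  exact h

theorem pdf_eq (x : ℝ) : gaussianPDFReal 0 (1 / 4) x
    = Real.sqrt (2 / Real.pi) * Real.exp (-2 * x ^ 2) := by
  rw [gaussianPDFReal]
  have h1 : ((1 / 4 : NNReal) : ℝ) = 1 / 4 := by norm_num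
  rw [h1, sub_zero]
  congr 1
  · rw [← Real.sqrt_inv]
    congr 1
    field_simp
    norm_num
  · congr 1
    ring

theorem pi_gauss (ι : Type) [Fintype ι] : (Measure.pi fun _ : ι => gaussianReal 0 (1 / 4))
    = (volume : Measure (ι → ℝ)).withDensity
      fun ξ => ENNReal.ofReal (∏ i, gaussianPDFReal 0 (1 / 4) (ξ i)) := by
  refine Measure.pi_eq fun s hs => ?_
  have hv : (1 / 4 : NNReal) ≠ 0 := by norm_num
  have hint : Integrable (fun ξ : ι → ℝ => ∏ i, gaussianPDFReal 0 (1 / 4) (ξ i))
      (volume : Measure (ι → ℝ)) :=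
    Integrable.fintype_prod fun i => integrable_gaussianPDFReal _ _
  rw [withDensity_apply _ (MeasurableSet.univ_pi hs), ← ofReal_integral_eq_lintegral_ofReal
    hint.restrict (Filter.Eventually.of_forall fun ξ =>
      Finset.prod_nonneg fun i _ => gaussianPDFReal_nonneg _ _ _), volume_pi,
    Measure.restrict_pi_pi, integral_fintype_prod_eq_prod,
    ENNReal.ofReal_prod_of_nonneg fun i _ => integral_nonneg fun x => gaussianPDFReal_nonneg _ _ _]
  exact Finset.prod_congr rfl fun i _ => (gaussianReal_apply_eq_integral 0 hv (s i)).symm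

end Leb

open Leb in
theorem leb : Stmt_leb := by
  intro D g hg hdep
  have hH : DepOn D (H (Ed D)) := by
    intro f f' hff
    unfold H
    refine Finset.sum_congr rfl fun e he => ?_
    obtain ⟨hs, ht⟩ := mem_Ed he
    rw [hff _ hs, hff _ ht]
  have hHm : Measurable fun f : Z2 → ℝ => H (Ed D) f := by
    unfold H
    fun_prop
  have hext : Measurable fun ξ : D → ℝ => ext D 0 ξ := by
    refine measurable_pi_lambda _ fun x => ?_
    unfold ext
    by_cases h : x ∈ D
    · simp only [h, dite_true]
      exact measurable_pi_apply _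
    · simp only [h, dite_false]
      exact measurable_const
  set G : (D → ℝ) → ℝ := fun ξ => g (ext D 0 ξ) * Real.exp (H (Ed D) (ext D 0 ξ)) with hG
  have hGm : Measurable G := (hg.comp hext).mul (hHm.comp hext).exp
  have h1 : ∀ f : Z2 → ℝ, g f * Real.exp (H (Ed D) f) = G (D.restrict f) := by
    intro f
    have hff : ∀ x ∈ D, f x = ext D 0 (D.restrict f) x := by
      intro x hx
      simp [ext, hx]
    simp only [hG]
    rw [hdep f _ hff, hH f _ hff]
  simp only [h1]
  have h2 : ∫ f, G (D.restrict f) ∂Gam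
      = ∫ ξ, G ξ ∂(Measure.pi fun _ : D => gaussianReal 0 (1 / 4)) := by
    have h3 : (Gam).map D.restrict = Measure.pi fun _ : D => gaussianReal 0 (1 / 4) :=
      Measure.infinitePi_map_restrict _
    rw [← h3, integral_map (Finset.measurable_restrict D).aemeasurable hGm.aestronglyMeasurable]
  rw [h2]
  rw [pi_gauss, integral_withDensity_eq_integral_toReal_smul (by fun_prop)
    (Filter.Eventually.of_forall fun _ => ENNReal.ofReal_lt_top), ← integral_const_mul]
  congr 1
  ext ξ
  rw [ENNReal.toReal_ofReal (Finset.prod_nonneg fun i _ => gaussianPDFReal_nonneg _ _ _),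
    Finset.prod_congr rfl fun i _ => pdf_eq (ξ i), Finset.prod_mul_distrib, ← Real.exp_sum,
    Finset.prod_const, Finset.card_univ, Fintype.card_coe, smul_eq_mul, hG]
  simp only
  have h3 : ∑ z ∈ D, ext D 0 ξ z ^ 2 = ∑ i, ξ i ^ 2 := by
    rw [← Finset.sum_coe_sort D]
    refine Finset.sum_congr rfl fun a _ => ?_
    simp [ext]
  have h4 : Real.exp (-En0 D (ext D 0 ξ) / 2)
      = Real.exp (∑ i, -2 * ξ i ^ 2) * Real.exp (H (Ed D) (ext D 0 ξ)) := by
    rw [← Real.exp_add, En0, h3, ← Finset.mul_sum]
    congr 1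
    ring
  rw [h4]
  ring

end LSoup
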