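import Pool.Agent.LSoup.Final

/-!
Length of shortest paths (module G5a).
-/

open MeasureTheory ProbabilityTheory Finset Filter Topology

open scoped Classical

noncomputable section

namespace LSoup

theorem walk_sub {O : Finset Edge} {U : Finset Z2} (hO : ∀ e ∈ O, src e ∈ U ∧ tgt e ∈ U)
    {x y : Z2} (p : (gr O).Walk x y) (hx : x ∈ U) : ∀ z ∈ p.support, z ∈ U := by
  induction p with
  | nil =>
    intro z hz
    rw [SimpleGraph.Walk.support_nil, List.mem_singleton] at hz
    rw [hz]
    exact hx
  | @cons u v w h p ih =>
    have hv : v ∈ U := by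
      have h1 : u ≠ v ∧ (Joined O u v ∨ Joined O v u) := (SimpleGraph.fromRel_adj _ _ _).1 h
      rcases h1.2 with ⟨e, he, h2⟩ | ⟨e, he, h2⟩
      · rcases h2 with ⟨_, h3⟩ | ⟨h3, _⟩
        · rw [← h3]
          exact (hO e he).2
        · rw [← h3]
          exact (hO e he).1
      · rcases h2 with ⟨h3, _⟩ | ⟨_, h3⟩
        · rw [← h3]
          exact (hO e he).1
        · rw [← h3]
          exact (hO e he).2
    intro z hz
    rw [SimpleGraph.Walk.support_cons, List.mem_cons] at hz
    rcases hz with rfl | hz
    · exact hx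
    · exact ih hv z hz

theorem len_ : Stmt_len := by
  intro O U x y hx hxy hO
  have hr : (gr O).Reachable x y := by
    induction hxy with
    | refl => exact SimpleGraph.Reachable.refl _
    | @tail b c _ hbc ih =>
      refine ih.trans ?_
      by_cases h : b = c
      · rw [h]
      · exact SimpleGraph.Adj.reachable ((SimpleGraph.fromRel_adj _ _ _).2 ⟨h, Or.inl hbc⟩)
  refine ⟨hr, ?_⟩
  obtain ⟨p, hp, hl⟩ := hr.exists_path_of_dist
  have h1 : p.support.toFinset ⊆ U := by
    intro z hz
    rw [List.mem_toFinset] at hz
    exact walk_sub hO p hx z hz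
  have h2 := Finset.card_le_card h1
  rw [List.toFinset_card_of_nodup hp.support_nodup, SimpleGraph.Walk.length_support] at h2
  omega

end LSoup
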