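import Pool.Agent.LSoup.Stmts

/-!
The logarithmic cut-off function.
-/

open MeasureTheory ProbabilityTheory Finset Filter Topology

open scoped Classical

noncomputable section

namespace LSoup

/-- the value of the cut-off function on the ring of radius `s` -/
def gLog (p P s : ℕ) : ℝ :=
  if s ≤ p then 1 else if P ≤ s then 0 else Real.log ((P : ℝ) / s) / Real.log ((P : ℝ) / p)

/-- the edges between the rings of radii `m` and `m + 1` -/
def ringE (z : Z2) (m : ℕ) : Finset Edge :=
  ((({z.1 + m, z.1 - m - 1} : Finset ℤ) ×ˢ Finset.Icc (z.2 - m) (z.2 + m)).image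
      fun x => (x, true)) ∪
    ((Finset.Icc (z.1 - m) (z.1 + m) ×ˢ ({z.2 + m, z.2 - m - 1} : Finset ℤ)).image
      fun x => (x, false))

theorem card_ringE (z : Z2) (m : ℕ) : ((ringE z m).card : ℝ) ≤ 4 * (2 * m + 1) := by
  have h1 : (ringE z m).card ≤ 4 * (2 * m + 1) := by
    unfold ringE
    refine (Finset.card_union_le _ _).trans ?_
    have a1 : ((({z.1 + m, z.1 - m - 1} : Finset ℤ) ×ˢ Finset.Icc (z.2 - m) (z.2 + m)).image
        fun x : Z2 => ((x, true) : Edge)).card ≤ 2 * (2 * m + 1) := by
      refine Finset.card_image_le.trans ?_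
      rw [Finset.card_product, Int.card_Icc]
      refine Nat.mul_le_mul Finset.card_le_two ?_
      have : z.2 + (m : ℤ) + 1 - (z.2 - m) = 2 * m + 1 := by ring
      rw [this]; omega
    have a2 : ((Finset.Icc (z.1 - m) (z.1 + m) ×ˢ ({z.2 + m, z.2 - m - 1} : Finset ℤ)).image
        fun x : Z2 => ((x, false) : Edge)).card ≤ 2 * (2 * m + 1) := by
      refine Finset.card_image_le.trans ?_
      rw [Finset.card_product, Int.card_Icc, mul_comm]
      refine Nat.mul_le_mul Finset.card_le_two ?_
      have : z.1 + (m : ℤ) + 1 - (z.1 - m) = 2 * m + 1 := by ring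
      rw [this]; omega
    omega
  exact_mod_cast h1

theorem edge_ring (z : Z2) (e : Edge) :
    nrm (src e) z = nrm (tgt e) z ∨
    ∃ m, e ∈ ringE z m ∧ ((nrm (src e) z = m ∧ nrm (tgt e) z = m + 1) ∨
      (nrm (src e) z = m + 1 ∧ nrm (tgt e) z = m)) := by
  obtain ⟨⟨x1, x2⟩, b⟩ := e
  obtain ⟨z1, z2⟩ := z
  by_cases h : nrm (src ((x1, x2), b)) (z1, z2) = nrm (tgt ((x1, x2), b)) (z1, z2)
  · exact Or.inl h
  · right
    refine ⟨min (nrm (src ((x1, x2), b)) (z1, z2)) (nrm (tgt ((x1, x2), b)) (z1, z2)), ?_, ?_⟩
    · cases b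
      · simp only [nrm, src, tgt] at h ⊢
        simp only [Bool.false_eq_true, if_false] at h ⊢
        unfold ringE
        rw [Finset.mem_union]
        right
        rw [Finset.mem_image]
        refine ⟨(x1, x2), ?_, rfl⟩
        rw [Finset.mem_product]
        simp only [Finset.mem_Icc, Finset.mem_insert, Finset.mem_singleton]
        omega
      · simp only [nrm, src, tgt] at h ⊢
        simp only [if_true] at h ⊢
        unfold ringE
        rw [Finset.mem_union]
        left
        rw [Finset.mem_image]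
        refine ⟨(x1, x2), ?_, rfl⟩
        rw [Finset.mem_product]
        simp only [Finset.mem_Icc, Finset.mem_insert, Finset.mem_singleton]
        omega
    · cases b
      · simp only [nrm, src, tgt] at h ⊢
        simp only [Bool.false_eq_true, if_false] at h ⊢
        omega
      · simp only [nrm, src, tgt] at h ⊢
        simp only [if_true] at h ⊢
        omega

theorem gLog_step (p P m : ℕ) (hp : 1 ≤ p) (hL : 1 ≤ Real.log ((P : ℝ) / p)) (hpP : p < P) :
    (gLog p P m - gLog p P (m + 1)) ^ 2 ≤
      if m ∈ Finset.Ico p P then (1 / (m : ℝ)) ^ 2 / Real.log ((P : ℝ) / p) ^ 2 else 0 := by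
  have hp' : (0 : ℝ) < p := by exact_mod_cast hp
  have hP' : (0 : ℝ) < P := by exact_mod_cast (by omega : 0 < P)
  have hL0 : 0 < Real.log ((P : ℝ) / p) := by linarith
  split_ifs with hm
  · rw [Finset.mem_Ico] at hm
    have hm0 : (0 : ℝ) < m := by exact_mod_cast (by omega : 0 < m)
    have hm1 : (0 : ℝ) < (m : ℝ) + 1 := by linarith
    have e1 : gLog p P m = Real.log ((P : ℝ) / m) / Real.log ((P : ℝ) / p) := by
      unfold gLog
      split_ifs with h1 h2
      · have : m = p := by omega
        rw [this, div_self hL0.ne']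
      · omega
      · rfl
    have e2 : gLog p P (m + 1) = Real.log ((P : ℝ) / (m + 1)) / Real.log ((P : ℝ) / p) := by
      unfold gLog
      split_ifs with h1 h2
      · omega
      · have : P = m + 1 := by omega
        rw [this]
        push_cast
        rw [div_self hm1.ne', Real.log_one, zero_div]
      · push_cast; rfl
    have e3 : gLog p P m - gLog p P (m + 1)
        = (Real.log ((m : ℝ) + 1) - Real.log m) / Real.log ((P : ℝ) / p) := by
      rw [e1, e2, Real.log_div hP'.ne' hm0.ne', Real.log_div hP'.ne' hm1.ne']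
      ring
    have e4 : 0 ≤ Real.log ((m : ℝ) + 1) - Real.log m := by
      have := Real.log_le_log hm0 (by linarith : (m : ℝ) ≤ m + 1)
      linarith
    have e5 : Real.log ((m : ℝ) + 1) - Real.log m ≤ 1 / m := by
      rw [← Real.log_div hm1.ne' hm0.ne']
      have := Real.log_le_sub_one_of_pos (div_pos hm1 hm0)
      have h2 : ((m : ℝ) + 1) / m - 1 = 1 / m := by field_simp; ring
      linarith
    rw [e3, div_pow]
    gcongr
  · rw [Finset.mem_Ico, not_and_or, not_le, not_lt] at hm
    have : gLog p P m = gLog p P (m + 1) := by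
      unfold gLog
      rcases hm with hm | hm
      · rw [if_pos (by omega), if_pos (by omega)]
      · have a1 : ¬ m ≤ p := by omega
        have a2 : ¬ m + 1 ≤ p := by omega
        have a3 : P ≤ m + 1 := by omega
        simp only [a1, a2, hm, a3, if_true, if_false]
    rw [this]; simp

theorem sum_inv_le_log (p : ℕ) (hp : 1 ≤ p) (n : ℕ) :
    ∑ m ∈ Finset.Ico p (p + 1 + n), 1 / (m : ℝ) ≤
      1 / p + (Real.log ((p : ℝ) + n) - Real.log p) := by
  have hp' : (0 : ℝ) < p := by exact_mod_cast hp
  induction n with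
  | zero => simp
  | succ n ih =>
    rw [show p + 1 + (n + 1) = (p + 1 + n) + 1 by ring,
      Finset.sum_Ico_succ_top (by omega : p ≤ p + 1 + n)]
    have h1 : (0 : ℝ) < (p : ℝ) + n := by positivity
    have h2 : (0 : ℝ) < (p : ℝ) + n + 1 := by positivity
    have h3 := Real.log_le_sub_one_of_pos (div_pos h1 h2)
    rw [Real.log_div h1.ne' h2.ne'] at h3
    have h4 : ((p : ℝ) + n) / ((p : ℝ) + n + 1) - 1 = - (1 / ((p : ℝ) + n + 1)) := by
      field_simp; ring
    rw [h4] at h3
    push_cast
    have h5 : (p : ℝ) + 1 + n = p + n + 1 := by ring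
    have h6 : (p : ℝ) + (n + 1) = p + n + 1 := by ring
    rw [h5, h6]
    linarith

theorem log_ (he : Stmt_en) : Stmt_log := by
  intro z p P hp hP
  have hp' : (0 : ℝ) < p := by exact_mod_cast hp
  have hPp : Real.exp 1 ≤ (P : ℝ) / p := by
    rw [le_div_iff₀ hp']; exact hP
  have hL : 1 ≤ Real.log ((P : ℝ) / p) := by
    rw [Real.le_log_iff_exp_le (lt_of_lt_of_le (Real.exp_pos 1) hPp)]
    exact hPp
  have hL0 : 0 < Real.log ((P : ℝ) / p) := by linarith
  have hpP : p < P := by
    have h1 : (1 : ℝ) < (P : ℝ) / p := by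
      refine lt_of_lt_of_le ?_ hPp
      have := Real.add_one_lt_exp (one_ne_zero : (1 : ℝ) ≠ 0)
      linarith
    rw [lt_div_iff₀ hp', one_mul] at h1
    exact_mod_cast h1
  set L : ℝ := Real.log ((P : ℝ) / p) with hLdef
  refine ⟨fun x => gLog p P (nrm x z), ?_, ?_, ?_⟩
  · intro x hx
    simp [gLog, hx]
  · intro x hx
    show gLog p P (nrm x z) = 0
    unfold gLog
    rw [if_neg (by omega), if_pos hx]
  · have hoff : ∀ x, x ∉ bx z P → gLog p P (nrm x z) = 0 := by
      intro x hx
      have h1 : P ≤ nrm x z := by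
        by_contra h
        apply hx
        unfold bx
        rw [Finset.mem_product, Finset.mem_Icc, Finset.mem_Icc]
        unfold nrm at h
        omega
      unfold gLog
      rw [if_neg (by omega), if_pos h1]
    rw [(he (bx z P) (fun x => gLog p P (nrm x z)) hoff).2.1]
    unfold EnL
    have hstep : ∀ e : Edge, (gLog p P (nrm (src e) z) - gLog p P (nrm (tgt e) z)) ^ 2 ≤
        ∑ m ∈ Finset.Ico p P, if e ∈ ringE z m then (1 / (m : ℝ)) ^ 2 / L ^ 2 else 0 := by
      intro e
      have hnn : ∀ m ∈ Finset.Ico p P,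
          0 ≤ if e ∈ ringE z m then (1 / (m : ℝ)) ^ 2 / L ^ 2 else 0 := by
        intro m _
        split_ifs
        · positivity
        · exact le_rfl
      rcases edge_ring z e with h | ⟨m, hm, h⟩
      · rw [h, sub_self]
        simpa using Finset.sum_nonneg hnn
      · have h1 : (gLog p P (nrm (src e) z) - gLog p P (nrm (tgt e) z)) ^ 2
            = (gLog p P m - gLog p P (m + 1)) ^ 2 := by
          rcases h with ⟨h1, h2⟩ | ⟨h1, h2⟩
          · rw [h1, h2]
          · rw [h1, h2]; ring
        rw [h1]
        refine (gLog_step p P m hp hL hpP).trans ?_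
        by_cases hmI : m ∈ Finset.Ico p P
        · rw [if_pos hmI]
          refine le_trans ?_ (Finset.single_le_sum hnn hmI)
          rw [if_pos hm]
        · rw [if_neg hmI]
          exact Finset.sum_nonneg hnn
    calc ∑ e ∈ Ed (nbhd (bx z P) 1),
          (gLog p P (nrm (src e) z) - gLog p P (nrm (tgt e) z)) ^ 2
        ≤ ∑ e ∈ Ed (nbhd (bx z P) 1), ∑ m ∈ Finset.Ico p P,
            (if e ∈ ringE z m then (1 / (m : ℝ)) ^ 2 / L ^ 2 else 0) :=
          Finset.sum_le_sum fun e _ => hstep e
      _ = ∑ m ∈ Finset.Ico p P, ∑ e ∈ Ed (nbhd (bx z P) 1),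
            (if e ∈ ringE z m then (1 / (m : ℝ)) ^ 2 / L ^ 2 else 0) := Finset.sum_comm
      _ ≤ ∑ m ∈ Finset.Ico p P, 12 / L ^ 2 * (1 / (m : ℝ)) := by
          refine Finset.sum_le_sum fun m hm => ?_
          rw [Finset.mem_Ico] at hm
          have hm0 : (1 : ℝ) ≤ m := by exact_mod_cast (by omega : 1 ≤ m)
          rw [← Finset.sum_filter, Finset.sum_const, nsmul_eq_mul]
          have hc : (((Ed (nbhd (bx z P) 1)).filter fun e => e ∈ ringE z m).card : ℝ)
              ≤ 12 * m := by
            have h1 : ((Ed (nbhd (bx z P) 1)).filter fun e => e ∈ ringE z m).card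
                ≤ (ringE z m).card := by
              refine Finset.card_le_card fun e he' => ?_
              exact (Finset.mem_filter.1 he').2
            have h2 := card_ringE z m
            have h3 : (((Ed (nbhd (bx z P) 1)).filter fun e => e ∈ ringE z m).card : ℝ)
                ≤ ((ringE z m).card : ℝ) := by exact_mod_cast h1
            linarith
          calc (((Ed (nbhd (bx z P) 1)).filter fun e => e ∈ ringE z m).card : ℝ) *
                ((1 / (m : ℝ)) ^ 2 / L ^ 2)
              ≤ (12 * m) * ((1 / (m : ℝ)) ^ 2 / L ^ 2) := by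
                gcongr
            _ = 12 / L ^ 2 * (1 / (m : ℝ)) := by
                have : (m : ℝ) ≠ 0 := by linarith
                field_simp
      _ = 12 / L ^ 2 * ∑ m ∈ Finset.Ico p P, 1 / (m : ℝ) := by rw [Finset.mul_sum]
      _ ≤ 12 / L ^ 2 * (2 * L) := by
          gcongr
          obtain ⟨n, hn⟩ : ∃ n, P = p + 1 + n := ⟨P - (p + 1), by omega⟩
          have h1 := sum_inv_le_log p hp n
          rw [← hn] at h1
          have h2 : Real.log ((p : ℝ) + n) ≤ Real.log P := by
            refine Real.log_le_log (by positivity) ?_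
            rw [hn]; push_cast; linarith
          have h3 : (1 : ℝ) / p ≤ 1 := by
            rw [div_le_one hp']; exact_mod_cast hp
          have h4 : L = Real.log P - Real.log p := by
            have hP0 : (P : ℝ) ≠ 0 := by
              have : (0 : ℝ) < P := by exact_mod_cast (by omega : 0 < P)
              exact this.ne'
            rw [hLdef, Real.log_div hP0 hp'.ne']
          linarith
      _ = 24 / L := by
          field_simp; ring

end LSoup
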