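import Pool.Agent.LSoup.Stmts2

/-!
Loops that hit two sets and correlations.
-/

open MeasureTheory ProbabilityTheory Finset Filter Topology Matrix

open scoped Classical

noncomputable section

namespace LSoup

namespace MIAux

section LA
variable {n : Type*} [Fintype n] [DecidableEq n]

theorem eig_le_one {A : Matrix n n ℝ} (hA : A.IsHermitian) (h1 : (1 - A).PosSemidef) (i : n) :
    hA.eigenvalues i ≤ 1 := by
  have h2 := h1.dotProduct_mulVec_nonneg (⇑(hA.eigenvectorBasis i))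
  rw [sub_mulVec, dotProduct_sub, one_mulVec, hA.mulVec_eigenvectorBasis, dotProduct_smul] at h2
  have h3 : star (⇑(hA.eigenvectorBasis i)) ⬝ᵥ (⇑(hA.eigenvectorBasis i)) = (1 : ℝ) := by
    rw [dotProduct_comm, ← EuclideanSpace.inner_eq_star_dotProduct]
    simp [inner_self_eq_norm_sq_to_K, hA.eigenvectorBasis.orthonormal.1 i]
  rw [h3] at h2
  simp at h2
  exact h2

theorem det_le_quad {A : Matrix n n ℝ} (hA : A.PosDef) (h1 : (1 - A).PosSemidef) (y : n → ℝ) :
    A.det * (y ⬝ᵥ y) ≤ y ⬝ᵥ A *ᵥ y := by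
  have hH := hA.isHermitian
  have hdet : ∀ i, A.det ≤ hH.eigenvalues i := by
    intro i
    have h := hH.det_eq_prod_eigenvalues
    simp only [RCLike.ofReal_real_eq_id, id] at h
    rw [h, ← Finset.mul_prod_erase univ _ (mem_univ i)]
    apply mul_le_of_le_one_right (hA.posSemidef.eigenvalues_nonneg i)
    apply Finset.prod_le_one
    · intro j _; exact hA.posSemidef.eigenvalues_nonneg j
    · intro j _; exact eig_le_one hH h1 j
  have hsp := hH.spectral_theorem
  rw [Unitary.conjStarAlgAut_apply] at hsp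
  have key : (A - A.det • (1 : Matrix n n ℝ)).PosSemidef := by
    have e : A - A.det • (1 : Matrix n n ℝ) = (hH.eigenvectorUnitary : Matrix n n ℝ) *
        diagonal (fun i => hH.eigenvalues i - A.det) *
        (hH.eigenvectorUnitary : Matrix n n ℝ)ᴴ := by
      have e1 : diagonal (fun i => hH.eigenvalues i - A.det) =
          diagonal ((RCLike.ofReal : ℝ → ℝ) ∘ hH.eigenvalues) - A.det • (1 : Matrix n n ℝ) := by
        ext a b
        by_cases hab : a = b
        · subst hab; simp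
        · simp [hab]
      rw [e1, mul_sub, sub_mul]
      congr 1
      rw [mul_smul_comm, smul_mul_assoc, mul_one]
      congr 1
      exact (Unitary.coe_mul_star_self hH.eigenvectorUnitary).symm
    rw [e]
    apply PosSemidef.mul_mul_conjTranspose_same
    apply PosSemidef.diagonal
    intro i
    simp [hdet i]
  have := key.dotProduct_mulVec_nonneg y
  rw [sub_mulVec, dotProduct_sub, smul_mulVec, one_mulVec, dotProduct_smul] at this
  simp at this
  exact this

omit [DecidableEq n] in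
theorem quad_conj (A S : Matrix n n ℝ) (x : n → ℝ) :
    (S *ᵥ x) ⬝ᵥ (A *ᵥ (S *ᵥ x)) = x ⬝ᵥ ((Sᵀ * A * S) *ᵥ x) := by
  rw [mulVec_mulVec, ← mulVec_mulVec, ← mulVec_mulVec, ← mulVec_mulVec, dotProduct_mulVec x,
    vecMul_transpose]

open scoped MatrixOrder ComplexOrder in
theorem exists_gram {B : Matrix n n ℝ} (hB : B.PosSemidef) :
    ∃ S : Matrix n n ℝ, B = Sᵀ * S := by
  obtain ⟨S, hS⟩ := CStarAlgebra.nonneg_iff_eq_star_mul_self.mp hB.nonneg
  exact ⟨S, by rw [hS]; rfl⟩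

theorem det_ratio {A B : Matrix n n ℝ} (hA : A.PosDef) (hB : B.PosDef)
    (h1 : (B - A).PosSemidef) (x : n → ℝ) :
    A.det * (x ⬝ᵥ B *ᵥ x) ≤ B.det * (x ⬝ᵥ A *ᵥ x) := by
  obtain ⟨S, hS⟩ := exists_gram hB.posSemidef
  have hdB : 0 < B.det := hB.det_pos
  have hdS : S.det ≠ 0 := by
    intro h
    rw [hS, det_mul, h] at hdB
    simp at hdB
  have hSu : IsUnit S.det := isUnit_iff_ne_zero.mpr hdS
  have hSi : S * S⁻¹ = 1 := mul_nonsing_inv S hSu
  have hSi' : S⁻¹ * S = 1 := nonsing_inv_mul S hSu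
  set T := S⁻¹ with hT
  have hTinj : Function.Injective T.mulVec := by
    intro a b hab
    have := congrArg (S *ᵥ ·) hab
    simpa [mulVec_mulVec, hSi] using this
  have hA' : (Tᵀ * A * T).PosDef := by
    have := hA.conjTranspose_mul_mul_same (B := T) hTinj
    simpa [conjTranspose_eq_transpose_of_trivial] using this
  have h1' : (1 - Tᵀ * A * T).PosSemidef := by
    have := h1.conjTranspose_mul_mul_same T
    rw [conjTranspose_eq_transpose_of_trivial, mul_sub, sub_mul] at this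
    have e : Tᵀ * B * T = 1 := by
      rw [hS, ← mul_assoc, mul_assoc (Tᵀ * Sᵀ), hSi, mul_one, ← transpose_mul, hSi,
        transpose_one]
    rwa [e] at this
  have h := det_le_quad hA' h1' (S *ᵥ x)
  rw [quad_conj] at h
  have e2 : Sᵀ * (Tᵀ * A * T) * S = A := by
    have : Sᵀ * (Tᵀ * A * T) * S = (Sᵀ * Tᵀ) * A * (T * S) := by
      simp only [mul_assoc]
    rw [this, hSi', ← transpose_mul, hSi', transpose_one, one_mul, mul_one]
  rw [e2] at h
  have e3 : (S *ᵥ x) ⬝ᵥ (S *ᵥ x) = x ⬝ᵥ B *ᵥ x := by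
    have := quad_conj (1 : Matrix n n ℝ) S x
    rwa [one_mulVec, mul_one, ← hS] at this
  rw [e3] at h
  have e4 : (Tᵀ * A * T).det = A.det / B.det := by
    have hh : T.det * S.det = 1 := by rw [← det_mul, hSi', det_one]
    rw [det_mul, det_mul, det_transpose, hS, det_mul, det_transpose]
    rw [eq_div_iff (mul_ne_zero hdS hdS)]
    calc T.det * A.det * T.det * (S.det * S.det) = A.det * (T.det * S.det) * (T.det * S.det) := by
          ring
      _ = A.det := by rw [hh]; ring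
  rw [e4, div_mul_eq_mul_div, div_le_iff₀ hdB] at h
  linarith

/-- coordinate projection -/
def pj (S : Finset n) : Matrix n n ℝ := diagonal fun i => if i ∈ S then 1 else 0

omit [Fintype n] in
theorem pj_tr (S : Finset n) : (pj S)ᵀ = pj S := by simp [pj]

theorem pj_mul (S T : Finset n) : pj S * pj T = pj (S ∩ T) := by
  rw [pj, pj, diagonal_mul_diagonal, pj]
  congr 1
  ext i
  by_cases h : i ∈ S <;> by_cases h' : i ∈ T <;> simp [h, h']

omit [Fintype n] in
theorem pj_empty : pj (∅ : Finset n) = 0 := by simp [pj]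

omit [Fintype n] in
theorem pj_add {S T : Finset n} (h : Disjoint S T) : pj S + pj T = pj (S ∪ T) := by
  rw [pj, pj, diagonal_add, pj]
  congr 1
  ext i
  by_cases h1 : i ∈ S <;> by_cases h2 : i ∈ T
  · exact absurd h2 (Finset.disjoint_left.mp h h1)
  all_goals simp [h1, h2]

theorem pj_univ : pj (univ : Finset n) = 1 := by simp [pj]

theorem pj_add_compl (S : Finset n) : pj Sᶜ + pj S = 1 := by
  rw [pj_add disjoint_compl_left, ← pj_univ]
  congr 1
  ext i; simp [em']

theorem pj_mul_compl (S : Finset n) : pj S * pj Sᶜ = 0 := by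
  rw [pj_mul, inter_compl, pj_empty]

theorem pj_compl_mul (S : Finset n) : pj Sᶜ * pj S = 0 := by
  rw [pj_mul, inter_comm, inter_compl, pj_empty]

theorem pj_self (S : Finset n) : pj S * pj S = pj S := by
  rw [pj_mul, inter_self]

theorem pj_mulVec (S : Finset n) (u : n → ℝ) :
    pj S *ᵥ u = fun i => if i ∈ S then u i else 0 := by
  ext i
  rw [pj, mulVec_diagonal]
  by_cases h : i ∈ S <;> simp [h]

/-- the matrix `M` restricted to `S`, identity off `S` -/
def res (S : Finset n) (M : Matrix n n ℝ) : Matrix n n ℝ := pj S * M * pj S + pj Sᶜ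

theorem jac {M G P Q : Matrix n n ℝ} (hGM : G * M = 1) (hPQ : P + Q = 1) (h1 : P * Q = 0)
    (h2 : Q * P = 0) : (Q * G * Q + P).det * M.det = (P * M * P + Q).det := by
  have hPP : P * P = P := by
    have := congrArg (P * ·) hPQ
    simpa [mul_add, h1] using this
  have hQQ : Q * Q = Q := by
    have := congrArg (Q * ·) hPQ
    simpa [mul_add, h2] using this
  have e1 : (Q * G * Q + P) * (1 + P * (G * Q)) = P + G * Q := by
    have a1 : Q * G * Q * (P * (G * Q)) = 0 := by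
      rw [mul_assoc (Q * G), ← mul_assoc Q P, h2, zero_mul, mul_zero]
    have a2 : P * (P * (G * Q)) = P * (G * Q) := by rw [← mul_assoc, hPP]
    rw [add_mul, mul_add, mul_one, mul_add, mul_one, a1, a2, add_zero]
    have : G * Q = P * (G * Q) + Q * (G * Q) := by rw [← add_mul, hPQ, one_mul]
    conv_rhs => rw [this]
    rw [← mul_assoc Q G Q]; abel
  have e2 : (P * M * P + Q) * (1 + Q * (M * P)) = M * P + Q := by
    have a1 : P * M * P * (Q * (M * P)) = 0 := by
      rw [mul_assoc (P * M), ← mul_assoc P Q, h1, zero_mul, mul_zero]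
    have a2 : Q * (Q * (M * P)) = Q * (M * P) := by rw [← mul_assoc, hQQ]
    rw [add_mul, mul_add, mul_one, mul_add, mul_one, a1, a2, add_zero]
    have : M * P = P * (M * P) + Q * (M * P) := by rw [← add_mul, hPQ, one_mul]
    conv_rhs => rw [this]
    rw [← mul_assoc P M P]; abel
  have d1 : (1 + P * (G * Q)).det = 1 := by
    rw [det_one_add_mul_comm, mul_assoc, h2, mul_zero, add_zero, det_one]
  have d2 : (1 + Q * (M * P)).det = 1 := by
    rw [det_one_add_mul_comm, mul_assoc, h1, mul_zero, add_zero, det_one]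
  have e3 : P + G * Q = G * (M * P + Q) := by
    rw [mul_add, ← mul_assoc, hGM, one_mul]
  have c1 : (Q * G * Q + P).det = (P + G * Q).det := by
    rw [← e1, det_mul, d1, mul_one]
  have c2 : (P * M * P + Q).det = (M * P + Q).det := by
    rw [← e2, det_mul, d2, mul_one]
  rw [c1, c2, e3, det_mul]
  have : G.det * M.det = 1 := by rw [← det_mul, hGM, det_one]
  calc G.det * (M * P + Q).det * M.det = (G.det * M.det) * (M * P + Q).det := by ring
    _ = _ := by rw [this, one_mul]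

omit [DecidableEq n] in
theorem symm_dot {M : Matrix n n ℝ} (hM : M.IsHermitian) (x y : n → ℝ) :
    x ⬝ᵥ M *ᵥ y = y ⬝ᵥ M *ᵥ x := by
  have h : Mᵀ = M := by simpa [conjTranspose_eq_transpose_of_trivial] using hM.eq
  rw [dotProduct_mulVec, ← mulVec_transpose, h, dotProduct_comm]

theorem quad_pj (M : Matrix n n ℝ) (S : Finset n) (x y : n → ℝ) :
    x ⬝ᵥ (res S M) *ᵥ y = (pj S *ᵥ x) ⬝ᵥ M *ᵥ (pj S *ᵥ y) + (pj Sᶜ *ᵥ x) ⬝ᵥ (pj Sᶜ *ᵥ y) := by
  rw [res, add_mulVec, dotProduct_add]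
  congr 1
  · rw [mul_assoc, ← mulVec_mulVec, dotProduct_mulVec, ← mulVec_transpose, pj_tr, mulVec_mulVec]
  · conv_lhs => rw [← pj_self, ← mulVec_mulVec, dotProduct_mulVec, ← mulVec_transpose, pj_tr]

theorem res_posDef {M : Matrix n n ℝ} (hM : M.PosDef) (S : Finset n) : (res S M).PosDef := by
  apply PosDef.of_dotProduct_mulVec_pos
  · have h : Mᵀ = M := by simpa [conjTranspose_eq_transpose_of_trivial] using hM.isHermitian.eq
    rw [IsHermitian, conjTranspose_eq_transpose_of_trivial, res, transpose_add, transpose_mul,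
      transpose_mul, pj_tr, pj_tr, h, mul_assoc]
  · intro x hx
    rw [star_trivial, quad_pj]
    by_cases h : pj S *ᵥ x = 0
    · have h2 : pj Sᶜ *ᵥ x = x := by
        have := congrArg (· *ᵥ x) (pj_add_compl S)
        simpa [add_mulVec, h] using this
      rw [h, h2]
      simp only [mulVec_zero, dotProduct_zero, zero_add]
      have := dotProduct_star_self_pos_iff.mpr hx
      simpa using this
    · have h1 := hM.dotProduct_mulVec_pos h
      rw [star_trivial] at h1
      have h2 : 0 ≤ (pj Sᶜ *ᵥ x) ⬝ᵥ (pj Sᶜ *ᵥ x) := by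
        have := dotProduct_star_self_nonneg (pj Sᶜ *ᵥ x)
        simpa using this
      linarith

/-- variational bound for the killed Green function -/
theorem vari {M : Matrix n n ℝ} (hM : M.PosDef) (T : Finset n) (u w : n → ℝ)
    (hu : ∀ i ∈ T, u i = 0) (hw : ∀ i, i ∉ T → w i = 0) :
    u ⬝ᵥ (res Tᶜ M)⁻¹ *ᵥ u ≤ (u - w) ⬝ᵥ M⁻¹ *ᵥ (u - w) := by
  have hM' := res_posDef hM Tᶜ
  set M' := res Tᶜ M with hM'd
  set g := M'⁻¹ *ᵥ u with hg
  have hMg : M' *ᵥ g = u := by
    rw [hg, mulVec_mulVec, mul_nonsing_inv _ (isUnit_iff_ne_zero.mpr hM'.det_pos.ne'), one_mulVec]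
  clear_value g
  have hTM : pj T * M' = pj T := by
    rw [hM'd, res, mul_add, ← mul_assoc, ← mul_assoc, pj_mul_compl, zero_mul, zero_mul, zero_add,
      compl_compl, pj_self]
  have hpu : pj T *ᵥ u = 0 := by
    rw [pj_mulVec]; ext i
    by_cases h : i ∈ T
    · simp [h, hu i h]
    · simp [h]
  have hpg : pj T *ᵥ g = 0 := by
    rw [← hTM, ← mulVec_mulVec, hMg, hpu]
  have hpg' : pj Tᶜ *ᵥ g = g := by
    have := congrArg (· *ᵥ g) (pj_add_compl T)
    simpa [add_mulVec, hpg] using this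
  have hgM : g ⬝ᵥ M *ᵥ g = g ⬝ᵥ u := by
    have := quad_pj M Tᶜ g g
    rw [← hM'd, hMg, hpg', compl_compl, hpg] at this
    simpa using this.symm
  have hgw : w ⬝ᵥ g = 0 := by
    rw [dotProduct]
    apply Finset.sum_eq_zero
    intro i _
    by_cases h : i ∈ T
    · have := congrFun hpg i
      rw [pj_mulVec] at this
      simp [h] at this
      simp [this]
    · simp [hw i h]
  have hMu : IsUnit M.det := isUnit_iff_ne_zero.mpr hM.det_pos.ne'
  have hk := hM.inv.posSemidef.dotProduct_mulVec_nonneg ((u - w) - M *ᵥ g)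
  rw [star_trivial, mulVec_sub, mulVec_mulVec, nonsing_inv_mul _ hMu, one_mulVec, sub_dotProduct,
    dotProduct_sub, dotProduct_sub] at hk
  have h3 : (M *ᵥ g) ⬝ᵥ M⁻¹ *ᵥ (u - w) = (u - w) ⬝ᵥ g := by
    rw [symm_dot hM.inv.isHermitian, mulVec_mulVec, nonsing_inv_mul _ hMu, one_mulVec]
  have h4 : (M *ᵥ g) ⬝ᵥ g = g ⬝ᵥ u := by rw [dotProduct_comm, hgM]
  have h5 : (u - w) ⬝ᵥ g = u ⬝ᵥ g := by rw [sub_dotProduct, hgw, sub_zero]
  rw [h3, h4, h5, dotProduct_comm g u] at hk
  linarith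

theorem la_main {M : Matrix n n ℝ} (hM : M.PosDef) (S T : Finset n) (hST : Disjoint S T)
    (u v : n → ℝ) (hu : ∀ i, i ∉ S → u i = 0) (hv : ∀ i, i ∉ T → v i = 0) :
    M.det * (res (S ∪ T)ᶜ M).det * ((u ⬝ᵥ M⁻¹ *ᵥ u) * (v ⬝ᵥ M⁻¹ *ᵥ v)) ≤
      (res Sᶜ M).det * (res Tᶜ M).det *
        ((u ⬝ᵥ M⁻¹ *ᵥ u) * (v ⬝ᵥ M⁻¹ *ᵥ v) - (u ⬝ᵥ M⁻¹ *ᵥ v) ^ 2) := by
  have hM' := res_posDef hM Tᶜ
  have hB := res_posDef hM.inv S
  have hA := res_posDef hM'.inv S
  have hMu : IsUnit M.det := isUnit_iff_ne_zero.mpr hM.det_pos.ne'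
  have hM'u : IsUnit (res Tᶜ M).det := isUnit_iff_ne_zero.mpr hM'.det_pos.ne'
  have hBA : (res S M⁻¹ - res S (res Tᶜ M)⁻¹).PosSemidef := by
    apply PosSemidef.of_dotProduct_mulVec_nonneg (hB.isHermitian.sub hA.isHermitian)
    intro x
    rw [star_trivial, sub_mulVec, dotProduct_sub, quad_pj, quad_pj]
    have := vari hM T (pj S *ᵥ x) 0 (by
      intro i hi
      rw [pj_mulVec]
      have : i ∉ S := Finset.disjoint_right.mp hST hi
      simp [this]) (by simp)
    rw [sub_zero] at this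
    linarith
  have h1 := det_ratio hA hB hBA u
  have hpu : pj S *ᵥ u = u := by
    rw [pj_mulVec]; ext i
    by_cases h : i ∈ S <;> simp [h, hu]
  have hpu' : pj Sᶜ *ᵥ u = 0 := by
    rw [pj_mulVec]; ext i
    by_cases h : i ∈ S <;> simp [h, hu]
  rw [quad_pj, quad_pj, hpu, hpu', dotProduct_zero, add_zero, add_zero] at h1
  have j1 : (res S M⁻¹).det * M.det = (res Sᶜ M).det := by
    rw [res, res, compl_compl]
    exact jac (nonsing_inv_mul _ hMu) (pj_add_compl S) (pj_compl_mul S) (pj_mul_compl S)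
  have j2 : (res S (res Tᶜ M)⁻¹).det * (res Tᶜ M).det = (res (S ∪ T)ᶜ M).det := by
    rw [res, jac (nonsing_inv_mul _ hM'u) (pj_add_compl S) (pj_compl_mul S) (pj_mul_compl S)]
    congr 1
    rw [res, res, mul_add, add_mul, ← mul_assoc, ← mul_assoc, pj_mul, mul_assoc, pj_mul,
      compl_compl, compl_compl, pj_mul, pj_mul, add_assoc]
    have e1 : Sᶜ ∩ Tᶜ = (S ∪ T)ᶜ := by rw [compl_union]
    have e2 : Tᶜ ∩ Sᶜ = (S ∪ T)ᶜ := by rw [inter_comm, compl_union]
    have e3 : Sᶜ ∩ T ∩ Sᶜ = T := by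
      ext i
      simp only [mem_inter, mem_compl]
      constructor
      · rintro ⟨⟨_, h⟩, _⟩; exact h
      · intro h
        have : i ∉ S := Finset.disjoint_right.mp hST h
        exact ⟨⟨this, h⟩, this⟩
    rw [e1, e2, e3, pj_add hST.symm, union_comm T S]
  have hvv : 0 ≤ v ⬝ᵥ M⁻¹ *ᵥ v := by
    have := hM.inv.posSemidef.dotProduct_mulVec_nonneg v
    simpa using this
  have hcs : (u ⬝ᵥ (res Tᶜ M)⁻¹ *ᵥ u) * (v ⬝ᵥ M⁻¹ *ᵥ v) ≤
      (u ⬝ᵥ M⁻¹ *ᵥ u) * (v ⬝ᵥ M⁻¹ *ᵥ v) - (u ⬝ᵥ M⁻¹ *ᵥ v) ^ 2 := by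
    by_cases hv0 : v = 0
    · subst hv0; simp
    · have hvp : 0 < v ⬝ᵥ M⁻¹ *ᵥ v := by
        have := hM.inv.dotProduct_mulVec_pos hv0
        simpa using this
      set b := v ⬝ᵥ M⁻¹ *ᵥ v with hb
      set c := u ⬝ᵥ M⁻¹ *ᵥ v with hc
      have := vari hM T u ((c / b) • v) (by
        intro i hi
        exact hu i (Finset.disjoint_right.mp hST hi)) (by
        intro i hi
        simp [hv i hi])
      have e : (u - (c / b) • v) ⬝ᵥ M⁻¹ *ᵥ (u - (c / b) • v) =
          u ⬝ᵥ M⁻¹ *ᵥ u - 2 * (c / b) * c + (c / b) ^ 2 * b := by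
        rw [mulVec_sub, mulVec_smul, sub_dotProduct, dotProduct_sub, dotProduct_sub,
          smul_dotProduct, smul_dotProduct, dotProduct_smul, dotProduct_smul,
          symm_dot hM.inv.isHermitian v u, ← hb, ← hc]
        simp only [smul_eq_mul]
        ring
      rw [e] at this
      have h6 := mul_le_mul_of_nonneg_right this hvp.le
      have h7 : (u ⬝ᵥ M⁻¹ *ᵥ u - 2 * (c / b) * c + (c / b) ^ 2 * b) * b =
          (u ⬝ᵥ M⁻¹ *ᵥ u) * b - c ^ 2 := by
        field_simp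
        ring
      rw [h7] at h6
      exact h6
  have hdM := hM.det_pos
  have hdM' := hM'.det_pos
  have hdS : 0 < (res Sᶜ M).det := (res_posDef hM Sᶜ).det_pos
  calc M.det * (res (S ∪ T)ᶜ M).det * ((u ⬝ᵥ M⁻¹ *ᵥ u) * (v ⬝ᵥ M⁻¹ *ᵥ v))
      = ((res S (res Tᶜ M)⁻¹).det * (u ⬝ᵥ M⁻¹ *ᵥ u)) *
          (M.det * (res Tᶜ M).det * (v ⬝ᵥ M⁻¹ *ᵥ v)) := by rw [← j2]; ring
    _ ≤ ((res S M⁻¹).det * (u ⬝ᵥ (res Tᶜ M)⁻¹ *ᵥ u)) *
          (M.det * (res Tᶜ M).det * (v ⬝ᵥ M⁻¹ *ᵥ v)) := by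
        apply mul_le_mul_of_nonneg_right h1
        positivity
    _ = ((res Sᶜ M).det * (res Tᶜ M).det) *
          ((u ⬝ᵥ (res Tᶜ M)⁻¹ *ᵥ u) * (v ⬝ᵥ M⁻¹ *ᵥ v)) := by rw [← j1]; ring
    _ ≤ _ := by
        apply mul_le_mul_of_nonneg_left hcs
        positivity

end LA

/-- the four neighbours -/
def nbr (x y : Z2) : Prop :=
  y = (x.1 + 1, x.2) ∨ y = (x.1 - 1, x.2) ∨ y = (x.1, x.2 + 1) ∨ y = (x.1, x.2 - 1)

theorem joined_iff (S : Finset Z2) (x y : Z2) :
    Joined (Ed S) x y ↔ x ∈ S ∧ y ∈ S ∧ nbr x y := by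
  constructor
  · rintro ⟨e, he, h⟩
    obtain ⟨⟨a, b⟩, t⟩ := e
    simp only [Ed, mem_filter, mem_product, mem_univ, and_true] at he
    cases t
    · simp only [src, tgt, Bool.false_eq_true, if_false] at he h
      rcases h with ⟨rfl, rfl⟩ | ⟨rfl, rfl⟩
      · exact ⟨he.1, he.2, Or.inr (Or.inr (Or.inl rfl))⟩
      · refine ⟨he.2, he.1, Or.inr (Or.inr (Or.inr ?_))⟩
        simp
    · simp only [src, tgt, if_true] at he h
      rcases h with ⟨rfl, rfl⟩ | ⟨rfl, rfl⟩
      · exact ⟨he.1, he.2, Or.inl rfl⟩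
      · refine ⟨he.2, he.1, Or.inr (Or.inl ?_)⟩
        simp
  · rintro ⟨hx, hy, h⟩
    obtain ⟨a, b⟩ := x
    rcases h with rfl | rfl | rfl | rfl
    · refine ⟨((a, b), true), ?_, Or.inl ⟨rfl, ?_⟩⟩
      · simp only [Ed, mem_filter, mem_product, mem_univ, and_true, tgt, if_true]
        exact ⟨hx, hy⟩
      · simp [tgt]
    · refine ⟨((a - 1, b), true), ?_, Or.inr ⟨rfl, ?_⟩⟩
      · simp only [Ed, mem_filter, mem_product, mem_univ, and_true, tgt, if_true]
        exact ⟨hy, by simpa using hx⟩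
      · simp [tgt]
    · refine ⟨((a, b), false), ?_, Or.inl ⟨rfl, ?_⟩⟩
      · simp only [Ed, mem_filter, mem_product, mem_univ, and_true, tgt]
        exact ⟨hx, by simpa using hy⟩
      · simp [tgt]
    · refine ⟨((a, b - 1), false), ?_, Or.inr ⟨rfl, ?_⟩⟩
      · simp only [Ed, mem_filter, mem_product, mem_univ, and_true, tgt]
        exact ⟨hy, by simpa using hx⟩
      · simp [tgt]

theorem nbr_ind (x y : Z2) : (if nbr x y then (1 : ℝ) else 0) =
    (if y = (x.1 + 1, x.2) then 1 else 0) + (if y = (x.1 - 1, x.2) then 1 else 0) +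
    (if y = (x.1, x.2 + 1) then 1 else 0) + (if y = (x.1, x.2 - 1) then 1 else 0) := by
  obtain ⟨a, b⟩ := x
  obtain ⟨p, q⟩ := y
  simp only [nbr, Prod.mk.injEq]
  by_cases h1 : p = a + 1 ∧ q = b
  · rw [if_pos (Or.inl h1), if_pos h1, if_neg (by omega), if_neg (by omega), if_neg (by omega)]
    norm_num
  · by_cases h2 : p = a - 1 ∧ q = b
    · rw [if_pos (Or.inr (Or.inl h2)), if_neg h1, if_pos h2, if_neg (by omega),
        if_neg (by omega)]
      norm_num
    · by_cases h3 : p = a ∧ q = b + 1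
      · rw [if_pos (Or.inr (Or.inr (Or.inl h3))), if_neg h1, if_neg h2, if_pos h3,
          if_neg (by omega)]
        norm_num
      · by_cases h4 : p = a ∧ q = b - 1
        · rw [if_pos (Or.inr (Or.inr (Or.inr h4))), if_neg h1, if_neg h2, if_neg h3, if_pos h4]
          norm_num
        · rw [if_neg (by tauto), if_neg h1, if_neg h2, if_neg h3, if_neg h4]
          norm_num

/-- extension by zero -/
def ext0 (D : Finset Z2) (f : D → ℝ) (x : Z2) : ℝ := if h : x ∈ D then f ⟨x, h⟩ else 0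

theorem sum_single (D : Finset Z2) (f : D → ℝ) (a : Z2) :
    ∑ y : D, (if (y : Z2) = a then (1 : ℝ) else 0) * f y = ext0 D f a := by
  by_cases h : a ∈ D
  · rw [Finset.sum_eq_single ⟨a, h⟩]
    · simp [ext0, h]
    · intro b _ hb
      have : (b : Z2) ≠ a := fun h' => hb (Subtype.ext h')
      simp [this]
    · simp
  · apply (Finset.sum_eq_zero _).trans
    · simp [ext0, h]
    · intro y _
      have : (y : Z2) ≠ a := fun h' => h (h' ▸ y.2)
      simp [this]

theorem adj_mulVec (D : Finset Z2) (f : D → ℝ) (x : D) :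
    (adjM D (Ed D) *ᵥ f) x = ext0 D f ((x : Z2).1 + 1, (x : Z2).2) +
      ext0 D f ((x : Z2).1 - 1, (x : Z2).2) + ext0 D f ((x : Z2).1, (x : Z2).2 + 1) +
      ext0 D f ((x : Z2).1, (x : Z2).2 - 1) := by
  rw [mulVec, dotProduct]
  have : ∀ y : D, adjM D (Ed D) x y * f y =
      (if (y : Z2) = ((x : Z2).1 + 1, (x : Z2).2) then (1 : ℝ) else 0) * f y +
      (if (y : Z2) = ((x : Z2).1 - 1, (x : Z2).2) then (1 : ℝ) else 0) * f y +
      (if (y : Z2) = ((x : Z2).1, (x : Z2).2 + 1) then (1 : ℝ) else 0) * f y +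
      (if (y : Z2) = ((x : Z2).1, (x : Z2).2 - 1) then (1 : ℝ) else 0) * f y := by
    intro y
    rw [← add_mul, ← add_mul, ← add_mul, ← nbr_ind]
    congr 1
    simp only [adjM, Matrix.of_apply, joined_iff, x.2, y.2, true_and]
  rw [Finset.sum_congr rfl fun y _ => this y]
  rw [Finset.sum_add_distrib, Finset.sum_add_distrib, Finset.sum_add_distrib, sum_single,
    sum_single, sum_single, sum_single]

/-- the matrix `1 - A / 4` -/
def MM (D : Finset Z2) : Matrix D D ℝ := 1 - (1 / 4 : ℝ) • adjM D (Ed D)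

theorem MM_mulVec (D : Finset Z2) (f : D → ℝ) (x : D) :
    4 * (MM D *ᵥ f) x = lap (ext0 D f) x := by
  rw [MM, sub_mulVec, one_mulVec, smul_mulVec, Pi.sub_apply, Pi.smul_apply, adj_mulVec, lap]
  have : ext0 D f x = f x := by simp [ext0]
  rw [this, smul_eq_mul]
  ring

theorem MM_symm (D : Finset Z2) : (MM D).IsHermitian := by
  rw [IsHermitian, conjTranspose_eq_transpose_of_trivial, MM, transpose_sub, transpose_one,
    transpose_smul]
  congr 2
  ext x y
  simp only [transpose_apply, adjM, Matrix.of_apply, Joined]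
  congr 1
  apply propext
  constructor <;> rintro ⟨e, he, h | h⟩ <;> exact ⟨e, he, by tauto⟩

theorem res_MM (D S : Finset Z2) (T : Finset D) (hT : ∀ x : D, x ∈ T ↔ (x : Z2) ∈ S) :
    res T (MM D) = 1 - (1 / 4 : ℝ) • adjM D (Ed S) := by
  ext x y
  simp only [res, pj, Matrix.add_apply, diagonal_mul, mul_diagonal, MM, Matrix.sub_apply,
    Matrix.smul_apply, diagonal_apply, mem_compl, hT, one_apply, adjM, Matrix.of_apply, joined_iff, smul_eq_mul]
  by_cases hx : (x : Z2) ∈ S <;> by_cases hy : (y : Z2) ∈ S <;> by_cases hxy : x = y <;>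
    simp_all

/-- sum over vertices of D of a function that involves the next vertex -/
theorem quad_adj (D : Finset Z2) (f : Z2 → ℝ) :
    (fun x : D => f x) ⬝ᵥ (adjM D (Ed D) *ᵥ fun x : D => f x) = 2 * H (Ed D) f := by
  set F : Z2 → ℝ := fun x => if x ∈ D then f x else 0 with hF
  have hext : ext0 D (fun x : D => f x) = F := by
    ext x
    by_cases h : x ∈ D <;> simp [ext0, hF, h]
  have h1 : (fun x : D => f x) ⬝ᵥ (adjM D (Ed D) *ᵥ fun x : D => f x) =
      ∑ x ∈ D, f x * (F (x.1 + 1, x.2) + F (x.1 - 1, x.2) + F (x.1, x.2 + 1) +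
        F (x.1, x.2 - 1)) := by
    rw [dotProduct, ← Finset.sum_coe_sort D]
    apply Finset.sum_congr rfl
    intro x _
    rw [adj_mulVec, hext]
  have h2 : H (Ed D) f = ∑ x ∈ D, f x * (F (x.1 + 1, x.2) + F (x.1, x.2 + 1)) := by
    rw [H, Ed, Finset.sum_filter, Finset.sum_product]
    apply Finset.sum_congr rfl
    intro x _
    rw [Fintype.sum_bool]
    simp only [tgt, src, if_true, Bool.false_eq_true, if_false, hF]
    rw [mul_add, mul_ite, mul_zero, mul_ite, mul_zero]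
  have h3 : ∑ x ∈ D, f x * F (x.1 - 1, x.2) = ∑ x ∈ D, f x * F (x.1 + 1, x.2) := by
    have a1 : ∑ x ∈ D, f x * F (x.1 - 1, x.2) =
        ∑ x ∈ D.filter (fun x => ((x.1 - 1, x.2) : Z2) ∈ D), f x * f (x.1 - 1, x.2) := by
      rw [Finset.sum_filter]
      apply Finset.sum_congr rfl
      intro x _
      simp only [hF]
      rw [mul_ite, mul_zero]
    have a2 : ∑ x ∈ D, f x * F (x.1 + 1, x.2) =
        ∑ x ∈ D.filter (fun x => ((x.1 + 1, x.2) : Z2) ∈ D), f x * f (x.1 + 1, x.2) := by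
      rw [Finset.sum_filter]
      apply Finset.sum_congr rfl
      intro x _
      simp only [hF]
      rw [mul_ite, mul_zero]
    rw [a1, a2]
    apply Finset.sum_bij' (fun x _ => ((x.1 - 1, x.2) : Z2)) (fun x _ => ((x.1 + 1, x.2) : Z2))
    · intro x hx; simp only [mem_filter, sub_add_cancel, Prod.mk.eta] at hx ⊢; exact ⟨hx.2, hx.1⟩
    · intro x hx
      simp only [mem_filter, add_sub_cancel_right, Prod.mk.eta] at hx ⊢; exact ⟨hx.2, hx.1⟩
    · intro x _; simp
    · intro x _; simp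
    · intro x _; simp only [sub_add_cancel, Prod.mk.eta]; ring
  have h4 : ∑ x ∈ D, f x * F (x.1, x.2 - 1) = ∑ x ∈ D, f x * F (x.1, x.2 + 1) := by
    have a1 : ∑ x ∈ D, f x * F (x.1, x.2 - 1) =
        ∑ x ∈ D.filter (fun x => ((x.1, x.2 - 1) : Z2) ∈ D), f x * f (x.1, x.2 - 1) := by
      rw [Finset.sum_filter]
      apply Finset.sum_congr rfl
      intro x _
      simp only [hF]
      rw [mul_ite, mul_zero]
    have a2 : ∑ x ∈ D, f x * F (x.1, x.2 + 1) =
        ∑ x ∈ D.filter (fun x => ((x.1, x.2 + 1) : Z2) ∈ D), f x * f (x.1, x.2 + 1) := by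
      rw [Finset.sum_filter]
      apply Finset.sum_congr rfl
      intro x _
      simp only [hF]
      rw [mul_ite, mul_zero]
    rw [a1, a2]
    apply Finset.sum_bij' (fun x _ => ((x.1, x.2 - 1) : Z2)) (fun x _ => ((x.1, x.2 + 1) : Z2))
    · intro x hx; simp only [mem_filter, sub_add_cancel, Prod.mk.eta] at hx ⊢; exact ⟨hx.2, hx.1⟩
    · intro x hx
      simp only [mem_filter, add_sub_cancel_right, Prod.mk.eta] at hx ⊢; exact ⟨hx.2, hx.1⟩
    · intro x _; simp
    · intro x _; simp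
    · intro x _; simp only [sub_add_cancel, Prod.mk.eta]; ring
  rw [h1, h2]
  simp only [mul_add, Finset.sum_add_distrib] at h3 h4 ⊢
  rw [h3, h4]
  ring

theorem MM_posDef (D : Finset Z2) (hgap : Stmt_gap) : (MM D).PosDef := by
  apply PosDef.of_dotProduct_mulVec_pos (MM_symm D)
  intro x hx
  rw [star_trivial]
  obtain ⟨c, hc, _, hf⟩ := hgap D
  have h1 := hf (ext0 D x)
  have hx0 : (fun y : D => ext0 D x y) = x := by
    ext y; simp [ext0]
  have h2 := quad_adj D (ext0 D x)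
  rw [hx0] at h2
  have h3 : ∑ y ∈ D, ext0 D x y ^ 2 = x ⬝ᵥ x := by
    rw [dotProduct, ← Finset.sum_coe_sort D]
    apply Finset.sum_congr rfl
    intro y _
    have := congrFun hx0 y
    rw [show ext0 D x (y : Z2) = x y from this, sq]
  have h4 : 0 < x ⬝ᵥ x := by
    have := dotProduct_star_self_pos_iff.mpr hx
    simpa using this
  rw [MM, sub_mulVec, one_mulVec, dotProduct_sub, smul_mulVec, dotProduct_smul, h2, smul_eq_mul]
  rw [h3] at h1
  have h5 := le_abs_self (H (Ed D) (ext0 D x))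
  nlinarith


end MIAux

open MIAux

theorem MI (h1 : Stmt_detL) (hi : Stmt_incl) (hg : Stmt_green) (hgap : Stmt_gap) : Stmt_MI := by
  intro D K K' u v hK hK' hdis hu hv
  have hM := MM_posDef D hgap
  set S : Finset D := univ.filter fun x => (x : Z2) ∈ K with hS
  set T : Finset D := univ.filter fun x => (x : Z2) ∈ K' with hT
  have hST : Disjoint S T := by
    rw [Finset.disjoint_left]
    intro x hx hx'
    simp only [hS, hT, mem_filter, mem_univ, true_and] at hx hx'
    exact Finset.disjoint_left.mp hdis hx hx'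
  set U : D → ℝ := fun x => u x with hU
  set V : D → ℝ := fun x => v x with hV
  have hmain := la_main hM S T hST U V
    (by intro x hx; apply hu; simpa [hS] using hx)
    (by intro x hx; apply hv; simpa [hT] using hx)
  -- covariances
  have hMu : IsUnit (MM D).det := isUnit_iff_ne_zero.mpr hM.det_pos.ne'
  have hcov : ∀ p q : Z2 → ℝ, Cov D p q =
      (1 / 4) * ((fun x : D => q x) ⬝ᵥ (MM D)⁻¹ *ᵥ (fun x : D => p x)) := by
    intro p q
    obtain ⟨g1, _, g3⟩ := hg D p
    set w : D → ℝ := fun x => gff D (fun f => lin D p f * f x) with hw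
    have e1 : ext0 D w = fun x => if x ∈ D then gff D (fun f => lin D p f * f x) else 0 := by
      ext x
      by_cases h : x ∈ D <;> simp [ext0, hw, h]
    have e2 : (MM D) *ᵥ w = (1 / 4 : ℝ) • (fun x : D => p x) := by
      ext x
      have a := MM_mulVec D w x
      rw [e1, g1 x x.2] at a
      rw [Pi.smul_apply, smul_eq_mul]
      linarith
    have e3 : w = (1 / 4 : ℝ) • ((MM D)⁻¹ *ᵥ (fun x : D => p x)) := by
      rw [← mulVec_smul, ← e2, mulVec_mulVec, nonsing_inv_mul _ hMu, one_mulVec]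
    rw [g3 q, ← smul_eq_mul, ← dotProduct_smul, ← e3, dotProduct, ← Finset.sum_coe_sort D]
  have hc1 := hcov u u
  have hc2 := hcov v v
  have hc3 := hcov v u
  have hc3' : Cov D u v = Cov D v u := by
    unfold Cov
    congr 1
    ext f
    ring
  -- determinants
  have hE : ∀ X : Finset Z2, Ed (D \ X) ⊆ Ed D := by
    intro X e he
    simp only [Ed, mem_filter, mem_product, mem_univ, and_true] at he ⊢
    exact ⟨(Finset.mem_sdiff.mp he.1).1, (Finset.mem_sdiff.mp he.2).1⟩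
  have r0 : MM D = 1 - (1 / 4 : ℝ) • adjM D (Ed D) := rfl
  have r1 : res Sᶜ (MM D) = 1 - (1 / 4 : ℝ) • adjM D (Ed (D \ K)) :=
    res_MM D (D \ K) Sᶜ (by intro x; simp [hS])
  have r2 : res Tᶜ (MM D) = 1 - (1 / 4 : ℝ) • adjM D (Ed (D \ K')) :=
    res_MM D (D \ K') Tᶜ (by intro x; simp [hT])
  have r3 : res (S ∪ T)ᶜ (MM D) = 1 - (1 / 4 : ℝ) • adjM D (Ed (D \ (K ∪ K'))) :=
    res_MM D (D \ (K ∪ K')) (S ∪ T)ᶜ (by intro x; simp [hS, hT])
  obtain ⟨p0, l0⟩ := h1 D (Ed D) (Finset.Subset.refl _)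
  obtain ⟨p1, l1⟩ := h1 D _ (hE K)
  obtain ⟨p2, l2⟩ := h1 D _ (hE K')
  obtain ⟨p3, l3⟩ := h1 D _ (hE (K ∪ K'))
  rw [← r0] at p0 l0
  rw [← r1] at p1 l1
  rw [← r2] at p2 l2
  rw [← r3] at p3 l3
  have hh := hi D K K' hK hK'
  have hexp : Real.exp (-hitM D K K') =
      (MM D).det * (res (S ∪ T)ᶜ (MM D)).det / ((res Sᶜ (MM D)).det * (res Tᶜ (MM D)).det) := by
    rw [← Real.exp_log (div_pos (mul_pos p0 p3) (mul_pos p1 p2)),
      Real.log_div (mul_pos p0 p3).ne' (mul_pos p1 p2).ne', Real.log_mul p0.ne' p3.ne',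
      Real.log_mul p1.ne' p2.ne', l0, l1, l2, l3, hh]
    congr 1
    ring
  have hge : 1 - hitM D K K' ≤ Real.exp (-hitM D K K') := by
    have := Real.add_one_le_exp (-hitM D K K')
    linarith
  set a := U ⬝ᵥ (MM D)⁻¹ *ᵥ U with ha
  set b := V ⬝ᵥ (MM D)⁻¹ *ᵥ V with hb
  set c := U ⬝ᵥ (MM D)⁻¹ *ᵥ V with hc
  have ha0 : 0 ≤ a := by
    have := hM.inv.posSemidef.dotProduct_mulVec_nonneg U
    simpa using this
  have hb0 : 0 ≤ b := by
    have := hM.inv.posSemidef.dotProduct_mulVec_nonneg V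
    simpa using this
  have hfin : Real.exp (-hitM D K K') * (a * b) ≤ a * b - c ^ 2 := by
    rw [hexp, div_mul_eq_mul_div, div_le_iff₀ (mul_pos p1 p2)]
    linarith
  have hfin2 : c ^ 2 ≤ hitM D K K' * (a * b) := by
    have := mul_le_mul_of_nonneg_right hge (mul_nonneg ha0 hb0)
    nlinarith
  rw [hc3', hc3, hc1, hc2]
  nlinarith

end LSoup
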