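import Pool.Agent.LSoup.Final

open MeasureTheory ProbabilityTheory Finset Filter Topology

open scoped Classical ENNReal

noncomputable section

namespace LSoup

namespace MainAux

lemma joined_nb {O : Finset Edge} {x y : Z2} (h : Joined O x y) : Nb x y := by
  obtain ⟨e, -, h⟩ := h
  unfold Nb
  obtain ⟨⟨p, q⟩, b⟩ := e
  rcases h with ⟨h1, h2⟩ | ⟨h1, h2⟩
  · subst h1; subst h2
    cases b <;> simp [src, tgt]
  · subst h1; subst h2
    cases b <;> simp [src, tgt]

lemma joined_mono {O O' : Finset Edge} (h : O ⊆ O') {x y : Z2} (hx : Joined O x y) :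
    Joined O' x y := by
  obtain ⟨e, he, h1⟩ := hx
  exact ⟨e, h he, h1⟩

lemma conn_mono {O O' : Finset Edge} (h : O ⊆ O') {x y : Z2} (hx : Conn O x y) :
    Conn O' x y := by
  induction hx with
  | refl => exact Relation.ReflTransGen.refl
  | tail _ h2 ih => exact ih.tail (joined_mono h h2)

lemma exit {O : Finset Edge} {m : ℕ} {x y : Z2} (h : Conn O x y) (hy : y ∉ V m) :
    x ∈ V m → ∃ u ∈ bdV m, Conn O x u ∧ Conn O u y := by
  induction h using Relation.ReflTransGen.head_induction_on with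
  | refl => intro hx; exact absurd hx hy
  | head h1 h2 ih =>
    rename_i a b
    intro hx
    by_cases hb : b ∈ V m
    · obtain ⟨u, hu, hbu, huy⟩ := ih hb
      exact ⟨u, hu, Relation.ReflTransGen.head h1 hbu, huy⟩
    · refine ⟨a, ?_, Relation.ReflTransGen.refl, Relation.ReflTransGen.head h1 h2⟩
      unfold bdV
      rw [Finset.mem_filter]
      exact ⟨hx, b, hb, joined_nb h1⟩

lemma mem_V {m : ℕ} {x : Z2} : x ∈ V m ↔
    -(m : ℤ) < 2 * x.1 ∧ 2 * x.1 ≤ m ∧ -(m : ℤ) < 2 * x.2 ∧ 2 * x.2 ≤ m := by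
  unfold V
  rw [Finset.mem_filter, Finset.mem_product, Finset.mem_Icc, Finset.mem_Icc]
  constructor
  · exact fun h => h.2
  · intro h
    refine ⟨⟨⟨?_, ?_⟩, ⟨?_, ?_⟩⟩, h⟩ <;> omega

lemma mem_VI {N : ℕ} {x : Z2} (h1 : 2 * (|x.1| + 1) < N) (h2 : 2 * (|x.2| + 1) < N) :
    x ∈ VI N := by
  unfold VI
  rw [Finset.mem_sdiff]
  have a1 := abs_le.1 (le_refl |x.1|)
  have a2 := abs_le.1 (le_refl |x.2|)
  constructor
  · rw [mem_V]
    refine ⟨?_, ?_, ?_, ?_⟩ <;> omega
  · unfold bdV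
    rw [Finset.mem_filter]
    rintro ⟨-, y, hy, hn⟩
    apply hy
    rw [mem_V]
    unfold Nb at hn
    have b1 : |x.1 - y.1| ≤ 1 := by
      have := abs_nonneg (x.2 - y.2)
      omega
    have b2 : |x.2 - y.2| ≤ 1 := by
      have := abs_nonneg (x.1 - y.1)
      omega
    rw [abs_le] at b1 b2
    refine ⟨?_, ?_, ?_, ?_⟩ <;> omega

lemma Ed_mono {D D' : Finset Z2} (h : D ⊆ D') : Ed D ⊆ Ed D' := by
  intro e he
  unfold Ed at he ⊢
  rw [Finset.mem_filter, Finset.mem_product] at he ⊢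
  exact ⟨⟨h he.1.1, he.1.2⟩, h he.2⟩

lemma mem_Ed {D : Finset Z2} {e : Edge} : e ∈ Ed D ↔ src e ∈ D ∧ tgt e ∈ D := by
  unfold Ed src
  rw [Finset.mem_filter, Finset.mem_product]
  simp

lemma loop_mono {O O' : Finset Edge} (h : O ⊆ O') {l : List Z2} (hl : IsLoopIn O l) :
    IsLoopIn O' l :=
  ⟨hl.1, hl.2.imp fun _ _ h' => joined_mono h h'⟩

lemma openE_mono {D D' : Finset Z2} (h : D ⊆ D') (c : List Z2 → ℕ) :
    openE D c ⊆ openE D' c := by
  intro e he
  unfold openE at he ⊢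
  rw [Finset.mem_filter] at he ⊢
  obtain ⟨h1, l, h2, h3, h4⟩ := he
  exact ⟨Ed_mono h h1, l, h2, loop_mono (Ed_mono h) h3, h4⟩

lemma openE_sub (D : Finset Z2) (c : List Z2 → ℕ) : openE D c ⊆ Ed D := Finset.filter_subset _ _

lemma gr_mono {O O' : Finset Edge} (h : O ⊆ O') : gr O ≤ gr O' := by
  intro x y hxy
  unfold gr at hxy ⊢
  rw [SimpleGraph.fromRel_adj] at hxy ⊢
  exact ⟨hxy.1, hxy.2.imp (joined_mono h) (joined_mono h)⟩

lemma mem_image_add {S : Finset Z2} {w x : Z2} (h : x ∈ S.image fun z => z + w) :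
    ∃ z ∈ S, x = (z.1 + w.1, z.2 + w.2) := by
  obtain ⟨z, hz, rfl⟩ := Finset.mem_image.1 h
  exact ⟨z, hz, rfl⟩

/-- The vertices of the tube. -/
def tubeU (n : ℕ) (w : Z2) (I : ℕ) : Finset Z2 :=
  ((Finset.range (I + 1)).biUnion fun i => hR n (hsh n w i)) ∪
    (Finset.range I).biUnion fun i => vR n (vsh n w i)

lemma card_Rn (n : ℕ) : (Rn n).card ≤ 320 * n ^ 2 := by
  unfold Rn
  rw [Finset.card_product, Int.card_Icc, Int.card_Icc]
  have h1 : (40 * (n : ℤ) - 1 + 1 - 1).toNat ≤ 40 * n := by omega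
  have h2 : (8 * (n : ℤ) - 1 + 1 - 1).toNat ≤ 8 * n := by omega
  calc _ ≤ (40 * n) * (8 * n) := Nat.mul_le_mul h1 h2
    _ = 320 * n ^ 2 := by ring

lemma card_tubeU (n : ℕ) (w : Z2) (I : ℕ) : (tubeU n w I).card ≤ (2 * I + 1) * (320 * n ^ 2) := by
  unfold tubeU
  refine (Finset.card_union_le _ _).trans ?_
  have h1 : ((Finset.range (I + 1)).biUnion fun i => hR n (hsh n w i)).card
      ≤ (I + 1) * (320 * n ^ 2) := by
    refine (Finset.card_biUnion_le_card_mul _ _ (320 * n ^ 2) ?_).trans ?_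
    · intro i _
      exact Finset.card_image_le.trans (card_Rn n)
    · rw [Finset.card_range]
  have h2 : ((Finset.range I).biUnion fun i => vR n (vsh n w i)).card
      ≤ I * (320 * n ^ 2) := by
    refine (Finset.card_biUnion_le_card_mul _ _ (320 * n ^ 2) ?_).trans ?_
    · intro i _
      exact Finset.card_image_le.trans (Finset.card_image_le.trans (card_Rn n))
    · rw [Finset.card_range]
  calc _ ≤ (I + 1) * (320 * n ^ 2) + I * (320 * n ^ 2) := Nat.add_le_add h1 h2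
    _ = _ := by ring

lemma tubeE_sub_Ed (n : ℕ) (w : Z2) (I : ℕ) (c : List Z2 → ℕ) :
    tubeE n w I c ⊆ Ed (tubeU n w I) := by
  intro e he
  unfold tubeE at he
  rw [Finset.mem_union, Finset.mem_biUnion, Finset.mem_biUnion] at he
  rcases he with ⟨i, hi, h⟩ | ⟨i, hi, h⟩
  · refine Ed_mono ?_ (openE_sub _ _ h)
    unfold tubeU
    exact (Finset.subset_biUnion_of_mem (fun i => hR n (hsh n w i)) hi).trans
      Finset.subset_union_left
  · refine Ed_mono ?_ (openE_sub _ _ h)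
    unfold tubeU
    exact (Finset.subset_biUnion_of_mem (fun i => vR n (vsh n w i)) hi).trans
      Finset.subset_union_right

lemma tubeE_sub (n : ℕ) (w : Z2) (I : ℕ) (c : List Z2 → ℕ) (D : Finset Z2)
    (hD : tubeU n w I ⊆ D) : tubeE n w I c ⊆ openE D c := by
  unfold tubeU at hD
  intro e he
  unfold tubeE at he
  rw [Finset.mem_union, Finset.mem_biUnion, Finset.mem_biUnion] at he
  rcases he with ⟨i, hi, h⟩ | ⟨i, hi, h⟩
  · refine openE_mono ?_ c h
    exact ((Finset.subset_biUnion_of_mem (fun i => hR n (hsh n w i)) hi).trans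
      Finset.subset_union_left).trans hD
  · refine openE_mono ?_ c h
    exact ((Finset.subset_biUnion_of_mem (fun i => vR n (vsh n w i)) hi).trans
      Finset.subset_union_right).trans hD

lemma tubeU_sub {n I N : ℕ} (h1 : 2 * (16 * n * I + 40 * n) < N) :
    tubeU n (0, -20 * (n : ℤ)) I ⊆ VI N := by
  intro x hx
  unfold tubeU at hx
  rw [Finset.mem_union, Finset.mem_biUnion, Finset.mem_biUnion] at hx
  have h1' : 2 * (16 * (n : ℤ) * I + 40 * n) < N := by exact_mod_cast h1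
  rcases hx with ⟨i, hi, h⟩ | ⟨i, hi, h⟩
  · obtain ⟨z, hz, rfl⟩ := mem_image_add h
    unfold Rn at hz
    rw [Finset.mem_product, Finset.mem_Icc, Finset.mem_Icc] at hz
    rw [Finset.mem_range] at hi
    have hi' : (n : ℤ) * i ≤ n * I := by
      have : (i : ℤ) ≤ I := by omega
      nlinarith [Int.natCast_nonneg n]
    have hi'' : 0 ≤ (n : ℤ) * i := by positivity
    unfold hsh
    apply mem_VI
    · simp only
      have : |z.1 + (0 + 16 * (n : ℤ) * i)| ≤ 16 * (n * I) + 40 * n - 1 := by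
        rw [abs_le]
        constructor <;> nlinarith
      nlinarith
    · simp only
      have : |z.2 + (-20 * (n : ℤ) + 16 * n)| ≤ 16 * (n * I) + 40 * n - 1 := by
        rw [abs_le]
        constructor <;> nlinarith
      nlinarith
  · obtain ⟨z, hz, rfl⟩ := mem_image_add h
    obtain ⟨z', hz', rfl⟩ := Finset.mem_image.1 hz
    unfold Rn at hz'
    rw [Finset.mem_product, Finset.mem_Icc, Finset.mem_Icc] at hz'
    rw [Finset.mem_range] at hi
    have hi' : (n : ℤ) * i + n ≤ n * I := by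
      have : (i : ℤ) + 1 ≤ I := by omega
      nlinarith [Int.natCast_nonneg n]
    have hi'' : 0 ≤ (n : ℤ) * i := by positivity
    unfold vsh
    apply mem_VI
    · simp only [Prod.fst_swap]
      have : |z'.2 + (0 + 16 * (n : ℤ) * i + 24 * n)| ≤ 16 * (n * I) + 40 * n - 1 := by
        rw [abs_le]
        constructor <;> nlinarith
      nlinarith
    · simp only [Prod.snd_swap]
      have : |z'.1 + (-20 * (n : ℤ))| ≤ 16 * (n * I) + 40 * n - 1 := by
        rw [abs_le]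
        constructor <;> nlinarith
      nlinarith

/-- A good tube gives a short open path. -/
lemma short_of_good (ht : Stmt_tube) (hl : Stmt_len) {n I N A B : ℕ} {c : List Z2 → ℕ} {s : ℝ}
    (hn : 1 ≤ n)
    (hh : ∀ i ≤ I, hgood n (hsh n (0, -20 * (n : ℤ)) i) c)
    (hv : ∀ i < I, vgood n (vsh n (0, -20 * (n : ℤ)) i) c)
    (h1 : 2 * (16 * n * I + 40 * n) < N) (h2 : 10 * n ≤ A) (h3 : A ≤ B)
    (h4 : B < 2 * (16 * n * I + 35 * n)) (hs : ((2 * I + 1) * (320 * n ^ 2) : ℝ) ≤ s) :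
    Short (openE (VI N) c) (bdV A) (bdV B) s := by
  obtain ⟨x, hx, y, hy, hxy⟩ := ht n (0, -20 * (n : ℤ)) I c hn hh hv
  have hxU : x ∈ tubeU n (0, -20 * (n : ℤ)) I := by
    unfold tubeU
    rw [Finset.mem_union, Finset.mem_biUnion]
    left
    refine ⟨0, Finset.mem_range.2 (by omega), ?_⟩
    unfold hR
    obtain ⟨z, hz, rfl⟩ := Finset.mem_image.1 hx
    refine Finset.mem_image.2 ⟨z, ?_, rfl⟩
    unfold Qn at hz
    unfold Rn
    rw [Finset.mem_product, Finset.mem_Icc, Finset.mem_Icc] at hz ⊢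
    refine ⟨⟨?_, ?_⟩, ?_, ?_⟩ <;> omega
  have hxA : x ∈ V A := by
    obtain ⟨z, hz, rfl⟩ := mem_image_add hx
    unfold Qn at hz
    rw [Finset.mem_product, Finset.mem_Icc, Finset.mem_Icc] at hz
    rw [mem_V]
    unfold hsh
    simp only [Nat.cast_zero]
    refine ⟨?_, ?_, ?_, ?_⟩ <;> omega
  have hyB : y ∉ V B := by
    obtain ⟨z, hz, rfl⟩ := mem_image_add hy
    unfold Bn at hz
    rw [Finset.mem_product, Finset.mem_Icc, Finset.mem_Icc] at hz
    rw [mem_V]
    unfold hsh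
    simp only
    have h4' : (B : ℤ) < 2 * (16 * n * I + 35 * n) := by exact_mod_cast h4
    intro h
    have := h.2.1
    nlinarith
  have hVAB : V A ⊆ V B := by
    intro z hz
    rw [mem_V] at hz ⊢
    refine ⟨?_, ?_, ?_, ?_⟩ <;> omega
  have hyA : y ∉ V A := fun h => hyB (hVAB h)
  obtain ⟨u, hu, hxu, huy⟩ := exit hxy hyA hxA
  have huA : u ∈ V A := (Finset.mem_filter.1 hu).1
  obtain ⟨v, hv', huv, -⟩ := exit huy hyB (hVAB huA)
  have hEd : ∀ e ∈ tubeE n (0, -20 * (n : ℤ)) I c,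
      src e ∈ tubeU n (0, -20 * (n : ℤ)) I ∧ tgt e ∈ tubeU n (0, -20 * (n : ℤ)) I :=
    fun e he => mem_Ed.1 (tubeE_sub_Ed _ _ _ _ he)
  have huU : u ∈ tubeU n (0, -20 * (n : ℤ)) I := by
    clear huy huv hu huA
    induction hxu with
    | refl => exact hxU
    | tail h1 h2 ih =>
      obtain ⟨e, he, h⟩ := h2
      rcases h with ⟨-, h⟩ | ⟨h, -⟩
      · rw [← h]; exact (hEd e he).2
      · rw [← h]; exact (hEd e he).1
  obtain ⟨hr, hd⟩ := hl _ _ u v huU huv hEd
  have hle := gr_mono (tubeE_sub n (0, -20 * (n : ℤ)) I c (VI N) (tubeU_sub h1))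
  refine ⟨u, hu, v, hv', hr.mono hle, ?_⟩
  obtain ⟨p, hp⟩ := hr.exists_walk_length_eq_dist
  have h5 : (gr (openE (VI N) c)).dist u v ≤ p.length := by
    have := SimpleGraph.dist_le (p.mapLe hle)
    simpa using this
  have h6 : (gr (openE (VI N) c)).dist u v ≤ (2 * I + 1) * (320 * n ^ 2) := by
    have := card_tubeU n (0, -20 * (n : ℤ)) I
    omega
  refine le_trans ?_ hs
  exact_mod_cast h6

/-! ### Probability of a good tube -/

instance (D : Finset Z2) (a : ℝ) : IsProbabilityMeasure (soup D a) := by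
  unfold soup
  infer_instance

lemma prob_hbad (hr : Stmt_reg) (hi : Stmt_inv) {D : Finset Z2} {a : ℝ} (ha : 0 ≤ a) (n : ℕ)
    (w : Z2) (hD : hR n w ⊆ D) :
    (soup D a).real {c | ¬ hgood n w c} = disP (Rn n) a (Qn n) (Bn n) := by
  have h1 := (hr D (hR n w) a {O | ¬ ∃ x ∈ (Qn n).image fun x => x + w,
    ∃ y ∈ (Bn n).image fun x => x + w, Conn O x y} ha hD).2
  have h2 := (hi (Rn n) (Qn n) (Bn n) a w ha).1
  rw [← h2]
  exact h1

lemma prob_vbad (hr : Stmt_reg) (hi : Stmt_inv) {D : Finset Z2} {a : ℝ} (ha : 0 ≤ a) (n : ℕ)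
    (w : Z2) (hD : vR n w ⊆ D) :
    (soup D a).real {c | ¬ vgood n w c} = disP (Rn n) a (Qn n) (Bn n) := by
  have h1 := (hr D (vR n w) a {O | ¬ ∃ x ∈ ((Qn n).image Prod.swap).image fun x => x + w,
    ∃ y ∈ ((Bn n).image Prod.swap).image fun x => x + w, Conn O x y} ha hD).2
  have h2 := (hi ((Rn n).image Prod.swap) ((Qn n).image Prod.swap) ((Bn n).image Prod.swap)
    a w ha).1
  have h3 := (hi (Rn n) (Qn n) (Bn n) a w ha).2
  rw [← h3, ← h2]
  exact h1

lemma prob_tube (hr : Stmt_reg) (hi : Stmt_inv) {D : Finset Z2} {a : ℝ} (ha : 0 ≤ a) (n I : ℕ)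
    (w : Z2) (hD : tubeU n w I ⊆ D) (T : Set (List Z2 → ℕ))
    (hT : ∀ c, (∀ i ≤ I, hgood n (hsh n w i) c) → (∀ i < I, vgood n (vsh n w i) c) → c ∈ T) :
    1 - (2 * I + 1) * disP (Rn n) a (Qn n) (Bn n) ≤ (soup D a).real T := by
  have h1 : (Set.univ : Set (List Z2 → ℕ)) ⊆ T ∪
      ((⋃ i ∈ Finset.range (I + 1), {c | ¬ hgood n (hsh n w i) c}) ∪
        ⋃ i ∈ Finset.range I, {c | ¬ vgood n (vsh n w i) c}) := by
    intro c _
    by_cases h : (∀ i ≤ I, hgood n (hsh n w i) c) ∧ (∀ i < I, vgood n (vsh n w i) c)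
    · exact Or.inl (hT c h.1 h.2)
    · right
      rw [not_and_or] at h
      rcases h with h | h
      · left
        push Not at h
        obtain ⟨i, hi, hg⟩ := h
        simp only [Set.mem_iUnion]
        exact ⟨i, Finset.mem_range.2 (by omega), hg⟩
      · right
        push Not at h
        obtain ⟨i, hi, hg⟩ := h
        simp only [Set.mem_iUnion]
        exact ⟨i, Finset.mem_range.2 hi, hg⟩
  have h2 : (1 : ℝ) ≤ (soup D a).real T + ((soup D a).real
      (⋃ i ∈ Finset.range (I + 1), {c | ¬ hgood n (hsh n w i) c}) +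
        (soup D a).real (⋃ i ∈ Finset.range I, {c | ¬ vgood n (vsh n w i) c})) := by
    calc (1 : ℝ) = (soup D a).real Set.univ := by simp
      _ ≤ _ := measureReal_mono h1
      _ ≤ _ := (measureReal_union_le _ _).trans (by gcongr; exact measureReal_union_le _ _)
  unfold tubeU at hD
  have h3 : (soup D a).real (⋃ i ∈ Finset.range (I + 1), {c | ¬ hgood n (hsh n w i) c})
      ≤ (I + 1) * disP (Rn n) a (Qn n) (Bn n) := by
    refine (measureReal_biUnion_finset_le _ _).trans ?_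
    rw [Finset.sum_congr rfl fun i hi' => prob_hbad hr hi ha n (hsh n w i)
      (((Finset.subset_biUnion_of_mem (fun i => hR n (hsh n w i)) hi').trans
      Finset.subset_union_left).trans hD)]
    rw [Finset.sum_const, Finset.card_range, nsmul_eq_mul]
    push_cast
    exact le_refl _
  have h4 : (soup D a).real (⋃ i ∈ Finset.range I, {c | ¬ vgood n (vsh n w i) c})
      ≤ I * disP (Rn n) a (Qn n) (Bn n) := by
    refine (measureReal_biUnion_finset_le _ _).trans ?_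
    rw [Finset.sum_congr rfl fun i hi' => prob_vbad hr hi ha n (vsh n w i)
      (((Finset.subset_biUnion_of_mem (fun i => vR n (vsh n w i)) hi').trans
      Finset.subset_union_right).trans hD)]
    rw [Finset.sum_const, Finset.card_range, nsmul_eq_mul]
  linarith

lemma choose_scale {m n0 : ℕ} (h0 : 1 ≤ n0) (h : n0 ≤ m) :
    ∃ j : ℕ, 48 ^ j * n0 ≤ m ∧ m < 48 ^ j * (48 * n0) := by
  refine ⟨Nat.log 48 (m / n0), ?_, ?_⟩
  · have h1 : m / n0 ≠ 0 := by
      rw [Nat.div_ne_zero_iff]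
      omega
    have h2 := Nat.pow_log_le_self 48 h1
    calc _ ≤ m / n0 * n0 := Nat.mul_le_mul_right _ h2
      _ ≤ m := Nat.div_mul_le_self m n0
  · have h2 := Nat.lt_pow_succ_log_self (b := 48) (by norm_num) (m / n0)
    have h3 : m < 48 ^ (Nat.log 48 (m / n0)).succ * n0 := by
      rw [Nat.div_lt_iff_lt_mul (by omega)] at h2
      exact h2
    calc m < 48 ^ (Nat.log 48 (m / n0)).succ * n0 := h3
      _ = _ := by rw [pow_succ]; ring

/-- At the chosen scale the failure probability is small. -/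
lemma small_prob {X : ℝ} {m n0 j : ℕ} (h0 : 1 ≤ n0) (hm : 1 ≤ m) (hX : X < m + 1) (hX0 : 0 ≤ X)
    (hj : m < 48 ^ j * (48 * n0)) :
    (1 / 2 : ℝ) ^ (2 ^ j) ≤
      Real.exp (-(Real.log 2 * (1 / (96 * n0 : ℝ)) ^ (1 / 6 : ℝ)) * X ^ (1 / 6 : ℝ)) := by
  have hn0 : (0 : ℝ) < n0 := by exact_mod_cast h0
  have h1 : X / (96 * n0) ≤ ((2 : ℝ) ^ j) ^ (6 : ℝ) := by
    have e : ((2 : ℝ) ^ j) ^ (6 : ℝ) = 64 ^ j := by
      rw [show (6 : ℝ) = ((6 : ℕ) : ℝ) by norm_num, Real.rpow_natCast, ← pow_mul, mul_comm,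
        pow_mul]
      norm_num
    rw [e, div_le_iff₀ (by positivity)]
    have h2 : (m : ℝ) < 48 ^ j * (48 * n0) := by exact_mod_cast hj
    have h3 : (48 : ℝ) ^ j ≤ 64 ^ j := by gcongr; norm_num
    have h4 : (1 : ℝ) ≤ m := by exact_mod_cast hm
    have h5 : (48 : ℝ) ^ j * (48 * n0) ≤ 64 ^ j * (48 * n0) := by gcongr
    nlinarith
  have h2 : (X / (96 * n0)) ^ (1 / 6 : ℝ) ≤ (2 : ℝ) ^ j := by
    have h3 := Real.rpow_le_rpow (by positivity) h1 (show (0 : ℝ) ≤ 1 / 6 by norm_num)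
    rw [← Real.rpow_mul (by positivity)] at h3
    norm_num at h3
    norm_num
    exact h3
  have h4 : (X / (96 * n0)) ^ (1 / 6 : ℝ) = (1 / (96 * n0 : ℝ)) ^ (1 / 6 : ℝ) * X ^ (1 / 6 : ℝ) := by
    rw [← Real.mul_rpow (by positivity) hX0]
    congr 1
    ring
  have h5 : (1 / 2 : ℝ) ^ (2 ^ j) = Real.exp (-(Real.log 2) * ((2 : ℝ) ^ j)) := by
    have e1 : (1 / 2 : ℝ) = Real.exp (-(Real.log 2)) := by
      rw [Real.exp_neg, Real.exp_log (by norm_num)]; norm_num
    rw [e1, ← Real.exp_nat_mul]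
    congr 1
    push_cast
    ring
  rw [h5]
  apply Real.exp_le_exp.2
  have hl : 0 < Real.log 2 := Real.log_pos (by norm_num)
  rw [h4] at h2
  nlinarith

lemma ev_sub {c C δ : ℝ} (hc : 0 < c) (hδ : δ < 1) :
    ∀ᶠ N : ℕ in atTop, C * (N : ℝ) ^ δ + 1 ≤ c * N := by
  have h1 : Tendsto (fun N : ℕ => (N : ℝ) ^ (δ - 1)) atTop (𝓝 0) := by
    have := (tendsto_rpow_neg_atTop (show 0 < 1 - δ by linarith)).comp
      (tendsto_natCast_atTop_atTop (R := ℝ))
    refine this.congr fun N => ?_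
    simp only [Function.comp]
    congr 1
    ring
  have h2 : Tendsto (fun N : ℕ => C * (N : ℝ) ^ (δ - 1) + 1 / (N : ℝ)) atTop (𝓝 0) := by
    have := (h1.const_mul C).add (tendsto_one_div_atTop_nhds_zero_nat (𝕜 := ℝ))
    simpa using this
  filter_upwards [h2.eventually_le_const hc, eventually_ge_atTop 1] with N hN h1N
  have hN0 : (0 : ℝ) < N := by exact_mod_cast h1N
  have e : (N : ℝ) ^ (δ - 1) * N = (N : ℝ) ^ δ := by
    rw [← Real.rpow_add_one hN0.ne']
    congr 1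
    ring
  calc C * (N : ℝ) ^ δ + 1 = (C * (N : ℝ) ^ (δ - 1) + 1 / (N : ℝ)) * N := by
        rw [add_mul, mul_assoc, e]; field_simp
    _ ≤ c * N := by gcongr

lemma tendsto_err {b δ : ℝ} (hb : 0 < b) (hδ : 0 < δ) :
    Tendsto (fun N : ℕ => (N : ℝ) * Real.exp (-b * ((N : ℝ) ^ δ) ^ (1 / 6 : ℝ))) atTop (𝓝 0) := by
  have h1 : Tendsto (fun N : ℕ => (N : ℝ) ^ (δ / 6)) atTop atTop :=
    (tendsto_rpow_atTop (by positivity)).comp tendsto_natCast_atTop_atTop
  have h2 := (tendsto_rpow_mul_exp_neg_mul_atTop_nhds_zero (6 / δ) b hb).comp h1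
  refine h2.congr fun N => ?_
  simp only [Function.comp]
  rw [← Real.rpow_mul (by positivity), ← Real.rpow_mul (by positivity)]
  congr 2
  · rw [show δ / 6 * (6 / δ) = 1 by field_simp, Real.rpow_one]
  · congr 2
    ring

end MainAux

open MainAux in
theorem main_ (h1 : Stmt_decay) (h2 : Stmt_tube) (h3 : Stmt_reg) (h4 : Stmt_inv)
    (h5 : Stmt_len) : Stmt_main := by
  intro a α β ε ha hα hαβ hβ hε
  obtain ⟨n0, hn0, hdec⟩ := h1 a ha
  have ha0 : 0 ≤ a := by linarith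
  set δ : ℝ := min ε 1 / 3 with hδdef
  have hm1 : 0 < min ε 1 := lt_min hε one_pos
  have hδ : 0 < δ := by positivity
  have hδ1 : δ ≤ 1 / 3 := by
    have := min_le_right ε 1
    rw [hδdef]; linarith
  have hδε : δ ≤ ε / 3 := by
    have := min_le_left ε 1
    rw [hδdef]; linarith
  set b : ℝ := Real.log 2 * (1 / (96 * n0 : ℝ)) ^ (1 / 6 : ℝ) with hbdef
  have hn0' : (0 : ℝ) < n0 := by exact_mod_cast hn0
  have hb : 0 < b := by
    have := Real.log_pos (show (1 : ℝ) < 2 by norm_num)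
    positivity
  have hXt : Tendsto (fun N : ℕ => (N : ℝ) ^ δ) atTop atTop :=
    (tendsto_rpow_atTop hδ).comp (tendsto_natCast_atTop_atTop (R := ℝ))
  have hE4 : ∀ᶠ N : ℕ in atTop, (340 : ℝ) ≤ (N : ℝ) ^ (ε - δ) :=
    ((tendsto_rpow_atTop (show 0 < ε - δ by linarith)).comp
      (tendsto_natCast_atTop_atTop (R := ℝ))).eventually_ge_atTop 340
  have key : ∀ᶠ N : ℕ in atTop,
      1 - (N : ℝ) * Real.exp (-b * ((N : ℝ) ^ δ) ^ (1 / 6 : ℝ)) ≤
        (soup (VI N) a).real {c | Short (openE (VI N) c) (bdV ⌊α * N⌋₊)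
          (bdV ⌊β * N⌋₊) ((N : ℝ) ^ (1 + ε))} := by
    filter_upwards [hXt.eventually_ge_atTop (n0 : ℝ), hE4, eventually_ge_atTop 2,
      ev_sub (c := α) (C := 10) (δ := δ) hα (by linarith),
      ev_sub (c := 1 - β) (C := 80) (δ := δ) (by linarith) (by linarith)]
      with N hX hE4 hN2 hE2 hE3
    set X : ℝ := (N : ℝ) ^ δ with hXdef
    have hX0 : 0 ≤ X := by positivity
    have hN0 : (0 : ℝ) < N := by
      have : 0 < N := by omega
      exact_mod_cast this
    have hN1 : (1 : ℝ) ≤ N := by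
      have : 1 ≤ N := by omega
      exact_mod_cast this
    set m : ℕ := ⌊X⌋₊ with hmdef
    have hmn : n0 ≤ m := Nat.le_floor hX
    obtain ⟨j, hj1, hj2⟩ := choose_scale hn0 hmn
    set n : ℕ := 48 ^ j * n0 with hndef
    have hn : 1 ≤ n := Nat.mul_pos (by positivity) hn0
    have hn' : (0 : ℝ) < n := by exact_mod_cast hn
    have hnX : (n : ℝ) ≤ X := by
      calc (n : ℝ) ≤ m := by exact_mod_cast hj1
        _ ≤ X := Nat.floor_le hX0
    have hf := hdec j
    rw [← hndef] at hf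
    have hsm := small_prob (X := X) (m := m) (n0 := n0) (j := j) hn0 (by omega)
      (Nat.lt_floor_add_one X) hX0 hj2
    rw [← hbdef] at hsm
    set I : ℕ := ⌊β * N / (32 * n)⌋₊ with hIdef
    have hβ0 : 0 < β := by linarith
    have hI1 : (I : ℝ) ≤ β * N / (32 * n) := Nat.floor_le (by positivity)
    have hI2 : β * N / (32 * n) < I + 1 := Nat.lt_floor_add_one _
    have hI1' : 32 * (n : ℝ) * I ≤ β * N := by
      rw [le_div_iff₀ (by positivity)] at hI1
      linarith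
    have hI2' : β * N < 32 * (n : ℝ) * (I + 1) := by
      rw [div_lt_iff₀ (by positivity)] at hI2
      linarith
    have c1 : 2 * (16 * n * I + 40 * n) < N := by
      have : (2 * (16 * n * I + 40 * n) : ℝ) < N := by nlinarith
      exact_mod_cast this
    have c2 : 10 * n ≤ ⌊α * N⌋₊ := by
      apply Nat.le_floor
      push_cast
      linarith
    have c3 : ⌊α * N⌋₊ ≤ ⌊β * N⌋₊ := Nat.floor_mono (by nlinarith)
    have c4 : ⌊β * N⌋₊ < 2 * (16 * n * I + 35 * n) := by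
      have h6 : ((⌊β * N⌋₊ : ℕ) : ℝ) ≤ β * N := Nat.floor_le (by positivity)
      have : ((⌊β * N⌋₊ : ℕ) : ℝ) < 2 * (16 * n * I + 35 * n) := by nlinarith
      exact_mod_cast this
    have hpow1 : (N : ℝ) * X = (N : ℝ) ^ (1 + δ) := by
      rw [Real.rpow_add hN0, Real.rpow_one]
    have hpow2 : X ^ 2 ≤ (N : ℝ) ^ (1 + δ) := by
      rw [hXdef, ← Real.rpow_natCast, ← Real.rpow_mul hN0.le]
      apply Real.rpow_le_rpow_of_exponent_le hN1
      push_cast
      linarith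
    have hpow3 : 340 * (N : ℝ) ^ (1 + δ) ≤ (N : ℝ) ^ (1 + ε) := by
      calc 340 * (N : ℝ) ^ (1 + δ) ≤ (N : ℝ) ^ (ε - δ) * (N : ℝ) ^ (1 + δ) := by gcongr
        _ = (N : ℝ) ^ (1 + ε) := by
          rw [← Real.rpow_add hN0]; congr 1; ring
    have c5 : ((2 * I + 1) * (320 * n ^ 2) : ℝ) ≤ (N : ℝ) ^ (1 + ε) := by
      have e1 : (2 * (I : ℝ)) * (320 * n ^ 2) ≤ 20 * (N * X) := by
        have : (2 * (I : ℝ)) * (320 * n ^ 2) = 20 * n * (32 * n * I) := by ring
        rw [this]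
        calc 20 * (n : ℝ) * (32 * n * I) ≤ 20 * X * (β * N) := by gcongr
          _ ≤ 20 * X * (1 * N) := by gcongr
          _ = _ := by ring
      have e2 : 320 * (n : ℝ) ^ 2 ≤ 320 * X ^ 2 := by gcongr
      have e3 : ((2 * I + 1) * (320 * n ^ 2) : ℝ) = (2 * (I : ℝ)) * (320 * n ^ 2) + 320 * n ^ 2 := by
        ring
      rw [e3]
      nlinarith
    have c6 : (2 * (I : ℝ) + 1) ≤ N := by
      have h7 : (2 : ℝ) ≤ N := by exact_mod_cast hN2
      have h8 : (1 : ℝ) ≤ n := by exact_mod_cast hn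
      have h9 : 32 * (I : ℝ) ≤ 32 * n * I := by nlinarith [Nat.cast_nonneg (α := ℝ) I]
      nlinarith
    have hpr := prob_tube h3 h4 (D := VI N) ha0 n I (0, -20 * (n : ℤ)) (tubeU_sub c1)
      {c | Short (openE (VI N) c) (bdV ⌊α * N⌋₊) (bdV ⌊β * N⌋₊) ((N : ℝ) ^ (1 + ε))}
      (fun c hh hv => short_of_good h2 h5 hn hh hv c1 c2 c3 c4 c5)
    refine le_trans ?_ hpr
    have e5 : 0 ≤ disP (Rn n) a (Qn n) (Bn n) := by
      unfold disP
      exact measureReal_nonneg
    have e6 : disP (Rn n) a (Qn n) (Bn n) ≤ Real.exp (-b * X ^ (1 / 6 : ℝ)) := hf.trans hsm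
    have e7 : (2 * (I : ℝ) + 1) * disP (Rn n) a (Qn n) (Bn n)
        ≤ N * Real.exp (-b * X ^ (1 / 6 : ℝ)) := by gcongr
    linarith
  have hlow : Tendsto (fun N : ℕ => 1 - (N : ℝ) * Real.exp (-b * ((N : ℝ) ^ δ) ^ (1 / 6 : ℝ)))
      atTop (𝓝 1) := by
    have := (tendsto_err hb hδ).const_sub 1
    simpa using this
  refine tendsto_of_tendsto_of_tendsto_of_le_of_le' hlow tendsto_const_nhds key ?_
  exact Eventually.of_forall fun N => measureReal_le_one

end LSoup
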