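import Pool.Agent.LSoup.Stmts2

/-!
# Spatial Markov property of the loop soup (A6)
-/

open MeasureTheory ProbabilityTheory Finset Filter Topology

open scoped Classical

noncomputable section

namespace LSoup

namespace MarkAux

theorem mem_Ed {D : Finset Z2} {e : Edge} : e ∈ Ed D ↔ src e ∈ D ∧ tgt e ∈ D := by
  unfold Ed src
  simp

theorem Joined.ends {K : Finset Z2} {O : Finset Edge} (hO : O ⊆ Ed K) {x y : Z2}
    (h : Joined O x y) : x ∈ K ∧ y ∈ K := by
  obtain ⟨e, he, h | h⟩ := h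
  · obtain ⟨h1, h2⟩ := mem_Ed.1 (hO he)
    exact ⟨h.1 ▸ h1, h.2 ▸ h2⟩
  · obtain ⟨h1, h2⟩ := mem_Ed.1 (hO he)
    exact ⟨h.2 ▸ h2, h.1 ▸ h1⟩

theorem Joined.mono {O O' : Finset Edge} (h : O ⊆ O') {x y : Z2} (hx : Joined O x y) :
    Joined O' x y := by
  obtain ⟨e, he, h'⟩ := hx
  exact ⟨e, h he, h'⟩

theorem joined_union {U V : Finset Edge} {x y : Z2} (h : Joined (U ∪ V) x y) :
    Joined U x y ∨ Joined V x y := by
  obtain ⟨e, he, h'⟩ := h
  rcases Finset.mem_union.1 he with he | he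
  · exact Or.inl ⟨e, he, h'⟩
  · exact Or.inr ⟨e, he, h'⟩

theorem joined_left {K K' : Finset Z2} {U V : Finset Edge} (hU : U ⊆ Ed K) (hV : V ⊆ Ed K')
    (hK : Disjoint K K') {x y : Z2} (h : Joined (U ∪ V) x y) (hx : x ∈ K) : Joined U x y := by
  rcases joined_union h with h | h
  · exact h
  · exact absurd (Joined.ends hV h).1 (Finset.disjoint_left.1 hK hx)

theorem chain_left {K K' : Finset Z2} {U V : Finset Edge} (hU : U ⊆ Ed K) (hV : V ⊆ Ed K')
    (hK : Disjoint K K') : ∀ (l : List Z2) (x : Z2), x ∈ K →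
      List.IsChain (Joined (U ∪ V)) (x :: l) → List.IsChain (Joined U) (x :: l) := by
  intro l
  induction l with
  | nil => intro x _ _; exact List.isChain_singleton x
  | cons y l ih =>
    intro x hx h
    rw [List.isChain_cons_cons] at h ⊢
    have h1 := joined_left hU hV hK h.1 hx
    exact ⟨h1, ih y (Joined.ends hU h1).2 h.2⟩

theorem chain_mono {O O' : Finset Edge} (h : O ⊆ O') {l : List Z2}
    (hl : List.IsChain (Joined O) l) : List.IsChain (Joined O') l :=
  hl.imp fun _ _ => Joined.mono h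

theorem loop_head {O : Finset Edge} {K : Finset Z2} (hO : O ⊆ Ed K) {l : List Z2}
    (h : IsLoopIn O l) : ∃ x xs, l = x :: xs ∧ x ∈ K := by
  obtain ⟨h0, h1⟩ := h
  cases l with
  | nil => exact absurd rfl h0
  | cons x xs =>
    refine ⟨x, xs, rfl, ?_⟩
    simp only [List.take_succ_cons, List.take_zero, List.cons_append] at h1
    cases xs with
    | nil =>
      simp only [List.nil_append, List.isChain_cons_cons] at h1
      exact (Joined.ends hO h1.1).1
    | cons y ys =>
      simp only [List.cons_append, List.isChain_cons_cons] at h1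
      exact (Joined.ends hO h1.1).1

theorem loop_union {K K' : Finset Z2} {U V : Finset Edge} (hU : U ⊆ Ed K) (hV : V ⊆ Ed K')
    (hK : Disjoint K K') (l : List Z2) :
    IsLoopIn (U ∪ V) l ↔ IsLoopIn U l ∨ IsLoopIn V l := by
  constructor
  · intro h
    obtain ⟨h0, h1⟩ := h
    have hs : U ∪ V ⊆ Ed (K ∪ K') := by
      intro e he
      rcases Finset.mem_union.1 he with he | he
      · have := mem_Ed.1 (hU he)
        exact mem_Ed.2 ⟨Finset.mem_union_left _ this.1, Finset.mem_union_left _ this.2⟩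
      · have := mem_Ed.1 (hV he)
        exact mem_Ed.2 ⟨Finset.mem_union_right _ this.1, Finset.mem_union_right _ this.2⟩
    obtain ⟨x, xs, rfl, hx⟩ := loop_head hs (l := l) ⟨h0, h1⟩
    rcases Finset.mem_union.1 hx with hx | hx
    · left
      refine ⟨h0, ?_⟩
      exact chain_left hU hV hK _ x hx h1
    · right
      refine ⟨h0, ?_⟩
      rw [Finset.union_comm] at h1
      exact chain_left hV hU hK.symm _ x hx h1
  · rintro (h | h)
    · exact ⟨h.1, chain_mono Finset.subset_union_left h.2⟩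
    · exact ⟨h.1, chain_mono Finset.subset_union_right h.2⟩

theorem loop_not_both {K K' : Finset Z2} {U V : Finset Edge} (hU : U ⊆ Ed K) (hV : V ⊆ Ed K')
    (hK : Disjoint K K') (l : List Z2) (h1 : IsLoopIn U l) (h2 : IsLoopIn V l) : False := by
  obtain ⟨x, xs, rfl, hx⟩ := loop_head hU h1
  obtain ⟨y, ys, h, hy⟩ := loop_head hV h2
  obtain ⟨rfl, rfl⟩ := List.cons.inj h
  exact Finset.disjoint_left.1 hK hx hy

theorem wt_nonneg (l : List Z2) : 0 ≤ wt l := by
  unfold wt
  positivity

theorem summ (hs : Stmt_sum) {D : Finset Z2} {U : Finset Edge} (hU : U ⊆ Ed D) :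
    Summable fun l : List Z2 => if IsLoopIn U l then wt l else 0 := by
  refine Summable.of_nonneg_of_le ?_ ?_ (hs D)
  · intro l
    split_ifs
    · exact wt_nonneg l
    · exact le_rfl
  · intro l
    by_cases h : IsLoopIn U l
    · have h' : IsLoopIn (Ed D) l := ⟨h.1, chain_mono hU h.2⟩
      rw [if_pos h, if_pos h']
    · rw [if_neg h]
      split_ifs
      · exact wt_nonneg l
      · exact le_rfl

theorem Ms_union (hs : Stmt_sum) {K K' : Finset Z2} {U V : Finset Edge} (hU : U ⊆ Ed K)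
    (hV : V ⊆ Ed K') (hK : Disjoint K K') : Ms (U ∪ V) = Ms U + Ms V := by
  unfold Ms
  rw [← (summ hs hU).tsum_add (summ hs hV)]
  refine tsum_congr fun l => ?_
  by_cases h1 : IsLoopIn U l
  · have h2 : ¬ IsLoopIn V l := fun h2 => loop_not_both hU hV hK l h1 h2
    rw [if_pos h1, if_neg h2, if_pos ((loop_union hU hV hK l).2 (Or.inl h1)), add_zero]
  · by_cases h2 : IsLoopIn V l
    · rw [if_neg h1, if_pos h2, if_pos ((loop_union hU hV hK l).2 (Or.inr h2)), zero_add]
    · have h3 : ¬ IsLoopIn (U ∪ V) l := by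
        intro h
        rcases (loop_union hU hV hK l).1 h with h | h
        · exact h1 h
        · exact h2 h
      rw [if_neg h1, if_neg h2, if_neg h3, add_zero]

/-- sums over the subsets of a disjoint union -/
theorem sum_union {A B : Finset Edge} (hAB : Disjoint A B) (f : Finset Edge → ℝ) :
    ∑ O ∈ (A ∪ B).powerset, f O = ∑ x ∈ A.powerset, ∑ y ∈ B.powerset, f (x ∪ y) := by
  rw [← Finset.sum_product']
  symm
  refine Finset.sum_nbij' (fun p => p.1 ∪ p.2) (fun O => (O ∩ A, O ∩ B)) ?_ ?_ ?_ ?_ ?_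
  · rintro ⟨x, y⟩ h
    simp only [Finset.mem_product, Finset.mem_powerset] at h ⊢
    exact Finset.union_subset_union h.1 h.2
  · intro O h
    simp only [Finset.mem_product, Finset.mem_powerset] at h ⊢
    exact ⟨Finset.inter_subset_right, Finset.inter_subset_right⟩
  · rintro ⟨x, y⟩ h
    simp only [Finset.mem_product, Finset.mem_powerset] at h ⊢
    have e1 : (x ∪ y) ∩ A = x := by
      ext e
      simp only [Finset.mem_inter, Finset.mem_union]
      constructor
      · rintro ⟨h1 | h1, h2⟩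
        · exact h1
        · exact absurd h2 (Finset.disjoint_right.1 hAB (h.2 h1))
      · intro h1
        exact ⟨Or.inl h1, h.1 h1⟩
    have e2 : (x ∪ y) ∩ B = y := by
      ext e
      simp only [Finset.mem_inter, Finset.mem_union]
      constructor
      · rintro ⟨h1 | h1, h2⟩
        · exact absurd h2 (Finset.disjoint_left.1 hAB (h.1 h1))
        · exact h1
      · intro h1
        exact ⟨Or.inr h1, h.2 h1⟩
    rw [e1, e2]
  · intro O h
    rw [Finset.mem_powerset] at h
    ext e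
    simp only [Finset.mem_inter, Finset.mem_union]
    constructor
    · rintro (h1 | h1)
      · exact h1.1
      · exact h1.1
    · intro h1
      rcases Finset.mem_union.1 (h h1) with h2 | h2
      · exact Or.inl ⟨h1, h2⟩
      · exact Or.inr ⟨h1, h2⟩
  · rintro ⟨x, y⟩ _
    rfl

/-- uniqueness of the Moebius inverse -/
theorem uniq {E : Finset Edge} {p q : Finset Edge → ℝ}
    (h : ∀ O, O ⊆ E → ∑ O' ∈ O.powerset, p O' = ∑ O' ∈ O.powerset, q O') :
    ∀ O, O ⊆ E → p O = q O := by
  intro O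
  induction O using Finset.strongInduction with
  | H O ih =>
    intro hO
    have h1 := h O hO
    rw [← Finset.sum_erase_add _ _ (Finset.mem_powerset_self O),
      ← Finset.sum_erase_add O.powerset q (Finset.mem_powerset_self O)] at h1
    have h2 : ∑ x ∈ O.powerset.erase O, p x = ∑ x ∈ O.powerset.erase O, q x := by
      refine Finset.sum_congr rfl fun x hx => ?_
      rw [Finset.mem_erase, Finset.mem_powerset] at hx
      exact ih x (Finset.ssubset_iff_subset_ne.2 ⟨hx.2, hx.1⟩) (hx.2.trans hO)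
    rw [h2] at h1
    exact add_left_cancel h1

theorem Ed_disj {K K' : Finset Z2} (hK : Disjoint K K') : Disjoint (Ed K) (Ed K') := by
  rw [Finset.disjoint_left]
  intro e h1 h2
  exact Finset.disjoint_left.1 hK (mem_Ed.1 h1).1 (mem_Ed.1 h2).1

theorem Ed_mono {K D : Finset Z2} (h : K ⊆ D) : Ed K ⊆ Ed D := by
  intro e he
  have := mem_Ed.1 he
  exact mem_Ed.2 ⟨h this.1, h this.2⟩

/-- factorisation of the law of the open edges -/
theorem pr_union (hsub : Stmt_sub) (hs : Stmt_sum) {D K : Finset Z2} {a : ℝ} (ha : 0 ≤ a)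
    (hK : K ⊆ D) {x y : Finset Edge} (hx : x ⊆ Ed K) (hy : y ⊆ Ed (D \ K)) :
    pr D a (x ∪ y) = Real.exp (-a * (Ms (Ed D) - Ms (Ed K) - Ms (Ed (D \ K)))) *
      (pr K a x * pr (D \ K) a y) := by
  have hd : Disjoint K (D \ K) := Finset.disjoint_sdiff
  have hdE := Ed_disj hd
  have hE1 : Ed K ⊆ Ed D := Ed_mono hK
  have hE2 : Ed (D \ K) ⊆ Ed D := Ed_mono Finset.sdiff_subset
  have key := uniq (E := Ed K ∪ Ed (D \ K)) (p := pr D a)
    (q := fun O => Real.exp (-a * (Ms (Ed D) - Ms (Ed K) - Ms (Ed (D \ K)))) *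
      (pr K a (O ∩ Ed K) * pr (D \ K) a (O ∩ Ed (D \ K)))) ?_ (x ∪ y)
      (Finset.union_subset_union hx hy)
  · have e1 : (x ∪ y) ∩ Ed K = x := by
      ext e
      simp only [Finset.mem_inter, Finset.mem_union]
      constructor
      · rintro ⟨h1 | h1, h2⟩
        · exact h1
        · exact absurd h2 (Finset.disjoint_right.1 hdE (hy h1))
      · intro h1
        exact ⟨Or.inl h1, hx h1⟩
    have e2 : (x ∪ y) ∩ Ed (D \ K) = y := by
      ext e
      simp only [Finset.mem_inter, Finset.mem_union]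
      constructor
      · rintro ⟨h1 | h1, h2⟩
        · exact absurd h2 (Finset.disjoint_left.1 hdE (hx h1))
        · exact h1
      · intro h1
        exact ⟨Or.inr h1, hy h1⟩
    simp only [e1, e2] at key
    exact key
  · intro O hO
    have hO' : O = (O ∩ Ed K) ∪ (O ∩ Ed (D \ K)) := by
      rw [← Finset.inter_union_distrib_left]
      exact (Finset.inter_eq_left.2 hO).symm
    have hOD : O ⊆ Ed D := hO.trans (Finset.union_subset hE1 hE2)
    rw [hsub D a O ha hOD]
    generalize hA : O ∩ Ed K = A at hO'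
    generalize hB : O ∩ Ed (D \ K) = B at hO'
    have hAK : A ⊆ Ed K := hA ▸ Finset.inter_subset_right
    have hBK : B ⊆ Ed (D \ K) := hB ▸ Finset.inter_subset_right
    have hAB : Disjoint A B := Finset.disjoint_of_subset_left hAK
      (Finset.disjoint_of_subset_right hBK hdE)
    have hM : Ms O = Ms A + Ms B := by
      rw [hO']
      exact Ms_union hs hAK hBK hd
    rw [hO', sum_union hAB]
    have h3 : ∀ u ∈ A.powerset, ∀ v ∈ B.powerset,
        Real.exp (-a * (Ms (Ed D) - Ms (Ed K) - Ms (Ed (D \ K)))) *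
          (pr K a ((u ∪ v) ∩ Ed K) * pr (D \ K) a ((u ∪ v) ∩ Ed (D \ K)))
        = Real.exp (-a * (Ms (Ed D) - Ms (Ed K) - Ms (Ed (D \ K)))) *
          (pr K a u * pr (D \ K) a v) := by
      intro u hu v hv
      have hu' : u ⊆ Ed K := (Finset.mem_powerset.1 hu).trans hAK
      have hv' : v ⊆ Ed (D \ K) := (Finset.mem_powerset.1 hv).trans hBK
      have e1 : (u ∪ v) ∩ Ed K = u := by
        ext e
        simp only [Finset.mem_inter, Finset.mem_union]
        constructor
        · rintro ⟨h1 | h1, h2⟩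
          · exact h1
          · exact absurd h2 (Finset.disjoint_right.1 hdE (hv' h1))
        · intro h1
          exact ⟨Or.inl h1, hu' h1⟩
      have e2 : (u ∪ v) ∩ Ed (D \ K) = v := by
        ext e
        simp only [Finset.mem_inter, Finset.mem_union]
        constructor
        · rintro ⟨h1 | h1, h2⟩
          · exact absurd h2 (Finset.disjoint_left.1 hdE (hu' h1))
          · exact h1
        · intro h1
          exact ⟨Or.inr h1, hv' h1⟩
      rw [e1, e2]
    rw [Finset.sum_congr rfl fun u hu => Finset.sum_congr rfl fun v hv => h3 u hu v hv]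
    simp_rw [← Finset.mul_sum]
    rw [← Finset.sum_mul, hsub K a A ha hAK, hsub (D \ K) a B ha hBK, ← Real.exp_add,
      ← Real.exp_add]
    rw [← hO', hM]
    congr 1
    ring

theorem conn_left {K K' : Finset Z2} {U V : Finset Edge} (hU : U ⊆ Ed K) (hV : V ⊆ Ed K')
    (hK : Disjoint K K') {b z : Z2} (hb : b ∈ K) (h : Conn (U ∪ V) b z) :
    Conn U b z ∧ z ∈ K := by
  unfold Conn at h ⊢
  induction h with
  | refl => exact ⟨Relation.ReflTransGen.refl, hb⟩
  | tail _ h2 ih =>
    have h3 := joined_left hU hV hK h2 ih.2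
    exact ⟨ih.1.tail h3, (Joined.ends hU h3).2⟩

theorem KO_union {D K S : Finset Z2} {x y : Finset Edge} (hS : S ⊆ K) (hx : x ⊆ Ed K)
    (hy : y ⊆ Ed (D \ K)) : KO D (x ∪ y) S = KO D x S := by
  ext z
  unfold KO
  simp only [Finset.mem_filter]
  constructor
  · rintro ⟨h1, b, hb, h2⟩
    exact ⟨h1, b, hb, (conn_left hx hy Finset.disjoint_sdiff (hS hb) h2).1⟩
  · rintro ⟨h1, b, hb, h2⟩
    refine ⟨h1, b, hb, ?_⟩
    clear h1 hb
    unfold Conn at h2 ⊢
    induction h2 with
    | refl => exact Relation.ReflTransGen.refl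
    | tail _ h2 ih => exact ih.tail (Joined.mono Finset.subset_union_left h2)

theorem KO_eq_sub {D K S : Finset Z2} {O : Finset Edge} (hO : O ⊆ Ed D)
    (h : KO D O S = K) : O ⊆ Ed K ∪ Ed (D \ K) := by
  intro e he
  obtain ⟨h1, h2⟩ := mem_Ed.1 (hO he)
  have hst : src e ∈ K → tgt e ∈ K := by
    intro hk
    rw [← h] at hk ⊢
    unfold KO at hk ⊢
    rw [Finset.mem_filter] at hk ⊢
    obtain ⟨_, b, hb, hc⟩ := hk
    exact ⟨h2, b, hb, hc.tail ⟨e, he, Or.inl ⟨rfl, rfl⟩⟩⟩
  have hts : tgt e ∈ K → src e ∈ K := by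
    intro hk
    rw [← h] at hk ⊢
    unfold KO at hk ⊢
    rw [Finset.mem_filter] at hk ⊢
    obtain ⟨_, b, hb, hc⟩ := hk
    exact ⟨h1, b, hb, hc.tail ⟨e, he, Or.inr ⟨rfl, rfl⟩⟩⟩
  rw [Finset.mem_union]
  by_cases hk : src e ∈ K
  · exact Or.inl (mem_Ed.2 ⟨hk, hst hk⟩)
  · right
    refine mem_Ed.2 ⟨Finset.mem_sdiff.2 ⟨h1, hk⟩, Finset.mem_sdiff.2 ⟨h2, fun h' => hk (hts h')⟩⟩

/-- the factorised form of the expectation -/
theorem Ex_fact (hsub : Stmt_sub) (hs : Stmt_sum) {D K S : Finset Z2} {a : ℝ} (ha : 0 ≤ a)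
    (hS : S ⊆ K) (hK : K ⊆ D) (g : Finset Edge → ℝ) :
    Ex D a (fun O => if KO D O S = K then g (O ∩ Ed (D \ K)) else 0)
      = (Real.exp (-a * (Ms (Ed D) - Ms (Ed K) - Ms (Ed (D \ K)))) *
        ∑ x ∈ (Ed K).powerset, pr K a x * (if KO D x S = K then 1 else 0)) *
        Ex (D \ K) a g := by
  have hd : Disjoint K (D \ K) := Finset.disjoint_sdiff
  have hdE := Ed_disj hd
  have hE1 : Ed K ⊆ Ed D := Ed_mono hK
  have hE2 : Ed (D \ K) ⊆ Ed D := Ed_mono Finset.sdiff_subset
  unfold Ex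
  have h1 : ∑ O ∈ (Ed D).powerset, pr D a O *
        (if KO D O S = K then g (O ∩ Ed (D \ K)) else 0)
      = ∑ O ∈ (Ed K ∪ Ed (D \ K)).powerset, pr D a O *
        (if KO D O S = K then g (O ∩ Ed (D \ K)) else 0) := by
    symm
    refine Finset.sum_subset ?_ ?_
    · exact Finset.powerset_mono.2 (Finset.union_subset hE1 hE2)
    · intro O hO hO'
      rw [Finset.mem_powerset] at hO hO'
      rw [if_neg (fun h => hO' (KO_eq_sub hO h)), mul_zero]
  rw [h1, sum_union hdE]
  have h2 : ∀ x ∈ (Ed K).powerset, ∀ y ∈ (Ed (D \ K)).powerset,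
      pr D a (x ∪ y) * (if KO D (x ∪ y) S = K then g ((x ∪ y) ∩ Ed (D \ K)) else 0)
      = (Real.exp (-a * (Ms (Ed D) - Ms (Ed K) - Ms (Ed (D \ K)))) *
        (pr K a x * (if KO D x S = K then 1 else 0))) * (pr (D \ K) a y * g y) := by
    intro x hx y hy
    rw [Finset.mem_powerset] at hx hy
    have e2 : (x ∪ y) ∩ Ed (D \ K) = y := by
      ext e
      simp only [Finset.mem_inter, Finset.mem_union]
      constructor
      · rintro ⟨h1 | h1, h2⟩
        · exact absurd h2 (Finset.disjoint_left.1 hdE (hx h1))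
        · exact h1
      · intro h1
        exact ⟨Or.inr h1, hy h1⟩
    rw [e2, KO_union hS hx hy, pr_union hsub hs ha hK hx hy]
    split_ifs <;> ring
  rw [Finset.sum_congr rfl fun x hx => Finset.sum_congr rfl fun y hy => h2 x hx y hy]
  simp_rw [← Finset.mul_sum]
  rw [← Finset.sum_mul, ← Finset.mul_sum]

theorem Ex_one (hsub : Stmt_sub) (D : Finset Z2) {a : ℝ} (ha : 0 ≤ a) :
    Ex D a (fun _ => 1) = 1 := by
  unfold Ex
  simp_rw [mul_one]
  rw [hsub D a (Ed D) ha subset_rfl]
  simp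

end MarkAux

open MarkAux in
theorem mark (hsub : Stmt_sub) (hs : Stmt_sum) (hp : Stmt_prob) : Stmt_mark := by
  intro D K S a g ha hS hK
  rw [Ex_fact hsub hs ha hS hK g]
  have h1 := Ex_fact hsub hs ha hS hK (fun _ => (1 : ℝ))
  rw [Ex_one hsub (D \ K) ha, mul_one] at h1
  rw [h1]

end LSoup
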