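import Pool.Agent.LSoup.Stmts

/-!
(4.5): loops joining two wide sets at comparable distance have mass at least `1/2`.
-/

open MeasureTheory ProbabilityTheory Finset Filter Topology

open scoped Classical

noncomputable section

namespace LSoup

namespace MassAux

lemma sq_le_two_exp {t : ℝ} (ht : 0 ≤ t) : t ^ 2 ≤ 2 * Real.exp t := by
  have := Real.quadratic_le_exp_of_nonneg ht
  nlinarith

lemma abs_lin_le (D : Finset Z2) (u f : Z2 → ℝ) :
    |lin D u f| ≤ (∑ x ∈ D, |u x|) * ∑ x ∈ D, |f x| := by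
  unfold lin
  calc |∑ x ∈ D, u x * f x| ≤ ∑ x ∈ D, |u x * f x| := Finset.abs_sum_le_sum_abs _ _
    _ ≤ ∑ x ∈ D, |u x| * ∑ y ∈ D, |f y| := by
        refine Finset.sum_le_sum fun x hx => ?_
        rw [abs_mul]
        refine mul_le_mul_of_nonneg_left ?_ (abs_nonneg _)
        exact Finset.single_le_sum (f := fun y => |f y|) (fun y _ => abs_nonneg _) hx
    _ = _ := by rw [Finset.sum_mul]

lemma H_le (D : Finset Z2) (f : Z2 → ℝ) : H (Ed D) f ≤ ∑ e ∈ Ed D, Jf f e := by
  unfold H Jf
  exact Finset.sum_le_sum fun e _ => le_abs_self _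

lemma meas_lin (D : Finset Z2) (u : Z2 → ℝ) : Measurable fun f : Z2 → ℝ => lin D u f := by
  unfold lin
  exact Finset.measurable_sum _ fun x _ => (measurable_pi_apply x).const_mul _

lemma meas_H (O : Finset Edge) : Measurable fun f : Z2 → ℝ => H O f := by
  unfold H
  exact Finset.measurable_sum _ fun e _ => (measurable_pi_apply _).mul (measurable_pi_apply _)

lemma integrable_prod (hi : Stmt_int) (D : Finset Z2) (u v : Z2 → ℝ) :
    Integrable (fun f : Z2 → ℝ => (lin D u f * lin D v f) * Real.exp (H (Ed D) f)) Gam := by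
  have h1 := (hi D 1).1
  refine ((h1.const_mul (2 * ((∑ x ∈ D, |u x|) * ∑ x ∈ D, |v x|)))).mono' ?_ ?_
  · exact ((((meas_lin D u).mul (meas_lin D v)).mul
      (Real.measurable_exp.comp (meas_H (Ed D))))).aestronglyMeasurable
  · refine Filter.Eventually.of_forall fun f => ?_
    rw [Real.norm_eq_abs, abs_mul, abs_mul, abs_of_pos (Real.exp_pos _)]
    set T := ∑ x ∈ D, |f x| with hT
    have hT0 : 0 ≤ T := Finset.sum_nonneg fun x _ => abs_nonneg _
    have hu := abs_lin_le D u f
    have hv := abs_lin_le D v f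
    rw [← hT] at hu hv
    set U := ∑ x ∈ D, |u x|
    set V := ∑ x ∈ D, |v x|
    have hU0 : 0 ≤ U := Finset.sum_nonneg fun x _ => abs_nonneg _
    have hV0 : 0 ≤ V := Finset.sum_nonneg fun x _ => abs_nonneg _
    have e1 : |lin D u f| * |lin D v f| ≤ U * V * (2 * Real.exp T) := by
      calc |lin D u f| * |lin D v f| ≤ (U * T) * (V * T) :=
            mul_le_mul hu hv (abs_nonneg _) (by positivity)
        _ = U * V * T ^ 2 := by ring
        _ ≤ U * V * (2 * Real.exp T) :=
            mul_le_mul_of_nonneg_left (sq_le_two_exp hT0) (by positivity)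
    calc |lin D u f| * |lin D v f| * Real.exp (H (Ed D) f)
        ≤ (U * V * (2 * Real.exp T)) * Real.exp (∑ e ∈ Ed D, Jf f e) :=
          mul_le_mul e1 (Real.exp_le_exp.2 (H_le D f)) (Real.exp_pos _).le (by positivity)
      _ = 2 * (U * V) * Real.exp (∑ e ∈ Ed D, Jf f e + 1 * T) := by
          rw [Real.exp_add, one_mul]; ring

lemma Cov_sub (hi : Stmt_int) (D : Finset Z2) (u v : Z2 → ℝ) :
    Cov D (fun x => u x - v x) (fun x => u x - v x)
      = Cov D u u + Cov D v v - 2 * Cov D u v := by
  unfold Cov gff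
  have e : ∀ f : Z2 → ℝ, (lin D (fun x => u x - v x) f * lin D (fun x => u x - v x) f)
      * Real.exp (H (Ed D) f)
      = ((lin D u f * lin D u f) * Real.exp (H (Ed D) f)
        + (lin D v f * lin D v f) * Real.exp (H (Ed D) f))
        - 2 * ((lin D u f * lin D v f) * Real.exp (H (Ed D) f)) := by
    intro f
    have : lin D (fun x => u x - v x) f = lin D u f - lin D v f := by
      unfold lin
      rw [← Finset.sum_sub_distrib]
      exact Finset.sum_congr rfl fun x _ => by ring
    rw [this]; ring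
  have iu := integrable_prod hi D u u
  have iv := integrable_prod hi D v v
  have iw := integrable_prod hi D u v
  have h1 := integral_sub (iu.add iv) (iw.const_mul 2)
  have h2 := integral_add iu iv
  have h3 : ∫ f, (2 : ℝ) * ((lin D u f * lin D v f) * Real.exp (H (Ed D) f)) ∂Gam
      = 2 * ∫ f, (lin D u f * lin D v f) * Real.exp (H (Ed D) f) ∂Gam := integral_const_mul _ _
  simp only [Pi.add_apply] at h1 h2
  rw [integral_congr_ae (Filter.Eventually.of_forall e), h1, h2, h3]
  ring

lemma sum_avw (D S : Finset Z2) (hS : S ⊆ D) (f : Z2 → ℝ) :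
    ∑ x ∈ D, avw S x * f x = av S f := by
  unfold avw av
  rw [← Finset.sum_subset hS (fun x _ hx => by simp [hx]), Finset.sum_div]
  refine Finset.sum_congr rfl fun x hx => ?_
  simp [hx]; ring

lemma mem_bx (x z : Z2) (r : ℕ) : x ∈ bx z r ↔ nrm x z ≤ r := by
  unfold bx nrm
  simp only [Finset.mem_product, Finset.mem_Icc]
  omega

lemma av_one (S : Finset Z2) (hS : S.Nonempty) (f : Z2 → ℝ) (h : ∀ x ∈ S, f x = 1) :
    av S f = 1 := by
  unfold av
  rw [Finset.sum_congr rfl h]
  have : (S.card : ℝ) ≠ 0 := by exact_mod_cast hS.card_pos.ne'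
  simp [this]

end MassAux

open MassAux

theorem mass (hm : Stmt_MI) (hd : Stmt_dual) (hc : Stmt_col) (he : Stmt_en) (hl : Stmt_log)
    (hi : Stmt_int) : Stmt_mass := by
  intro z r M K K' hr hM hK hK' hKb hK'b hK'r
  obtain ⟨S, hSK, hScard, hSinj⟩ := hK
  obtain ⟨S', hSK', hScard', hSinj'⟩ := hK'
  -- size of `M`
  have hM0 : (0 : ℝ) < M / 20 := by
    by_contra hcon
    have : (M : ℝ) / 20 = 0 := le_antisymm (not_lt.1 hcon) (by positivity)
    rw [this, Real.log_zero] at hM
    norm_num at hM
  have hMe : Real.exp 1 ≤ (M : ℝ) / 20 := by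
    rw [← Real.log_le_log_iff (Real.exp_pos _) hM0, Real.log_exp]
    linarith
  have hM20 : 20 ≤ M := by
    have h1 : (1 : ℝ) ≤ Real.exp 1 := Real.one_le_exp (by norm_num)
    have : (20 : ℝ) ≤ M := by linarith
    exact_mod_cast this
  set D := bx z (M * r) with hD
  set L := bx z (20 * r) with hL
  have hSL : S ⊆ L := fun x hx => by
    have := (mem_bx x z _).1 (hKb (hSK hx))
    exact (mem_bx x z _).2 (by omega)
  have hSL' : S' ⊆ L := fun x hx => by
    have := (mem_bx x z _).1 (hK'b (hSK' hx))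
    exact (mem_bx x z _).2 (by omega)
  have hLD : L ⊆ D := fun x hx => by
    have h1 := (mem_bx x z _).1 hx
    refine (mem_bx x z _).2 (h1.trans ?_)
    exact Nat.mul_le_mul_right r hM20
  have hKD : K ⊆ D := fun x hx => by
    have := (mem_bx x z _).1 (hKb hx)
    exact hLD ((mem_bx x z _).2 (by omega))
  have hKD' : K' ⊆ D := fun x hx => by
    have := (mem_bx x z _).1 (hK'b hx)
    exact hLD ((mem_bx x z _).2 (by omega))
  have hdis : Disjoint K K' := by
    rw [Finset.disjoint_left]
    intro x hx hx'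
    have h1 := (mem_bx x z _).1 (hKb hx)
    have h2 := hK'r x hx'
    omega
  have hSne : S.Nonempty := Finset.card_pos.1 (by omega)
  have hSne' : S'.Nonempty := Finset.card_pos.1 (by omega)
  have hmi := hm D K K' (avw S) (avw S') hKD hKD' hdis
    (fun x hx => if_neg fun h => hx (hSK h))
    (fun x hx => if_neg fun h => hx (hSK' h))
  -- lower bounds for the variances
  obtain ⟨f, hf1, hf0, hfE⟩ := hl z (20 * r) (M * r) (by omega) (by
    push_cast
    have : (0 : ℝ) < r := by exact_mod_cast hr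
    nlinarith)
  have hratio : ((M * r : ℕ) : ℝ) / ((20 * r : ℕ) : ℝ) = M / 20 := by
    have : (r : ℝ) ≠ 0 := by
      have : (0 : ℝ) < r := by exact_mod_cast hr
      exact this.ne'
    push_cast
    field_simp
  rw [hratio] at hfE
  have hfE' : En0 D f ≤ 1 / 240 := by
    refine hfE.trans ?_
    rw [div_le_div_iff₀ (by linarith) (by norm_num)]
    linarith
  have hfoff : ∀ x, x ∉ D → f x = 0 := fun x hx => hf0 x (by
    by_contra hcon
    exact hx ((mem_bx x z _).2 (by omega)))
  have hfon : ∀ x ∈ L, f x = 1 := fun x hx => hf1 x ((mem_bx x z _).1 hx)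
  have hvar : ∀ T : Finset Z2, T.Nonempty → T ⊆ L → 240 ≤ Cov D (avw T) (avw T) := by
    intro T hT hTL
    have h1 := (hd D (avw T)).1 f hfoff
    rw [sum_avw D T (hTL.trans hLD) f, av_one T hT f (fun x hx => hfon x (hTL hx)), one_pow] at h1
    have hE0 : 0 ≤ En0 D f := by
      have := (he D f hfoff).1 ∅
      have e0 : EnL ∅ f = 0 := by simp [EnL, Ed]
      linarith
    by_contra hcon
    push Not at hcon
    have hEpos : 0 < En0 D f := by
      rcases hE0.lt_or_eq with h | h
      · exact h
      · rw [← h] at h1; norm_num at h1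
    have h2 : Cov D (avw T) (avw T) * En0 D f < 240 * En0 D f :=
      mul_lt_mul_of_pos_right hcon hEpos
    linarith
  have hA := hvar S hSne hSL
  have hB := hvar S' hSne' hSL'
  -- variance of the difference
  have hcol : ∀ T : Finset Z2, T.Nonempty → T ⊆ L → T.card = 2 * r →
      (Set.InjOn Prod.fst (T : Set Z2) ∨ Set.InjOn Prod.snd (T : Set Z2)) → ∀ g : Z2 → ℝ,
      |av T g - av L g| ≤ (1 + Real.sqrt 20) * Real.sqrt (EnL L g) := by
    intro T hT hTL hTc hTi g
    have h := hc z (20 * r) T g hTL hT hTi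
    have e : 2 * ((20 * r : ℕ) : ℝ) / (T.card : ℝ) = 20 := by
      have : (r : ℝ) ≠ 0 := by
        have : (0 : ℝ) < r := by exact_mod_cast hr
        exact this.ne'
      rw [hTc]; push_cast; field_simp
    rw [e] at h
    exact h
  have hdiff : Cov D (fun x => avw S x - avw S' x) (fun x => avw S x - avw S' x) ≤ 120 := by
    refine (hd D _).2 120 (by norm_num) fun g hg => ?_
    have e : ∑ x ∈ D, (avw S x - avw S' x) * g x = av S g - av S' g := by
      rw [← sum_avw D S (hSL.trans hLD) g, ← sum_avw D S' (hSL'.trans hLD) g,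
        ← Finset.sum_sub_distrib]
      exact Finset.sum_congr rfl fun x _ => by ring
    rw [e]
    have h1 := hcol S hSne hSL hScard hSinj g
    have h2 := hcol S' hSne' hSL' hScard' hSinj' g
    have hE := (he D g hg).1 L
    have hEL0 : 0 ≤ EnL L g := by
      unfold EnL; exact Finset.sum_nonneg fun e _ => sq_nonneg _
    set s := Real.sqrt (EnL L g) with hs
    have hs0 : 0 ≤ s := Real.sqrt_nonneg _
    have hs2 : s ^ 2 = EnL L g := Real.sq_sqrt hEL0
    have hq0 : 0 ≤ Real.sqrt 20 := Real.sqrt_nonneg _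
    have hq2 : Real.sqrt 20 ^ 2 = 20 := Real.sq_sqrt (by norm_num)
    have hq : Real.sqrt 20 ≤ 4.5 := by
      rw [Real.sqrt_le_left (by norm_num)]; norm_num
    have h3 : |av S g - av S' g| ≤ 2 * (1 + Real.sqrt 20) * s := by
      have : av S g - av S' g = (av S g - av L g) - (av S' g - av L g) := by ring
      rw [this]
      refine (abs_sub _ _).trans ?_
      linarith
    have h4 : (av S g - av S' g) ^ 2 ≤ (2 * (1 + Real.sqrt 20) * s) ^ 2 := by
      rw [← sq_abs (av S g - av S' g)]
      exact pow_le_pow_left₀ (abs_nonneg _) h3 2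
    have h5 : (2 * (1 + Real.sqrt 20) * s) ^ 2 ≤ 120 * EnL L g := by
      rw [← hs2]
      have : (2 * (1 + Real.sqrt 20) * s) ^ 2 = (4 * (1 + 2 * Real.sqrt 20 + Real.sqrt 20 ^ 2)) * s ^ 2 := by
        ring
      rw [this, hq2]
      refine mul_le_mul_of_nonneg_right ?_ (sq_nonneg _)
      linarith
    linarith
  rw [Cov_sub hi] at hdiff
  set A := Cov D (avw S) (avw S)
  set B := Cov D (avw S') (avw S')
  set X := Cov D (avw S) (avw S')
  have hX : (3 / 4) * ((A + B) / 2) ≤ X := by linarith
  have hX2 : ((3 / 4) * ((A + B) / 2)) ^ 2 ≤ X ^ 2 :=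
    pow_le_pow_left₀ (by linarith) hX 2
  have hAB : 0 < A * B := by positivity
  have key : 1 / 2 * (A * B) ≤ hitM D K K' * (A * B) := by
    refine le_trans ?_ (hX2.trans hmi)
    nlinarith [sq_nonneg (A - B)]
  exact le_of_mul_le_mul_right key hAB

end LSoup
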