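import Pool.Agent.LSoup.Stmts

open MeasureTheory ProbabilityTheory Finset Filter Topology

open scoped Classical

noncomputable section

namespace LSoup

/-- antiderivative of the Gaussian density -/
private def Gf (x : ℝ) : ℝ := ∫ t in (0 : ℝ)..x, Real.exp (-(1 / 2) * t ^ 2)

private theorem Gf_cont : Continuous fun t : ℝ => Real.exp (-(1 / 2) * t ^ 2) := by fun_prop

private theorem Gf_deriv (x : ℝ) : HasDerivAt Gf (Real.exp (-(1 / 2) * x ^ 2)) x := by
  exact intervalIntegral.integral_hasDerivAt_right (Gf_cont.intervalIntegrable _ _)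
    (Gf_cont.stronglyMeasurableAtFilter _ _) Gf_cont.continuousAt

private theorem Gf_top : Tendsto Gf atTop (𝓝 (Real.sqrt (2 * Real.pi) / 2)) := by
  have h : IntegrableOn (fun t : ℝ => Real.exp (-(1 / 2) * t ^ 2)) (Set.Ioi 0) :=
    (integrable_exp_neg_mul_sq (by norm_num)).integrableOn
  have h2 := intervalIntegral_tendsto_integral_Ioi 0 h tendsto_id
  rw [integral_gaussian_Ioi] at h2
  have h3 : Real.pi / (1 / 2) = 2 * Real.pi := by ring
  rw [h3] at h2
  exact h2

private theorem Gf_neg (x : ℝ) : Gf (-x) = -Gf x := by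
  unfold Gf
  have h := intervalIntegral.integral_comp_neg (a := 0) (b := x)
    (fun t : ℝ => Real.exp (-(1 / 2) * t ^ 2))
  simp only [neg_zero, neg_sq] at h
  rw [intervalIntegral.integral_symm, ← h]

private theorem Gf_bot : Tendsto Gf atBot (𝓝 (-(Real.sqrt (2 * Real.pi) / 2))) := by
  have h : Tendsto (fun x : ℝ => -Gf (-x)) atBot (𝓝 (-(Real.sqrt (2 * Real.pi) / 2))) :=
    (Gf_top.comp tendsto_neg_atBot_atTop).neg
  refine h.congr ?_
  intro x
  rw [Gf_neg, neg_neg]

private theorem key (b : ℝ) (hb : 0 < b) :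
    ∫ z in Set.Ioi (0 : ℝ), Real.exp (-(1 / 2) * z ^ 2 - b ^ 2 / (2 * z ^ 2))
      = Real.exp (-b) * (Real.sqrt (2 * Real.pi) / 2) := by
  set c : ℝ := Real.sqrt (2 * Real.pi) / 2 with hc
  set F : ℝ → ℝ := fun z => 1 / 2 * Real.exp (-b) * Gf (z - b / z)
    + 1 / 2 * Real.exp b * Gf (z + b / z) with hF
  have hder : ∀ z ∈ Set.Ioi (0 : ℝ), HasDerivAt F
      (Real.exp (-(1 / 2) * z ^ 2 - b ^ 2 / (2 * z ^ 2))) z := by
    intro z hz
    have hz0 : z ≠ 0 := ne_of_gt hz
    have h1 : HasDerivAt (fun z : ℝ => b / z) (-b / z ^ 2) z := by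
      have := (hasDerivAt_inv hz0).const_mul b
      refine this.congr_deriv ?_ |>.congr_of_eventuallyEq ?_
      · rw [neg_div, mul_neg, ← div_eq_mul_inv]
      · filter_upwards with y
        rw [div_eq_mul_inv]
    have h2 : HasDerivAt (fun z : ℝ => z - b / z) (1 - -b / z ^ 2) z := (hasDerivAt_id z).sub h1
    have h3 : HasDerivAt (fun z : ℝ => z + b / z) (1 + -b / z ^ 2) z := (hasDerivAt_id z).add h1
    have h4 := ((Gf_deriv (z - b / z)).comp z h2).const_mul (1 / 2 * Real.exp (-b))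
    have h5 := ((Gf_deriv (z + b / z)).comp z h3).const_mul (1 / 2 * Real.exp b)
    refine (h4.add h5).congr_deriv ?_
    have e1 : Real.exp (-b) * Real.exp (-(1 / 2) * (z - b / z) ^ 2)
        = Real.exp (-(1 / 2) * z ^ 2 - b ^ 2 / (2 * z ^ 2)) := by
      rw [← Real.exp_add]
      congr 1
      field_simp
      ring
    have e2 : Real.exp b * Real.exp (-(1 / 2) * (z + b / z) ^ 2)
        = Real.exp (-(1 / 2) * z ^ 2 - b ^ 2 / (2 * z ^ 2)) := by
      rw [← Real.exp_add]
      congr 1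
      field_simp
      ring
    calc 1 / 2 * Real.exp (-b) * (Real.exp (-(1 / 2) * (z - b / z) ^ 2) * (1 - -b / z ^ 2))
          + 1 / 2 * Real.exp b * (Real.exp (-(1 / 2) * (z + b / z) ^ 2) * (1 + -b / z ^ 2))
        = 1 / 2 * (Real.exp (-b) * Real.exp (-(1 / 2) * (z - b / z) ^ 2)) * (1 - -b / z ^ 2)
          + 1 / 2 * (Real.exp b * Real.exp (-(1 / 2) * (z + b / z) ^ 2)) * (1 + -b / z ^ 2) := by
          ring
      _ = Real.exp (-(1 / 2) * z ^ 2 - b ^ 2 / (2 * z ^ 2)) := by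
          rw [e1, e2]
          ring
  -- the limits
  have l1 : Tendsto (fun z : ℝ => b / z) (𝓝[>] 0) atTop := by
    have := tendsto_inv_nhdsGT_zero.const_mul_atTop hb (β := ℝ)
    simpa [div_eq_mul_inv] using this
  have l2 : Tendsto (fun z : ℝ => b / z) atTop (𝓝 0) := tendsto_const_nhds.div_atTop tendsto_id
  have hid : Tendsto (fun z : ℝ => z) (𝓝[>] 0) (𝓝 0) := tendsto_nhdsWithin_of_tendsto_nhds tendsto_id
  have l3 : Tendsto (fun z : ℝ => z - b / z) (𝓝[>] 0) atBot := by
    have := hid.add_atBot (tendsto_neg_atTop_atBot.comp l1)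
    refine this.congr ?_
    intro z
    simp [sub_eq_add_neg]
  have l4 : Tendsto (fun z : ℝ => z + b / z) (𝓝[>] 0) atTop := hid.add_atTop l1
  have l5 : Tendsto (fun z : ℝ => z - b / z) atTop atTop := by
    have := tendsto_id.atTop_add (l2.neg) (α := ℝ)
    refine this.congr ?_
    intro z
    simp [sub_eq_add_neg]
  have l6 : Tendsto (fun z : ℝ => z + b / z) atTop atTop := tendsto_id.atTop_add l2
  have hF0 : Tendsto F (𝓝[>] 0) (𝓝 (1 / 2 * Real.exp (-b) * (-c) + 1 / 2 * Real.exp b * c)) :=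
    ((Gf_bot.comp l3).const_mul _).add ((Gf_top.comp l4).const_mul _)
  have hFt : Tendsto F atTop (𝓝 (1 / 2 * Real.exp (-b) * c + 1 / 2 * Real.exp b * c)) :=
    ((Gf_top.comp l5).const_mul _).add ((Gf_top.comp l6).const_mul _)
  set L : ℝ := 1 / 2 * Real.exp (-b) * (-c) + 1 / 2 * Real.exp b * c with hL
  set F' : ℝ → ℝ := Function.update F 0 L with hF'
  have hder' : ∀ z ∈ Set.Ioi (0 : ℝ), HasDerivAt F'
      (Real.exp (-(1 / 2) * z ^ 2 - b ^ 2 / (2 * z ^ 2))) z := by
    intro z hz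
    refine (hder z hz).congr_of_eventuallyEq ?_
    filter_upwards [isOpen_Ioi.mem_nhds hz] with y hy
    have hy0 : y ≠ 0 := ne_of_gt hy
    simp [hF', Function.update_of_ne hy0]
  have hcont : ContinuousWithinAt F' (Set.Ici 0) 0 := by
    have h0 : F' 0 = L := by simp [hF']
    have h1 : ContinuousWithinAt F' (Set.Ioi 0) 0 := by
      rw [ContinuousWithinAt, h0]
      refine hF0.congr' ?_
      filter_upwards [self_mem_nhdsWithin] with y hy
      have hy0 : y ≠ 0 := ne_of_gt hy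
      simp [hF', Function.update_of_ne hy0]
    rw [← Set.Ioi_insert]
    exact h1.insert
  have htop : Tendsto F' atTop (𝓝 (1 / 2 * Real.exp (-b) * c + 1 / 2 * Real.exp b * c)) := by
    refine hFt.congr' ?_
    filter_upwards [eventually_gt_atTop 0] with y hy
    have hy0 : y ≠ 0 := ne_of_gt hy
    simp [hF', Function.update_of_ne hy0]
  rw [integral_Ioi_of_hasDerivAt_of_nonneg hcont hder' (fun z _ => (Real.exp_pos _).le) htop]
  have h0 : F' 0 = L := by simp [hF']
  rw [h0, hL]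
  ring

private theorem key2 (b : ℝ) (hb : 0 ≤ b) :
    ∫ z, Real.exp (-(b ^ 2 / z ^ 2) / 2) ∂gaussianReal 0 1 = Real.exp (-b) := by
  rcases hb.eq_or_lt with rfl | hb
  · simp
  rw [integral_gaussianReal_eq_integral_smul one_ne_zero]
  set f : ℝ → ℝ := fun z => (Real.sqrt (2 * Real.pi))⁻¹ *
    Real.exp (-(1 / 2) * z ^ 2 - b ^ 2 / (2 * z ^ 2)) with hf
  have h1 : ∀ z : ℝ, gaussianPDFReal 0 1 z • Real.exp (-(b ^ 2 / z ^ 2) / 2) = f |z| := by
    intro z
    rw [gaussianPDFReal_def, hf]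
    simp only [smul_eq_mul, sub_zero, NNReal.coe_one, mul_one, sq_abs]
    rw [mul_assoc, ← Real.exp_add]
    congr 2
    rw [show b ^ 2 / (2 * z ^ 2) = b ^ 2 / z ^ 2 / 2 by rw [mul_comm, div_mul_eq_div_div]]
    ring
  rw [integral_congr_ae (ae_of_all _ h1), integral_comp_abs, hf, integral_const_mul, key b hb]
  have hp : 0 < Real.sqrt (2 * Real.pi) := Real.sqrt_pos.2 (by positivity)
  field_simp

theorem mix : Stmt_mix := by
  intro s hs
  have hm : Measurable fun z : ℝ => s ^ 2 / z ^ 2 := by fun_prop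
  refine ⟨(gaussianReal 0 1).map fun z => s ^ 2 / z ^ 2, ?_, ?_, ?_⟩
  · exact Measure.isProbabilityMeasure_map hm.aemeasurable
  · rw [ae_map_iff hm.aemeasurable measurableSet_Ici]
    exact ae_of_all _ fun z => by positivity
  · intro u
    rw [integral_map hm.aemeasurable (by fun_prop)]
    have h1 : ∀ z : ℝ, Real.exp (-(s ^ 2 / z ^ 2) * u ^ 2 / 2)
        = Real.exp (-((s * |u|) ^ 2 / z ^ 2) / 2) := by
      intro z
      congr 1
      rw [mul_pow, sq_abs]
      ring
    rw [integral_congr_ae (ae_of_all _ h1), key2 _ (mul_nonneg hs (abs_nonneg u))]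
    congr 1
    ring

end LSoup
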