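import Pool.Agent.LSoup.Stmts2

/-!
# Monotonicity in the intensity (A9)
-/

open MeasureTheory ProbabilityTheory Finset Filter Topology

open scoped Classical

noncomputable section

namespace LSoup

theorem mono (hc : Stmt_conv) (hp : Stmt_prob) : Stmt_mono := by
  intro D a a' h ha haa hh
  have hd : 0 ≤ a' - a := sub_nonneg.2 haa
  have h1 := hc D a (a' - a) h ha hd
  rw [add_sub_cancel] at h1
  rw [h1]
  unfold Ex
  refine Finset.sum_le_sum fun O _ => ?_
  have h2 : pr D a O * h O = ∑ O' ∈ (Ed D).powerset, pr D a O * pr D (a' - a) O' * h O := by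
    have h3 := (hp D (a' - a) hd).2.2.1
    rw [← Finset.sum_mul, ← Finset.mul_sum, h3, mul_one]
  rw [h2]
  refine Finset.sum_le_sum fun O' _ => ?_
  exact mul_le_mul_of_nonneg_left (hh _ _ Finset.subset_union_left)
    (mul_nonneg ((hp D a ha).2.1 O) ((hp D (a' - a) hd).2.1 O'))

end LSoup
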