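import Pool.Agent.LSoup.Stmts2

/-! Module D3a: integral over the field outside a cluster (paper, proof of Proposition 2). -/

open MeasureTheory ProbabilityTheory Finset Filter Topology

open scoped Classical

noncomputable section

namespace LSoup

namespace OutAux

variable {R : Finset Z2}

/-- extension by zero -/
def ze (R : Finset Z2) (x : R → ℝ) (z : Z2) : ℝ := if h : z ∈ R then x ⟨z, h⟩ else 0

theorem ze_off (x : R → ℝ) {z : Z2} (hz : z ∉ R) : ze R x z = 0 := dif_neg hz

theorem ze_on (x : R → ℝ) (z : R) : ze R x z = x z := by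
  unfold ze
  rw [dif_pos z.2]

/-- indicator of a point -/
def dl (j : Z2) (z : Z2) : ℝ := if z = j then 1 else 0

theorem ze_eq_sum (x : R → ℝ) (z : Z2) : ze R x z = ∑ j : R, x j * dl j z := by
  unfold ze dl
  by_cases h : z ∈ R
  · rw [dif_pos h, Finset.sum_eq_single ⟨z, h⟩]
    · simp
    · intro b _ hb
      have : z ≠ (b : Z2) := fun e => hb (Subtype.ext e.symm)
      simp [this]
    · intro h'
      exact absurd (Finset.mem_univ _) h'
  · rw [dif_neg h]
    symm
    apply Finset.sum_eq_zero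
    intro b _
    have : z ≠ (b : Z2) := fun e => h (e ▸ b.2)
    simp [this]

theorem lap_ze (x : R → ℝ) (z : Z2) : lap (ze R x) z = ∑ j : R, x j * lap (dl j) z := by
  unfold lap
  simp only [ze_eq_sum, mul_sub, Finset.sum_sub_distrib, Finset.mul_sum]
  congr 4
  apply Finset.sum_congr rfl
  intro j _
  ring

/-- the matrix of the Dirichlet form -/
def AM (R : Finset Z2) : Matrix R R ℝ := Matrix.of fun i j => lap (dl j) i

theorem En0_ze (he : Stmt_en) (x : R → ℝ) : En0 R (ze R x) = x ⬝ᵥ (AM R).mulVec x := by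
  have h := (he R (ze R x) (fun z hz => ze_off x hz)).2.2.1
  rw [h, ← Finset.sum_coe_sort R (fun z => ze R x z * lap (ze R x) z)]
  unfold dotProduct Matrix.mulVec AM dotProduct
  apply Finset.sum_congr rfl
  intro i _
  rw [ze_on, lap_ze]
  congr 1
  apply Finset.sum_congr rfl
  intro j _
  simp only [Matrix.of_apply]
  ring

theorem AM_symm (he : Stmt_en) : (AM R).IsHermitian := by
  ext i j
  simp only [Matrix.conjTranspose_apply, AM, Matrix.of_apply, star_trivial]
  have hi : ∀ x, x ∉ R → dl (i : Z2) x = 0 := by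
    intro x hx
    unfold dl
    rw [if_neg]
    rintro rfl
    exact hx i.2
  have hj : ∀ x, x ∉ R → dl (j : Z2) x = 0 := by
    intro x hx
    unfold dl
    rw [if_neg]
    rintro rfl
    exact hx j.2
  have h := (he R (dl i) hi).2.2.2 R (dl j) hj
  have e1 : ∑ x ∈ R, lap (dl (i : Z2)) x * dl (j : Z2) x = lap (dl (i : Z2)) j := by
    rw [Finset.sum_eq_single (j : Z2)]
    · simp [dl]
    · intro b _ hb
      simp [dl, hb]
    · intro h'
      exact absurd j.2 h'
  have e2 : ∑ x ∈ R, dl (i : Z2) x * lap (dl (j : Z2)) x = lap (dl (j : Z2)) i := by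
    rw [Finset.sum_eq_single (i : Z2)]
    · simp [dl]
    · intro b _ hb
      simp [dl, hb]
    · intro h'
      exact absurd i.2 h'
  rw [e1, e2] at h
  exact h

theorem En0_ge (hg : Stmt_gap) (R : Finset Z2) : ∃ c : ℝ, 0 < c ∧
    ∀ x : R → ℝ, c * ∑ i, x i ^ 2 ≤ En0 R (ze R x) := by
  obtain ⟨c, hc, -, h⟩ := hg R
  refine ⟨c, hc, fun x => ?_⟩
  have h1 := h (ze R x)
  have h2 : ∑ z ∈ R, ze R x z ^ 2 = ∑ i : R, x i ^ 2 := by
    rw [← Finset.sum_coe_sort R (fun z => ze R x z ^ 2)]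
    apply Finset.sum_congr rfl
    intro i _
    rw [ze_on]
  rw [h2] at h1
  unfold En0
  rw [h2]
  have h3 := le_abs_self (H (Ed R) (ze R x))
  linarith

theorem AM_posDef (he : Stmt_en) (hg : Stmt_gap) : (AM R).PosDef := by
  obtain ⟨c, hc, h⟩ := En0_ge hg R
  refine Matrix.PosDef.of_dotProduct_mulVec_pos (AM_symm he) ?_
  intro x hx
  have h1 := h x
  rw [En0_ze he] at h1
  have h2 : 0 < ∑ i, x i ^ 2 := by
    obtain ⟨i, hi⟩ := Function.ne_iff.1 hx
    refine lt_of_lt_of_le ?_ (Finset.single_le_sum (f := fun i => x i ^ 2)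
      (fun j _ => sq_nonneg (x j)) (Finset.mem_univ i))
    exact (sq_pos_iff).2 hi
  rw [star_trivial]
  nlinarith

/-- integrability of the Gaussian weights -/
theorem gauss_int (he : Stmt_en) (hg : Stmt_gap) (S θ : R → ℝ) (hS : ∀ i, 0 ≤ S i) :
    Integrable (fun x : R → ℝ => Real.exp (-(x ⬝ᵥ (AM R).mulVec x) / 2) *
      Real.exp (-∑ i, S i * |x i - θ i|)) := by
  obtain ⟨c, hc, h⟩ := En0_ge hg R
  have h1 : Integrable (fun x : R → ℝ => ∏ i, Real.exp (-(c / 2) * x i ^ 2)) := by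
    refine Integrable.fintype_prod (f := fun (_ : R) (t : ℝ) => Real.exp (-(c / 2) * t ^ 2)) ?_
    intro i
    exact integrable_exp_neg_mul_sq (by positivity)
  refine h1.mono' ?_ ?_
  · apply Continuous.aestronglyMeasurable
    unfold dotProduct Matrix.mulVec dotProduct
    fun_prop
  · refine Filter.Eventually.of_forall fun x => ?_
    rw [Real.norm_eq_abs, abs_of_nonneg (by positivity), ← Real.exp_sum, ← Real.exp_add]
    apply Real.exp_le_exp.2
    have h2 := h x
    rw [En0_ze he] at h2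
    have h3 : 0 ≤ ∑ i, S i * |x i - θ i| :=
      Finset.sum_nonneg fun i _ => mul_nonneg (hS i) (abs_nonneg _)
    rw [← Finset.mul_sum]
    linarith

/-- cluster values extended by zero -/
def sc (C : Finset Z2) (s : C → ℝ) (z : Z2) : ℝ := if h : z ∈ C then s ⟨z, h⟩ else 0

/-- the function equal to `0` on `C`, to `χ` on `D \ C` and to `-a` off `D` -/
def FF (D C : Finset Z2) (a : ℝ) (χ : (D \ C : Finset Z2) → ℝ) (x : Z2) : ℝ :=
  if x ∈ C then 0 else if h' : x ∈ D \ C then χ ⟨x, h'⟩ else -a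

/-- one boundary term -/
def bt (C : Finset Z2) (s : C → ℝ) (F : Z2 → ℝ) (e : Edge) : ℝ :=
  if src e ∈ C then sc C s (src e) ^ 2 + 2 * sc C s (src e) * |F (tgt e)|
  else if tgt e ∈ C then sc C s (tgt e) ^ 2 + 2 * sc C s (tgt e) * |F (src e)| else 0

theorem mem_Ed {D : Finset Z2} {e : Edge} : e ∈ Ed D ↔ src e ∈ D ∧ tgt e ∈ D := by
  unfold Ed
  simp [src]

theorem ext2_on (D C : Finset Z2) (a : ℝ) (s : C → ℝ) (χ : (D \ C : Finset Z2) → ℝ) {x : Z2}
    (hx : x ∈ C) : ext2 D C a s χ x = sc C s x := by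
  unfold ext2 sc
  rw [dif_pos hx, dif_pos hx]

theorem ext2_off (D C : Finset Z2) (a : ℝ) (s : C → ℝ) (χ : (D \ C : Finset Z2) → ℝ) {x : Z2}
    (hx : x ∉ C) : ext2 D C a s χ x = FF D C a χ x := by
  unfold ext2 FF
  rw [dif_neg hx, if_neg hx]

theorem sub_nbhd (D : Finset Z2) : D ⊆ nbhd D 1 := by
  intro x hx
  unfold nbhd bx
  rw [Finset.mem_biUnion]
  refine ⟨x, hx, ?_⟩
  simp only [Finset.mem_product, Finset.mem_Icc]
  push_cast
  omega

theorem cost_eq (D C : Finset Z2) (a : ℝ) (s : C → ℝ) (hs : ∀ x, 0 < s x)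
    (χ : (D \ C : Finset Z2) → ℝ) :
    cost D C (ext2 D C a s χ) = EnL (nbhd D 1) (FF D C a χ) +
      ∑ e ∈ Ed (nbhd D 1) \ Ed C, bt C s (FF D C a χ) e := by
  have h0 : EnL (nbhd D 1) (FF D C a χ) =
      ∑ e ∈ Ed (nbhd D 1) \ Ed C, (FF D C a χ (src e) - FF D C a χ (tgt e)) ^ 2 := by
    unfold EnL
    symm
    apply Finset.sum_subset Finset.sdiff_subset
    intro e he he'
    have h1 : e ∈ Ed C := by
      by_contra hcon
      exact he' (Finset.mem_sdiff.2 ⟨he, hcon⟩)
    rw [mem_Ed] at h1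
    unfold FF
    rw [if_pos h1.1, if_pos h1.2]
    ring
  rw [h0, ← Finset.sum_add_distrib]
  unfold cost
  apply Finset.sum_congr rfl
  intro e he
  have hsc : ∀ x, 0 ≤ sc C s x := by
    intro x
    unfold sc
    split_ifs with h
    · exact (hs _).le
    · exact le_rfl
  have hnot : ¬ (src e ∈ C ∧ tgt e ∈ C) := by
    intro hcon
    exact (Finset.mem_sdiff.1 he).2 (mem_Ed.2 hcon)
  unfold bt
  by_cases h1 : src e ∈ C
  · have h2 : tgt e ∉ C := fun h => hnot ⟨h1, h⟩
    rw [if_pos (Or.inl h1), if_pos h1, ext2_on D C a s χ h1, ext2_off D C a s χ h2,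
      abs_of_nonneg (hsc _)]
    have h3 : FF D C a χ (src e) = 0 := by
      unfold FF
      rw [if_pos h1]
    rw [h3]
    have h4 := sq_abs (FF D C a χ (tgt e))
    nlinarith
  · by_cases h2 : tgt e ∈ C
    · rw [if_pos (Or.inr h2), if_neg h1, if_pos h2, ext2_on D C a s χ h2, ext2_off D C a s χ h1,
        abs_of_nonneg (hsc _)]
      have h3 : FF D C a χ (tgt e) = 0 := by
        unfold FF
        rw [if_pos h2]
      rw [h3]
      have h4 := sq_abs (FF D C a χ (src e))
      nlinarith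
    · rw [if_neg (by tauto), if_neg h1, if_neg h2, ext2_off D C a s χ h1,
        ext2_off D C a s χ h2, add_zero]

/-- weight of the point `y`: sum of the values at its neighbours in `C` -/
def SS (D C : Finset Z2) (s : C → ℝ) (y : Z2) : ℝ :=
  ∑ e ∈ Ed (nbhd D 1) \ Ed C, ((if src e ∈ C ∧ tgt e = y then sc C s (src e) else 0) +
    (if tgt e ∈ C ∧ src e = y then sc C s (tgt e) else 0))

/-- the constant part of the boundary terms -/
def KK (D C : Finset Z2) (s : C → ℝ) : ℝ :=
  ∑ e ∈ Ed (nbhd D 1) \ Ed C, ((if src e ∈ C then sc C s (src e) ^ 2 else 0) +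
    (if tgt e ∈ C then sc C s (tgt e) ^ 2 else 0))

theorem sc_nonneg (C : Finset Z2) (s : C → ℝ) (hs : ∀ x, 0 < s x) (x : Z2) : 0 ≤ sc C s x := by
  unfold sc
  split_ifs with h
  · exact (hs _).le
  · exact le_rfl

theorem SS_nonneg (D C : Finset Z2) (s : C → ℝ) (hs : ∀ x, 0 < s x) (y : Z2) :
    0 ≤ SS D C s y := by
  unfold SS
  apply Finset.sum_nonneg
  intro e _
  have h1 := sc_nonneg C s hs (src e)
  have h2 := sc_nonneg C s hs (tgt e)
  split_ifs <;> linarith

theorem sum_SS (D C : Finset Z2) (s : C → ℝ) (F : Z2 → ℝ) :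
    ∑ y ∈ D \ C, SS D C s y * |F y| = ∑ e ∈ Ed (nbhd D 1) \ Ed C,
      ((if src e ∈ C ∧ tgt e ∈ D \ C then sc C s (src e) * |F (tgt e)| else 0) +
        (if tgt e ∈ C ∧ src e ∈ D \ C then sc C s (tgt e) * |F (src e)| else 0)) := by
  unfold SS
  simp only [Finset.sum_mul]
  rw [Finset.sum_comm]
  apply Finset.sum_congr rfl
  intro e _
  simp only [add_mul, Finset.sum_add_distrib]
  congr 1
  · by_cases h : src e ∈ C
    · simp only [h, true_and, ite_mul, zero_mul]
      rw [Finset.sum_ite_eq]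
    · simp [h]
  · by_cases h : tgt e ∈ C
    · simp only [h, true_and, ite_mul, zero_mul]
      rw [Finset.sum_ite_eq]
    · simp [h]

/-- the boundary terms from below -/
theorem bt_ge (D C : Finset Z2) (s : C → ℝ) (hs : ∀ x, 0 < s x) (F : Z2 → ℝ) :
    KK D C s + 2 * ∑ y ∈ D \ C, SS D C s y * |F y| ≤
      ∑ e ∈ Ed (nbhd D 1) \ Ed C, bt C s F e := by
  rw [sum_SS]
  unfold KK
  rw [Finset.mul_sum, ← Finset.sum_add_distrib]
  apply Finset.sum_le_sum
  intro e he
  have hnot : ¬ (src e ∈ C ∧ tgt e ∈ C) := by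
    intro hcon
    exact (Finset.mem_sdiff.1 he).2 (mem_Ed.2 hcon)
  have h1 := sc_nonneg C s hs (src e)
  have h2 := sc_nonneg C s hs (tgt e)
  have h3 := mul_nonneg h1 (abs_nonneg (F (tgt e)))
  have h4 := mul_nonneg h2 (abs_nonneg (F (src e)))
  unfold bt
  by_cases g1 : src e ∈ C
  · have g2 : tgt e ∉ C := fun h => hnot ⟨g1, h⟩
    simp only [g1, g2, true_and, false_and, if_true, if_false]
    split_ifs <;> linarith
  · by_cases g2 : tgt e ∈ C
    · simp only [g1, g2, true_and, false_and, if_true, if_false]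
      split_ifs <;> linarith
    · simp only [g1, g2, false_and, if_false]
      linarith

/-- the boundary terms of a function that vanishes off `D` -/
theorem bt_eq (D C : Finset Z2) (s : C → ℝ) (F : Z2 → ℝ) (hF : ∀ x, x ∉ D → F x = 0) :
    ∑ e ∈ Ed (nbhd D 1) \ Ed C, bt C s F e =
      KK D C s + 2 * ∑ y ∈ D \ C, SS D C s y * |F y| := by
  rw [sum_SS]
  unfold KK
  rw [Finset.mul_sum, ← Finset.sum_add_distrib]
  apply Finset.sum_congr rfl
  intro e he
  have hnot : ¬ (src e ∈ C ∧ tgt e ∈ C) := by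
    intro hcon
    exact (Finset.mem_sdiff.1 he).2 (mem_Ed.2 hcon)
  unfold bt
  by_cases g1 : src e ∈ C
  · have g2 : tgt e ∉ C := fun h => hnot ⟨g1, h⟩
    by_cases g3 : tgt e ∈ D
    · simp only [g1, g2, g3, Finset.mem_sdiff, true_and, false_and, if_true, if_false,
        not_false_eq_true]
      ring
    · rw [hF _ g3]
      simp only [g1, g2, g3, Finset.mem_sdiff, true_and, false_and, if_true, if_false, abs_zero]
      ring
  · by_cases g2 : tgt e ∈ C
    · by_cases g3 : src e ∈ D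
      · simp only [g1, g2, g3, Finset.mem_sdiff, true_and, false_and, if_true, if_false,
          not_false_eq_true]
        ring
      · rw [hF _ g3]
        simp only [g1, g2, g3, Finset.mem_sdiff, true_and, false_and, if_true, if_false, abs_zero]
        ring
    · simp only [g1, g2, false_and, if_false]
      ring

theorem lap_add (f g : Z2 → ℝ) (z : Z2) : lap (fun x => f x + g x) z = lap f z + lap g z := by
  unfold lap
  ring

theorem lap_mul (a : ℝ) (f : Z2 → ℝ) (z : Z2) : lap (fun x => a * f x) z = a * lap f z := by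
  unfold lap
  ring

theorem lap_sub (f g : Z2 → ℝ) (z : Z2) : lap (fun x => f x - g x) z = lap f z - lap g z := by
  unfold lap
  ring

/-- orthogonality of a function harmonic in `D \ C` and functions vanishing off `D \ C` -/
theorem En0_split (he : Stmt_en) (D R : Finset Z2) (hRD : R ⊆ D) (a : ℝ) (v : Z2 → ℝ)
    (hv : ∀ x, x ∉ D → v x = 0) (hh : ∀ z ∈ R, lap v z = 0)
    (x : R → ℝ) :
    En0 D (fun z => a * v z + ze R x z) = a ^ 2 * En0 D v + En0 R (ze R x) := by
  set y := ze R x with hy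
  have hy0 : ∀ z, z ∉ R → y z = 0 := fun z hz => ze_off x hz
  have hyD : ∀ z, z ∉ D → y z = 0 := fun z hz => hy0 z (fun h => hz (hRD h))
  have h1 := (he D (fun z => a * v z + y z) (fun z hz => by
    show a * v z + y z = 0
    rw [hv z hz, hyD z hz]
    ring)).2.2.1
  have h2 := (he D v hv).2.2.1
  have h3 := (he R y hy0).2.2.1
  have h4 := (he D v hv).2.2.2 R y hy0
  have h5 : ∑ z ∈ R, lap v z * y z = 0 := by
    apply Finset.sum_eq_zero
    intro z hz
    rw [hh z hz, zero_mul]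
  have h6 : ∑ z ∈ D, y z * lap v z = 0 := by
    apply Finset.sum_eq_zero
    intro z hz
    by_cases hzR : z ∈ R
    · rw [hh z hzR, mul_zero]
    · rw [hy0 z hzR, zero_mul]
  have h7 : ∑ z ∈ D, y z * lap y z = ∑ z ∈ R, y z * lap y z := by
    symm
    apply Finset.sum_subset hRD
    intro z _ hz
    rw [hy0 z hz, zero_mul]
  rw [h5] at h4
  rw [h1, h2, h3, ← h7]
  have h8 : ∀ z ∈ D, (a * v z + y z) * lap (fun z => a * v z + y z) z =
      a ^ 2 * (v z * lap v z) + a * (v z * lap y z) + a * (y z * lap v z) + y z * lap y z := by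
    intro z _
    rw [lap_add, lap_mul]
    ring
  rw [Finset.sum_congr rfl h8, Finset.sum_add_distrib, Finset.sum_add_distrib,
    Finset.sum_add_distrib, ← Finset.mul_sum, ← Finset.mul_sum, ← Finset.mul_sum, ← h4, h6]
  ring

/-- the energy of `FF` -/
theorem EnL_FF (he : Stmt_en) (D C : Finset Z2) (hC : C ⊆ D) (a : ℝ) (v w : Z2 → ℝ)
    (hw : ∀ x, x ∉ D \ C → w x = 0)
    (hvw : ∀ x, v x = (if x ∈ D then 1 else 0) - w x) (hh : ∀ z ∈ D \ C, lap v z = 0)
    (χ : (D \ C : Finset Z2) → ℝ) :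
    EnL (nbhd D 1) (FF D C a χ) = a ^ 2 * En0 D v +
      (fun i => χ i + a * w i) ⬝ᵥ (AM (D \ C)).mulVec (fun i => χ i + a * w i) := by
  have hv : ∀ x, x ∉ D → v x = 0 := by
    intro x hx
    rw [hvw, if_neg hx, hw x (fun h => hx (Finset.sdiff_subset h))]
    ring
  have h1 := En0_split he D (D \ C) Finset.sdiff_subset a v hv hh (fun i => χ i + a * w i)
  rw [En0_ze he] at h1
  rw [← h1]
  have hf : ∀ z, a * v z + ze (D \ C) (fun i => χ i + a * w i) z = FF D C a χ z + a := by
    intro z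
    unfold FF
    by_cases h2 : z ∈ C
    · have h3 : z ∉ D \ C := by simp [h2]
      rw [if_pos h2, ze_off _ h3, hvw, if_pos (hC h2), hw z h3]
      ring
    · by_cases h4 : z ∈ D
      · have h3 : z ∈ D \ C := by simp [h2, h4]
        rw [if_neg h2, dif_pos h3, hvw, if_pos h4]
        have := ze_on (fun i : (D \ C : Finset Z2) => χ i + a * w i) ⟨z, h3⟩
        simp only at this
        rw [this]
        ring
      · have h3 : z ∉ D \ C := by simp [h4]
        rw [if_neg h2, dif_neg h3, ze_off _ h3, hvw, if_neg h4, hw z h3]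
        ring
  have h2 := (he D (fun z => a * v z + ze (D \ C) (fun i => χ i + a * w i) z) (by
    intro z hz
    have h3 : z ∉ D \ C := by simp [hz]
    show a * v z + ze (D \ C) (fun i => χ i + a * w i) z = 0
    rw [hv z hz, ze_off _ h3]
    ring)).2.1
  rw [h2]
  unfold EnL
  apply Finset.sum_congr rfl
  intro e _
  have e1 := hf (src e)
  have e2 := hf (tgt e)
  show (FF D C a χ (src e) - FF D C a χ (tgt e)) ^ 2 =
    ((a * v (src e) + ze (D \ C) (fun i => χ i + a * w i) (src e)) -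
      (a * v (tgt e) + ze (D \ C) (fun i => χ i + a * w i) (tgt e))) ^ 2
  rw [e1, e2]
  ring

end OutAux

open OutAux in
theorem out (hs : Stmt_shift) (hg : Stmt_gap) (hw : Stmt_solve) (he : Stmt_en) : Stmt_out := by
  intro D C a c s hC ha hc hs0 hcap
  obtain ⟨w, hw0, hwl, -⟩ := hw (D \ C) (lap (fun x => if x ∈ D then 1 else 0))
  set v : Z2 → ℝ := fun x => (if x ∈ D then 1 else 0) - w x with hv
  have hvw : ∀ x, v x = (if x ∈ D then 1 else 0) - w x := fun x => rfl
  have hh : ∀ z ∈ D \ C, lap v z = 0 := by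
    intro z hz
    rw [hv, lap_sub, hwl z hz, sub_self]
  have hcv : c ≤ En0 D v := by
    apply hcap v
    · intro x hx
      rw [hvw, if_neg hx, hw0 x (fun h => hx (Finset.sdiff_subset h))]
      ring
    · intro x hx
      have h3 : x ∉ D \ C := by simp [hx]
      rw [hvw, if_pos (hC hx), hw0 x h3]
      ring
  set S : (D \ C : Finset Z2) → ℝ := fun i => SS D C s i with hS
  have hS0 : ∀ i, 0 ≤ S i := fun i => SS_nonneg D C s hs0 i
  set θ : (D \ C : Finset Z2) → ℝ := fun i => a * w i with hθ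
  -- sums over the boundary
  have hsum : ∀ (b : ℝ) (χ : (D \ C : Finset Z2) → ℝ),
      ∑ y ∈ D \ C, SS D C s y * |FF D C b χ y| = ∑ i, S i * |χ i| := by
    intro b χ
    rw [← Finset.sum_coe_sort (D \ C) (fun y => SS D C s y * |FF D C b χ y|)]
    apply Finset.sum_congr rfl
    intro i _
    have h1 : (i : Z2) ∉ C := (Finset.mem_sdiff.1 i.2).2
    unfold FF
    rw [if_neg h1, dif_pos i.2]
  set K := KK D C s with hK
  have hcost0 : ∀ χ : (D \ C : Finset Z2) → ℝ, cost D C (ext2 D C 0 s χ) =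
      χ ⬝ᵥ (AM (D \ C)).mulVec χ + (K + 2 * ∑ i, S i * |χ i|) := by
    intro χ
    rw [cost_eq D C 0 s hs0 χ, EnL_FF he D C hC 0 v w hw0 hvw hh χ,
      bt_eq D C s (FF D C 0 χ) (by
        intro x hx
        unfold FF
        rw [if_neg (fun h => hx (hC h)), dif_neg (fun h => hx (Finset.sdiff_subset h))]
        ring), hsum]
    simp [hK]
  have hcosta : ∀ χ : (D \ C : Finset Z2) → ℝ,
      a ^ 2 * c + (χ + θ) ⬝ᵥ (AM (D \ C)).mulVec (χ + θ) + (K + 2 * ∑ i, S i * |χ i|) ≤
      cost D C (ext2 D C a s χ) := by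
    intro χ
    rw [cost_eq D C a s hs0 χ, EnL_FF he D C hC a v w hw0 hvw hh χ]
    have h1 := bt_ge D C s hs0 (FF D C a χ)
    rw [hsum] at h1
    have h2 : a ^ 2 * c ≤ a ^ 2 * En0 D v := mul_le_mul_of_nonneg_left hcv (sq_nonneg a)
    have h3 : (fun i : (D \ C : Finset Z2) => χ i + a * w i) = χ + θ := rfl
    rw [h3]
    linarith
  set Φ : ((D \ C : Finset Z2) → ℝ) → ℝ := fun x =>
    Real.exp (-(x ⬝ᵥ (AM (D \ C)).mulVec x) / 2) * Real.exp (-∑ i, S i * |x i - θ i|) with hΦ
  have hint : Integrable Φ := gauss_int he hg S θ hS0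
  have h1 : ∫ χ : (D \ C : Finset Z2) → ℝ, Real.exp (-cost D C (ext2 D C a s χ) / 2) ≤
      ∫ χ : (D \ C : Finset Z2) → ℝ, Real.exp (-a ^ 2 * c / 2) * Real.exp (-K / 2) * Φ (χ + θ) := by
    apply integral_mono_of_nonneg
    · exact Filter.Eventually.of_forall fun χ => (Real.exp_pos _).le
    · exact (hint.comp_add_right θ).const_mul _
    · refine Filter.Eventually.of_forall fun χ => ?_
      show Real.exp (-cost D C (ext2 D C a s χ) / 2) ≤
        Real.exp (-a ^ 2 * c / 2) * Real.exp (-K / 2) * Φ (χ + θ)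
      rw [hΦ]
      simp only
      rw [← Real.exp_add, ← Real.exp_add, ← Real.exp_add]
      apply Real.exp_le_exp.2
      have h2 := hcosta χ
      have h3 : ∑ i, S i * |(χ + θ) i - θ i| = ∑ i, S i * |χ i| := by
        apply Finset.sum_congr rfl
        intro i _
        simp
      rw [h3]
      linarith
  have h2 : ∫ χ : (D \ C : Finset Z2) → ℝ,
      Real.exp (-a ^ 2 * c / 2) * Real.exp (-K / 2) * Φ (χ + θ) =
      Real.exp (-a ^ 2 * c / 2) * Real.exp (-K / 2) * ∫ x, Φ x := by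
    rw [integral_const_mul, integral_add_right_eq_self]
  have h3 := hs (D \ C : Finset Z2) (AM (D \ C)) S θ (AM_posDef he hg) hS0
  have h4 : ∫ x : (D \ C : Finset Z2) → ℝ, Real.exp (-(x ⬝ᵥ (AM (D \ C)).mulVec x) / 2) *
      Real.exp (-∑ i, S i * |x i|) = Real.exp (K / 2) *
      ∫ χ : (D \ C : Finset Z2) → ℝ, Real.exp (-cost D C (ext2 D C 0 s χ) / 2) := by
    rw [← integral_const_mul]
    congr 1
    funext x
    rw [hcost0 x, ← Real.exp_add, ← Real.exp_add]
    congr 1
    ring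
  rw [h4] at h3
  refine le_trans h1 ?_
  rw [h2]
  have h5 : 0 ≤ Real.exp (-a ^ 2 * c / 2) * Real.exp (-K / 2) := by positivity
  refine le_trans (mul_le_mul_of_nonneg_left h3 h5) (le_of_eq ?_)
  have h6 : Real.exp (-K / 2) * Real.exp (K / 2) = 1 := by
    rw [← Real.exp_add]
    have : -K / 2 + K / 2 = 0 := by ring
    rw [this, Real.exp_zero]
  calc Real.exp (-a ^ 2 * c / 2) * Real.exp (-K / 2) * (Real.exp (K / 2) *
        ∫ χ : (D \ C : Finset Z2) → ℝ, Real.exp (-cost D C (ext2 D C 0 s χ) / 2))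
      = Real.exp (-a ^ 2 * c / 2) * (Real.exp (-K / 2) * Real.exp (K / 2)) *
        ∫ χ : (D \ C : Finset Z2) → ℝ, Real.exp (-cost D C (ext2 D C 0 s χ) / 2) := by ring
    _ = _ := by rw [h6, mul_one]

end LSoup
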