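import Pool.Agent.LSoup.Stmts2

open MeasureTheory ProbabilityTheory Finset

open scoped Classical NNReal

noncomputable section

namespace LSoup

/-! ### Gaussian facts -/

theorem p4_gauss_moment (v : ℝ≥0) (n : ℕ) :
    ∫ x, x ^ n ∂gaussianReal 0 v = iteratedDeriv n (fun t : ℝ => Real.exp (v * t ^ 2 / 2)) 0 := by
  have h := iteratedDeriv_mgf_zero (X := (id : ℝ → ℝ)) (μ := gaussianReal 0 v) (by
    rw [integrableExpSet_id_gaussianReal]; simp) n
  rw [mgf_id_gaussianReal] at h
  simp only [zero_mul, zero_add] at h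
  rw [h]
  simp

theorem p4_gder (v : ℝ) (p : ℝ → ℝ) (p' : ℝ) (t : ℝ) (hp : HasDerivAt p p' t) :
    HasDerivAt (fun t : ℝ => p t * Real.exp (v * t ^ 2 / 2))
      ((p' + p t * v * t) * Real.exp (v * t ^ 2 / 2)) t := by
  have : HasDerivAt (fun t : ℝ => Real.exp (v * t ^ 2 / 2))
      (Real.exp (v * t ^ 2 / 2) * (v * (2 * t) / 2)) t := by
    apply HasDerivAt.exp
    have := ((hasDerivAt_pow 2 t).const_mul v).div_const 2
    simpa using this
  convert! hp.mul this using 1
  ring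

theorem p4_gauss_deriv (v : ℝ) :
    iteratedDeriv 2 (fun t : ℝ => Real.exp (v * t ^ 2 / 2)) 0 = v ∧
    iteratedDeriv 4 (fun t : ℝ => Real.exp (v * t ^ 2 / 2)) 0 = 3 * v ^ 2 := by
  have h1 : deriv (fun t : ℝ => Real.exp (v * t ^ 2 / 2))
      = fun t => v * t * Real.exp (v * t ^ 2 / 2) := by
    funext t
    have := (p4_gder v (fun _ => 1) 0 t (hasDerivAt_const t 1)).deriv
    simp only [one_mul, zero_add] at this
    rw [this]
  have h2 : deriv (fun t : ℝ => v * t * Real.exp (v * t ^ 2 / 2))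
      = fun t => (v + v ^ 2 * t ^ 2) * Real.exp (v * t ^ 2 / 2) := by
    funext t
    have := (p4_gder v (fun t => v * t) v t (by simpa using (hasDerivAt_id t).const_mul v)).deriv
    rw [this]
    ring
  have h3 : deriv (fun t : ℝ => (v + v ^ 2 * t ^ 2) * Real.exp (v * t ^ 2 / 2))
      = fun t => (3 * v ^ 2 * t + v ^ 3 * t ^ 3) * Real.exp (v * t ^ 2 / 2) := by
    funext t
    have := (p4_gder v (fun t => v + v ^ 2 * t ^ 2) (v ^ 2 * (2 * t)) t (by
      simpa using ((hasDerivAt_pow 2 t).const_mul (v ^ 2)).const_add v)).deriv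
    rw [this]
    ring
  have h4 : deriv (fun t : ℝ => (3 * v ^ 2 * t + v ^ 3 * t ^ 3) * Real.exp (v * t ^ 2 / 2))
      = fun t => (3 * v ^ 2 + 6 * v ^ 3 * t ^ 2 + v ^ 4 * t ^ 4) * Real.exp (v * t ^ 2 / 2) := by
    funext t
    have := (p4_gder v (fun t => 3 * v ^ 2 * t + v ^ 3 * t ^ 3) (3 * v ^ 2 + v ^ 3 * (3 * t ^ 2)) t (by
      simpa using ((hasDerivAt_id t).const_mul (3 * v ^ 2)).fun_add
        ((hasDerivAt_pow 3 t).const_mul (v ^ 3)))).deriv
    rw [this]
    ring
  constructor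
  · rw [iteratedDeriv_succ', iteratedDeriv_succ', iteratedDeriv_zero, h1, h2]
    simp
  · rw [iteratedDeriv_succ', iteratedDeriv_succ', iteratedDeriv_succ', iteratedDeriv_succ',
      iteratedDeriv_zero, h1, h2, h3, h4]
    simp

theorem p4_gauss_sq (v : ℝ≥0) : ∫ x, x ^ 2 ∂gaussianReal 0 v = v := by
  rw [p4_gauss_moment, (p4_gauss_deriv v).1]

theorem p4_gauss_four (v : ℝ≥0) : ∫ x, x ^ 4 ∂gaussianReal 0 v = 3 * (v : ℝ) ^ 2 := by
  rw [p4_gauss_moment, (p4_gauss_deriv v).2]

theorem p4_gauss_expsq (v : ℝ≥0) (V : ℝ) (hV : 0 < V) (hv : (v : ℝ) ≤ V) :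
    0 < ∫ x, Real.exp (x ^ 2 / (4 * V)) ∂gaussianReal 0 v ∧
    ∫ x, Real.exp (x ^ 2 / (4 * V)) ∂gaussianReal 0 v ≤ Real.sqrt 2 := by
  by_cases hv0 : v = 0
  · rw [hv0, gaussianReal_zero_var, integral_dirac]
    simp only [ne_eq, OfNat.ofNat_ne_zero, not_false_eq_true, zero_pow, zero_div, Real.exp_zero]
    exact ⟨one_pos, by rw [Real.one_le_sqrt]; norm_num⟩
  · have hvpos : (0 : ℝ) < v := by
      have : 0 < v := pos_iff_ne_zero.mpr hv0
      exact_mod_cast this
    have key : ∫ x, Real.exp (x ^ 2 / (4 * V)) ∂gaussianReal 0 v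
        = Real.sqrt (1 / (1 - v / (2 * V))) := by
      rw [integral_gaussianReal_eq_integral_smul hv0]
      have hb : (0 : ℝ) < 1 / (2 * v) - 1 / (4 * V) := by
        rw [sub_pos, div_lt_div_iff₀ (by positivity) (by positivity)]
        linarith
      have h1 : ∀ x : ℝ, gaussianPDFReal 0 v x • Real.exp (x ^ 2 / (4 * V))
          = (Real.sqrt (2 * Real.pi * v))⁻¹ * Real.exp (-(1 / (2 * v) - 1 / (4 * V)) * x ^ 2) := by
        intro x
        rw [gaussianPDFReal, smul_eq_mul, mul_assoc, ← Real.exp_add]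
        congr 2
        field_simp
        ring
      simp_rw [h1]
      rw [integral_const_mul, integral_gaussian, ← Real.sqrt_inv, ← Real.sqrt_mul (by positivity)]
      congr 1
      have hne : (1 : ℝ) - v / (2 * V) ≠ 0 := by
        have : (v : ℝ) / (2 * V) ≤ 1 / 2 := by
          rw [div_le_div_iff₀ (by positivity) (by norm_num)]
          linarith
        linarith
      have hne2 : (1 : ℝ) / (2 * v) - 1 / (4 * V) ≠ 0 := hb.ne'
      have hpi := Real.pi_ne_zero
      have hvn := hvpos.ne'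
      have hVn := hV.ne'
      have e : (1 : ℝ) / (2 * v) - 1 / (4 * V) = (1 - v / (2 * V)) / (2 * v) := by
        field_simp
        ring
      rw [e]
      field_simp
    have hle : (1 : ℝ) / 2 ≤ 1 - v / (2 * V) := by
      have : (v : ℝ) / (2 * V) ≤ 1 / 2 := by
        rw [div_le_div_iff₀ (by positivity) (by norm_num)]
        linarith
      linarith
    rw [key]
    constructor
    · apply Real.sqrt_pos.mpr
      have : (0 : ℝ) < 1 - v / (2 * V) := by linarith
      positivity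
    · apply Real.sqrt_le_sqrt
      rw [div_le_iff₀ (by linarith)]
      linarith

/-! ### weights -/

theorem p4_Jf_nonneg (f : Z2 → ℝ) (e : Edge) : 0 ≤ Jf f e := abs_nonneg _

theorem p4_sg_cases (A : Finset Z2) (x : Z2) : sg A x = 1 ∨ sg A x = -1 := by
  unfold sg
  split_ifs
  · exact Or.inr rfl
  · exact Or.inl rfl

theorem p4_factor (A : Finset Z2) (f : Z2 → ℝ) (e : Edge) :
    |Real.exp (sg A (src e) * sg A (tgt e) * Jf f e) - 1| ≤ Real.exp (Jf f e) := by
  have hJ := p4_Jf_nonneg f e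
  have h : sg A (src e) * sg A (tgt e) = 1 ∨ sg A (src e) * sg A (tgt e) = -1 := by
    rcases p4_sg_cases A (src e) with h | h <;> rcases p4_sg_cases A (tgt e) with h' | h' <;>
      rw [h, h'] <;> norm_num
  rcases h with h | h
  · rw [h, one_mul, abs_of_nonneg (by linarith [Real.one_le_exp hJ])]
    linarith
  · rw [h, neg_one_mul, abs_le]
    have h1 : Real.exp (-Jf f e) ≤ 1 := Real.exp_le_one_iff.mpr (by linarith)
    have h2 := Real.exp_pos (-Jf f e)
    have h3 := Real.one_le_exp hJ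
    constructor <;> linarith

theorem p4_Vc_abs (D : Finset Z2) (f : Z2 → ℝ) (O : Finset Edge) :
    |Vc D f O| ≤ ∏ e ∈ O, Real.exp (Jf f e) := by
  unfold Vc
  rw [abs_div, abs_of_pos (by positivity : (0 : ℝ) < 2 ^ D.card), div_le_iff₀ (by positivity)]
  calc |∑ A ∈ D.powerset, ∏ e ∈ O, (Real.exp (sg A (src e) * sg A (tgt e) * Jf f e) - 1)|
      ≤ ∑ A ∈ D.powerset, |∏ e ∈ O, (Real.exp (sg A (src e) * sg A (tgt e) * Jf f e) - 1)| :=
        Finset.abs_sum_le_sum_abs _ _
    _ ≤ ∑ A ∈ D.powerset, ∏ e ∈ O, Real.exp (Jf f e) := by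
        apply Finset.sum_le_sum
        intro A _
        rw [Finset.abs_prod]
        exact Finset.prod_le_prod (fun _ _ => abs_nonneg _) (fun e _ => p4_factor A f e)
    _ = (∏ e ∈ O, Real.exp (Jf f e)) * 2 ^ D.card := by
        rw [Finset.sum_const, Finset.card_powerset, nsmul_eq_mul]
        push_cast
        ring

theorem p4_Wc_nonneg (hV : Stmt_Vnn) (D : Finset Z2) (f : Z2 → ℝ) (O b : Finset Edge)
    (hO : O ⊆ Ed D) : 0 ≤ Wc D f O b := by
  unfold Wc
  apply mul_nonneg
  · apply mul_nonneg (hV D f O hO)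
    apply Finset.prod_nonneg
    intro e _
    have := p4_Jf_nonneg f e
    have h1 : Real.exp (-Jf f e) ≤ 1 := Real.exp_le_one_iff.mpr (by linarith)
    linarith
  · exact Finset.prod_nonneg fun e _ => (Real.exp_pos _).le

theorem p4_Wc_abs (D : Finset Z2) (f : Z2 → ℝ) (O b : Finset Edge)
    (hO : O ⊆ Ed D) : |Wc D f O b| ≤ Real.exp (∑ e ∈ Ed D, Jf f e) := by
  unfold Wc
  rw [abs_mul, abs_mul]
  have h1 : |∏ e ∈ b, (1 - Real.exp (-Jf f e))| ≤ 1 := by
    rw [Finset.abs_prod]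
    apply Finset.prod_le_one (fun _ _ => abs_nonneg _)
    intro e _
    have hJ := p4_Jf_nonneg f e
    have h1 : Real.exp (-Jf f e) ≤ 1 := Real.exp_le_one_iff.mpr (by linarith)
    have h2 := Real.exp_pos (-Jf f e)
    rw [abs_le]
    constructor <;> linarith
  have h2 : |∏ e ∈ Ed D \ (O ∪ b), Real.exp (-Jf f e)| ≤ 1 := by
    rw [Finset.abs_prod]
    apply Finset.prod_le_one (fun _ _ => abs_nonneg _)
    intro e _
    have hJ := p4_Jf_nonneg f e
    rw [abs_of_pos (Real.exp_pos _)]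
    exact Real.exp_le_one_iff.mpr (by linarith)
  have h3 : |Vc D f O| ≤ Real.exp (∑ e ∈ Ed D, Jf f e) := by
    refine (p4_Vc_abs D f O).trans ?_
    rw [← Real.exp_sum]
    apply Real.exp_le_exp.mpr
    exact Finset.sum_le_sum_of_subset_of_nonneg hO (fun e _ _ => p4_Jf_nonneg f e)
  calc |Vc D f O| * |∏ e ∈ b, (1 - Real.exp (-Jf f e))| * |∏ e ∈ Ed D \ (O ∪ b), Real.exp (-Jf f e)|
      ≤ |Vc D f O| * 1 * 1 := by
        apply mul_le_mul _ h2 (abs_nonneg _) (by positivity)
        exact mul_le_mul_of_nonneg_left h1 (abs_nonneg _)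
    _ ≤ _ := by rw [mul_one, mul_one]; exact h3

theorem p4_Jf_meas (e : Edge) : Measurable fun f : Z2 → ℝ => Jf f e := by
  unfold Jf
  fun_prop

theorem p4_Wc_meas (D : Finset Z2) (O b : Finset Edge) : Measurable fun f => Wc D f O b := by
  have hJ := p4_Jf_meas
  unfold Wc Vc
  fun_prop

/-! ### tame functions -/

theorem p4_tame_bound {D : Finset Z2} {g : (Z2 → ℝ) → ℝ} (h : Tame D g) :
    ∃ C b : ℝ, 0 ≤ C ∧ 0 ≤ b ∧ ∀ f, |g f| ≤ C * Real.exp (b * ∑ x ∈ D, |f x|) := by
  obtain ⟨_, _, C, b, h⟩ := h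
  refine ⟨|C|, |b|, abs_nonneg _, abs_nonneg _, fun f => (h f).trans ?_⟩
  have hS : 0 ≤ ∑ x ∈ D, |f x| := Finset.sum_nonneg fun _ _ => abs_nonneg _
  calc C * Real.exp (b * ∑ x ∈ D, |f x|) ≤ |C| * Real.exp (b * ∑ x ∈ D, |f x|) :=
        mul_le_mul_of_nonneg_right (le_abs_self C) (Real.exp_pos _).le
    _ ≤ _ := by
        apply mul_le_mul_of_nonneg_left _ (abs_nonneg _)
        apply Real.exp_le_exp.mpr
        exact mul_le_mul_of_nonneg_right (le_abs_self b) hS

theorem p4_tame_const (D : Finset Z2) (c : ℝ) : Tame D fun _ => c := by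
  refine ⟨measurable_const, fun _ _ _ => rfl, |c|, 0, fun f => ?_⟩
  simp

theorem p4_tame_coord {D : Finset Z2} {q : Z2} (hq : q ∈ D) : Tame D fun f => f q := by
  refine ⟨measurable_pi_apply q, fun f f' h => h q hq, 1, 1, fun f => ?_⟩
  rw [one_mul, one_mul]
  have h1 : |f q| ≤ ∑ x ∈ D, |f x| :=
    Finset.single_le_sum (f := fun x => |f x|) (fun _ _ => abs_nonneg _) hq
  have h2 := Real.add_one_le_exp (∑ x ∈ D, |f x|)
  linarith

theorem p4_tame_add {D : Finset Z2} {g g' : (Z2 → ℝ) → ℝ} (h : Tame D g) (h' : Tame D g') :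
    Tame D fun f => g f + g' f := by
  obtain ⟨C, b, hC, hb, hg⟩ := p4_tame_bound h
  obtain ⟨C', b', hC', hb', hg'⟩ := p4_tame_bound h'
  refine ⟨h.1.add h'.1, fun f f' hf => by dsimp only; rw [h.2.1 f f' hf, h'.2.1 f f' hf], C + C', b + b',
    fun f => ?_⟩
  have hS : 0 ≤ ∑ x ∈ D, |f x| := Finset.sum_nonneg fun _ _ => abs_nonneg _
  refine (abs_add_le _ _).trans ?_
  rw [add_mul]
  apply add_le_add
  · refine (hg f).trans (mul_le_mul_of_nonneg_left ?_ hC)
    apply Real.exp_le_exp.mpr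
    nlinarith
  · refine (hg' f).trans (mul_le_mul_of_nonneg_left ?_ hC')
    apply Real.exp_le_exp.mpr
    nlinarith

theorem p4_tame_mul {D : Finset Z2} {g g' : (Z2 → ℝ) → ℝ} (h : Tame D g) (h' : Tame D g') :
    Tame D fun f => g f * g' f := by
  obtain ⟨C, b, hC, hb, hg⟩ := p4_tame_bound h
  obtain ⟨C', b', hC', hb', hg'⟩ := p4_tame_bound h'
  refine ⟨h.1.mul h'.1, fun f f' hf => by dsimp only; rw [h.2.1 f f' hf, h'.2.1 f f' hf], C * C', b + b',
    fun f => ?_⟩
  rw [abs_mul, add_mul, Real.exp_add]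
  calc |g f| * |g' f| ≤ (C * Real.exp (b * ∑ x ∈ D, |f x|)) * (C' * Real.exp (b' * ∑ x ∈ D, |f x|)) :=
        mul_le_mul (hg f) (hg' f) (abs_nonneg _) (by positivity)
    _ = _ := by ring

theorem p4_tame_abs {D : Finset Z2} {g : (Z2 → ℝ) → ℝ} (h : Tame D g) :
    Tame D fun f => |g f| := by
  obtain ⟨C, b, hC, hb, hg⟩ := p4_tame_bound h
  refine ⟨h.1.abs, fun f f' hf => by dsimp only; rw [h.2.1 f f' hf], C, b, fun f => ?_⟩
  rw [abs_abs]
  exact hg f

theorem p4_tame_sum {D : Finset Z2} {ι : Type*} (s : Finset ι) (g : ι → (Z2 → ℝ) → ℝ)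
    (h : ∀ i ∈ s, Tame D (g i)) : Tame D fun f => ∑ i ∈ s, g i f := by
  induction s using Finset.induction_on with
  | empty => simpa using p4_tame_const D 0
  | insert i s hi ih =>
    have h1 : (fun f => ∑ j ∈ insert i s, g j f) = fun f => g i f + ∑ j ∈ s, g j f := by
      funext f
      rw [Finset.sum_insert hi]
    rw [h1]
    exact p4_tame_add (h i (Finset.mem_insert_self i s))
      (ih fun j hj => h j (Finset.mem_insert_of_mem hj))

theorem p4_tame_lin (D : Finset Z2) (u : Z2 → ℝ) : Tame D (lin D u) := by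
  have : lin D u = fun f => ∑ x ∈ D, u x * f x := rfl
  rw [this]
  exact p4_tame_sum D (fun x f => u x * f x) fun x hx =>
    p4_tame_mul (p4_tame_const D (u x)) (p4_tame_coord hx)

theorem p4_tame_trunc {D : Finset Z2} {g : (Z2 → ℝ) → ℝ} (h : Tame D g) (L : ℝ) :
    Tame D fun f => if L < g f then g f else 0 := by
  obtain ⟨C, b, hC, hb, hg⟩ := p4_tame_bound h
  refine ⟨Measurable.ite (measurableSet_lt measurable_const h.1) h.1 measurable_const,
    fun f f' hf => by dsimp only; rw [h.2.1 f f' hf], C, b, fun f => ?_⟩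
  dsimp only
  split_ifs
  · exact hg f
  · rw [abs_zero]; positivity

theorem p4_tame_ite {D : Finset Z2} {g g' : (Z2 → ℝ) → ℝ} (p : Prop) [Decidable p] (h : Tame D g)
    (h' : Tame D g') : Tame D fun f => if p then g f else g' f := by
  by_cases hp : p
  · simpa [hp] using h
  · simpa [hp] using h'

theorem p4_sgset_nonempty (D : Finset Z2) (ω : Finset Edge) : (sgset D ω).Nonempty := by
  refine ⟨∅, ?_⟩
  unfold sgset
  simp

theorem p4_tame_sav {D : Finset Z2} {g : (Z2 → ℝ) → ℝ} (ω : Finset Edge) (h : Tame D g) :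
    Tame D fun f => sav D ω g f := by
  have hs : ∀ A : Finset Z2, Tame D fun f => g fun x => sg A x * |f x| := by
    intro A
    obtain ⟨C, b, hC, hb, hg⟩ := p4_tame_bound h
    refine ⟨h.1.comp (measurable_pi_lambda _ fun x => ?_), ?_, C, b, fun f => ?_⟩
    · fun_prop
    · intro f f' hf
      apply h.2.1
      intro x hx
      rw [hf x hx]
    · refine (hg _).trans (le_of_eq ?_)
      congr 3
      apply Finset.sum_congr rfl
      intro x _
      rw [abs_mul, abs_abs]
      rcases p4_sg_cases A x with h | h <;> rw [h] <;> simp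
  have : (fun f => sav D ω g f)
      = fun f => (∑ A ∈ sgset D ω, g fun x => sg A x * |f x|) * ((sgset D ω).card : ℝ)⁻¹ := by
    funext f
    unfold sav
    rw [div_eq_mul_inv]
  rw [this]
  exact p4_tame_mul (p4_tame_sum _ _ fun A _ => hs A) (p4_tame_const D _)


/-! ### the expectation `cpl` -/

theorem p4_int_term (hi : Stmt_int) {D : Finset Z2} {g : (Z2 → ℝ) → ℝ} (hg : Tame D g)
    {O : Finset Edge} (b : Finset Edge) (hO : O ⊆ Ed D) :
    Integrable (fun f => Wc D f O b * g f) Gam := by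
  obtain ⟨C, c, hC, hc, hb⟩ := p4_tame_bound hg
  refine Integrable.mono' ((hi D c).1.const_mul C)
    ((p4_Wc_meas D O b).mul hg.1).aestronglyMeasurable (Filter.Eventually.of_forall fun f => ?_)
  rw [Real.norm_eq_abs, abs_mul, Real.exp_add]
  calc |Wc D f O b| * |g f| ≤ Real.exp (∑ e ∈ Ed D, Jf f e) * (C * Real.exp (c * ∑ x ∈ D, |f x|)) :=
        mul_le_mul (p4_Wc_abs D f O b hO) (hb f) (abs_nonneg _) (Real.exp_pos _).le
    _ = _ := by ring

theorem p4_int_cpl (hi : Stmt_int) {D : Finset Z2} {F : (Z2 → ℝ) → Finset Edge → Finset Edge → ℝ}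
    (hF : ∀ O b, Tame D fun f => F f O b) :
    Integrable (fun f => ∑ O ∈ (Ed D).powerset, ∑ b ∈ (Ed D \ O).powerset,
      Wc D f O b * F f O b) Gam := by
  apply integrable_finsetSum
  intro O hO
  apply integrable_finsetSum
  intro b _
  exact p4_int_term hi (hF O b) b (Finset.mem_powerset.mp hO)

theorem p4_cpl_mono (hV : Stmt_Vnn) (hi : Stmt_int) {D : Finset Z2}
    {F F' : (Z2 → ℝ) → Finset Edge → Finset Edge → ℝ}
    (hF : ∀ O b, Tame D fun f => F f O b) (hF' : ∀ O b, Tame D fun f => F' f O b)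
    (h : ∀ f O b, O ⊆ Ed D → b ⊆ Ed D \ O → F f O b ≤ F' f O b) : cpl D F ≤ cpl D F' := by
  unfold cpl
  apply div_le_div_of_nonneg_right _ (hi D 0).2.le
  apply integral_mono (p4_int_cpl hi hF) (p4_int_cpl hi hF')
  intro f
  apply Finset.sum_le_sum
  intro O hO
  apply Finset.sum_le_sum
  intro b hb
  rw [Finset.mem_powerset] at hO hb
  exact mul_le_mul_of_nonneg_left (h f O b hO hb) (p4_Wc_nonneg hV D f O b hO)

theorem p4_cpl_add (hi : Stmt_int) {D : Finset Z2}
    {F F' : (Z2 → ℝ) → Finset Edge → Finset Edge → ℝ}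
    (hF : ∀ O b, Tame D fun f => F f O b) (hF' : ∀ O b, Tame D fun f => F' f O b) :
    cpl D (fun f O b => F f O b + F' f O b) = cpl D F + cpl D F' := by
  unfold cpl
  rw [← add_div, ← integral_add (p4_int_cpl hi hF) (p4_int_cpl hi hF')]
  congr 2
  funext f
  rw [← Finset.sum_add_distrib]
  apply Finset.sum_congr rfl
  intro O _
  rw [← Finset.sum_add_distrib]
  apply Finset.sum_congr rfl
  intro b _
  ring

theorem p4_cpl_mul (D : Finset Z2) (c : ℝ)
    (F : (Z2 → ℝ) → Finset Edge → Finset Edge → ℝ) :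
    cpl D (fun f O b => c * F f O b) = c * cpl D F := by
  unfold cpl
  rw [← mul_div_assoc, ← integral_const_mul]
  congr 2
  funext f
  rw [Finset.mul_sum]
  apply Finset.sum_congr rfl
  intro O _
  rw [Finset.mul_sum]
  apply Finset.sum_congr rfl
  intro b _
  ring

theorem p4_cpl_sum (hi : Stmt_int) {D : Finset Z2} {ι : Type*} (s : Finset ι)
    (F : ι → (Z2 → ℝ) → Finset Edge → Finset Edge → ℝ)
    (hF : ∀ i ∈ s, ∀ O b, Tame D fun f => F i f O b) :
    cpl D (fun f O b => ∑ i ∈ s, F i f O b) = ∑ i ∈ s, cpl D (F i) := by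
  induction s using Finset.induction_on with
  | empty =>
    have := p4_cpl_mul D 0 (fun _ _ _ => 0)
    simpa using this
  | insert i s hi' ih =>
    rw [Finset.sum_insert hi', ← ih fun j hj => hF j (Finset.mem_insert_of_mem hj),
      ← p4_cpl_add hi (hF i (Finset.mem_insert_self i s))
        (fun O b => p4_tame_sum s (fun j f => F j f O b)
          fun j hj => hF j (Finset.mem_insert_of_mem hj) O b)]
    congr 1
    funext f O b
    rw [Finset.sum_insert hi']

/-! ### signs -/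

theorem p4_sav_mono (D : Finset Z2) (ω : Finset Edge) {g g' : (Z2 → ℝ) → ℝ}
    (h : ∀ f, g f ≤ g' f) (f : Z2 → ℝ) : sav D ω g f ≤ sav D ω g' f := by
  unfold sav
  apply div_le_div_of_nonneg_right _ (Nat.cast_nonneg _)
  exact Finset.sum_le_sum fun A _ => h _

theorem p4_sav_const (D : Finset Z2) (ω : Finset Edge) (c : ℝ) (f : Z2 → ℝ) :
    sav D ω (fun _ => c) f = c := by
  unfold sav
  rw [Finset.sum_const, nsmul_eq_mul]
  have : ((sgset D ω).card : ℝ) ≠ 0 :=
    Nat.cast_ne_zero.mpr (Finset.card_ne_zero.mpr (p4_sgset_nonempty D ω))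
  field_simp

theorem p4_sav_add (D : Finset Z2) (ω : Finset Edge) (g g' : (Z2 → ℝ) → ℝ) (f : Z2 → ℝ) :
    sav D ω (fun f => g f + g' f) f = sav D ω g f + sav D ω g' f := by
  unfold sav
  rw [Finset.sum_add_distrib, add_div]

theorem p4_mass_one (h1 : Stmt_cplO) (h2 : Stmt_cplG) (hi : Stmt_int) (D : Finset Z2) :
    Ex D (1 / 2) (fun _ => 1) = 1 := by
  rw [← h1 D (fun _ => 1)]
  have := h2 D (fun _ => 1) (p4_tame_const D 1)
  simp only [p4_sav_const] at this
  rw [this]
  unfold gff Zp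
  simp only [one_mul]
  exact div_self (hi D 0).2.ne'


/-! ### Gaussian expectations -/

theorem p4_H_abs (O : Finset Edge) (f : Z2 → ℝ) : |H O f| ≤ ∑ e ∈ O, Jf f e := by
  unfold H
  exact Finset.abs_sum_le_sum_abs _ _

theorem p4_H_meas (O : Finset Edge) : Measurable fun f : Z2 → ℝ => H O f := by
  unfold H
  fun_prop

theorem p4_int_gff (hi : Stmt_int) {D : Finset Z2} {g : (Z2 → ℝ) → ℝ} (hg : Tame D g) :
    Integrable (fun f => g f * Real.exp (H (Ed D) f)) Gam := by
  obtain ⟨C, c, hC, hc, hb⟩ := p4_tame_bound hg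
  refine Integrable.mono' ((hi D c).1.const_mul C)
    (hg.1.mul (p4_H_meas (Ed D)).exp).aestronglyMeasurable
    (Filter.Eventually.of_forall fun f => ?_)
  rw [Real.norm_eq_abs, abs_mul, Real.exp_add, abs_of_pos (Real.exp_pos _)]
  calc |g f| * Real.exp (H (Ed D) f)
      ≤ (C * Real.exp (c * ∑ x ∈ D, |f x|)) * Real.exp (∑ e ∈ Ed D, Jf f e) :=
        mul_le_mul (hb f) (Real.exp_le_exp.mpr ((le_abs_self _).trans (p4_H_abs _ _)))
          (Real.exp_pos _).le (by positivity)
    _ = _ := by ring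

theorem p4_gff_mono (hi : Stmt_int) {D : Finset Z2} {g g' : (Z2 → ℝ) → ℝ}
    (hg : Integrable (fun f => g f * Real.exp (H (Ed D) f)) Gam)
    (hg' : Integrable (fun f => g' f * Real.exp (H (Ed D) f)) Gam)
    (h : ∀ f, g f ≤ g' f) : gff D g ≤ gff D g' := by
  unfold gff
  apply div_le_div_of_nonneg_right _ (hi D 0).2.le
  apply integral_mono hg hg'
  intro f
  exact mul_le_mul_of_nonneg_right (h f) (Real.exp_pos _).le

theorem p4_gff_comb {D : Finset Z2} {g g' : (Z2 → ℝ) → ℝ} (c c' : ℝ)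
    (hg : Integrable (fun f => g f * Real.exp (H (Ed D) f)) Gam)
    (hg' : Integrable (fun f => g' f * Real.exp (H (Ed D) f)) Gam) :
    Integrable (fun f => (c * g f + c' * g' f) * Real.exp (H (Ed D) f)) Gam ∧
    gff D (fun f => c * g f + c' * g' f) = c * gff D g + c' * gff D g' := by
  have e : (fun f => (c * g f + c' * g' f) * Real.exp (H (Ed D) f))
      = fun f => c * (g f * Real.exp (H (Ed D) f)) + c' * (g' f * Real.exp (H (Ed D) f)) := by
    funext f
    ring
  constructor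
  · rw [e]
    exact (hg.const_mul c).add (hg'.const_mul c')
  · unfold gff
    rw [e, integral_add (hg.const_mul c) (hg'.const_mul c'), integral_const_mul,
      integral_const_mul]
    ring

theorem p4_h2 (hl : Stmt_law) (hi : Stmt_int) (D : Finset Z2) (x y : Z2 → ℝ) (vX vY : ℝ)
    (hX : 0 < vX) (hY : 0 < vY) (hx : Cov D x x ≤ vX) (hy : Cov D y y ≤ vY) :
    gff D (fun f => |lin D x f| * lin D y f ^ 2) ≤ vY * Real.sqrt (3 * vX) := by
  have e1 : gff D (fun f => lin D x f ^ 2) ≤ vX := by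
    rw [hl D x (fun t => t ^ 2) (by fun_prop), p4_gauss_sq]
    exact Real.coe_toNNReal' _ ▸ max_le hx hX.le
  have e2 : gff D (fun f => lin D y f ^ 4) ≤ 3 * vY ^ 2 := by
    rw [hl D y (fun t => t ^ 4) (by fun_prop), p4_gauss_four]
    have h0 : ((Cov D y y).toNNReal : ℝ) ≤ vY := Real.coe_toNNReal' _ ▸ max_le hy hY.le
    have h1 : (0 : ℝ) ≤ ((Cov D y y).toNNReal : ℝ) := NNReal.coe_nonneg _
    nlinarith
  set t : ℝ := Real.sqrt 3 * vY / Real.sqrt vX with ht
  have hsX : 0 < Real.sqrt vX := Real.sqrt_pos.mpr hX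
  have hs3 : 0 < Real.sqrt 3 := Real.sqrt_pos.mpr (by norm_num)
  have htpos : 0 < t := by positivity
  have hT2 : Tame D fun f => lin D x f ^ 2 := by
    have := p4_tame_mul (p4_tame_lin D x) (p4_tame_lin D x)
    simpa [pow_two] using this
  have hTy2 : Tame D fun f => lin D y f ^ 2 := by
    have := p4_tame_mul (p4_tame_lin D y) (p4_tame_lin D y)
    simpa [pow_two] using this
  have hT4 : Tame D fun f => lin D y f ^ 4 := by
    have := p4_tame_mul hTy2 hTy2
    have e : (fun f => lin D y f ^ 4) = fun f => lin D y f ^ 2 * lin D y f ^ 2 := by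
      funext f
      ring
    rw [e]
    exact this
  obtain ⟨hint, hval⟩ := p4_gff_comb (t / 2) (1 / (2 * t)) (p4_int_gff hi hT2) (p4_int_gff hi hT4)
  have hmono := p4_gff_mono hi
    (p4_int_gff hi (p4_tame_mul (p4_tame_abs (p4_tame_lin D x)) hTy2)) hint (by
      intro f
      have h1 : 0 ≤ (t * |lin D x f| - lin D y f ^ 2) ^ 2 := sq_nonneg _
      have h2 : |lin D x f| ^ 2 = lin D x f ^ 2 := sq_abs _
      have h3 : t / 2 * lin D x f ^ 2 + 1 / (2 * t) * lin D y f ^ 4
          - |lin D x f| * lin D y f ^ 2 = (t * |lin D x f| - lin D y f ^ 2) ^ 2 / (2 * t) := by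
        rw [← h2]
        field_simp
        ring
      have h4 : 0 ≤ (t * |lin D x f| - lin D y f ^ 2) ^ 2 / (2 * t) := by positivity
      linarith)
  refine hmono.trans ?_
  rw [hval]
  have h5 : t / 2 * gff D (fun f => lin D x f ^ 2) ≤ t / 2 * vX :=
    mul_le_mul_of_nonneg_left e1 (by positivity)
  have h6 : 1 / (2 * t) * gff D (fun f => lin D y f ^ 4) ≤ 1 / (2 * t) * (3 * vY ^ 2) :=
    mul_le_mul_of_nonneg_left e2 (by positivity)
  refine (add_le_add h5 h6).trans (le_of_eq ?_)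
  rw [Real.sqrt_mul (by norm_num : (0 : ℝ) ≤ 3)]
  have hq : Real.sqrt vX ^ 2 = vX := Real.sq_sqrt hX.le
  have hq3 : Real.sqrt 3 ^ 2 = 3 := Real.sq_sqrt (by norm_num)
  rw [ht]
  field_simp
  rw [hq, hq3]
  ring

theorem p4_int_exp (hl : Stmt_law) (D : Finset Z2) (x : Z2 → ℝ) (v : ℝ)
    (hv : 0 < v) (hx : Cov D x x ≤ v) :
    Integrable (fun f => Real.exp (lin D x f ^ 2 / (4 * v)) * Real.exp (H (Ed D) f)) Gam ∧
    gff D (fun f => Real.exp (lin D x f ^ 2 / (4 * v))) ≤ Real.sqrt 2 := by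
  have h0 : ((Cov D x x).toNNReal : ℝ) ≤ v := Real.coe_toNNReal' _ ▸ max_le hx hv.le
  obtain ⟨h1, h2⟩ := p4_gauss_expsq _ v hv h0
  have h3 := hl D x (fun t => Real.exp (t ^ 2 / (4 * v))) (by fun_prop)
  constructor
  · by_contra hni
    rw [← h3] at h1
    unfold gff at h1
    rw [integral_undef hni, zero_div] at h1
    exact lt_irrefl _ h1
  · rw [h3]
    exact h2

theorem p4_h1 (hl : Stmt_law) (hi : Stmt_int) (D : Finset Z2) (x y : Z2 → ℝ) (vX vY L : ℝ)
    (hX : 0 < vX) (hY : 0 < vY) (hx : Cov D x x ≤ vX) (hy : Cov D y y ≤ vY) :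
    gff D (fun f => if L < |lin D x f * lin D y f| then |lin D x f * lin D y f| else 0)
      ≤ 5 * Real.sqrt (vX * vY) * Real.exp (-L / (8 * Real.sqrt (vX * vY))) := by
  set s : ℝ := Real.sqrt (vX * vY) with hs
  have hspos : 0 < s := Real.sqrt_pos.mpr (by positivity)
  obtain ⟨ix, gx⟩ := p4_int_exp hl D x vX hX hx
  obtain ⟨iy, gy⟩ := p4_int_exp hl D y vY hY hy
  set K : ℝ := 8 * s / Real.exp 1 * Real.exp (-L / (8 * s)) with hK
  have hKpos : 0 < K := by positivity
  obtain ⟨hint, hval⟩ := p4_gff_comb (K / 2) (K / 2) ix iy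
  have hmono := p4_gff_mono hi
    (p4_int_gff hi (p4_tame_trunc (p4_tame_abs (p4_tame_mul (p4_tame_lin D x)
      (p4_tame_lin D y))) L)) hint (by
      intro f
      set X := lin D x f
      set Y := lin D y f
      have hpos : 0 ≤ K / 2 * Real.exp (X ^ 2 / (4 * vX)) + K / 2 * Real.exp (Y ^ 2 / (4 * vY)) := by
        positivity
      split_ifs with hL
      · set w := |X * Y|
        have hw1 : w ≤ 8 * s / Real.exp 1 * Real.exp (w / (8 * s)) := by
          have h1 := Real.add_one_le_exp (w / (8 * s) - 1)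
          rw [Real.exp_sub] at h1
          have h2 : w / (8 * s) ≤ Real.exp (w / (8 * s)) / Real.exp 1 := by linarith
          calc w = 8 * s * (w / (8 * s)) := by field_simp
            _ ≤ 8 * s * (Real.exp (w / (8 * s)) / Real.exp 1) :=
                mul_le_mul_of_nonneg_left h2 (by positivity)
            _ = _ := by ring
        have hw2 : Real.exp (w / (8 * s)) ≤ Real.exp (-L / (8 * s)) * Real.exp (w / (4 * s)) := by
          rw [← Real.exp_add]
          apply Real.exp_le_exp.mpr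
          have : -L / (8 * s) + w / (4 * s) - w / (8 * s) = (w - L) / (8 * s) := by
            field_simp
            ring
          have h3 : 0 ≤ (w - L) / (8 * s) := by
            apply div_nonneg <;> linarith
          linarith
        have hw3 : Real.exp (w / (4 * s))
            ≤ (Real.exp (X ^ 2 / (4 * vX)) + Real.exp (Y ^ 2 / (4 * vY))) / 2 := by
          have hsx : Real.sqrt vX ^ 2 = vX := Real.sq_sqrt hX.le
          have hsy : Real.sqrt vY ^ 2 = vY := Real.sq_sqrt hY.le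
          have hsX : 0 < Real.sqrt vX := Real.sqrt_pos.mpr hX
          have hsY : 0 < Real.sqrt vY := Real.sqrt_pos.mpr hY
          have h4 : w / (4 * s) ≤ (X ^ 2 / (4 * vX)) / 2 + (Y ^ 2 / (4 * vY)) / 2 := by
            have h5 : s = Real.sqrt vX * Real.sqrt vY := by
              rw [hs, Real.sqrt_mul hX.le]
            have h6 : w = |X| * |Y| := abs_mul X Y
            rw [h5, h6]
            have h7 : 0 ≤ (|X| / Real.sqrt vX - |Y| / Real.sqrt vY) ^ 2 := sq_nonneg _
            have h8 : (|X| / Real.sqrt vX - |Y| / Real.sqrt vY) ^ 2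
                = X ^ 2 / vX + Y ^ 2 / vY - 2 * (|X| * |Y| / (Real.sqrt vX * Real.sqrt vY)) := by
              rw [sub_sq, div_pow, div_pow, sq_abs, sq_abs, hsx, hsy]
              field_simp
              ring
            rw [h8] at h7
            have h9 : |X| * |Y| / (4 * (Real.sqrt vX * Real.sqrt vY))
                = (|X| * |Y| / (Real.sqrt vX * Real.sqrt vY)) / 4 := by
              field_simp
            have h10 : X ^ 2 / (4 * vX) / 2 + Y ^ 2 / (4 * vY) / 2
                = (X ^ 2 / vX + Y ^ 2 / vY) / 8 := by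
              field_simp
              ring
            rw [h9, h10]
            linarith
          refine (Real.exp_le_exp.mpr h4).trans ?_
          rw [Real.exp_add]
          have h11 : Real.exp (X ^ 2 / (4 * vX)) = Real.exp (X ^ 2 / (4 * vX) / 2) ^ 2 := by
            rw [← Real.exp_nat_mul]
            congr 1
            push_cast
            ring
          have h12 : Real.exp (Y ^ 2 / (4 * vY)) = Real.exp (Y ^ 2 / (4 * vY) / 2) ^ 2 := by
            rw [← Real.exp_nat_mul]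
            congr 1
            push_cast
            ring
          rw [h11, h12]
          nlinarith [sq_nonneg (Real.exp (X ^ 2 / (4 * vX) / 2) - Real.exp (Y ^ 2 / (4 * vY) / 2))]
        calc w ≤ 8 * s / Real.exp 1 * Real.exp (w / (8 * s)) := hw1
          _ ≤ 8 * s / Real.exp 1 * (Real.exp (-L / (8 * s)) * Real.exp (w / (4 * s))) :=
              mul_le_mul_of_nonneg_left hw2 (by positivity)
          _ = K * Real.exp (w / (4 * s)) := by rw [hK]; ring
          _ ≤ K * ((Real.exp (X ^ 2 / (4 * vX)) + Real.exp (Y ^ 2 / (4 * vY))) / 2) :=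
              mul_le_mul_of_nonneg_left hw3 hKpos.le
          _ = _ := by ring
      · exact hpos)
  refine hmono.trans ?_
  rw [hval]
  have h5 : K / 2 * gff D (fun f => Real.exp (lin D x f ^ 2 / (4 * vX))) ≤ K / 2 * Real.sqrt 2 :=
    mul_le_mul_of_nonneg_left gx (by positivity)
  have h6 : K / 2 * gff D (fun f => Real.exp (lin D y f ^ 2 / (4 * vY))) ≤ K / 2 * Real.sqrt 2 :=
    mul_le_mul_of_nonneg_left gy (by positivity)
  refine (add_le_add h5 h6).trans ?_
  have h7 : Real.sqrt 2 ≤ 3 / 2 := by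
    rw [Real.sqrt_le_left (by norm_num)]
    norm_num
  have he : (2.7 : ℝ) ≤ Real.exp 1 := by
    have := Real.exp_one_gt_d9
    linarith
  have h8 : 8 / Real.exp 1 * Real.sqrt 2 ≤ 5 := by
    rw [div_mul_eq_mul_div, div_le_iff₀ (Real.exp_pos 1)]
    linarith
  calc K / 2 * Real.sqrt 2 + K / 2 * Real.sqrt 2
      = (8 / Real.exp 1 * Real.sqrt 2) * (s * Real.exp (-L / (8 * s))) := by rw [hK]; ring
    _ ≤ 5 * (s * Real.exp (-L / (8 * s))) := mul_le_mul_of_nonneg_right h8 (by positivity)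
    _ = _ := by ring


/-! ### contact -/

theorem p4_joined_mem {D : Finset Z2} {O : Finset Edge} (hO : O ⊆ Ed D) {x y : Z2}
    (h : Joined O x y) : x ∈ D ∧ y ∈ D := by
  obtain ⟨e, he, h⟩ := h
  have h1 := hO he
  unfold Ed at h1
  rw [Finset.mem_filter, Finset.mem_product] at h1
  have h2 : src e ∈ D := h1.1.1
  rcases h with ⟨rfl, rfl⟩ | ⟨rfl, rfl⟩
  · exact ⟨h2, h1.2⟩
  · exact ⟨h1.2, h2⟩

theorem p4_joined_nrm {O : Finset Edge} {x y : Z2} (h : Joined O x y) : nrm x y ≤ 1 := by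
  obtain ⟨e, _, h⟩ := h
  rcases h with ⟨rfl, rfl⟩ | ⟨rfl, rfl⟩
  · unfold nrm tgt src
    split_ifs <;> simp
  · unfold nrm tgt src
    split_ifs <;> simp

theorem p4_joined_symm {O : Finset Edge} {x y : Z2} (h : Joined O x y) : Joined O y x := by
  obtain ⟨e, he, h⟩ := h
  exact ⟨e, he, h.symm⟩

theorem p4_mem_Ed {D : Finset Z2} {e : Edge} : e ∈ Ed D ↔ src e ∈ D ∧ tgt e ∈ D := by
  unfold Ed
  rw [Finset.mem_filter, Finset.mem_product]
  simp [src]

theorem p4_contact {D K : Finset Z2} {O b : Finset Edge} (hO : O ⊆ Ed D) (hb : b ⊆ Ed D)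
    {q z : Z2} (hq : q ∈ D \ K) (hz : z ∈ K) (hc : Conn (O ∪ b) q z) :
    ∃ x ∈ K, ∃ y ∈ KO (D \ K) (O ∩ Ed (D \ K) ∪ b ∩ Ed (D \ K)) {q}, nrm x y ≤ 1 := by
  have hOb : O ∪ b ⊆ Ed D := Finset.union_subset hO hb
  have key : ∀ w, Conn (O ∪ b) q w →
      (Conn (O ∩ Ed (D \ K) ∪ b ∩ Ed (D \ K)) q w ∧ w ∈ D \ K) ∨
      ∃ x ∈ K, ∃ y ∈ KO (D \ K) (O ∩ Ed (D \ K) ∪ b ∩ Ed (D \ K)) {q}, nrm x y ≤ 1 := by
    intro w hw
    unfold Conn at hw
    induction hw with
    | refl => exact Or.inl ⟨Relation.ReflTransGen.refl, hq⟩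
    | @tail u v _ hj ih =>
      rcases ih with ⟨h1, h2⟩ | h
      · have hv := (p4_joined_mem hOb hj).2
        by_cases hvK : v ∈ K
        · right
          refine ⟨v, hvK, u, ?_, p4_joined_nrm (p4_joined_symm hj)⟩
          unfold KO
          rw [Finset.mem_filter]
          exact ⟨h2, q, Finset.mem_singleton_self q, h1⟩
        · left
          have hvD : v ∈ D \ K := Finset.mem_sdiff.mpr ⟨hv, hvK⟩
          refine ⟨?_, hvD⟩
          refine Relation.ReflTransGen.tail h1 ?_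
          obtain ⟨e, he, h⟩ := hj
          have heE : e ∈ Ed (D \ K) := by
            rw [p4_mem_Ed]
            rcases h with ⟨h3, h4⟩ | ⟨h3, h4⟩
            · rw [h3, h4]; exact ⟨h2, hvD⟩
            · rw [h3, h4]; exact ⟨hvD, h2⟩
          refine ⟨e, ?_, h⟩
          rw [← Finset.union_inter_distrib_right]
          exact Finset.mem_inter.mpr ⟨he, heE⟩
      · exact Or.inr h
  rcases key z hc with ⟨_, h⟩ | h
  · exact absurd hz (Finset.mem_sdiff.mp h).2
  · exact h

theorem p4_mem_bx {z x : Z2} {r : ℕ} : x ∈ bx z r ↔ nrm x z ≤ r := by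
  unfold bx nrm
  rw [Finset.mem_product, Finset.mem_Icc, Finset.mem_Icc]
  omega

theorem p4_nrm_comm (x y : Z2) : nrm x y = nrm y x := by
  unfold nrm
  omega

theorem p4_nrm_tri (x y z : Z2) : nrm x z ≤ nrm x y + nrm y z := by
  unfold nrm
  omega

/-- the capacity of the cluster of `q` outside `K` is large -/
theorem p4_capge (h6 : Stmt_ring) (h10 : Stmt_KO) {D B T : Finset Z2} {r : ℕ}
    {O b : Finset Edge} (hO : O ⊆ Ed D) (hb : b ⊆ Ed D) (hB : B ⊆ D) (hBc : ConnSet B)
    (hBn : B.Nonempty) (hBd : ∃ b ∈ B, ∃ b' ∈ B, 2 * r + 1 < nrm b b') (hr : 2 ≤ r)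
    (hG : ¬ ∃ x ∈ KO D O B, x ∈ nbhd T r) {q : Z2} (hqT : q ∈ T) (hqD : q ∈ D)
    (hqB : ∃ z ∈ KO D (O ∪ b) {q}, z ∈ B) :
    q ∈ D \ KO D O B ∧
    CapGE (D \ KO D O B) (KO (D \ KO D O B)
      (O ∩ Ed (D \ KO D O B) ∪ b ∩ Ed (D \ KO D O B)) {q}) (1 / 8 * Real.log r) := by
  set K := KO D O B with hK
  obtain ⟨k1, k2, -⟩ := h10 D B B O hO hB hB
  have hBK : B ⊆ K := k2
  have hKD : K ⊆ D := Finset.filter_subset _ _
  have hqK : q ∉ K := by
    intro h
    apply hG
    refine ⟨q, h, ?_⟩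
    unfold nbhd
    rw [Finset.mem_biUnion]
    refine ⟨q, hqT, ?_⟩
    rw [p4_mem_bx]
    unfold nrm
    simp
  have hq' : q ∈ D \ K := Finset.mem_sdiff.mpr ⟨hqD, hqK⟩
  refine ⟨hq', ?_⟩
  obtain ⟨z, hz, hzB⟩ := hqB
  unfold KO at hz
  rw [Finset.mem_filter] at hz
  obtain ⟨_, q', hq1, hconn⟩ := hz
  rw [Finset.mem_singleton] at hq1
  subst hq1
  obtain ⟨x, hx, y, hy, hxy⟩ := p4_contact hO hb hq' (hBK hzB) hconn
  have hω : O ∩ Ed (D \ K) ∪ b ∩ Ed (D \ K) ⊆ Ed (D \ K) :=
    Finset.union_subset Finset.inter_subset_right Finset.inter_subset_right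
  have hsing : ({q'} : Finset Z2) ⊆ D \ K := Finset.singleton_subset_iff.mpr hq'
  have hCc : ConnSet (KO (D \ K) (O ∩ Ed (D \ K) ∪ b ∩ Ed (D \ K)) {q'}) := by
    obtain ⟨c1, -⟩ := h10 (D \ K) {q'} {q'} _ hω hsing hsing
    apply c1
    · intro u hu v hv
      rw [Finset.mem_singleton] at hu hv
      subst hu
      subst hv
      exact Relation.ReflTransGen.refl
    · exact Finset.singleton_nonempty _
  have hnear : ∀ w ∈ K, r < nrm q' w := by
    intro w hw
    by_contra hcon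
    apply hG
    refine ⟨w, hw, ?_⟩
    unfold nbhd
    rw [Finset.mem_biUnion]
    refine ⟨q', hqT, ?_⟩
    rw [p4_mem_bx, p4_nrm_comm]
    omega
  have hfar : ∃ w ∈ K, r < nrm w x := by
    obtain ⟨b1, hb1, b2, hb2, hd⟩ := hBd
    by_contra hcon
    push Not at hcon
    have e1 := hcon b1 (hBK hb1)
    have e2 := hcon b2 (hBK hb2)
    have e3 := p4_nrm_tri b1 x b2
    rw [p4_nrm_comm x b2] at e3
    omega
  have hqC : q' ∈ KO (D \ K) (O ∩ Ed (D \ K) ∪ b ∩ Ed (D \ K)) {q'} := by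
    unfold KO
    rw [Finset.mem_filter]
    exact ⟨hq', q', Finset.mem_singleton_self _, Relation.ReflTransGen.refl⟩
  exact h6 (D \ K) K _ x y q' r (k1 hBc hBn) hCc
    (Finset.disjoint_sdiff) (Finset.filter_subset _ _) hx hy hqC hxy (hnear x hx) hfar (by omega)


/-! ### assembly -/

theorem p4_avw_nonneg (T : Finset Z2) (x : Z2) : 0 ≤ avw T x := by
  unfold avw
  split_ifs
  · positivity
  · exact le_refl _

theorem p4_avw_sum (T S : Finset Z2) : ∑ q ∈ S, avw T q ≤ 1 := by
  unfold avw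
  rw [← Finset.sum_filter, Finset.sum_const, nsmul_eq_mul]
  have h1 : (Finset.filter (fun q => q ∈ T) S).card ≤ T.card := by
    apply Finset.card_le_card
    intro q hq
    exact (Finset.mem_filter.mp hq).2
  rcases Nat.eq_zero_or_pos T.card with h | h
  · rw [h]
    simp
  · have h2 : ((Finset.filter (fun q => q ∈ T) S).card : ℝ) ≤ T.card := by exact_mod_cast h1
    have h3 : (0 : ℝ) < T.card := by exact_mod_cast h
    rw [← div_eq_mul_inv, div_le_one h3]
    exact h2

theorem p4_pr_nonneg (D : Finset Z2) (a : ℝ) (O : Finset Edge) : 0 ≤ pr D a O :=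
  measureReal_nonneg

/-- the middle term -/
def p4M (D B T : Finset Z2) (r : ℕ) (f : Z2 → ℝ) (O b : Finset Edge) : ℝ :=
  if ∃ x ∈ KO D O B, x ∈ nbhd T r then 0 else
    ∑ q ∈ D, if q ∈ T ∧ ∃ z ∈ KO D (O ∪ b) {q}, z ∈ B then avw T q * |f q| else 0

/-- the function of the configuration outside `K` -/
def p4F (D K : Finset Z2) (c : ℝ) (q : Z2) (f : Z2 → ℝ) (O b : Finset Edge) : ℝ :=
  if CapGE (D \ K) (KO (D \ K) (O ∪ b) {q}) c then |f q| else 0

theorem p4F_nonneg (D K : Finset Z2) (c : ℝ) (q : Z2) (f : Z2 → ℝ) (O b : Finset Edge) :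
    0 ≤ p4F D K c q f O b := by
  unfold p4F
  split_ifs
  · exact abs_nonneg _
  · exact le_refl _

theorem p4F_tame {D K : Finset Z2} (c : ℝ) {q : Z2} (hq : q ∈ D \ K) (O b : Finset Edge) :
    Tame (D \ K) fun f => p4F D K c q f O b := by
  unfold p4F
  exact p4_tame_ite _ (p4_tame_abs (p4_tame_coord hq)) (p4_tame_const _ 0)

theorem p4F_tame' {D K : Finset Z2} (c : ℝ) {q : Z2} (hq : q ∈ D \ K) (O b : Finset Edge) :
    Tame D fun f => p4F D K c q f O b := by
  unfold p4F
  exact p4_tame_ite _ (p4_tame_abs (p4_tame_coord (Finset.mem_sdiff.mp hq).1)) (p4_tame_const _ 0)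

theorem p4M_le (h6 : Stmt_ring) (h10 : Stmt_KO) {D B T : Finset Z2} {r : ℕ}
    (hB : B ⊆ D) (hBc : ConnSet B)
    (hBn : B.Nonempty) (hBd : ∃ b ∈ B, ∃ b' ∈ B, 2 * r + 1 < nrm b b') (hr : 2 ≤ r)
    (f : Z2 → ℝ) (O b : Finset Edge) (hO : O ⊆ Ed D) (hb : b ⊆ Ed D \ O) :
    p4M D B T r f O b ≤ ∑ K ∈ D.powerset.filter (fun K => B ⊆ K), ∑ q ∈ D \ K,
      avw T q * (if KO D O B = K then
        p4F D K (1 / 8 * Real.log r) q f (O ∩ Ed (D \ K)) (b ∩ Ed (D \ K)) else 0) := by
  have hb' : b ⊆ Ed D := hb.trans Finset.sdiff_subset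
  have hnn : ∀ K, ∀ q, 0 ≤ avw T q * (if KO D O B = K then
        p4F D K (1 / 8 * Real.log r) q f (O ∩ Ed (D \ K)) (b ∩ Ed (D \ K)) else 0) := by
    intro K q
    apply mul_nonneg (p4_avw_nonneg T q)
    split_ifs
    · exact p4F_nonneg _ _ _ _ _ _ _
    · exact le_refl _
  unfold p4M
  split_ifs with hG
  · exact Finset.sum_nonneg fun K _ => Finset.sum_nonneg fun q _ => hnn K q
  · have hK0 : KO D O B ∈ D.powerset.filter (fun K => B ⊆ K) := by
      rw [Finset.mem_filter, Finset.mem_powerset]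
      exact ⟨Finset.filter_subset _ _, (h10 D B B O hO hB hB).2.1⟩
    refine le_trans ?_ (Finset.single_le_sum
      (f := fun K => ∑ q ∈ D \ K, avw T q * (if KO D O B = K then
        p4F D K (1 / 8 * Real.log r) q f (O ∩ Ed (D \ K)) (b ∩ Ed (D \ K)) else 0))
      (fun K _ => Finset.sum_nonneg fun q _ => hnn K q) hK0)
    rw [← Finset.sum_subset (Finset.sdiff_subset : D \ KO D O B ⊆ D)]
    · apply Finset.sum_le_sum
      intro q hq
      rw [if_pos rfl]
      split_ifs with hcase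
      · apply mul_le_mul_of_nonneg_left _ (p4_avw_nonneg T q)
        have := (p4_capge h6 h10 hO hb' hB hBc hBn hBd hr hG hcase.1
          (Finset.mem_sdiff.mp hq).1 hcase.2).2
        unfold p4F
        rw [if_pos this]
      · exact mul_nonneg (p4_avw_nonneg T q) (p4F_nonneg _ _ _ _ _ _ _)
    · intro q hqD hq
      apply if_neg
      intro hcase
      exact hq (p4_capge h6 h10 hO hb' hB hBc hBn hBd hr hG hcase.1 hqD hcase.2).1

theorem p4M_tame (D B T : Finset Z2) (r : ℕ) (O b : Finset Edge) :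
    Tame D fun f => p4M D B T r f O b := by
  unfold p4M
  apply p4_tame_ite _ (p4_tame_const D 0)
  apply p4_tame_sum
  intro q hq
  exact p4_tame_ite _ (p4_tame_mul (p4_tame_const D _) (p4_tame_abs (p4_tame_coord hq)))
    (p4_tame_const D 0)

theorem p4M_bound (h1 : Stmt_cplO) (h2 : Stmt_cplG) (h3 : Stmt_cplM) (h5 : Stmt_cap)
    (h6 : Stmt_ring) (h8 : Stmt_int) (h9 : Stmt_Vnn) (h10 : Stmt_KO)
    {D B T : Finset Z2} {r : ℕ} (hB : B ⊆ D) (hBc : ConnSet B)
    (hBn : B.Nonempty) (hBd : ∃ b ∈ B, ∃ b' ∈ B, 2 * r + 1 < nrm b b') (hr : 2 ≤ r) :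
    cpl D (p4M D B T r) ≤ 9 / Real.sqrt (Real.log r) := by
  have hlog : 0 < Real.log r := Real.log_pos (by exact_mod_cast hr)
  have hc : 0 < 1 / 8 * Real.log r := by positivity
  set S := D.powerset.filter (fun K => B ⊆ K) with hS
  have htame : ∀ K, ∀ q ∈ D \ K, ∀ O b : Finset Edge, Tame D fun f =>
      avw T q * (if KO D O B = K then
        p4F D K (1 / 8 * Real.log r) q f (O ∩ Ed (D \ K)) (b ∩ Ed (D \ K)) else 0) := by
    intro K q hq O b
    apply p4_tame_mul (p4_tame_const D _)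
    exact p4_tame_ite _ (p4F_tame' _ hq _ _) (p4_tame_const D 0)
  refine (p4_cpl_mono h9 h8 (p4M_tame D B T r) (fun O b => p4_tame_sum S
    (fun K f => ∑ q ∈ D \ K, avw T q * (if KO D O B = K then
        p4F D K (1 / 8 * Real.log r) q f (O ∩ Ed (D \ K)) (b ∩ Ed (D \ K)) else 0))
    (fun K _ => p4_tame_sum _ _ fun q hq => htame K q hq O b))
    (fun f O b hO hb => p4M_le h6 h10 hB hBc hBn hBd hr f O b hO hb)).trans ?_
  rw [p4_cpl_sum h8 S (fun K f O b => ∑ q ∈ D \ K, avw T q * (if KO D O B = K then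
        p4F D K (1 / 8 * Real.log r) q f (O ∩ Ed (D \ K)) (b ∩ Ed (D \ K)) else 0))
    (fun K _ O b => p4_tame_sum _ _ fun q hq => htame K q hq O b)]
  have hEx0 : ∀ K, 0 ≤ Ex D (1 / 2) (fun O => if KO D O B = K then 1 else 0) := by
    intro K
    unfold Ex
    apply Finset.sum_nonneg
    intro O _
    apply mul_nonneg (p4_pr_nonneg _ _ _)
    dsimp only
    split_ifs <;> norm_num
  have hterm : ∀ K ∈ S, cpl D (fun f O b => ∑ q ∈ D \ K, avw T q * (if KO D O B = K then
        p4F D K (1 / 8 * Real.log r) q f (O ∩ Ed (D \ K)) (b ∩ Ed (D \ K)) else 0))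
      ≤ Ex D (1 / 2) (fun O => if KO D O B = K then 1 else 0) *
        (3 / Real.sqrt (1 / 8 * Real.log r)) := by
    intro K hK
    rw [hS, Finset.mem_filter, Finset.mem_powerset] at hK
    rw [p4_cpl_sum h8 (D \ K) (fun q f O b => avw T q * (if KO D O B = K then
        p4F D K (1 / 8 * Real.log r) q f (O ∩ Ed (D \ K)) (b ∩ Ed (D \ K)) else 0))
      (fun q hq O b => htame K q hq O b)]
    have hq1 : ∀ q ∈ D \ K, cpl D (fun f O b => avw T q * (if KO D O B = K then
        p4F D K (1 / 8 * Real.log r) q f (O ∩ Ed (D \ K)) (b ∩ Ed (D \ K)) else 0))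
        ≤ avw T q * (Ex D (1 / 2) (fun O => if KO D O B = K then 1 else 0) *
          (3 / Real.sqrt (1 / 8 * Real.log r))) := by
      intro q hq
      rw [p4_cpl_mul D (avw T q) (fun f O b => if KO D O B = K then
        p4F D K (1 / 8 * Real.log r) q f (O ∩ Ed (D \ K)) (b ∩ Ed (D \ K)) else 0)]
      apply mul_le_mul_of_nonneg_left _ (p4_avw_nonneg T q)
      rw [h3 D K B (p4F D K (1 / 8 * Real.log r) q) hK.2 hK.1 (fun O b => p4F_tame _ hq O b)]
      apply mul_le_mul_of_nonneg_left _ (hEx0 K)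
      exact h5 (D \ K) q (1 / 8 * Real.log r) hq hc
    refine (Finset.sum_le_sum hq1).trans ?_
    rw [← Finset.sum_mul]
    have h0 : 0 ≤ Ex D (1 / 2) (fun O => if KO D O B = K then 1 else 0) *
          (3 / Real.sqrt (1 / 8 * Real.log r)) := mul_nonneg (hEx0 K) (by positivity)
    calc (∑ q ∈ D \ K, avw T q) * (Ex D (1 / 2) (fun O => if KO D O B = K then 1 else 0) *
          (3 / Real.sqrt (1 / 8 * Real.log r)))
        ≤ 1 * (Ex D (1 / 2) (fun O => if KO D O B = K then 1 else 0) *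
          (3 / Real.sqrt (1 / 8 * Real.log r))) :=
          mul_le_mul_of_nonneg_right (p4_avw_sum T _) h0
      _ = _ := one_mul _
  refine (Finset.sum_le_sum hterm).trans ?_
  rw [← Finset.sum_mul]
  have hsum : ∑ K ∈ S, Ex D (1 / 2) (fun O => if KO D O B = K then 1 else 0) ≤ 1 := by
    have hm := p4_mass_one h1 h2 h8 D
    refine le_trans ?_ hm.le
    unfold Ex
    rw [Finset.sum_comm]
    apply Finset.sum_le_sum
    intro O _
    rw [← Finset.mul_sum]
    apply mul_le_mul_of_nonneg_left _ (p4_pr_nonneg _ _ _)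
    dsimp only
    rw [Finset.sum_ite_eq]
    split_ifs <;> norm_num
  have h3c : 0 ≤ 3 / Real.sqrt (1 / 8 * Real.log r) := by positivity
  refine (mul_le_mul_of_nonneg_right hsum h3c).trans ?_
  rw [one_mul]
  have e1 : Real.sqrt (1 / 8 * Real.log r) = Real.sqrt (Real.log r) / Real.sqrt 8 := by
    rw [← Real.sqrt_div hlog.le]
    congr 1
    ring
  have h8' : Real.sqrt 8 ≤ 3 := by
    rw [Real.sqrt_le_left (by norm_num)]
    norm_num
  have hsl : 0 < Real.sqrt (Real.log r) := Real.sqrt_pos.mpr hlog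
  have hs8 : 0 < Real.sqrt 8 := Real.sqrt_pos.mpr (by norm_num)
  rw [e1]
  have e2 : 3 / (Real.sqrt (Real.log r) / Real.sqrt 8)
      = 3 * Real.sqrt 8 / Real.sqrt (Real.log r) := by
    field_simp
  rw [e2]
  apply div_le_div_of_nonneg_right _ hsl.le
  linarith

theorem p4_pointwise (h4 : Stmt_sign) {D B T : Finset Z2} {r : ℕ} {lam Lam : ℝ}
    (hlam : 0 < lam) (hLam : 0 < Lam) (f : Z2 → ℝ) (O b : Finset Edge) (hO : O ⊆ Ed D) (hb : b ⊆ Ed D \ O) :
    sav D (O ∪ b) (fun g => lin D (avw T) g * lin D (avw B) g) f ≤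
      Lam * (if ∃ x ∈ KO D O B, x ∈ nbhd T r then 1 else 0)
      + sav D (O ∪ b) (fun g => if Lam < |lin D (avw T) g * lin D (avw B) g| then
          |lin D (avw T) g * lin D (avw B) g| else 0) f
      + lam * p4M D B T r f O b
      + lam⁻¹ * sav D (O ∪ b) (fun g => |lin D (avw T) g| * lin D (avw B) g ^ 2) f := by
  have hω : O ∪ b ⊆ Ed D := Finset.union_subset hO (hb.trans Finset.sdiff_subset)
  obtain ⟨s1, s2⟩ := h4 D (O ∪ b) (avw T) (avw B) f hω (p4_avw_nonneg T) (p4_avw_nonneg B)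
  have hn2 : 0 ≤ sav D (O ∪ b) (fun g => |lin D (avw T) g| * lin D (avw B) g ^ 2) f := by
    have := p4_sav_mono D (O ∪ b) (g := fun _ => 0)
      (g' := fun g => |lin D (avw T) g| * lin D (avw B) g ^ 2) (fun g => by positivity) f
    rwa [p4_sav_const] at this
  have hn1 : 0 ≤ sav D (O ∪ b) (fun g => if Lam < |lin D (avw T) g * lin D (avw B) g| then
          |lin D (avw T) g * lin D (avw B) g| else 0) f := by
    have := p4_sav_mono D (O ∪ b) (g := fun _ => 0)
      (g' := fun g => if Lam < |lin D (avw T) g * lin D (avw B) g| then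
          |lin D (avw T) g * lin D (avw B) g| else 0) (fun g => by
            split_ifs
            · exact abs_nonneg _
            · exact le_refl _) f
    rwa [p4_sav_const] at this
  have hlam' : 0 < lam⁻¹ := inv_pos.mpr hlam
  by_cases hG : ∃ x ∈ KO D O B, x ∈ nbhd T r
  · unfold p4M
    rw [if_pos hG, if_pos hG, mul_one, mul_zero, add_zero]
    have h1 := p4_sav_mono D (O ∪ b) (g := fun g => lin D (avw T) g * lin D (avw B) g)
      (g' := fun g => Lam + (if Lam < |lin D (avw T) g * lin D (avw B) g| then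
          |lin D (avw T) g * lin D (avw B) g| else 0)) (fun g => by
            have h0 := le_abs_self (lin D (avw T) g * lin D (avw B) g)
            split_ifs with h
            · linarith
            · push Not at h
              linarith) f
    rw [p4_sav_add D (O ∪ b) (fun _ => Lam), p4_sav_const] at h1
    have h3 : 0 ≤ lam⁻¹ * sav D (O ∪ b) (fun g => |lin D (avw T) g| * lin D (avw B) g ^ 2) f :=
      mul_nonneg hlam'.le hn2
    linarith
  · unfold p4M
    rw [if_neg hG, if_neg hG, mul_zero, zero_add, s1]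
    have hterm : ∀ q ∈ D, avw T q * |f q| * ∑ b' ∈ KO D (O ∪ b) {q}, avw B b' * |f b'|
        ≤ lam * (if q ∈ T ∧ ∃ z ∈ KO D (O ∪ b) {q}, z ∈ B then avw T q * |f q| else 0)
          + lam⁻¹ * (avw T q * |f q| * (∑ b' ∈ KO D (O ∪ b) {q}, avw B b' * |f b'|) ^ 2) := by
      intro q _
      set n := ∑ b' ∈ KO D (O ∪ b) {q}, avw B b' * |f b'| with hn
      have hn0 : 0 ≤ n := Finset.sum_nonneg fun _ _ => mul_nonneg (p4_avw_nonneg _ _) (abs_nonneg _)
      have hxq : 0 ≤ avw T q * |f q| := mul_nonneg (p4_avw_nonneg _ _) (abs_nonneg _)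
      have hsq : 0 ≤ lam⁻¹ * (avw T q * |f q| * n ^ 2) :=
        mul_nonneg hlam'.le (mul_nonneg hxq (sq_nonneg _))
      split_ifs with hcase
      · have h1 : n ≤ lam + lam⁻¹ * n ^ 2 := by
          have h2 : lam⁻¹ * n ^ 2 + lam - n = lam⁻¹ * ((n - lam / 2) ^ 2 + 3 / 4 * lam ^ 2) := by
            field_simp
            ring
          have h3 : 0 ≤ lam⁻¹ * ((n - lam / 2) ^ 2 + 3 / 4 * lam ^ 2) := by positivity
          linarith
        calc avw T q * |f q| * n ≤ avw T q * |f q| * (lam + lam⁻¹ * n ^ 2) :=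
              mul_le_mul_of_nonneg_left h1 hxq
          _ = _ := by ring
      · rw [mul_zero, zero_add]
        by_cases hqT : q ∈ T
        · have hn' : n = 0 := by
            apply Finset.sum_eq_zero
            intro b' hb'
            have : b' ∉ B := fun h => hcase ⟨hqT, b', hb', h⟩
            unfold avw
            rw [if_neg this, zero_mul]
          rw [hn']
          simp
        · have : avw T q = 0 := by
            unfold avw
            rw [if_neg hqT]
          rw [this]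
          simp
    refine (Finset.sum_le_sum hterm).trans ?_
    rw [Finset.sum_add_distrib, ← Finset.mul_sum, ← Finset.mul_sum]
    have h3 := mul_le_mul_of_nonneg_left s2 hlam'.le
    linarith

/-- Proposition 4 -/
theorem P4 (h1 : Stmt_cplO) (h2 : Stmt_cplG) (h3 : Stmt_cplM) (h4 : Stmt_sign) (h5 : Stmt_cap)
    (h6 : Stmt_ring) (h7 : Stmt_law) (h8 : Stmt_int) (h9 : Stmt_Vnn) (h10 : Stmt_KO) :
    Stmt_P4 := by
  intro D B T r vX vY lam Lam hB hBc hBn hBd _ hr hvX hvY hlam hLam hX hY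
  set X := avw T with hXdef
  set Y := avw B with hYdef
  have tX := p4_tame_lin D X
  have tY := p4_tame_lin D Y
  have tXY : Tame D fun g => lin D X g * lin D Y g := p4_tame_mul tX tY
  have t1 : Tame D fun g => if Lam < |lin D X g * lin D Y g| then
      |lin D X g * lin D Y g| else 0 := p4_tame_trunc (p4_tame_abs tXY) Lam
  have t2 : Tame D fun g => |lin D X g| * lin D Y g ^ 2 := by
    have := p4_tame_mul (p4_tame_abs tX) (p4_tame_mul tY tY)
    simpa [pow_two] using this
  have hcov : Cov D Y X = cpl D (fun f O b => sav D (O ∪ b)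
      (fun g => lin D X g * lin D Y g) f) := by
    rw [h2 D _ tXY]
    unfold Cov
    congr 1
    funext f
    ring
  rw [hcov]
  have tA : ∀ O b : Finset Edge, Tame D fun _ =>
      Lam * (if ∃ x ∈ KO D O B, x ∈ nbhd T r then (1 : ℝ) else 0) := fun O b => p4_tame_const D _
  have tB : ∀ O b : Finset Edge, Tame D fun f => sav D (O ∪ b) (fun g =>
      if Lam < |lin D X g * lin D Y g| then |lin D X g * lin D Y g| else 0) f :=
    fun O b => p4_tame_sav _ t1
  have tC : ∀ O b : Finset Edge, Tame D fun f => lam * p4M D B T r f O b :=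
    fun O b => p4_tame_mul (p4_tame_const D lam) (p4M_tame D B T r O b)
  have tD : ∀ O b : Finset Edge, Tame D fun f => lam⁻¹ * sav D (O ∪ b)
      (fun g => |lin D X g| * lin D Y g ^ 2) f :=
    fun O b => p4_tame_mul (p4_tame_const D _) (p4_tame_sav _ t2)
  have tAB : ∀ O b : Finset Edge, Tame D fun f =>
      Lam * (if ∃ x ∈ KO D O B, x ∈ nbhd T r then (1 : ℝ) else 0) + sav D (O ∪ b) (fun g =>
      if Lam < |lin D X g * lin D Y g| then |lin D X g * lin D Y g| else 0) f :=
    fun O b => p4_tame_add (tA O b) (tB O b)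
  have tABC : ∀ O b : Finset Edge, Tame D fun f =>
      Lam * (if ∃ x ∈ KO D O B, x ∈ nbhd T r then (1 : ℝ) else 0) + sav D (O ∪ b) (fun g =>
      if Lam < |lin D X g * lin D Y g| then |lin D X g * lin D Y g| else 0) f
      + lam * p4M D B T r f O b :=
    fun O b => p4_tame_add (tAB O b) (tC O b)
  refine (p4_cpl_mono h9 h8 (fun O b => p4_tame_sav _ tXY)
    (fun O b => p4_tame_add (tABC O b) (tD O b))
    (fun f O b hO hb => p4_pointwise (D := D) (B := B) (T := T) (r := r) h4 hlam hLam f O b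
      hO hb)).trans ?_
  rw [p4_cpl_add h8 tABC tD, p4_cpl_add h8 tAB tC, p4_cpl_add h8 tA tB,
    p4_cpl_mul D Lam (fun _ O _ => if ∃ x ∈ KO D O B, x ∈ nbhd T r then (1 : ℝ) else 0),
    p4_cpl_mul D lam (p4M D B T r),
    p4_cpl_mul D lam⁻¹ (fun f O b => sav D (O ∪ b) (fun g => |lin D X g| * lin D Y g ^ 2) f),
    h1 D (fun O => if ∃ x ∈ KO D O B, x ∈ nbhd T r then (1 : ℝ) else 0),
    h2 D _ t1, h2 D _ t2]
  have b1 := p4_h1 h7 h8 D X Y vX vY Lam hvX hvY hX hY
  have b2 := p4_h2 h7 h8 D X Y vX vY hvX hvY hX hY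
  have b3 := p4M_bound h1 h2 h3 h5 h6 h8 h9 h10 (T := T) hB hBc hBn hBd hr
  have hlam' : 0 < lam⁻¹ := inv_pos.mpr hlam
  have b2' := mul_le_mul_of_nonneg_left b2 hlam'.le
  have b3' := mul_le_mul_of_nonneg_left b3 hlam.le
  have e : vY * Real.sqrt (3 * vX) / lam = lam⁻¹ * (vY * Real.sqrt (3 * vX)) := by
    rw [div_eq_inv_mul]
  rw [e]
  linarith

end LSoup
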