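import Pool.Agent.LSoup.Defs

/-!
Frozen statements of the modules.  Paper: /team-store/LS_paper.md (section numbers refer to it).
-/

open MeasureTheory ProbabilityTheory Finset Filter Topology

open scoped Classical

noncomputable section

namespace LSoup

/-! ### A. Loops and soups (section 0) -/

/-- spectral gap of finite sets -/
def Stmt_gap : Prop := ∀ D : Finset Z2, ∃ c : ℝ, 0 < c ∧ c ≤ 4 ∧
  ∀ f : Z2 → ℝ, 2 * |H (Ed D) f| ≤ (4 - c) * ∑ x ∈ D, f x ^ 2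

/-- number of rooted loops = trace: loop masses are traces of powers of the adjacency matrix -/
def Stmt_trace : Prop := ∀ (D : Finset Z2) (O : Finset Edge), O ⊆ Ed D → ∀ n : ℕ, 1 ≤ n →
  {l : List Z2 | IsLoopIn O l ∧ l.length = n}.Finite ∧
  (({l : List Z2 | IsLoopIn O l ∧ l.length = n}.ncard : ℝ)
    = Matrix.trace ((Matrix.of fun x y : D => if Joined O x y then (1 : ℝ) else 0) ^ n))

/-- the loop masses are finite -/
def Stmt_sum : Prop := ∀ D : Finset Z2,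
  Summable fun l : List Z2 => if IsLoopIn (Ed D) l then wt l else 0

/-- void probabilities of the soup -/
def Stmt_void : Prop := ∀ (D : Finset Z2) (a : ℝ) (A : Set (List Z2)), 0 ≤ a →
  (soup D a).real {c | ∀ l ∈ A, c l = 0}
    = Real.exp (-a * ∑' l : List Z2, if IsLoopIn (Ed D) l ∧ l ∈ A then wt l else 0)

/-- formula (0.1) -/
def Stmt_sub : Prop := ∀ (D : Finset Z2) (a : ℝ) (O : Finset Edge), 0 ≤ a → O ⊆ Ed D →
  ∑ O' ∈ O.powerset, pr D a O' = Real.exp (-a * (Ms (Ed D) - Ms O))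

/-- spatial Markov property of the soup (0.2) -/
def Stmt_mark : Prop := ∀ (D K S : Finset Z2) (a : ℝ) (g : Finset Edge → ℝ), 0 ≤ a →
  S ⊆ K → K ⊆ D →
  Ex D a (fun O => if KO D O S = K then g (O ∩ Ed (D \ K)) else 0)
    = Ex D a (fun O => if KO D O S = K then 1 else 0) * Ex (D \ K) a g

/-- disconnection in terms of the law of the open edges -/
def Stmt_dis : Prop := ∀ (D S T : Finset Z2) (a : ℝ), 0 ≤ a → S ⊆ D → T ⊆ D →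
  disP D a S T = Ex D a fun O => if Disjoint (KO D O S) T then 1 else 0

/-- adding loops of intensity `d` -/
def Stmt_haz : Prop := ∀ (D S T : Finset Z2) (t d : ℝ), 0 ≤ t → 0 ≤ d → S ⊆ D → T ⊆ D →
  disP D (t + d) S T ≤ Ex D t fun O =>
    if Disjoint (KO D O S) T then Real.exp (-d * hitM D (KO D O S) (KO D O T)) else 0

/-- monotonicity in the intensity -/
def Stmt_mono : Prop := ∀ (D : Finset Z2) (a a' : ℝ) (h : Finset Edge → ℝ), 0 ≤ a → a ≤ a' →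
  (∀ O O', O ⊆ O' → h O ≤ h O') → Ex D a h ≤ Ex D a' h

/-- sub-regions: law; measurability -/
def Stmt_reg : Prop := ∀ (D R : Finset Z2) (a : ℝ) (A : Set (Finset Edge)), 0 ≤ a → R ⊆ D →
  MeasurableSet {c : List Z2 → ℕ | openE R c ∈ A} ∧
  (soup D a).real {c | openE R c ∈ A} = (soup R a).real {c | openE R c ∈ A}

/-- events that depend on the loops in disjoint regions are independent -/
def Stmt_indep : Prop := ∀ (D R R' : Finset Z2) (a : ℝ) (E E' : Set (List Z2 → ℕ)), 0 ≤ a →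
  Disjoint R R' → MeasurableSet E → MeasurableSet E' →
  (∀ c c' : List Z2 → ℕ, (∀ l, IsLoopIn (Ed R) l → c l = c' l) → (c ∈ E ↔ c' ∈ E)) →
  (∀ c c' : List Z2 → ℕ, (∀ l, IsLoopIn (Ed R') l → c l = c' l) → (c ∈ E' ↔ c' ∈ E')) →
  (soup D a).real (E ∩ E') = (soup D a).real E * (soup D a).real E'

/-- invariance under translations and under the exchange of the coordinates -/
def Stmt_inv : Prop := ∀ (D S T : Finset Z2) (a : ℝ) (w : Z2), 0 ≤ a →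
  disP (D.image fun x => x + w) a (S.image fun x => x + w) (T.image fun x => x + w)
    = disP D a S T ∧
  disP (D.image Prod.swap) a (S.image Prod.swap) (T.image Prod.swap) = disP D a S T

/-! ### B. Gaussian facts -/

/-- integrability -/
def Stmt_int : Prop := ∀ (D : Finset Z2) (b : ℝ),
  Integrable (fun f : Z2 → ℝ => Real.exp (∑ e ∈ Ed D, Jf f e + b * ∑ x ∈ D, |f x|)) Gam ∧
  0 < Zp (Ed D)

/-- linear functionals of the field in `D` are centred Gaussian variables -/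
def Stmt_law : Prop := ∀ (D : Finset Z2) (u : Z2 → ℝ) (g : ℝ → ℝ), Measurable g →
  gff D (fun f => g (lin D u f)) = ∫ x, g x ∂gaussianReal 0 (Real.toNNReal (Cov D u u))

/-- Green function -/
def Stmt_green : Prop := ∀ (D : Finset Z2) (u : Z2 → ℝ),
  (∀ z ∈ D, lap (fun x => if x ∈ D then gff D (fun f => lin D u f * f x) else 0) z = u z) ∧
  ((∀ x, 0 ≤ u x) → ∀ z ∈ D, 0 ≤ gff D (fun f => lin D u f * f z)) ∧
  (∀ v : Z2 → ℝ, Cov D u v = ∑ x ∈ D, v x * gff D (fun f => lin D u f * f x))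

/-- Dirichlet principle (4.1) -/
def Stmt_dual : Prop := ∀ (D : Finset Z2) (u : Z2 → ℝ),
  (∀ f : Z2 → ℝ, (∀ x, x ∉ D → f x = 0) →
    (∑ x ∈ D, u x * f x) ^ 2 ≤ Cov D u u * En0 D f) ∧
  (∀ C : ℝ, 0 ≤ C → (∀ f : Z2 → ℝ, (∀ x, x ∉ D → f x = 0) →
    (∑ x ∈ D, u x * f x) ^ 2 ≤ C * En0 D f) → Cov D u u ≤ C)

/-- partition functions are exponentials of loop masses (determinants) -/
def Stmt_Z : Prop := ∀ (D : Finset Z2) (O : Finset Edge), O ⊆ Ed D →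
  Zp O = Real.exp (Ms O / 2)

/-- loops that hit two sets and canonical correlations (in 4.5) -/
def Stmt_MI : Prop := ∀ (D K K' : Finset Z2) (u v : Z2 → ℝ), K ⊆ D → K' ⊆ D → Disjoint K K' →
  (∀ x, x ∉ K → u x = 0) → (∀ x, x ∉ K' → v x = 0) →
  Cov D u v ^ 2 ≤ hitM D K K' * (Cov D u u * Cov D v v)

/-! ### C. The coupling (section 1) -/

/-- the weights of the coupling are nonnegative -/
def Stmt_Vnn : Prop := ∀ (D : Finset Z2) (f : Z2 → ℝ) (O : Finset Edge), O ⊆ Ed D →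
  0 ≤ Vc D f O

/-- law of the open edges under the coupling (Prop 1 (ii)) -/
def Stmt_cplO : Prop := ∀ (D : Finset Z2) (F : Finset Edge → ℝ),
  cpl D (fun _ O _ => F O) = Ex D (1 / 2) F

/-- the signed field is the Gaussian free field (Prop 1 (iii), (iv)) -/
def Stmt_cplG : Prop := ∀ (D : Finset Z2) (g : (Z2 → ℝ) → ℝ), Tame D g →
  cpl D (fun f O b => sav D (O ∪ b) g f) = gff D g

/-- joint law of the field and the bridged clusters (Prop 1 (iii)) -/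
def Stmt_cplB : Prop := ∀ (D : Finset Z2) (F : (Z2 → ℝ) → Finset Edge → ℝ),
  (∀ ω, Tame D fun f => F f ω) → (∀ f ω, F (fun x => |f x|) ω = F f ω) →
  cpl D (fun f O b => F f (O ∪ b)) = bri D F

/-- Markov property of the coupling (Prop 1 (v)) -/
def Stmt_cplM : Prop := ∀ (D K S : Finset Z2) (F : (Z2 → ℝ) → Finset Edge → Finset Edge → ℝ),
  S ⊆ K → K ⊆ D → (∀ O b, Tame (D \ K) fun f => F f O b) →
  cpl D (fun f O b => if KO D O S = K then F f (O ∩ Ed (D \ K)) (b ∩ Ed (D \ K)) else 0)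
    = Ex D (1 / 2) (fun O => if KO D O S = K then 1 else 0) * cpl (D \ K) F

/-- signs of clusters: (1.2) and (1.3) for one configuration; `Y = lin D y`, `X = lin D x` -/
def Stmt_sign : Prop := ∀ (D : Finset Z2) (ω : Finset Edge) (x y f : Z2 → ℝ), ω ⊆ Ed D →
  (∀ z, 0 ≤ x z) → (∀ z, 0 ≤ y z) →
  sav D ω (fun g => lin D x g * lin D y g) f
    = ∑ q ∈ D, x q * |f q| * ∑ b ∈ KO D ω {q}, y b * |f b| ∧
  ∑ q ∈ D, x q * |f q| * (∑ b ∈ KO D ω {q}, y b * |f b|) ^ 2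
    ≤ sav D ω (fun g => |lin D x g| * lin D y g ^ 2) f

/-! ### D. Capacity tail and Proposition 4 (sections 2, 3) -/

/-- mixture representation of `exp (-s |u|)` -/
def Stmt_mix : Prop := ∀ s : ℝ, 0 ≤ s → ∃ ν : Measure ℝ, IsProbabilityMeasure ν ∧
  (∀ᵐ T ∂ν, 0 ≤ T) ∧ ∀ u : ℝ, Real.exp (-s * |u|) = ∫ T, Real.exp (-T * u ^ 2 / 2) ∂ν

/-- shifted absolute values are worse -/
def Stmt_shift : Prop := ∀ (ι : Type) [Fintype ι] (A : Matrix ι ι ℝ) (s θ : ι → ℝ),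
  A.PosDef → (∀ i, 0 ≤ s i) →
  ∫ x : ι → ℝ, Real.exp (-(x ⬝ᵥ A.mulVec x) / 2) * Real.exp (-∑ i, s i * |x i - θ i|)
    ≤ ∫ x : ι → ℝ, Real.exp (-(x ⬝ᵥ A.mulVec x) / 2) * Real.exp (-∑ i, s i * |x i|)

/-- extension of a field on `D` by the boundary value `-a` -/
def ext (D : Finset Z2) (a : ℝ) (ξ : D → ℝ) (x : Z2) : ℝ := if h : x ∈ D then ξ ⟨x, h⟩ else -a

/-- the Gaussian integrals in terms of Lebesgue measure -/
def Stmt_leb : Prop := ∀ (D : Finset Z2) (g : (Z2 → ℝ) → ℝ), Measurable g → DepOn D g →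
  ∫ f, g f * Real.exp (H (Ed D) f) ∂Gam
    = Real.sqrt (2 / Real.pi) ^ D.card *
      ∫ ξ : D → ℝ, g (ext D 0 ξ) * Real.exp (-En0 D (ext D 0 ξ) / 2)

/-- the field on `C` is `s`, on `D \ C` it is `χ`, and `-a` off `D` -/
def ext2 (D C : Finset Z2) (a : ℝ) (s : C → ℝ) (χ : (D \ C : Finset Z2) → ℝ) (x : Z2) : ℝ :=
  if h : x ∈ C then s ⟨x, h⟩ else if h' : x ∈ D \ C then χ ⟨x, h'⟩ else -a

/-- outer cost of a cluster `C` -/
def cost (D C : Finset Z2) (ξ : Z2 → ℝ) : ℝ :=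
  ∑ e ∈ Ed (nbhd D 1) \ Ed C, if src e ∈ C ∨ tgt e ∈ C then (|ξ (src e)| + |ξ (tgt e)|) ^ 2
    else (ξ (src e) - ξ (tgt e)) ^ 2

/-- comparison of the outer factors -/
def Stmt_out : Prop := ∀ (D C : Finset Z2) (a c : ℝ) (s : C → ℝ), C ⊆ D → 0 ≤ a → 0 ≤ c →
  (∀ x, 0 < s x) → CapGE D C c →
  ∫ χ : (D \ C : Finset Z2) → ℝ, Real.exp (-cost D C (ext2 D C a s χ) / 2)
    ≤ Real.exp (-a ^ 2 * c / 2) *
      ∫ χ : (D \ C : Finset Z2) → ℝ, Real.exp (-cost D C (ext2 D C 0 s χ) / 2)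

/-- bridging probability given the field -/
def brP (D : Finset Z2) (ξ : Z2 → ℝ) (ω : Finset Edge) : ℝ :=
  (∏ e ∈ ω, if 0 < ξ (src e) * ξ (tgt e) then 1 - Real.exp (-2 * (ξ (src e) * ξ (tgt e))) else 0) *
  ∏ e ∈ Ed D \ ω, if 0 < ξ (src e) * ξ (tgt e) then Real.exp (-2 * (ξ (src e) * ξ (tgt e))) else 1

/-- decomposition according to the cluster of `q` -/
def Stmt_dec : Prop := ∀ (D : Finset Z2) (q : Z2) (hq : q ∈ D) (a : ℝ) (G : Finset Z2 → ℝ), 0 ≤ a →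
  ∫ ξ : D → ℝ, (∑ ω ∈ (Ed D).powerset, brP D (ext D a ξ) ω * G (KO D ω {q})) *
      (max (ξ ⟨q, hq⟩) 0 * Real.exp (-EnL (nbhd D 1) (ext D a ξ) / 2))
    = ∑ C ∈ D.powerset.filter (fun C => q ∈ C), G C *
      ∫ s : C → ℝ, (if ∀ x, 0 < s x then ext C 0 s q *
          (∑ ω ∈ (Ed C).powerset.filter (fun ω => KO C ω {q} = C), brP C (ext C 0 s) ω) *
          Real.exp (-EnL C (ext C 0 s) / 2) *
          ∫ χ : (D \ C : Finset Z2) → ℝ, Real.exp (-cost D C (ext2 D C a s χ) / 2) else 0)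

/-- Proposition 2 -/
def Stmt_cap : Prop := ∀ (D : Finset Z2) (q : Z2) (c : ℝ), q ∈ D → 0 < c →
  cpl D (fun f O b => if CapGE D (KO D (O ∪ b) {q}) c then |f q| else 0) ≤ 3 / Real.sqrt c

/-- Lemma 3 -/
def Stmt_ring : Prop := ∀ (D K C : Finset Z2) (x y q : Z2) (r : ℕ), ConnSet K → ConnSet C →
  Disjoint K D → C ⊆ D → x ∈ K → y ∈ C → q ∈ C → nrm x y ≤ 1 → r < nrm q x →
  (∃ w ∈ K, r < nrm w x) → 1 ≤ r → CapGE D C (1 / 8 * Real.log r)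

/-- Proposition 4 -/
def Stmt_P4 : Prop := ∀ (D B T : Finset Z2) (r : ℕ) (vX vY lam Lam : ℝ), B ⊆ D → ConnSet B →
  B.Nonempty → (∃ b ∈ B, ∃ b' ∈ B, 2 * r + 1 < nrm b b') → T.Nonempty → 2 ≤ r →
  0 < vX → 0 < vY → 0 < lam → 0 < Lam → Cov D (avw T) (avw T) ≤ vX →
  Cov D (avw B) (avw B) ≤ vY →
  Cov D (avw B) (avw T) ≤
    Lam * Ex D (1 / 2) (fun O => if ∃ x ∈ KO D O B, x ∈ nbhd T r then 1 else 0)
      + 5 * Real.sqrt (vX * vY) * Real.exp (-Lam / (8 * Real.sqrt (vX * vY)))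
      + lam * (9 / Real.sqrt (Real.log r)) + vY * Real.sqrt (3 * vX) / lam

/-! ### E. Potential theory (section 4) -/

/-- `K` contains `s` points in different columns, or in different rows. -/
def Wide (K : Finset Z2) (s : ℕ) : Prop :=
  ∃ S ⊆ K, S.card = s ∧ (Set.InjOn Prod.fst (S : Set Z2) ∨ Set.InjOn Prod.snd (S : Set Z2))

/-- (4.2) -/
def Stmt_col : Prop := ∀ (z : Z2) (p : ℕ) (S : Finset Z2) (f : Z2 → ℝ), S ⊆ bx z p →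
  S.Nonempty → (Set.InjOn Prod.fst (S : Set Z2) ∨ Set.InjOn Prod.snd (S : Set Z2)) →
  |av S f - av (bx z p) f| ≤ (1 + Real.sqrt (2 * p / S.card)) * Real.sqrt (EnL (bx z p) f)

/-- (4.2) for tiles -/
def Stmt_colT : Prop := ∀ (z w : Z2) (p r : ℕ) (f : Z2 → ℝ), tile r w ⊆ bx z p → 1 ≤ r →
  |av (tile r w) f - av (bx z p) f| ≤ (1 + Real.sqrt (2 * p / r)) * Real.sqrt (EnL (bx z p) f)

/-- energies and summation by parts -/
def Stmt_en : Prop := ∀ (D : Finset Z2) (f : Z2 → ℝ), (∀ x, x ∉ D → f x = 0) →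
  (∀ L : Finset Z2, EnL L f ≤ En0 D f) ∧ En0 D f = EnL (nbhd D 1) f ∧
  En0 D f = ∑ x ∈ D, f x * lap f x ∧
  ∀ (D' : Finset Z2) (g : Z2 → ℝ), (∀ x, x ∉ D' → g x = 0) →
    ∑ x ∈ D', lap f x * g x = ∑ x ∈ D, f x * lap g x

/-- (4.3) -/
def Stmt_log : Prop := ∀ (z : Z2) (p P : ℕ), 1 ≤ p → Real.exp 1 * p ≤ P →
  ∃ f : Z2 → ℝ, (∀ x, nrm x z ≤ p → f x = 1) ∧ (∀ x, P ≤ nrm x z → f x = 0) ∧
    En0 (bx z P) f ≤ 24 / Real.log (P / p)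

/-- (4.4) -/
def Stmt_cross : Prop := ∀ (K : Finset Z2) (z : Z2) (p q : ℕ), ConnSet K → p ≤ q →
  (∃ x ∈ K, nrm x z ≤ p) → (∃ x ∈ K, q ≤ nrm x z) →
  Wide (K.filter fun x => p ≤ nrm x z ∧ nrm x z ≤ q) (q - p)

/-- (4.5) -/
def Stmt_mass : Prop := ∀ (z : Z2) (r M : ℕ) (K K' : Finset Z2), 1 ≤ r →
  5760 ≤ Real.log (M / 20) → Wide K (2 * r) → Wide K' (2 * r) → K ⊆ bx z (10 * r) →
  K' ⊆ bx z (18 * r) → (∀ x ∈ K', 16 * r ≤ nrm x z) → 1 / 2 ≤ hitM (bx z (M * r)) K K'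

/-- (4.7) -/
def Stmt_v : Prop := ∃ cv : ℝ, 0 < cv ∧ ∃ n0 : ℕ, ∀ n ≥ n0, ∃ v : Z2 → ℝ,
  (∀ z, 0 ≤ v z) ∧ (∀ z, v z ≤ 1) ∧ (∀ z, z ∉ Rm n → v z = 0) ∧
  (∀ z, z ∉ Qn n → lap v z ≤ 0) ∧ ∀ z ∈ Bn n, cv ≤ v z

/-- (4.8) -/
def Stmt_cut : Prop := ∀ (A : Finset Z2) (r : ℕ), 1 ≤ r → ∃ χ : Z2 → ℝ,
  (∀ z, 0 ≤ χ z) ∧ (∀ z, χ z ≤ 1) ∧ (∀ z ∈ A, χ z = 1) ∧
  (∀ z, z ∉ nbhd A (4 * r) → χ z = 0 ∧ lap χ z = 0) ∧ ∀ z, |lap χ z| ≤ 8 / (r : ℝ) ^ 2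

/-- (4.9) in terms of tiles -/
def Stmt_flux : Prop := ∃ c1 : ℝ, 0 < c1 ∧ ∃ n0 : ℕ, ∀ n ≥ n0, ∀ r : ℕ, 1 ≤ r →
  ∀ K : Finset Z2, K ⊆ Rn n → Qn n ⊆ K → Disjoint K (Bn n) →
  Disjoint (Bn n) (nbhd (K ∩ Rm n) (4 * r)) →
  c1 ≤ ∑ z ∈ tiles n r K, Cov (Rn n \ K) (avw (Bn n)) (avw (tile r z))

/-- (4.10) -/
def Stmt_varY : Prop := ∀ (n : ℕ) (D : Finset Z2), 1 ≤ n → D ⊆ Rn n →
  Cov D (avw (Bn n)) (avw (Bn n)) ≤ 20

/-- (4.11) -/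
def Stmt_varX : Prop := ∀ (D K : Finset Z2) (z : Z2) (r : ℕ), 1 ≤ r → ConnSet K → Disjoint K D →
  (∃ x ∈ K, nrm x (r * z.1, r * z.2) ≤ 5 * r) → (∃ x ∈ K, 10 * r ≤ nrm x (r * z.1, r * z.2)) →
  Cov D (avw (tile r z)) (avw (tile r z)) ≤ 200

/-! ### F. Sections 5 and 6 -/

/-- number of tiles and their geometry -/
def Stmt_tiles : Prop := ∀ (n k : ℕ) (K : Finset Z2), 10 ≤ k → 2 ^ k ≤ n → K ⊆ Rn n →
  ((tiles n (rk n k) K).card : ℝ) ≤ 5000 * 4 ^ k ∧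
  (∀ z ∈ tiles n (rk n k) K, ∃ x ∈ K ∩ Rm n,
    nrm x ((rk n k : ℤ) * z.1, (rk n k : ℤ) * z.2) ≤ 5 * rk n k) ∧
  (∀ x ∈ nbhd (K ∩ Rm n) (4 * rk n k), ∃ z ∈ tiles n (rk n k) K, x ∈ tile (rk n k) z)

/-- Proposition 5 -/
def Stmt_P5 : Prop := ∃ c3 : ℝ, 0 < c3 ∧ ∃ k1 : ℕ, 1 ≤ k1 ∧ ∀ k0 : ℕ, ∃ n0 : ℕ, ∀ n ≥ n0,
  ∀ K : Finset Z2, ConnSet K → Qn n ⊆ K → K ⊆ Rn n → Disjoint K (Bn n) →
  ∀ k : ℕ, k1 ≤ k → k ≤ k0 →
  c3 / k ≤ Ex (Rn n \ K) (1 / 2)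
    fun O => (Hk n (rk n k) K (KO (Rn n \ K) O (Bn n)) : ℝ)

/-- Lemma 6 -/
def Stmt_L6 : Prop := ∃ c2 : ℝ, 0 < c2 ∧ ∃ k2 : ℕ, ∀ k0 : ℕ, ∃ n0 : ℕ, ∀ n ≥ n0,
  ∀ K K' : Finset Z2, ConnSet K → ConnSet K' → Qn n ⊆ K → Bn n ⊆ K' → K ⊆ Rn n → K' ⊆ Rn n →
  Disjoint K K' → ∀ k1 : ℕ, k2 ≤ k1 →
  c2 * ∑ k ∈ Finset.Icc k1 k0, (Hk n (rk n k) K K' : ℝ) ≤ hitM (Rn n) K K'

/-- clusters -/
def Stmt_KO : Prop := ∀ (D Q B : Finset Z2) (O : Finset Edge), O ⊆ Ed D → Q ⊆ D → B ⊆ D →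
  (ConnSet Q → Q.Nonempty → ConnSet (KO D O Q)) ∧ Q ⊆ KO D O Q ∧
  (Disjoint (KO D O Q) B →
    KO D O B = KO (D \ KO D O Q) (O ∩ Ed (D \ KO D O Q)) B) ∧
  (∀ O', O ⊆ O' → KO D O Q ⊆ KO D O' Q) ∧ (∀ n, ConnSet (Qn n) ∧ ConnSet (Bn n))

/-- Theorem 7 -/
def Stmt_T7 : Prop := ∀ t : ℝ, 0 < t →
  Tendsto (fun n : ℕ => disP (Rn n) (1 / 2 + t) (Qn n) (Bn n)) atTop (𝓝 0)

/-! ### G. Section 7 -/

/-- (7.1): vertex sets of a left-right and of a bottom-top path meet -/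
def Stmt_plane : Prop := ∀ (a b c d : ℤ) (O O' : Finset Edge) (x x' y y' : Z2),
  O ⊆ Ed (Finset.Icc a b ×ˢ Finset.Icc c d) → O' ⊆ Ed (Finset.Icc a b ×ˢ Finset.Icc c d) →
  Conn O x x' → Conn O' y y' → x.1 = a → x'.1 = b → y.2 = c → y'.2 = d →
  x ∈ Finset.Icc a b ×ˢ Finset.Icc c d → y ∈ Finset.Icc a b ×ˢ Finset.Icc c d →
  ∃ z : Z2, Conn O x z ∧ Conn O' y z

/-- horizontal rectangle number `i` of the tube at `w` (`L = 8 n`) -/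
def hsh (n : ℕ) (w : Z2) (i : ℕ) : Z2 := (w.1 + 16 * n * i, w.2 + 16 * n)

/-- vertical rectangle number `i` of the tube at `w` -/
def vsh (n : ℕ) (w : Z2) (i : ℕ) : Z2 := (w.1 + 16 * n * i + 24 * n, w.2)

def hR (n : ℕ) (w : Z2) : Finset Z2 := (Rn n).image fun x => x + w

def vR (n : ℕ) (w : Z2) : Finset Z2 := ((Rn n).image Prod.swap).image fun x => x + w

/-- the rectangle at `w` (horizontal) is good -/
def hgood (n : ℕ) (w : Z2) (c : List Z2 → ℕ) : Prop :=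
  ∃ x ∈ (Qn n).image fun x => x + w, ∃ y ∈ (Bn n).image fun x => x + w,
    Conn (openE (hR n w) c) x y

/-- the rectangle at `w` (vertical) is good -/
def vgood (n : ℕ) (w : Z2) (c : List Z2 → ℕ) : Prop :=
  ∃ x ∈ ((Qn n).image Prod.swap).image fun x => x + w,
    ∃ y ∈ ((Bn n).image Prod.swap).image fun x => x + w, Conn (openE (vR n w) c) x y

/-- all open edges inside the rectangles of a tube -/
def tubeE (n : ℕ) (w : Z2) (I : ℕ) (c : List Z2 → ℕ) : Finset Edge :=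
  ((Finset.range (I + 1)).biUnion fun i => openE (hR n (hsh n w i)) c) ∪
    (Finset.range I).biUnion fun i => openE (vR n (vsh n w i)) c

/-- gluing along a tube -/
def Stmt_tube : Prop := ∀ (n : ℕ) (w : Z2) (I : ℕ) (c : List Z2 → ℕ), 1 ≤ n →
  (∀ i ≤ I, hgood n (hsh n w i) c) → (∀ i < I, vgood n (vsh n w i) c) →
  ∃ x ∈ (Qn n).image fun x => x + hsh n w 0, ∃ y ∈ (Bn n).image fun x => x + hsh n w I,
    Conn (tubeE n w I c) x y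

/-- (7.2) -/
def Stmt_rec : Prop := ∀ (a : ℝ) (n : ℕ), 0 ≤ a → 1 ≤ n →
  disP (Rn (48 * n)) a (Qn (48 * n)) (Bn (48 * n)) ≤ (200 * disP (Rn n) a (Qn n) (Bn n)) ^ 2

/-- doubly exponential decay -/
def Stmt_decay : Prop := ∀ a : ℝ, 1 / 2 < a → ∃ n0 : ℕ, 1 ≤ n0 ∧ ∀ j : ℕ,
  disP (Rn (48 ^ j * n0)) a (Qn (48 ^ j * n0)) (Bn (48 ^ j * n0)) ≤ (1 / 2 : ℝ) ^ (2 ^ j)

end LSoup
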