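import Pool.Agent.LSoup.Stmts

/-!
Frozen statements of the auxiliary modules.
-/

open MeasureTheory ProbabilityTheory Finset Filter Topology

open scoped Classical

noncomputable section

namespace LSoup

/-- the law of the open edges: nonnegative weights, total mass one, measurability -/
def Stmt_prob : Prop := ∀ (D : Finset Z2) (a : ℝ), 0 ≤ a →
  (∀ A : Set (Finset Edge), MeasurableSet {c : List Z2 → ℕ | openE D c ∈ A}) ∧
  (∀ O, 0 ≤ pr D a O) ∧ ∑ O ∈ (Ed D).powerset, pr D a O = 1 ∧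
  ∀ F : Set (Finset Edge), (soup D a).real {c | openE D c ∈ F} =
    Ex D a fun O => if O ∈ F then 1 else 0

/-- the open set at intensity `t + d` is the union of independent open sets at `t` and `d` -/
def Stmt_conv : Prop := ∀ (D : Finset Z2) (t d : ℝ) (F : Finset Edge → ℝ), 0 ≤ t → 0 ≤ d →
  Ex D (t + d) F = ∑ O ∈ (Ed D).powerset, ∑ O' ∈ (Ed D).powerset,
    pr D t O * pr D d O' * F (O ∪ O')

/-- adjacency matrix -/
def adjM (D : Finset Z2) (O : Finset Edge) : Matrix D D ℝ :=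
  Matrix.of fun x y => if Joined O x y then 1 else 0

/-- loop masses and determinants -/
def Stmt_detL : Prop := ∀ (D : Finset Z2) (O : Finset Edge), O ⊆ Ed D →
  0 < (1 - (1 / 4 : ℝ) • adjM D O).det ∧ Real.log (1 - (1 / 4 : ℝ) • adjM D O).det = -Ms O

/-- Gaussian integrals and determinants -/
def Stmt_detG : Prop := ∀ (D : Finset Z2) (O : Finset Edge), O ⊆ Ed D →
  Zp O = 1 / Real.sqrt (1 - (1 / 4 : ℝ) • adjM D O).det

/-- Dirichlet problem -/
def Stmt_solve : Prop := ∀ (D : Finset Z2) (u : Z2 → ℝ), ∃ w : Z2 → ℝ, (∀ x, x ∉ D → w x = 0) ∧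
  (∀ z ∈ D, lap w z = u z) ∧ ((∀ x, 0 ≤ u x) → ∀ z, 0 ≤ w z)

/-- law of the linear functional with coefficients `lap w` -/
def Stmt_law2 : Prop := ∀ (D : Finset Z2) (w : Z2 → ℝ) (g : ℝ → ℝ), (∀ x, x ∉ D → w x = 0) →
  Measurable g → gff D (fun f => g (lin D (lap w) f))
    = ∫ x, g x ∂gaussianReal 0 (Real.toNNReal (∑ x ∈ D, lap w x * w x))

/-- loops that hit two sets, in terms of loop masses -/
def Stmt_incl : Prop := ∀ D K K' : Finset Z2, K ⊆ D → K' ⊆ D →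
  hitM D K K' = Ms (Ed D) - Ms (Ed (D \ K)) - Ms (Ed (D \ K')) + Ms (Ed (D \ (K ∪ K')))

/-- the logarithmic gain in one infinitesimal step (proof of Theorem 7): for fixed `n`, if every
scale contributes, then the disconnection probability decreases -/
def Stmt_step : Prop := ∀ (n k1 k0 : ℕ) (c2 c3 : ℝ), 1 ≤ n → 0 ≤ c2 → 0 ≤ c3 →
  (∀ K : Finset Z2, ConnSet K → Qn n ⊆ K → K ⊆ Rn n → Disjoint K (Bn n) →
    ∀ k ∈ Finset.Icc k1 k0, c3 / k ≤ Ex (Rn n \ K) (1 / 2)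
      fun O => (Hk n (rk n k) K (KO (Rn n \ K) O (Bn n)) : ℝ)) →
  (∀ K K' : Finset Z2, ConnSet K → ConnSet K' → Qn n ⊆ K → Bn n ⊆ K' → K ⊆ Rn n → K' ⊆ Rn n →
    Disjoint K K' →
    c2 * ∑ k ∈ Finset.Icc k1 k0, (Hk n (rk n k) K K' : ℝ) ≤ hitM (Rn n) K K') →
  ∀ t : ℝ, 0 ≤ t → disP (Rn n) (1 / 2 + t) (Qn n) (Bn n)
    ≤ Real.exp (-t * (c2 * c3 * ∑ k ∈ Finset.Icc k1 k0, (1 : ℝ) / k))

end LSoup
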