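import Mathlib
import Pool.Agent.LSoup.Stmts
import Pool.Agent.LSoup.Stmts2

/-!
# Random walk loop soup: Proposition 5 (many near-contacts in expectation)
-/

open MeasureTheory ProbabilityTheory Finset Filter Topology

open scoped Classical

noncomputable section

namespace LSoup

lemma p5_Ex_sum (D : Finset Z2) (a : ℝ) (Z : Finset Z2) (F : Z2 → Finset Edge → ℝ) :
    Ex D a (fun O => ∑ z ∈ Z, F z O) = ∑ z ∈ Z, Ex D a (F z) := by
  unfold Ex
  rw [Finset.sum_comm]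
  refine Finset.sum_congr rfl fun O _ => ?_
  rw [Finset.mul_sum]

lemma p5_Hk (n r : ℕ) (K K' : Finset Z2) : (Hk n r K K' : ℝ)
    = ∑ z ∈ tiles n r K, if ∃ x ∈ K', x ∈ nbhd (tile r z) r then (1 : ℝ) else 0 := by
  unfold Hk
  rw [Finset.card_filter]
  push_cast
  rfl

lemma p5_mem_bx_self (x : Z2) (r : ℕ) : x ∈ bx x r := by
  unfold bx
  rw [Finset.mem_product, Finset.mem_Icc, Finset.mem_Icc]
  refine ⟨⟨?_, ?_⟩, ⟨?_, ?_⟩⟩ <;> omega

lemma p5_mem_tile (x : Z2) (r : ℕ) (hr : 1 ≤ r) : x ∈ tile r (x.1 / (r : ℤ), x.2 / (r : ℤ)) := by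
  have hr0 : (0 : ℤ) < r := by exact_mod_cast hr
  unfold tile
  rw [Finset.mem_product, Finset.mem_Icc, Finset.mem_Icc]
  have h1 := Int.emod_add_mul_ediv x.1 r
  have h2 := Int.emod_add_mul_ediv x.2 r
  have h3 := Int.emod_nonneg x.1 hr0.ne'
  have h4 := Int.emod_nonneg x.2 hr0.ne'
  have h5 := Int.emod_lt_of_pos x.1 hr0
  have h6 := Int.emod_lt_of_pos x.2 hr0
  refine ⟨⟨?_, ?_⟩, ⟨?_, ?_⟩⟩ <;> simp only [] <;> linarith

lemma p5_tile_nonempty (r : ℕ) (z : Z2) (hr : 1 ≤ r) : (tile r z).Nonempty := by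
  have hr0 : (1 : ℤ) ≤ r := by exact_mod_cast hr
  refine ⟨(r * z.1, r * z.2), ?_⟩
  unfold tile
  rw [Finset.mem_product, Finset.mem_Icc, Finset.mem_Icc]
  refine ⟨⟨?_, ?_⟩, ⟨?_, ?_⟩⟩ <;> simp only [] <;> linarith

lemma p5_Bn_sub (n : ℕ) (hn : 1 ≤ n) : Bn n ⊆ Rn n := by
  intro x hx
  unfold Bn at hx
  unfold Rn
  rw [Finset.mem_product, Finset.mem_Icc, Finset.mem_Icc] at hx ⊢
  have hn' : (1 : ℤ) ≤ n := by exact_mod_cast hn
  obtain ⟨⟨h1, h2⟩, h3, h4⟩ := hx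
  refine ⟨⟨?_, ?_⟩, ⟨?_, ?_⟩⟩ <;> linarith

lemma p5_mem_Bn1 (n : ℕ) : ((35 * n : ℤ), (3 * n : ℤ)) ∈ Bn n := by
  unfold Bn
  rw [Finset.mem_product, Finset.mem_Icc, Finset.mem_Icc]
  refine ⟨⟨?_, ?_⟩, ⟨?_, ?_⟩⟩ <;> simp only [] <;> omega

lemma p5_mem_Bn2 (n : ℕ) : ((37 * n : ℤ), (3 * n : ℤ)) ∈ Bn n := by
  unfold Bn
  rw [Finset.mem_product, Finset.mem_Icc, Finset.mem_Icc]
  refine ⟨⟨?_, ?_⟩, ⟨?_, ?_⟩⟩ <;> simp only [] <;> omega

lemma p5_mem_Qn1 (n : ℕ) : ((3 * n : ℤ), (3 * n : ℤ)) ∈ Qn n := by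
  unfold Qn
  simp only [Finset.mem_product, Finset.mem_Icc]
  refine ⟨⟨?_, ?_⟩, ⟨?_, ?_⟩⟩ <;> omega

lemma p5_mem_Qn2 (n : ℕ) : ((5 * n : ℤ), (3 * n : ℤ)) ∈ Qn n := by
  unfold Qn
  rw [Finset.mem_product, Finset.mem_Icc, Finset.mem_Icc]
  refine ⟨⟨?_, ?_⟩, ⟨?_, ?_⟩⟩ <;> simp only [] <;> omega

/-- a point of `K` far from the tile -/
lemma p5_far (n r : ℕ) (K : Finset Z2) (hQ : Qn n ⊆ K) (hr : 10 * r ≤ n) (w : Z2) :
    ∃ x ∈ K, 10 * r ≤ nrm x w := by
  by_cases h : 10 * r ≤ nrm ((3 * n : ℤ), (3 * n : ℤ)) w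
  · exact ⟨_, hQ (p5_mem_Qn1 n), h⟩
  · refine ⟨_, hQ (p5_mem_Qn2 n), ?_⟩
    unfold nrm at h ⊢
    simp only [] at h ⊢
    omega

/-- Proposition 5 -/
theorem P5 (h1 : Stmt_P4) (h2 : Stmt_flux) (h3 : Stmt_varY) (h4 : Stmt_varX) (h5 : Stmt_tiles)
    (h6 : Stmt_prob) (h7 : Stmt_KO) : Stmt_P5 := by
  obtain ⟨c1, hc1, nf, hflux⟩ := h2
  set s : ℝ := Real.sqrt (200 * 20) with hs
  have hs0 : 0 < s := Real.sqrt_pos.mpr (by norm_num)
  set A : ℝ := Real.log 4 + |Real.log (c1 / (100000 * s))| with hA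
  have hA0 : 0 < A := add_pos_of_pos_of_nonneg (Real.log_pos (by norm_num)) (abs_nonneg _)
  set C : ℝ := 8 * s * A with hC
  have hC0 : 0 < C := by positivity
  refine ⟨min 1 (c1 / (2 * C)), by positivity, 10, by norm_num, ?_⟩
  intro k0
  -- constants depending on k0
  set δ : ℝ := c1 / (40000 * 4 ^ k0) with hδ
  have hδ0 : 0 < δ := by positivity
  set lam : ℝ := 20 * Real.sqrt (3 * 200) / δ with hlam
  have hlam0 : 0 < lam := by
    have : 0 < Real.sqrt (3 * 200) := Real.sqrt_pos.mpr (by norm_num)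
    positivity
  obtain ⟨R0, hR0⟩ := exists_nat_ge (Real.exp ((9 * lam / δ) ^ 2))
  refine ⟨max nf (2 ^ k0 * (R0 + 2)), ?_⟩
  intro n hn K hK hQK hKR hKB k hk1 hk0
  have hnf : nf ≤ n := (le_max_left _ _).trans hn
  have hnk : 2 ^ k0 * (R0 + 2) ≤ n := (le_max_right _ _).trans hn
  set r : ℕ := rk n k with hr
  have hpow : 2 ^ k ≤ 2 ^ k0 := Nat.pow_le_pow_right (by norm_num) hk0
  have hrR : R0 + 2 ≤ r := by
    rw [hr]
    unfold rk
    rw [Nat.le_div_iff_mul_le (by positivity)]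
    calc (R0 + 2) * 2 ^ k ≤ (R0 + 2) * 2 ^ k0 := Nat.mul_le_mul_left _ hpow
      _ = 2 ^ k0 * (R0 + 2) := by ring
      _ ≤ n := hnk
  have hr2 : 2 ≤ r := by omega
  have hr1 : 1 ≤ r := by omega
  have h2k : 2 ^ k ≤ n := by
    calc 2 ^ k ≤ 2 ^ k0 * 1 := by rw [mul_one]; exact hpow
      _ ≤ 2 ^ k0 * (R0 + 2) := Nat.mul_le_mul_left _ (by omega)
      _ ≤ n := hnk
  have h1024 : 1024 * r ≤ n := by
    have h8 : r * 2 ^ k ≤ n := Nat.div_mul_le_self n (2 ^ k)
    have h9 : (1024 : ℕ) ≤ 2 ^ k := by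
      calc (1024 : ℕ) = 2 ^ 10 := by norm_num
        _ ≤ 2 ^ k := Nat.pow_le_pow_right (by norm_num) hk1
    calc 1024 * r ≤ 2 ^ k * r := Nat.mul_le_mul_right _ h9
      _ = r * 2 ^ k := by ring
      _ ≤ n := h8
  have hn1 : 1 ≤ n := by omega
  have hkpos : (0 : ℝ) < k := by
    have : 0 < k := by omega
    exact_mod_cast this
  have hk1' : (1 : ℝ) ≤ k := by
    have : 1 ≤ k := by omega
    exact_mod_cast this
  set D : Finset Z2 := Rn n \ K with hD
  have hDR : D ⊆ Rn n := Finset.sdiff_subset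
  have hKD : Disjoint K D := Finset.disjoint_sdiff
  have hBD : Bn n ⊆ D := by
    intro x hx
    rw [hD, Finset.mem_sdiff]
    exact ⟨p5_Bn_sub n hn1 hx, fun hxK => (Finset.disjoint_left.mp hKB) hxK hx⟩
  obtain ⟨-, hprnn, hprsum, -⟩ := h6 D (1 / 2) (by norm_num)
  have hBO : ∀ O ∈ (Ed D).powerset, Bn n ⊆ KO D O (Bn n) := by
    intro O hO
    exact (h7 D (Bn n) (Bn n) O (Finset.mem_powerset.mp hO) hBD hBD).2.1
  by_cases hdis : Disjoint (Bn n) (nbhd (K ∩ Rm n) (4 * r))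
  swap
  · -- first case
    rw [Finset.not_disjoint_iff] at hdis
    obtain ⟨b, hb, hbn⟩ := hdis
    have hzt : (b.1 / (r : ℤ), b.2 / (r : ℤ)) ∈ tiles n r K := by
      unfold tiles
      exact Finset.mem_image.mpr ⟨b, hbn, rfl⟩
    have hone : ∀ O ∈ (Ed D).powerset, (1 : ℝ) ≤ (Hk n r K (KO D O (Bn n)) : ℝ) := by
      intro O hO
      have h8 : 0 < Hk n r K (KO D O (Bn n)) := by
        unfold Hk
        rw [Finset.card_pos]
        refine ⟨_, Finset.mem_filter.mpr ⟨hzt, b, hBO O hO hb, ?_⟩⟩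
        unfold nbhd
        rw [Finset.mem_biUnion]
        exact ⟨b, p5_mem_tile b r hr1, p5_mem_bx_self b r⟩
      exact_mod_cast h8
    calc min 1 (c1 / (2 * C)) / (k : ℝ) ≤ 1 / (k : ℝ) := by
          gcongr; exact min_le_left _ _
      _ ≤ 1 := by rw [div_le_one hkpos]; exact hk1'
      _ = ∑ O ∈ (Ed D).powerset, pr D (1 / 2) O * 1 := by rw [← Finset.sum_mul, hprsum, one_mul]
      _ ≤ Ex D (1 / 2) fun O => (Hk n r K (KO D O (Bn n)) : ℝ) := by
          unfold Ex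
          exact Finset.sum_le_sum fun O hO => mul_le_mul_of_nonneg_left (hone O hO) (hprnn O)
  · -- second case
    have hsum := hflux n hnf r hr1 K hKR hQK hKB hdis
    obtain ⟨hcard, hgeo, -⟩ := h5 n k K hk1 h2k hKR
    set P : Z2 → ℝ := fun z => Ex D (1 / 2) (fun O =>
      if ∃ x ∈ KO D O (Bn n), x ∈ nbhd (tile r z) r then 1 else 0) with hP
    set Lam : ℝ := C * k with hLam
    have hLam0 : 0 < Lam := by positivity
    -- the error terms
    have hE1 : 5 * s * Real.exp (-Lam / (8 * s)) ≤ c1 / (20000 * 4 ^ k) := by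
      have h8 : -Lam / (8 * s) = -(A * k) := by
        rw [hLam, hC]; field_simp
      have h9 : Real.exp (-(A * k)) ≤ (1 / 4 ^ k) * (c1 / (100000 * s)) := by
        have h10 : Real.exp (-(Real.log 4 * k)) = 1 / 4 ^ k := by
          rw [Real.exp_neg, mul_comm, Real.exp_nat_mul, Real.exp_log (by norm_num), one_div]
        have h11 : Real.exp (-(|Real.log (c1 / (100000 * s))| * k)) ≤ c1 / (100000 * s) := by
          have h12 : 0 < c1 / (100000 * s) := by positivity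
          calc Real.exp (-(|Real.log (c1 / (100000 * s))| * k))
              ≤ Real.exp (Real.log (c1 / (100000 * s))) := by
                apply Real.exp_le_exp.mpr
                have h13 : -|Real.log (c1 / (100000 * s))| ≤ Real.log (c1 / (100000 * s)) :=
                  neg_abs_le _
                have h14 : |Real.log (c1 / (100000 * s))|
                    ≤ |Real.log (c1 / (100000 * s))| * k :=
                  le_mul_of_one_le_right (abs_nonneg _) hk1'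
                linarith
            _ = c1 / (100000 * s) := Real.exp_log h12
        calc Real.exp (-(A * k)) = Real.exp (-(Real.log 4 * k)) *
              Real.exp (-(|Real.log (c1 / (100000 * s))| * k)) := by
              rw [← Real.exp_add, hA]; congr 1; ring
          _ ≤ (1 / 4 ^ k) * (c1 / (100000 * s)) := by rw [h10]; gcongr
      rw [h8]
      calc 5 * s * Real.exp (-(A * k)) ≤ 5 * s * ((1 / 4 ^ k) * (c1 / (100000 * s))) := by gcongr
        _ = c1 / (20000 * 4 ^ k) := by field_simp; norm_num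
    have hrexp : Real.exp ((9 * lam / δ) ^ 2) ≤ (r : ℝ) := by
      refine hR0.trans ?_
      have : R0 ≤ r := by omega
      exact_mod_cast this
    have hlog : (9 * lam / δ) ^ 2 ≤ Real.log r := by
      rw [Real.le_log_iff_exp_le (by exact_mod_cast hr1)]
      exact hrexp
    have hsq : 9 * lam / δ ≤ Real.sqrt (Real.log r) :=
      Real.le_sqrt_of_sq_le hlog
    have h9pos : 0 < 9 * lam / δ := by positivity
    have hsq0 : 0 < Real.sqrt (Real.log r) := lt_of_lt_of_le h9pos hsq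
    have hE2 : lam * (9 / Real.sqrt (Real.log r)) ≤ δ := by
      rw [← mul_div_assoc, div_le_iff₀ hsq0]
      have h8 : δ * (9 * lam / δ) = lam * 9 := by field_simp
      calc lam * 9 = δ * (9 * lam / δ) := h8.symm
        _ ≤ δ * Real.sqrt (Real.log r) := by gcongr
    have hE3 : 20 * Real.sqrt (3 * 200) / lam = δ := by
      have : 0 < Real.sqrt (3 * 200) := Real.sqrt_pos.mpr (by norm_num)
      rw [hlam]; field_simp
    have hδk : δ ≤ c1 / (40000 * 4 ^ k) := by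
      rw [hδ]
      have h4 : (4 : ℝ) ^ k ≤ 4 ^ k0 := pow_le_pow_right₀ (by norm_num) hk0
      gcongr
    -- one tile
    have htile : ∀ z ∈ tiles n r K, Cov D (avw (Bn n)) (avw (tile r z))
        ≤ Lam * P z + c1 / (10000 * 4 ^ k) := by
      intro z hz
      obtain ⟨x, hxK, hx⟩ := hgeo z hz
      have hvX : Cov D (avw (tile r z)) (avw (tile r z)) ≤ 200 :=
        h4 D K z r hr1 hK hKD ⟨x, (Finset.mem_inter.mp hxK).1, hx⟩
          (p5_far n r K hQK (by omega) _)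
      have hvY : Cov D (avw (Bn n)) (avw (Bn n)) ≤ 20 := h3 n D hn1 hDR
      have h8 := h1 D (Bn n) (tile r z) r 200 20 lam Lam hBD
        ((h7 ∅ ∅ ∅ ∅ (by simp) (by simp) (by simp)).2.2.2.2 n).2 ⟨_, p5_mem_Bn1 n⟩
        ⟨_, p5_mem_Bn1 n, _, p5_mem_Bn2 n, by unfold nrm; simp only []; omega⟩
        (p5_tile_nonempty r z hr1) hr2 (by norm_num) (by norm_num) hlam0 hLam0 hvX hvY
      rw [← hs] at h8
      change Cov D (avw (Bn n)) (avw (tile r z)) ≤ Lam * P z + 5 * s * Real.exp (-Lam / (8 * s))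
        + lam * (9 / Real.sqrt (Real.log r)) + 20 * Real.sqrt (3 * 200) / lam at h8
      have h9 : c1 / (20000 * 4 ^ k) + c1 / (40000 * 4 ^ k) + c1 / (40000 * 4 ^ k)
          = c1 / (10000 * 4 ^ k) := by field_simp; norm_num
      rw [hE3] at h8
      linarith
    have htot : c1 ≤ Lam * ∑ z ∈ tiles n r K, P z + c1 / 2 := by
      calc c1 ≤ ∑ z ∈ tiles n r K, Cov D (avw (Bn n)) (avw (tile r z)) := hsum
        _ ≤ ∑ z ∈ tiles n r K, (Lam * P z + c1 / (10000 * 4 ^ k)) := Finset.sum_le_sum htile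
        _ = Lam * ∑ z ∈ tiles n r K, P z + (tiles n r K).card * (c1 / (10000 * 4 ^ k)) := by
            rw [Finset.sum_add_distrib, Finset.mul_sum, Finset.sum_const, nsmul_eq_mul]
        _ ≤ Lam * ∑ z ∈ tiles n r K, P z + (5000 * 4 ^ k) * (c1 / (10000 * 4 ^ k)) := by
            gcongr
        _ = Lam * ∑ z ∈ tiles n r K, P z + c1 / 2 := by
            congr 1; field_simp; norm_num
    have hEx : Ex D (1 / 2) (fun O => (Hk n r K (KO D O (Bn n)) : ℝ))
        = ∑ z ∈ tiles n r K, P z := by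
      rw [hP, ← p5_Ex_sum]
      congr 1
      funext O
      exact p5_Hk n r K _
    rw [hEx]
    calc min 1 (c1 / (2 * C)) / (k : ℝ) ≤ (c1 / (2 * C)) / (k : ℝ) := by
          gcongr; exact min_le_right _ _
      _ = c1 / 2 / Lam := by rw [hLam]; field_simp
      _ ≤ ∑ z ∈ tiles n r K, P z := by
          rw [div_le_iff₀ hLam0]
          linarith

end LSoup
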