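import Pool.Agent.LSoup.Final
import Pool.Agent.LSoup.Stmts2

/-!
# The open edges of the Poisson point process of continuous time loops
-/

open MeasureTheory ProbabilityTheory Finset Filter Topology

open scoped Classical ENNReal

noncomputable section

namespace LSoup

/-! ### The integral over the holding times -/

theorem ppp_exp {S : ℝ} (hS : 0 < S) :
    ∫⁻ s in Set.Ioi (0 : ℝ), ENNReal.ofReal (Real.exp (-(4 + s) * S))
      = ENNReal.ofReal (Real.exp (-4 * S) / S) := by
  have hd : ∀ x ∈ Set.Ici (0 : ℝ), HasDerivAt (fun s : ℝ => -(Real.exp (-(4 + s) * S) / S))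
      (Real.exp (-(4 + x) * S)) x := by
    intro x _
    have h1 : HasDerivAt (fun s : ℝ => -(4 + s) * S) (-1 * S) x :=
      ((hasDerivAt_id x).const_add 4).neg.mul_const S
    have h2 : HasDerivAt (fun s : ℝ => -(Real.exp (-(4 + s) * S) / S))
        (-(Real.exp (-(4 + x) * S) * (-1 * S) / S)) x := (h1.exp.div_const S).neg
    refine h2.congr_deriv ?_
    field_simp
  have hpos : ∀ x ∈ Set.Ioi (0 : ℝ), 0 ≤ Real.exp (-(4 + x) * S) := fun x _ => (Real.exp_pos _).le
  have hlim : Tendsto (fun s : ℝ => -(Real.exp (-(4 + s) * S) / S)) atTop (𝓝 (-(0 / S))) := by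
    refine ((Real.tendsto_exp_atBot.comp ?_).div_const S).neg
    have h3 : Tendsto (fun s : ℝ => (4 + s) * S) atTop atTop :=
      (tendsto_atTop_add_const_left atTop 4 tendsto_id).atTop_mul_const hS
    have h4 : (fun s : ℝ => -(4 + s) * S) = fun s => -((4 + s) * S) := by
      funext s; ring
    rw [h4]
    exact tendsto_neg_atTop_atBot.comp h3
  have e1 := integral_Ioi_of_hasDerivAt_of_nonneg' hd hpos hlim
  have e2 := integrableOn_Ioi_deriv_of_nonneg' hd hpos hlim
  rw [← ofReal_integral_eq_lintegral_ofReal e2 (Eventually.of_forall fun x => (Real.exp_pos _).le),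
    e1]
  congr 1
  simp

theorem ppp_pow {n : ℕ} (hn : 1 ≤ n) :
    ∫⁻ s in Set.Ioi (0 : ℝ), ENNReal.ofReal ((1 / (4 + s)) ^ (n + 1))
      = ENNReal.ofReal ((1 / 4) ^ n / n) := by
  have hn0 : (n : ℝ) ≠ 0 := by positivity
  have hd : ∀ x ∈ Set.Ici (0 : ℝ), HasDerivAt (fun s : ℝ => -((1 / (4 + s)) ^ n / n))
      ((1 / (4 + x)) ^ (n + 1)) x := by
    intro x hx
    have hx' : (0 : ℝ) ≤ x := hx
    have h4 : 4 + x ≠ 0 := by positivity
    have h1 : HasDerivAt (fun s : ℝ => (4 + s)⁻¹) (-1 / (4 + x) ^ 2) x := by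
      exact ((hasDerivAt_id x).const_add 4).inv h4
    have h2 : HasDerivAt (fun s : ℝ => -(((4 + s)⁻¹) ^ n / n))
        (-((n : ℝ) * ((4 + x)⁻¹) ^ (n - 1) * (-1 / (4 + x) ^ 2) / n)) x :=
      ((h1.pow n).div_const (n : ℝ)).neg
    simp only [one_div]
    refine h2.congr_deriv ?_
    obtain ⟨m, rfl⟩ := Nat.exists_eq_add_of_le' hn
    have h5 : ((4 + x)⁻¹) ^ (m + 1 + 1) = ((4 + x)⁻¹) ^ m * ((4 + x)⁻¹) ^ 2 := by ring
    rw [Nat.add_sub_cancel, h5]
    field_simp
  have hpos : ∀ x ∈ Set.Ioi (0 : ℝ), 0 ≤ (1 / (4 + x)) ^ (n + 1) := by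
    intro x hx
    have hx' : (0 : ℝ) < x := hx
    positivity
  have hlim : Tendsto (fun s : ℝ => -((1 / (4 + s)) ^ n / n)) atTop (𝓝 (-(0 ^ n / n))) := by
    refine ((Tendsto.pow ?_ n).div_const (n : ℝ)).neg
    simp only [one_div]
    exact tendsto_inv_atTop_zero.comp (tendsto_atTop_add_const_left atTop 4 tendsto_id)
  have e1 := integral_Ioi_of_hasDerivAt_of_nonneg' hd hpos hlim
  have e2 := integrableOn_Ioi_deriv_of_nonneg' hd hpos hlim
  rw [← ofReal_integral_eq_lintegral_ofReal e2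
    ((ae_restrict_iff' measurableSet_Ioi).mpr (Eventually.of_forall hpos)), e1]
  congr 1
  rw [zero_pow (by omega)]
  simp

theorem ppp_prod (n : ℕ) {s : ℝ} (hs : 0 < s) :
    ∫⁻ h : Fin (n + 1) → ℝ, (Set.indicator {h : Fin (n + 1) → ℝ | ∀ i, 0 < h i}
      (fun h => ENNReal.ofReal (Real.exp (-(4 + s) * ∑ i, h i)))) h
      = ENNReal.ofReal ((1 / (4 + s)) ^ (n + 1)) := by
  have h4 : 0 < 4 + s := by positivity
  set f : ℝ → ℝ := Set.indicator (Set.Ioi 0) (fun t => Real.exp (-(4 + s) * t)) with hf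
  have hint : Integrable f volume := by
    rw [hf, integrable_indicator_iff measurableSet_Ioi]
    exact integrableOn_exp_mul_Ioi (by linarith) 0
  have hval : ∫ t, f t = 1 / (4 + s) := by
    rw [hf, integral_indicator measurableSet_Ioi, integral_exp_mul_Ioi (by linarith) 0, mul_zero,
      Real.exp_zero, neg_div_neg_eq]
  have hprod : Integrable (fun h : Fin (n + 1) → ℝ => ∏ i, f (h i)) volume :=
    Integrable.fintype_prod (f := fun _ => f) fun _ => hint
  have hnn : ∀ t, 0 ≤ f t := fun t => Set.indicator_nonneg (fun _ _ => (Real.exp_pos _).le) t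
  have h1 : ∀ h : Fin (n + 1) → ℝ, (Set.indicator {h : Fin (n + 1) → ℝ | ∀ i, 0 < h i}
      (fun h => ENNReal.ofReal (Real.exp (-(4 + s) * ∑ i, h i)))) h
      = ENNReal.ofReal (∏ i, f (h i)) := by
    intro h
    by_cases hh : ∀ i, 0 < h i
    · rw [Set.indicator_of_mem (show h ∈ {h : Fin (n + 1) → ℝ | ∀ i, 0 < h i} from hh)]
      congr 1
      rw [Finset.mul_sum, Real.exp_sum]
      refine Finset.prod_congr rfl fun i _ => ?_
      rw [hf, Set.indicator_of_mem (show h i ∈ Set.Ioi (0 : ℝ) from hh i)]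
    · rw [Set.indicator_of_notMem (show h ∉ {h : Fin (n + 1) → ℝ | ∀ i, 0 < h i} from hh)]
      push Not at hh
      obtain ⟨i, hi⟩ := hh
      rw [Finset.prod_eq_zero (Finset.mem_univ i), ENNReal.ofReal_zero]
      rw [hf, Set.indicator_of_notMem]
      exact not_lt.mpr hi
  simp_rw [h1]
  rw [← ofReal_integral_eq_lintegral_ofReal hprod
    (Eventually.of_forall fun h => Finset.prod_nonneg fun i _ => hnn _),
    integral_fintype_prod_volume_eq_pow, hval, Fintype.card_fin]

/-- the mass of the holding times -/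
theorem ppp_H {n : ℕ} (hn : 1 ≤ n) :
    ((volume.restrict {h : Fin (n + 1) → ℝ | ∀ i, 0 < h i}).withDensity fun h =>
        ENNReal.ofReal (Real.exp (-4 * ∑ i, h i) / ∑ i, h i)) Set.univ
      = ENNReal.ofReal ((1 / 4) ^ n / n) := by
  have hm : MeasurableSet {h : Fin (n + 1) → ℝ | ∀ i, 0 < h i} := by
    rw [Set.ofPred_forall]
    exact MeasurableSet.iInter fun i => measurableSet_lt measurable_const (measurable_pi_apply i)
  rw [withDensity_apply _ MeasurableSet.univ, Measure.restrict_univ]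
  have h1 : ∀ h ∈ {h : Fin (n + 1) → ℝ | ∀ i, 0 < h i},
      ENNReal.ofReal (Real.exp (-4 * ∑ i, h i) / ∑ i, h i)
        = ∫⁻ s in Set.Ioi (0 : ℝ), ENNReal.ofReal (Real.exp (-(4 + s) * ∑ i, h i)) := by
    intro h hh
    rw [ppp_exp]
    exact Finset.sum_pos (fun i _ => hh i) Finset.univ_nonempty
  rw [setLIntegral_congr_fun hm h1, ← lintegral_indicator hm]
  have h2 : ∀ h : Fin (n + 1) → ℝ, (Set.indicator {h : Fin (n + 1) → ℝ | ∀ i, 0 < h i}
      (fun h => ∫⁻ s in Set.Ioi (0 : ℝ), ENNReal.ofReal (Real.exp (-(4 + s) * ∑ i, h i)))) h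
      = ∫⁻ s in Set.Ioi (0 : ℝ), (Set.indicator {h : Fin (n + 1) → ℝ | ∀ i, 0 < h i}
      (fun h => ENNReal.ofReal (Real.exp (-(4 + s) * ∑ i, h i)))) h := by
    intro h
    by_cases hh : h ∈ {h : Fin (n + 1) → ℝ | ∀ i, 0 < h i}
    · simp only [Set.indicator_of_mem hh]
    · simp only [Set.indicator_of_notMem hh, lintegral_zero]
  simp_rw [h2]
  rw [lintegral_lintegral_swap]
  · rw [← ppp_pow hn]
    exact setLIntegral_congr_fun measurableSet_Ioi fun s hs => ppp_prod n hs
  · apply Measurable.aemeasurable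
    have h3 : (Function.uncurry fun (h : Fin (n + 1) → ℝ) (s : ℝ) =>
        (Set.indicator {h : Fin (n + 1) → ℝ | ∀ i, 0 < h i}
          (fun h => ENNReal.ofReal (Real.exp (-(4 + s) * ∑ i, h i)))) h)
        = Set.indicator (Prod.fst ⁻¹' {h : Fin (n + 1) → ℝ | ∀ i, 0 < h i})
          (fun p : (Fin (n + 1) → ℝ) × ℝ =>
            ENNReal.ofReal (Real.exp (-(4 + p.2) * ∑ i, p.1 i))) := by
      funext p
      rfl
    rw [h3]
    refine Measurable.indicator ?_ (measurable_fst hm)
    refine ENNReal.measurable_ofReal.comp (Real.measurable_exp.comp ?_)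
    refine ((measurable_snd.const_add 4).neg).mul ?_
    exact Finset.measurable_sum _ fun i _ => (measurable_pi_apply i).comp measurable_fst

/-! ### Skeletons and rooted loops -/

theorem ppp_joined (D : Finset Z2) (x y : Z2) :
    Joined (Ed D) x y ↔ x ∈ D ∧ y ∈ D ∧ Nb x y := by
  obtain ⟨x1, x2⟩ := x
  obtain ⟨y1, y2⟩ := y
  constructor
  · rintro ⟨⟨⟨e1, e2⟩, b⟩, he, h⟩
    rw [Ed, Finset.mem_filter, Finset.mem_product] at he
    obtain ⟨⟨he1, -⟩, he2⟩ := he
    cases b
    · simp only [src, tgt, Bool.false_eq_true, if_false, Prod.mk.injEq] at h he1 he2 ⊢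
      rcases h with ⟨⟨rfl, rfl⟩, rfl, rfl⟩ | ⟨⟨rfl, rfl⟩, rfl, rfl⟩
      · refine ⟨he1, he2, ?_⟩
        simp [Nb]
      · refine ⟨he2, he1, ?_⟩
        simp [Nb]
    · simp only [src, tgt, if_true, Prod.mk.injEq] at h he1 he2 ⊢
      rcases h with ⟨⟨rfl, rfl⟩, rfl, rfl⟩ | ⟨⟨rfl, rfl⟩, rfl, rfl⟩
      · refine ⟨he1, he2, ?_⟩
        simp [Nb]
      · refine ⟨he2, he1, ?_⟩
        simp [Nb]
  · rintro ⟨hx, hy, h⟩
    have h' : |x1 - y1| + |x2 - y2| = 1 := h
    have h1 : (y1 = x1 + 1 ∧ y2 = x2) ∨ (x1 = y1 + 1 ∧ y2 = x2) ∨ (y2 = x2 + 1 ∧ y1 = x1) ∨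
        (x2 = y2 + 1 ∧ y1 = x1) := by
      rcases abs_cases (x1 - y1) with ⟨a1, a2⟩ | ⟨a1, a2⟩ <;>
        rcases abs_cases (x2 - y2) with ⟨b1, b2⟩ | ⟨b1, b2⟩ <;> omega
    rcases h1 with ⟨rfl, rfl⟩ | ⟨rfl, rfl⟩ | ⟨rfl, rfl⟩ | ⟨rfl, rfl⟩
    · refine ⟨((x1, y2), true), ?_, Or.inl ⟨rfl, rfl⟩⟩
      rw [Ed, Finset.mem_filter, Finset.mem_product]
      exact ⟨⟨hx, Finset.mem_univ _⟩, hy⟩
    · refine ⟨((y1, y2), true), ?_, Or.inr ⟨rfl, rfl⟩⟩
      rw [Ed, Finset.mem_filter, Finset.mem_product]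
      exact ⟨⟨hy, Finset.mem_univ _⟩, hx⟩
    · refine ⟨((y1, x2), false), ?_, Or.inl ⟨rfl, rfl⟩⟩
      rw [Ed, Finset.mem_filter, Finset.mem_product]
      exact ⟨⟨hx, Finset.mem_univ _⟩, hy⟩
    · refine ⟨((y1, y2), false), ?_, Or.inr ⟨rfl, rfl⟩⟩
      rw [Ed, Finset.mem_filter, Finset.mem_product]
      exact ⟨⟨hy, Finset.mem_univ _⟩, hx⟩

/-- an edge is determined by its two ends -/
theorem ppp_edge_unique (e e' : Edge)
    (h : (src e = src e' ∧ tgt e = tgt e') ∨ (src e = tgt e' ∧ tgt e = src e')) : e = e' := by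
  obtain ⟨⟨a, b⟩, c⟩ := e
  obtain ⟨⟨a', b'⟩, c'⟩ := e'
  cases c <;> cases c' <;> simp [src, tgt] at h ⊢ <;> omega

theorem ppp_joined_iff {D : Finset Z2} {O : Finset Edge} {x y : Z2}
    (h : Joined (Ed D) x y) :
    Joined O x y ↔ ¬ ∃ e ∈ Ed D \ O, (x = src e ∧ y = tgt e) ∨ (x = tgt e ∧ y = src e) := by
  constructor
  · rintro ⟨e', he', h'⟩ ⟨e, he, h1⟩
    rw [Finset.mem_sdiff] at he
    apply he.2
    have : e = e' := by
      apply ppp_edge_unique
      rcases h' with ⟨rfl, rfl⟩ | ⟨rfl, rfl⟩ <;> rcases h1 with ⟨h2, h3⟩ | ⟨h2, h3⟩ <;>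
        simp [h2, h3]
    rwa [this]
  · intro hn
    obtain ⟨e, he, h1⟩ := h
    refine ⟨e, ?_, h1⟩
    by_contra hc
    apply hn
    refine ⟨e, Finset.mem_sdiff.mpr ⟨he, hc⟩, ?_⟩
    rcases h1 with ⟨rfl, rfl⟩ | ⟨rfl, rfl⟩
    · exact Or.inl ⟨rfl, rfl⟩
    · exact Or.inr ⟨rfl, rfl⟩

/-- the positions of the list `l`, closed up -/
def ppsi (l : List Z2) : Σ n : ℕ, (Fin (n + 1) → Z2) :=
  ⟨l.length, fun i => (l ++ l.take 1).getD i 0⟩

theorem ppsi_injective : Function.Injective ppsi := by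
  intro l l' h
  have h1 : l.length = l'.length := congrArg Sigma.fst h
  have h2 : ∀ i : ℕ, i < l.length → l.getD i 0 = l'.getD i 0 := by
    intro i hi
    have h3 : ∀ (p q : Σ n : ℕ, (Fin (n + 1) → Z2)), p = q → ∀ (hp : i < p.1 + 1)
        (hq : i < q.1 + 1), p.2 ⟨i, hp⟩ = q.2 ⟨i, hq⟩ := by
      rintro p q rfl hp hq
      rfl
    have h4 := h3 _ _ h (by show i < l.length + 1; omega) (by show i < l'.length + 1; omega)
    have h5 : (l ++ l.take 1).getD i 0 = (l' ++ l'.take 1).getD i 0 := h4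
    rwa [List.getD_append _ _ _ _ hi, List.getD_append _ _ _ _ (h1 ▸ hi)] at h5
  apply List.ext_getElem h1
  intro i hi hi'
  have h6 := h2 i hi
  rwa [List.getD_eq_getElem _ _ hi, List.getD_eq_getElem _ _ hi'] at h6

theorem ppsi_eq (l : List Z2) (p : Σ n : ℕ, (Fin (n + 1) → Z2)) (h1 : l.length = p.1)
    (h2 : ∀ i (hi : i < p.1 + 1), (l ++ l.take 1).getD i 0 = p.2 ⟨i, hi⟩) : ppsi l = p := by
  obtain ⟨n, x⟩ := p
  have h1' : l.length = n := h1
  subst h1'
  unfold ppsi
  congr 1
  funext i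
  exact h2 i i.2

theorem ppp_len {l : List Z2} (hl : l ≠ []) : (l ++ l.take 1).length = l.length + 1 := by
  obtain ⟨a, t, rfl⟩ := List.exists_cons_of_ne_nil hl
  simp

theorem ppp_last {l : List Z2} (hl : l ≠ []) :
    (l ++ l.take 1).getD l.length 0 = (l ++ l.take 1).getD 0 0 := by
  obtain ⟨a, t, rfl⟩ := List.exists_cons_of_ne_nil hl
  simp

theorem ppp_loop {O : Finset Edge} {l : List Z2} (hl : l ≠ []) :
    IsLoopIn O l ↔ ∀ i : Fin l.length,
      Joined O ((ppsi l).2 (Fin.castSucc i)) ((ppsi l).2 (Fin.succ i)) := by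
  unfold IsLoopIn
  rw [List.isChain_iff_getElem]
  have h1 := ppp_len hl
  have key : ∀ i (hi : i + 1 < (l ++ l.take 1).length),
      (l ++ l.take 1)[i] = (l ++ l.take 1).getD i 0 ∧
      (l ++ l.take 1)[i + 1] = (l ++ l.take 1).getD (i + 1) 0 := by
    intro i hi
    rw [List.getD_eq_getElem _ _ (by omega), List.getD_eq_getElem _ _ hi]
    exact ⟨rfl, rfl⟩
  constructor
  · rintro ⟨-, h⟩ i
    have hi : (i : ℕ) + 1 < (l ++ l.take 1).length := by
      rw [h1]
      have := i.2
      omega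
    have h2 := h i hi
    rw [(key i hi).1, (key i hi).2] at h2
    exact h2
  · intro h
    refine ⟨hl, fun i hi => ?_⟩
    rw [(key i hi).1, (key i hi).2]
    exact h ⟨i, by omega⟩

theorem ppp_skel {D : Finset Z2} {l : List Z2} (hl : l ≠ []) :
    IsSkel D l.length (ppsi l).2 ↔ IsLoopIn (Ed D) l := by
  rw [ppp_loop hl]
  have hpos : 0 < l.length := List.length_pos_of_ne_nil hl
  constructor
  · rintro ⟨h1, h2, h3⟩ i
    rw [ppp_joined]
    exact ⟨h2 _, h2 _, h3 i⟩
  · intro h
    have h0 : ∀ i : Fin l.length, (ppsi l).2 (Fin.castSucc i) ∈ D := fun i =>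
      ((ppp_joined D _ _).mp (h i)).1
    have hlast : (ppsi l).2 (Fin.last l.length) = (ppsi l).2 0 := ppp_last hl
    refine ⟨hlast, fun i => ?_, fun i => ((ppp_joined D _ _).mp (h i)).2.2⟩
    induction i using Fin.lastCases with
    | last =>
      have h4 : (ppsi l).2 (Fin.last l.length) ∈ D := by
        rw [hlast]
        exact h0 ⟨0, hpos⟩
      exact h4
    | cast i => exact h0 i

theorem ppp_range {D : Finset Z2} {n : ℕ} (hn : 1 ≤ n) {x : Fin (n + 1) → Z2}
    (hx : IsSkel D n x) : (⟨n, x⟩ : Σ n : ℕ, (Fin (n + 1) → Z2)) ∈ Set.range ppsi := by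
  refine ⟨List.ofFn fun i : Fin n => x i.castSucc, ppsi_eq _ _ (List.length_ofFn) ?_⟩
  intro i hi
  show _ = x ⟨i, hi⟩
  have hi' : i < n + 1 := hi
  rcases Nat.lt_or_ge i n with h | h
  · rw [List.getD_append _ _ _ _ (by rw [List.length_ofFn]; exact h),
      List.getD_eq_getElem _ _ (by rw [List.length_ofFn]; exact h), List.getElem_ofFn]
    rfl
  · have hin : i = n := by omega
    subst hin
    have hne : (List.ofFn fun j : Fin i => x j.castSucc) ≠ [] := by
      intro h0
      have := congrArg List.length h0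
      rw [List.length_ofFn] at this
      simp at this
      omega
    have h2 := ppp_last hne
    rw [List.length_ofFn] at h2
    rw [h2, List.getD_append _ _ _ _ (by rw [List.length_ofFn]; omega),
      List.getD_eq_getElem _ _ (by rw [List.length_ofFn]; omega), List.getElem_ofFn]
    exact hx.1.symm

/-- the loops that cross an edge of `E` -/
def crossU (E : Finset Edge) : Set Loop := ⋃ e ∈ E, Crosses (src e) (tgt e)

/-- the same for skeletons -/
def crossX (E : Finset Edge) (n : ℕ) (x : Fin (n + 1) → Z2) : Prop :=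
  ∃ e ∈ E, ∃ i : Fin n, (x i.castSucc = src e ∧ x i.succ = tgt e) ∨
    (x i.castSucc = tgt e ∧ x i.succ = src e)

theorem crossU_pre (E : Finset Edge) (n : ℕ) :
    (Sigma.mk (β := fun n : ℕ => (Fin (n + 1) → Z2) × (Fin (n + 1) → ℝ)) n) ⁻¹' crossU E
      = {x | crossX E n x} ×ˢ (Set.univ : Set (Fin (n + 1) → ℝ)) := by
  ext ⟨x, h⟩
  simp only [crossU, Set.mem_preimage, Set.mem_iUnion, Crosses, Set.mem_ofPred_eq, Set.mem_prod,
    Set.mem_univ, and_true, crossX, exists_prop]

theorem crosses_pre (a b : Z2) (n : ℕ) :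
    (Sigma.mk (β := fun n : ℕ => (Fin (n + 1) → Z2) × (Fin (n + 1) → ℝ)) n) ⁻¹' Crosses a b
      = {x | ∃ i : Fin n, (x i.castSucc = a ∧ x i.succ = b) ∨ (x i.castSucc = b ∧ x i.succ = a)}
        ×ˢ (Set.univ : Set (Fin (n + 1) → ℝ)) := by
  ext ⟨x, h⟩
  simp only [Set.mem_preimage, Crosses, Set.mem_ofPred_eq, Set.mem_prod, Set.mem_univ, and_true]

theorem crosses_meas (a b : Z2) : MeasurableSet (Crosses a b) := by
  refine MeasurableSpace.measurableSet_iInf.2 fun n => ?_
  show MeasurableSet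
    ((Sigma.mk (β := fun n : ℕ => (Fin (n + 1) → Z2) × (Fin (n + 1) → ℝ)) n) ⁻¹' Crosses a b)
  rw [crosses_pre]
  exact (Set.Countable.measurableSet (Set.to_countable _)).prod MeasurableSet.univ

theorem crossU_meas (E : Finset Edge) : MeasurableSet (crossU E) :=
  Finset.measurableSet_biUnion _ fun _ _ => crosses_meas _ _

theorem sigmaMk_meas (n : ℕ) :
    Measurable (Sigma.mk (β := fun n : ℕ => (Fin (n + 1) → Z2) × (Fin (n + 1) → ℝ)) n) := by
  intro s hs
  exact MeasurableSpace.measurableSet_iInf.1 hs n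

/-- mass of the loops that cross an edge of `Ed D \ O` -/
theorem loopMeasure_crossU (hs : Stmt_sum) {D : Finset Z2} {O : Finset Edge} (hO : O ⊆ Ed D) :
    loopMeasure D (crossU (Ed D \ O)) = ENNReal.ofReal (Ms (Ed D) - Ms O) := by
  have hsum := hs D
  set E := Ed D \ O with hE
  -- the mass as a sum over skeletons
  set F : (Σ n : ℕ, (Fin (n + 1) → Z2)) → ℝ≥0∞ := fun p =>
    if IsSkel D p.1 p.2 ∧ crossX E p.1 p.2 then ENNReal.ofReal ((1 / 4) ^ p.1 / p.1) else 0 with hF
  have h1 : loopMeasure D (crossU E) = ∑' p : (Σ n : ℕ, (Fin (n + 1) → Z2)), F p := by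
    rw [ENNReal.tsum_sigma', loopMeasure, Measure.sum_apply _ (crossU_meas E)]
    refine tsum_congr fun n => ?_
    rw [Measure.map_apply (sigmaMk_meas n) (crossU_meas E), crossU_pre, Measure.prod_prod]
    have hcm : ∀ s : Set (Fin (n + 1) → Z2), MeasurableSet s := fun s =>
      Set.Countable.measurableSet (Set.to_countable s)
    rw [Measure.restrict_apply (hcm _)]
    rcases Nat.eq_zero_or_pos n with rfl | hn
    · have h2 : {x : Fin (0 + 1) → Z2 | crossX E 0 x} = ∅ := by
        ext x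
        simp only [Set.mem_ofPred_eq, Set.mem_empty_iff_false, iff_false]
        rintro ⟨e, _, i, _⟩
        exact i.elim0
      rw [h2, Set.empty_inter, measure_empty, zero_mul]
      symm
      rw [ENNReal.tsum_eq_zero]
      intro x
      rw [hF]
      show (if _ then _ else _) = _
      rw [if_neg]
      rintro ⟨_, e, _, i, _⟩
      exact i.elim0
    · rw [ppp_H hn]
      have h3 : ∀ x : Fin (n + 1) → Z2, F ⟨n, x⟩ =
          Set.indicator ({x | crossX E n x} ∩ {x | IsSkel D n x})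
            (fun _ => ENNReal.ofReal ((1 / 4) ^ n / n)) x := by
        intro x
        show (if IsSkel D n x ∧ crossX E n x then ENNReal.ofReal ((1 / 4) ^ n / n) else 0) = _
        by_cases hc : IsSkel D n x ∧ crossX E n x
        · rw [if_pos hc, Set.indicator_of_mem]
          exact ⟨hc.2, hc.1⟩
        · rw [if_neg hc, Set.indicator_of_notMem]
          exact fun h => hc ⟨h.2, h.1⟩
      simp_rw [h3]
      rw [← MeasureTheory.lintegral_count, lintegral_indicator (hcm _), setLIntegral_const, mul_comm]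
  have h2 : Function.support F ⊆ Set.range ppsi := by
    rintro ⟨n, x⟩ hx
    rw [Function.mem_support, hF] at hx
    have h3 : IsSkel D n x ∧ crossX E n x := by
      by_contra hc
      apply hx
      show (if _ then _ else _) = _
      rw [if_neg hc]
    rcases Nat.eq_zero_or_pos n with rfl | hn
    · obtain ⟨_, e, _, i, _⟩ := h3
      exact i.elim0
    · exact ppp_range hn h3.1
  rw [h1, ← ppsi_injective.tsum_eq h2]
  have h3 : ∀ l : List Z2, F (ppsi l) = ENNReal.ofReal
      ((if IsLoopIn (Ed D) l then wt l else 0) - (if IsLoopIn O l then wt l else 0)) := by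
    intro l
    by_cases hl : l = []
    · subst hl
      have a1 : ∀ O' : Finset Edge, ¬ IsLoopIn O' [] := fun O' h => h.1 rfl
      rw [if_neg (a1 _), if_neg (a1 _), sub_zero, ENNReal.ofReal_zero, hF]
      show (if _ then _ else _) = _
      rw [if_neg]
      rintro ⟨_, e, _, i, _⟩
      exact i.elim0
    have hsk := ppp_skel (D := D) hl
    rw [hF]
    show (if IsSkel D l.length (ppsi l).2 ∧ crossX E l.length (ppsi l).2 then
      ENNReal.ofReal ((1 / 4) ^ l.length / l.length) else 0) = _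
    by_cases hD : IsLoopIn (Ed D) l
    · have hj := (ppp_loop hl).mp hD
      have hx : crossX E l.length (ppsi l).2 ↔ ¬ IsLoopIn O l := by
        rw [ppp_loop hl]
        constructor
        · rintro ⟨e, he, i, hi⟩ hall
          exact (ppp_joined_iff (hj i)).mp (hall i) ⟨e, he, hi⟩
        · intro hn
          push Not at hn
          obtain ⟨i, hi⟩ := hn
          rw [ppp_joined_iff (hj i), not_not] at hi
          obtain ⟨e, he, h⟩ := hi
          exact ⟨e, he, i, h⟩
      rw [hsk, hx, if_pos hD]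
      by_cases hOl : IsLoopIn O l
      · rw [if_neg (fun h => h.2 hOl), if_pos hOl, sub_self, ENNReal.ofReal_zero]
      · rw [if_pos ⟨hD, hOl⟩, if_neg hOl, sub_zero]
        rfl
    · have hOl : ¬ IsLoopIn O l := by
        intro h
        apply hD
        refine ⟨h.1, h.2.imp fun a b hab => ?_⟩
        obtain ⟨e, he, h'⟩ := hab
        exact ⟨e, hO he, h'⟩
      rw [hsk, if_neg (fun h => hD h.1), if_neg hD, if_neg hOl, sub_zero, ENNReal.ofReal_zero]
  have hwt : ∀ l, 0 ≤ wt l := fun l => by unfold wt; positivity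
  have himp : ∀ l, IsLoopIn O l → IsLoopIn (Ed D) l := by
    intro l h
    refine ⟨h.1, h.2.imp fun a b hab => ?_⟩
    obtain ⟨e, he, h'⟩ := hab
    exact ⟨e, hO he, h'⟩
  have hsumO : Summable fun l : List Z2 => if IsLoopIn O l then wt l else 0 := by
    refine Summable.of_nonneg_of_le (fun l => ?_) (fun l => ?_) hsum
    · split_ifs
      · exact hwt l
      · exact le_rfl
    · by_cases h : IsLoopIn O l
      · rw [if_pos h, if_pos (himp l h)]
      · rw [if_neg h]
        split_ifs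
        · exact hwt l
        · exact le_rfl
  simp_rw [h3]
  rw [Ms, Ms, ← hsum.tsum_sub hsumO, ENNReal.ofReal_tsum_of_nonneg _ (hsum.sub hsumO)]
  intro l
  by_cases h : IsLoopIn O l
  · rw [if_pos h, if_pos (himp l h), sub_self]
  · rw [if_neg h, sub_zero]
    split_ifs
    · exact hwt l
    · exact le_rfl

/-! ### The law of the open edges -/

theorem Ms_sub_nonneg (hs : Stmt_sum) {D : Finset Z2} {O : Finset Edge} (hO : O ⊆ Ed D) :
    0 ≤ Ms (Ed D) - Ms O := by
  have hsum := hs D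
  have hwt : ∀ l, 0 ≤ wt l := fun l => by unfold wt; positivity
  have himp : ∀ l, IsLoopIn O l → IsLoopIn (Ed D) l := by
    intro l h
    refine ⟨h.1, h.2.imp fun a b hab => ?_⟩
    obtain ⟨e, he, h'⟩ := hab
    exact ⟨e, hO he, h'⟩
  have hle : ∀ l : List Z2, (if IsLoopIn O l then wt l else 0)
      ≤ (if IsLoopIn (Ed D) l then wt l else 0) := by
    intro l
    by_cases h : IsLoopIn O l
    · rw [if_pos h, if_pos (himp l h)]
    · rw [if_neg h]
      split_ifs
      · exact hwt l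
      · exact le_rfl
  have hsumO : Summable fun l : List Z2 => if IsLoopIn O l then wt l else 0 := by
    refine Summable.of_nonneg_of_le (fun l => ?_) hle hsum
    split_ifs
    · exact hwt l
    · exact le_rfl
  rw [Ms, Ms, sub_nonneg]
  exact hsumO.tsum_le_tsum hle hsum

theorem ppp_mobius (U : Finset Edge) (q q' : Finset Edge → ℝ)
    (h : ∀ O ⊆ U, ∑ O' ∈ O.powerset, q O' = ∑ O' ∈ O.powerset, q' O') :
    ∀ O ⊆ U, q O = q' O := by
  intro O
  induction O using Finset.strongInduction with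
  | H O ih =>
    intro hO
    have h1 := h O hO
    have hmem : O ∈ O.powerset := Finset.mem_powerset_self O
    rw [← Finset.add_sum_erase _ _ hmem, ← Finset.add_sum_erase _ _ hmem] at h1
    have h2 : ∑ x ∈ O.powerset.erase O, q x = ∑ x ∈ O.powerset.erase O, q' x := by
      refine Finset.sum_congr rfl fun x hx => ?_
      rw [Finset.mem_erase, Finset.mem_powerset] at hx
      exact ih x (Finset.ssubset_iff_subset_ne.mpr ⟨hx.2, hx.1⟩) (hx.2.trans hO)
    linarith

theorem ppp_fin {Ω : Type} [MeasurableSpace Ω] (P : Measure Ω) [IsProbabilityMeasure P]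
    (U : Finset Edge) (X : Ω → Finset Edge) (hX : ∀ ω, X ω ⊆ U)
    (hm : ∀ O, MeasurableSet {ω | X ω = O}) (S : Set (Finset Edge)) :
    P.real {ω | X ω ∈ S} = ∑ O ∈ U.powerset, if O ∈ S then P.real {ω | X ω = O} else 0 := by
  have h1 : {ω | X ω ∈ S} = ⋃ O ∈ U.powerset.filter (fun O => O ∈ S), {ω | X ω = O} := by
    ext ω
    simp only [Set.mem_ofPred_eq, Set.mem_iUnion, Finset.mem_filter, Finset.mem_powerset,
      exists_prop, exists_eq_right']
    exact ⟨fun h => ⟨hX ω, h⟩, fun h => h.2⟩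
  rw [h1, measureReal_biUnion_finset, Finset.sum_filter]
  · intro O _ O' _ hne
    rw [Function.onFun, Set.disjoint_left]
    intro ω h2 h3
    exact hne (h2.symm.trans h3)
  · intro O _
    exact hm O

/-- module H1 -/
theorem ppp (hs : Stmt_sum) (hp : Stmt_prob) (hsub : Stmt_sub) : Stmt_ppp := by
  intro D a Ω mΩ P L S ha hP hL
  set X : Ω → Finset Edge := fun ω =>
    (Ed D).filter (fun e => L ω (Crosses (src e) (tgt e)) ≠ 0) with hX
  have hXU : ∀ ω, X ω ⊆ Ed D := fun ω => Finset.filter_subset _ _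
  have hXm : ∀ O, MeasurableSet {ω | X ω = O} := by
    intro O
    by_cases hO : O ⊆ Ed D
    · have h1 : {ω | X ω = O} = ⋂ e ∈ Ed D,
          {ω | L ω (Crosses (src e) (tgt e)) ≠ 0 ↔ e ∈ O} := by
        ext ω
        simp only [Set.mem_ofPred_eq, Set.mem_iInter]
        constructor
        · intro h e he
          rw [← h, hX, Finset.mem_filter]
          exact ⟨fun h2 => ⟨he, h2⟩, fun h2 => h2.2⟩
        · intro h
          ext e
          rw [hX, Finset.mem_filter]
          constructor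
          · rintro ⟨h2, h3⟩
            exact (h e h2).mp h3
          · intro h2
            exact ⟨hO h2, (h e (hO h2)).mpr h2⟩
      rw [h1]
      refine Finset.measurableSet_biInter _ fun e _ => ?_
      have hm := hL.meas _ (crosses_meas (src e) (tgt e))
      by_cases he : e ∈ O
      · have h2 : {ω | L ω (Crosses (src e) (tgt e)) ≠ 0 ↔ e ∈ O}
            = {ω | L ω (Crosses (src e) (tgt e)) = 0}ᶜ := by
          ext ω
          simp [he]
        rw [h2]
        exact (hm (measurableSet_singleton 0)).compl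
      · have h2 : {ω | L ω (Crosses (src e) (tgt e)) ≠ 0 ↔ e ∈ O}
            = {ω | L ω (Crosses (src e) (tgt e)) = 0} := by
          ext ω
          simp [he]
        rw [h2]
        exact hm (measurableSet_singleton 0)
    · have h1 : {ω | X ω = O} = ∅ := by
        ext ω
        simp only [Set.mem_ofPred_eq, Set.mem_empty_iff_false, iff_false]
        intro h
        exact hO (h ▸ hXU ω)
      rw [h1]
      exact MeasurableSet.empty
  have hle : ∀ O ⊆ Ed D, P.real {ω | X ω ⊆ O} = Real.exp (-a * (Ms (Ed D) - Ms O)) := by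
    intro O hO
    have hν : (ENNReal.ofReal a • loopMeasure D) (crossU (Ed D \ O))
        = ENNReal.ofReal (a * (Ms (Ed D) - Ms O)) := by
      rw [Measure.smul_apply, loopMeasure_crossU hs hO, smul_eq_mul, ← ENNReal.ofReal_mul ha]
    have h1 : {ω | X ω ⊆ O} = (fun ω => L ω (crossU (Ed D \ O))) ⁻¹' {0} := by
      ext ω
      simp only [Set.mem_ofPred_eq, Set.mem_preimage, Set.mem_singleton_iff, crossU]
      have hb := measure_biUnion_null_iff (μ := L ω) (s := fun e => Crosses (src e) (tgt e))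
        (Finset.countable_toSet (Ed D \ O))
      simp only [Finset.mem_coe] at hb
      rw [hb]
      constructor
      · intro h e he
        rw [Finset.mem_sdiff] at he
        by_contra hne
        exact he.2 (h (Finset.mem_filter.mpr ⟨he.1, hne⟩))
      · intro h e he
        rw [hX, Finset.mem_filter] at he
        by_contra hne
        exact he.2 (h e (by rw [Finset.mem_sdiff]; exact ⟨he.1, hne⟩))
    have h2 := hL.poisson _ (crossU_meas (Ed D \ O)) (by rw [hν]; exact ENNReal.ofReal_ne_top)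
    have h3 : P {ω | X ω ⊆ O} = (P.map (fun ω => L ω (crossU (Ed D \ O)))) {0} := by
      rw [Measure.map_apply (hL.meas _ (crossU_meas _)) (measurableSet_singleton 0), h1]
    have hpre : (fun k : ℕ => (k : ℝ≥0∞)) ⁻¹' {0} = {0} := by
      ext k
      simp
    rw [measureReal_def, h3, h2, Measure.map_apply (measurable_of_countable _)
      (measurableSet_singleton 0), hpre, ← measureReal_def, poissonMeasure_real_singleton, hν]
    have h5 : 0 ≤ a * (Ms (Ed D) - Ms O) := mul_nonneg ha (Ms_sub_nonneg hs hO)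
    rw [ENNReal.ofReal, ENNReal.toNNReal_coe, Real.coe_toNNReal _ h5]
    simp
  have hq : ∀ O ⊆ Ed D, P.real {ω | X ω = O} = pr D a O := by
    refine ppp_mobius (Ed D) _ _ fun O hO => ?_
    rw [hsub D a O ha hO, ← hle O hO]
    have h6 : ∀ S' : Set (Finset Edge), (∀ O', O' ∈ S' ↔ O' ⊆ O) →
        P.real {ω | X ω ⊆ O} = ∑ O' ∈ O.powerset, P.real {ω | X ω = O'} := by
      intro S' hS'
      have h7 : {ω | X ω ⊆ O} = {ω | X ω ∈ S'} := by
        ext ω
        exact (hS' _).symm
      rw [h7, ppp_fin P (Ed D) X hXU hXm S', ← Finset.sum_filter]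
      refine (Finset.sum_congr ?_ fun _ _ => rfl)
      ext O'
      simp only [Finset.mem_powerset, Finset.mem_filter, hS']
      exact ⟨fun h => h.2, fun h => ⟨h.trans hO, h⟩⟩
    exact (h6 {O' | O' ⊆ O} fun _ => Iff.rfl).symm
  have h8 := ppp_fin P (Ed D) X hXU hXm S
  have h9 : P.real {ω | (Ed D).filter (fun e => L ω (Crosses (src e) (tgt e)) ≠ 0) ∈ S}
      = P.real {ω | X ω ∈ S} := rfl
  rw [h9, h8, (hp D a ha).2.2.2 S, Ex]
  refine Finset.sum_congr rfl fun O hO => ?_
  rw [hq O (Finset.mem_powerset.mp hO)]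
  split_ifs
  · rw [mul_one]
  · rw [mul_zero]

end LSoup
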