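import Pool.Agent.LSoup.Stmts2

/-!
# Measurability and total mass
-/

open MeasureTheory ProbabilityTheory Finset Filter Topology

open scoped Classical

noncomputable section

namespace LSoup

theorem Prob_isProb (D : Finset Z2) (a : ℝ) : IsProbabilityMeasure (soup D a) := by
  unfold soup
  infer_instance

theorem Prob_meas_pos (l : List Z2) : MeasurableSet {c : List Z2 → ℕ | 0 < c l} := by
  have : {c : List Z2 → ℕ | 0 < c l} = (fun c : List Z2 → ℕ => c l) ⁻¹' (Set.Ioi 0) := rfl
  rw [this]
  exact (measurable_pi_apply l) (MeasurableSet.of_discrete)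

theorem Prob_meas_edge (D : Finset Z2) (e : Edge) :
    MeasurableSet {c : List Z2 → ℕ | ∃ l, 0 < c l ∧ IsLoopIn (Ed D) l ∧ Trav l e} := by
  have : {c : List Z2 → ℕ | ∃ l, 0 < c l ∧ IsLoopIn (Ed D) l ∧ Trav l e}
      = ⋃ l : List Z2, ⋃ _ : IsLoopIn (Ed D) l ∧ Trav l e, {c : List Z2 → ℕ | 0 < c l} := by
    ext c
    simp only [Set.mem_iUnion, exists_prop]
    constructor
    · rintro ⟨l, h1, h2, h3⟩
      exact ⟨l, ⟨h2, h3⟩, h1⟩
    · rintro ⟨l, ⟨h2, h3⟩, h1⟩
      exact ⟨l, h1, h2, h3⟩
  rw [this]
  exact MeasurableSet.iUnion fun l => MeasurableSet.iUnion fun _ => Prob_meas_pos l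

theorem Prob_meas_eq (D : Finset Z2) (O : Finset Edge) :
    MeasurableSet {c : List Z2 → ℕ | openE D c = O} := by
  by_cases hO : O ⊆ Ed D
  · have : {c : List Z2 → ℕ | openE D c = O}
        = ⋂ e ∈ Ed D, {c : List Z2 → ℕ | e ∈ O ↔ ∃ l, 0 < c l ∧ IsLoopIn (Ed D) l ∧ Trav l e} := by
      ext c
      simp only [Set.mem_iInter]
      constructor
      · rintro h e he
        have h' : openE D c = O := h
        show e ∈ O ↔ _
        rw [← h']
        unfold openE
        rw [Finset.mem_filter]
        exact ⟨fun h => h.2, fun h => ⟨he, h⟩⟩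
      · intro h
        show openE D c = O
        ext e
        unfold openE
        rw [Finset.mem_filter]
        constructor
        · rintro ⟨h1, h2⟩
          exact (h e h1).2 h2
        · intro h1
          exact ⟨hO h1, (h e (hO h1)).1 h1⟩
    rw [this]
    refine Finset.measurableSet_biInter _ fun e _ => ?_
    by_cases he : e ∈ O
    · simp only [he, true_iff]
      exact Prob_meas_edge D e
    · simp only [he, false_iff]
      exact (Prob_meas_edge D e).compl
  · have : {c : List Z2 → ℕ | openE D c = O} = ∅ := by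
      ext c
      simp only [Set.mem_empty_iff_false, iff_false]
      intro h
      have h' : openE D c = O := h
      exact hO (h' ▸ Finset.filter_subset _ _)
    rw [this]
    exact MeasurableSet.empty

theorem Prob_sub (D : Finset Z2) (c : List Z2 → ℕ) : openE D c ∈ (Ed D).powerset :=
  Finset.mem_powerset.2 (Finset.filter_subset _ _)

theorem Prob_union (D : Finset Z2) (A : Set (Finset Edge)) :
    {c : List Z2 → ℕ | openE D c ∈ A}
      = ⋃ O ∈ (Ed D).powerset.filter (fun O => O ∈ A), {c : List Z2 → ℕ | openE D c = O} := by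
  ext c
  simp only [Set.mem_iUnion, exists_prop]
  constructor
  · intro h
    exact ⟨openE D c, Finset.mem_filter.2 ⟨Prob_sub D c, h⟩, rfl⟩
  · rintro ⟨O, hO, h⟩
    have h' : openE D c = O := h
    show openE D c ∈ A
    rw [h']
    exact (Finset.mem_filter.1 hO).2

theorem Prob_meas (D : Finset Z2) (A : Set (Finset Edge)) :
    MeasurableSet {c : List Z2 → ℕ | openE D c ∈ A} := by
  rw [Prob_union]
  exact Finset.measurableSet_biUnion _ fun O _ => Prob_meas_eq D O

theorem Prob_real (D : Finset Z2) (a : ℝ) (A : Set (Finset Edge)) :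
    (soup D a).real {c | openE D c ∈ A} = Ex D a fun O => if O ∈ A then 1 else 0 := by
  have := Prob_isProb D a
  rw [Prob_union, measureReal_biUnion_finset]
  · unfold Ex pr
    rw [Finset.sum_filter]
    refine Finset.sum_congr rfl fun O _ => ?_
    by_cases h : O ∈ A
    · simp only [if_pos h, mul_one]
    · simp only [if_neg h, mul_zero]
  · intro O _ O' _ hne
    refine Set.disjoint_left.2 fun c h h' => hne ?_
    have h1 : openE D c = O := h
    have h2 : openE D c = O' := h'
    rw [← h1, ← h2]
  · intro O _
    exact Prob_meas_eq D O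

theorem prob : Stmt_prob := by
  intro D a _
  refine ⟨Prob_meas D, fun O => measureReal_nonneg, ?_, Prob_real D a⟩
  have h := Prob_real D a Set.univ
  have hp := Prob_isProb D a
  have h1 : {c : List Z2 → ℕ | openE D c ∈ (Set.univ : Set (Finset Edge))} = Set.univ := by
    ext c
    simp
  rw [h1] at h
  unfold Ex at h
  simp only [Set.mem_univ, if_true, mul_one] at h
  rw [← h]
  exact probReal_univ

end LSoup
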