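import Pool.Agent.LSoup.Stmts

/-!
# Module G3: the renormalisation inequality (7.2)
-/

open MeasureTheory ProbabilityTheory Finset Filter Topology

open scoped Classical

noncomputable section

namespace LSoup

namespace RecAux

theorem Ed_mono {R D : Finset Z2} (h : R ⊆ D) : Ed R ⊆ Ed D := by
  intro e he
  simp only [Ed, Finset.mem_filter, Finset.mem_product, Finset.mem_univ, and_true] at he ⊢
  exact ⟨h he.1, h he.2⟩

theorem Joined_mono {O O' : Finset Edge} (h : O ⊆ O') {x y : Z2} (hj : Joined O x y) :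
    Joined O' x y := by
  obtain ⟨e, he, h'⟩ := hj
  exact ⟨e, h he, h'⟩

theorem Conn_mono {O O' : Finset Edge} (h : O ⊆ O') {x y : Z2} (hj : Conn O x y) :
    Conn O' x y :=
  Relation.ReflTransGen.mono (fun _ _ hab => Joined_mono h hab) x y hj

theorem IsLoopIn_mono {O O' : Finset Edge} (h : O ⊆ O') {l : List Z2} (hl : IsLoopIn O l) :
    IsLoopIn O' l :=
  ⟨hl.1, hl.2.imp fun _ _ hab => Joined_mono h hab⟩

theorem openE_mono {R D : Finset Z2} (h : R ⊆ D) (c : List Z2 → ℕ) :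
    openE R c ⊆ openE D c := by
  intro e he
  simp only [openE, Finset.mem_filter] at he ⊢
  obtain ⟨he1, l, hl1, hl2, hl3⟩ := he
  exact ⟨Ed_mono h he1, l, hl1, IsLoopIn_mono (Ed_mono h) hl2, hl3⟩

theorem openE_congr {R : Finset Z2} {c c' : List Z2 → ℕ}
    (h : ∀ l, IsLoopIn (Ed R) l → c l = c' l) : openE R c = openE R c' := by
  unfold openE
  apply Finset.filter_congr
  intro e _
  constructor
  · rintro ⟨l, hl1, hl2, hl3⟩
    exact ⟨l, by rw [← h l hl2]; exact hl1, hl2, hl3⟩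
  · rintro ⟨l, hl1, hl2, hl3⟩
    exact ⟨l, by rw [h l hl2]; exact hl1, hl2, hl3⟩

instance (D : Finset Z2) (a : ℝ) : IsProbabilityMeasure (soup D a) := by
  unfold soup
  infer_instance

/-- the set of open edge sets that do not connect -/
def noC (S T : Finset Z2) : Set (Finset Edge) := {O | ¬ ∃ x ∈ S, ∃ y ∈ T, Conn O x y}

/-- the tube is good -/
def good (n : ℕ) (w : Z2) : Set (List Z2 → ℕ) :=
  {c | (∀ i ≤ 96, hgood n (hsh n w i) c) ∧ (∀ i < 96, vgood n (vsh n w i) c)}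

/-- the strip that contains the tube -/
def strip (n : ℕ) (w : Z2) : Finset Z2 :=
  Finset.Icc (w.1 + 1) (w.1 + 1600 * n) ×ˢ Finset.Icc (w.2 + 1) (w.2 + 40 * n - 1)

theorem mem_image_add {S : Finset Z2} {w z : Z2} :
    z ∈ S.image (fun x => x + w) ↔ z - w ∈ S := by
  rw [Finset.mem_image]
  constructor
  · rintro ⟨x, hx, rfl⟩
    simpa using hx
  · intro h
    exact ⟨z - w, h, by simp⟩

theorem mem_image_swap {S : Finset Z2} {z : Z2} :
    z ∈ S.image Prod.swap ↔ z.swap ∈ S := by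
  rw [Finset.mem_image]
  constructor
  · rintro ⟨x, hx, rfl⟩
    simpa using hx
  · intro h
    exact ⟨z.swap, h, by simp⟩

theorem hR_sub (n : ℕ) (w : Z2) (i : ℕ) (hi : i ≤ 96) : hR n (hsh n w i) ⊆ strip n w := by
  intro z hz
  rw [hR, mem_image_add] at hz
  simp only [Rn, hsh, strip, Finset.mem_product, Finset.mem_Icc, Prod.fst_sub, Prod.snd_sub] at hz ⊢
  have h1 : (0 : ℤ) ≤ n := by positivity
  have h2 : (i : ℤ) ≤ 96 := by exact_mod_cast hi
  have h3 : (0 : ℤ) ≤ i := by positivity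
  have h4 : (n : ℤ) * i ≤ n * 96 := mul_le_mul_of_nonneg_left h2 h1
  have h5 : (0 : ℤ) ≤ n * i := mul_nonneg h1 h3
  have h6 : (16 * (n : ℤ) * i) = 16 * (n * i) := by ring
  rw [h6] at hz
  refine ⟨⟨?_, ?_⟩, ?_, ?_⟩ <;> nlinarith [hz.1.1, hz.1.2, hz.2.1, hz.2.2]

theorem vR_sub (n : ℕ) (w : Z2) (i : ℕ) (hi : i < 96) : vR n (vsh n w i) ⊆ strip n w := by
  intro z hz
  rw [vR, mem_image_add, mem_image_swap] at hz
  simp only [Rn, vsh, strip, Finset.mem_product, Finset.mem_Icc, Prod.fst_sub, Prod.snd_sub,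
    Prod.fst_swap, Prod.snd_swap] at hz ⊢
  have h1 : (0 : ℤ) ≤ n := by positivity
  have h2 : (i : ℤ) ≤ 95 := by exact_mod_cast (by omega : i ≤ 95)
  have h3 : (0 : ℤ) ≤ i := by positivity
  have h4 : (n : ℤ) * i ≤ n * 95 := mul_le_mul_of_nonneg_left h2 h1
  have h5 : (0 : ℤ) ≤ n * i := mul_nonneg h1 h3
  have h6 : (16 * (n : ℤ) * i) = 16 * (n * i) := by ring
  rw [h6] at hz
  refine ⟨⟨?_, ?_⟩, ?_, ?_⟩ <;> nlinarith [hz.1.1, hz.1.2, hz.2.1, hz.2.2]

theorem hgood_congr (n : ℕ) (w : Z2) (i : ℕ) (hi : i ≤ 96) {c c' : List Z2 → ℕ}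
    (h : ∀ l, IsLoopIn (Ed (strip n w)) l → c l = c' l) :
    hgood n (hsh n w i) c ↔ hgood n (hsh n w i) c' := by
  unfold hgood
  rw [openE_congr fun l hl => h l (IsLoopIn_mono (Ed_mono (hR_sub n w i hi)) hl)]

theorem vgood_congr (n : ℕ) (w : Z2) (i : ℕ) (hi : i < 96) {c c' : List Z2 → ℕ}
    (h : ∀ l, IsLoopIn (Ed (strip n w)) l → c l = c' l) :
    vgood n (vsh n w i) c ↔ vgood n (vsh n w i) c' := by
  unfold vgood
  rw [openE_congr fun l hl => h l (IsLoopIn_mono (Ed_mono (vR_sub n w i hi)) hl)]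

theorem good_congr (n : ℕ) (w : Z2) {c c' : List Z2 → ℕ}
    (h : ∀ l, IsLoopIn (Ed (strip n w)) l → c l = c' l) : c ∈ good n w ↔ c' ∈ good n w := by
  unfold good
  simp only [Set.mem_setOf_eq]
  constructor
  · rintro ⟨h1, h2⟩
    exact ⟨fun i hi => (hgood_congr n w i hi h).1 (h1 i hi),
      fun i hi => (vgood_congr n w i hi h).1 (h2 i hi)⟩
  · rintro ⟨h1, h2⟩
    exact ⟨fun i hi => (hgood_congr n w i hi h).2 (h1 i hi),
      fun i hi => (vgood_congr n w i hi h).2 (h2 i hi)⟩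

theorem good_compl_eq (n : ℕ) (w : Z2) : (good n w)ᶜ =
    (⋃ i ∈ Finset.range 97, {c | ¬ hgood n (hsh n w i) c}) ∪
      ⋃ i ∈ Finset.range 96, {c | ¬ vgood n (vsh n w i) c} := by
  ext c
  simp only [good, Set.mem_compl_iff, Set.mem_setOf_eq, Set.mem_union, Set.mem_iUnion,
    Finset.mem_range, exists_prop]
  constructor
  · intro h
    rw [not_and_or] at h
    rcases h with h | h
    · push Not at h
      obtain ⟨i, hi, h⟩ := h
      exact Or.inl ⟨i, by omega, h⟩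
    · push Not at h
      obtain ⟨i, hi, h⟩ := h
      exact Or.inr ⟨i, hi, h⟩
  · rintro (⟨i, hi, h⟩ | ⟨i, hi, h⟩) ⟨h1, h2⟩
    · exact h (h1 i (by omega))
    · exact h (h2 i hi)

theorem hprob (h2 : Stmt_reg) (h4 : Stmt_inv) (D : Finset Z2) (a : ℝ) (ha : 0 ≤ a) (n : ℕ)
    (w : Z2) (hD : hR n w ⊆ D) : MeasurableSet {c | ¬ hgood n w c} ∧
    (soup D a).real {c | ¬ hgood n w c} = disP (Rn n) a (Qn n) (Bn n) := by
  have hA := h2 D (hR n w) a
    (noC ((Qn n).image fun x => x + w) ((Bn n).image fun x => x + w)) ha hD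
  have he : {c | ¬ hgood n w c} = {c : List Z2 → ℕ | openE (hR n w) c ∈
      noC ((Qn n).image fun x => x + w) ((Bn n).image fun x => x + w)} := by
    ext c
    simp only [hgood, noC, Set.mem_setOf_eq]
  rw [he]
  refine ⟨hA.1, ?_⟩
  rw [hA.2]
  have := (h4 (Rn n) (Qn n) (Bn n) a w ha).1
  rw [← this]
  rfl

theorem vprob (h2 : Stmt_reg) (h4 : Stmt_inv) (D : Finset Z2) (a : ℝ) (ha : 0 ≤ a) (n : ℕ)
    (w : Z2) (hD : vR n w ⊆ D) : MeasurableSet {c | ¬ vgood n w c} ∧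
    (soup D a).real {c | ¬ vgood n w c} = disP (Rn n) a (Qn n) (Bn n) := by
  have hA := h2 D (vR n w) a
    (noC (((Qn n).image Prod.swap).image fun x => x + w)
      (((Bn n).image Prod.swap).image fun x => x + w)) ha hD
  have he : {c | ¬ vgood n w c} = {c : List Z2 → ℕ | openE (vR n w) c ∈
      noC (((Qn n).image Prod.swap).image fun x => x + w)
        (((Bn n).image Prod.swap).image fun x => x + w)} := by
    ext c
    simp only [vgood, noC, Set.mem_setOf_eq]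
  rw [he]
  refine ⟨hA.1, ?_⟩
  rw [hA.2]
  have h5 := (h4 ((Rn n).image Prod.swap) ((Qn n).image Prod.swap) ((Bn n).image Prod.swap) a w
    ha).1
  have h6 := (h4 (Rn n) (Qn n) (Bn n) a w ha).2
  rw [← h6, ← h5]
  rfl

theorem good_meas (h2 : Stmt_reg) (h4 : Stmt_inv) (D : Finset Z2) (a : ℝ) (ha : 0 ≤ a) (n : ℕ)
    (w : Z2) (hD : strip n w ⊆ D) : MeasurableSet (good n w)ᶜ ∧
    (soup D a).real (good n w)ᶜ ≤ 193 * disP (Rn n) a (Qn n) (Bn n) := by
  have hh : ∀ i ∈ Finset.range 97, MeasurableSet {c | ¬ hgood n (hsh n w i) c} ∧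
      (soup D a).real {c | ¬ hgood n (hsh n w i) c} = disP (Rn n) a (Qn n) (Bn n) := by
    intro i hi
    rw [Finset.mem_range] at hi
    exact hprob h2 h4 D a ha n _ ((hR_sub n w i (by omega)).trans hD)
  have hv : ∀ i ∈ Finset.range 96, MeasurableSet {c | ¬ vgood n (vsh n w i) c} ∧
      (soup D a).real {c | ¬ vgood n (vsh n w i) c} = disP (Rn n) a (Qn n) (Bn n) := by
    intro i hi
    rw [Finset.mem_range] at hi
    exact vprob h2 h4 D a ha n _ ((vR_sub n w i hi).trans hD)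
  rw [good_compl_eq]
  constructor
  · apply MeasurableSet.union
    · exact Finset.measurableSet_biUnion _ fun i hi => (hh i hi).1
    · exact Finset.measurableSet_biUnion _ fun i hi => (hv i hi).1
  · calc (soup D a).real ((⋃ i ∈ Finset.range 97, {c | ¬ hgood n (hsh n w i) c}) ∪
        ⋃ i ∈ Finset.range 96, {c | ¬ vgood n (vsh n w i) c})
        ≤ (soup D a).real (⋃ i ∈ Finset.range 97, {c | ¬ hgood n (hsh n w i) c}) +
          (soup D a).real (⋃ i ∈ Finset.range 96, {c | ¬ vgood n (vsh n w i) c}) :=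
          measureReal_union_le _ _
      _ ≤ (∑ i ∈ Finset.range 97, (soup D a).real {c | ¬ hgood n (hsh n w i) c}) +
          ∑ i ∈ Finset.range 96, (soup D a).real {c | ¬ vgood n (vsh n w i) c} := by
          apply add_le_add
          · exact measureReal_biUnion_finset_le _ _
          · exact measureReal_biUnion_finset_le _ _
      _ = 193 * disP (Rn n) a (Qn n) (Bn n) := by
          rw [Finset.sum_congr rfl fun i hi => (hh i hi).2,
            Finset.sum_congr rfl fun i hi => (hv i hi).2]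
          simp only [Finset.sum_const, Finset.card_range, nsmul_eq_mul]
          push_cast
          ring

theorem strip_sub (n : ℕ) (hn : 1 ≤ n) (w : Z2) (h1 : w.1 = 144 * n)
    (h2 : w.2 = 144 * n ∨ w.2 = 192 * n) : strip n w ⊆ Rn (48 * n) := by
  intro z hz
  simp only [strip, Rn, Finset.mem_product, Finset.mem_Icc] at hz ⊢
  have h3 : (1 : ℤ) ≤ n := by exact_mod_cast hn
  push_cast
  rcases h2 with h2 | h2 <;> (rw [h1, h2] at hz; refine ⟨⟨?_, ?_⟩, ?_, ?_⟩ <;>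
    linarith [hz.1.1, hz.1.2, hz.2.1, hz.2.2])

theorem good_conn (h1 : Stmt_tube) (n : ℕ) (hn : 1 ≤ n) (w : Z2) (hw : w.1 = 144 * n)
    (hw2 : w.2 = 144 * n ∨ w.2 = 192 * n) (c : List Z2 → ℕ) (hc : c ∈ good n w) :
    ∃ x ∈ Qn (48 * n), ∃ y ∈ Bn (48 * n), Conn (openE (Rn (48 * n)) c) x y := by
  obtain ⟨x, hx, y, hy, hxy⟩ := h1 n w 96 c hn hc.1 hc.2
  have h3 : (1 : ℤ) ≤ n := by exact_mod_cast hn
  rw [mem_image_add] at hx hy
  refine ⟨x, ?_, y, ?_, Conn_mono ?_ hxy⟩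
  · simp only [Qn, hsh, Finset.mem_product, Finset.mem_Icc, Prod.fst_sub, Prod.snd_sub] at hx ⊢
    push_cast at hx ⊢
    rcases hw2 with h2 | h2 <;> (rw [hw, h2] at hx; refine ⟨⟨?_, ?_⟩, ?_, ?_⟩ <;>
      linarith [hx.1.1, hx.1.2, hx.2.1, hx.2.2])
  · simp only [Bn, hsh, Finset.mem_product, Finset.mem_Icc, Prod.fst_sub, Prod.snd_sub] at hy ⊢
    push_cast at hy ⊢
    rcases hw2 with h2 | h2 <;> (rw [hw, h2] at hy; refine ⟨⟨?_, ?_⟩, ?_, ?_⟩ <;>
      linarith [hy.1.1, hy.1.2, hy.2.1, hy.2.2])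
  · have hs := strip_sub n hn w hw hw2
    unfold tubeE
    apply Finset.union_subset
    · rw [Finset.biUnion_subset]
      intro i hi
      rw [Finset.mem_range] at hi
      exact openE_mono ((hR_sub n w i (by omega)).trans hs) c
    · rw [Finset.biUnion_subset]
      intro i hi
      rw [Finset.mem_range] at hi
      exact openE_mono ((vR_sub n w i hi).trans hs) c

end RecAux

open RecAux

theorem rec (h1 : Stmt_tube) (h2 : Stmt_reg) (h3 : Stmt_indep) (h4 : Stmt_inv) : Stmt_rec := by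
  intro a n ha hn
  have hn' : (1 : ℤ) ≤ n := by exact_mod_cast hn
  set w1 : Z2 := (144 * n, 144 * n) with hw1
  set w2 : Z2 := (144 * n, 192 * n) with hw2
  set D := Rn (48 * n) with hD
  set f := disP (Rn n) a (Qn n) (Bn n) with hf
  have hf0 : 0 ≤ f := measureReal_nonneg
  have hs1 : strip n w1 ⊆ D := strip_sub n hn w1 rfl (Or.inl rfl)
  have hs2 : strip n w2 ⊆ D := strip_sub n hn w2 rfl (Or.inr rfl)
  obtain ⟨m1, b1⟩ := good_meas h2 h4 D a ha n w1 hs1
  obtain ⟨m2, b2⟩ := good_meas h2 h4 D a ha n w2 hs2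
  have hsub : {c : List Z2 → ℕ | ¬ ∃ x ∈ Qn (48 * n), ∃ y ∈ Bn (48 * n), Conn (openE D c) x y}
      ⊆ (good n w1)ᶜ ∩ (good n w2)ᶜ := by
    intro c hc
    refine ⟨fun hg => hc ?_, fun hg => hc ?_⟩
    · exact good_conn h1 n hn w1 rfl (Or.inl rfl) c hg
    · exact good_conn h1 n hn w2 rfl (Or.inr rfl) c hg
  have hdisj : Disjoint (strip n w1) (strip n w2) := by
    rw [Finset.disjoint_left]
    intro z hz hz'
    simp only [strip, Finset.mem_product, Finset.mem_Icc, hw1, hw2] at hz hz'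
    linarith [hz.2.2, hz'.2.1]
  have hind := h3 D (strip n w1) (strip n w2) a (good n w1)ᶜ (good n w2)ᶜ ha hdisj m1 m2
    (fun c c' h => not_congr (good_congr n w1 h)) (fun c c' h => not_congr (good_congr n w2 h))
  have e1 : (soup D a).real {c : List Z2 → ℕ | ¬ ∃ x ∈ Qn (48 * n), ∃ y ∈ Bn (48 * n),
      Conn (openE D c) x y} ≤ (soup D a).real ((good n w1)ᶜ ∩ (good n w2)ᶜ) :=
    measureReal_mono hsub
  have e2 : (soup D a).real (good n w1)ᶜ * (soup D a).real (good n w2)ᶜ ≤ (193 * f) * (193 * f) :=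
    mul_le_mul b1 b2 measureReal_nonneg (mul_nonneg (by norm_num) hf0)
  have e3 : (193 * f) * (193 * f) ≤ (200 * f) ^ 2 := by nlinarith [mul_nonneg hf0 hf0]
  rw [hind] at e1
  rw [disP]
  exact (e1.trans e2).trans e3

end LSoup
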