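import Pool.Agent.LSoup.Stmts

/-!
Module A10: the open edges of the loops inside a region `R` have the same law under the soup in
`D` and under the soup in `R`.
-/

open MeasureTheory ProbabilityTheory Finset

open scoped Classical

noncomputable section

namespace LSoup

theorem reg_Ed_mono {R D : Finset Z2} (h : R ⊆ D) : Ed R ⊆ Ed D := by
  intro e he
  unfold Ed at he ⊢
  rw [Finset.mem_filter, Finset.mem_product] at he ⊢
  exact ⟨⟨h he.1.1, he.1.2⟩, h he.2⟩

theorem reg_loop_mono {O O' : Finset Edge} (h : O ⊆ O') {l : List Z2} (hl : IsLoopIn O l) :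
    IsLoopIn O' l := by
  refine ⟨hl.1, hl.2.imp ?_⟩
  rintro x y ⟨e, he, h'⟩
  exact ⟨e, h he, h'⟩

theorem reg_meas_edge (R : Finset Z2) (e : Edge) :
    MeasurableSet {c : List Z2 → ℕ | e ∈ openE R c} := by
  have : {c : List Z2 → ℕ | e ∈ openE R c} =
      ⋃ l : List Z2, {c : List Z2 → ℕ | 0 < c l ∧ (e ∈ Ed R ∧ IsLoopIn (Ed R) l ∧ Trav l e)} := by
    ext c
    simp only [Set.mem_ofPred_eq, Set.mem_iUnion, openE, Finset.mem_filter]
    constructor
    · rintro ⟨h1, l, h2, h3, h4⟩
      exact ⟨l, h2, h1, h3, h4⟩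
    · rintro ⟨l, h2, h1, h3, h4⟩
      exact ⟨h1, l, h2, h3, h4⟩
  rw [this]
  refine MeasurableSet.iUnion fun l => ?_
  have h0 : MeasurableSet {c : List Z2 → ℕ | 0 < c l} :=
    (measurable_pi_apply l) (measurableSet_Ioi (a := 0))
  by_cases hP : (e ∈ Ed R ∧ IsLoopIn (Ed R) l ∧ Trav l e)
  · simpa [hP] using h0
  · have : {c : List Z2 → ℕ | 0 < c l ∧ (e ∈ Ed R ∧ IsLoopIn (Ed R) l ∧ Trav l e)} = ∅ := by
      ext c
      simp only [Set.mem_ofPred_eq, Set.mem_empty_iff_false, iff_false, not_and]
      intro _ h1 h2 h3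
      exact hP ⟨h1, h2, h3⟩
    rw [this]
    exact MeasurableSet.empty

theorem reg_meas (R : Finset Z2) (A : Set (Finset Edge)) :
    MeasurableSet {c : List Z2 → ℕ | openE R c ∈ A} := by
  have h1 : {c : List Z2 → ℕ | openE R c ∈ A} =
      ⋃ O ∈ {O ∈ (Ed R).powerset | O ∈ A}, ⋂ e ∈ Ed R, {c : List Z2 → ℕ | e ∈ openE R c ↔ e ∈ O} := by
    ext c
    simp only [Set.mem_ofPred_eq, Set.mem_iUnion, Set.mem_iInter, Finset.mem_filter,
      Finset.mem_powerset, exists_prop]
    constructor
    · intro h
      exact ⟨openE R c, ⟨Finset.filter_subset _ _, h⟩, fun e _ => Iff.rfl⟩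
    · rintro ⟨O, ⟨hO, hA⟩, h⟩
      have : openE R c = O := by
        ext e
        by_cases he : e ∈ Ed R
        · exact h e he
        · constructor
          · intro h'
            exact absurd ((Finset.filter_subset _ _) h') he
          · intro h'
            exact absurd (hO h') he
      rw [this]
      exact hA
  rw [h1]
  refine Finset.measurableSet_biUnion _ fun O _ => ?_
  refine Finset.measurableSet_biInter _ fun e _ => ?_
  by_cases he : e ∈ O
  · have : {c : List Z2 → ℕ | e ∈ openE R c ↔ e ∈ O} = {c : List Z2 → ℕ | e ∈ openE R c} := by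
      ext c
      simp [he]
    rw [this]
    exact reg_meas_edge R e
  · have : {c : List Z2 → ℕ | e ∈ openE R c ↔ e ∈ O} = {c : List Z2 → ℕ | e ∈ openE R c}ᶜ := by
      ext c
      simp [he]
    rw [this]
    exact (reg_meas_edge R e).compl

/-- set the numbers of the loops that do not stay in `R` to zero -/
def regP (R : Finset Z2) (l : List Z2) (k : ℕ) : ℕ := if IsLoopIn (Ed R) l then k else 0

theorem reg_openE (R : Finset Z2) (c : List Z2 → ℕ) :
    openE R (fun l => regP R l (c l)) = openE R c := by
  unfold openE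
  apply Finset.filter_congr
  intro e _
  constructor
  · rintro ⟨l, h1, h2, h3⟩
    refine ⟨l, ?_, h2, h3⟩
    simp only [regP] at h1
    rwa [if_pos h2] at h1
  · rintro ⟨l, h1, h2, h3⟩
    refine ⟨l, ?_, h2, h3⟩
    simp only [regP]
    rwa [if_pos h2]

theorem reg_map (D R : Finset Z2) (a : ℝ) (hR : R ⊆ D) :
    (soup D a).map (fun c l => regP R l (c l)) = (soup R a).map (fun c l => regP R l (c l)) := by
  unfold soup
  rw [Measure.infinitePi_map_pi, Measure.infinitePi_map_pi]
  · congr 1
    funext l
    by_cases hl : IsLoopIn (Ed R) l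
    · rw [if_pos hl, if_pos (reg_loop_mono (reg_Ed_mono hR) hl)]
    · have : regP R l = fun _ => 0 := by
        funext k
        unfold regP
        rw [if_neg hl]
      rw [this, Measure.map_const, Measure.map_const]
      simp
  · intro l
    exact measurable_from_top
  · intro l
    exact measurable_from_top

theorem reg : Stmt_reg := by
  intro D R a A _ hR
  refine ⟨reg_meas R A, ?_⟩
  have hm : Measurable fun (c : List Z2 → ℕ) (l : List Z2) => regP R l (c l) :=
    measurable_pi_lambda _ fun l =>
      (measurable_from_top (f := regP R l)).comp (measurable_pi_apply l)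
  have key : ∀ D' : Finset Z2, (soup D' a).real {c | openE R c ∈ A}
      = ((soup D' a).map (fun c l => regP R l (c l))).real {c | openE R c ∈ A} := by
    intro D'
    rw [measureReal_def, measureReal_def, Measure.map_apply hm (reg_meas R A)]
    congr 2
    ext c
    simp only [Set.mem_ofPred_eq, Set.mem_preimage, reg_openE]
  rw [key D, key R, reg_map D R a hR]

end LSoup
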