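import Pool.Agent.LSoup.Stmts2

open MeasureTheory ProbabilityTheory Finset Matrix

open scoped Classical

noncomputable section

namespace LSoup

variable {ι : Type} [Fintype ι]

/-- quadratic form -/
def shQf (M : Matrix ι ι ℝ) (x : ι → ℝ) : ℝ := x ⬝ᵥ M.mulVec x

lemma shQf_cont (M : Matrix ι ι ℝ) : Continuous (shQf M) := by
  unfold shQf
  simp only [dotProduct, mulVec]
  fun_prop

lemma shQf_smul (M : Matrix ι ι ℝ) (c : ℝ) (x : ι → ℝ) : shQf M (c • x) = c ^ 2 * shQf M x := by
  unfold shQf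
  rw [mulVec_smul, dotProduct_smul, smul_dotProduct]
  simp only [smul_eq_mul]
  ring

lemma shQf_pos {A : Matrix ι ι ℝ} (hA : A.PosDef) {x : ι → ℝ} (hx : x ≠ 0) : 0 < shQf A x := by
  have h := hA.dotProduct_mulVec_pos hx
  simpa [shQf] using h

lemma shQf_lower {A : Matrix ι ι ℝ} (hA : A.PosDef) :
    ∃ c : ℝ, 0 < c ∧ ∀ x : ι → ℝ, c * ∑ i, x i ^ 2 ≤ shQf A x := by
  set S : Set (ι → ℝ) := {x | ∑ i, x i ^ 2 = 1} with hS
  have hclosed : IsClosed S := isClosed_eq (by fun_prop) continuous_const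
  have hbd : S ⊆ Metric.closedBall 0 1 := by
    intro x hx
    rw [mem_closedBall_zero_iff, pi_norm_le_iff_of_nonneg zero_le_one]
    intro i
    have h1 : x i ^ 2 ≤ ∑ i, x i ^ 2 :=
      Finset.single_le_sum (f := fun i => x i ^ 2) (fun i _ => sq_nonneg (x i)) (Finset.mem_univ i)
    have h2 : ∑ i, x i ^ 2 = 1 := hx
    rw [Real.norm_eq_abs]
    exact abs_le_one_iff_mul_self_le_one.2 (by nlinarith)
  have hcomp : IsCompact S := (isCompact_closedBall _ _).of_isClosed_subset hclosed hbd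
  have hscale : ∀ x : ι → ℝ, x ≠ 0 → 0 < ∑ i, x i ^ 2 := by
    intro x hx
    obtain ⟨i, hi⟩ := Function.ne_iff.1 hx
    have h1 : x i ^ 2 ≤ ∑ i, x i ^ 2 :=
      Finset.single_le_sum (f := fun i => x i ^ 2) (fun i _ => sq_nonneg (x i)) (Finset.mem_univ i)
    have h2 : 0 < x i ^ 2 := by
      have : x i ≠ 0 := hi
      positivity
    linarith
  rcases S.eq_empty_or_nonempty with hemp | hne
  · refine ⟨1, one_pos, fun x => ?_⟩
    by_cases hx : x = 0
    · subst hx
      simp [shQf]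
    · exfalso
      have h1 := hscale x hx
      have h2 : ((Real.sqrt (∑ i, x i ^ 2))⁻¹ • x) ∈ S := by
        show ∑ i, ((Real.sqrt (∑ i, x i ^ 2))⁻¹ • x) i ^ 2 = 1
        simp only [Pi.smul_apply, smul_eq_mul, mul_pow, inv_pow]
        rw [← Finset.mul_sum, Real.sq_sqrt h1.le]
        exact inv_mul_cancel₀ h1.ne'
      rw [hemp] at h2
      exact h2
  · obtain ⟨y, hy, hmin⟩ := hcomp.exists_isMinOn hne (shQf_cont A).continuousOn
    have hy0 : y ≠ 0 := by
      rintro rfl
      have : ∑ i : ι, (0 : ι → ℝ) i ^ 2 = 1 := hy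
      simp at this
    refine ⟨shQf A y, shQf_pos hA hy0, fun x => ?_⟩
    by_cases hx : x = 0
    · subst hx
      simp [shQf]
    · have h1 := hscale x hx
      have hs : 0 < Real.sqrt (∑ i, x i ^ 2) := Real.sqrt_pos.2 h1
      have h2 : ((Real.sqrt (∑ i, x i ^ 2))⁻¹ • x) ∈ S := by
        show ∑ i, ((Real.sqrt (∑ i, x i ^ 2))⁻¹ • x) i ^ 2 = 1
        simp only [Pi.smul_apply, smul_eq_mul, mul_pow, inv_pow]
        rw [← Finset.mul_sum, Real.sq_sqrt h1.le]
        exact inv_mul_cancel₀ h1.ne'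
      have h3 : shQf A y ≤ shQf A ((Real.sqrt (∑ i, x i ^ 2))⁻¹ • x) := hmin h2
      rw [shQf_smul, inv_pow, Real.sq_sqrt h1.le, ← div_eq_inv_mul, le_div_iff₀ h1] at h3
      exact h3

lemma shQf_int {A : Matrix ι ι ℝ} (hA : A.PosDef) :
    Integrable fun x : ι → ℝ => Real.exp (-(shQf A x) / 2) := by
  obtain ⟨c, hc, h⟩ := shQf_lower hA
  have h1 : Integrable (fun x : ι → ℝ => ∏ i, Real.exp (-(c / 2) * x i ^ 2)) := by
    apply Integrable.fintype_prod (f := fun _ t => Real.exp (-(c / 2) * t ^ 2))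
    intro i
    exact integrable_exp_neg_mul_sq (by positivity)
  refine h1.mono' ?_ ?_
  · have : Continuous fun x : ι → ℝ => Real.exp (-(shQf A x) / 2) :=
      Real.continuous_exp.comp (((shQf_cont A).neg).div_const _)
    exact this.aestronglyMeasurable
  · refine Filter.Eventually.of_forall fun x => ?_
    rw [Real.norm_eq_abs, abs_of_pos (Real.exp_pos _), ← Real.exp_sum]
    apply Real.exp_le_exp.2
    rw [← Finset.mul_sum]
    have := h x
    linarith

/-- the Gaussian kernel -/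
def shKT (T u : ι → ℝ) : ℝ := Real.exp (-(∑ i, T i * u i ^ 2) / 2)

/-- comparison for fixed `T` -/
lemma shift_fixed {A : Matrix ι ι ℝ} (hA : A.PosDef) (T θ : ι → ℝ) (hT : ∀ i, 0 ≤ T i) :
    ∫ x : ι → ℝ, Real.exp (-(shQf A x) / 2) * shKT T (fun i => x i - θ i)
      ≤ ∫ x : ι → ℝ, Real.exp (-(shQf A x) / 2) * shKT T (fun i => x i - 0) := by
  set M : Matrix ι ι ℝ := A + Matrix.diagonal T with hM
  have hMpd : M.PosDef := hA.add_posSemidef (PosSemidef.diagonal (fun i => hT i))
  have hsymm : Mᵀ = M := by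
    have := hMpd.isHermitian
    rw [IsHermitian, conjTranspose_eq_transpose_of_trivial] at this
    exact this
  have hqM : ∀ x : ι → ℝ, shQf M x = shQf A x + ∑ i, T i * x i ^ 2 := by
    intro x
    unfold shQf
    rw [hM, add_mulVec, dotProduct_add]
    congr 1
    unfold dotProduct
    apply Finset.sum_congr rfl
    intro i _
    rw [mulVec_diagonal]
    ring
  obtain ⟨c, hc⟩ : ∃ c : ι → ℝ, M.mulVec c = fun i => T i * θ i := by
    have hu : IsUnit M.det := (Matrix.isUnit_iff_isUnit_det _).1 hMpd.isUnit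
    refine ⟨M⁻¹.mulVec fun i => T i * θ i, ?_⟩
    rw [mulVec_mulVec, mul_nonsing_inv _ hu, one_mulVec]
  have hcomm : ∀ x y : ι → ℝ, x ⬝ᵥ M.mulVec y = y ⬝ᵥ M.mulVec x := by
    intro x y
    rw [dotProduct_mulVec, ← mulVec_transpose, hsymm, dotProduct_comm]
  have hsub : ∀ x : ι → ℝ, shQf M (x - c) = shQf M x - 2 * (x ⬝ᵥ M.mulVec c) + shQf M c := by
    intro x
    unfold shQf
    rw [mulVec_sub, dotProduct_sub, sub_dotProduct, sub_dotProduct, hcomm c x]
    ring
  have hxc : ∀ x : ι → ℝ, x ⬝ᵥ M.mulVec c = ∑ i, T i * θ i * x i := by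
    intro x
    rw [hc]
    unfold dotProduct
    apply Finset.sum_congr rfl
    intro i _
    ring
  have hexp : ∀ x : ι → ℝ, ∑ i, T i * (x i - θ i) ^ 2 =
      ∑ i, T i * x i ^ 2 - 2 * ∑ i, T i * θ i * x i + ∑ i, T i * θ i ^ 2 := by
    intro x
    rw [Finset.mul_sum, ← Finset.sum_sub_distrib, ← Finset.sum_add_distrib]
    apply Finset.sum_congr rfl
    intro i _
    ring
  set m : ℝ := shQf A c + ∑ i, T i * (c i - θ i) ^ 2 with hm
  have hm0 : 0 ≤ m := by
    have h1 : 0 ≤ shQf A c := by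
      by_cases h : c = 0
      · rw [h]
        simp [shQf]
      · exact (shQf_pos hA h).le
    have h2 : 0 ≤ ∑ i, T i * (c i - θ i) ^ 2 :=
      Finset.sum_nonneg fun i _ => mul_nonneg (hT i) (sq_nonneg _)
    linarith
  have key : ∀ x : ι → ℝ, shQf A x + ∑ i, T i * (x i - θ i) ^ 2 = shQf M (x - c) + m := by
    intro x
    have e1 := hsub x
    have e2 := hqM x
    have e3 := hexp x
    have e4 := hxc x
    have e5 := hqM c
    have e6 := hexp c
    have e7 : shQf M c = ∑ i, T i * θ i * c i := by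
      rw [← hxc c]
      rfl
    rw [hm]
    linarith
  have e1 : (fun x : ι → ℝ => Real.exp (-(shQf A x) / 2) * shKT T (fun i => x i - θ i)) =
      fun x => Real.exp (-m / 2) * Real.exp (-(shQf M (x - c)) / 2) := by
    ext x
    unfold shKT
    rw [← Real.exp_add, ← Real.exp_add]
    congr 1
    have := key x
    linarith
  have e2 : (fun x : ι → ℝ => Real.exp (-(shQf A x) / 2) * shKT T (fun i => x i - 0)) =
      fun x => Real.exp (-(shQf M x) / 2) := by
    ext x
    unfold shKT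
    rw [← Real.exp_add, hqM x]
    congr 1
    simp only [sub_zero]
    ring
  rw [e1, e2, integral_const_mul,
    integral_sub_right_eq_self (fun x : ι → ℝ => Real.exp (-(shQf M x) / 2)) c]
  have h3 : Real.exp (-m / 2) ≤ 1 := Real.exp_le_one_iff.2 (by linarith)
  have h4 : 0 ≤ ∫ x : ι → ℝ, Real.exp (-(shQf M x) / 2) :=
    integral_nonneg fun x => (Real.exp_pos _).le
  nlinarith

theorem shift (hm : Stmt_mix) : Stmt_shift := by
  intro ι _ A s θ hA hs
  choose ν hν hν0 hνe using fun i => hm (s i) (hs i)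
  have hνp : ∀ i, IsProbabilityMeasure (ν i) := hν
  set P : Measure (ι → ℝ) := Measure.pi ν with hP
  have hP0 : ∀ᵐ T ∂P, ∀ i, 0 ≤ T i := by
    rw [ae_all_iff]
    intro i
    exact (Measure.tendsto_eval_ae_ae (μ := ν) (i := i)).eventually (hν0 i)
  have hmix : ∀ u : ι → ℝ, Real.exp (-∑ i, s i * |u i|) = ∫ T, shKT T u ∂P := by
    intro u
    have h1 : ∀ T : ι → ℝ, shKT T u = ∏ i, Real.exp (-(T i) * u i ^ 2 / 2) := by
      intro T
      unfold shKT
      rw [← Real.exp_sum]
      congr 1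
      rw [neg_div, Finset.sum_div, ← Finset.sum_neg_distrib]
      apply Finset.sum_congr rfl
      intro i _
      ring
    simp_rw [h1]
    rw [hP, integral_fintype_prod_eq_prod (fun i t => Real.exp (-t * u i ^ 2 / 2)),
      ← Finset.sum_neg_distrib, Real.exp_sum]
    apply Finset.prod_congr rfl
    intro i _
    rw [← hνe i (u i)]
    congr 1
    ring
  -- the mixture representation of the integrals
  have hint : ∀ θ : ι → ℝ, Integrable (fun p : (ι → ℝ) × (ι → ℝ) =>
      Real.exp (-(shQf A p.1) / 2) * shKT p.2 (fun i => p.1 i - θ i)) (volume.prod P) := by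
    intro θ
    have h1 : Integrable (fun p : (ι → ℝ) × (ι → ℝ) => Real.exp (-(shQf A p.1) / 2))
        (volume.prod P) := (shQf_int hA).comp_fst P
    refine h1.mono' ?_ ?_
    · have hc : Continuous fun p : (ι → ℝ) × (ι → ℝ) =>
          Real.exp (-(shQf A p.1) / 2) * shKT p.2 (fun i => p.1 i - θ i) := by
        apply Continuous.mul
        · exact Real.continuous_exp.comp ((((shQf_cont A).comp continuous_fst).neg).div_const _)
        · unfold shKT
          fun_prop
      exact hc.aestronglyMeasurable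
    · have h2 : ∀ᵐ p ∂((volume : Measure (ι → ℝ)).prod P), ∀ i, 0 ≤ p.2 i :=
        Measure.quasiMeasurePreserving_snd.ae hP0
      filter_upwards [h2] with p hp
      have h3 : 0 ≤ shKT p.2 (fun i => p.1 i - θ i) := (Real.exp_pos _).le
      have h4 : shKT p.2 (fun i => p.1 i - θ i) ≤ 1 := by
        unfold shKT
        apply Real.exp_le_one_iff.2
        have : 0 ≤ ∑ i, p.2 i * (p.1 i - θ i) ^ 2 :=
          Finset.sum_nonneg fun i _ => mul_nonneg (hp i) (sq_nonneg _)
        linarith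
      rw [Real.norm_eq_abs, abs_of_nonneg (mul_nonneg (Real.exp_pos _).le h3)]
      exact mul_le_of_le_one_right (Real.exp_pos _).le h4
  have hJ : ∀ θ : ι → ℝ,
      ∫ x : ι → ℝ, Real.exp (-(x ⬝ᵥ A.mulVec x) / 2) * Real.exp (-∑ i, s i * |x i - θ i|) =
      ∫ T, (∫ x : ι → ℝ, Real.exp (-(shQf A x) / 2) * shKT T (fun i => x i - θ i)) ∂P := by
    intro θ
    rw [← integral_integral_swap (hint θ)]
    congr 1
    ext x
    rw [integral_const_mul, ← hmix]
    rfl
  have e0 : ∫ x : ι → ℝ, Real.exp (-(x ⬝ᵥ A.mulVec x) / 2) * Real.exp (-∑ i, s i * |x i|) =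
      ∫ T, (∫ x : ι → ℝ, Real.exp (-(shQf A x) / 2) * shKT T (fun i => x i - 0)) ∂P := by
    have := hJ (fun _ => 0)
    simp only [sub_zero] at this ⊢
    exact this
  rw [hJ θ, e0]
  apply integral_mono_ae
  · exact (hint θ).integral_prod_right
  · exact (hint (fun _ => 0)).integral_prod_right
  · filter_upwards [hP0] with T hT
    exact shift_fixed hA T θ hT

end LSoup
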