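import Pool.Agent.LSoup.Stmts

/-!
Signs of clusters: (1.2) and (1.3).
-/

open MeasureTheory ProbabilityTheory Finset Filter Topology

open scoped Classical

noncomputable section

namespace LSoup

namespace Sign

theorem mem_sgset {D : Finset Z2} {ω : Finset Edge} {A : Finset Z2} :
    A ∈ sgset D ω ↔ A ⊆ D ∧ ∀ e ∈ ω, (src e ∈ A ↔ tgt e ∈ A) := by
  unfold sgset
  rw [Finset.mem_filter, Finset.mem_powerset]

theorem conn_mem {D : Finset Z2} {ω : Finset Edge} {A : Finset Z2} (hA : A ∈ sgset D ω)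
    {a b : Z2} (h : Conn ω a b) : a ∈ A ↔ b ∈ A := by
  rw [mem_sgset] at hA
  induction h with
  | refl => rfl
  | tail _ hj ih =>
    rw [ih]
    obtain ⟨e, he, h'⟩ := hj
    rcases h' with ⟨h1, h2⟩ | ⟨h1, h2⟩
    · rw [← h1, ← h2]; exact hA.2 e he
    · rw [← h1, ← h2]; exact (hA.2 e he).symm

theorem mem_Ed {D : Finset Z2} {e : Edge} : e ∈ Ed D ↔ src e ∈ D ∧ tgt e ∈ D := by
  unfold Ed src
  simp [Finset.mem_filter, Finset.mem_product]

theorem mem_KO {D : Finset Z2} {ω : Finset Edge} {q b : Z2} :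
    b ∈ KO D ω {q} ↔ b ∈ D ∧ Conn ω q b := by
  unfold KO
  simp [Finset.mem_filter]

theorem KO_edge {D : Finset Z2} {ω : Finset Edge} (hω : ω ⊆ Ed D) (q : Z2) {e : Edge}
    (he : e ∈ ω) : src e ∈ KO D ω {q} ↔ tgt e ∈ KO D ω {q} := by
  have h := mem_Ed.1 (hω he)
  rw [mem_KO, mem_KO]
  constructor
  · rintro ⟨_, hc⟩
    exact ⟨h.2, hc.tail ⟨e, he, Or.inl ⟨rfl, rfl⟩⟩⟩
  · rintro ⟨_, hc⟩
    exact ⟨h.1, hc.tail ⟨e, he, Or.inr ⟨rfl, rfl⟩⟩⟩

theorem flip_mem {D : Finset Z2} {ω : Finset Edge} (hω : ω ⊆ Ed D) (q : Z2) {A : Finset Z2}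
    (hA : A ∈ sgset D ω) : symmDiff A (KO D ω {q}) ∈ sgset D ω := by
  rw [mem_sgset] at hA ⊢
  constructor
  · intro z hz
    rw [Finset.mem_symmDiff] at hz
    rcases hz with ⟨h1, _⟩ | ⟨h1, _⟩
    · exact hA.1 h1
    · exact (mem_KO.1 h1).1
  · intro e he
    rw [Finset.mem_symmDiff, Finset.mem_symmDiff, hA.2 e he, KO_edge hω q he]

theorem sg_flip (A C : Finset Z2) (z : Z2) :
    sg (symmDiff A C) z = if z ∈ C then -sg A z else sg A z := by
  unfold sg
  by_cases h1 : z ∈ A <;> by_cases h2 : z ∈ C <;> simp [Finset.mem_symmDiff, h1, h2]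

theorem sum_flip {D : Finset Z2} {ω : Finset Edge} (hω : ω ⊆ Ed D) (q : Z2)
    (F : Finset Z2 → ℝ) :
    ∑ A ∈ sgset D ω, F (symmDiff A (KO D ω {q})) = ∑ A ∈ sgset D ω, F A := by
  refine Finset.sum_nbij' (fun A => symmDiff A (KO D ω {q})) (fun A => symmDiff A (KO D ω {q}))
    ?_ ?_ ?_ ?_ ?_
  · intro A hA; exact flip_mem hω q hA
  · intro A hA; exact flip_mem hω q hA
  · intro A _; exact symmDiff_symmDiff_cancel_right _ _
  · intro A _; exact symmDiff_symmDiff_cancel_right _ _
  · intro A _; rfl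

theorem sg_sq (A : Finset Z2) (z : Z2) : sg A z * sg A z = 1 := by
  unfold sg; split_ifs <;> norm_num

theorem sgset_nonempty (D : Finset Z2) (ω : Finset Edge) : (sgset D ω).Nonempty :=
  ⟨∅, mem_sgset.2 ⟨Finset.empty_subset _, fun e _ => by simp⟩⟩

theorem card_pos (D : Finset Z2) (ω : Finset Edge) : (0 : ℝ) < (sgset D ω).card := by
  exact_mod_cast Finset.card_pos.2 (sgset_nonempty D ω)

theorem two_point {D : Finset Z2} {ω : Finset Edge} (hω : ω ⊆ Ed D) {q b : Z2} (hq : q ∈ D)
    :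
    ∑ A ∈ sgset D ω, sg A q * sg A b = if b ∈ KO D ω {q} then ((sgset D ω).card : ℝ) else 0 := by
  split_ifs with h
  · rw [Finset.sum_congr rfl (g := fun _ => (1 : ℝ))]
    · simp
    · intro A hA
      have h' := conn_mem hA (mem_KO.1 h).2
      have : sg A b = sg A q := by
        unfold sg
        simp only [h']
      rw [this, sg_sq]
  · have h1 := sum_flip hω q (fun A => sg A q * sg A b)
    have hqq : q ∈ KO D ω {q} := mem_KO.2 ⟨hq, Relation.ReflTransGen.refl⟩
    simp only [sg_flip, if_pos hqq, if_neg h, neg_mul, Finset.sum_neg_distrib] at h1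
    linarith

/-- elementary inequality -/
theorem key_ineq (n R : ℝ) (hn : 0 ≤ n) :
    2 * n ^ 2 ≤ (n + R) * |n + R| + (n - R) * |n - R| := by
  rcases abs_cases (n + R) with ⟨h1, h1'⟩ | ⟨h1, h1'⟩ <;>
  rcases abs_cases (n - R) with ⟨h2, h2'⟩ | ⟨h2, h2'⟩ <;> rw [h1, h2]
  · nlinarith [sq_nonneg R]
  · nlinarith [mul_nonneg hn (by linarith : (0 : ℝ) ≤ R - n)]
  · nlinarith [mul_nonneg hn (by linarith : (0 : ℝ) ≤ -R - n)]
  · linarith

theorem key_sign (s n R : ℝ) (hs : s = 1 ∨ s = -1) (hn : 0 ≤ n) :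
    2 * n ^ 2 ≤ s * ((s * n + R) * |s * n + R|) + (-s) * ((-s * n + R) * |-s * n + R|) := by
  rcases hs with rfl | rfl
  · have h := key_ineq n R hn
    have e1 : |-1 * n + R| = |n - R| := by rw [← abs_neg]; ring_nf
    rw [e1, one_mul, one_mul]
    have e2 : -1 * ((-1 * n + R) * |n - R|) = (n - R) * |n - R| := by ring
    rw [e2]; exact h
  · have h := key_ineq n (-R) hn
    have e1 : |-1 * n + R| = |n + -R| := by rw [← abs_neg]; ring_nf
    have e2 : |- -1 * n + R| = |n - -R| := by ring_nf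
    rw [e1, e2]
    have e3 : -1 * ((-1 * n + R) * |n + -R|) + - -1 * ((- -1 * n + R) * |n - -R|)
      = (n + -R) * |n + -R| + (n - -R) * |n - -R| := by ring
    rw [e3]; exact h

theorem sg_or (A : Finset Z2) (z : Z2) : sg A z = 1 ∨ sg A z = -1 := by
  unfold sg; split_ifs <;> simp

/-- decomposition of the field -/
theorem lin_split {D : Finset Z2} {ω : Finset Edge} {q : Z2} (y f : Z2 → ℝ) {A : Finset Z2}
    (hA : A ∈ sgset D ω) :
    lin D y (fun z => sg A z * |f z|)
      = sg A q * (∑ b ∈ KO D ω {q}, y b * |f b|)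
        + ∑ b ∈ D \ KO D ω {q}, y b * (sg A b * |f b|) := by
  unfold lin
  have hsub : KO D ω {q} ⊆ D := fun z hz => (mem_KO.1 hz).1
  rw [← Finset.sum_sdiff hsub, add_comm]
  congr 1
  rw [Finset.mul_sum]
  refine Finset.sum_congr rfl fun b hb => ?_
  have h' := conn_mem hA (mem_KO.1 hb).2
  have : sg A b = sg A q := by
    unfold sg
    simp only [h']
  show y b * (sg A b * |f b|) = _
  rw [this]; ring

theorem one_cluster {D : Finset Z2} {ω : Finset Edge} (hω : ω ⊆ Ed D) {q : Z2} (hq : q ∈ D)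
    (y f : Z2 → ℝ) (hy : ∀ z, 0 ≤ y z) :
    (sgset D ω).card * (∑ b ∈ KO D ω {q}, y b * |f b|) ^ 2
      ≤ ∑ A ∈ sgset D ω, sg A q * (lin D y (fun z => sg A z * |f z|) *
          |lin D y (fun z => sg A z * |f z|)|) := by
  set n : ℝ := ∑ b ∈ KO D ω {q}, y b * |f b| with hn
  have hn0 : 0 ≤ n := Finset.sum_nonneg fun b _ => mul_nonneg (hy b) (abs_nonneg _)
  set F : Finset Z2 → ℝ := fun A => sg A q * (lin D y (fun z => sg A z * |f z|) *
          |lin D y (fun z => sg A z * |f z|)|) with hF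
  have h1 := sum_flip hω q F
  have hqq : q ∈ KO D ω {q} := mem_KO.2 ⟨hq, Relation.ReflTransGen.refl⟩
  have h2 : ∑ A ∈ sgset D ω, (2 * n ^ 2) ≤
      ∑ A ∈ sgset D ω, (F A + F (symmDiff A (KO D ω {q}))) := by
    refine Finset.sum_le_sum fun A hA => ?_
    have hA' := flip_mem hω q hA
    have e1 := lin_split (q := q) y f hA
    have e2 := lin_split (q := q) y f hA'
    have e3 : ∑ b ∈ D \ KO D ω {q}, y b * (sg (symmDiff A (KO D ω {q})) b * |f b|)
        = ∑ b ∈ D \ KO D ω {q}, y b * (sg A b * |f b|) := by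
      refine Finset.sum_congr rfl fun b hb => ?_
      rw [sg_flip, if_neg (Finset.mem_sdiff.1 hb).2]
    rw [e3] at e2
    have e4 : sg (symmDiff A (KO D ω {q})) q = -sg A q := by rw [sg_flip, if_pos hqq]
    rw [e4] at e2
    simp only [hF]
    rw [e1, e2, e4]
    exact key_sign _ _ _ (sg_or A q) hn0
  rw [Finset.sum_add_distrib, h1, Finset.sum_const, nsmul_eq_mul] at h2
  linarith

end Sign

open Sign in
theorem sign_ : Stmt_sign := by
  intro D ω x y f hω hx hy
  have hc := card_pos D ω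
  constructor
  · unfold sav
    rw [div_eq_iff hc.ne']
    have h1 : ∀ A ∈ sgset D ω, (lin D x fun z => sg A z * |f z|) * (lin D y fun z => sg A z * |f z|)
        = ∑ q ∈ D, ∑ b ∈ D, x q * |f q| * (y b * |f b|) * (sg A q * sg A b) := by
      intro A _
      unfold lin
      rw [Finset.sum_mul_sum]
      refine Finset.sum_congr rfl fun q _ => Finset.sum_congr rfl fun b _ => ?_
      ring
    rw [Finset.sum_congr rfl h1, Finset.sum_comm, Finset.sum_mul]
    refine Finset.sum_congr rfl fun q hq => ?_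
    rw [Finset.sum_comm]
    have h2 : ∀ b ∈ D, ∑ A ∈ sgset D ω, x q * |f q| * (y b * |f b|) * (sg A q * sg A b)
        = if b ∈ KO D ω {q} then x q * |f q| * (y b * |f b|) * (sgset D ω).card else 0 := by
      intro b _
      rw [← Finset.mul_sum, two_point hω hq]
      split_ifs <;> simp
    rw [Finset.sum_congr rfl h2, ← Finset.sum_filter, Finset.mul_sum, Finset.sum_mul]
    refine Finset.sum_congr ?_ fun b _ => rfl
    ext b
    rw [Finset.mem_filter]
    constructor
    · exact fun h => h.2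
    · exact fun h => ⟨(mem_KO.1 h).1, h⟩
  · unfold sav
    rw [le_div_iff₀ hc, Finset.sum_mul]
    calc ∑ q ∈ D, x q * |f q| * (∑ b ∈ KO D ω {q}, y b * |f b|) ^ 2 * (sgset D ω).card
        ≤ ∑ q ∈ D, x q * |f q| * ∑ A ∈ sgset D ω, sg A q *
          (lin D y (fun z => sg A z * |f z|) * |lin D y (fun z => sg A z * |f z|)|) := by
          refine Finset.sum_le_sum fun q hq => ?_
          have h := one_cluster hω hq y f hy
          have h0 : 0 ≤ x q * |f q| := mul_nonneg (hx q) (abs_nonneg _)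
          have := mul_le_mul_of_nonneg_left h h0
          linarith
      _ = ∑ A ∈ sgset D ω, (lin D x fun z => sg A z * |f z|) *
          (lin D y (fun z => sg A z * |f z|) * |lin D y (fun z => sg A z * |f z|)|) := by
          simp only [Finset.mul_sum]
          rw [Finset.sum_comm]
          refine Finset.sum_congr rfl fun A _ => ?_
          conv_rhs => rw [lin, Finset.sum_mul]
          refine Finset.sum_congr rfl fun q _ => ?_
          ring
      _ ≤ _ := by
          refine Finset.sum_le_sum fun A _ => ?_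
          have h1 : (lin D x fun z => sg A z * |f z|) *
              (lin D y (fun z => sg A z * |f z|) * |lin D y (fun z => sg A z * |f z|)|)
              ≤ |(lin D x fun z => sg A z * |f z|) *
              (lin D y (fun z => sg A z * |f z|) * |lin D y (fun z => sg A z * |f z|)|)| :=
            le_abs_self _
          rw [abs_mul, abs_mul, abs_abs, ← sq, sq_abs] at h1
          exact h1

end LSoup
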