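import Pool.Agent.LSoup.Stmts2

/-!
The logarithmic gain in one infinitesimal step (proof of Theorem 7 of the paper).
-/

open MeasureTheory ProbabilityTheory Finset Filter Topology

open scoped Classical

noncomputable section

namespace LSoup

namespace StepAux

lemma conn_mono {O O' : Finset Edge} (h : O ⊆ O') {x y : Z2} (c : Conn O x y) :
    Conn O' x y := by
  unfold Conn at c ⊢
  induction c with
  | refl => exact Relation.ReflTransGen.refl
  | tail _ hbc ih =>
    obtain ⟨e, he, h'⟩ := hbc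
    exact ih.tail ⟨e, h he, h'⟩

lemma conn_symm {O : Finset Edge} {x y : Z2} (c : Conn O x y) : Conn O y x := by
  unfold Conn at c ⊢
  induction c with
  | refl => exact Relation.ReflTransGen.refl
  | tail _ hbc ih =>
    refine Relation.ReflTransGen.head ?_ ih
    obtain ⟨e, he, h | h⟩ := hbc
    · exact ⟨e, he, Or.inr h⟩
    · exact ⟨e, he, Or.inl h⟩

lemma KO_mono (D S : Finset Z2) {O O' : Finset Edge} (h : O ⊆ O') : KO D O S ⊆ KO D O' S := by
  intro x hx
  simp only [KO, Finset.mem_filter] at hx ⊢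
  obtain ⟨hxD, b, hb, hc⟩ := hx
  exact ⟨hxD, b, hb, conn_mono h hc⟩

lemma KO_sub (D S : Finset Z2) (O : Finset Edge) : KO D O S ⊆ D := Finset.filter_subset _ _

lemma Hk_mono (n r : ℕ) (K : Finset Z2) {K' K'' : Finset Z2} (h : K' ⊆ K'') :
    Hk n r K K' ≤ Hk n r K K'' := by
  unfold Hk
  apply Finset.card_le_card
  intro z hz
  simp only [Finset.mem_filter] at hz ⊢
  obtain ⟨hz1, x, hx, hx'⟩ := hz
  exact ⟨hz1, x, h hx, hx'⟩

lemma wt_nonneg (l : List Z2) : 0 ≤ wt l := by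
  unfold wt; positivity

lemma hitM_nonneg (D A A' : Finset Z2) : 0 ≤ hitM D A A' := by
  unfold hitM
  apply tsum_nonneg
  intro l
  split_ifs
  · exact wt_nonneg l
  · exact le_rfl

lemma hitM_le (h7 : Stmt_sum) (D A A' : Finset Z2) : hitM D A A' ≤ Ms (Ed D) := by
  unfold hitM Ms
  have hs := h7 D
  have hle : ∀ l : List Z2,
      (if IsLoopIn (Ed D) l ∧ (∃ x ∈ l, x ∈ A) ∧ (∃ x ∈ l, x ∈ A') then wt l else 0)
        ≤ (if IsLoopIn (Ed D) l then wt l else 0) := by
    intro l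
    by_cases h : IsLoopIn (Ed D) l
    · by_cases h' : (∃ x ∈ l, x ∈ A) ∧ (∃ x ∈ l, x ∈ A')
      · rw [if_pos ⟨h, h'⟩, if_pos h]
      · rw [if_neg (fun q => h' q.2), if_pos h]; exact wt_nonneg l
    · rw [if_neg (fun q => h q.1), if_neg h]
  have hnn : ∀ l : List Z2, 0 ≤
      (if IsLoopIn (Ed D) l ∧ (∃ x ∈ l, x ∈ A) ∧ (∃ x ∈ l, x ∈ A') then wt l else 0) := by
    intro l
    split_ifs
    · exact wt_nonneg l
    · exact le_rfl
  exact Summable.tsum_le_tsum hle (Summable.of_nonneg_of_le hnn hle hs) hs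

lemma Q_sub (n : ℕ) (hn : 1 ≤ n) : Qn n ⊆ Rn n := by
  intro x hx
  simp only [Qn, Rn, Finset.mem_product, Finset.mem_Icc] at hx ⊢
  omega

lemma B_sub (n : ℕ) (hn : 1 ≤ n) : Bn n ⊆ Rn n := by
  intro x hx
  simp only [Bn, Rn, Finset.mem_product, Finset.mem_Icc] at hx ⊢
  omega

lemma exp_bound {x : ℝ} (hx : 0 ≤ x) : Real.exp (-x) ≤ 1 - x + x ^ 2 / 2 := by
  have h : ∀ y : ℝ, 0 ≤ y → 0 ≤ 1 - y + y ^ 2 / 2 - Real.exp (-y) := by
    intro y hy
    have hmono : MonotoneOn (fun y : ℝ => 1 - y + y ^ 2 / 2 - Real.exp (-y)) (Set.Ici 0) := by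
      apply monotoneOn_of_deriv_nonneg (convex_Ici 0)
      · fun_prop
      · fun_prop
      · intro z hz
        have hd : HasDerivAt (fun y : ℝ => 1 - y + y ^ 2 / 2 - Real.exp (-y))
            (0 - 1 + (2 * z) / 2 - (Real.exp (-z) * (-1))) z := by
          have e1 : HasDerivAt (fun y : ℝ => Real.exp (-y)) (Real.exp (-z) * (-1)) z :=
            (hasDerivAt_neg z).exp
          have e2 : HasDerivAt (fun y : ℝ => y ^ 2 / 2) ((2 * z) / 2) z := by
            have := (hasDerivAt_pow 2 z).div_const 2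
            simpa using this
          exact (((hasDerivAt_const z (1 : ℝ)).sub (hasDerivAt_id z)).add e2).sub e1
        rw [hd.deriv]
        have := Real.add_one_le_exp (-z)
        linarith
    have := hmono (Set.self_mem_Ici) (Set.mem_Ici.2 hy) hy
    simp only [] at this
    have h0 : (1 : ℝ) - 0 + 0 ^ 2 / 2 - Real.exp (-0) = 0 := by simp
    linarith
  have := h x hx
  linarith

/-- splitting according to the cluster of `Q` -/
lemma split_sum (D Q : Finset Z2) (w : Finset Edge → ℝ) (P : Finset Z2 → Finset Edge → ℝ) :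
    ∑ O ∈ (Ed D).powerset, w O * P (KO D O Q) O
      = ∑ K ∈ D.powerset, ∑ O ∈ (Ed D).powerset, w O * (if KO D O Q = K then P K O else 0) := by
  rw [Finset.sum_comm]
  apply Finset.sum_congr rfl
  intro O _
  rw [← Finset.mul_sum]
  congr 1
  rw [Finset.sum_ite_eq, if_pos (Finset.mem_powerset.2 (KO_sub D Q O))]

lemma gain (h3 : Stmt_mark) (h4 : Stmt_mono) (h5 : Stmt_KO) (h6 : Stmt_prob)
    (n r : ℕ) (c : ℝ) (hn : 1 ≤ n) (s : ℝ) (hs : 0 ≤ s)
    (hP : ∀ K : Finset Z2, ConnSet K → Qn n ⊆ K → K ⊆ Rn n → Disjoint K (Bn n) →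
      c ≤ Ex (Rn n \ K) (1 / 2) fun O => (Hk n r K (KO (Rn n \ K) O (Bn n)) : ℝ)) :
    c * Ex (Rn n) (1 / 2 + s) (fun O => if Disjoint (KO (Rn n) O (Qn n)) (Bn n) then 1 else 0)
      ≤ Ex (Rn n) (1 / 2 + s) (fun O => if Disjoint (KO (Rn n) O (Qn n)) (Bn n) then
          (Hk n r (KO (Rn n) O (Qn n)) (KO (Rn n) O (Bn n)) : ℝ) else 0) := by
  have ha : (0 : ℝ) ≤ 1 / 2 + s := by linarith
  have hQ := Q_sub n hn
  have hB := B_sub n hn
  obtain ⟨_, hpr, _, _⟩ := h6 (Rn n) (1 / 2 + s) ha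
  set D := Rn n with hD
  set Q := Qn n with hQdef
  set B := Bn n with hBdef
  have e1 : Ex D (1 / 2 + s) (fun O => if Disjoint (KO D O Q) B then 1 else 0)
      = ∑ K ∈ D.powerset, ∑ O ∈ (Ed D).powerset, pr D (1 / 2 + s) O *
          (if KO D O Q = K then (if Disjoint K B then 1 else 0) else 0) := by
    unfold Ex
    exact split_sum D Q (pr D (1 / 2 + s)) (fun K _ => if Disjoint K B then 1 else 0)
  have e2 : Ex D (1 / 2 + s) (fun O => if Disjoint (KO D O Q) B then
          (Hk n r (KO D O Q) (KO D O B) : ℝ) else 0)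
      = ∑ K ∈ D.powerset, ∑ O ∈ (Ed D).powerset, pr D (1 / 2 + s) O *
          (if KO D O Q = K then (if Disjoint K B then (Hk n r K (KO D O B) : ℝ) else 0)
            else 0) := by
    unfold Ex
    exact split_sum D Q (pr D (1 / 2 + s))
      (fun K O => if Disjoint K B then (Hk n r K (KO D O B) : ℝ) else 0)
  rw [e1, e2, Finset.mul_sum]
  apply Finset.sum_le_sum
  intro K hK
  rw [Finset.mem_powerset] at hK
  by_cases hKB : Disjoint K B
  · simp only [if_pos hKB]
    by_cases hex : ∃ O ∈ (Ed D).powerset, KO D O Q = K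
    · obtain ⟨O₀, hO₀, hO₀K⟩ := hex
      rw [Finset.mem_powerset] at hO₀
      have hQne : Q.Nonempty := by
        refine ⟨(3 * n, 3 * n), ?_⟩
        simp only [hQdef, Qn, Finset.mem_product, Finset.mem_Icc]
        omega
      have k5 := h5 D Q B O₀ hO₀ hQ hB
      have hQconn : ConnSet Q := (k5.2.2.2.2 n).1
      have hKconn : ConnSet K := by
        have := k5.1 hQconn hQne
        rwa [hO₀K] at this
      have hQK : Q ⊆ K := by
        have := k5.2.1
        rwa [hO₀K] at this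
      have e3 : ∑ O ∈ (Ed D).powerset, pr D (1 / 2 + s) O *
          (if KO D O Q = K then (Hk n r K (KO D O B) : ℝ) else 0)
          = Ex D (1 / 2 + s) (fun O => if KO D O Q = K then
              (Hk n r K (KO (D \ K) (O ∩ Ed (D \ K)) B) : ℝ) else 0) := by
        unfold Ex
        apply Finset.sum_congr rfl
        intro O hO
        rw [Finset.mem_powerset] at hO
        by_cases hOK : KO D O Q = K
        · have k5' := (h5 D Q B O hO hQ hB).2.2.1
          rw [hOK] at k5'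
          simp only [if_pos hOK]
          rw [k5' hKB]
        · simp only [if_neg hOK]
      have e4 := h3 D K Q (1 / 2 + s)
        (fun O' => (Hk n r K (KO (D \ K) O' B) : ℝ)) ha hQK hK
      have e5 : c ≤ Ex (D \ K) (1 / 2 + s) (fun O' => (Hk n r K (KO (D \ K) O' B) : ℝ)) := by
        refine (hP K hKconn hQK hK hKB).trans ?_
        apply h4 (D \ K) (1 / 2) (1 / 2 + s) _ (by norm_num) (by linarith)
        intro O O' hOO'
        exact_mod_cast Hk_mono n r K (KO_mono (D \ K) B hOO')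
      have e6 : 0 ≤ Ex D (1 / 2 + s) (fun O => if KO D O Q = K then (1 : ℝ) else 0) := by
        unfold Ex
        apply Finset.sum_nonneg
        intro O _
        apply mul_nonneg (hpr O)
        by_cases hj : KO D O Q = K
        · simp [hj]
        · simp [hj]
      rw [e3]
      refine le_trans ?_ (le_of_eq e4.symm)
      calc c * ∑ O ∈ (Ed D).powerset, pr D (1 / 2 + s) O * (if KO D O Q = K then (1 : ℝ) else 0)
          = Ex D (1 / 2 + s) (fun O => if KO D O Q = K then (1 : ℝ) else 0) * c := by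
            unfold Ex; ring
        _ ≤ _ := mul_le_mul_of_nonneg_left e5 e6
    · push Not at hex
      have z1 : ∑ O ∈ (Ed D).powerset, pr D (1 / 2 + s) O *
          (if KO D O Q = K then (1 : ℝ) else 0) = 0 := by
        apply Finset.sum_eq_zero
        intro O hO
        rw [if_neg (hex O hO), mul_zero]
      have z2 : ∑ O ∈ (Ed D).powerset, pr D (1 / 2 + s) O *
          (if KO D O Q = K then (Hk n r K (KO D O B) : ℝ) else 0) = 0 := by
        apply Finset.sum_eq_zero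
        intro O hO
        rw [if_neg (hex O hO), mul_zero]
      rw [z1, z2, mul_zero]
  · simp [hKB]

lemma one_step (h1 : Stmt_haz) (h2 : Stmt_dis) (h3 : Stmt_mark) (h4 : Stmt_mono) (h5 : Stmt_KO)
    (h6 : Stmt_prob) (h7 : Stmt_sum) (n k1 k0 : ℕ) (c2 c3 : ℝ) (hn : 1 ≤ n) (hc2 : 0 ≤ c2)
    (hP : ∀ K : Finset Z2, ConnSet K → Qn n ⊆ K → K ⊆ Rn n → Disjoint K (Bn n) →
      ∀ k ∈ Finset.Icc k1 k0, c3 / k ≤ Ex (Rn n \ K) (1 / 2)
        fun O => (Hk n (rk n k) K (KO (Rn n \ K) O (Bn n)) : ℝ))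
    (hL : ∀ K K' : Finset Z2, ConnSet K → ConnSet K' → Qn n ⊆ K → Bn n ⊆ K' → K ⊆ Rn n →
      K' ⊆ Rn n → Disjoint K K' →
      c2 * ∑ k ∈ Finset.Icc k1 k0, (Hk n (rk n k) K K' : ℝ) ≤ hitM (Rn n) K K')
    (s d : ℝ) (hs : 0 ≤ s) (hd : 0 ≤ d) :
    disP (Rn n) (1 / 2 + (s + d)) (Qn n) (Bn n) ≤ disP (Rn n) (1 / 2 + s) (Qn n) (Bn n) *
      Real.exp (-(d * (c2 * c3 * ∑ k ∈ Finset.Icc k1 k0, (1 : ℝ) / k))
        + d ^ 2 * Ms (Ed (Rn n)) ^ 2 / 2) := by
  have ha : (0 : ℝ) ≤ 1 / 2 + s := by linarith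
  have hQ := Q_sub n hn
  have hB := B_sub n hn
  obtain ⟨_, hpr, _, _⟩ := h6 (Rn n) (1 / 2 + s) ha
  have hBne : (Bn n).Nonempty := by
    refine ⟨(35 * n, 3 * n), ?_⟩
    simp only [Bn, Finset.mem_product, Finset.mem_Icc]
    omega
  have hQne : (Qn n).Nonempty := by
    refine ⟨(3 * n, 3 * n), ?_⟩
    simp only [Qn, Finset.mem_product, Finset.mem_Icc]
    omega
  have hgain : ∀ k ∈ Finset.Icc k1 k0, c3 / k * disP (Rn n) (1 / 2 + s) (Qn n) (Bn n)
      ≤ Ex (Rn n) (1 / 2 + s) (fun O => if Disjoint (KO (Rn n) O (Qn n)) (Bn n) then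
          (Hk n (rk n k) (KO (Rn n) O (Qn n)) (KO (Rn n) O (Bn n)) : ℝ) else 0) := by
    intro k hk
    rw [h2 (Rn n) (Qn n) (Bn n) (1 / 2 + s) ha hQ hB]
    exact gain h3 h4 h5 h6 n (rk n k) (c3 / k) hn s hs (fun K a b c d => hP K a b c d k hk)
  have hF0 : 0 ≤ disP (Rn n) (1 / 2 + s) (Qn n) (Bn n) := measureReal_nonneg
  have hhaz := h1 (Rn n) (Qn n) (Bn n) (1 / 2 + s) d ha hd hQ hB
  set D := Rn n with hD
  set Q := Qn n with hQdef
  set B := Bn n with hBdef
  set W := Ms (Ed D) with hW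
  set F := disP D (1 / 2 + s) Q B with hF
  have hFeq : F = Ex D (1 / 2 + s) (fun O => if Disjoint (KO D O Q) B then 1 else 0) :=
    h2 D Q B (1 / 2 + s) ha hQ hB
  -- pointwise bound
  have hpt : ∀ O ∈ (Ed D).powerset,
      (if Disjoint (KO D O Q) B then Real.exp (-d * hitM D (KO D O Q) (KO D O B)) else 0)
      ≤ (1 + d ^ 2 * W ^ 2 / 2) * (if Disjoint (KO D O Q) B then (1 : ℝ) else 0)
        - d * c2 * ∑ k ∈ Finset.Icc k1 k0, (if Disjoint (KO D O Q) B then
          (Hk n (rk n k) (KO D O Q) (KO D O B) : ℝ) else 0) := by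
    intro O hO
    rw [Finset.mem_powerset] at hO
    by_cases hdj : Disjoint (KO D O Q) B
    · simp only [if_pos hdj]
      have k5 := h5 D Q B O hO hQ hB
      have k5' := h5 D B Q O hO hB hQ
      have hdis : Disjoint (KO D O Q) (KO D O B) := by
        rw [Finset.disjoint_left]
        intro x hx hx'
        simp only [KO, Finset.mem_filter] at hx hx'
        obtain ⟨_, q, hq, hqx⟩ := hx
        obtain ⟨_, b, hb, hbx⟩ := hx'
        refine (Finset.disjoint_left.1 hdj) ?_ hb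
        simp only [KO, Finset.mem_filter]
        exact ⟨hB hb, q, hq, hqx.trans (conn_symm hbx)⟩
      have hL' := hL (KO D O Q) (KO D O B) (k5.1 (k5.2.2.2.2 n).1 hQne)
        (k5'.1 (k5.2.2.2.2 n).2 hBne) k5.2.1 k5'.2.1 (KO_sub D Q O) (KO_sub D B O) hdis
      have hx0 := hitM_nonneg D (KO D O Q) (KO D O B)
      have hxW : hitM D (KO D O Q) (KO D O B) ≤ W := hitM_le h7 D _ _
      set x := hitM D (KO D O Q) (KO D O B) with hx
      have hb := exp_bound (mul_nonneg hd hx0)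
      have hsq : (d * x) ^ 2 ≤ d ^ 2 * W ^ 2 := by
        rw [mul_pow]
        exact mul_le_mul_of_nonneg_left (pow_le_pow_left₀ hx0 hxW 2) (sq_nonneg d)
      have hdL : d * c2 * ∑ k ∈ Finset.Icc k1 k0, (Hk n (rk n k) (KO D O Q) (KO D O B) : ℝ)
          ≤ d * x := by
        rw [mul_assoc]
        exact mul_le_mul_of_nonneg_left hL' hd
      rw [neg_mul]
      linarith
    · simp [hdj]
  -- sum
  have hsum : Ex D (1 / 2 + s) (fun O =>
      if Disjoint (KO D O Q) B then Real.exp (-d * hitM D (KO D O Q) (KO D O B)) else 0)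
      ≤ (1 + d ^ 2 * W ^ 2 / 2) * F - d * c2 * ∑ k ∈ Finset.Icc k1 k0,
        Ex D (1 / 2 + s) (fun O => if Disjoint (KO D O Q) B then
          (Hk n (rk n k) (KO D O Q) (KO D O B) : ℝ) else 0) := by
    rw [hFeq]
    unfold Ex
    rw [Finset.sum_comm, Finset.mul_sum, Finset.mul_sum, ← Finset.sum_sub_distrib]
    apply Finset.sum_le_sum
    intro O hO
    have := mul_le_mul_of_nonneg_left (hpt O hO) (hpr O)
    refine this.trans (le_of_eq ?_)
    rw [← Finset.mul_sum]
    ring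
  have hsum2 : ∑ k ∈ Finset.Icc k1 k0, c3 / k * F ≤ ∑ k ∈ Finset.Icc k1 k0,
        Ex D (1 / 2 + s) (fun O => if Disjoint (KO D O Q) B then
          (Hk n (rk n k) (KO D O Q) (KO D O B) : ℝ) else 0) :=
    Finset.sum_le_sum hgain
  have hsum3 : ∑ k ∈ Finset.Icc k1 k0, c3 / k * F
      = c3 * (∑ k ∈ Finset.Icc k1 k0, (1 : ℝ) / k) * F := by
    rw [← Finset.sum_mul, Finset.mul_sum]
    congr 1
    apply Finset.sum_congr rfl
    intro k _
    ring
  rw [hsum3] at hsum2
  have hdc : 0 ≤ d * c2 := mul_nonneg hd hc2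
  have h8 := mul_le_mul_of_nonneg_left hsum2 hdc
  have h9 : 1 / 2 + (s + d) = 1 / 2 + s + d := by ring
  rw [h9]
  refine hhaz.trans (hsum.trans ?_)
  have h10 := Real.add_one_le_exp (-(d * (c2 * c3 * ∑ k ∈ Finset.Icc k1 k0, (1 : ℝ) / k))
        + d ^ 2 * W ^ 2 / 2)
  have h11 := mul_le_mul_of_nonneg_left h10 hF0
  refine le_trans ?_ h11
  nlinarith [h8]

end StepAux

open StepAux

theorem step (h1 : Stmt_haz) (h2 : Stmt_dis) (h3 : Stmt_mark) (h4 : Stmt_mono) (h5 : Stmt_KO)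
    (h6 : Stmt_prob) (h7 : Stmt_sum) : Stmt_step := by
  intro n k1 k0 c2 c3 hn hc2 hc3 hP hL t ht
  have key := one_step h1 h2 h3 h4 h5 h6 h7 n k1 k0 c2 c3 hn hc2 hP hL
  set S := c2 * c3 * ∑ k ∈ Finset.Icc k1 k0, (1 : ℝ) / k with hS
  set W := Ms (Ed (Rn n)) with hW
  have hone : disP (Rn n) (1 / 2) (Qn n) (Bn n) ≤ 1 := by
    rw [h2 (Rn n) (Qn n) (Bn n) (1 / 2) (by norm_num) (Q_sub n hn) (B_sub n hn)]
    obtain ⟨_, hpr, htot, _⟩ := h6 (Rn n) (1 / 2) (by norm_num)
    refine le_trans ?_ htot.le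
    unfold Ex
    apply Finset.sum_le_sum
    intro O _
    have := hpr O
    by_cases hj : Disjoint (KO (Rn n) O (Qn n)) (Bn n)
    · simp [hj]
    · simpa [hj] using this
  -- `j` steps of size `d`
  have iter : ∀ d : ℝ, 0 ≤ d → ∀ j : ℕ, disP (Rn n) (1 / 2 + j * d) (Qn n) (Bn n)
      ≤ Real.exp (j * (-(d * S) + d ^ 2 * W ^ 2 / 2)) := by
    intro d hd j
    induction j with
    | zero => simpa using hone
    | succ j ih =>
      have h := key (j * d) d (by positivity) hd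
      have e : (1 / 2 : ℝ) + ((j + 1 : ℕ) : ℝ) * d = 1 / 2 + (j * d + d) := by
        push_cast; ring
      rw [e]
      refine h.trans ?_
      have e' : Real.exp (((j + 1 : ℕ) : ℝ) * (-(d * S) + d ^ 2 * W ^ 2 / 2))
          = Real.exp (j * (-(d * S) + d ^ 2 * W ^ 2 / 2)) *
            Real.exp (-(d * S) + d ^ 2 * W ^ 2 / 2) := by
        rw [← Real.exp_add]; congr 1; push_cast; ring
      rw [e']
      exact mul_le_mul_of_nonneg_right ih (Real.exp_pos _).le
  have hm : ∀ m : ℕ, 0 < m → disP (Rn n) (1 / 2 + t) (Qn n) (Bn n)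
      ≤ Real.exp (-t * S + t ^ 2 * W ^ 2 / 2 * (1 / m)) := by
    intro m hm
    have hm' : (m : ℝ) ≠ 0 := by positivity
    have h := iter (t / m) (by positivity) m
    have e : (m : ℝ) * (t / m) = t := by field_simp
    rw [e] at h
    refine h.trans (le_of_eq ?_)
    congr 1
    field_simp
  have hlim : Tendsto (fun m : ℕ => Real.exp (-t * S + t ^ 2 * W ^ 2 / 2 * (1 / m))) atTop
      (𝓝 (Real.exp (-t * S))) := by
    apply (Real.continuous_exp.tendsto _).comp
    have h := (tendsto_one_div_atTop_nhds_zero_nat (𝕜 := ℝ)).const_mul (t ^ 2 * W ^ 2 / 2)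
    have h' := h.const_add (-t * S)
    simpa using h'
  exact ge_of_tendsto hlim (Filter.eventually_atTop.2 ⟨1, fun m hm' => hm m hm'⟩)

end LSoup
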