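import Pool.Agent.LSoup.Stmts2

/-! Formula (0.1): the law of the open edges in terms of loop masses. -/

open MeasureTheory ProbabilityTheory Finset Filter Topology

open scoped Classical

noncomputable section

namespace LSoup

lemma sub_chain_of_split {α : Type} {R S : α → α → Prop} : ∀ (L : List α), List.IsChain R L →
    (∀ l1 x y l2, L = l1 ++ x :: y :: l2 → R x y → S x y) → List.IsChain S L := by
  intro L
  induction L with
  | nil => intro _ _; exact List.IsChain.nil
  | cons x t ih =>
    cases t with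
    | nil => intro _ _; exact List.IsChain.singleton x
    | cons y t =>
      intro h hS
      rw [List.isChain_cons_cons] at h ⊢
      refine ⟨hS [] x y t rfl h.1, ih h.2 ?_⟩
      intro l1 x' y' l2 he hR
      exact hS (x :: l1) x' y' l2 (by rw [he]; rfl) hR

lemma sub_chain_split {α : Type} {R : α → α → Prop} : ∀ (l1 : List α) (x y : α) (l2 : List α),
    List.IsChain R (l1 ++ x :: y :: l2) → R x y := by
  intro l1
  induction l1 with
  | nil => intro x y l2 h; exact (List.isChain_cons_cons.1 h).1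
  | cons z t ih =>
    intro x y l2 h
    apply ih x y l2
    rw [List.cons_append] at h
    exact h.tail

lemma sub_joined_symm {O : Finset Edge} {x y : Z2} (h : Joined O x y) : Joined O y x := by
  obtain ⟨e, he, h⟩ := h
  exact ⟨e, he, h.symm⟩

lemma sub_edge_eq {e e' : Edge} (h : (src e' = src e ∧ tgt e' = tgt e) ∨
    (src e' = tgt e ∧ tgt e' = src e)) : e' = e := by
  obtain ⟨⟨x, y⟩, b⟩ := e
  obtain ⟨⟨x', y'⟩, b'⟩ := e'
  cases b <;> cases b' <;> simp [src, tgt, Prod.ext_iff] at h ⊢ <;> omega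

lemma sub_joined_mem {O : Finset Edge} {e : Edge} (h : Joined O (src e) (tgt e)) : e ∈ O := by
  obtain ⟨e', he', h⟩ := h
  have := sub_edge_eq (e := e) (e' := e') (by
    rcases h with h | h
    · exact Or.inl h
    · exact Or.inr ⟨h.1, h.2⟩)
  rwa [this] at he'

lemma sub_joined_mono {O O' : Finset Edge} (h : O ⊆ O') {x y : Z2} (hj : Joined O x y) :
    Joined O' x y := by
  obtain ⟨e, he, h'⟩ := hj
  exact ⟨e, h he, h'⟩

lemma sub_loop_mono {O O' : Finset Edge} (h : O ⊆ O') {l : List Z2} (hl : IsLoopIn O l) :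
    IsLoopIn O' l :=
  ⟨hl.1, hl.2.imp fun _ _ hj => sub_joined_mono h hj⟩

/-- a loop in `D` is a loop in `O` iff all its edges are in `O` -/
lemma sub_loop_of_trav {D : Finset Z2} {O : Finset Edge} {l : List Z2} (hl : IsLoopIn (Ed D) l)
    (h : ∀ e ∈ Ed D, Trav l e → e ∈ O) : IsLoopIn O l := by
  refine ⟨hl.1, sub_chain_of_split _ hl.2 ?_⟩
  intro l1 x y l2 he hj
  obtain ⟨e, heD, hxy⟩ := hj
  refine ⟨e, h e heD ⟨l1, l2, ?_⟩, hxy⟩
  rcases hxy with ⟨rfl, rfl⟩ | ⟨rfl, rfl⟩
  · exact Or.inl he
  · exact Or.inr he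

lemma sub_trav_mem {O : Finset Edge} {l : List Z2} (hl : IsLoopIn O l) {e : Edge}
    (h : Trav l e) : e ∈ O := by
  obtain ⟨l1, l2, h⟩ := h
  apply sub_joined_mem
  rcases h with h | h
  · have := hl.2
    rw [h] at this
    exact sub_chain_split _ _ _ _ this
  · have := hl.2
    rw [h] at this
    exact sub_joined_symm (sub_chain_split _ _ _ _ this)

lemma sub_set_eq (D : Finset Z2) (O : Finset Edge) :
    {c : List Z2 → ℕ | openE D c ∈ {O' : Finset Edge | O' ⊆ O}}
      = {c | ∀ l ∈ {l : List Z2 | IsLoopIn (Ed D) l ∧ ¬ IsLoopIn O l}, c l = 0} := by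
  ext c
  constructor
  · intro h l hl
    by_contra hc
    apply hl.2
    apply sub_loop_of_trav hl.1
    intro e he ht
    apply h
    rw [openE, Finset.mem_filter]
    exact ⟨he, l, Nat.pos_of_ne_zero hc, hl.1, ht⟩
  · intro h e he
    rw [openE, Finset.mem_filter] at he
    obtain ⟨_, l, hc, hl, ht⟩ := he
    by_contra hO
    have : IsLoopIn O l := by
      by_contra hno
      have := h l ⟨hl, hno⟩
      omega
    exact hO (sub_trav_mem this ht)

lemma sub_wt_nonneg (l : List Z2) : 0 ≤ wt l := by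
  unfold wt
  positivity

lemma sub_tsum (hs : Stmt_sum) (D : Finset Z2) (O : Finset Edge) (hO : O ⊆ Ed D)
    (A : Set (List Z2)) (hA : A = {l : List Z2 | IsLoopIn (Ed D) l ∧ ¬ IsLoopIn O l}) :
    (∑' l : List Z2, if IsLoopIn (Ed D) l ∧ l ∈ A then wt l else 0) = Ms (Ed D) - Ms O := by
  have hA' : ∀ l, l ∈ A ↔ (IsLoopIn (Ed D) l ∧ ¬ IsLoopIn O l) := by
    intro l
    rw [hA]
    rfl
  have h1 := hs D
  have h2 : Summable fun l : List Z2 => if IsLoopIn O l then wt l else 0 := by
    refine Summable.of_nonneg_of_le ?_ ?_ h1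
    · intro l
      split_ifs
      · exact sub_wt_nonneg l
      · exact le_rfl
    · intro l
      by_cases h : IsLoopIn O l
      · rw [if_pos h, if_pos (sub_loop_mono hO h)]
      · rw [if_neg h]
        split_ifs
        · exact sub_wt_nonneg l
        · exact le_rfl
  unfold Ms
  rw [← h1.tsum_sub h2]
  apply tsum_congr
  intro l
  by_cases h : IsLoopIn O l
  · have h' := sub_loop_mono hO h
    simp [h, h', hA']
  · by_cases h' : IsLoopIn (Ed D) l
    · simp [h, h', hA']
    · simp [h, h', hA']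

theorem sub (hv : Stmt_void) (hs : Stmt_sum) (hp : Stmt_prob) : Stmt_sub := by
  intro D a O ha hO
  obtain ⟨_, _, _, hF⟩ := hp D a ha
  have h1 := hF {O' : Finset Edge | O' ⊆ O}
  rw [sub_set_eq, hv D a _ ha, sub_tsum hs D O hO _ rfl] at h1
  rw [h1]
  unfold Ex
  have h2 : O.powerset = (Ed D).powerset.filter fun O' => O' ∈ {O' : Finset Edge | O' ⊆ O} := by
    ext O'
    simp only [Finset.mem_powerset, Finset.mem_filter]
    constructor
    · intro h
      exact ⟨h.trans hO, h⟩
    · intro h
      exact h.2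
  rw [h2, Finset.sum_filter]
  apply Finset.sum_congr rfl
  intro O' _
  by_cases h : O' ⊆ O
  · simp [h]
  · simp [h]

end LSoup
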