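import Pool.Agent.LSoup.Trace

/-!
The loop masses of a finite subset of the square lattice are summable.
-/

open Finset

open scoped Classical

noncomputable section

namespace LSoup

/-- positive superharmonic function -/
def hfun (R : ℝ) (x : Z2) : ℝ := R ^ 2 - (x.1 : ℝ) ^ 2

theorem joined_cases {D : Finset Z2} {x z : Z2} (h : Joined (Ed D) x z) :
    z = (x.1 + 1, x.2) ∨ z = (x.1 - 1, x.2) ∨ z = (x.1, x.2 + 1) ∨ z = (x.1, x.2 - 1) := by
  obtain ⟨⟨e, b⟩, he, h⟩ := h
  rcases h with ⟨rfl, rfl⟩ | ⟨rfl, rfl⟩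
  · cases b
    · right; right; left; simp [tgt, src]
    · left; simp [tgt, src]
  · cases b
    · right; right; right; simp [tgt, src]
    · right; left; simp [tgt, src]

theorem hfun_sum {D : Finset Z2} {R : ℝ} (hR : ∀ x ∈ D, |(x.1 : ℝ)| + 1 ≤ R) (hR1 : 1 ≤ R)
    {x : Z2} (hx : x ∈ D) :
    ∑ z ∈ D.filter (fun z => Joined (Ed D) x z), hfun R z ≤ (4 - 2 / R ^ 2) * hfun R x := by
  have hxR := hR x hx
  obtain ⟨u, v⟩ := x
  simp only at hxR
  have habs := abs_le.1 (show |(u : ℝ)| ≤ R - 1 by linarith)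
  have hsub : D.filter (fun z => Joined (Ed D) (u, v) z) ⊆
      {(u + 1, v), (u - 1, v), (u, v + 1), (u, v - 1)} := by
    intro z hz
    rw [mem_filter] at hz
    simp only [mem_insert, mem_singleton]
    exact joined_cases hz.2
  have hnn : ∀ z ∈ ({(u + 1, v), (u - 1, v), (u, v + 1), (u, v - 1)} : Finset Z2),
      0 ≤ hfun R z := by
    intro z hz
    simp only [mem_insert, mem_singleton] at hz
    rcases hz with rfl | rfl | rfl | rfl
    · simp only [hfun]
      push_cast
      nlinarith
    · simp only [hfun]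
      push_cast
      nlinarith
    · simp only [hfun]
      nlinarith
    · simp only [hfun]
      nlinarith
  refine (sum_le_sum_of_subset_of_nonneg hsub fun z hz _ => hnn z hz).trans ?_
  rw [sum_insert, sum_insert, sum_insert, sum_singleton]
  · simp only [hfun]
    push_cast
    have h1 : 2 / R ^ 2 * (R ^ 2 - (u : ℝ) ^ 2) ≤ 2 := by
      rw [div_mul_eq_mul_div, div_le_iff₀ (by positivity)]
      nlinarith [sq_nonneg (u : ℝ)]
    nlinarith
  · simp only [mem_singleton, Prod.mk.injEq, not_and]
    omega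
  · simp only [mem_insert, mem_singleton, Prod.mk.injEq, not_or, not_and]
    omega
  · simp only [mem_insert, mem_singleton, Prod.mk.injEq, not_or, not_and]
    omega

theorem walks_le {D : Finset Z2} {R : ℝ} (hR : ∀ x ∈ D, |(x.1 : ℝ)| + 1 ≤ R) (hR1 : 1 ≤ R)
    {y : Z2} (hy : y ∈ D) : ∀ (n : ℕ) (x : Z2), x ∈ D →
    ((walks D (Ed D) y n x).card : ℝ) * hfun R y ≤ (4 - 2 / R ^ 2) ^ n * hfun R x := by
  have hq : 0 ≤ 4 - 2 / R ^ 2 := by
    have : 2 / R ^ 2 ≤ 2 := by
      rw [div_le_iff₀ (by positivity)]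
      nlinarith
    linarith
  have hpos : ∀ x ∈ D, 0 < hfun R x := by
    intro x hx
    have h := hR x hx
    have habs := abs_le.1 (show |(x.1 : ℝ)| ≤ R - 1 by linarith)
    simp only [hfun]
    nlinarith
  intro n
  induction n with
  | zero =>
    intro x hx
    simp only [walks, pow_zero, one_mul]
    split_ifs with h
    · subst h
      simp
    · simpa using (hpos x hx).le
  | succ n ih =>
    intro x hx
    simp only [walks]
    have h1 : ((((D.filter fun z => Joined (Ed D) x z).biUnion fun z =>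
        (walks D (Ed D) y n z).image fun l => x :: l).card : ℕ) : ℝ)
        ≤ ∑ z ∈ D.filter (fun z => Joined (Ed D) x z), ((walks D (Ed D) y n z).card : ℝ) := by
      rw [← Nat.cast_sum, Nat.cast_le]
      refine card_biUnion_le.trans (sum_le_sum fun z _ => card_image_le)
    calc _ ≤ (∑ z ∈ D.filter (fun z => Joined (Ed D) x z),
          ((walks D (Ed D) y n z).card : ℝ)) * hfun R y :=
          mul_le_mul_of_nonneg_right h1 (hpos y hy).le
      _ = ∑ z ∈ D.filter (fun z => Joined (Ed D) x z),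
          ((walks D (Ed D) y n z).card : ℝ) * hfun R y := by rw [sum_mul]
      _ ≤ ∑ z ∈ D.filter (fun z => Joined (Ed D) x z), (4 - 2 / R ^ 2) ^ n * hfun R z :=
          sum_le_sum fun z hz => ih z (mem_filter.1 hz).1
      _ = (4 - 2 / R ^ 2) ^ n * ∑ z ∈ D.filter (fun z => Joined (Ed D) x z), hfun R z := by
          rw [mul_sum]
      _ ≤ (4 - 2 / R ^ 2) ^ n * ((4 - 2 / R ^ 2) * hfun R x) :=
          mul_le_mul_of_nonneg_left (hfun_sum hR hR1 hx) (pow_nonneg hq n)
      _ = _ := by rw [pow_succ]; ring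

/-- the finite set of rooted loops of length `n` -/
def lps (D : Finset Z2) (n : ℕ) : Finset (List Z2) := D.biUnion fun x => walks D (Ed D) x n x

theorem sum_ (hg : Stmt_gap) (ht : Stmt_trace) : Stmt_sum := by
  clear hg ht
  intro D
  obtain ⟨R, hR1, hR⟩ : ∃ R : ℝ, 1 ≤ R ∧ ∀ x ∈ D, |(x.1 : ℝ)| + 1 ≤ R := by
    refine ⟨∑ x ∈ D, |(x.1 : ℝ)| + 1, ?_, ?_⟩
    · have : 0 ≤ ∑ x ∈ D, |(x.1 : ℝ)| := sum_nonneg fun _ _ => abs_nonneg _
      linarith
    · intro x hx
      have := single_le_sum (f := fun x : Z2 => |(x.1 : ℝ)|) (fun i _ => abs_nonneg _) hx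
      linarith
  have hpos : ∀ x ∈ D, 0 < hfun R x := by
    intro x hx
    have h := hR x hx
    have habs := abs_le.1 (show |(x.1 : ℝ)| ≤ R - 1 by linarith)
    simp only [hfun]
    nlinarith
  set q : ℝ := 4 - 2 / R ^ 2 with hqd
  have hq0 : 0 ≤ q := by
    have : 2 / R ^ 2 ≤ 2 := by
      rw [div_le_iff₀ (by positivity)]
      nlinarith
    linarith
  have hq4 : q < 4 := by
    have : 0 < 2 / R ^ 2 := by positivity
    linarith
  have hcard : ∀ n, ((lps D n).card : ℝ) ≤ D.card * q ^ n := by
    intro n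
    have h1 : ((lps D n).card : ℝ) ≤ ∑ x ∈ D, ((walks D (Ed D) x n x).card : ℝ) := by
      rw [← Nat.cast_sum, Nat.cast_le]
      exact card_biUnion_le
    refine h1.trans ?_
    rw [← nsmul_eq_mul]
    apply sum_le_card_nsmul
    intro x hx
    have h2 := walks_le hR hR1 hx n x hx
    exact le_of_mul_le_mul_right h2 (hpos x hx)
  set r : ℝ := q / 4 with hr
  have hr0 : 0 ≤ r := by positivity
  have hr1 : r < 1 := by rw [hr]; linarith
  have hsum := summable_geometric_of_lt_one hr0 hr1
  have hfn : ∀ l : List Z2, 0 ≤ (if IsLoopIn (Ed D) l then wt l else 0) := by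
    intro l
    split_ifs
    · unfold wt; positivity
    · exact le_rfl
  refine summable_of_sum_le (c := D.card * ∑' n, r ^ n) hfn ?_
  intro u
  obtain ⟨N, hN⟩ : ∃ N : ℕ, ∀ l ∈ u, l.length < N := by
    refine ⟨∑ l ∈ u, l.length + 1, ?_⟩
    intro l hl
    have := single_le_sum (f := fun l : List Z2 => l.length) (fun i _ => Nat.zero_le _) hl
    omega
  have hsub : ∀ l ∈ u, IsLoopIn (Ed D) l → l ∈ (range N).biUnion fun n => lps D n := by
    intro l hl hl'
    rw [mem_biUnion]
    refine ⟨l.length, mem_range.2 (hN l hl), ?_⟩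
    have h1 : 1 ≤ l.length := by
      have := hl'.1
      exact List.length_pos_iff.2 this
    have h2 := loops_eq (Subset.refl (Ed D)) h1
    have h3 : l ∈ {l' : List Z2 | IsLoopIn (Ed D) l' ∧ l'.length = l.length} := ⟨hl', rfl⟩
    rw [h2] at h3
    exact mem_coe.1 h3
  calc ∑ l ∈ u, (if IsLoopIn (Ed D) l then wt l else 0)
      = ∑ l ∈ u.filter (fun l => IsLoopIn (Ed D) l), wt l := by rw [sum_filter]
    _ ≤ ∑ l ∈ (range N).biUnion fun n => lps D n, wt l := by
        apply sum_le_sum_of_subset_of_nonneg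
        · intro l hl
          rw [mem_filter] at hl
          exact hsub l hl.1 hl.2
        · intro l _ _
          unfold wt; positivity
    _ = ∑ n ∈ range N, ∑ l ∈ lps D n, wt l := by
        apply sum_biUnion
        intro n _ n' _ hne
        rw [Function.onFun, disjoint_left]
        intro l hl hl'
        rw [lps, mem_biUnion] at hl hl'
        obtain ⟨x, _, hx⟩ := hl
        obtain ⟨x', _, hx'⟩ := hl'
        have h2 := ((mem_walks (Subset.refl (Ed D)) x n x l).1 hx).1
        have h2' := ((mem_walks (Subset.refl (Ed D)) x' n' x' l).1 hx').1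
        exact hne (h2.symm.trans h2')
    _ ≤ ∑ n ∈ range N, D.card * r ^ n := by
        apply sum_le_sum
        intro n _
        have h1 : ∀ l ∈ lps D n, wt l ≤ (1 / 4 : ℝ) ^ n := by
          intro l hl
          rw [lps, mem_biUnion] at hl
          obtain ⟨x, _, hx⟩ := hl
          have h2 := ((mem_walks (Subset.refl (Ed D)) x n x l).1 hx).1
          unfold wt
          rw [h2]
          rcases Nat.eq_zero_or_pos n with h0 | h0
          · subst h0; simp
          · apply div_le_self (by positivity)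
            exact_mod_cast h0
        calc ∑ l ∈ lps D n, wt l ≤ (lps D n).card • (1 / 4 : ℝ) ^ n :=
              sum_le_card_nsmul _ _ _ h1
          _ = (lps D n).card * (1 / 4 : ℝ) ^ n := by rw [nsmul_eq_mul]
          _ ≤ (D.card * q ^ n) * (1 / 4 : ℝ) ^ n :=
              mul_le_mul_of_nonneg_right (hcard n) (by positivity)
          _ = D.card * r ^ n := by
              rw [hr, div_eq_mul_one_div q 4, mul_pow, mul_assoc]
    _ = D.card * ∑ n ∈ range N, r ^ n := by rw [mul_sum]
    _ ≤ D.card * ∑' n, r ^ n := by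
        apply mul_le_mul_of_nonneg_left _ (by positivity)
        exact hsum.sum_le_tsum _ fun _ _ => by positivity

end LSoup
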