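import Pool.Agent.LSoup.Stmts2

/-!
Theorem 7: supercriticality.
-/

open MeasureTheory ProbabilityTheory Finset Filter Topology

open scoped Classical

noncomputable section

namespace LSoup

private theorem harm_large (K1 : ℕ) (M : ℝ) : ∃ k0 : ℕ, M ≤ ∑ k ∈ Finset.Icc K1 k0, (1 : ℝ) / k := by
  have h1 : Tendsto (fun N : ℕ => ∑ k ∈ Finset.range N, (1 : ℝ) / k) atTop atTop :=
    (not_summable_iff_tendsto_nat_atTop_of_nonneg (fun k => by positivity)).mp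
      Real.not_summable_one_div_natCast
  obtain ⟨N, hN⟩ := (h1.eventually_ge_atTop (M + ∑ k ∈ Finset.range K1, (1 : ℝ) / k)).exists
  refine ⟨N, ?_⟩
  have hsub : Finset.range N ⊆ Finset.range K1 ∪ Finset.Icc K1 N := by
    intro k hk
    simp only [Finset.mem_union, Finset.mem_range, Finset.mem_Icc] at hk ⊢
    omega
  have h2 : ∑ k ∈ Finset.range N, (1 : ℝ) / k ≤
      ∑ k ∈ Finset.range K1 ∪ Finset.Icc K1 N, (1 : ℝ) / k :=
    Finset.sum_le_sum_of_subset_of_nonneg hsub fun k _ _ => by positivity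
  have h3 : ∑ k ∈ Finset.range K1 ∪ Finset.Icc K1 N, (1 : ℝ) / k ≤
      ∑ k ∈ Finset.range K1, (1 : ℝ) / k + ∑ k ∈ Finset.Icc K1 N, (1 : ℝ) / k := by
    rw [← Finset.sum_union_inter]
    have : 0 ≤ ∑ k ∈ Finset.range K1 ∩ Finset.Icc K1 N, (1 : ℝ) / k :=
      Finset.sum_nonneg fun k _ => by positivity
    linarith
  linarith

theorem T7 (h1 : Stmt_step) (h2 : Stmt_P5) (h3 : Stmt_L6) : Stmt_T7 := by
  intro t ht
  obtain ⟨c3, hc3, k1, hk1, h2⟩ := h2
  obtain ⟨c2, hc2, k2, h3⟩ := h3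
  rw [Metric.tendsto_atTop]
  intro ε hε
  obtain ⟨k0, hk0⟩ := harm_large (max k1 k2) ((-Real.log (ε / 2)) / (t * (c2 * c3)))
  obtain ⟨n0, hn0⟩ := h2 k0
  obtain ⟨m0, hm0⟩ := h3 k0
  refine ⟨max (max n0 m0) 1, fun n hn => ?_⟩
  have hn0' : n0 ≤ n := le_trans (le_trans (le_max_left _ _) (le_max_left _ _)) hn
  have hm0' : m0 ≤ n := le_trans (le_trans (le_max_right _ _) (le_max_left _ _)) hn
  have hn1 : 1 ≤ n := le_trans (le_max_right _ _) hn
  have h4 := h1 n (max k1 k2) k0 c2 c3 hn1 hc2.le hc3.le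
    (fun K hK hQ hR hB k hk => by
      rw [Finset.mem_Icc] at hk
      exact hn0 n hn0' K hK hQ hR hB k (le_trans (le_max_left _ _) hk.1) hk.2)
    (fun K K' hK hK' hQ hB hR hR' hd => hm0 n hm0' K K' hK hK' hQ hB hR hR' hd (max k1 k2)
      (le_max_right _ _)) t ht.le
  have h5 : 0 ≤ disP (Rn n) (1 / 2 + t) (Qn n) (Bn n) := measureReal_nonneg
  rw [Real.dist_eq, sub_zero, abs_of_nonneg h5]
  refine lt_of_le_of_lt h4 ?_
  have h6 : -Real.log (ε / 2) ≤ t * (c2 * c3 * ∑ k ∈ Finset.Icc (max k1 k2) k0, (1 : ℝ) / k) := by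
    rw [div_le_iff₀ (by positivity)] at hk0
    linarith
  have h7 : -t * (c2 * c3 * ∑ k ∈ Finset.Icc (max k1 k2) k0, (1 : ℝ) / k) ≤ Real.log (ε / 2) := by
    linarith
  calc _ ≤ Real.exp (Real.log (ε / 2)) := Real.exp_le_exp.mpr h7
    _ = ε / 2 := Real.exp_log (by linarith)
    _ < ε := by linarith

end LSoup
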