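import Pool.Agent.LSoup.Stmts

/-!
Number and geometry of the tiles (module F1).
-/

open MeasureTheory ProbabilityTheory Finset Filter Topology

open scoped Classical

noncomputable section

namespace LSoup

theorem tiles_ : Stmt_tiles := by
  intro n k K hk hn hK
  have hr1 : 1 ≤ rk n k := by
    unfold rk
    exact (Nat.one_le_div_iff (by positivity)).2 hn
  have hrn : n < 2 ^ (k + 1) * rk n k := by
    have h1 : n < 2 ^ k * (rk n k + 1) := by
      unfold rk
      have := Nat.div_add_mod n (2 ^ k)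
      have := Nat.mod_lt n (show 0 < 2 ^ k by positivity)
      rw [mul_add, mul_one]
      omega
    calc n < 2 ^ k * (rk n k + 1) := h1
      _ ≤ 2 ^ k * (rk n k + rk n k) := Nat.mul_le_mul_left _ (by omega)
      _ = 2 ^ (k + 1) * rk n k := by ring
  have hr2 : 1024 * rk n k ≤ n := by
    have h1 : 2 ^ k * rk n k ≤ n := Nat.mul_div_le n (2 ^ k)
    have h2 : 1024 ≤ 2 ^ k := by
      calc 1024 = 2 ^ 10 := by norm_num
        _ ≤ 2 ^ k := Nat.pow_le_pow_right (by norm_num) hk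
    calc 1024 * rk n k ≤ 2 ^ k * rk n k := Nat.mul_le_mul_right _ h2
      _ ≤ n := h1
  generalize hr : rk n k = r at *
  have hrz : (0 : ℤ) < r := by exact_mod_cast hr1
  refine ⟨?_, ?_, ?_⟩
  · have hsub : tiles n r K ⊆ Finset.Icc (0 : ℤ) (39 * 2 ^ (k + 1) + 4) ×ˢ
        Finset.Icc (0 : ℤ) (7 * 2 ^ (k + 1) + 4) := by
      intro z hz
      unfold tiles at hz
      rw [Finset.mem_image] at hz
      obtain ⟨y, hy, rfl⟩ := hz
      unfold nbhd at hy
      rw [Finset.mem_biUnion] at hy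
      obtain ⟨x, hx, hyx⟩ := hy
      rw [Finset.mem_inter] at hx
      have hx2 := hx.2
      unfold Rm at hx2
      unfold bx at hyx
      rw [Finset.mem_product, Finset.mem_Icc, Finset.mem_Icc] at hx2 hyx
      push_cast at hyx
      have hrn' : (n : ℤ) < 2 ^ (k + 1) * r := by exact_mod_cast hrn
      have hr2' : (1024 : ℤ) * r ≤ n := by exact_mod_cast hr2
      rw [Finset.mem_product, Finset.mem_Icc, Finset.mem_Icc]
      refine ⟨⟨Int.ediv_nonneg ?_ hrz.le, ?_⟩, ⟨Int.ediv_nonneg ?_ hrz.le, ?_⟩⟩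
      · linarith [hyx.1.1, hx2.1.1]
      · apply Int.le_of_lt_add_one
        apply Int.ediv_lt_of_lt_mul hrz
        nlinarith [hyx.1.2, hx2.1.2]
      · linarith [hyx.2.1, hx2.2.1]
      · apply Int.le_of_lt_add_one
        apply Int.ediv_lt_of_lt_mul hrz
        nlinarith [hyx.2.2, hx2.2.2]
    have hcard := Finset.card_le_card hsub
    rw [Finset.card_product, Int.card_Icc, Int.card_Icc] at hcard
    have h1 : (39 * 2 ^ (k + 1) + 4 + 1 - 0 : ℤ).toNat = 39 * 2 ^ (k + 1) + 5 := by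
      have : (39 * 2 ^ (k + 1) + 4 + 1 - 0 : ℤ) = ((39 * 2 ^ (k + 1) + 5 : ℕ) : ℤ) := by
        push_cast
        ring
      rw [this, Int.toNat_natCast]
    have h2 : (7 * 2 ^ (k + 1) + 4 + 1 - 0 : ℤ).toNat = 7 * 2 ^ (k + 1) + 5 := by
      have : (7 * 2 ^ (k + 1) + 4 + 1 - 0 : ℤ) = ((7 * 2 ^ (k + 1) + 5 : ℕ) : ℤ) := by
        push_cast
        ring
      rw [this, Int.toNat_natCast]
    rw [h1, h2] at hcard
    have h3 : ((tiles n r K).card : ℝ) ≤ (39 * 2 ^ (k + 1) + 5) * (7 * 2 ^ (k + 1) + 5) := by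
      exact_mod_cast hcard
    refine h3.trans ?_
    have h4 : (4 : ℝ) ^ k = 2 ^ k * 2 ^ k := by
      rw [← mul_pow]
      norm_num
    have h5 : (1 : ℝ) ≤ 2 ^ k := one_le_pow₀ (by norm_num)
    rw [h4, pow_succ]
    nlinarith
  · intro z hz
    unfold tiles at hz
    rw [Finset.mem_image] at hz
    obtain ⟨y, hy, rfl⟩ := hz
    unfold nbhd at hy
    rw [Finset.mem_biUnion] at hy
    obtain ⟨x, hx, hyx⟩ := hy
    refine ⟨x, hx, ?_⟩
    unfold bx at hyx
    rw [Finset.mem_product, Finset.mem_Icc, Finset.mem_Icc] at hyx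
    push_cast at hyx
    have e1 := Int.mul_ediv_add_emod y.1 r
    have e2 := Int.mul_ediv_add_emod y.2 r
    have e3 := Int.emod_nonneg y.1 hrz.ne'
    have e4 := Int.emod_nonneg y.2 hrz.ne'
    have e5 := Int.emod_lt_of_pos y.1 hrz
    have e6 := Int.emod_lt_of_pos y.2 hrz
    unfold nrm
    apply max_le
    · show (x.1 - (r : ℤ) * (y.1 / r)).natAbs ≤ 5 * r
      have : |x.1 - (r : ℤ) * (y.1 / r)| ≤ 5 * r := by
        rw [abs_le]
        constructor <;> linarith [hyx.1.1, hyx.1.2]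
      omega
    · show (x.2 - (r : ℤ) * (y.2 / r)).natAbs ≤ 5 * r
      have : |x.2 - (r : ℤ) * (y.2 / r)| ≤ 5 * r := by
        rw [abs_le]
        constructor <;> linarith [hyx.2.1, hyx.2.2]
      omega
  · intro x hx
    refine ⟨(x.1 / r, x.2 / r), ?_, ?_⟩
    · unfold tiles
      exact Finset.mem_image.2 ⟨x, hx, rfl⟩
    · unfold tile
      rw [Finset.mem_product, Finset.mem_Icc, Finset.mem_Icc]
      have e1 := Int.mul_ediv_add_emod x.1 r
      have e2 := Int.mul_ediv_add_emod x.2 r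
      have e3 := Int.emod_nonneg x.1 hrz.ne'
      have e4 := Int.emod_nonneg x.2 hrz.ne'
      have e5 := Int.emod_lt_of_pos x.1 hrz
      have e6 := Int.emod_lt_of_pos x.2 hrz
      refine ⟨⟨?_, ?_⟩, ⟨?_, ?_⟩⟩
      · show (r : ℤ) * (x.1 / r) ≤ x.1
        linarith
      · show x.1 ≤ (r : ℤ) * (x.1 / r) + r - 1
        linarith
      · show (r : ℤ) * (x.2 / r) ≤ x.2
        linarith
      · show x.2 ≤ (r : ℤ) * (x.2 / r) + r - 1
        linarith

end LSoup
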