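import Pool.Agent.LSoup.Stmts

/-!
Rooted loops of length `n` with edges in `O` are counted by the trace of the `n`-th power of the
adjacency matrix.
-/

open Finset

open scoped Classical

noncomputable section

namespace LSoup

/-- lists `l` of length `n` such that `l ++ [y]` is a chain from `x` to `y` -/
def walks (D : Finset Z2) (O : Finset Edge) (y : Z2) : ℕ → Z2 → Finset (List Z2)
  | 0, x => if x = y then {[]} else ∅
  | n + 1, x => (D.filter fun z => Joined O x z).biUnion fun z =>
      (walks D O y n z).image fun l => x :: l

theorem joined_mem {D : Finset Z2} {O : Finset Edge} (hO : O ⊆ Ed D) {x y : Z2}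
    (h : Joined O x y) : x ∈ D ∧ y ∈ D := by
  obtain ⟨e, he, h⟩ := h
  have h1 := hO he
  simp only [Ed, mem_filter, mem_product, mem_univ, and_true] at h1
  rcases h with ⟨rfl, rfl⟩ | ⟨rfl, rfl⟩
  · exact ⟨h1.1, h1.2⟩
  · exact ⟨h1.2, h1.1⟩

theorem mem_walks {D : Finset Z2} {O : Finset Edge} (hO : O ⊆ Ed D) (y : Z2) :
    ∀ (n : ℕ) (x : Z2) (l : List Z2), l ∈ walks D O y n x ↔
      l.length = n ∧ (l ++ [y]).head? = some x ∧ List.IsChain (Joined O) (l ++ [y]) := by
  intro n
  induction n with
  | zero =>
    intro x l
    simp only [walks]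
    split_ifs with h
    · subst h
      rw [mem_singleton, List.length_eq_zero_iff]
      constructor
      · rintro rfl
        simp
      · exact fun h => h.1
    · simp only [notMem_empty, List.length_eq_zero_iff, false_iff]
      rintro ⟨rfl, h1, -⟩
      simp only [List.nil_append, List.head?_cons, Option.some.injEq] at h1
      exact h h1.symm
  | succ n ih =>
    intro x l
    simp only [walks, mem_biUnion, mem_filter, mem_image]
    constructor
    · rintro ⟨z, ⟨hz, hxz⟩, l', hl', rfl⟩
      obtain ⟨h1, h2, h3⟩ := (ih z l').1 hl'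
      refine ⟨by simp [h1], by simp, ?_⟩
      rw [List.cons_append, List.isChain_cons]
      refine ⟨?_, h3⟩
      intro w hw
      rw [Option.mem_def, h2, Option.some.injEq] at hw
      rw [← hw]
      exact hxz
    · rintro ⟨h1, h2, h3⟩
      match l, h1 with
      | a :: l', h1 =>
        simp only [List.cons_append, List.head?_cons, Option.some.injEq] at h2
        subst h2
        rw [List.cons_append, List.isChain_cons] at h3
        obtain ⟨z, hz⟩ : ∃ z, (l' ++ [y]).head? = some z := by
          cases l' with
          | nil => exact ⟨y, rfl⟩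
          | cons b l'' => exact ⟨b, rfl⟩
        have h4 := h3.1 z (by rw [Option.mem_def, hz])
        refine ⟨z, ⟨(joined_mem hO h4).2, h4⟩, l', (ih z l').2 ⟨by simpa using h1, hz, h3.2⟩, rfl⟩

theorem card_walks {D : Finset Z2} {O : Finset Edge} (hO : O ⊆ Ed D) (y : D) :
    ∀ (n : ℕ) (x : D), ((walks D O y n x).card : ℝ)
      = ((Matrix.of fun x y : D => if Joined O x y then (1 : ℝ) else 0) ^ n) x y := by
  intro n
  induction n with
  | zero =>
    intro x
    simp only [walks, pow_zero, Matrix.one_apply]
    by_cases h : x = y
    · subst h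
      simp
    · have h' : (x : Z2) ≠ y := fun h' => h (Subtype.ext h')
      simp [h, h']
  | succ n ih =>
    intro x
    rw [pow_succ', Matrix.mul_apply]
    simp only [walks]
    rw [card_biUnion]
    · have h1 : ∀ z ∈ D.filter (fun z => Joined O x z),
          ((walks D O y n z).image fun l => (x : Z2) :: l).card = (walks D O y n z).card := by
        intro z _
        apply card_image_of_injective
        intro a b hab
        simpa using hab
      rw [sum_congr rfl h1, Nat.cast_sum, sum_filter, ← sum_coe_sort D]
      apply sum_congr rfl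
      intro z _
      rw [Matrix.of_apply, ← ih z]
      split_ifs with h
      · simp
      · simp
    · intro z hz z' hz' hne
      rw [Function.onFun, disjoint_left]
      intro l hl hl'
      rw [mem_image] at hl hl'
      obtain ⟨a, ha, rfl⟩ := hl
      obtain ⟨b, hb, hab⟩ := hl'
      have hab' : b = a := by simpa using hab
      subst hab'
      have h1 := ((mem_walks hO y n z b).1 ha).2.1
      have h2 := ((mem_walks hO y n z' b).1 hb).2.1
      rw [h1, Option.some.injEq] at h2
      exact hne h2

theorem loops_eq {D : Finset Z2} {O : Finset Edge} (hO : O ⊆ Ed D) {n : ℕ} (hn : 1 ≤ n) :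
    {l : List Z2 | IsLoopIn O l ∧ l.length = n} = ↑(D.biUnion fun x => walks D O x n x) := by
  ext l
  simp only [Set.mem_ofPred_eq, coe_biUnion, Set.mem_iUnion, mem_coe]
  constructor
  · rintro ⟨⟨h1, h2⟩, h3⟩
    match l, h1, h2, h3 with
    | a :: l', _, h2, h3 =>
      have h4 : (a :: l').take 1 = [a] := by simp
      rw [h4] at h2
      have ha : a ∈ D := by
        rw [List.cons_append, List.isChain_cons] at h2
        obtain ⟨z, hz⟩ : ∃ z, (l' ++ [a]).head? = some z := by
          cases l' with
          | nil => exact ⟨a, rfl⟩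
          | cons b l'' => exact ⟨b, rfl⟩
        exact (joined_mem hO (h2.1 z (by rw [Option.mem_def, hz]))).1
      exact ⟨a, ha, (mem_walks hO a n a _).2 ⟨h3, by simp, h2⟩⟩
  · rintro ⟨x, hx, hl⟩
    obtain ⟨h1, h2, h3⟩ := (mem_walks hO x n x l).1 hl
    match l, h1 with
    | [], h1 => simp at h1; omega
    | a :: l', h1 =>
      simp only [List.cons_append, List.head?_cons, Option.some.injEq] at h2
      subst h2
      exact ⟨⟨by simp, by simpa using h3⟩, h1⟩

theorem trace : Stmt_trace := by
  intro D O hO n hn
  rw [loops_eq hO hn]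
  refine ⟨finite_toSet _, ?_⟩
  rw [Set.ncard_coe_finset, card_biUnion]
  · rw [Matrix.trace, Nat.cast_sum, ← sum_coe_sort D]
    apply sum_congr rfl
    intro x _
    rw [card_walks hO x n x]
    rfl
  · intro x hx y hy hne
    rw [Function.onFun, disjoint_left]
    intro l hl hl'
    obtain ⟨h1, h2, h3⟩ := (mem_walks hO x n x l).1 hl
    obtain ⟨h1', h2', h3'⟩ := (mem_walks hO y n y l).1 hl'
    match l, h1 with
    | [], h1 => simp at h1; omega
    | a :: l', h1 =>
      simp only [List.cons_append, List.head?_cons, Option.some.injEq] at h2 h2'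
      exact hne (h2.symm.trans h2')

end LSoup
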