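import Pool.Agent.LSoup.Stmts

/-!
Module G2 (Tube): gluing the crossings of the rectangles of a tube.
-/

open MeasureTheory ProbabilityTheory Finset Filter Topology

open scoped Classical

noncomputable section

namespace LSoup

private theorem tb_joined_symm {O : Finset Edge} {x y : Z2} (h : Joined O x y) : Joined O y x := by
  obtain ⟨e, he, h1 | h1⟩ := h
  · exact ⟨e, he, Or.inr h1⟩
  · exact ⟨e, he, Or.inl h1⟩

private theorem tb_conn_symm {O : Finset Edge} {x y : Z2} (h : Conn O x y) : Conn O y x := by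
  induction h with
  | refl => exact Relation.ReflTransGen.refl
  | tail _ h2 ih => exact Relation.ReflTransGen.head (tb_joined_symm h2) ih

private theorem tb_conn_mono {O O' : Finset Edge} (h : O ⊆ O') {x y : Z2} (hc : Conn O x y) :
    Conn O' x y := by
  refine Relation.ReflTransGen.mono ?_ _ _ hc
  rintro a b ⟨e, he, h1⟩
  exact ⟨e, h he, h1⟩

private theorem tb_conn_trans {O : Finset Edge} {x y z : Z2} (h : Conn O x y) (h' : Conn O y z) :
    Conn O x z := Relation.ReflTransGen.trans h h'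

private theorem tb_step {O : Finset Edge} {x y : Z2} (h : Joined O x y) :
    y.1 ≤ x.1 + 1 ∧ y.2 ≤ x.2 + 1 := by
  obtain ⟨⟨⟨e1, e2⟩, b⟩, _, ⟨h1, h2⟩ | ⟨h1, h2⟩⟩ := h
  · subst h1; subst h2
    cases b <;> simp [src, tgt]
  · subst h1; subst h2
    cases b
    · simp only [src, tgt]; constructor <;> simp; omega
    · simp only [src, tgt]; constructor <;> simp; omega

/-- the edges of `O` with both ends in a strip -/
private def tbO (O : Finset Edge) (f : Z2 → ℤ) (a b : ℤ) : Finset Edge :=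
  O.filter fun e => (a ≤ f (src e) ∧ f (src e) ≤ b) ∧ (a ≤ f (tgt e) ∧ f (tgt e) ≤ b)

private theorem tb_cross (O : Finset Edge) (f : Z2 → ℤ) (P : Z2 → Prop)
    (hstep : ∀ u v, Joined O u v → f v ≤ f u + 1) (hP : ∀ u v, Joined O u v → P v)
    (a b : ℤ) (hab : a < b) {x x' : Z2} (hc : Conn O x x') (hx : f x < a) (hx' : b ≤ f x') :
    ∃ z z', f z = a ∧ f z' = b ∧ P z ∧ Conn O x z ∧ Conn (tbO O f a b) z z' := by
  by_contra hno
  have key : ∀ y, Conn O x y → f y < b ∧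
      (f y < a ∨ ∃ z, f z = a ∧ P z ∧ Conn O x z ∧ Conn (tbO O f a b) z y) := by
    intro y hy
    induction hy with
    | refl => exact ⟨by omega, Or.inl hx⟩
    | @tail y y' h1 h2 ih =>
      obtain ⟨ihb, ihz⟩ := ih
      have hs := hstep _ _ h2
      have hPy := hP _ _ h2
      rcases lt_trichotomy (f y') a with h3 | h3 | h3
      · exact ⟨by omega, Or.inl h3⟩
      · exact ⟨by omega, Or.inr ⟨y', h3, hPy, Relation.ReflTransGen.tail h1 h2,
          Relation.ReflTransGen.refl⟩⟩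
      · have hya : a ≤ f y := by omega
        obtain ⟨z, hz1, hz2, hz3, hz4⟩ := ihz.resolve_left (by omega)
        have hJ : Joined (tbO O f a b) y y' := by
          obtain ⟨e, he, hh⟩ := h2
          refine ⟨e, ?_, hh⟩
          rw [tbO, Finset.mem_filter]
          refine ⟨he, ?_⟩
          rcases hh with ⟨h5, h6⟩ | ⟨h5, h6⟩
          · rw [h5, h6]; omega
          · rw [h5, h6]; omega
        have hz5 : Conn (tbO O f a b) z y' := Relation.ReflTransGen.tail hz4 hJ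
        have hne : f y' ≠ b := by
          intro h7
          exact hno ⟨z, y', hz1, h7, hz2, hz3, hz5⟩
        exact ⟨by omega, Or.inr ⟨z, hz1, hz2, hz3, hz5⟩⟩
  have := (key x' hc).1
  omega

private theorem tb_ends {O : Finset Edge} {D : Finset Z2} (hO : O ⊆ Ed D) {u v : Z2}
    (h : Joined O u v) : v ∈ D := by
  obtain ⟨e, he, hh⟩ := h
  have h1 := hO he
  rw [Ed, Finset.mem_filter, Finset.mem_product] at h1
  rcases hh with ⟨h5, h6⟩ | ⟨h5, h6⟩
  · rw [← h6]; exact h1.2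
  · rw [← h5]; exact h1.1.1

private theorem tb_mem_hR {n : ℕ} {w x : Z2} (h : x ∈ hR n w) :
    w.1 + 1 ≤ x.1 ∧ x.1 ≤ w.1 + 40 * n - 1 ∧ w.2 + 1 ≤ x.2 ∧ x.2 ≤ w.2 + 8 * n - 1 := by
  rw [hR, Finset.mem_image] at h
  obtain ⟨y, hy, rfl⟩ := h
  rw [Rn, Finset.mem_product, Finset.mem_Icc, Finset.mem_Icc] at hy
  simp only [Prod.fst_add, Prod.snd_add]
  omega

private theorem tb_mem_vR {n : ℕ} {w x : Z2} (h : x ∈ vR n w) :
    w.1 + 1 ≤ x.1 ∧ x.1 ≤ w.1 + 8 * n - 1 ∧ w.2 + 1 ≤ x.2 ∧ x.2 ≤ w.2 + 40 * n - 1 := by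
  rw [vR, Finset.mem_image] at h
  obtain ⟨y, hy, rfl⟩ := h
  rw [Finset.mem_image] at hy
  obtain ⟨y', hy', rfl⟩ := hy
  rw [Rn, Finset.mem_product, Finset.mem_Icc, Finset.mem_Icc] at hy'
  simp only [Prod.fst_add, Prod.snd_add, Prod.fst_swap, Prod.snd_swap]
  omega

private theorem tb_openE_sub (D : Finset Z2) (c : List Z2 → ℕ) : openE D c ⊆ Ed D :=
  Finset.filter_subset _ _

/-- the crossing of a horizontal and a vertical rectangle -/
private theorem tb_link (hp : Stmt_plane) (n : ℕ) (hn : 1 ≤ n) (s t : Z2) (c : List Z2 → ℕ)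
    (hst : s.2 = t.2 + 16 * n) {x y u v : Z2} (hxy : Conn (openE (hR n s) c) x y)
    (huv : Conn (openE (vR n t) c) u v) (hx : x.1 < t.1 + 1) (hy : t.1 + 8 * n - 1 ≤ y.1)
    (hu : u.2 < s.2 + 1) (hv : s.2 + 8 * n - 1 ≤ v.2) :
    ∃ z, Conn (openE (hR n s) c) x z ∧ Conn (openE (vR n t) c) u z := by
  have hH := tb_openE_sub (hR n s) c
  have hV := tb_openE_sub (vR n t) c
  obtain ⟨z, z', hz1, hz2, hz3, hz4, hz5⟩ := tb_cross (openE (hR n s) c) Prod.fst
    (fun q => s.2 + 1 ≤ q.2 ∧ q.2 ≤ s.2 + 8 * n - 1) (fun _ _ h => (tb_step h).1)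
    (fun _ _ h => (tb_mem_hR (tb_ends hH h)).2.2) (t.1 + 1) (t.1 + 8 * n - 1) (by omega) hxy hx hy
  obtain ⟨r, r', hr1, hr2, hr3, hr4, hr5⟩ := tb_cross (openE (vR n t) c) Prod.snd
    (fun q => t.1 + 1 ≤ q.1 ∧ q.1 ≤ t.1 + 8 * n - 1) (fun _ _ h => (tb_step h).2)
    (fun _ _ h => ⟨(tb_mem_vR (tb_ends hV h)).1, (tb_mem_vR (tb_ends hV h)).2.1⟩)
    (s.2 + 1) (s.2 + 8 * n - 1) (by omega) huv hu hv
  have hEd : ∀ (D : Finset Z2) (e : Edge), e ∈ Ed D → src e ∈ D ∧ tgt e ∈ D := by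
    intro D e he
    rw [Ed, Finset.mem_filter, Finset.mem_product] at he
    exact ⟨he.1.1, he.2⟩
  have hmk : ∀ (D : Finset Z2) (e : Edge), src e ∈ D → tgt e ∈ D → e ∈ Ed D := by
    intro D e h1 h2
    rw [Ed, Finset.mem_filter, Finset.mem_product]
    exact ⟨⟨h1, Finset.mem_univ _⟩, h2⟩
  obtain ⟨q, hq1, hq2⟩ := hp (t.1 + 1) (t.1 + 8 * n - 1) (s.2 + 1) (s.2 + 8 * n - 1)
    (tbO (openE (hR n s) c) Prod.fst (t.1 + 1) (t.1 + 8 * n - 1))
    (tbO (openE (vR n t) c) Prod.snd (s.2 + 1) (s.2 + 8 * n - 1)) z z' r r'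
    (by
      intro e he
      rw [tbO, Finset.mem_filter] at he
      obtain ⟨h1, h2⟩ := hEd _ _ (hH he.1)
      have h3 := tb_mem_hR h1
      have h4 := tb_mem_hR h2
      refine hmk _ _ ?_ ?_
      · rw [Finset.mem_product, Finset.mem_Icc, Finset.mem_Icc]
        exact ⟨he.2.1, h3.2.2⟩
      · rw [Finset.mem_product, Finset.mem_Icc, Finset.mem_Icc]
        exact ⟨he.2.2, h4.2.2⟩)
    (by
      intro e he
      rw [tbO, Finset.mem_filter] at he
      obtain ⟨h1, h2⟩ := hEd _ _ (hV he.1)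
      have h3 := tb_mem_vR h1
      have h4 := tb_mem_vR h2
      refine hmk _ _ ?_ ?_
      · rw [Finset.mem_product, Finset.mem_Icc, Finset.mem_Icc]
        exact ⟨⟨h3.1, h3.2.1⟩, he.2.1⟩
      · rw [Finset.mem_product, Finset.mem_Icc, Finset.mem_Icc]
        exact ⟨⟨h4.1, h4.2.1⟩, he.2.2⟩)
    hz5 hr5 hz1 hz2 hr1 hr2
    (by
      rw [Finset.mem_product, Finset.mem_Icc, Finset.mem_Icc]
      exact ⟨⟨by omega, by omega⟩, hz3⟩)
    (by
      rw [Finset.mem_product, Finset.mem_Icc, Finset.mem_Icc]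
      exact ⟨hr3, ⟨by omega, by omega⟩⟩)
  refine ⟨q, tb_conn_trans hz4 (tb_conn_mono (Finset.filter_subset _ _) hq1),
    tb_conn_trans hr4 (tb_conn_mono (Finset.filter_subset _ _) hq2)⟩

theorem tube (h : Stmt_plane) : Stmt_tube := by
  intro n w I c hn hh hv
  have hQ : ∀ (s x : Z2), x ∈ (Qn n).image (fun x => x + s) →
      s.1 + 3 * n ≤ x.1 ∧ x.1 ≤ s.1 + 5 * n ∧ s.2 + 3 * n ≤ x.2 ∧ x.2 ≤ s.2 + 5 * n := by
    intro s x hx
    rw [Finset.mem_image] at hx
    obtain ⟨y, hy, rfl⟩ := hx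
    rw [Qn, Finset.mem_product, Finset.mem_Icc, Finset.mem_Icc] at hy
    simp only [Prod.fst_add, Prod.snd_add]
    omega
  have hB : ∀ (s x : Z2), x ∈ (Bn n).image (fun x => x + s) →
      s.1 + 35 * n ≤ x.1 ∧ x.1 ≤ s.1 + 37 * n ∧ s.2 + 3 * n ≤ x.2 ∧ x.2 ≤ s.2 + 5 * n := by
    intro s x hx
    rw [Finset.mem_image] at hx
    obtain ⟨y, hy, rfl⟩ := hx
    rw [Bn, Finset.mem_product, Finset.mem_Icc, Finset.mem_Icc] at hy
    simp only [Prod.fst_add, Prod.snd_add]
    omega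
  have hQ' : ∀ (s x : Z2), x ∈ ((Qn n).image Prod.swap).image (fun x => x + s) →
      s.2 + 3 * n ≤ x.2 ∧ x.2 ≤ s.2 + 5 * n := by
    intro s x hx
    rw [Finset.mem_image] at hx
    obtain ⟨y, hy, rfl⟩ := hx
    rw [Finset.mem_image] at hy
    obtain ⟨y', hy', rfl⟩ := hy
    rw [Qn, Finset.mem_product, Finset.mem_Icc, Finset.mem_Icc] at hy'
    simp only [Prod.snd_add, Prod.snd_swap]
    omega
  have hB' : ∀ (s x : Z2), x ∈ ((Bn n).image Prod.swap).image (fun x => x + s) →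
      s.2 + 35 * n ≤ x.2 := by
    intro s x hx
    rw [Finset.mem_image] at hx
    obtain ⟨y, hy, rfl⟩ := hx
    rw [Finset.mem_image] at hy
    obtain ⟨y', hy', rfl⟩ := hy
    rw [Bn, Finset.mem_product, Finset.mem_Icc, Finset.mem_Icc] at hy'
    simp only [Prod.snd_add, Prod.snd_swap]
    omega
  have hsubH : ∀ i ≤ I, openE (hR n (hsh n w i)) c ⊆ tubeE n w I c := by
    intro i hi e he
    rw [tubeE, Finset.mem_union]
    left
    rw [Finset.mem_biUnion]
    exact ⟨i, Finset.mem_range.mpr (by omega), he⟩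
  have hsubV : ∀ i < I, openE (vR n (vsh n w i)) c ⊆ tubeE n w I c := by
    intro i hi e he
    rw [tubeE, Finset.mem_union]
    right
    rw [Finset.mem_biUnion]
    exact ⟨i, Finset.mem_range.mpr hi, he⟩
  choose! X hX Y hY hXY using hh
  have hind : ∀ j, j ≤ I → Conn (tubeE n w I c) (X 0) (X j) := by
    intro j
    induction j with
    | zero => intro _; exact Relation.ReflTransGen.refl
    | succ j ih =>
      intro hj
      have h1 := ih (by omega)
      obtain ⟨u, hu, v, hv1, huv⟩ := hv j (by omega)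
      have a1 := hQ _ _ (hX j (by omega))
      have a2 := hB _ _ (hY j (by omega))
      have a3 := hQ _ _ (hX (j + 1) hj)
      have a4 := hB _ _ (hY (j + 1) hj)
      have a5 := hQ' _ _ hu
      have a6 := hB' _ _ hv1
      have e1 : (hsh n w j).1 = w.1 + 16 * n * j := rfl
      have e2 : (hsh n w j).2 = w.2 + 16 * n := rfl
      have e3 : (hsh n w (j + 1)).1 = w.1 + 16 * n * j + 16 * n := by
        simp only [hsh]; push_cast; ring
      have e4 : (hsh n w (j + 1)).2 = w.2 + 16 * n := rfl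
      have e5 : (vsh n w j).1 = w.1 + 16 * n * j + 24 * n := rfl
      have e6 : (vsh n w j).2 = w.2 := rfl
      obtain ⟨z, hz1, hz2⟩ := tb_link h n hn (hsh n w j) (vsh n w j) c (by rw [e2, e6])
        (hXY j (by omega)) huv (by rw [e5]; rw [e1] at a1; omega)
        (by rw [e5]; rw [e1] at a2; omega) (by rw [e2]; rw [e6] at a5; omega)
        (by rw [e2]; rw [e6] at a6; omega)
      obtain ⟨z', hz1', hz2'⟩ := tb_link h n hn (hsh n w (j + 1)) (vsh n w j) c (by rw [e4, e6])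
        (hXY (j + 1) hj) huv (by rw [e5]; rw [e3] at a3; omega)
        (by rw [e5]; rw [e3] at a4; omega) (by rw [e4]; rw [e6] at a5; omega)
        (by rw [e4]; rw [e6] at a6; omega)
      have b1 := tb_conn_mono (hsubH j (by omega)) hz1
      have b2 := tb_conn_mono (hsubV j (by omega)) hz2
      have b3 := tb_conn_mono (hsubH (j + 1) hj) hz1'
      have b4 := tb_conn_mono (hsubV j (by omega)) hz2'
      exact tb_conn_trans h1 (tb_conn_trans b1 (tb_conn_trans (tb_conn_symm b2)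
        (tb_conn_trans b4 (tb_conn_symm b3))))
  exact ⟨X 0, hX 0 (by omega), Y I, hY I le_rfl,
    tb_conn_trans (hind I le_rfl) (tb_conn_mono (hsubH I le_rfl) (hXY I le_rfl))⟩

end LSoup
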