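import Pool.Agent.LSoup.Stmts

/-!
# Module E8: an explicit subharmonic function supported in `Rm n`, bounded below on `Bn n`
-/

open Finset

noncomputable section

namespace LSoup

namespace VBarAux

def kap : ℝ := Real.exp (-18) - Real.exp (-72)

lemma kap_pos : 0 < kap := by
  unfold kap
  have := Real.exp_lt_exp.2 (show (-72 : ℝ) < -18 by norm_num)
  linarith

lemma kap_le_one : kap ≤ 1 := by
  unfold kap
  have h1 : Real.exp (-18) ≤ 1 := Real.exp_le_one_iff.2 (by norm_num)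
  have h2 := Real.exp_pos (-72)
  linarith

/-- centres -/
def cx (n j : ℕ) : ℝ := 4 * n + j * n

def dd (n j : ℕ) (x y : ℝ) : ℝ := (x - cx n j) ^ 2 + (y - 4 * n) ^ 2

def gg (n j : ℕ) (x y : ℝ) : ℝ := Real.exp (-(8 / (n : ℝ) ^ 2 * dd n j x y))

def tt (n j : ℕ) (x y : ℝ) : ℝ := kap ^ j * (gg n j x y - Real.exp (-72))

def vv (n : ℕ) (z : Z2) : ℝ :=
  max 0 ((Finset.range 33).sup' ⟨0, by simp⟩ fun j => tt n j (z.1 : ℝ) (z.2 : ℝ))

lemma tt_le_vv (n j : ℕ) (hj : j < 33) (z : Z2) : tt n j (z.1 : ℝ) (z.2 : ℝ) ≤ vv n z :=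
  le_max_of_le_right (Finset.le_sup' (fun j => tt n j (z.1 : ℝ) (z.2 : ℝ)) (Finset.mem_range.2 hj))

lemma vv_nonneg (n : ℕ) (z : Z2) : 0 ≤ vv n z := le_max_left _ _

lemma exists_of_pos (n : ℕ) (z : Z2) (h : 0 < vv n z) :
    ∃ j < 33, vv n z = tt n j (z.1 : ℝ) (z.2 : ℝ) := by
  obtain ⟨j, hj, e⟩ := Finset.exists_mem_eq_sup' (s := Finset.range 33) ⟨0, by simp⟩
    (fun j => tt n j (z.1 : ℝ) (z.2 : ℝ))
  refine ⟨j, Finset.mem_range.1 hj, ?_⟩
  rw [← e]
  unfold vv at h ⊢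
  rcases lt_max_iff.1 h with h' | h'
  · exact absurd h' (lt_irrefl _)
  · exact max_eq_right h'.le

lemma dd_nonneg (n j : ℕ) (x y : ℝ) : 0 ≤ dd n j x y := by unfold dd; positivity

lemma gg_le_one (n j : ℕ) (x y : ℝ) : gg n j x y ≤ 1 := by
  unfold gg
  rw [Real.exp_le_one_iff]
  have := dd_nonneg n j x y
  have : 0 ≤ 8 / (n : ℝ) ^ 2 * dd n j x y := by positivity
  linarith

lemma tt_le_one (n j : ℕ) (x y : ℝ) : tt n j x y ≤ kap ^ j := by
  unfold tt
  have h1 := gg_le_one n j x y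
  have h2 := Real.exp_pos (-72)
  have h3 : 0 < kap ^ j := pow_pos kap_pos j
  nlinarith

lemma two_cosh (x : ℝ) : 2 + x ^ 2 ≤ Real.exp x + Real.exp (-x) := by
  have h1 : Real.cosh x = 1 + 2 * Real.sinh (x / 2) ^ 2 := by
    have h := Real.cosh_two_mul (x / 2)
    have h' := Real.cosh_sq (x / 2)
    rw [show 2 * (x / 2) = x by ring] at h
    rw [h, h']; ring
  have h2 : Real.cosh x = (Real.exp x + Real.exp (-x)) / 2 := Real.cosh_eq x
  have h3 : (x / 2) ^ 2 ≤ Real.sinh (x / 2) ^ 2 := by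
    rcases le_total 0 (x / 2) with h | h
    · exact pow_le_pow_left₀ h (Real.self_le_sinh_iff.2 h) 2
    · have := Real.sinh_le_self_iff.2 h
      nlinarith
  nlinarith

lemma exp_le (l : ℝ) (h0 : 0 ≤ l) (h1 : l ≤ 1) : Real.exp l ≤ 1 + 2 * l := by
  have h := Real.abs_exp_sub_one_sub_id_le (x := l) (by rw [abs_of_nonneg h0]; exact h1)
  have h' := (abs_le.1 h).2
  nlinarith

/-- (4.6) in abstract form -/
lemma gauss_sub (l a b : ℝ) (h0 : 0 < l) (h1 : l ≤ 1) (hR : 2 ≤ l * (a ^ 2 + b ^ 2)) :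
    4 * Real.exp (-(l * (a ^ 2 + b ^ 2))) ≤ Real.exp (-(l * ((a + 1) ^ 2 + b ^ 2)))
      + Real.exp (-(l * ((a - 1) ^ 2 + b ^ 2))) + Real.exp (-(l * (a ^ 2 + (b + 1) ^ 2)))
      + Real.exp (-(l * (a ^ 2 + (b - 1) ^ 2))) := by
  set G := Real.exp (-(l * (a ^ 2 + b ^ 2))) with hG
  have hGp : 0 < G := Real.exp_pos _
  have e1 : Real.exp (-(l * ((a + 1) ^ 2 + b ^ 2))) = G * Real.exp (-l) * Real.exp (-(2 * l * a)) := by
    rw [hG, ← Real.exp_add, ← Real.exp_add]; congr 1; ring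
  have e2 : Real.exp (-(l * ((a - 1) ^ 2 + b ^ 2))) = G * Real.exp (-l) * Real.exp (2 * l * a) := by
    rw [hG, ← Real.exp_add, ← Real.exp_add]; congr 1; ring
  have e3 : Real.exp (-(l * (a ^ 2 + (b + 1) ^ 2))) = G * Real.exp (-l) * Real.exp (-(2 * l * b)) := by
    rw [hG, ← Real.exp_add, ← Real.exp_add]; congr 1; ring
  have e4 : Real.exp (-(l * (a ^ 2 + (b - 1) ^ 2))) = G * Real.exp (-l) * Real.exp (2 * l * b) := by
    rw [hG, ← Real.exp_add, ← Real.exp_add]; congr 1; ring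
  rw [e1, e2, e3, e4]
  have ca := two_cosh (2 * l * a)
  have cb := two_cosh (2 * l * b)
  have hel : Real.exp l * Real.exp (-l) = 1 := by rw [← Real.exp_add]; simp
  have hE := exp_le l h0.le h1
  have hp := Real.exp_pos (-l)
  have key : 4 * Real.exp l ≤ (Real.exp (2 * l * a) + Real.exp (-(2 * l * a)))
      + (Real.exp (2 * l * b) + Real.exp (-(2 * l * b))) := by
    have : 2 * l ≤ l * (l * (a ^ 2 + b ^ 2)) := by nlinarith
    nlinarith
  have h4 : 4 * G = G * Real.exp (-l) * (4 * Real.exp l) := by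
    calc 4 * G = G * (Real.exp l * Real.exp (-l)) * 4 := by rw [hel]; ring
      _ = _ := by ring
  rw [h4]
  have hq : 0 < G * Real.exp (-l) := mul_pos hGp hp
  calc G * Real.exp (-l) * (4 * Real.exp l) ≤ G * Real.exp (-l) *
        ((Real.exp (2 * l * a) + Real.exp (-(2 * l * a)))
          + (Real.exp (2 * l * b) + Real.exp (-(2 * l * b)))) :=
        mul_le_mul_of_nonneg_left key hq.le
    _ = _ := by ring

lemma gg_sub (n j : ℕ) (hn : 3 ≤ n) (x y : ℝ) (h : (n : ℝ) ^ 2 / 4 ≤ dd n j x y) :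
    4 * gg n j x y ≤ gg n j (x + 1) y + gg n j (x - 1) y + gg n j x (y + 1) + gg n j x (y - 1) := by
  have hn' : (3 : ℝ) ≤ n := by exact_mod_cast hn
  have hl0 : 0 < 8 / (n : ℝ) ^ 2 := by positivity
  have hl1 : 8 / (n : ℝ) ^ 2 ≤ 1 := by
    rw [div_le_one (by positivity)]; nlinarith
  have hR : 2 ≤ 8 / (n : ℝ) ^ 2 * ((x - cx n j) ^ 2 + (y - 4 * n) ^ 2) := by
    have h' : (n : ℝ) ^ 2 / 4 ≤ (x - cx n j) ^ 2 + (y - 4 * n) ^ 2 := h
    calc (2 : ℝ) = 8 / (n : ℝ) ^ 2 * ((n : ℝ) ^ 2 / 4) := by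
          have : (n : ℝ) ≠ 0 := by linarith
          field_simp; norm_num
      _ ≤ _ := mul_le_mul_of_nonneg_left h' hl0.le
  have := gauss_sub (8 / (n : ℝ) ^ 2) (x - cx n j) (y - 4 * n) hl0 hl1 hR
  unfold gg dd
  rw [show x + 1 - cx n j = x - cx n j + 1 by ring, show x - 1 - cx n j = x - cx n j - 1 by ring,
    show y + 1 - 4 * (n : ℝ) = y - 4 * n + 1 by ring,
    show y - 1 - 4 * (n : ℝ) = y - 4 * n - 1 by ring]
  exact this

lemma tt_sub (n j : ℕ) (hn : 3 ≤ n) (x y : ℝ) (h : (n : ℝ) ^ 2 / 4 ≤ dd n j x y) :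
    4 * tt n j x y ≤ tt n j (x + 1) y + tt n j (x - 1) y + tt n j x (y + 1) + tt n j x (y - 1) := by
  have h1 := gg_sub n j hn x y h
  have h3 : 0 < kap ^ j := pow_pos kap_pos j
  have h2 := mul_le_mul_of_nonneg_left h1 h3.le
  unfold tt
  nlinarith

lemma lt_gg (n j : ℕ) (hn : 3 ≤ n) (x y c : ℝ) (h : dd n j x y < c * (n : ℝ) ^ 2) :
    Real.exp (-(8 * c)) < gg n j x y := by
  have hn' : (3 : ℝ) ≤ n := by exact_mod_cast hn
  unfold gg
  rw [Real.exp_lt_exp]
  have h2 : 8 / (n : ℝ) ^ 2 * dd n j x y < 8 / (n : ℝ) ^ 2 * (c * (n : ℝ) ^ 2) :=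
    mul_lt_mul_of_pos_left h (by positivity)
  have h3 : 8 / (n : ℝ) ^ 2 * (c * (n : ℝ) ^ 2) = 8 * c := by
    have : (n : ℝ) ≠ 0 := by linarith
    field_simp
  linarith

lemma dd_lt_of_pos (n j : ℕ) (hn : 3 ≤ n) (x y : ℝ) (h : 0 < tt n j x y) :
    dd n j x y < 9 * (n : ℝ) ^ 2 := by
  by_contra hc
  push Not at hc
  have hn' : (3 : ℝ) ≤ n := by exact_mod_cast hn
  have h3 : 0 < kap ^ j := pow_pos kap_pos j
  have hg : gg n j x y ≤ Real.exp (-72) := by
    unfold gg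
    rw [Real.exp_le_exp]
    have h2 : 8 / (n : ℝ) ^ 2 * (9 * (n : ℝ) ^ 2) ≤ 8 / (n : ℝ) ^ 2 * dd n j x y :=
      mul_le_mul_of_nonneg_left hc (by positivity)
    have h3 : 8 / (n : ℝ) ^ 2 * (9 * (n : ℝ) ^ 2) = 72 := by
      have : (n : ℝ) ≠ 0 := by linarith
      field_simp; norm_num
    linarith
  unfold tt at h
  have := mul_nonpos_of_nonneg_of_nonpos h3.le (sub_nonpos.2 hg)
  linarith

end VBarAux

open VBarAux in
theorem vbar : Stmt_v := by
  refine ⟨kap ^ 33, pow_pos kap_pos 33, 3, fun n hn => ⟨vv n, vv_nonneg n, ?_, ?_, ?_, ?_⟩⟩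
  · intro z
    refine max_le zero_le_one (Finset.sup'_le _ _ fun j _ => ?_)
    exact (tt_le_one n j _ _).trans (pow_le_one₀ kap_pos.le kap_le_one)
  · intro z hz
    by_contra hne
    have hpos : 0 < vv n z := lt_of_le_of_ne (vv_nonneg n z) (Ne.symm hne)
    obtain ⟨j, hj, e⟩ := exists_of_pos n z hpos
    rw [e] at hpos
    have hd := dd_lt_of_pos n j hn _ _ hpos
    apply hz
    have hn' : (3 : ℝ) ≤ n := by exact_mod_cast hn
    have hj' : (j : ℝ) ≤ 32 := by exact_mod_cast Nat.lt_succ_iff.1 hj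
    have hj0 : (0 : ℝ) ≤ j := Nat.cast_nonneg j
    have hx : |(z.1 : ℝ) - cx n j| < 3 * n := by
      apply abs_lt_of_sq_lt_sq _ (by positivity)
      unfold dd at hd
      nlinarith [sq_nonneg ((z.2 : ℝ) - 4 * n)]
    have hy : |(z.2 : ℝ) - 4 * n| < 3 * n := by
      apply abs_lt_of_sq_lt_sq _ (by positivity)
      unfold dd at hd
      nlinarith [sq_nonneg ((z.1 : ℝ) - cx n j)]
    rw [abs_lt] at hx hy
    unfold cx at hx
    have hjn : (j : ℝ) * n ≤ 32 * n := mul_le_mul_of_nonneg_right hj' (by positivity)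
    have hjn0 : 0 ≤ (j : ℝ) * n := by positivity
    simp only [Rm, Finset.mem_product, Finset.mem_Icc]
    refine ⟨⟨?_, ?_⟩, ⟨?_, ?_⟩⟩
    · have : (n : ℝ) ≤ z.1 := by linarith
      exact_mod_cast this
    · have : (z.1 : ℝ) ≤ 39 * n := by linarith
      exact_mod_cast this
    · have : (n : ℝ) ≤ z.2 := by linarith
      exact_mod_cast this
    · have : (z.2 : ℝ) ≤ 7 * n := by linarith
      exact_mod_cast this
  · intro z hz
    have h1 := vv_nonneg n (z.1 + 1, z.2)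
    have h2 := vv_nonneg n (z.1 - 1, z.2)
    have h3 := vv_nonneg n (z.1, z.2 + 1)
    have h4 := vv_nonneg n (z.1, z.2 - 1)
    unfold lap
    rcases (vv_nonneg n z).eq_or_lt with h0 | hpos
    · rw [← h0]; linarith
    obtain ⟨j, hj, e⟩ := exists_of_pos n z hpos
    have hn' : (3 : ℝ) ≤ n := by exact_mod_cast hn
    have hd : (n : ℝ) ^ 2 / 4 ≤ dd n j (z.1 : ℝ) (z.2 : ℝ) := by
      rcases Nat.eq_zero_or_pos j with rfl | hj0
      · by_contra hc
        push Not at hc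
        apply hz
        have hx : |(z.1 : ℝ) - cx n 0| < n := by
          apply abs_lt_of_sq_lt_sq _ (by positivity)
          unfold dd at hc
          nlinarith [sq_nonneg ((z.2 : ℝ) - 4 * n), sq_nonneg (n : ℝ)]
        have hy : |(z.2 : ℝ) - 4 * n| < n := by
          apply abs_lt_of_sq_lt_sq _ (by positivity)
          unfold dd at hc
          nlinarith [sq_nonneg ((z.1 : ℝ) - cx n 0), sq_nonneg (n : ℝ)]
        rw [abs_lt] at hx hy
        unfold cx at hx
        simp only [Nat.cast_zero, zero_mul, add_zero] at hx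
        simp only [Qn, Finset.mem_product, Finset.mem_Icc]
        refine ⟨⟨?_, ?_⟩, ⟨?_, ?_⟩⟩
        · have : 3 * (n : ℝ) ≤ z.1 := by linarith
          exact_mod_cast this
        · have : (z.1 : ℝ) ≤ 5 * n := by linarith
          exact_mod_cast this
        · have : 3 * (n : ℝ) ≤ z.2 := by linarith
          exact_mod_cast this
        · have : (z.2 : ℝ) ≤ 5 * n := by linarith
          exact_mod_cast this
      · by_contra hc
        push Not at hc
        obtain ⟨i, rfl⟩ : ∃ i, j = i + 1 := ⟨j - 1, by omega⟩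
        have hdi : dd n i (z.1 : ℝ) (z.2 : ℝ) < 9 / 4 * (n : ℝ) ^ 2 := by
          have hx : |(z.1 : ℝ) - cx n (i + 1)| < n / 2 := by
            apply abs_lt_of_sq_lt_sq _ (by positivity)
            unfold dd at hc
            nlinarith [sq_nonneg ((z.2 : ℝ) - 4 * n), sq_nonneg (n : ℝ)]
          rw [abs_lt] at hx
          have hcx : cx n (i + 1) = cx n i + n := by unfold cx; push_cast; ring
          unfold dd at hc ⊢
          rw [hcx] at hc hx
          nlinarith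
        have hg := lt_gg n i hn _ _ _ hdi
        have hki : 0 < kap ^ i := pow_pos kap_pos i
        have hti : kap ^ (i + 1) < tt n i (z.1 : ℝ) (z.2 : ℝ) := by
          unfold tt
          rw [pow_succ]
          apply mul_lt_mul_of_pos_left _ hki
          unfold kap
          have : Real.exp (-(8 * (9 / 4))) = Real.exp (-18) := by norm_num
          linarith
        have h5 := tt_le_one n (i + 1) (z.1 : ℝ) (z.2 : ℝ)
        have h6 := tt_le_vv n i (by omega) z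
        linarith
    have hs := tt_sub n j hn (z.1 : ℝ) (z.2 : ℝ) hd
    have k1 := tt_le_vv n j hj (z.1 + 1, z.2)
    have k2 := tt_le_vv n j hj (z.1 - 1, z.2)
    have k3 := tt_le_vv n j hj (z.1, z.2 + 1)
    have k4 := tt_le_vv n j hj (z.1, z.2 - 1)
    push_cast at k1 k2 k3 k4
    rw [e]
    linarith
  · intro z hz
    simp only [Bn, Finset.mem_product, Finset.mem_Icc] at hz
    obtain ⟨⟨a1, a2⟩, ⟨a3, a4⟩⟩ := hz
    have b1 : 35 * (n : ℝ) ≤ z.1 := by exact_mod_cast a1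
    have b2 : (z.1 : ℝ) ≤ 37 * n := by exact_mod_cast a2
    have b3 : 3 * (n : ℝ) ≤ z.2 := by exact_mod_cast a3
    have b4 : (z.2 : ℝ) ≤ 5 * n := by exact_mod_cast a4
    have hn' : (3 : ℝ) ≤ n := by exact_mod_cast hn
    have hd : dd n 32 (z.1 : ℝ) (z.2 : ℝ) < 9 / 4 * (n : ℝ) ^ 2 := by
      unfold dd cx
      push_cast
      nlinarith
    have hg := lt_gg n 32 hn _ _ _ hd
    refine le_trans ?_ (tt_le_vv n 32 (by norm_num) z)
    have hk : 0 < kap ^ 32 := pow_pos kap_pos 32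
    unfold tt
    rw [show kap ^ 33 = kap ^ 32 * kap by ring]
    apply mul_le_mul_of_nonneg_left _ hk.le
    unfold kap
    have : Real.exp (-(8 * (9 / 4))) = Real.exp (-18) := by norm_num
    linarith

end LSoup
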