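import Pool.Agent.LSoup.Stmts

/-! # Variance of the average over a tile close to a large connected set off the domain -/

open scoped Classical

noncomputable section

namespace LSoup

namespace VarXAux

lemma sum_avw (D T : Finset Z2) (f : Z2 → ℝ) (hf : ∀ x, x ∉ D → f x = 0) :
    ∑ x ∈ D, avw T x * f x = av T f := by
  have h1 : ∑ x ∈ D, avw T x * f x = ∑ x ∈ D ∪ T, avw T x * f x := by
    refine Finset.sum_subset Finset.subset_union_left fun x _ hx => ?_
    rw [hf x hx, mul_zero]
  have h2 : ∑ x ∈ T, avw T x * f x = ∑ x ∈ D ∪ T, avw T x * f x := by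
    refine Finset.sum_subset Finset.subset_union_right fun x _ hx => ?_
    simp [avw, hx]
  rw [h1, ← h2, av, div_eq_inv_mul, Finset.mul_sum]
  refine Finset.sum_congr rfl fun x hx => ?_
  simp [avw, hx]

end VarXAux

open VarXAux in
theorem varX (hd : Stmt_dual) (hc : Stmt_col) (ht : Stmt_colT) (hx : Stmt_cross) (he : Stmt_en) :
    Stmt_varX := by
  intro D K z r hr hK hKD h5 h10
  set z' : Z2 := (r * z.1, r * z.2) with hz'
  obtain ⟨S, hSK, hScard, hSinj⟩ := hx K z' (8 * r) (10 * r) hK (by omega)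
    (by obtain ⟨x, h, h'⟩ := h5; exact ⟨x, h, by omega⟩) h10
  have hScard' : S.card = 2 * r := by omega
  have hr0 : (0 : ℝ) < r := by exact_mod_cast hr
  have hSne : S.Nonempty := by
    rw [← Finset.card_pos]; omega
  have hSbx : S ⊆ bx z' (20 * r) := by
    intro x hx
    have h := (Finset.mem_filter.1 (hSK hx)).2.2
    simp only [nrm] at h
    simp only [bx, Finset.mem_product, Finset.mem_Icc]
    push_cast
    refine ⟨⟨?_, ?_⟩, ?_, ?_⟩ <;> omega
  have hTbx : tile r z ⊆ bx z' (20 * r) := by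
    intro x hx
    simp only [tile, Finset.mem_product, Finset.mem_Icc] at hx
    simp only [bx, Finset.mem_product, Finset.mem_Icc, hz']
    push_cast
    refine ⟨⟨?_, ?_⟩, ?_, ?_⟩ <;> omega
  refine (hd D (avw (tile r z))).2 200 (by norm_num) fun f hf => ?_
  rw [sum_avw D _ f hf]
  have hE := (he D f hf).1 (bx z' (20 * r))
  have hE0 : 0 ≤ EnL (bx z' (20 * r)) f := Finset.sum_nonneg fun _ _ => sq_nonneg _
  have h1 := hc z' (20 * r) S f hSbx hSne hSinj
  have h2 := ht z' z (20 * r) r f hTbx hr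
  have hS0 : av S f = 0 := by
    rw [av, Finset.sum_eq_zero, zero_div]
    intro x hx
    refine hf x fun hxD => ?_
    exact Finset.disjoint_left.1 hKD (Finset.mem_filter.1 (hSK hx)).1 hxD
  have e1 : (2 * ((20 * r : ℕ) : ℝ) / S.card) = 20 := by
    rw [hScard']; push_cast; field_simp
  have e2 : (2 * ((20 * r : ℕ) : ℝ) / r) = 40 := by
    push_cast; field_simp; norm_num
  rw [e1, hS0, zero_sub, abs_neg] at h1
  rw [e2] at h2
  set s := Real.sqrt (EnL (bx z' (20 * r)) f) with hs
  have hs0 : 0 ≤ s := Real.sqrt_nonneg _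
  have hs2 : s ^ 2 = EnL (bx z' (20 * r)) f := Real.sq_sqrt hE0
  have r20 : Real.sqrt 20 ≤ 4.5 := by
    rw [Real.sqrt_le_left (by norm_num)]; norm_num
  have r40 : Real.sqrt 40 ≤ 6.4 := by
    rw [Real.sqrt_le_left (by norm_num)]; norm_num
  have h3 : |av (tile r z) f| ≤ 13.9 * s := by
    have h4 : |av (tile r z) f| ≤ |av (tile r z) f - av (bx z' (20 * r)) f|
        + |av (bx z' (20 * r)) f| := by
      have := abs_add_le (av (tile r z) f - av (bx z' (20 * r)) f) (av (bx z' (20 * r)) f)
      simpa using this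
    nlinarith
  have h5' : av (tile r z) f ^ 2 ≤ (13.9 * s) ^ 2 := by
    rw [← sq_abs]
    exact pow_le_pow_left₀ (abs_nonneg _) h3 2
  nlinarith

end LSoup
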