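import Pool.Agent.LSoup.Stmts2

/-!
The variance of the average of the field over the box `Bn n` (paper (4.10)).
-/

open MeasureTheory ProbabilityTheory Finset Filter Topology

open scoped Classical

noncomputable section

namespace LSoup

/-- One column. -/
theorem varY_col (F : ℕ → ℝ) (h0 : F 0 = 0) (k N : ℕ) (hk : k ≤ N) :
    F k ^ 2 ≤ N * ∑ j ∈ Finset.range N, (F (j + 1) - F j) ^ 2 := by
  have h1 : F k = ∑ j ∈ Finset.range k, (F (j + 1) - F j) := by
    rw [Finset.sum_range_sub, h0, sub_zero]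
  have h2 : F k ^ 2 ≤ k * ∑ j ∈ Finset.range k, (F (j + 1) - F j) ^ 2 := by
    have := sq_sum_le_card_mul_sum_sq (s := Finset.range k) (f := fun j => F (j + 1) - F j)
    rw [Finset.card_range] at this
    rw [h1]
    exact this
  have h3 : ∑ j ∈ Finset.range k, (F (j + 1) - F j) ^ 2 ≤
      ∑ j ∈ Finset.range N, (F (j + 1) - F j) ^ 2 :=
    Finset.sum_le_sum_of_subset_of_nonneg (Finset.range_mono hk) fun _ _ _ => sq_nonneg _
  have h4 : (k : ℝ) ≤ N := by exact_mod_cast hk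
  have h5 : 0 ≤ ∑ j ∈ Finset.range k, (F (j + 1) - F j) ^ 2 :=
    Finset.sum_nonneg fun _ _ => sq_nonneg _
  have h6 : (0 : ℝ) ≤ N := Nat.cast_nonneg _
  calc F k ^ 2 ≤ k * ∑ j ∈ Finset.range k, (F (j + 1) - F j) ^ 2 := h2
    _ ≤ N * ∑ j ∈ Finset.range k, (F (j + 1) - F j) ^ 2 := mul_le_mul_of_nonneg_right h4 h5
    _ ≤ _ := mul_le_mul_of_nonneg_left h3 h6

/-- The energy of the columns. -/
theorem varY_energy (n : ℕ) (f : Z2 → ℝ) :
    ∑ x ∈ Finset.Icc (35 * n : ℤ) (37 * n), ∑ j ∈ Finset.range (5 * n),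
      (f (x, 8 * n - (j + 1 : ℕ)) - f (x, 8 * n - (j : ℕ))) ^ 2
    ≤ EnL (Finset.Icc (35 * n : ℤ) (37 * n) ×ˢ Finset.Icc (3 * n : ℤ) (8 * n)) f := by
  unfold EnL
  rw [← Finset.sum_product']
  let φ : ℤ × ℕ → Edge := fun p => ((p.1, 8 * n - (p.2 + 1 : ℕ)), false)
  have hinj : Set.InjOn φ (Finset.Icc (35 * n : ℤ) (37 * n) ×ˢ Finset.range (5 * n) :
      Finset (ℤ × ℕ)) := by
    rintro ⟨x, j⟩ _ ⟨x', j'⟩ _ h
    have h1 := congrArg (fun e : Edge => e.1.1) h
    have h2 := congrArg (fun e : Edge => e.1.2) h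
    simp only [φ] at h1 h2
    push_cast at h2
    ext
    · exact h1
    · show j = j'
      omega
  have hφ : ∀ p : ℤ × ℕ, (f (p.1, 8 * n - (p.2 + 1 : ℕ)) - f (p.1, 8 * n - (p.2 : ℕ))) ^ 2 =
      (f (src (φ p)) - f (tgt (φ p))) ^ 2 := by
    intro p
    have h1 : src (φ p) = ((p.1, 8 * n - (p.2 + 1 : ℕ)) : Z2) := rfl
    have h2 : tgt (φ p) = ((p.1, 8 * n - (p.2 : ℕ)) : Z2) := by
      simp only [tgt, φ]
      ext
      · simp
      · simp only [Bool.false_eq_true, if_false]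
        push_cast
        ring
    rw [h1, h2]
  calc ∑ p ∈ Finset.Icc (35 * n : ℤ) (37 * n) ×ˢ Finset.range (5 * n),
        (f (p.1, 8 * n - (p.2 + 1 : ℕ)) - f (p.1, 8 * n - (p.2 : ℕ))) ^ 2
      = ∑ p ∈ Finset.Icc (35 * n : ℤ) (37 * n) ×ˢ Finset.range (5 * n),
        (f (src (φ p)) - f (tgt (φ p))) ^ 2 := Finset.sum_congr rfl fun p _ => hφ p
    _ = ∑ e ∈ (Finset.Icc (35 * n : ℤ) (37 * n) ×ˢ Finset.range (5 * n)).image φ,
        (f (src e) - f (tgt e)) ^ 2 := by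
        rw [Finset.sum_image hinj]
    _ ≤ _ := by
        refine Finset.sum_le_sum_of_subset_of_nonneg ?_ fun _ _ _ => sq_nonneg _
        intro e he
        rw [Finset.mem_image] at he
        obtain ⟨⟨x, j⟩, hp, rfl⟩ := he
        rw [Finset.mem_product, Finset.mem_Icc, Finset.mem_range] at hp
        simp only at hp
        simp only [Ed, Finset.mem_filter, Finset.mem_product, Finset.mem_univ, and_true,
          Finset.mem_Icc, φ, tgt]
        push_cast
        refine ⟨⟨hp.1, by omega, by omega⟩, ?_, ?_, ?_⟩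
        · simpa using hp.1
        · omega
        · omega

theorem varY (hd : Stmt_dual) (he : Stmt_en) : Stmt_varY := by
  intro n D hn hD
  refine (hd D (avw (Bn n))).2 20 (by norm_num) ?_
  intro f hf
  have hE := (he D f hf).1 (Finset.Icc (35 * n : ℤ) (37 * n) ×ˢ Finset.Icc (3 * n : ℤ) (8 * n))
  have hE' := (varY_energy n f).trans hE
  set E : ℝ := En0 D f with hEdef
  have hcard : ((Bn n).card : ℝ) = (2 * n + 1) ^ 2 := by
    have h1 : (Bn n).card = (2 * n + 1) * (2 * n + 1) := by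
      rw [Bn, Finset.card_product, Int.card_Icc, Int.card_Icc]
      congr 1 <;> omega
    rw [h1]
    push_cast
    ring
  have h1 : ∑ x ∈ D, avw (Bn n) x * f x = ((2 * n + 1) ^ 2 : ℝ)⁻¹ * ∑ x ∈ Bn n, f x := by
    simp only [avw, ite_mul, zero_mul]
    rw [← Finset.sum_filter, ← Finset.mul_sum, hcard]
    congr 1
    refine Finset.sum_subset (fun x hx => (Finset.mem_filter.1 hx).2) ?_
    intro x hxB hx
    refine hf x fun hxD => hx (Finset.mem_filter.2 ⟨hxD, hxB⟩)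
  have h2 : (∑ x ∈ Bn n, f x) ^ 2 ≤ (2 * n + 1) ^ 2 * ∑ x ∈ Bn n, f x ^ 2 := by
    have := sq_sum_le_card_mul_sum_sq (s := Bn n) (f := f)
    rwa [hcard] at this
  have h3 : ∑ x ∈ Bn n, f x ^ 2 ≤ (2 * n + 1) * (5 * n) * E := by
    have h4 : ∀ x ∈ Finset.Icc (35 * n : ℤ) (37 * n), ∀ y ∈ Finset.Icc (3 * n : ℤ) (5 * n),
        f (x, y) ^ 2 ≤ (5 * n : ℝ) * ∑ j ∈ Finset.range (5 * n),
          (f (x, 8 * n - (j + 1 : ℕ)) - f (x, 8 * n - (j : ℕ))) ^ 2 := by
      intro x hx y hy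
      rw [Finset.mem_Icc] at hx hy
      have h5 := varY_col (fun j => f (x, 8 * n - (j : ℕ))) (by
        refine hf _ fun hmem => ?_
        have := hD hmem
        simp only [Rn, Finset.mem_product, Finset.mem_Icc] at this
        have h6 := this.2.2
        omega) (8 * n - y).toNat (5 * n) (by omega)
      have h6 : ((8 * n - ((8 * n - y).toNat : ℕ) : ℤ)) = y := by omega
      rw [h6] at h5
      push_cast at h5
      push_cast
      exact h5
    rw [Bn, Finset.sum_product]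
    calc ∑ x ∈ Finset.Icc (35 * n : ℤ) (37 * n), ∑ y ∈ Finset.Icc (3 * n : ℤ) (5 * n),
          f (x, y) ^ 2
        ≤ ∑ x ∈ Finset.Icc (35 * n : ℤ) (37 * n), ∑ y ∈ Finset.Icc (3 * n : ℤ) (5 * n),
          ((5 * n : ℝ) * ∑ j ∈ Finset.range (5 * n),
          (f (x, 8 * n - (j + 1 : ℕ)) - f (x, 8 * n - (j : ℕ))) ^ 2) :=
          Finset.sum_le_sum fun x hx => Finset.sum_le_sum fun y hy => h4 x hx y hy
      _ = (2 * n + 1) * (5 * n) * ∑ x ∈ Finset.Icc (35 * n : ℤ) (37 * n),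
          ∑ j ∈ Finset.range (5 * n),
          (f (x, 8 * n - (j + 1 : ℕ)) - f (x, 8 * n - (j : ℕ))) ^ 2 := by
          rw [Finset.mul_sum]
          refine Finset.sum_congr rfl fun x _ => ?_
          rw [Finset.sum_const, Int.card_Icc, nsmul_eq_mul,
            show (5 * (n : ℤ) + 1 - 3 * n).toNat = 2 * n + 1 by omega]
          push_cast
          ring
      _ ≤ _ := by
          refine mul_le_mul_of_nonneg_left hE' ?_
          positivity
  have hn' : (1 : ℝ) ≤ n := by exact_mod_cast hn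
  have hE0 : 0 ≤ E := by
    refine le_trans ?_ hE'
    exact Finset.sum_nonneg fun _ _ => Finset.sum_nonneg fun _ _ => sq_nonneg _
  have hc : (0 : ℝ) < 2 * n + 1 := by positivity
  rw [h1, mul_pow]
  calc (((2 * n + 1) ^ 2 : ℝ)⁻¹) ^ 2 * (∑ x ∈ Bn n, f x) ^ 2
      ≤ (((2 * n + 1) ^ 2 : ℝ)⁻¹) ^ 2 * ((2 * n + 1) ^ 2 * ((2 * n + 1) * (5 * n) * E)) := by
        refine mul_le_mul_of_nonneg_left (h2.trans ?_) (by positivity)
        exact mul_le_mul_of_nonneg_left h3 (by positivity)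
    _ = (5 * n) / (2 * n + 1) * E := by
        field_simp
    _ ≤ 20 * E := by
        refine mul_le_mul_of_nonneg_right ?_ hE0
        rw [div_le_iff₀ hc]
        nlinarith

end LSoup
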