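import Pool.Agent.LSoup.Stmts

open MeasureTheory ProbabilityTheory Finset Filter Topology

open scoped Classical

noncomputable section

namespace LSoup

private theorem sg_symm (A B : Finset Z2) (x : Z2) : sg (symmDiff A B) x = sg A x * sg B x := by
  unfold sg
  by_cases hA : x ∈ A <;> by_cases hB : x ∈ B <;> simp [Finset.mem_symmDiff, hA, hB]

private theorem sg_pm (A : Finset Z2) (x : Z2) : sg A x = 1 ∨ sg A x = -1 := by
  unfold sg
  by_cases hA : x ∈ A <;> simp [hA]

private theorem chi_nonneg (D : Finset Z2) (O : Finset Edge) :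
    0 ≤ ∑ A ∈ D.powerset, ∏ e ∈ O, (sg A (src e) * sg A (tgt e)) := by
  set χ : Finset Z2 → ℝ := fun A => ∏ e ∈ O, (sg A (src e) * sg A (tgt e)) with hχ
  have hmul : ∀ A B, χ (symmDiff A B) = χ A * χ B := by
    intro A B
    simp only [hχ]
    rw [← Finset.prod_mul_distrib]
    apply Finset.prod_congr rfl
    intro e _
    rw [sg_symm, sg_symm]
    ring
  set S : ℝ := ∑ A ∈ D.powerset, χ A with hS
  have hinv : ∀ B ∈ D.powerset, S * χ B = S := by
    intro B hB
    rw [hS, Finset.sum_mul]
    apply Finset.sum_nbij' (fun A => symmDiff A B) (fun A => symmDiff A B)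
    · intro A hA
      rw [Finset.mem_powerset] at *
      intro x hx
      rcases Finset.mem_symmDiff.1 hx with h | h
      · exact hA h.1
      · exact hB h.1
    · intro A hA
      rw [Finset.mem_powerset] at *
      intro x hx
      rcases Finset.mem_symmDiff.1 hx with h | h
      · exact hA h.1
      · exact hB h.1
    · intro A _
      exact symmDiff_symmDiff_cancel_right B A
    · intro A _
      exact symmDiff_symmDiff_cancel_right B A
    · intro A _
      exact (hmul A B).symm
  have h2 : S * S = D.powerset.card * S := by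
    calc S * S = ∑ B ∈ D.powerset, S * χ B := by rw [← Finset.mul_sum]
      _ = ∑ B ∈ D.powerset, S := Finset.sum_congr rfl hinv
      _ = D.powerset.card * S := by rw [Finset.sum_const, nsmul_eq_mul]
  have h3 : (0 : ℝ) < D.powerset.card := by
    rw [Finset.card_powerset]
    positivity
  by_contra hneg
  push Not at hneg
  have h4 : 0 < S * S := mul_pos_of_neg_of_neg hneg hneg
  rw [h2] at h4
  have h5 : (D.powerset.card : ℝ) * S < 0 := mul_neg_of_pos_of_neg h3 hneg
  linarith

theorem Vnn : Stmt_Vnn := by
  intro D f O hO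
  unfold Vc
  apply div_nonneg _ (by positivity)
  have h1 : ∀ (A : Finset Z2) (e : Edge),
      Real.exp (sg A (src e) * sg A (tgt e) * Jf f e) - 1
        = (sg A (src e) * sg A (tgt e)) * Real.sinh (Jf f e) + (Real.cosh (Jf f e) - 1) := by
    intro A e
    have hs : sg A (src e) * sg A (tgt e) = 1 ∨ sg A (src e) * sg A (tgt e) = -1 := by
      rcases sg_pm A (src e) with h | h <;> rcases sg_pm A (tgt e) with h' | h' <;>
        rw [h, h'] <;> norm_num
    rcases hs with h | h
    · rw [h, one_mul, one_mul, ← Real.cosh_add_sinh]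
      ring
    · rw [h]
      have : Real.exp (-1 * Jf f e) = Real.cosh (Jf f e) - Real.sinh (Jf f e) := by
        rw [neg_one_mul, Real.cosh_sub_sinh]
      rw [this]
      ring
  have h2 : ∀ A : Finset Z2, ∏ e ∈ O, (Real.exp (sg A (src e) * sg A (tgt e) * Jf f e) - 1)
      = ∑ O' ∈ O.powerset, (∏ e ∈ O', (sg A (src e) * sg A (tgt e))) *
          ((∏ e ∈ O', Real.sinh (Jf f e)) * ∏ e ∈ O \ O', (Real.cosh (Jf f e) - 1)) := by
    intro A
    rw [Finset.prod_congr rfl fun e _ => h1 A e, Finset.prod_add]
    apply Finset.sum_congr rfl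
    intro O' _
    rw [Finset.prod_mul_distrib]
    ring
  rw [Finset.sum_congr rfl fun A _ => h2 A, Finset.sum_comm]
  apply Finset.sum_nonneg
  intro O' _
  rw [← Finset.sum_mul]
  apply mul_nonneg (chi_nonneg D O')
  apply mul_nonneg
  · apply Finset.prod_nonneg
    intro e _
    exact Real.sinh_nonneg_iff.2 (abs_nonneg _)
  · apply Finset.prod_nonneg
    intro e _
    linarith [Real.one_le_cosh (Jf f e)]

end LSoup
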