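import Pool.Agent.LSoup.Stmts

/-!
# Void probabilities of the loop soup
-/

open MeasureTheory ProbabilityTheory Finset Filter Topology

open scoped Classical

noncomputable section

namespace LSoup

theorem Void_wt_nonneg (l : List Z2) : 0 ≤ wt l := by
  unfold wt
  positivity

theorem Void_poisson (r : NNReal) : poissonMeasure r {0} = ENNReal.ofReal (Real.exp (-(r : ℝ))) := by
  rw [poissonMeasure_singleton]
  simp

theorem void (hs : Stmt_sum) : Stmt_void := by
  intro D a A ha
  set r : List Z2 → NNReal := fun l => if IsLoopIn (Ed D) l then Real.toNNReal (a * wt l) else 0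
    with hr
  have hset : {c : List Z2 → ℕ | ∀ l ∈ A, c l = 0} = Set.pi A (fun _ => ({0} : Set ℕ)) := by
    ext c
    simp [Set.mem_pi]
  have h1 : (soup D a) (Set.pi A fun _ => ({0} : Set ℕ)) = ∏' l : A, (poissonMeasure (r l)) {0} :=
    Measure.infinitePi_pi_of_countable (μ := fun l => poissonMeasure (r l)) (Set.to_countable A)
      (fun i _ => MeasurableSet.singleton _)
  have hrr : ∀ l, (r l : ℝ) = a * (if IsLoopIn (Ed D) l then wt l else 0) := by
    intro l
    simp only [hr]
    split_ifs with h
    · rw [Real.coe_toNNReal _ (mul_nonneg ha (Void_wt_nonneg l))]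
    · simp
  have hsum : Summable fun l : List Z2 => if IsLoopIn (Ed D) l ∧ l ∈ A then wt l else 0 := by
    refine (hs D).of_nonneg_of_le ?_ ?_
    · intro l
      split_ifs
      · exact Void_wt_nonneg l
      · exact le_rfl
    · intro l
      by_cases h : IsLoopIn (Ed D) l
      · by_cases h' : l ∈ A
        · simp [h, h']
        · simp [h, h', Void_wt_nonneg l]
      · simp [h]
  have hsub : HasSum (fun l : A => (r l : ℝ))
      (a * ∑' l : List Z2, if IsLoopIn (Ed D) l ∧ l ∈ A then wt l else 0) := by
    have h2 := hsum.hasSum.mul_left a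
    have h3 : (fun l : List Z2 => a * (if IsLoopIn (Ed D) l ∧ l ∈ A then wt l else 0))
        = A.indicator fun l => (r l : ℝ) := by
      funext l
      by_cases h' : l ∈ A
      · rw [Set.indicator_of_mem h', hrr]
        simp [h']
      · rw [Set.indicator_of_notMem h']
        simp [h']
    rw [h3] at h2
    exact (hasSum_subtype_iff_indicator (f := fun l => (r l : ℝ)) (s := A)).2 h2
  have hprod : HasProd (fun l : A => Real.exp (-(r l : ℝ)))
      (Real.exp (-(a * ∑' l : List Z2, if IsLoopIn (Ed D) l ∧ l ∈ A then wt l else 0))) :=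
    hsub.neg.rexp
  have hprod' : HasProd (fun l : A => ENNReal.ofReal (Real.exp (-(r l : ℝ))))
      (ENNReal.ofReal
        (Real.exp (-(a * ∑' l : List Z2, if IsLoopIn (Ed D) l ∧ l ∈ A then wt l else 0)))) := by
    have h4 := (ENNReal.continuous_ofReal.tendsto _).comp hprod
    refine h4.congr fun s => ?_
    simp only [Function.comp]
    exact ENNReal.ofReal_prod_of_nonneg fun _ _ => (Real.exp_pos _).le
  rw [hset, Measure.real, h1]
  simp only [Void_poisson]
  rw [hprod'.tprod_eq, ENNReal.toReal_ofReal (Real.exp_pos _).le, neg_mul]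

end LSoup
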