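import Pool.Agent.LSoup.Stmts2

open MeasureTheory ProbabilityTheory Finset Filter Topology

open scoped Classical

noncomputable section

namespace LSoup

theorem Zlem (h1 : Stmt_detL) (h2 : Stmt_detG) : Stmt_Z := by
  intro D O hO
  obtain ⟨hpos, hlog⟩ := h1 D O hO
  rw [h2 D O hO, Real.sqrt_eq_rpow, Real.rpow_def_of_pos hpos, hlog, one_div, ← Real.exp_neg]
  congr 1
  ring

end LSoup
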