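import Pool.Agent.LSoup.Gap
import Pool.Agent.LSoup.Trace
import Pool.Agent.LSoup.Sum
import Pool.Agent.LSoup.Void
import Pool.Agent.LSoup.Prob
import Pool.Agent.LSoup.Sub
import Pool.Agent.LSoup.Incl
import Pool.Agent.LSoup.Mark
import Pool.Agent.LSoup.Dis
import Pool.Agent.LSoup.Conv
import Pool.Agent.LSoup.Haz
import Pool.Agent.LSoup.Mono
import Pool.Agent.LSoup.Reg
import Pool.Agent.LSoup.Indep
import Pool.Agent.LSoup.Inv
import Pool.Agent.LSoup.Leb
import Pool.Agent.LSoup.Int
import Pool.Agent.LSoup.Law2
import Pool.Agent.LSoup.Solve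
import Pool.Agent.LSoup.Law
import Pool.Agent.LSoup.Green
import Pool.Agent.LSoup.Dual
import Pool.Agent.LSoup.DetL
import Pool.Agent.LSoup.DetG
import Pool.Agent.LSoup.Z
import Pool.Agent.LSoup.MI
import Pool.Agent.LSoup.Vnn
import Pool.Agent.LSoup.CplO
import Pool.Agent.LSoup.CplG
import Pool.Agent.LSoup.CplB
import Pool.Agent.LSoup.CplM
import Pool.Agent.LSoup.Sign
import Pool.Agent.LSoup.Mix
import Pool.Agent.LSoup.Shift
import Pool.Agent.LSoup.Out
import Pool.Agent.LSoup.Dec
import Pool.Agent.LSoup.Cap
import Pool.Agent.LSoup.Ring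
import Pool.Agent.LSoup.P4
import Pool.Agent.LSoup.Col
import Pool.Agent.LSoup.ColT
import Pool.Agent.LSoup.En
import Pool.Agent.LSoup.Log
import Pool.Agent.LSoup.Cross
import Pool.Agent.LSoup.Mass
import Pool.Agent.LSoup.VBar
import Pool.Agent.LSoup.Cut
import Pool.Agent.LSoup.Flux
import Pool.Agent.LSoup.VarY
import Pool.Agent.LSoup.VarX
import Pool.Agent.LSoup.Tiles
import Pool.Agent.LSoup.P5
import Pool.Agent.LSoup.L6
import Pool.Agent.LSoup.KO
import Pool.Agent.LSoup.Step
import Pool.Agent.LSoup.T7
import Pool.Agent.LSoup.Plane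
import Pool.Agent.LSoup.Tube
import Pool.Agent.LSoup.Rec
import Pool.Agent.LSoup.Decay
import Pool.Agent.LSoup.Len
import Pool.Agent.LSoup.Main
import Pool.Agent.LSoup.PPP
import Pool.Agent.LSoup.Fin

/-!
# Assembly of the modules
-/

namespace LSoup

theorem assembled : Stmt_final := by
  have hgap : Stmt_gap := gap
  have htrace : Stmt_trace := trace
  have hsum : Stmt_sum := sum_ hgap htrace
  have hvoid : Stmt_void := void hsum
  have hprob : Stmt_prob := prob
  have hsub : Stmt_sub := sub hvoid hsum hprob
  have hincl : Stmt_incl := incl hsum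
  have hmark : Stmt_mark := mark hsub hsum hprob
  have hdis : Stmt_dis := dis hprob
  have hconv : Stmt_conv := conv hsub hprob
  have hhaz : Stmt_haz := haz hconv hvoid hdis hprob
  have hmono : Stmt_mono := mono hconv hprob
  have hreg : Stmt_reg := reg
  have hindep : Stmt_indep := indep
  have hinv : Stmt_inv := inv hprob hsub hdis
  have hleb : Stmt_leb := leb
  have hint : Stmt_int := int_ hgap
  have hlaw2 : Stmt_law2 := law2 hleb hint
  have hsolve : Stmt_solve := solve hgap
  have hlaw : Stmt_law := law hlaw2 hsolve hint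
  have hgreen : Stmt_green := green hlaw2 hsolve hint
  have hdual : Stmt_dual := dual hgreen hsolve hgap
  have hdetL : Stmt_detL := detL hgap htrace hsum
  have hdetG : Stmt_detG := detG hgap hleb
  have hZ : Stmt_Z := Zlem hdetL hdetG
  have hMI : Stmt_MI := MI hdetL hincl hgreen hgap
  have hVnn : Stmt_Vnn := Vnn
  have hcplO : Stmt_cplO := cplO hZ hsub hint hprob
  have hcplG : Stmt_cplG := cplG hint
  have hcplB : Stmt_cplB := cplB hint
  have hcplM : Stmt_cplM := cplM hint hcplO
  have hsign : Stmt_sign := sign_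
  have hen : Stmt_en := en
  have hshift : Stmt_shift := shift mix
  have hout : Stmt_out := out hshift hgap hsolve hen
  have hdec : Stmt_dec := dec hgap hen
  have hcap : Stmt_cap := cap hleb hout hdec hcplB hint hen hgap
  have hring : Stmt_ring := ring_ hen
  have hKO : Stmt_KO := KO_
  have hP4 : Stmt_P4 := P4 hcplO hcplG hcplM hsign hcap hring hlaw hint hVnn hKO
  have hcol : Stmt_col := col
  have hcolT : Stmt_colT := colT hcol
  have hlog : Stmt_log := log_ hen
  have hcross : Stmt_cross := cross
  have hmass : Stmt_mass := mass hMI hdual hcol hen hlog hint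
  have hflux : Stmt_flux := flux hgreen vbar cut hen
  have hvarY : Stmt_varY := varY hdual hen
  have hvarX : Stmt_varX := varX hdual hcol hcolT hcross hen
  have htiles : Stmt_tiles := tiles_
  have hP5 : Stmt_P5 := P5 hP4 hflux hvarY hvarX htiles hprob hKO
  have hL6 : Stmt_L6 := L6 hmass hcross htiles hsum hKO
  have hstep : Stmt_step := step hhaz hdis hmark hmono hKO hprob hsum
  have hT7 : Stmt_T7 := T7 hstep hP5 hL6
  have htube : Stmt_tube := tube plane
  have hrec : Stmt_rec := rec htube hreg hindep hinv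
  have hdecay : Stmt_decay := decay hrec hT7
  have hlen : Stmt_len := len_
  have hmain : Stmt_main := main_ hdecay htube hreg hinv hlen
  have hppp : Stmt_ppp := ppp hsum hprob hsub
  exact final_ hmain hppp

end LSoup
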