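import Pool.Agent.LSoup.Stmts

/-!
# Common lemmas for the modules CplG and CplB

Signs, invariance of `Gam` under signs, and the identity that sums the weights `Wc` over all
splittings of a set of edges.
-/

open MeasureTheory ProbabilityTheory Finset

open scoped Classical

noncomputable section

namespace LSoup.CplAux

lemma sg_cases (A : Finset Z2) (x : Z2) : sg A x = 1 ∨ sg A x = -1 := by
  unfold sg; split_ifs <;> simp

lemma abs_sg (A : Finset Z2) (x : Z2) : |sg A x| = 1 := by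
  rcases sg_cases A x with h | h <;> rw [h] <;> simp

lemma sg_mul_pos {A : Finset Z2} {x y : Z2} (h : x ∈ A ↔ y ∈ A) : sg A x * sg A y = 1 := by
  unfold sg
  by_cases hx : x ∈ A
  · rw [if_pos hx, if_pos (h.1 hx)]; norm_num
  · rw [if_neg hx, if_neg (fun hy => hx (h.2 hy))]; norm_num

lemma sg_mul_neg {A : Finset Z2} {x y : Z2} (h : ¬ (x ∈ A ↔ y ∈ A)) :
    sg A x * sg A y = -1 := by
  unfold sg
  by_cases hx : x ∈ A
  · have hy : y ∉ A := fun hy => h ⟨fun _ => hy, fun _ => hx⟩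
    rw [if_pos hx, if_neg hy]; norm_num
  · have hy : y ∈ A := by
      by_contra hy
      exact h ⟨fun h' => absurd h' hx, fun h' => absurd h' hy⟩
    rw [if_neg hx, if_pos hy]; norm_num

lemma Gam_map_sg (A : Finset Z2) : Gam.map (fun f x => sg A x * f x) = Gam := by
  unfold Gam
  rw [Measure.infinitePi_map_pi (fun _ : Z2 => gaussianReal 0 (1 / 4))
    (f := fun x y => sg A x * y) (fun i => measurable_const_mul _)]
  congr 1
  funext x
  rw [gaussianReal_map_const_mul]
  rcases sg_cases A x with h | h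
  · congr 1
    · simp
    · ext
      simp [h]
  · congr 1
    · simp
    · ext
      simp [h]

lemma Jf_sg (A : Finset Z2) (f : Z2 → ℝ) (e : Edge) :
    Jf (fun x => sg A x * f x) e = Jf f e := by
  unfold Jf
  rw [abs_mul, abs_mul, abs_mul, abs_mul, abs_sg, abs_sg, one_mul, one_mul]

lemma Jf_sg_abs (A : Finset Z2) (f : Z2 → ℝ) (e : Edge) :
    Jf (fun x => sg A x * |f x|) e = Jf f e := by
  unfold Jf
  rw [abs_mul, abs_mul, abs_mul, abs_mul, abs_sg, abs_sg, one_mul, one_mul, abs_abs, abs_abs]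

/-- averaging over signs of `|f|` or of `f` is the same -/
lemma sum_sg (D : Finset Z2) (G : (Z2 → ℝ) → ℝ) (hG : DepOn D G) (f : Z2 → ℝ) :
    ∑ A ∈ D.powerset, G (fun x => sg A x * |f x|) = ∑ A ∈ D.powerset, G (fun x => sg A x * f x) := by
  set B := D.filter fun x => f x < 0 with hB
  have hBD : B ⊆ D := filter_subset _ _
  have hsub : ∀ A ∈ D.powerset, symmDiff A B ∈ D.powerset := by
    intro A hA
    rw [mem_powerset] at hA ⊢
    intro x hx
    rw [mem_symmDiff] at hx
    rcases hx with h | h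
    · exact hA h.1
    · exact hBD h.1
  refine sum_bij' (fun A _ => symmDiff A B) (fun A _ => symmDiff A B) hsub hsub ?_ ?_ ?_
  · intro A _
    exact symmDiff_symmDiff_cancel_right B A
  · intro A _
    exact symmDiff_symmDiff_cancel_right B A
  · intro A _
    apply hG
    intro x hx
    by_cases hfx : f x < 0
    · have hxB : x ∈ B := mem_filter.2 ⟨hx, hfx⟩
      rw [abs_of_neg hfx]
      by_cases hxA : x ∈ A
      · have h1 : x ∉ symmDiff A B := by
          rw [mem_symmDiff]; tauto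
        simp only [sg, if_pos hxA, if_neg h1]; ring
      · have h1 : x ∈ symmDiff A B := by
          rw [mem_symmDiff]; tauto
        simp only [sg, if_neg hxA, if_pos h1]; ring
    · have hxB : x ∉ B := fun h => hfx (mem_filter.1 h).2
      rw [abs_of_nonneg (not_lt.1 hfx)]
      by_cases hxA : x ∈ A
      · have h1 : x ∈ symmDiff A B := by
          rw [mem_symmDiff]; tauto
        simp only [sg, if_pos hxA, if_pos h1]
      · have h1 : x ∉ symmDiff A B := by
          rw [mem_symmDiff]; tauto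
        simp only [sg, if_neg hxA, if_neg h1]

lemma measurable_sg (A : Finset Z2) : Measurable (fun (f : Z2 → ℝ) (x : Z2) => sg A x * f x) :=
  measurable_pi_lambda _ fun x => (measurable_pi_apply x).const_mul _

lemma integral_sg (A : Finset Z2) (G : (Z2 → ℝ) → ℝ) (hG : Integrable G Gam) :
    Integrable (fun f : Z2 → ℝ => G (fun x => sg A x * f x)) Gam ∧
    ∫ f, G (fun x => sg A x * f x) ∂Gam = ∫ f, G f ∂Gam := by
  have hG' : Integrable G (Gam.map (fun f x => sg A x * f x)) := by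
    rw [Gam_map_sg]; exact hG
  constructor
  · exact hG'.comp_measurable (measurable_sg A)
  · have h := integral_map (measurable_sg A).aemeasurable hG'.aestronglyMeasurable
    rw [← h, Gam_map_sg]

lemma sym_int (D : Finset Z2) (G : (Z2 → ℝ) → ℝ) (hG : DepOn D G) (hint : Integrable G Gam) :
    ∫ f, (∑ A ∈ D.powerset, G (fun x => sg A x * |f x|)) / 2 ^ D.card ∂Gam
      = ∫ f, G f ∂Gam := by
  have h1 : (fun f : Z2 → ℝ => (∑ A ∈ D.powerset, G (fun x => sg A x * |f x|)) / 2 ^ D.card)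
      = fun f => (∑ A ∈ D.powerset, G (fun x => sg A x * f x)) / 2 ^ D.card := by
    funext f
    rw [sum_sg D G hG f]
  rw [h1, integral_div, integral_finsetSum _ (fun A _ => (integral_sg A G hint).1),
    sum_congr rfl (fun A _ => (integral_sg A G hint).2), sum_const, card_powerset, nsmul_eq_mul]
  push_cast
  field_simp

/-! ### Algebra of the weights -/

lemma prod_key (A : Finset Z2) (ω : Finset Edge) (f : Z2 → ℝ) :
    ∏ e ∈ ω, (Real.exp (sg A (src e) * sg A (tgt e) * Jf f e) - Real.exp (-Jf f e))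
      = if ∀ e ∈ ω, (src e ∈ A ↔ tgt e ∈ A) then ∏ e ∈ ω, (2 * Real.sinh (Jf f e)) else 0 := by
  split_ifs with h
  · refine prod_congr rfl fun e he => ?_
    rw [sg_mul_pos (h e he), one_mul, Real.sinh_eq]
    ring
  · push Not at h
    obtain ⟨e, he, hne⟩ := h
    refine prod_eq_zero he ?_
    have h' : ¬ (src e ∈ A ↔ tgt e ∈ A) := by tauto
    rw [sg_mul_neg h']
    simp

lemma sum_split (E : Finset Edge) (Φ : Finset Edge → Finset Edge → ℝ) :
    ∑ O ∈ E.powerset, ∑ b ∈ (E \ O).powerset, Φ O b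
      = ∑ ω ∈ E.powerset, ∑ O ∈ ω.powerset, Φ O (ω \ O) := by
  rw [sum_sigma', sum_sigma']
  refine sum_bij' (fun p _ => ⟨p.1 ∪ p.2, p.1⟩) (fun p _ => ⟨p.2, p.1 \ p.2⟩) ?_ ?_ ?_ ?_ ?_
  · rintro ⟨O, b⟩ h
    simp only [mem_sigma, mem_powerset] at h ⊢
    exact ⟨union_subset h.1 (h.2.trans sdiff_subset), subset_union_left⟩
  · rintro ⟨ω, O⟩ h
    simp only [mem_sigma, mem_powerset] at h ⊢
    exact ⟨h.2.trans h.1, sdiff_subset_sdiff h.1 (Subset.refl _)⟩
  · rintro ⟨O, b⟩ h
    simp only [mem_sigma, mem_powerset] at h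
    have hd : Disjoint O b := by
      rw [disjoint_left]
      intro e he hb
      exact (mem_sdiff.1 (h.2 hb)).2 he
    have : (O ∪ b) \ O = b := by
      rw [union_sdiff_left]
      exact sdiff_eq_self_of_disjoint hd.symm
    simp only [this]
  · rintro ⟨ω, O⟩ h
    simp only [mem_sigma, mem_powerset] at h
    have : O ∪ ω \ O = ω := union_sdiff_of_subset h.2
    simp only [this]
  · rintro ⟨O, b⟩ h
    simp only [mem_sigma, mem_powerset] at h
    have hd : Disjoint O b := by
      rw [disjoint_left]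
      intro e he hb
      exact (mem_sdiff.1 (h.2 hb)).2 he
    have : (O ∪ b) \ O = b := by
      rw [union_sdiff_left]
      exact sdiff_eq_self_of_disjoint hd.symm
    simp only [this]

/-- the weight of `ω` -/
def wgt (D : Finset Z2) (f : Z2 → ℝ) (ω : Finset Edge) : ℝ :=
  (∏ e ∈ ω, (2 * Real.sinh (Jf f e))) * ∏ e ∈ Ed D \ ω, Real.exp (-Jf f e)

lemma sum_W (D : Finset Z2) (f : Z2 → ℝ) (ω : Finset Edge) :
    ∑ O ∈ ω.powerset, Wc D f O (ω \ O) = wgt D f ω * ((sgset D ω).card / 2 ^ D.card) := by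
  have h1 : ∀ O ∈ ω.powerset, Wc D f O (ω \ O)
      = (∏ e ∈ Ed D \ ω, Real.exp (-Jf f e)) / 2 ^ D.card *
        ∑ A ∈ D.powerset, (∏ e ∈ O, (Real.exp (sg A (src e) * sg A (tgt e) * Jf f e) - 1)) *
          ∏ e ∈ ω \ O, (1 - Real.exp (-Jf f e)) := by
    intro O hO
    rw [mem_powerset] at hO
    unfold Wc Vc
    rw [union_sdiff_of_subset hO, ← sum_mul]
    ring
  rw [sum_congr rfl h1, ← mul_sum, sum_comm]
  have h2 : ∀ A ∈ D.powerset, ∑ O ∈ ω.powerset,
      (∏ e ∈ O, (Real.exp (sg A (src e) * sg A (tgt e) * Jf f e) - 1)) *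
          ∏ e ∈ ω \ O, (1 - Real.exp (-Jf f e))
      = if ∀ e ∈ ω, (src e ∈ A ↔ tgt e ∈ A) then ∏ e ∈ ω, (2 * Real.sinh (Jf f e)) else 0 := by
    intro A _
    rw [← prod_add, ← prod_key]
    refine prod_congr rfl fun e _ => ?_
    ring
  rw [sum_congr rfl h2, ← sum_filter, sum_const, nsmul_eq_mul]
  unfold wgt sgset
  ring

lemma double (D : Finset Z2) (f : Z2 → ℝ) (F : Finset Edge → ℝ) :
    ∑ O ∈ (Ed D).powerset, ∑ b ∈ (Ed D \ O).powerset, Wc D f O b * F (O ∪ b)
      = ∑ ω ∈ (Ed D).powerset, wgt D f ω * ((sgset D ω).card / 2 ^ D.card) * F ω := by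
  rw [sum_split (Ed D) (fun O b => Wc D f O b * F (O ∪ b))]
  refine sum_congr rfl fun ω _ => ?_
  rw [← sum_W, sum_mul]
  refine sum_congr rfl fun O hO => ?_
  rw [mem_powerset] at hO
  rw [union_sdiff_of_subset hO]

lemma sum_wgt (D : Finset Z2) (f : Z2 → ℝ) (A : Finset Z2) :
    ∑ ω ∈ (Ed D).powerset, (if ∀ e ∈ ω, (src e ∈ A ↔ tgt e ∈ A) then wgt D f ω else 0)
      = Real.exp (H (Ed D) fun x => sg A x * |f x|) := by
  have h1 : ∀ ω ∈ (Ed D).powerset,
      (if ∀ e ∈ ω, (src e ∈ A ↔ tgt e ∈ A) then wgt D f ω else 0)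
      = (∏ e ∈ ω, (Real.exp (sg A (src e) * sg A (tgt e) * Jf f e) - Real.exp (-Jf f e))) *
        ∏ e ∈ Ed D \ ω, Real.exp (-Jf f e) := by
    intro ω _
    rw [prod_key]
    unfold wgt
    split_ifs <;> simp
  rw [sum_congr rfl h1, ← prod_add]
  unfold H
  rw [Real.exp_sum]
  refine prod_congr rfl fun e _ => ?_
  rw [sub_add_cancel]
  congr 1
  unfold Jf
  rw [abs_mul]
  ring

lemma measurable_Jf (e : Edge) : Measurable (fun f : Z2 → ℝ => Jf f e) := by
  unfold Jf
  have h1 : Measurable fun f : Z2 → ℝ => f (src e) * f (tgt e) := by fun_prop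
  exact measurable_abs.comp h1

lemma measurable_H (O : Finset Edge) : Measurable (fun f : Z2 → ℝ => H O f) := by
  unfold H
  fun_prop

lemma integrable_of_bound (hi : Stmt_int) (D : Finset Z2) (G : (Z2 → ℝ) → ℝ) (hm : Measurable G)
    (C b : ℝ)
    (hb : ∀ f, |G f| ≤ C * Real.exp (∑ e ∈ Ed D, Jf f e + b * ∑ x ∈ D, |f x|)) :
    Integrable G Gam :=
  ((hi D b).1.const_mul C).mono' hm.aestronglyMeasurable (Filter.Eventually.of_forall hb)

lemma mem_of_Ed {D : Finset Z2} {e : Edge} (he : e ∈ Ed D) : src e ∈ D ∧ tgt e ∈ D := by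
  unfold Ed at he
  rw [mem_filter, mem_product] at he
  exact ⟨he.1.1, he.2⟩

lemma Jf_nonneg (f : Z2 → ℝ) (e : Edge) : 0 ≤ Jf f e := abs_nonneg _

end LSoup.CplAux
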