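import Mathlib

/-!
# Random walk loop soup on finite subsets of the square lattice: definitions

Rooted nearest neighbour loops are lists of lattice points.  The loop soup of intensity `a` in a
finite set `D` is the family of independent Poisson numbers `c l` of copies of the rooted loops `l`
in `D`, with means `a * 4^(-n) / n`, `n` the number of jumps of `l`.
-/

open MeasureTheory ProbabilityTheory Finset

open scoped Classical

noncomputable section

namespace LSoup

abbrev Z2 : Type := ℤ × ℤ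

/-- An edge of the square lattice: `(x, true)` joins `x` and `x + (1,0)`,
`(x, false)` joins `x` and `x + (0,1)`. -/
abbrev Edge : Type := Z2 × Bool

def src (e : Edge) : Z2 := e.1

def tgt (e : Edge) : Z2 := if e.2 then (e.1.1 + 1, e.1.2) else (e.1.1, e.1.2 + 1)

/-- The edges with both ends in `D`. -/
def Ed (D : Finset Z2) : Finset Edge :=
  (D ×ˢ (Finset.univ : Finset Bool)).filter fun e => tgt e ∈ D

/-- `x` and `y` are the two ends of an edge of `O`. -/
def Joined (O : Finset Edge) (x y : Z2) : Prop :=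
  ∃ e ∈ O, (src e = x ∧ tgt e = y) ∨ (src e = y ∧ tgt e = x)

/-- `x` and `y` are connected by a path of edges of `O`. -/
def Conn (O : Finset Edge) : Z2 → Z2 → Prop := Relation.ReflTransGen (Joined O)

/-- The points of `D` that are connected to the set `S` by edges of `O`. -/
def KO (D : Finset Z2) (O : Finset Edge) (S : Finset Z2) : Finset Z2 :=
  D.filter fun x => ∃ b ∈ S, Conn O b x

/-- Connected subsets of the lattice. -/
def ConnSet (S : Finset Z2) : Prop := ∀ x ∈ S, ∀ y ∈ S, Conn (Ed S) x y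

/-- Sup distance. -/
def nrm (x y : Z2) : ℕ := max (x.1 - y.1).natAbs (x.2 - y.2).natAbs

/-- Sup-norm balls. -/
def bx (z : Z2) (r : ℕ) : Finset Z2 :=
  Finset.Icc (z.1 - r) (z.1 + r) ×ˢ Finset.Icc (z.2 - r) (z.2 + r)

/-- Sup-norm neighbourhoods. -/
def nbhd (S : Finset Z2) (r : ℕ) : Finset Z2 := S.biUnion fun x => bx x r

/-! ### Loops -/

/-- `l` is a rooted loop that uses only edges of `O`. -/
def IsLoopIn (O : Finset Edge) (l : List Z2) : Prop :=
  l ≠ [] ∧ List.IsChain (Joined O) (l ++ l.take 1)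

/-- Mass of a rooted loop: `4^(-n) / n`. -/
def wt (l : List Z2) : ℝ := (1 / 4 : ℝ) ^ l.length / l.length

/-- Total mass of the rooted loops with edges in `O`. -/
def Ms (O : Finset Edge) : ℝ := ∑' l : List Z2, if IsLoopIn O l then wt l else 0

/-- Mass of the loops in `D` that hit both `A` and `A'`. -/
def hitM (D A A' : Finset Z2) : ℝ :=
  ∑' l : List Z2, if IsLoopIn (Ed D) l ∧ (∃ x ∈ l, x ∈ A) ∧ (∃ x ∈ l, x ∈ A') then wt l else 0

/-- The loop traverses the edge (in one of the two directions). -/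
def Trav (l : List Z2) (e : Edge) : Prop :=
  ∃ l1 l2 : List Z2, l ++ l.take 1 = l1 ++ src e :: tgt e :: l2 ∨
    l ++ l.take 1 = l1 ++ tgt e :: src e :: l2

/-- The loop soup in `D`. -/
def soup (D : Finset Z2) (a : ℝ) : Measure (List Z2 → ℕ) :=
  Measure.infinitePi fun l =>
    poissonMeasure (if IsLoopIn (Ed D) l then Real.toNNReal (a * wt l) else 0)

/-- The edges traversed by loops of the configuration `c` that stay in `D`. -/
def openE (D : Finset Z2) (c : List Z2 → ℕ) : Finset Edge :=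
  (Ed D).filter fun e => ∃ l, 0 < c l ∧ IsLoopIn (Ed D) l ∧ Trav l e

/-- Law of the open edges. -/
def pr (D : Finset Z2) (a : ℝ) (O : Finset Edge) : ℝ := (soup D a).real {c | openE D c = O}

/-- Expectation of a function of the open edges. -/
def Ex (D : Finset Z2) (a : ℝ) (F : Finset Edge → ℝ) : ℝ :=
  ∑ O ∈ (Ed D).powerset, pr D a O * F O

/-- Probability that `S` and `T` are not connected by open edges. -/
def disP (D : Finset Z2) (a : ℝ) (S T : Finset Z2) : ℝ :=
  (soup D a).real {c | ¬ ∃ x ∈ S, ∃ y ∈ T, Conn (openE D c) x y}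

/-! ### Gaussian field -/

/-- Independent centred Gaussian variables of variance `1/4`. -/
def Gam : Measure (Z2 → ℝ) := Measure.infinitePi fun _ => gaussianReal 0 (1 / 4)

def H (O : Finset Edge) (f : Z2 → ℝ) : ℝ := ∑ e ∈ O, f (src e) * f (tgt e)

/-- Dirichlet energy of `f` if `f` vanishes off `D`. -/
def En0 (D : Finset Z2) (f : Z2 → ℝ) : ℝ := 4 * ∑ x ∈ D, f x ^ 2 - 2 * H (Ed D) f

/-- Energy over the edges inside `L`. -/
def EnL (L : Finset Z2) (f : Z2 → ℝ) : ℝ := ∑ e ∈ Ed L, (f (src e) - f (tgt e)) ^ 2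

/-- Minus the discrete Laplacian. -/
def lap (f : Z2 → ℝ) (x : Z2) : ℝ :=
  4 * f x - f (x.1 + 1, x.2) - f (x.1 - 1, x.2) - f (x.1, x.2 + 1) - f (x.1, x.2 - 1)

/-- Partition function. -/
def Zp (O : Finset Edge) : ℝ := ∫ f, Real.exp (H O f) ∂Gam

/-- Expectation under the Gaussian free field in `D` (for functions of the field in `D`). -/
def gff (D : Finset Z2) (g : (Z2 → ℝ) → ℝ) : ℝ :=
  (∫ f, g f * Real.exp (H (Ed D) f) ∂Gam) / Zp (Ed D)

/-- Linear functional of the field in `D`. -/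
def lin (D : Finset Z2) (u : Z2 → ℝ) (f : Z2 → ℝ) : ℝ := ∑ x ∈ D, u x * f x

def Cov (D : Finset Z2) (u v : Z2 → ℝ) : ℝ := gff D fun f => lin D u f * lin D v f

/-- Weights of the average over `T`. -/
def avw (T : Finset Z2) : Z2 → ℝ := fun x => if x ∈ T then (T.card : ℝ)⁻¹ else 0

/-- Average of `f` over `T`. -/
def av (T : Finset Z2) (f : Z2 → ℝ) : ℝ := (∑ x ∈ T, f x) / T.card

/-! ### The coupling at intensity `1/2` -/

/-- Sign field: `-1` on `A`, `1` off `A`. -/
def sg (A : Finset Z2) (x : Z2) : ℝ := if x ∈ A then -1 else 1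

def Jf (f : Z2 → ℝ) (e : Edge) : ℝ := |f (src e) * f (tgt e)|

/-- Weight of the open set `O`. -/
def Vc (D : Finset Z2) (f : Z2 → ℝ) (O : Finset Edge) : ℝ :=
  (∑ A ∈ D.powerset, ∏ e ∈ O, (Real.exp (sg A (src e) * sg A (tgt e) * Jf f e) - 1)) / 2 ^ D.card

/-- Weight of the open set `O` and the set `b` of bridged edges. -/
def Wc (D : Finset Z2) (f : Z2 → ℝ) (O b : Finset Edge) : ℝ :=
  Vc D f O * (∏ e ∈ b, (1 - Real.exp (-Jf f e))) * ∏ e ∈ Ed D \ (O ∪ b), Real.exp (-Jf f e)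

/-- Expectation under the coupling (for functions of `|f|` on `D`, `O` and `b`). -/
def cpl (D : Finset Z2) (F : (Z2 → ℝ) → Finset Edge → Finset Edge → ℝ) : ℝ :=
  (∫ f, ∑ O ∈ (Ed D).powerset, ∑ b ∈ (Ed D \ O).powerset, Wc D f O b * F f O b ∂Gam) / Zp (Ed D)

/-- The sign assignments that are constant on the clusters of `ω`. -/
def sgset (D : Finset Z2) (ω : Finset Edge) : Finset (Finset Z2) :=
  D.powerset.filter fun A => ∀ e ∈ ω, (src e ∈ A ↔ tgt e ∈ A)

/-- Average of `g` over independent fair signs of the clusters of `ω`. -/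
def sav (D : Finset Z2) (ω : Finset Edge) (g : (Z2 → ℝ) → ℝ) (f : Z2 → ℝ) : ℝ :=
  (∑ A ∈ sgset D ω, g fun x => sg A x * |f x|) / (sgset D ω).card

/-- Law of field and bridged clusters: given the field, edges with equal signs are open with
probability `1 - exp (-2 J)`. -/
def bri (D : Finset Z2) (F : (Z2 → ℝ) → Finset Edge → ℝ) : ℝ :=
  (∫ f, ∑ ω ∈ (Ed D).powerset,
    (if ∀ e ∈ ω, 0 < f (src e) * f (tgt e) then
      (∏ e ∈ ω, (2 * Real.sinh (Jf f e))) * (∏ e ∈ Ed D \ ω, Real.exp (-Jf f e)) * F f ω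
    else 0) ∂Gam) / Zp (Ed D)

/-- `g` depends only on the values in `D`. -/
def DepOn (D : Finset Z2) {α : Type} (g : (Z2 → ℝ) → α) : Prop :=
  ∀ f f' : Z2 → ℝ, (∀ x ∈ D, f x = f' x) → g f = g f'

/-- Growth condition for integrability. -/
def Tame (D : Finset Z2) (g : (Z2 → ℝ) → ℝ) : Prop :=
  Measurable g ∧ DepOn D g ∧ ∃ C b : ℝ, ∀ f, |g f| ≤ C * Real.exp (b * ∑ x ∈ D, |f x|)

/-- The capacity of `C` in `D` is at least `c`. -/
def CapGE (D C : Finset Z2) (c : ℝ) : Prop :=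
  ∀ f : Z2 → ℝ, (∀ x, x ∉ D → f x = 0) → (∀ x ∈ C, f x = 1) → c ≤ En0 D f

/-! ### Geometry -/

/-- The rectangle of size `40 n × 8 n` (interior points). -/
def Rn (n : ℕ) : Finset Z2 :=
  Finset.Icc (1 : ℤ) (40 * n - 1) ×ˢ Finset.Icc (1 : ℤ) (8 * n - 1)

def Qn (n : ℕ) : Finset Z2 :=
  Finset.Icc (3 * n : ℤ) (5 * n) ×ˢ Finset.Icc (3 * n : ℤ) (5 * n)

def Bn (n : ℕ) : Finset Z2 :=
  Finset.Icc (35 * n : ℤ) (37 * n) ×ˢ Finset.Icc (3 * n : ℤ) (5 * n)

def Rm (n : ℕ) : Finset Z2 :=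
  Finset.Icc (n : ℤ) (39 * n) ×ˢ Finset.Icc (n : ℤ) (7 * n)

/-- The tile of side `r` with lower left corner `r * z`. -/
def tile (r : ℕ) (z : Z2) : Finset Z2 :=
  Finset.Icc (r * z.1) (r * z.1 + r - 1) ×ˢ Finset.Icc (r * z.2) (r * z.2 + r - 1)

/-- The tiles of side `r` (their indices) that meet the `4 r`-neighbourhood of `K ∩ Rm n`. -/
def tiles (n r : ℕ) (K : Finset Z2) : Finset Z2 :=
  ((nbhd (K ∩ Rm n) (4 * r)).image fun z => (z.1 / (r : ℤ), z.2 / (r : ℤ)))

/-- Number of the tiles whose `r`-neighbourhood is hit by `K'`. -/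
def Hk (n r : ℕ) (K K' : Finset Z2) : ℕ :=
  ((tiles n r K).filter fun z => ∃ x ∈ K', x ∈ nbhd (tile r z) r).card

/-- Scales. -/
def rk (n k : ℕ) : ℕ := n / 2 ^ k

end LSoup
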