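import Pool.Agent.LSoup.Stmts

/-!
# Chemical distance in the supercritical random walk loop soup: final statements

Definitions of the problem: boxes `V_N`, inner boundary, continuous time loops, loop measure,
Poisson point processes, open edges, chemical distance.
-/

open MeasureTheory ProbabilityTheory Finset Filter Topology

open scoped Classical ENNReal

noncomputable section

namespace LSoup

/-- The `N × N` box centred at the origin (`N` odd) or at `(1/2,1/2)` (`N` even). -/
def V (N : ℕ) : Finset Z2 :=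
  (Finset.Icc (-(N : ℤ)) N ×ˢ Finset.Icc (-(N : ℤ)) N).filter fun x =>
    -(N : ℤ) < 2 * x.1 ∧ 2 * x.1 ≤ N ∧ -(N : ℤ) < 2 * x.2 ∧ 2 * x.2 ≤ N

/-- Nearest neighbours in `ℤ²`. -/
def Nb (x y : Z2) : Prop := |x.1 - y.1| + |x.2 - y.2| = 1

/-- Inner boundary of `V N`. -/
def bdV (N : ℕ) : Finset Z2 := (V N).filter fun x => ∃ y : Z2, y ∉ V N ∧ Nb x y

/-- The points of `V N` where the jump process is not killed. -/
def VI (N : ℕ) : Finset Z2 := V N \ bdV N

/-! ### Continuous time loops -/

/-- A continuous time rooted loop is given by its number `n` of jumps, its successive positions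
`x 0, …, x n` (with `x n = x 0`) and the times `h 0, …, h n` spent there. -/
abbrev Loop : Type := Σ n : ℕ, (Fin (n + 1) → Z2) × (Fin (n + 1) → ℝ)

/-- The successive positions of a nearest neighbour loop in `D`. -/
def IsSkel (D : Finset Z2) (n : ℕ) (x : Fin (n + 1) → Z2) : Prop :=
  x (Fin.last n) = x 0 ∧ (∀ i, x i ∈ D) ∧ ∀ i : Fin n, Nb (x i.castSucc) (x i.succ)

/-- The loop measure `∑ x, ∫ ℙ^t_{x,x} p_t(x,x) dt / t` of the process that jumps to each neighbour
with rate `1` and is killed when it leaves `D`: the loops with `n` jumps have counting measure on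
the skeletons in `D` and, for the times `h 0, …, h n > 0` (of total duration `t = ∑ h i`), density
`exp (-4 t) / t` with respect to Lebesgue measure. -/
def loopMeasure (D : Finset Z2) : Measure Loop :=
  Measure.sum fun n : ℕ => Measure.map (Sigma.mk n)
    ((Measure.count.restrict {x : Fin (n + 1) → Z2 | IsSkel D n x}).prod
      ((volume.restrict {h : Fin (n + 1) → ℝ | ∀ i, 0 < h i}).withDensity fun h =>
        ENNReal.ofReal (Real.exp (-4 * ∑ i, h i) / ∑ i, h i)))

/-- `L` is a Poisson point process with intensity measure `ν`: a random measure such that the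
masses of disjoint measurable sets are independent and the mass of a set `A` with `ν A < ∞` is a
Poisson variable with mean `ν A`. -/
structure IsPoissonProcess {Ω S : Type} [MeasurableSpace Ω] [MeasurableSpace S] (P : Measure Ω)
    (ν : Measure S) (L : Ω → Measure S) : Prop where
  meas : ∀ A, MeasurableSet A → Measurable fun ω => L ω A
  poisson : ∀ A, MeasurableSet A → ν A ≠ ∞ → P.map (fun ω => L ω A) =
    (poissonMeasure (ν A).toNNReal).map fun k : ℕ => (k : ℝ≥0∞)
  indep : ∀ (ι : Type) [Fintype ι] (A : ι → Set S), (∀ i, MeasurableSet (A i)) →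
    Pairwise (fun i j => Disjoint (A i) (A j)) → iIndepFun (fun i ω => L ω (A i)) P

/-- The loops that jump from `x` to `y` or from `y` to `x`. -/
def Crosses (x y : Z2) : Set Loop :=
  {l | ∃ i : Fin l.1, (l.2.1 i.castSucc = x ∧ l.2.1 i.succ = y) ∨
    (l.2.1 i.castSucc = y ∧ l.2.1 i.succ = x)}

/-- The graph of the open edges of the collection of loops `m`: the edges traversed by at least
one loop. -/
def openG (m : Measure Loop) : SimpleGraph Z2 :=
  SimpleGraph.fromRel fun x y => Nb x y ∧ m (Crosses x y) ≠ 0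

/-- Chemical distance between two sets in the graph `G`. -/
def chem (G : SimpleGraph Z2) (A B : Finset Z2) : ℕ∞ := ⨅ u ∈ A, ⨅ v ∈ B, G.edist u v

/-- Final statement (positive answer to Q1). -/
def Stmt_final : Prop := ∀ (a α β ε : ℝ), 1 / 2 < a → 0 < α → α < β → β < 1 → 0 < ε →
  ∀ (Ω : ℕ → Type) (_ : ∀ N, MeasurableSpace (Ω N)) (P : ∀ N, Measure (Ω N))
    (L : ∀ N, Ω N → Measure Loop), (∀ N, IsProbabilityMeasure (P N)) →
    (∀ N, IsPoissonProcess (P N) (ENNReal.ofReal a • loopMeasure (VI N)) (L N)) →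
    Tendsto (fun N : ℕ => (P N) {ω | (chem (openG (L N ω)) (bdV ⌊α * N⌋₊) (bdV ⌊β * N⌋₊) : ℝ≥0∞)
      ≤ ENNReal.ofReal ((N : ℝ) ^ (1 + ε))}) atTop (𝓝 1)

/-! ### Intermediate statements -/

/-- The graph with edge set `O`. -/
def gr (O : Finset Edge) : SimpleGraph Z2 := SimpleGraph.fromRel (Joined O)

/-- existence of a short open path between `A` and `B` -/
def Short (O : Finset Edge) (A B : Finset Z2) (s : ℝ) : Prop :=
  ∃ u ∈ A, ∃ v ∈ B, (gr O).Reachable u v ∧ ((gr O).dist u v : ℝ) ≤ s

/-- the main result for the discrete soup -/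
def Stmt_main : Prop := ∀ (a α β ε : ℝ), 1 / 2 < a → 0 < α → α < β → β < 1 → 0 < ε →
  Tendsto (fun N : ℕ => (soup (VI N) a).real {c | Short (openE (VI N) c) (bdV ⌊α * N⌋₊)
    (bdV ⌊β * N⌋₊) ((N : ℝ) ^ (1 + ε))}) atTop (𝓝 1)

/-- the law of the set of open edges of the Poisson point process of continuous time loops -/
def Stmt_ppp : Prop := ∀ (D : Finset Z2) (a : ℝ) (Ω : Type) (_ : MeasurableSpace Ω) (P : Measure Ω)
  (L : Ω → Measure Loop) (S : Set (Finset Edge)), 0 ≤ a → IsProbabilityMeasure P →
  IsPoissonProcess P (ENNReal.ofReal a • loopMeasure D) L →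
  P.real {ω | (Ed D).filter (fun e => L ω (Crosses (src e) (tgt e)) ≠ 0) ∈ S}
    = (soup D a).real {c | openE D c ∈ S}

/-- length of a path in terms of the number of available vertices -/
def Stmt_len : Prop := ∀ (O : Finset Edge) (U : Finset Z2) (x y : Z2), x ∈ U → Conn O x y →
  (∀ e ∈ O, src e ∈ U ∧ tgt e ∈ U) → (gr O).Reachable x y ∧ (gr O).dist x y < U.card

end LSoup
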