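import Pool.Agent.LSoup.Stmts

/-!
Module A1 Gap: spectral gap of finite subsets of the square lattice.
-/

open Finset

open scoped Classical

noncomputable section

namespace LSoup

private def gapH (R : ℝ) (x : Z2) : ℝ := R ^ 2 - (x.1 : ℝ) ^ 2

private def gapS (e : Edge) : Z2 := if e.2 then (e.1.1 - 1, e.1.2) else (e.1.1, e.1.2 - 1)

private theorem gapS_tgt (e : Edge) : gapS (tgt e, e.2) = src e := by
  obtain ⟨⟨x, y⟩, b⟩ := e
  cases b <;> simp [gapS, tgt, src]

private theorem gap_amgm (a b p q : ℝ) (hp : 0 < p) (hq : 0 < q) :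
    2 * |a * b| ≤ a ^ 2 * (q / p) + b ^ 2 * (p / q) := by
  have h : a ^ 2 * (q / p) + b ^ 2 * (p / q) - 2 * |a * b| = (|a| * q - |b| * p) ^ 2 / (p * q) := by
    rw [abs_mul]
    have ha : a ^ 2 = |a| ^ 2 := (sq_abs a).symm
    have hb : b ^ 2 = |b| ^ 2 := (sq_abs b).symm
    rw [ha, hb]
    field_simp
    ring
  have h2 : 0 ≤ (|a| * q - |b| * p) ^ 2 / (p * q) := by positivity
  linarith

theorem gap : Stmt_gap := by
  intro D
  set R : ℝ := 2 + ∑ x ∈ D, |(x.1 : ℝ)| with hR
  have hS0 : 0 ≤ ∑ x ∈ D, |(x.1 : ℝ)| := Finset.sum_nonneg fun x _ => abs_nonneg _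
  have hR2 : 2 ≤ R := by linarith
  have hDR : ∀ x ∈ D, |(x.1 : ℝ)| ≤ R - 2 := by
    intro x hx
    have h := Finset.single_le_sum (f := fun x : Z2 => |(x.1 : ℝ)|)
      (fun y _ => abs_nonneg _) hx
    linarith
  have hpos : ∀ t : ℝ, |t| ≤ R - 1 → 0 < R ^ 2 - t ^ 2 := by
    intro t ht
    have h1 := abs_le.mp ht
    nlinarith
  have hh0 : ∀ x ∈ D, 0 < gapH R x := by
    intro x hx
    exact hpos _ (by linarith [hDR x hx])
  have hhp : ∀ x ∈ D, 0 < R ^ 2 - ((x.1 : ℝ) + 1) ^ 2 := by
    intro x hx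
    apply hpos
    have h1 := abs_le.mp (hDR x hx)
    rw [abs_le]
    constructor <;> linarith
  have hhm : ∀ x ∈ D, 0 < R ^ 2 - ((x.1 : ℝ) - 1) ^ 2 := by
    intro x hx
    apply hpos
    have h1 := abs_le.mp (hDR x hx)
    rw [abs_le]
    constructor <;> linarith
  have hR20 : 0 < R ^ 2 := by positivity
  refine ⟨2 / R ^ 2, by positivity, ?_, ?_⟩
  · rw [div_le_iff₀ hR20]
    nlinarith
  intro f
  -- membership
  have hmem : ∀ e ∈ Ed D, src e ∈ D ∧ tgt e ∈ D := by
    intro e he
    simp only [Ed, Finset.mem_filter, Finset.mem_product, Finset.mem_univ, and_true] at he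
    exact he
  have h1 : 2 * |H (Ed D) f| ≤ ∑ e ∈ Ed D,
      (f (src e) ^ 2 * (gapH R (tgt e) / gapH R (src e))
        + f (tgt e) ^ 2 * (gapH R (src e) / gapH R (tgt e))) := by
    have h2 : |H (Ed D) f| ≤ ∑ e ∈ Ed D, |f (src e) * f (tgt e)| := by
      unfold H
      exact Finset.abs_sum_le_sum_abs _ _
    calc 2 * |H (Ed D) f| ≤ 2 * ∑ e ∈ Ed D, |f (src e) * f (tgt e)| := by linarith
      _ = ∑ e ∈ Ed D, 2 * |f (src e) * f (tgt e)| := Finset.mul_sum _ _ _
      _ ≤ _ := Finset.sum_le_sum fun e he =>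
          gap_amgm _ _ _ _ (hh0 _ (hmem e he).1) (hh0 _ (hmem e he).2)
  have h3 : ∑ e ∈ Ed D, f (src e) ^ 2 * (gapH R (tgt e) / gapH R (src e))
      ≤ ∑ e ∈ D ×ˢ (Finset.univ : Finset Bool),
        f (src e) ^ 2 * (gapH R (tgt e) / gapH R (src e)) := by
    apply Finset.sum_le_sum_of_subset_of_nonneg
    · exact Finset.filter_subset _ _
    · intro e he _
      simp only [Finset.mem_product, Finset.mem_univ, and_true] at he
      have hs : 0 < gapH R (src e) := hh0 _ he
      have ht : 0 < gapH R (tgt e) := by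
        obtain ⟨⟨x, y⟩, b⟩ := e
        cases b
        · have := hh0 _ he
          simpa [gapH, tgt] using this
        · have := hhp _ he
          simpa [gapH, tgt] using this
      positivity
  have h4 : ∑ e ∈ Ed D, f (tgt e) ^ 2 * (gapH R (src e) / gapH R (tgt e))
      ≤ ∑ e ∈ D ×ˢ (Finset.univ : Finset Bool),
        f (src e) ^ 2 * (gapH R (gapS e) / gapH R (src e)) := by
    have h5 : ∑ e ∈ Ed D, f (tgt e) ^ 2 * (gapH R (src e) / gapH R (tgt e))
        = ∑ e ∈ (Ed D).image (fun e => ((tgt e, e.2) : Edge)),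
          f (src e) ^ 2 * (gapH R (gapS e) / gapH R (src e)) := by
      rw [Finset.sum_image]
      · apply Finset.sum_congr rfl
        intro e _
        rw [gapS_tgt]
        rfl
      · intro e _ e' _ hee
        obtain ⟨⟨x, y⟩, b⟩ := e
        obtain ⟨⟨x', y'⟩, b'⟩ := e'
        simp only [Prod.mk.injEq] at hee
        obtain ⟨h1, h2⟩ := hee
        subst h2
        cases b <;> simp [tgt] at h1 <;> simp [h1]
    rw [h5]
    apply Finset.sum_le_sum_of_subset_of_nonneg
    · intro e he
      rw [Finset.mem_image] at he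
      obtain ⟨e', he', rfl⟩ := he
      simp only [Finset.mem_product, Finset.mem_univ, and_true]
      exact (hmem e' he').2
    · intro e he _
      simp only [Finset.mem_product, Finset.mem_univ, and_true] at he
      have hs : 0 < gapH R (src e) := hh0 _ he
      have ht : 0 < gapH R (gapS e) := by
        obtain ⟨⟨x, y⟩, b⟩ := e
        cases b
        · have := hh0 _ he
          simpa [gapH, gapS] using this
        · have := hhm _ he
          simpa [gapH, gapS] using this
      positivity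
  rw [Finset.sum_add_distrib] at h1
  have h6 : ∑ e ∈ D ×ˢ (Finset.univ : Finset Bool),
        f (src e) ^ 2 * (gapH R (tgt e) / gapH R (src e))
      + ∑ e ∈ D ×ˢ (Finset.univ : Finset Bool),
        f (src e) ^ 2 * (gapH R (gapS e) / gapH R (src e))
      ≤ (4 - 2 / R ^ 2) * ∑ x ∈ D, f x ^ 2 := by
    rw [← Finset.sum_add_distrib, Finset.sum_product, Finset.mul_sum]
    apply Finset.sum_le_sum
    intro x hx
    rw [Fintype.sum_bool]
    have hx0 := hh0 x hx
    have hle : gapH R x ≤ R ^ 2 := by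
      unfold gapH
      nlinarith [sq_nonneg (x.1 : ℝ)]
    have e1 : f (src (x, true)) ^ 2 * (gapH R (tgt (x, true)) / gapH R (src (x, true)))
        + f (src (x, true)) ^ 2 * (gapH R (gapS (x, true)) / gapH R (src (x, true)))
        + (f (src (x, false)) ^ 2 * (gapH R (tgt (x, false)) / gapH R (src (x, false)))
        + f (src (x, false)) ^ 2 * (gapH R (gapS (x, false)) / gapH R (src (x, false))))
        = f x ^ 2 * (4 - 2 / gapH R x) := by
      have e2 : gapH R (tgt (x, true)) = gapH R x - 2 * x.1 - 1 := by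
        simp [gapH, tgt]
        ring
      have e3 : gapH R (gapS (x, true)) = gapH R x + 2 * x.1 - 1 := by
        simp [gapH, gapS]
        ring
      have e4 : gapH R (tgt (x, false)) = gapH R x := by
        simp [gapH, tgt]
      have e5 : gapH R (gapS (x, false)) = gapH R x := by
        simp [gapH, gapS]
      rw [e2, e3, e4, e5]
      simp only [src]
      field_simp
      ring
    rw [e1, mul_comm]
    apply mul_le_mul_of_nonneg_right _ (sq_nonneg _)
    have h7 : 2 / R ^ 2 ≤ 2 / gapH R x := by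
      apply div_le_div_of_nonneg_left (by norm_num) hx0 hle
    linarith
  linarith

end LSoup
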