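import Pool.Agent.LSoup.Stmts

/-!
Lemma 3: capacity of connected sets near a large connected set of zeroes.
-/

open Finset

open scoped Classical

noncomputable section

namespace LSoup

private theorem ivt {S : Finset Z2} {x u v : Z2} {s : ℕ} (h : Conn (Ed S) u v) (hu : u ∈ S)
    (h1 : nrm u x ≤ s) : s ≤ nrm v x → v ∈ S ∧ ∃ z ∈ S, nrm z x = s := by
  have hvS : ∀ v, Conn (Ed S) u v → v ∈ S := by
    intro v h
    induction h with
    | refl => exact hu
    | @tail b c _ hbc _ =>
      obtain ⟨e, he, h⟩ := hbc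
      have h1 : src e ∈ S ∧ tgt e ∈ S := by
        simp only [Ed, Finset.mem_filter, Finset.mem_product] at he
        exact ⟨he.1.1, he.2⟩
      rcases h with ⟨_, h⟩ | ⟨h, _⟩
      · exact h ▸ h1.2
      · exact h ▸ h1.1
  intro h2
  refine ⟨hvS v h, ?_⟩
  induction h with
  | refl => exact ⟨u, hu, le_antisymm h1 h2⟩
  | @tail b c hub hbc ih =>
    by_cases hb : s ≤ nrm b x
    · exact ih hb
    · refine ⟨c, hvS c (hub.tail hbc), ?_⟩
      clear ih hvS hub
      obtain ⟨⟨⟨e1, e2⟩, t⟩, he, h⟩ := hbc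
      unfold nrm at hb h2 ⊢
      rcases h with ⟨h3, h4⟩ | ⟨h3, h4⟩ <;> cases t <;> simp only [src, tgt] at h3 h4 <;>
        subst h3 <;> subst h4 <;> simp only [Bool.false_eq_true, if_true, if_false] at hb h2 ⊢ <;>
        omega

private def cX (s k : ℕ) : ℤ :=
  if k ≤ 2 * s then -s + k else if k ≤ 4 * s then s else if k ≤ 6 * s then 5 * s - k else -s

private def cY (s k : ℕ) : ℤ :=
  if k ≤ 2 * s then -s else if k ≤ 4 * s then k - 3 * s else if k ≤ 6 * s then s else 7 * s - k

private def cc (x : Z2) (s k : ℕ) : Z2 := (x.1 + cX s k, x.2 + cY s k)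

private def ce (x : Z2) (s k : ℕ) : Edge :=
  if k < 2 * s then (cc x s k, true) else if k < 4 * s then (cc x s k, false)
    else if k < 6 * s then (cc x s (k + 1), true) else (cc x s (k + 1), false)

private theorem ce_ends (x : Z2) (s k : ℕ) (hk : k < 8 * s) :
    (src (ce x s k) = cc x s k ∧ tgt (ce x s k) = cc x s (k + 1)) ∨
      (src (ce x s k) = cc x s (k + 1) ∧ tgt (ce x s k) = cc x s k) := by
  unfold ce
  split_ifs with h1 h2 h3
  · left
    refine ⟨rfl, ?_⟩
    simp only [tgt, if_true, cc, cX, cY]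
    refine Prod.ext ?_ ?_ <;> simp only <;> split_ifs <;> push_cast <;> omega
  · left
    refine ⟨rfl, ?_⟩
    simp only [tgt, Bool.false_eq_true, if_false, cc, cX, cY]
    refine Prod.ext ?_ ?_ <;> simp only <;> split_ifs <;> push_cast <;> omega
  · right
    refine ⟨rfl, ?_⟩
    simp only [tgt, if_true, cc, cX, cY]
    refine Prod.ext ?_ ?_ <;> simp only <;> split_ifs <;> push_cast <;> omega
  · right
    refine ⟨rfl, ?_⟩
    simp only [tgt, Bool.false_eq_true, if_false, cc, cX, cY]
    refine Prod.ext ?_ ?_ <;> simp only <;> split_ifs <;> push_cast <;> omega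

private theorem nrm_cc (x : Z2) (s k : ℕ) (hk : k ≤ 8 * s) : nrm (cc x s k) x = s := by
  unfold nrm cc cX cY
  simp only [add_sub_cancel_left]
  split_ifs <;> omega

private theorem cc_surj {x z : Z2} {s : ℕ} (h : nrm z x = s) : ∃ k ≤ 8 * s, cc x s k = z := by
  unfold nrm at h
  by_cases h1 : z.2 - x.2 = -s
  · refine ⟨(z.1 - x.1 + s).toNat, by omega, ?_⟩
    unfold cc cX cY
    refine Prod.ext ?_ ?_ <;> simp only <;> split_ifs <;> omega
  by_cases h2 : z.1 - x.1 = s
  · refine ⟨(z.2 - x.2 + 3 * s).toNat, by omega, ?_⟩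
    unfold cc cX cY
    refine Prod.ext ?_ ?_ <;> simp only <;> split_ifs <;> omega
  by_cases h3 : z.2 - x.2 = s
  · refine ⟨(5 * s - (z.1 - x.1)).toNat, by omega, ?_⟩
    unfold cc cX cY
    refine Prod.ext ?_ ?_ <;> simp only <;> split_ifs <;> omega
  · refine ⟨(7 * s - (z.2 - x.2)).toNat, by omega, ?_⟩
    unfold cc cX cY
    refine Prod.ext ?_ ?_ <;> simp only <;> split_ifs <;> omega

private theorem ce_inj {x : Z2} {s k k' : ℕ} (hk : k < 8 * s) (hk' : k' < 8 * s)
    (h : ce x s k = ce x s k') : k = k' := by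
  unfold ce cc cX cY at h
  split_ifs at h <;> simp only [Prod.mk.injEq, Bool.true_eq_false, Bool.false_eq_true, and_false,
    and_true, add_right_inj] at h <;> omega

private theorem ce_mem {x : Z2} {s k r : ℕ} (hs : s ≤ r) (hk : k < 8 * s) :
    ce x s k ∈ (Ed (bx x r)).filter fun e => nrm (src e) x = s := by
  have hm : ∀ k ≤ 8 * s, cc x s k ∈ bx x r := by
    intro k hk
    have := nrm_cc x s k hk
    unfold nrm at this
    simp only [bx, Finset.mem_product, Finset.mem_Icc]
    omega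
  have h1 := ce_ends x s k hk
  have h2 := nrm_cc x s k hk.le
  have h3 := nrm_cc x s (k + 1) hk
  simp only [Finset.mem_filter, Ed, Finset.mem_product, Finset.mem_univ, and_true]
  have hsrc : (ce x s k).1 = src (ce x s k) := rfl
  rw [hsrc]
  rcases h1 with ⟨h4, h5⟩ | ⟨h4, h5⟩
  · rw [h4, h5]
    exact ⟨⟨hm k hk.le, hm (k + 1) hk⟩, h2⟩
  · rw [h4, h5]
    exact ⟨⟨hm (k + 1) hk, hm k hk.le⟩, h3⟩

private theorem tele (g : ℕ → ℝ) {a b n : ℕ} (ha : a ≤ b) (hb : b ≤ n) :
    |g b - g a| ≤ ∑ k ∈ range n, |g (k + 1) - g k| := by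
  have h1 : |g b - g a| ≤ ∑ k ∈ Finset.Ico a b, |g (k + 1) - g k| := by
    rw [← Finset.sum_Ico_sub g ha]
    exact Finset.abs_sum_le_sum_abs _ _
  refine h1.trans (Finset.sum_le_sum_of_subset_of_nonneg ?_ fun _ _ _ => abs_nonneg _)
  intro k hk
  rw [Finset.mem_Ico] at hk
  rw [Finset.mem_range]
  omega

theorem ring_ (he : Stmt_en) : Stmt_ring := by
  intro D K C x y q r hK hC hKD hCD hx hy hq hxy hqx hw hr f hf0 hf1
  obtain ⟨w, hwK, hwx⟩ := hw
  refine le_trans ?_ ((he D f hf0).1 (bx x r))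
  -- energy of one ring
  have hring : ∀ s, 1 ≤ s → s ≤ r →
      1 / (8 * (s : ℝ)) ≤ ∑ e ∈ (Ed (bx x r)).filter (fun e => nrm (src e) x = s),
        (f (src e) - f (tgt e)) ^ 2 := by
    intro s hs1 hsr
    have hyx : nrm y x ≤ s := by
      have : nrm y x = nrm x y := by
        unfold nrm
        omega
      omega
    obtain ⟨zc, hzc, hzc'⟩ := (ivt (hC y hy q hq) hy hyx (by omega)).2
    have hxx : nrm x x ≤ s := by
      unfold nrm
      simp
    obtain ⟨zk, hzk, hzk'⟩ := (ivt (hK x hx w hwK) hx hxx (by omega)).2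
    obtain ⟨k1, hk1, e1⟩ := cc_surj hzc'
    obtain ⟨k2, hk2, e2⟩ := cc_surj hzk'
    have f1 : f (cc x s k1) = 1 := by rw [e1]; exact hf1 zc hzc
    have f2 : f (cc x s k2) = 0 := by
      rw [e2]
      exact hf0 zk fun h => Finset.disjoint_left.1 hKD hzk h
    have hsum : 1 ≤ ∑ k ∈ range (8 * s), |f (cc x s (k + 1)) - f (cc x s k)| := by
      rcases le_total k1 k2 with h | h
      · have := tele (fun k => f (cc x s k)) h hk2
        simpa [f1, f2] using this
      · have := tele (fun k => f (cc x s k)) h hk1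
        simpa [f1, f2] using this
    have hcs : (∑ k ∈ range (8 * s), |f (cc x s (k + 1)) - f (cc x s k)|) ^ 2
        ≤ (8 * s : ℕ) * ∑ k ∈ range (8 * s), (f (cc x s (k + 1)) - f (cc x s k)) ^ 2 := by
      have := sq_sum_le_card_mul_sum_sq (s := range (8 * s))
        (f := fun k => |f (cc x s (k + 1)) - f (cc x s k)|)
      simpa [sq_abs] using this
    have hsq : (1 : ℝ) ≤ (∑ k ∈ range (8 * s), |f (cc x s (k + 1)) - f (cc x s k)|) ^ 2 := by
      nlinarith
    have hle : ∑ k ∈ range (8 * s), (f (cc x s (k + 1)) - f (cc x s k)) ^ 2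
        ≤ ∑ e ∈ (Ed (bx x r)).filter (fun e => nrm (src e) x = s), (f (src e) - f (tgt e)) ^ 2 := by
      have e3 : ∑ k ∈ range (8 * s), (f (cc x s (k + 1)) - f (cc x s k)) ^ 2
          = ∑ k ∈ range (8 * s), (f (src (ce x s k)) - f (tgt (ce x s k))) ^ 2 := by
        refine Finset.sum_congr rfl fun k hk => ?_
        rcases ce_ends x s k (Finset.mem_range.1 hk) with ⟨h4, h5⟩ | ⟨h4, h5⟩
        · rw [h4, h5]; ring
        · rw [h4, h5]
      rw [e3, ← Finset.sum_image (s := range (8 * s)) (g := ce x s)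
        (f := fun e => (f (src e) - f (tgt e)) ^ 2)]
      · refine Finset.sum_le_sum_of_subset_of_nonneg ?_ fun _ _ _ => sq_nonneg _
        intro e hem
        obtain ⟨k, hk, rfl⟩ := Finset.mem_image.1 hem
        exact ce_mem hsr (Finset.mem_range.1 hk)
      · intro k hk k' hk' hkk
        have hk := Finset.mem_range.1 (Finset.mem_coe.1 hk)
        have hk' := Finset.mem_range.1 (Finset.mem_coe.1 hk')
        exact ce_inj hk hk' hkk
    have hs0 : (0 : ℝ) < 8 * s := by
      have : (1 : ℝ) ≤ s := by exact_mod_cast hs1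
      linarith
    rw [div_le_iff₀ hs0]
    push_cast at hcs
    nlinarith [mul_le_mul_of_nonneg_left hle hs0.le]
  -- sum over the rings
  have htot : ∑ s ∈ range r, (1 / (8 * ((s : ℝ) + 1))) ≤ EnL (bx x r) f := by
    have h1 : ∑ s ∈ range r, (1 / (8 * ((s : ℝ) + 1)))
        ≤ ∑ s ∈ range r, ∑ e ∈ (Ed (bx x r)).filter (fun e => nrm (src e) x = s + 1),
          (f (src e) - f (tgt e)) ^ 2 := by
      refine Finset.sum_le_sum fun s hs => ?_
      have := hring (s + 1) (by omega) (by have := Finset.mem_range.1 hs; omega)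
      push_cast at this
      exact this
    refine h1.trans ?_
    unfold EnL
    simp only [Finset.sum_filter]
    rw [Finset.sum_comm]
    refine Finset.sum_le_sum fun e _ => ?_
    by_cases h0 : nrm (src e) x = 0
    · rw [Finset.sum_eq_zero]
      · exact sq_nonneg _
      · intro s _
        rw [if_neg (by omega)]
    · obtain ⟨t, ht⟩ : ∃ t, nrm (src e) x = t + 1 := ⟨nrm (src e) x - 1, by omega⟩
      have h2 : ∀ s ∈ range r, (if nrm (src e) x = s + 1 then (f (src e) - f (tgt e)) ^ 2 else 0)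
          = if t = s then (f (src e) - f (tgt e)) ^ 2 else 0 := by
        intro s _
        rw [ht]
        simp
      rw [Finset.sum_congr rfl h2, Finset.sum_ite_eq]
      split_ifs
      · exact le_rfl
      · exact sq_nonneg _
  refine le_trans ?_ htot
  have hlog := log_add_one_le_harmonic r
  have hlog2 : Real.log r ≤ Real.log (((r : ℕ) + 1 : ℕ) : ℝ) := by
    refine Real.log_le_log (by exact_mod_cast hr) ?_
    push_cast
    linarith
  have hh : ((harmonic r : ℚ) : ℝ) = ∑ s ∈ range r, ((s : ℝ) + 1)⁻¹ := by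
    unfold harmonic
    push_cast
    rfl
  rw [hh] at hlog
  have e5 : ∑ s ∈ range r, (1 / (8 * ((s : ℝ) + 1))) = 1 / 8 * ∑ s ∈ range r, ((s : ℝ) + 1)⁻¹ := by
    rw [Finset.mul_sum]
    refine Finset.sum_congr rfl fun s _ => ?_
    rw [one_div, mul_inv]
    ring
  rw [e5]
  push_cast at hlog hlog2
  linarith

end LSoup
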