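import Pool.Agent.LSoup.Stmts2

/-!
# The Dirichlet problem
-/

open MeasureTheory ProbabilityTheory Finset Filter Topology

open scoped Classical

noncomputable section

namespace LSoup

theorem Solve_max (D : Finset Z2) (w : Z2 → ℝ) (h0 : ∀ x, x ∉ D → w x = 0)
    (hl : ∀ z ∈ D, 0 ≤ lap w z) : ∀ z, 0 ≤ w z := by
  by_contra hcon
  push Not at hcon
  obtain ⟨z0, hz0⟩ := hcon
  have hz0D : z0 ∈ D := by
    by_contra h
    rw [h0 z0 h] at hz0
    exact lt_irrefl _ hz0
  obtain ⟨m, hmD, hm⟩ := D.exists_min_image w ⟨z0, hz0D⟩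
  have hmneg : w m < 0 := lt_of_le_of_lt (hm z0 hz0D) hz0
  have hall : ∀ x, w m ≤ w x := by
    intro x
    by_cases hx : x ∈ D
    · exact hm x hx
    · rw [h0 x hx]
      exact hmneg.le
  obtain ⟨p, hpM, hp⟩ := (D.filter fun x => w x = w m).exists_max_image (fun x => x.1)
    ⟨m, Finset.mem_filter.2 ⟨hmD, rfl⟩⟩
  obtain ⟨hpD, hpw⟩ := Finset.mem_filter.1 hpM
  have hr : w m < w (p.1 + 1, p.2) := by
    rcases (hall (p.1 + 1, p.2)).lt_or_eq with h | h
    · exact h
    · exfalso
      have hD : ((p.1 + 1, p.2) : Z2) ∈ D := by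
        by_contra hx
        rw [h0 _ hx] at h
        exact hmneg.ne h
      have h2 := hp (p.1 + 1, p.2) (Finset.mem_filter.2 ⟨hD, h.symm⟩)
      simp only at h2
      linarith
  have h3 := hl p hpD
  unfold lap at h3
  rw [hpw] at h3
  have h4 := hall (p.1 - 1, p.2)
  have h5 := hall (p.1, p.2 + 1)
  have h6 := hall (p.1, p.2 - 1)
  linarith

/-- extension by zero -/
def Solve_E (D : Finset Z2) (f : D → ℝ) (x : Z2) : ℝ := if h : x ∈ D then f ⟨x, h⟩ else 0

theorem Solve_E_add (D : Finset Z2) (f g : D → ℝ) (x : Z2) :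
    Solve_E D (f + g) x = Solve_E D f x + Solve_E D g x := by
  unfold Solve_E
  split_ifs <;> simp

theorem Solve_E_smul (D : Finset Z2) (c : ℝ) (f : D → ℝ) (x : Z2) :
    Solve_E D (c • f) x = c * Solve_E D f x := by
  unfold Solve_E
  split_ifs <;> simp

/-- the Laplacian as a linear map -/
def Solve_T (D : Finset Z2) : (D → ℝ) →ₗ[ℝ] (D → ℝ) where
  toFun f := fun z => lap (Solve_E D f) z
  map_add' f g := by
    funext z
    simp only [lap, Solve_E_add, Pi.add_apply]
    ring
  map_smul' c f := by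
    funext z
    simp only [lap, Solve_E_smul, Pi.smul_apply, smul_eq_mul, RingHom.id_apply]
    ring

theorem Solve_inj (D : Finset Z2) : Function.Injective (Solve_T D) := by
  rw [← LinearMap.ker_eq_bot, LinearMap.ker_eq_bot']
  intro f hf
  have h0 : ∀ x, x ∉ D → Solve_E D f x = 0 := fun x hx => by
    unfold Solve_E
    rw [dif_neg hx]
  have hl : ∀ z ∈ D, lap (Solve_E D f) z = 0 := fun z hz => congrFun hf ⟨z, hz⟩
  have h1 := Solve_max D (Solve_E D f) h0 fun z hz => (hl z hz).ge
  have h2 := Solve_max D (fun x => -Solve_E D f x) (fun x hx => by rw [h0 x hx, neg_zero])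
    fun z hz => by
      have h3 := hl z hz
      unfold lap at h3 ⊢
      linarith
  funext x
  have h3 := h1 x
  have h4 := h2 x
  unfold Solve_E at h3 h4
  rw [dif_pos x.2] at h3 h4
  simp only [Subtype.coe_eta] at h3 h4
  simp only [Pi.zero_apply]
  linarith

theorem solve (_hg : Stmt_gap) : Stmt_solve := by
  intro D u
  obtain ⟨f, hf⟩ := (LinearMap.injective_iff_surjective.1 (Solve_inj D)) fun z => u z
  have h0 : ∀ x, x ∉ D → Solve_E D f x = 0 := fun x hx => by
    unfold Solve_E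
    rw [dif_neg hx]
  have hl : ∀ z ∈ D, lap (Solve_E D f) z = u z := fun z hz => congrFun hf ⟨z, hz⟩
  exact ⟨Solve_E D f, h0, hl, fun hu => Solve_max D _ h0 fun z hz => by rw [hl z hz]; exact hu z⟩

end LSoup
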